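import Pool.Agent.MP_e62289_ag.A1

open Set Filter Topology Complex MeasureTheory Metric
open scoped Manifold ContDiff ComplexConjugate NNReal ENNReal

namespace Pool.Agent.MP_e62289_ag

section Aux

variable {X : Type} [NormedAddCommGroup X] [NormedSpace ℝ X]

theorem A3a_fd_apply {F : X → ℝ} {p : X} (hF : ContDiffAt ℝ 2 F p) (U V : X) :
    fderiv ℝ (fun z => fderiv ℝ F z V) p U = fderiv ℝ (fderiv ℝ F) p U V := by
  have h1 : DifferentiableAt ℝ (fderiv ℝ F) p :=
    (hF.fderiv_right (m := 1) (by norm_num)).differentiableAt (by norm_num)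
  have h2 := (h1.hasFDerivAt.clm_apply (hasFDerivAt_const V p)).fderiv
  rw [h2]
  simp

theorem A3a_line1 {F : X → ℝ} {p U : X} {t : ℝ} (hF : DifferentiableAt ℝ F (p + t • U)) :
    HasDerivAt (fun t : ℝ => F (p + t • U)) (fderiv ℝ F (p + t • U) U) t := by
  have h1 : HasDerivAt (fun t : ℝ => p + t • U) U t := by
    simpa using ((hasDerivAt_id t).smul_const U).const_add p
  exact hF.hasFDerivAt.comp_hasDerivAt t h1

theorem A3a_line_cd {F : X → ℝ} {p : X} (hF : ContDiffAt ℝ 2 F p) (U : X) :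
    ContDiffAt ℝ 2 (fun t : ℝ => F (p + t • U)) 0 := by
  have h1 : ContDiffAt ℝ 2 (fun t : ℝ => p + t • U) 0 := by fun_prop
  have h2 : ContDiffAt ℝ 2 F ((fun t : ℝ => p + t • U) 0) := by simpa using hF
  exact h2.comp 0 h1

theorem A3a_line2 {F : X → ℝ} {p : X} (hF : ContDiffAt ℝ 2 F p) (U : X) :
    deriv (deriv (fun t : ℝ => F (p + t • U))) 0 = fderiv ℝ (fderiv ℝ F) p U U := by
  have h0 : Tendsto (fun t : ℝ => p + t • U) (𝓝 0) (𝓝 p) := by
    have : Continuous (fun t : ℝ => p + t • U) := by fun_prop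
    simpa using this.tendsto 0
  have h1 : ∀ᶠ z in 𝓝 p, DifferentiableAt ℝ F z :=
    (hF.eventually (by simp)).mono fun z hz => hz.differentiableAt (by norm_num)
  have h2 : deriv (fun t : ℝ => F (p + t • U)) =ᶠ[𝓝 0] fun t => fderiv ℝ F (p + t • U) U :=
    (h0.eventually h1).mono fun t ht => (A3a_line1 ht).deriv
  rw [h2.deriv_eq]
  have h3 : DifferentiableAt ℝ (fun z => fderiv ℝ F z U) (p + (0 : ℝ) • U) := by
    have : DifferentiableAt ℝ (fderiv ℝ F) p :=
      (hF.fderiv_right (m := 1) (by norm_num)).differentiableAt (by norm_num)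
    simpa using this.clm_apply (differentiableAt_const U)
  have h4 := (A3a_line1 h3).deriv
  rw [h4]
  simpa using A3a_fd_apply hF U U

theorem A3a_poly {A B C : ℝ → ℝ} (hA : ContDiffAt ℝ 2 A 0) (hB : ContDiffAt ℝ 2 B 0)
    (hC : ContDiffAt ℝ 2 C 0) :
    deriv (deriv (fun t => A t + t * B t + t ^ 2 * C t)) 0 =
      deriv (deriv A) 0 + 2 * deriv B 0 + 2 * C 0 := by
  have ev : ∀ {A : ℝ → ℝ}, ContDiffAt ℝ 2 A 0 → ∀ᶠ t in 𝓝 (0 : ℝ), HasDerivAt A (deriv A t) t :=
    fun h => (h.eventually (by simp)).mono fun z hz =>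
      (hz.differentiableAt (by norm_num)).hasDerivAt
  have d2 : ∀ {A : ℝ → ℝ}, ContDiffAt ℝ 2 A 0 → HasDerivAt (deriv A) (deriv (deriv A) 0) 0 := by
    intro A h
    have h1 : DifferentiableAt ℝ (fderiv ℝ A) 0 :=
      (h.fderiv_right (m := 1) (by norm_num)).differentiableAt (by norm_num)
    have h2 : DifferentiableAt ℝ (fun t => fderiv ℝ A t 1) 0 :=
      h1.clm_apply (differentiableAt_const _)
    exact h2.hasDerivAt
  have h1 : deriv (fun t => A t + t * B t + t ^ 2 * C t) =ᶠ[𝓝 0]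
      fun t => deriv A t + (B t + t * deriv B t) + (2 * t * C t + t ^ 2 * deriv C t) := by
    filter_upwards [ev hA, ev hB, ev hC] with t ha hb hc
    have := (ha.add ((hasDerivAt_id t).mul hb)).add ((hasDerivAt_pow 2 t).mul hc)
    refine (HasDerivAt.deriv this).trans ?_
    simp
  rw [h1.deriv_eq]
  have hb := (ev hB).self_of_nhds
  have hc := (ev hC).self_of_nhds
  have := ((d2 hA).add (hb.add ((hasDerivAt_id (0 : ℝ)).mul (d2 hB)))).add
    ((((hasDerivAt_id (0 : ℝ)).const_mul 2).mul hc).add ((hasDerivAt_pow 2 (0 : ℝ)).mul (d2 hC)))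
  refine (HasDerivAt.deriv this).trans ?_
  simp
  ring

theorem A3a_lap_comp [NormedSpace ℂ X] [IsScalarTower ℝ ℂ X] {F : X → ℝ} {Φ P : ℂ → X} {ζ : ℂ}
    {P' : X} (hF : ContDiffAt ℝ 2 F (Φ ζ)) (h1 : ∀ᶠ y in 𝓝 ζ, HasDerivAt Φ (P y) y)
    (h2 : HasDerivAt P P' ζ) :
    lap (fun y => F (Φ y)) ζ = fderiv ℝ (fderiv ℝ F) (Φ ζ) (P ζ) (P ζ) +
      fderiv ℝ (fderiv ℝ F) (Φ ζ) (I • P ζ) (I • P ζ) := by
  have hΦ := h1.self_of_nhds
  have hd : ∀ᶠ z in 𝓝 (Φ ζ), DifferentiableAt ℝ F z :=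
    (hF.eventually (by simp)).mono fun z hz => hz.differentiableAt (by norm_num)
  have hDF : DifferentiableAt ℝ (fderiv ℝ F) (Φ ζ) :=
    (hF.fderiv_right (m := 1) (by norm_num)).differentiableAt (by norm_num)
  have key : ∀ e : ℂ, fderiv ℝ (fun z => fderiv ℝ (fun y => F (Φ y)) z e) ζ e =
      fderiv ℝ (fderiv ℝ F) (Φ ζ) (e • P ζ) (e • P ζ) + fderiv ℝ F (Φ ζ) (e • e • P') := by
    intro e
    have e1 : (fun z => fderiv ℝ (fun y => F (Φ y)) z e) =ᶠ[𝓝 ζ]
        fun z => fderiv ℝ F (Φ z) (e • P z) := by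
      filter_upwards [h1, hΦ.continuousAt.tendsto.eventually hd] with z hz hz'
      have := (hz'.hasFDerivAt.comp z (hz.hasFDerivAt.restrictScalars ℝ)).fderiv
      change fderiv ℝ (F ∘ Φ) z e = _
      rw [this]
      simp
    rw [e1.fderiv_eq]
    have a1 := hDF.hasFDerivAt.comp ζ (hΦ.hasFDerivAt.restrictScalars ℝ)
    have a2 := (h2.const_smul e).hasFDerivAt.restrictScalars ℝ
    have a3 := (a1.clm_apply a2).fderiv
    change fderiv ℝ (fun z => (fderiv ℝ F ∘ Φ) z ((e • P) z)) ζ e = _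
    rw [a3]
    simp [add_comm]
  rw [lap, key, key]
  have : (I : ℂ) • (I : ℂ) • P' = -P' := by rw [smul_smul, I_mul_I, neg_one_smul]
  rw [this, map_neg]
  simp only [one_smul]
  ring

theorem A3a_quad {G : X → X →L[ℝ] X →L[ℝ] ℝ} {z : X} (hG : ContDiffAt ℝ 2 G z) (T u a : X) :
    fderiv ℝ (fderiv ℝ (fun p : X × X => G p.1 p.2 p.2)) (z, T) (u, a) (u, a) =
      fderiv ℝ (fun w => fderiv ℝ (fun w => G w T T) w u) z u +
        2 * (fderiv ℝ (fun w => G w a T) z u + fderiv ℝ (fun w => G w T a) z u) +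
        2 * G z a a := by
  have hs : ∀ v w, ContDiffAt ℝ 2 (fun y => G y v w) z := fun v w =>
    (hG.clm_apply contDiffAt_const).clm_apply contDiffAt_const
  have hF : ContDiffAt ℝ 2 (fun p : X × X => G p.1 p.2 p.2) (z, T) := by
    have h1 : ContDiffAt ℝ 2 (fun p : X × X => G p.1) (z, T) :=
      ContDiffAt.comp (g := G) (z, T) hG contDiffAt_fst
    exact (h1.clm_apply contDiffAt_snd).clm_apply contDiffAt_snd
  rw [← A3a_line2 hF (u, a)]
  have e : (fun t : ℝ => (fun p : X × X => G p.1 p.2 p.2) ((z, T) + t • (u, a))) =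
      fun t : ℝ => G (z + t • u) T T + t * (G (z + t • u) a T + G (z + t • u) T a) +
        t ^ 2 * G (z + t • u) a a := by
    funext t
    simp
    ring
  rw [e, A3a_poly (A3a_line_cd (hs T T) u) ((A3a_line_cd (hs a T) u).add (A3a_line_cd (hs T a) u))
    (A3a_line_cd (hs a a) u), A3a_line2 (hs T T) u, A3a_fd_apply (hs T T)]
  have d : ∀ v w, HasDerivAt (fun t : ℝ => G (z + t • u) v w) (fderiv ℝ (fun y => G y v w) z u) 0 := by
    intro v w
    have h3 : DifferentiableAt ℝ (fun y => G y v w) (z + (0 : ℝ) • u) := by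
      simpa using (hs v w).differentiableAt (by norm_num)
    simpa using A3a_line1 h3
  have := ((d a T).add (d T a)).deriv
  change deriv (fun t : ℝ => G (z + t • u) a T + G (z + t • u) T a) 0 = _ at this
  rw [this]
  simp

end Aux

variable {E : Type} [NormedAddCommGroup E] [NormedSpace ℂ E] [FiniteDimensional ℂ E]
  {B : Type} [EMetricSpace B] [ChartedSpace E B] [IsManifold 𝓘(ℂ, E) ω B]

omit [IsManifold 𝓘(ℂ, E) ω B] in
/-- the Laplacian of the pulled back metric along a holomorphic curve in one chart -/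
theorem lap_pull (k : KData E B) (x : B) {φ : ℂ → E} {ζ : ℂ} (hφ : AnalyticAt ℂ φ ζ)
    (hx : φ ζ ∈ (chartAt E x).target) :
    -(2 * k.K * (k.G x (φ ζ) (deriv φ ζ) (deriv φ ζ)) ^ 2) ≤
      lap (fun y => k.G x (φ y) (deriv φ y) (deriv φ y)) ζ := by
  have : CompleteSpace E := FiniteDimensional.complete ℂ E
  have hG : ContDiffAt ℝ 2 (k.G x) (φ ζ) :=
    ((k.smooth x).contDiffAt ((chartAt E x).open_target.mem_nhds hx)).of_le (by
      exact WithTop.coe_le_coe.2 (le_top : (2 : ℕ∞) ≤ ⊤))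
  have hF : ContDiffAt ℝ 2 (fun p : E × E => k.G x p.1 p.2 p.2) (φ ζ, deriv φ ζ) := by
    have h1 : ContDiffAt ℝ 2 (fun p : E × E => k.G x p.1) (φ ζ, deriv φ ζ) :=
      ContDiffAt.comp (g := k.G x) (φ ζ, deriv φ ζ) hG contDiffAt_fst
    exact (h1.clm_apply contDiffAt_snd).clm_apply contDiffAt_snd
  have h1 : ∀ᶠ y in 𝓝 ζ, HasDerivAt (fun y => (φ y, deriv φ y)) (deriv φ y, deriv (deriv φ) y) y := by
    filter_upwards [hφ.eventually_analyticAt] with y hy
    exact hy.differentiableAt.hasDerivAt.prodMk hy.deriv.differentiableAt.hasDerivAt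
  have h2 : HasDerivAt (fun y => (deriv φ y, deriv (deriv φ) y))
      (deriv (deriv φ) ζ, deriv (deriv (deriv φ)) ζ) ζ :=
    hφ.deriv.differentiableAt.hasDerivAt.prodMk hφ.deriv.deriv.differentiableAt.hasDerivAt
  have h3 := A3a_lap_comp (F := fun p : E × E => k.G x p.1 p.2 p.2)
    (Φ := fun y => (φ y, deriv φ y)) hF h1 h2
  simp only [Prod.smul_mk] at h3
  rw [h3, A3a_quad hG, A3a_quad hG]
  set z := φ ζ
  set T := deriv φ ζ
  set a := deriv (deriv φ) ζ
  have hb := (abs_le.1 (k.bisec x z hx T T)).2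
  simp only [k.metric x z hx]
  have g1 : ∀ u v, k.Γ x z (I • u) v = I • k.Γ x z u v := fun u v => by
    rw [k.Γ_symm x z hx, k.Γ_I x z hx, k.Γ_symm x z hx]
  have g2 : k.Γ x z (I • T) (I • a) = -k.Γ x z T a := by
    rw [g1, k.Γ_I x z hx, smul_smul, I_mul_I, neg_one_smul]
  rw [g2, g1 T T, k.herm x z hx, k.herm x z hx, k.herm x z hx]
  have hp : 0 ≤ k.G x z (a + k.Γ x z T T) (a + k.Γ x z T T) := by
    by_cases h : a + k.Γ x z T T = 0
    · simp [h]
    · exact (k.pos x z hx _ h).le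
  simp only [map_add, map_neg, add_apply, neg_apply] at hp ⊢
  nlinarith [hp, hb]

end Pool.Agent.MP_e62289_ag
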