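import Pool.Agent.MP_e62289_ag.A1
import Pool.Agent.MP_e62289_ag.A3a

open Set Filter Topology Complex MeasureTheory Metric
open scoped Manifold ContDiff ComplexConjugate NNReal ENNReal

namespace Pool.Agent.MP_e62289_ag

variable {E : Type} [NormedAddCommGroup E] [NormedSpace ℂ E] [FiniteDimensional ℂ E]
  {B : Type} [EMetricSpace B] [ChartedSpace E B] [IsManifold 𝓘(ℂ, E) ω B]

theorem A3b_lap_congr {w w' : ℂ → ℝ} {z : ℂ} (h : w =ᶠ[𝓝 z] w') : lap w z = lap w' z := by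
  have h1 : ∀ e : ℂ, (fun z => fderiv ℝ w z e) =ᶠ[𝓝 z] fun z => fderiv ℝ w' z e := fun e =>
    (h.fderiv (𝕜 := ℝ)).mono fun y hy => by simp only [hy]
  rw [lap, lap, (h1 1).fderiv_eq, (h1 I).fderiv_eq]

omit [FiniteDimensional ℂ E] [IsManifold 𝓘(ℂ, E) ω B] in
theorem A3b_nhds {f : ℂ → B} (hf : MDifferentiableOn 𝓘(ℂ, ℂ) 𝓘(ℂ, E) f (ball 0 1)) {x : B}
    {y : ℂ} (hy : y ∈ ball (0 : ℂ) 1) (hx : f y ∈ (chartAt E x).source) :
    ∀ᶠ z in 𝓝 y, z ∈ ball (0 : ℂ) 1 ∧ f z ∈ (chartAt E x).source :=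
  (show ∀ᶠ z in 𝓝 y, z ∈ ball (0 : ℂ) 1 from isOpen_ball.mem_nhds hy).and
    ((hf.continuousOn.continuousAt (isOpen_ball.mem_nhds hy)).eventually
      ((chartAt E x).open_source.mem_nhds hx))

theorem A3b_analytic {f : ℂ → B} (hf : MDifferentiableOn 𝓘(ℂ, ℂ) 𝓘(ℂ, E) f (ball 0 1)) {x : B}
    {y : ℂ} (hy : y ∈ ball (0 : ℂ) 1) (hx : f y ∈ (chartAt E x).source) :
    AnalyticAt ℂ (chartAt E x ∘ f) y := by
  have := FiniteDimensional.complete ℂ E
  rw [analyticAt_iff_eventually_differentiableAt]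
  filter_upwards [A3b_nhds hf hy hx] with z hz
  exact mdifferentiableAt_iff_differentiableAt.1
    ((mdifferentiableAt_atlas (I := 𝓘(ℂ, E)) (chart_mem_atlas E x) hz.2).comp z
      (hf.mdifferentiableAt (isOpen_ball.mem_nhds hz.1)))

theorem A3b_chain {f : ℂ → B} (hf : MDifferentiableOn 𝓘(ℂ, ℂ) 𝓘(ℂ, E) f (ball 0 1)) {x x' : B}
    {y : ℂ} (hy : y ∈ ball (0 : ℂ) 1) (hx : f y ∈ (chartAt E x).source)
    (hx' : f y ∈ (chartAt E x').source) (v : ℂ) :
    fderiv ℝ (chartAt E x' ∘ (chartAt E x).symm) (chartAt E x (f y))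
      (v • deriv (chartAt E x ∘ f) y) = v • deriv (chartAt E x' ∘ f) y := by
  have h1 : DifferentiableAt ℂ (chartAt E x' ∘ (chartAt E x).symm) (chartAt E x (f y)) := by
    refine mdifferentiableAt_iff_differentiableAt.1
      (MDifferentiableAt.comp (I' := 𝓘(ℂ, E)) _ ?_ (mdifferentiableAt_atlas_symm
        (I := 𝓘(ℂ, E)) (chart_mem_atlas E x) ((chartAt E x).map_source hx)))
    rw [(chartAt E x).left_inv hx]
    exact mdifferentiableAt_atlas (I := 𝓘(ℂ, E)) (chart_mem_atlas E x') hx'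
  have h2 := h1.hasFDerivAt.comp_hasDerivAt y (A3b_analytic hf hy hx).differentiableAt.hasDerivAt
  have h3 : (chartAt E x' ∘ f) =ᶠ[𝓝 y]
      (chartAt E x' ∘ (chartAt E x).symm) ∘ (chartAt E x ∘ f) := by
    filter_upwards [A3b_nhds hf hy hx] with z hz
    simp only [Function.comp_apply, (chartAt E x).left_inv hz.2]
  rw [h3.deriv_eq, h2.deriv, (h1.hasFDerivAt.restrictScalars ℝ).fderiv]
  simp

/-- multiples of a vector -/
noncomputable def A3b_sm : E →L[ℝ] ℂ →L[ℝ] E := (ContinuousLinearMap.lsmul ℝ ℂ).flip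

omit [FiniteDimensional ℂ E] in
theorem A3b_sm_apply (T : E) (v : ℂ) : A3b_sm T v = v • T := rfl

omit [FiniteDimensional ℂ E] [IsManifold 𝓘(ℂ, E) ω B] in
theorem A3b_smul (k : KData E B) {x : B} {z : E} (hz : z ∈ (chartAt E x).target) (v : ℂ) (T : E) :
    k.G x z (v • T) (v • T) = ‖v‖ ^ 2 * k.G x z T T := by
  have e : v • T = v.re • T + v.im • (I • T) := by
    conv_lhs => rw [← re_add_im v]
    rw [add_smul, mul_smul]
    rfl
  have h1 := k.herm x z hz T T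
  have h2 := k.herm x z hz (I • T) T
  have h3 := k.symm x z hz (I • T) T
  rw [smul_smul, I_mul_I, neg_smul, one_smul, map_neg, neg_apply] at h2
  rw [e, Complex.sq_norm, normSq_apply]
  simp only [map_add, map_smul, add_apply, smul_apply,
    smul_eq_mul]
  rw [h1]
  linear_combination (-(v.re * v.im)) * h2

omit [IsManifold 𝓘(ℂ, E) ω B] in
theorem A3b_local (k : KData E B) (d : DData k) (x : B) {φ : ℂ → E} {y : ℂ}
    (hφ : AnalyticAt ℂ φ y) (hx : φ y ∈ (chartAt E x).target) :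
    ContDiffAt ℝ 2 (fun y => k.G x (φ y) (deriv φ y) (deriv φ y)) y ∧
    ContDiffAt ℝ 1 (fun y => (d.α x (φ y)).comp (A3b_sm (deriv φ y))) y ∧
    fderiv ℝ (fun y => (d.α x (φ y)).comp (A3b_sm (deriv φ y))) y 1 I -
      fderiv ℝ (fun y => (d.α x (φ y)).comp (A3b_sm (deriv φ y))) y I 1 =
      k.G x (φ y) (deriv φ y) (deriv φ y) := by
  have := FiniteDimensional.complete ℂ E
  have hn := (chartAt E x).open_target.mem_nhds hx
  have c0 : ∀ n : WithTop ℕ∞, ContDiffAt ℝ n φ y := fun n => hφ.contDiffAt.restrict_scalars ℝ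
  have c1 : ∀ n : WithTop ℕ∞, ContDiffAt ℝ n (deriv φ) y := fun n =>
    hφ.deriv.contDiffAt.restrict_scalars ℝ
  have cG : ContDiffAt ℝ 2 (k.G x) (φ y) :=
    ((k.smooth x).contDiffAt hn).of_le (ENat.LEInfty.out)
  have cα : ContDiffAt ℝ 1 (d.α x) (φ y) := (d.smooth x).contDiffAt hn
  have cβ : ContDiffAt ℝ 1 (fun y => (d.α x (φ y)).comp (A3b_sm (deriv φ y))) y :=
    (cα.comp y (c0 1)).clm_comp ((A3b_sm (E := E)).contDiff.contDiffAt.comp y (c1 1))
  refine ⟨((cG.comp y (c0 2)).clm_apply (c1 2)).clm_apply (c1 2), cβ, ?_⟩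
  have key : ∀ e e' : ℂ, fderiv ℝ (fun y => (d.α x (φ y)).comp (A3b_sm (deriv φ y))) y e e' =
      fderiv ℝ (d.α x) (φ y) (e • deriv φ y) (e' • deriv φ y) +
        d.α x (φ y) (e' • e • deriv (deriv φ) y) := fun e e' => by
    have d0 := hφ.differentiableAt.hasDerivAt.hasFDerivAt.restrictScalars ℝ
    have d1 := hφ.deriv.differentiableAt.hasDerivAt.hasFDerivAt.restrictScalars ℝ
    have d2 := ((cα.differentiableAt one_ne_zero).hasFDerivAt.comp y d0).clm_comp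
      (A3b_sm.hasFDerivAt.comp y d1)
    have d3 : HasFDerivAt (fun y => (d.α x (φ y)).comp (A3b_sm (deriv φ y))) _ y := d2
    rw [d3.fderiv]
    simp [A3b_sm_apply, add_comm]
  rw [key, key, one_smul, one_smul, one_smul, ← k.herm x _ hx, ← d.d x _ hx]
  ring

/-- pull back of metric and primitive along a holomorphic disc -/
theorem disc_pull (k : KData E B) (d : DData k) {f : ℂ → B}
    (hf : MDifferentiableOn 𝓘(ℂ, ℂ) 𝓘(ℂ, E) f (ball 0 1)) :
    ∃ (w : ℂ → ℝ) (β : ℂ → ℂ →L[ℝ] ℝ),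
      ContDiffOn ℝ 2 w (ball 0 1) ∧ ContDiffOn ℝ 1 β (ball 0 1) ∧
      (∀ y ∈ ball (0 : ℂ) 1, 0 ≤ w y ∧ -(2 * k.K * w y ^ 2) ≤ lap w y ∧
        (∀ v, |β y v| ≤ d.C * √(w y) * ‖v‖) ∧ fderiv ℝ β y 1 I - fderiv ℝ β y I 1 = w y) ∧
      w 0 = k.G (f 0) (chartAt E (f 0) (f 0)) (deriv (chartAt E (f 0) ∘ f) 0)
        (deriv (chartAt E (f 0) ∘ f) 0) := by
  set W : B → ℂ → ℝ := fun x y => k.G x ((chartAt E x ∘ f) y) (deriv (chartAt E x ∘ f) y)
    (deriv (chartAt E x ∘ f) y) with hW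
  set A : B → ℂ → ℂ →L[ℝ] ℝ := fun x y =>
    (d.α x ((chartAt E x ∘ f) y)).comp (A3b_sm (deriv (chartAt E x ∘ f) y)) with hA
  have eW : ∀ y ∈ ball (0 : ℂ) 1, (fun z => W (f z) z) =ᶠ[𝓝 y] W (f y) := fun y hy => by
    filter_upwards [A3b_nhds hf hy (mem_chart_source E (f y))] with z hz
    have h1 := A3b_chain hf hz.1 hz.2 (mem_chart_source E (f z)) 1
    rw [one_smul, one_smul] at h1
    simp only [hW, Function.comp_apply]
    rw [← h1]
    exact k.compat _ _ _ ⟨hz.2, mem_chart_source E (f z)⟩ _ _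
  have eA : ∀ y ∈ ball (0 : ℂ) 1, (fun z => A (f z) z) =ᶠ[𝓝 y] A (f y) := fun y hy => by
    filter_upwards [A3b_nhds hf hy (mem_chart_source E (f y))] with z hz
    ext1 v
    simp only [hA, Function.comp_apply, ContinuousLinearMap.comp_apply, A3b_sm_apply]
    rw [← A3b_chain hf hz.1 hz.2 (mem_chart_source E (f z)) v]
    exact d.compat _ _ _ ⟨hz.2, mem_chart_source E (f z)⟩ _
  have an : ∀ y ∈ ball (0 : ℂ) 1, AnalyticAt ℂ (chartAt E (f y) ∘ f) y := fun y hy =>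
    A3b_analytic hf hy (mem_chart_source E (f y))
  have tg : ∀ y, (chartAt E (f y) ∘ f) y ∈ (chartAt E (f y)).target := fun y =>
    mem_chart_target E (f y)
  refine ⟨fun z => W (f z) z, fun z => A (f z) z, fun y hy => ?_, fun y hy => ?_,
    fun y hy => ⟨?_, ?_, fun v => ?_, ?_⟩, rfl⟩
  · exact ((A3b_local k d _ (an y hy) (tg y)).1.congr_of_eventuallyEq (eW y hy)).contDiffWithinAt
  · exact ((A3b_local k d _ (an y hy) (tg y)).2.1.congr_of_eventuallyEq (eA y hy)).contDiffWithinAt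
  · by_cases h0 : deriv (chartAt E (f y) ∘ f) y = 0
    · simp only [hW, h0, map_zero, le_refl]
    · exact (k.pos _ _ (tg y) _ h0).le
  · rw [A3b_lap_congr (eW y hy)]
    exact lap_pull k _ (an y hy) (tg y)
  · have h1 := d.bound _ _ (tg y) (v • deriv (chartAt E (f y) ∘ f) y)
    rw [A3b_smul k (tg y), Real.sqrt_mul (sq_nonneg _), Real.sqrt_sq (norm_nonneg _)] at h1
    refine h1.trans (le_of_eq ?_)
    simp only [hW]
    ring
  · rw [(eA y hy).fderiv_eq]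
    exact (A3b_local k d _ (an y hy) (tg y)).2.2

end Pool.Agent.MP_e62289_ag
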