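import Pool.Agent.MP_e62289_ag.A2
import Pool.Agent.MP_e62289_ag.A3

open Set Filter Topology Complex MeasureTheory Metric
open scoped Manifold ContDiff ComplexConjugate NNReal ENNReal

namespace Pool.Agent.MP_e62289_ag

variable {E : Type} [NormedAddCommGroup E] [NormedSpace ℂ E] [FiniteDimensional ℂ E]
  {B : Type} [EMetricSpace B] [ChartedSpace E B] [IsManifold 𝓘(ℂ, E) ω B]

theorem schwarzA (k : KData E B) (d : DData k) : ∃ CA : ℝ, ∀ f : ℂ → B,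
    MDifferentiableOn 𝓘(ℂ, ℂ) 𝓘(ℂ, E) f (ball 0 1) →
    k.G (f 0) (chartAt E (f 0) (f 0)) (deriv (chartAt E (f 0) ∘ f) 0)
      (deriv (chartAt E (f 0) ∘ f) 0) ≤ CA := by
  obtain ⟨CA, h⟩ := plane_bound (2 * k.K) d.C
  refine ⟨CA, fun f hf => ?_⟩
  obtain ⟨w, β, h1, h2, h3, h4⟩ := disc_pull k d hf
  exact h4 ▸ h w β h1 h2 h3

end Pool.Agent.MP_e62289_ag
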