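import Pool.Agent.MP_e62289_ag.KDefs

open Set Filter Topology Complex MeasureTheory Metric
open scoped Manifold ContDiff ComplexConjugate NNReal ENNReal

namespace Pool.Agent.MP_e62289_ag

/-- differentiation under the integral for jointly continuous integrands -/
theorem A1_param {F F' : ℝ → ℝ → ℝ} {R r : ℝ} (hr : r ∈ Ioo (-R) R)
    (hF : ∀ s ∈ Ioo (-R) R, Continuous (F s))
    (hF' : ContinuousOn (fun p : ℝ × ℝ => F' p.1 p.2) (Ioo (-R) R ×ˢ univ))
    (hd : ∀ s ∈ Ioo (-R) R, ∀ θ, HasDerivAt (fun s => F s θ) (F' s θ) s) :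
    HasDerivAt (fun s => ∫ θ in (0 : ℝ)..2 * Real.pi, F s θ)
      (∫ θ in (0 : ℝ)..2 * Real.pi, F' r θ) r := by
  obtain ⟨K, hK, hrK, hKs⟩ := exists_compact_subset isOpen_Ioo hr
  have hc : IsCompact (K ×ˢ uIcc (0 : ℝ) (2 * Real.pi)) := hK.prod isCompact_uIcc
  obtain ⟨C, hC⟩ := hc.exists_bound_of_continuousOn
    (hF'.mono (prod_mono hKs (subset_univ _)))
  have hr' : Continuous (F' r) := by
    rw [← continuousOn_univ]
    exact hF'.comp (f := fun θ : ℝ => (r, θ)) (by fun_prop) fun θ _ => ⟨hr, mem_univ _⟩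
  refine (intervalIntegral.hasDerivAt_integral_of_dominated_loc_of_deriv_le (bound := fun _ => C)
    (mem_interior_iff_mem_nhds.1 hrK) ?_ ((hF r hr).intervalIntegrable _ _)
    hr'.aestronglyMeasurable ?_ intervalIntegrable_const ?_).2
  · filter_upwards [isOpen_Ioo.mem_nhds hr] with s hs
    exact (hF s hs).aestronglyMeasurable
  · exact ae_of_all _ fun θ hθ s hs => hC (s, θ) ⟨hs, uIoc_subset_uIcc hθ⟩
  · exact ae_of_all _ fun θ _ s hs => hd s (hKs hs) θ

theorem A1_mem {z : ℂ} {R s : ℝ} (hs : s ∈ Ioo (-R) R) (θ : ℝ) : circleMap z s θ ∈ ball z R := by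
  rw [mem_ball, mem_sphere.1 (circleMap_mem_sphere' z s θ)]
  exact abs_lt.2 hs

theorem A1_cont (z : ℂ) : Continuous fun p : ℝ × ℝ => circleMap z p.1 p.2 := by
  unfold circleMap
  fun_prop

theorem A1_radial (z : ℂ) (s θ : ℝ) :
    HasDerivAt (fun s : ℝ => circleMap z s θ) (circleMap 0 1 θ) s := by
  have h := ((Complex.ofRealCLM.hasDerivAt (x := s)).mul_const (exp (θ * I))).const_add z
  simpa [circleMap] using h

theorem A1_smul (s θ : ℝ) : circleMap 0 s θ = s • circleMap 0 1 θ := by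
  simp [circleMap]

theorem A1_anti (B : ℂ →L[ℝ] ℂ →L[ℝ] ℝ) (θ : ℝ) :
    B (circleMap 0 1 θ) (circleMap 0 1 θ * I) - B (circleMap 0 1 θ * I) (circleMap 0 1 θ) =
      B 1 I - B I 1 := by
  have h1 : circleMap 0 1 θ = Real.cos θ • (1 : ℂ) + Real.sin θ • I := by
    simp [circleMap, exp_mul_I]
  have h2 : circleMap 0 1 θ * I = (-Real.sin θ) • (1 : ℂ) + Real.cos θ • I := by
    rw [h1]
    simp only [real_smul, ofReal_neg]
    linear_combination (Real.sin θ : ℂ) * I_mul_I
  rw [h2, h1]
  simp only [map_add, map_smul, add_apply, smul_apply,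
    smul_eq_mul]
  linear_combination (B 1 I - B I 1) * Real.sin_sq_add_cos_sq θ

theorem A1_green {β : ℂ → ℂ →L[ℝ] ℝ} {z : ℂ} {R : ℝ} (hβ : ContDiffOn ℝ 1 β (ball z R))
    {r : ℝ} (hr : r ∈ Ioo (-R) R) :
    HasDerivAt (fun s : ℝ => ∫ θ in (0 : ℝ)..2 * Real.pi, β (circleMap z s θ) (circleMap 0 s θ * I))
      (∫ θ in (0 : ℝ)..2 * Real.pi,
        r * (fderiv ℝ β (circleMap z r θ) 1 I - fderiv ℝ β (circleMap z r θ) I 1)) r := by
  have hc : ContinuousOn (fun p : ℝ × ℝ => β (circleMap z p.1 p.2)) (Ioo (-R) R ×ˢ univ) :=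
    hβ.continuousOn.comp (A1_cont z).continuousOn fun p hp => A1_mem hp.1 _
  have hc' : ContinuousOn (fun p : ℝ × ℝ => fderiv ℝ β (circleMap z p.1 p.2))
      (Ioo (-R) R ×ˢ univ) :=
    (hβ.continuousOn_fderiv_of_isOpen isOpen_ball le_rfl).comp (A1_cont z).continuousOn
      fun p hp => A1_mem hp.1 _
  have hd : ∀ s ∈ Ioo (-R) R, ∀ θ,
      HasFDerivAt β (fderiv ℝ β (circleMap z s θ)) (circleMap z s θ) := fun s hs θ =>
    ((hβ.differentiableOn one_ne_zero).differentiableAt
      (isOpen_ball.mem_nhds (A1_mem hs θ))).hasFDerivAt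
  have sec : ∀ {E : Type} [TopologicalSpace E] {G : ℝ × ℝ → E},
      ContinuousOn G (Ioo (-R) R ×ˢ univ) → ∀ s ∈ Ioo (-R) R, Continuous fun θ => G (s, θ) := by
    intro E _ G hG s hs
    rw [← continuousOn_univ]
    exact hG.comp (f := fun θ : ℝ => (s, θ)) (by fun_prop) fun θ _ => ⟨hs, mem_univ _⟩
  have e1 : Continuous fun p : ℝ × ℝ => circleMap 0 1 p.2 :=
    (continuous_circleMap 0 1).comp continuous_snd
  have key := A1_param (F := fun s θ => β (circleMap z s θ) (circleMap 0 s θ * I))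
    (F' := fun s θ => fderiv ℝ β (circleMap z s θ) (circleMap 0 1 θ) (circleMap 0 s θ * I) +
      β (circleMap z s θ) (circleMap 0 1 θ * I)) hr
    (fun s hs => (sec hc s hs).clm_apply ((continuous_circleMap 0 s).mul continuous_const))
    (((hc'.clm_apply e1.continuousOn).clm_apply
      ((A1_cont 0).mul continuous_const).continuousOn).add
      (hc.clm_apply (e1.mul continuous_const).continuousOn))
    (fun s hs θ => ((hd s hs θ).comp_hasDerivAt s (A1_radial z s θ)).clm_apply
      ((A1_radial 0 s θ).mul_const I))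
  convert key using 1
  have c1 := sec hc r hr
  have c2 := sec hc' r hr
  have c3 := continuous_circleMap 0 1
  have c4 := continuous_circleMap 0 r
  have cG : Continuous fun θ : ℝ =>
      fderiv ℝ β (circleMap z r θ) (circleMap 0 r θ * I) (circleMap 0 1 θ) +
        β (circleMap z r θ) (circleMap 0 1 θ * I) :=
    ((c2.clm_apply (c4.mul continuous_const)).clm_apply c3).add
      (c1.clm_apply (c3.mul continuous_const))
  have hz := intervalIntegral.integral_eq_sub_of_hasDerivAt (a := 0) (b := 2 * Real.pi)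
    (f := fun θ => β (circleMap z r θ) (circleMap 0 1 θ))
    (fun θ _ => ((hd r hr θ).comp_hasDerivAt θ (hasDerivAt_circleMap z r θ)).clm_apply
      (hasDerivAt_circleMap 0 1 θ)) (cG.intervalIntegrable _ _)
  have p1 : circleMap z r (2 * Real.pi) = circleMap z r 0 := by
    simpa using periodic_circleMap z r 0
  have p2 : circleMap 0 1 (2 * Real.pi) = circleMap 0 1 0 := by
    simpa using periodic_circleMap 0 1 0
  rw [p1, p2, sub_self] at hz
  have cH : Continuous fun θ : ℝ =>
      r * (fderiv ℝ β (circleMap z r θ) 1 I - fderiv ℝ β (circleMap z r θ) I 1) :=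
    continuous_const.mul (((c2.clm_apply continuous_const).clm_apply continuous_const).sub
      ((c2.clm_apply continuous_const).clm_apply continuous_const))
  have ha := intervalIntegral.integral_add (μ := volume)
    (cH.intervalIntegrable 0 (2 * Real.pi)) (cG.intervalIntegrable 0 (2 * Real.pi))
  simp only [Function.comp_apply] at hz
  rw [hz, add_zero] at ha
  rw [← ha]
  refine intervalIntegral.integral_congr fun θ _ => ?_
  have := A1_anti (fderiv ℝ β (circleMap z r θ)) θ
  simp only [A1_smul r θ, smul_mul_assoc, map_smul, smul_apply, smul_eq_mul]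
  linear_combination (-r) * this

/-- the formula of Green on discs, in differentiated form -/
theorem green_circle {β : ℂ → ℂ →L[ℝ] ℝ} {z : ℂ} {R : ℝ} (hβ : ContDiffOn ℝ 1 β (ball z R))
    {r : ℝ} (hr : 0 < r) (hR : r < R) :
    HasDerivAt (fun s : ℝ => ∫ θ in (0 : ℝ)..2 * Real.pi, β (circleMap z s θ) (circleMap 0 s θ * I))
      (∫ θ in (0 : ℝ)..2 * Real.pi,
        r * (fderiv ℝ β (circleMap z r θ) 1 I - fderiv ℝ β (circleMap z r θ) I 1)) r :=
  A1_green hβ ⟨by linarith, hR⟩

/-- the Laplacian -/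
noncomputable def lap (w : ℂ → ℝ) (z : ℂ) : ℝ :=
  fderiv ℝ (fun z => fderiv ℝ w z 1) z 1 + fderiv ℝ (fun z => fderiv ℝ w z I) z I

/-- the rotated gradient -/
noncomputable def A1_rot (w : ℂ → ℝ) (y : ℂ) : ℂ →L[ℝ] ℝ :=
  (fderiv ℝ w y).comp (-(ContinuousLinearMap.mul ℝ ℂ I))

theorem A1_rot_apply (w : ℂ → ℝ) (y v : ℂ) : A1_rot w y v = fderiv ℝ w y (-(I * v)) := rfl

theorem A1_curl {w : ℂ → ℝ} {y : ℂ} (h : DifferentiableAt ℝ (fderiv ℝ w) y) :
    fderiv ℝ (A1_rot w) y 1 I - fderiv ℝ (A1_rot w) y I 1 = lap w y := by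
  have h1 : HasFDerivAt (A1_rot w) _ y :=
    h.hasFDerivAt.clm_comp (hasFDerivAt_const (-(ContinuousLinearMap.mul ℝ ℂ I)) y)
  have h2 : ∀ v : ℂ, HasFDerivAt (fun z => fderiv ℝ w z v) _ y := fun v =>
    h.hasFDerivAt.clm_apply (hasFDerivAt_const v y)
  rw [lap, h1.fderiv, (h2 1).fderiv, (h2 I).fderiv]
  simp

/-- sub-mean value inequality for `Δ w ≥ - c` -/
theorem sub_mean {w : ℂ → ℝ} {z : ℂ} {R c : ℝ} (hw : ContDiffOn ℝ 2 w (ball z R))
    {r : ℝ} (hr : 0 < r) (hR : r < R) (hc : ∀ y ∈ closedBall z r, -c ≤ lap w y) :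
    2 * Real.pi * w z ≤ (∫ θ in (0 : ℝ)..2 * Real.pi, w (circleMap z r θ)) +
      2 * Real.pi * (c * r ^ 2 / 4) := by
  have h1 : ContDiffOn ℝ 1 (fderiv ℝ w) (ball z R) :=
    hw.fderiv_of_isOpen isOpen_ball (by norm_num)
  have hβ : ContDiffOn ℝ 1 (A1_rot w) (ball z R) := h1.clm_comp contDiffOn_const
  have hsub : Icc 0 r ⊆ Ioo (-R) R := fun s hs => ⟨by linarith [hs.1], hs.2.trans_lt hR⟩
  have hpi : (0 : ℝ) ≤ 2 * Real.pi := by positivity
  -- the circulation
  obtain ⟨J, hJ⟩ : ∃ J : ℝ → ℝ, J = fun s : ℝ =>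
    ∫ θ in (0 : ℝ)..2 * Real.pi, fderiv ℝ w (circleMap z s θ) (circleMap 0 1 θ) := ⟨_, rfl⟩
  have hJ' : (fun s : ℝ => ∫ θ in (0 : ℝ)..2 * Real.pi,
      A1_rot w (circleMap z s θ) (circleMap 0 s θ * I)) = fun s => s * J s := by
    funext s
    rw [hJ, ← intervalIntegral.integral_const_mul]
    refine intervalIntegral.integral_congr fun θ _ => ?_
    have : -(I * (circleMap 0 s θ * I)) = s • circleMap 0 1 θ := by
      rw [← A1_smul]
      linear_combination (-circleMap 0 s θ) * I_mul_I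
    simp only [A1_rot_apply, this, map_smul, smul_eq_mul]
  have hI : ∀ s ∈ Icc 0 r, ∃ D, HasDerivAt (fun s => s * J s + Real.pi * c * s ^ 2) D s ∧
      0 ≤ D := by
    intro s hs
    have hg := A1_green hβ (hsub hs)
    rw [hJ'] at hg
    refine ⟨_, hg.add (((hasDerivAt_id s).pow 2).const_mul (Real.pi * c)), ?_⟩
    have hcont : Continuous fun θ => fderiv ℝ (A1_rot w) (circleMap z s θ) := by
      rw [← continuousOn_univ]
      exact (hβ.continuousOn_fderiv_of_isOpen isOpen_ball le_rfl).comp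
        (continuous_circleMap z s).continuousOn fun θ _ => A1_mem (hsub hs) θ
    have hle := intervalIntegral.integral_mono_on (μ := volume) hpi
      (intervalIntegrable_const (c := s * -c))
      ((continuous_const.mul (((hcont.clm_apply continuous_const).clm_apply continuous_const).sub
        ((hcont.clm_apply continuous_const).clm_apply continuous_const))).intervalIntegrable _ _)
      (g := fun θ => s * (fderiv ℝ (A1_rot w) (circleMap z s θ) 1 I -
        fderiv ℝ (A1_rot w) (circleMap z s θ) I 1)) fun θ _ => by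
        rw [A1_curl ((h1.differentiableOn one_ne_zero).differentiableAt
          (isOpen_ball.mem_nhds (A1_mem (hsub hs) θ)))]
        exact mul_le_mul_of_nonneg_left
          (hc _ (closedBall_subset_closedBall hs.2 (circleMap_mem_closedBall z hs.1 θ))) hs.1
    simp only [intervalIntegral.integral_const, sub_zero, smul_eq_mul] at hle
    simp only [id, Nat.cast_ofNat, Nat.add_one_sub_one, pow_one, mul_one]
    linarith
  have mono : ∀ {f : ℝ → ℝ}, (∀ s ∈ Icc 0 r, ∃ D, HasDerivAt f D s ∧ (0 < s → 0 ≤ D)) →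
      MonotoneOn f (Icc 0 r) := by
    intro f hf
    refine monotoneOn_of_deriv_nonneg (convex_Icc 0 r)
      (fun s hs => (hf s hs).choose_spec.1.continuousAt.continuousWithinAt)
      (fun s hs => (hf s (interior_subset hs)).choose_spec.1.differentiableAt.differentiableWithinAt)
      fun s hs => ?_
    obtain ⟨D, hD, h0⟩ := hf s (interior_subset hs)
    rw [interior_Icc] at hs
    rw [hD.deriv]
    exact h0 hs.1
  have m1 := mono fun s hs => (hI s hs).imp fun D hD => ⟨hD.1, fun _ => hD.2⟩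
  have hM : ∀ s ∈ Icc 0 r, ∃ D, HasDerivAt (fun s => (∫ θ in (0 : ℝ)..2 * Real.pi,
      w (circleMap z s θ)) + Real.pi * c / 2 * s ^ 2) D s ∧ (0 < s → 0 ≤ D) := by
    intro s hs
    have hg := A1_param (F := fun s θ => w (circleMap z s θ))
      (F' := fun s θ => fderiv ℝ w (circleMap z s θ) (circleMap 0 1 θ)) (hsub hs)
      (fun s hs => by
        rw [← continuousOn_univ]
        exact hw.continuousOn.comp (continuous_circleMap z s).continuousOn
          fun θ _ => A1_mem hs θ)
      ((h1.continuousOn.comp (A1_cont z).continuousOn fun p hp => A1_mem hp.1 _).clm_apply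
        ((continuous_circleMap 0 1).comp continuous_snd).continuousOn)
      (fun s hs θ => ((hw.differentiableOn two_ne_zero).differentiableAt
        (isOpen_ball.mem_nhds (A1_mem hs θ))).hasFDerivAt.comp_hasDerivAt s (A1_radial z s θ))
    refine ⟨_, hg.add (((hasDerivAt_id s).pow 2).const_mul (Real.pi * c / 2)), fun h0 => ?_⟩
    have := m1 (left_mem_Icc.2 hr.le) hs hs.1
    have e : (∫ θ in (0 : ℝ)..2 * Real.pi, fderiv ℝ w (circleMap z s θ) (circleMap 0 1 θ)) =
        J s := by rw [hJ]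
    simp only [id, Nat.cast_ofNat, Nat.add_one_sub_one, pow_one, mul_one, e]
    simp only [zero_mul, ne_eq, OfNat.ofNat_ne_zero, not_false_eq_true, zero_pow, mul_zero,
      add_zero] at this
    refine le_of_mul_le_mul_left ?_ h0
    nlinarith
  have m2 := mono hM (left_mem_Icc.2 hr.le) (right_mem_Icc.2 hr.le) hr.le
  simp only [circleMap_zero_radius, Function.const_apply, intervalIntegral.integral_const,
    sub_zero, smul_eq_mul] at m2
  linarith

end Pool.Agent.MP_e62289_ag
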