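import Pool.Agent.MP_e62289_ag.A1

open Set Filter Topology Complex MeasureTheory Metric
open scoped Manifold ContDiff ComplexConjugate NNReal ENNReal

namespace Pool.Agent.MP_e62289_ag

/-- the inequality of Cauchy and Schwarz on a circle -/
theorem A2a_cs {f : ℝ → ℝ} (hf : Continuous f) :
    (∫ θ in (0 : ℝ)..2 * Real.pi, f θ) ^ 2 ≤
      2 * Real.pi * ∫ θ in (0 : ℝ)..2 * Real.pi, f θ ^ 2 := by
  have hπ : 0 < 2 * Real.pi := by positivity
  obtain ⟨m, hm⟩ : ∃ m : ℝ, (∫ θ in (0 : ℝ)..2 * Real.pi, f θ) = 2 * Real.pi * m :=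
    ⟨(∫ θ in (0 : ℝ)..2 * Real.pi, f θ) / (2 * Real.pi), by field_simp⟩
  have h1 : (∫ θ in (0 : ℝ)..2 * Real.pi, (2 * m * f θ - m ^ 2)) ≤
      ∫ θ in (0 : ℝ)..2 * Real.pi, f θ ^ 2 :=
    intervalIntegral.integral_mono_on hπ.le (Continuous.intervalIntegrable (by fun_prop) _ _)
      (Continuous.intervalIntegrable (by fun_prop) _ _)
      fun θ _ => by nlinarith [sq_nonneg (f θ - m)]
  rw [intervalIntegral.integral_sub (Continuous.intervalIntegrable (by fun_prop) _ _)
    (Continuous.intervalIntegrable (by fun_prop) _ _), intervalIntegral.integral_const_mul,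
    intervalIntegral.integral_const, hm, smul_eq_mul, sub_zero] at h1
  rw [hm]
  nlinarith [mul_le_mul_of_nonneg_left h1 hπ.le]

/-- the differential inequality `J ^ 2 ≤ K s J'` -/
theorem A2a_ode {J a : ℝ → ℝ} {r R K : ℝ} (hr : 0 < r) (hR : r < R) (hK : 0 ≤ K)
    (hJ : ∀ s ∈ Ico r R, HasDerivAt J (a s) s) (ha : ∀ s ∈ Ico r R, 0 ≤ a s)
    (h : ∀ s ∈ Ico r R, J s ^ 2 ≤ K * s * a s) : J r ≤ K / Real.log (R / r) := by
  have hL : 0 < Real.log (R / r) := Real.log_pos ((one_lt_div hr).2 hR)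
  rcases le_or_gt (J r) 0 with h0 | h0
  · exact h0.trans (div_nonneg hK hL.le)
  have hc : ContinuousOn J (Ico r R) := fun s hs => (hJ s hs).continuousAt.continuousWithinAt
  have hm : MonotoneOn J (Ico r R) := by
    refine monotoneOn_of_deriv_nonneg (convex_Ico r R) hc (fun s hs => ?_) fun s hs => ?_
    · exact (hJ s (interior_subset hs)).differentiableAt.differentiableWithinAt
    · rw [(hJ s (interior_subset hs)).deriv]
      exact ha s (interior_subset hs)
  have hp : ∀ s ∈ Ico r R, 0 < J s := fun s hs => h0.trans_le (hm ⟨le_rfl, hR⟩ hs hs.1)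
  have hg : ∀ s ∈ Ico r R, HasDerivAt (fun s => -(K * (J s)⁻¹) - Real.log s)
      (-(K * (-a s / J s ^ 2)) - s⁻¹) s := fun s hs =>
    (((hJ s hs).inv (hp s hs).ne').const_mul K).neg.sub
      (Real.hasDerivAt_log (hr.trans_le hs.1).ne')
  have hg' : MonotoneOn (fun s => -(K * (J s)⁻¹) - Real.log s) (Ico r R) := by
    refine monotoneOn_of_deriv_nonneg (convex_Ico r R)
      (fun s hs => (hg s hs).continuousAt.continuousWithinAt) (fun s hs => ?_) fun s hs => ?_
    · exact (hg s (interior_subset hs)).differentiableAt.differentiableWithinAt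
    · have hs' := interior_subset hs
      have hs0 := hr.trans_le hs'.1
      have hJ0 := hp s hs'
      rw [(hg s hs').deriv, show -(K * (-a s / J s ^ 2)) - s⁻¹ =
        (K * s * a s - J s ^ 2) / (s * J s ^ 2) by field_simp]
      exact div_nonneg (sub_nonneg.2 (h s hs')) (by positivity)
  have h1 : ∀ s ∈ Ioo r R, Real.log s ≤ K * (J r)⁻¹ + Real.log r := by
    intro s hs
    have h2 := hg' ⟨le_rfl, hR⟩ ⟨hs.1.le, hs.2⟩ hs.1.le
    have h3 : 0 ≤ K * (J s)⁻¹ := mul_nonneg hK (inv_nonneg.2 (hp s ⟨hs.1.le, hs.2⟩).le)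
    simp only at h2
    linarith
  have h2 : Real.log R ≤ K * (J r)⁻¹ + Real.log r := by
    have ht : Tendsto Real.log (𝓝[<] R) (𝓝 (Real.log R)) :=
      (Real.continuousAt_log (hr.trans hR).ne').tendsto.mono_left nhdsWithin_le_nhds
    exact le_of_tendsto ht (mem_of_superset (Ioo_mem_nhdsLT hR) h1)
  rw [le_div_iff₀ hL, Real.log_div (hr.trans hR).ne' hr.ne']
  have h3 : J r * (K * (J r)⁻¹) = K := by field_simp
  nlinarith [mul_le_mul_of_nonneg_left h2 h0.le]

/-- area bound from a bounded primitive -/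
theorem area_le {w : ℂ → ℝ} {β : ℂ → ℂ →L[ℝ] ℝ} {z : ℂ} {R C : ℝ}
    (hw : ContinuousOn w (ball z R)) (hβ : ContDiffOn ℝ 1 β (ball z R))
    (h0 : ∀ y ∈ ball z R, 0 ≤ w y) (hb : ∀ y ∈ ball z R, ∀ v, |β y v| ≤ C * √(w y) * ‖v‖)
    (hd : ∀ y ∈ ball z R, fderiv ℝ β y 1 I - fderiv ℝ β y I 1 = w y)
    {r : ℝ} (hr : 0 < r) (hR : r < R) :
    (∫ s in (0 : ℝ)..r, ∫ θ in (0 : ℝ)..2 * Real.pi, s * w (circleMap z s θ)) ≤
      2 * Real.pi * C ^ 2 / Real.log (R / r) := by
  have hπ : 0 < 2 * Real.pi := by positivity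
  have hmem : ∀ {s : ℝ}, 0 ≤ s → s < R → ∀ θ, circleMap z s θ ∈ ball z R := fun hs hs' θ =>
    closedBall_subset_ball hs' (circleMap_mem_closedBall z hs θ)
  set J : ℝ → ℝ := fun s : ℝ => ∫ θ in (0 : ℝ)..2 * Real.pi,
    β (circleMap z s θ) (circleMap 0 s θ * I) with hJ
  set a : ℝ → ℝ := fun s : ℝ => ∫ θ in (0 : ℝ)..2 * Real.pi, s * w (circleMap z s θ) with ha
  have hder : ∀ s, 0 < s → s < R → HasDerivAt J (a s) s := by
    intro s hs hs'
    have := green_circle hβ hs hs'
    simp only [hd _ (hmem hs.le hs' _)] at this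
    exact this
  have hcl : Continuous fun p : ℝ × ℝ => circleMap z (max 0 (min p.1 r)) p.2 := by
    unfold circleMap
    fun_prop
  have hcl' : ∀ p : ℝ × ℝ, circleMap z (max 0 (min p.1 r)) p.2 ∈ ball z R := fun p =>
    hmem (le_max_left _ _) ((max_le hr.le (min_le_right p.1 r)).trans_lt hR) _
  have hac : ContinuousOn a (Icc 0 r) := by
    have h2 : Continuous fun s : ℝ => ∫ θ in (0 : ℝ)..2 * Real.pi,
        s * w (circleMap z (max 0 (min s r)) θ) :=
      intervalIntegral.continuous_parametric_intervalIntegral_of_continuous'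
        (f := fun s θ => s * w (circleMap z (max 0 (min s r)) θ))
        (continuous_fst.mul (hw.comp_continuous hcl hcl')) _ _
    refine h2.continuousOn.congr fun s hs => ?_
    simp only [ha, min_eq_left hs.2, max_eq_right hs.1]
  have hJc : ContinuousOn J (Icc 0 r) := by
    have h1 : Continuous fun p : ℝ × ℝ => circleMap 0 p.1 p.2 * I := by
      unfold circleMap
      fun_prop
    have h2 : Continuous fun s : ℝ => ∫ θ in (0 : ℝ)..2 * Real.pi,
        β (circleMap z (max 0 (min s r)) θ) (circleMap 0 s θ * I) :=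
      intervalIntegral.continuous_parametric_intervalIntegral_of_continuous'
        (f := fun s θ => β (circleMap z (max 0 (min s r)) θ) (circleMap 0 s θ * I))
        ((hβ.continuousOn.comp_continuous hcl hcl').clm_apply h1) _ _
    refine h2.continuousOn.congr fun s hs => ?_
    simp only [hJ, min_eq_left hs.2, max_eq_right hs.1]
  have hFTC : ∫ s in (0 : ℝ)..r, a s = J r - J 0 :=
    intervalIntegral.integral_eq_sub_of_hasDerivAt_of_le hr.le hJc
      (fun s hs => hder s hs.1 (hs.2.trans hR))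
      (ContinuousOn.intervalIntegrable (by rwa [uIcc_of_le hr.le]))
  have hJ0 : J 0 = 0 := by simp [hJ]
  rw [hFTC, hJ0, sub_zero]
  refine A2a_ode (a := a) hr hR (by positivity) (fun s hs => hder s (hr.trans_le hs.1) hs.2)
    (fun s hs => ?_) fun s hs => ?_
  · have hs0 := hr.trans_le hs.1
    exact intervalIntegral.integral_nonneg hπ.le
      fun θ _ => mul_nonneg hs0.le (h0 _ (hmem hs0.le hs.2 θ))
  · have hs0 := hr.trans_le hs.1
    have hc1 : Continuous fun θ : ℝ => β (circleMap z s θ) (circleMap 0 s θ * I) :=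
      (hβ.continuousOn.comp_continuous (continuous_circleMap z s)
        (hmem hs0.le hs.2)).clm_apply ((continuous_circleMap 0 s).mul continuous_const)
    have hc2 : Continuous fun θ : ℝ => w (circleMap z s θ) :=
      hw.comp_continuous (continuous_circleMap z s) (hmem hs0.le hs.2)
    refine (A2a_cs hc1).trans ?_
    rw [show 2 * Real.pi * C ^ 2 * s * a s = 2 * Real.pi * (C ^ 2 * s * a s) by ring]
    refine mul_le_mul_of_nonneg_left ?_ hπ.le
    simp only [ha]
    rw [← intervalIntegral.integral_const_mul]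
    refine intervalIntegral.integral_mono_on hπ.le ((hc1.pow 2).intervalIntegrable _ _)
      ((continuous_const.mul (continuous_const.mul hc2)).intervalIntegrable _ _) fun θ _ => ?_
    have h1 := hb _ (hmem hs0.le hs.2 θ) (circleMap 0 s θ * I)
    rw [norm_mul, norm_I, mul_one, norm_circleMap_zero, abs_of_pos hs0] at h1
    have h2 := pow_le_pow_left₀ (abs_nonneg _) h1 2
    rw [sq_abs, mul_pow, mul_pow, Real.sq_sqrt (h0 _ (hmem hs0.le hs.2 θ))] at h2
    exact h2.trans_eq (by ring)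

end Pool.Agent.MP_e62289_ag
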