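import Pool.Agent.MP_e62289_ag.A1
import Pool.Agent.MP_e62289_ag.A2a

open Set Filter Topology Complex MeasureTheory Metric
open scoped Manifold ContDiff ComplexConjugate NNReal ENNReal

namespace Pool.Agent.MP_e62289_ag

/-- a lower bound for the means on circles gives a lower bound for the area -/
theorem A2b_area {w : ℂ → ℝ} {z : ℂ} {ρ m : ℝ} (hρ : 0 < ρ) (hw : ContinuousOn w (closedBall z ρ))
    (h : ∀ s, 0 < s → s ≤ ρ → m ≤ ∫ θ in (0 : ℝ)..2 * Real.pi, w (circleMap z s θ)) :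
    m * ρ ^ 2 / 2 ≤ ∫ s in (0 : ℝ)..ρ, ∫ θ in (0 : ℝ)..2 * Real.pi, s * w (circleMap z s θ) := by
  have h1 : Continuous fun p : ℝ × ℝ => w (circleMap z (max 0 (min p.1 ρ)) p.2) := by
    refine hw.comp_continuous (by unfold circleMap; fun_prop) fun p => ?_
    refine closedBall_subset_closedBall (max_le hρ.le (min_le_right p.1 ρ))
      (circleMap_mem_closedBall z (le_max_left _ _) _)
  have h2 : Continuous fun s : ℝ => ∫ θ in (0 : ℝ)..2 * Real.pi,
      s * w (circleMap z (max 0 (min s ρ)) θ) :=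
    intervalIntegral.continuous_parametric_intervalIntegral_of_continuous'
      (f := fun s θ => s * w (circleMap z (max 0 (min s ρ)) θ)) (continuous_fst.mul h1) _ _
  have h3 : ContinuousOn (fun s : ℝ => ∫ θ in (0 : ℝ)..2 * Real.pi, s * w (circleMap z s θ))
      (uIcc 0 ρ) := by
    refine h2.continuousOn.congr fun s hs => ?_
    rw [uIcc_of_le hρ.le] at hs
    simp only [min_eq_left hs.2, max_eq_right hs.1]
  have h4 : ∫ s in (0 : ℝ)..ρ, m * s = m * ρ ^ 2 / 2 := by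
    rw [intervalIntegral.integral_const_mul, integral_id]
    ring
  rw [← h4]
  refine intervalIntegral.integral_mono_on hρ.le
    ((continuous_const.mul continuous_id).intervalIntegrable _ _) h3.intervalIntegrable
    fun s hs => ?_
  rw [intervalIntegral.integral_const_mul, mul_comm]
  rcases hs.1.eq_or_lt with h0 | h0
  · rw [← h0, zero_mul, zero_mul]
  · exact mul_le_mul_of_nonneg_left (h s h0 hs.2) hs.1

/-- the planar form of the upper Schwarz lemma -/
theorem plane_bound (K C : ℝ) : ∃ CA : ℝ, ∀ (w : ℂ → ℝ) (β : ℂ → ℂ →L[ℝ] ℝ),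
    ContDiffOn ℝ 2 w (ball 0 1) → ContDiffOn ℝ 1 β (ball 0 1) →
    (∀ y ∈ ball (0 : ℂ) 1, 0 ≤ w y ∧ -(K * w y ^ 2) ≤ lap w y ∧
      (∀ v, |β y v| ≤ C * √(w y) * ‖v‖) ∧ fderiv ℝ β y 1 I - fderiv ℝ β y I 1 = w y) →
    w 0 ≤ CA := by
  obtain ⟨k, hk, hK⟩ : ∃ k : ℝ, 0 < k ∧ K ≤ k := ⟨|K| + 1, by positivity, by
    linarith [le_abs_self K]⟩
  obtain ⟨L, hL0, hL⟩ : ∃ L : ℝ, 0 < L ∧ 32 * k * C ^ 2 < L := ⟨32 * k * C ^ 2 + 1, by positivity,
    by linarith⟩
  obtain ⟨r, hr, hr1, hrL⟩ : ∃ r : ℝ, 0 < r ∧ r < 1 / 2 ∧ L = Real.log (1 / 2 / r) := by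
    refine ⟨Real.exp (-L) / 2, by positivity, ?_, ?_⟩
    · have := Real.exp_lt_one_iff.2 (neg_lt_zero.2 hL0)
      linarith
    · rw [show 1 / 2 / (Real.exp (-L) / 2) = Real.exp L by rw [Real.exp_neg]; field_simp,
        Real.log_exp]
  refine ⟨1 / (2 * k * r ^ 2), fun w β hw hβ h => ?_⟩
  have hs : closedBall (0 : ℂ) r ⊆ ball 0 1 := closedBall_subset_ball (by linarith)
  obtain ⟨z, hz, hm⟩ := (isCompact_closedBall (0 : ℂ) r).exists_isMaxOn
    (f := fun y => (r - ‖y‖) ^ 2 * w y) ⟨0, mem_closedBall_self hr.le⟩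
    (ContinuousOn.mul (by fun_prop) (hw.continuousOn.mono hs))
  have hz' : ‖z‖ ≤ r := mem_closedBall_zero_iff.1 hz
  obtain ⟨d, hd⟩ : ∃ d : ℝ, r - ‖z‖ = 2 * d := ⟨(r - ‖z‖) / 2, by ring⟩
  have hd0 : 0 ≤ d := by linarith
  have hm' : ∀ y ∈ closedBall (0 : ℂ) r, (r - ‖y‖) ^ 2 * w y ≤ 4 * (d ^ 2 * w z) := fun y hy => by
    have h1 : (r - ‖y‖) ^ 2 * w y ≤ (r - ‖z‖) ^ 2 * w z := hm hy
    rw [hd] at h1
    linarith
  by_cases hc : d ^ 2 * w z < 1 / (8 * k)
  · have h1 := hm' 0 (mem_closedBall_self hr.le)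
    rw [norm_zero, sub_zero] at h1
    rw [le_div_iff₀ (by positivity)]
    rw [lt_div_iff₀ (by positivity)] at hc
    nlinarith
  exfalso
  push Not at hc
  have hp : 0 < d ^ 2 * w z := lt_of_lt_of_le (by positivity) hc
  have hw0 : 0 < w z := pos_of_mul_pos_left (by rwa [mul_comm] at hp) (sq_nonneg d)
  have hd1 : 0 < d := hd0.lt_of_ne fun h0 => by
    rw [← h0] at hp
    simp at hp
  obtain ⟨ρ, hρ, hρ2⟩ : ∃ ρ : ℝ, 0 < ρ ∧ ρ ^ 2 = 1 / (8 * k * w z) :=
    ⟨√(1 / (8 * k * w z)), by positivity, Real.sq_sqrt (by positivity)⟩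
  have hρd : ρ ≤ d := by
    refine (pow_le_pow_iff_left₀ hρ.le hd0 two_ne_zero).1 ?_
    rw [hρ2, div_le_iff₀ (by positivity)]
    rw [div_le_iff₀ (by positivity)] at hc
    linarith
  have hn := norm_nonneg z
  have hB : ball z (1 / 2) ⊆ ball 0 1 := ball_subset_ball' (by rw [dist_zero_right]; linarith)
  have hρ1 : ρ < 1 / 2 := by linarith
  have h4 : ∀ y ∈ closedBall z ρ, w y ≤ 4 * w z := fun y hy => by
    have h1 : ‖y‖ ≤ ‖z‖ + d := by
      have h2 := norm_sub_norm_le y z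
      rw [mem_closedBall, dist_eq_norm] at hy
      linarith
    have hy' : y ∈ closedBall (0 : ℂ) r := mem_closedBall_zero_iff.2 (by linarith)
    have h2 := hm' y hy'
    have h3 : d ^ 2 * w y ≤ (r - ‖y‖) ^ 2 * w y :=
      mul_le_mul_of_nonneg_right (pow_le_pow_left₀ hd0 (by linarith) 2) (h y (hs hy')).1
    refine le_of_mul_le_mul_left ?_ (pow_pos hd1 2)
    linarith
  have h5 := A2b_area (w := w) (z := z) (m := Real.pi * w z) hρ
    (hw.continuousOn.mono ((closedBall_subset_ball hρ1).trans hB)) fun s h0 hs' => by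
      have h6 := sub_mean (c := 16 * k * w z ^ 2) (hw.mono hB) h0 (hs'.trans_lt hρ1)
        fun y hy => by
          have hy1 := closedBall_subset_closedBall hs' hy
          have hy2 := h y (hB (closedBall_subset_ball hρ1 hy1))
          have h7 : w y ^ 2 ≤ (4 * w z) ^ 2 := pow_le_pow_left₀ hy2.1 (h4 y hy1) 2
          have h8 := mul_le_mul_of_nonneg_right hK (sq_nonneg (w y))
          have h9 := mul_le_mul_of_nonneg_left h7 hk.le
          linarith [hy2.2.1]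
      have h7 : 16 * k * w z ^ 2 * s ^ 2 ≤ 2 * w z := by
        calc _ ≤ 16 * k * w z ^ 2 * ρ ^ 2 := by gcongr
          _ = _ := by rw [hρ2]; field_simp; ring
      have h8 := mul_le_mul_of_nonneg_left h7 Real.pi_pos.le
      linarith
  have h6 := area_le (hw.continuousOn.mono hB) (hβ.mono hB) (fun y hy => (h y (hB hy)).1)
    (fun y hy => (h y (hB hy)).2.2.1) (fun y hy => (h y (hB hy)).2.2.2) hρ hρ1
  have h7 : L ≤ Real.log (1 / 2 / ρ) := by
    rw [hrL]
    exact Real.log_le_log (by positivity) (by gcongr; linarith)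
  have h8 : 2 * Real.pi * C ^ 2 / Real.log (1 / 2 / ρ) ≤ 2 * Real.pi * C ^ 2 / L := by
    have := Real.pi_pos
    gcongr
  have h9 : Real.pi * w z * ρ ^ 2 / 2 = Real.pi / (16 * k) := by
    rw [hρ2]; field_simp; ring
  have h10 : Real.pi / (16 * k) ≤ 2 * Real.pi * C ^ 2 / L := by linarith
  rw [div_le_div_iff₀ (by positivity) hL0] at h10
  nlinarith [Real.pi_pos]

end Pool.Agent.MP_e62289_ag
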