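import Pool.Agent.MP_e62289_ag.W

open Set Filter Topology Complex MeasureTheory Metric
open scoped Manifold ContDiff ComplexConjugate NNReal ENNReal

namespace Pool.Agent.MP_e62289_ag

/-- real differentiable and separately complex differentiable implies complex differentiable -/
theorem sep_hol {P Q F : Type} [NormedAddCommGroup P] [NormedSpace ℂ P] [NormedAddCommGroup Q]
    [NormedSpace ℂ Q] [NormedAddCommGroup F] [NormedSpace ℂ F] {g : P × Q → F} {p : P × Q}
    (h : DifferentiableAt ℝ g p) (h1 : DifferentiableAt ℂ (fun x => g (x, p.2)) p.1)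
    (h2 : DifferentiableAt ℂ (fun y => g (p.1, y)) p.2) : DifferentiableAt ℂ g p := by
  have hL := h.hasFDerivAt
  set L := fderiv ℝ g p with hLdef
  have a1 : HasFDerivAt (fun x => g (x, p.2)) (L.comp (ContinuousLinearMap.inl ℝ P Q)) p.1 :=
    hL.comp p.1 (hasFDerivAt_prodMk_left p.1 p.2)
  have a2 : HasFDerivAt (fun y => g (p.1, y)) (L.comp (ContinuousLinearMap.inr ℝ P Q)) p.2 :=
    hL.comp p.2 (hasFDerivAt_prodMk_right p.1 p.2)
  have b1 := a1.unique (h1.hasFDerivAt.restrictScalars ℝ)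
  have b2 := a2.unique (h2.hasFDerivAt.restrictScalars ℝ)
  refine (differentiableAt_iff_restrictScalars ℝ h).2
    ⟨(fderiv ℂ (fun x => g (x, p.2)) p.1).coprod (fderiv ℂ (fun y => g (p.1, y)) p.2), ?_⟩
  refine ContinuousLinearMap.ext fun q => ?_
  have c1 := congrArg (fun T => T q.1) b1
  have c2 := congrArg (fun T => T q.2) b2
  simp only [ContinuousLinearMap.comp_apply, ContinuousLinearMap.inl_apply,
    ContinuousLinearMap.inr_apply, ContinuousLinearMap.coe_restrictScalars'] at c1 c2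
  simp only [ContinuousLinearMap.coe_restrictScalars', ContinuousLinearMap.coprod_apply]
  rw [← c1, ← c2, ← map_add, ← hLdef]
  simp

/-- a real differentiable function with vanishing `∂bar` is complex differentiable -/
theorem hasDerivAt_of_w2 {g : ℂ → ℂ} {z : ℂ} (h : DifferentiableAt ℝ g z)
    (h2 : w2 (fderiv ℝ g z) = 0) : HasDerivAt g (w1 (fderiv ℝ g z)) z := by
  have hL := h.hasFDerivAt
  rw [hasDerivAt_iff_hasFDerivAt]
  refine hasFDerivAt_of_restrictScalars ℝ hL ?_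
  refine ContinuousLinearMap.ext fun v => ?_
  rw [w_apply (fderiv ℝ g z) v, h2]
  simp [mul_comm]

theorem w_of_hasDerivAt {g : ℂ → ℂ} {z c : ℂ} (h : HasDerivAt g c z) :
    w1 (fderiv ℝ g z) = c ∧ w2 (fderiv ℝ g z) = 0 := by
  refine w_eq fun v => ?_
  rw [h.complexToReal_fderiv.fderiv]
  simp

/-- the Jacobian determinant -/
theorem det_eq_w (L : ℂ →L[ℝ] ℂ) : L.det = ‖w1 L‖ ^ 2 - ‖w2 L‖ ^ 2 := by
  have h : L.det = LinearMap.det (L : ℂ →ₗ[ℝ] ℂ) := rfl
  rw [h, ← LinearMap.det_toMatrix Complex.basisOneI, Matrix.det_fin_two]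
  simp only [LinearMap.toMatrix_apply, Complex.coe_basisOneI_repr, Complex.coe_basisOneI,
    Matrix.cons_val_zero, Matrix.cons_val_one, ContinuousLinearMap.coe_coe, w1, w2,
    Complex.sq_norm, normSq_apply, Matrix.cons_val_fin_one]
  simp
  ring

/-- an orientation preserving map is invertible -/
theorem exists_equiv_of_w {L : ℂ →L[ℝ] ℂ} (h : ‖w2 L‖ < ‖w1 L‖) :
    ∃ e : ℂ ≃L[ℝ] ℂ, (e : ℂ →L[ℝ] ℂ) = L := by
  have hd : L.det ≠ 0 := by
    rw [det_eq_w]
    exact (sub_pos.2 (pow_lt_pow_left₀ h (norm_nonneg _) two_ne_zero)).ne'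
  exact ⟨L.toContinuousLinearEquivOfDetNeZero hd,
    L.coe_toContinuousLinearEquivOfDetNeZero hd⟩

theorem Cx1b_not_const {U : Set ℂ} (hU : IsOpen U) {f : ℂ → ℂ} (hi : InjOn f U)
    {z₀ : ℂ} (hz₀ : z₀ ∈ U) : ¬ ∀ᶠ z in 𝓝 z₀, f z = f z₀ := by
  intro h
  have h1 : ∀ᶠ z in 𝓝[≠] z₀, z = z₀ := by
    apply Eventually.filter_mono nhdsWithin_le_nhds
    filter_upwards [h, hU.mem_nhds hz₀] with z hz hzU
    exact hi hzU hz₀ hz
  obtain ⟨z, hz1, hz2⟩ := (h1.and self_mem_nhdsWithin).exists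
  exact hz2 hz1

theorem Cx1b_nhds_le_map {U : Set ℂ} (hU : IsOpen U) {f : ℂ → ℂ} (hf : DifferentiableOn ℂ f U)
    (hi : InjOn f U) {z₀ : ℂ} (hz₀ : z₀ ∈ U) : 𝓝 (f z₀) ≤ map f (𝓝 z₀) :=
  ((hf.analyticAt (hU.mem_nhds hz₀)).eventually_constant_or_nhds_le_map_nhds).resolve_left
    (Cx1b_not_const hU hi hz₀)

theorem Cx1b_isOpen_image {U : Set ℂ} (hU : IsOpen U) {f : ℂ → ℂ} (hf : DifferentiableOn ℂ f U)
    (hi : InjOn f U) : IsOpen (f '' U) := by
  rw [isOpen_iff_mem_nhds]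
  rintro _ ⟨z, hz, rfl⟩
  exact Cx1b_nhds_le_map hU hf hi hz (image_mem_map (hU.mem_nhds hz))

/-- The inverse of an injective holomorphic map is holomorphic. -/
theorem Cx1b_exists_inverse {U : Set ℂ} (hU : IsOpen U) {f : ℂ → ℂ} (hf : DifferentiableOn ℂ f U)
    (hi : InjOn f U) : ∃ g : ℂ → ℂ, DifferentiableOn ℂ g (f '' U) ∧ ∀ z ∈ U, g (f z) = z := by
  set g := Function.invFunOn f U with hg
  have hgf : ∀ z ∈ U, g (f z) = z := fun z hz => hi.leftInvOn_invFunOn hz
  have hV := Cx1b_isOpen_image hU hf hi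
  have hcont : ∀ z ∈ U, ContinuousAt g (f z) := by
    intro z hz
    rw [ContinuousAt, hgf z hz]
    refine Tendsto.mono_left ?_ (Cx1b_nhds_le_map hU hf hi hz)
    rw [tendsto_map'_iff]
    apply tendsto_id.congr'
    filter_upwards [hU.mem_nhds hz] with w hw
    exact (hgf w hw).symm
  have hfg : ∀ w ∈ f '' U, f (g w) = w := by
    rintro _ ⟨z, hz, rfl⟩; rw [hgf z hz]
  refine ⟨g, ?_, hgf⟩
  rintro _ ⟨z, hz, rfl⟩
  apply DifferentiableAt.differentiableWithinAt
  apply AnalyticAt.differentiableAt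
  apply Complex.analyticAt_of_differentiable_on_punctured_nhds_of_continuousAt _ (hcont z hz)
  have han : AnalyticAt ℂ (deriv f) z := (hf.analyticAt (hU.mem_nhds hz)).deriv
  have hne : ∀ᶠ u in 𝓝[≠] z, deriv f u ≠ 0 := by
    refine han.eventually_eq_zero_or_eventually_ne_zero.resolve_left fun h => ?_
    apply Cx1b_not_const hU hi hz
    obtain ⟨r, hr, hsub⟩ := Metric.nhds_basis_ball.mem_iff.1 (inter_mem h (hU.mem_nhds hz))
    filter_upwards [ball_mem_nhds z hr] with u hu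
    exact isOpen_ball.is_const_of_deriv_eq_zero (convex_ball z r).isPreconnected
      (hf.mono fun v hv => (hsub hv).2) (fun v hv => (hsub hv).1) hu (mem_ball_self hr)
  rw [eventually_nhdsWithin_iff] at hne ⊢
  have ht : Tendsto g (𝓝 (f z)) (𝓝 z) := by simpa [ContinuousAt, hgf z hz] using hcont z hz
  filter_upwards [ht.eventually hne, hV.mem_nhds (mem_image_of_mem f hz)] with w hw hwV hwne
  obtain ⟨u, hu, rfl⟩ := hwV
  have hu' : u ≠ z := fun h => hwne (by simp [h])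
  rw [hgf u hu] at hw
  refine (HasDerivAt.of_local_left_inverse (f := f) (f' := deriv f u) (hcont u hu) ?_ (hw hu')
    ?_).differentiableAt
  · rw [hgf u hu]
    exact (hf.differentiableAt (hU.mem_nhds hu)).hasDerivAt
  · filter_upwards [hV.mem_nhds (mem_image_of_mem f hu)] with y hy using hfg y hy

/-- injective holomorphic maps have non-vanishing derivative -/
theorem deriv_ne_zero_of_injOn {f : ℂ → ℂ} {s : Set ℂ} (hs : IsOpen s)
    (hf : DifferentiableOn ℂ f s) (hi : InjOn f s) {z : ℂ} (hz : z ∈ s) : deriv f z ≠ 0 := by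
  obtain ⟨g, hg, hgf⟩ := Cx1b_exists_inverse hs hf hi
  have hV := Cx1b_isOpen_image hs hf hi
  have h1 := (hg.differentiableAt (hV.mem_nhds (mem_image_of_mem f hz))).hasDerivAt.comp z
    (hf.differentiableAt (hs.mem_nhds hz)).hasDerivAt
  have h2 : HasDerivAt (g ∘ f) 1 z := by
    apply (hasDerivAt_id z).congr_of_eventuallyEq
    filter_upwards [hs.mem_nhds hz] with w hw using hgf w hw
  have := h1.unique h2
  intro h
  simp [h] at this

/-- spatial derivatives of a `C¹` function that is holomorphic in a parameter are holomorphic in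
the parameter -/
theorem par_hol {g : ℂ × ℂ → ℂ} {O : Set (ℂ × ℂ)} (hO : IsOpen O) (hg : ContDiffOn ℝ 1 g O)
    (hh : ∀ p ∈ O, DifferentiableAt ℂ (fun t => g (t, p.2)) p.1) {p : ℂ × ℂ} (hp : p ∈ O)
    (v : ℂ) : DifferentiableAt ℂ (fun t => fderiv ℝ (fun z => g (t, z)) p.2 v) p.1 := by
  obtain ⟨r, hr, hball⟩ := Metric.isOpen_iff.1 hO p hp
  have hmem : ∀ t ∈ ball p.1 r, ∀ z ∈ ball p.2 r, (t, z) ∈ O := fun t ht z hz =>
    hball (by rw [← ball_prod_same]; exact ⟨ht, hz⟩)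
  have hd : ∀ q ∈ O, HasFDerivAt g (fderiv ℝ g q) q := fun q hq =>
    ((hg.differentiableOn one_ne_zero).differentiableAt (hO.mem_nhds hq)).hasFDerivAt
  have hc : ContinuousOn (fderiv ℝ g) O := hg.continuousOn_fderiv_of_isOpen hO le_rfl
  have hs : ∀ t z, (t, z) ∈ O → HasFDerivAt (fun z => g (t, z))
      ((fderiv ℝ g (t, z)).comp (ContinuousLinearMap.inr ℝ ℂ ℂ)) z := fun t z htz =>
    (hd _ htz).comp z (hasFDerivAt_prodMk_right t z)
  have hsmall : ∀ δ : ℝ, 0 < δ → ∀ᶠ h : ℝ in 𝓝[≠] 0, p.2 + h • v ∈ ball p.2 δ := by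
    intro δ hδ
    have : Tendsto (fun h : ℝ => p.2 + h • v) (𝓝 0) (𝓝 p.2) := by
      have : Continuous (fun h : ℝ => p.2 + h • v) := by fun_prop
      simpa using this.tendsto 0
    exact (this.eventually (ball_mem_nhds _ hδ)).filter_mono nhdsWithin_le_nhds
  have key : TendstoLocallyUniformlyOn
      (fun (h : ℝ) (t : ℂ) => (h : ℂ)⁻¹ * (g (t, p.2 + h • v) - g (t, p.2)))
      (fun t => fderiv ℝ (fun z => g (t, z)) p.2 v) (𝓝[≠] 0) (ball p.1 r) := by
    rw [Metric.tendstoLocallyUniformlyOn_iff]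
    intro ε hε t₀ ht₀
    have ht₀O : (t₀, p.2) ∈ O := hmem _ ht₀ _ (mem_ball_self hr)
    set η : ℝ := ε / (4 * (‖v‖ + 1)) with hη
    have hηpos : 0 < η := by positivity
    have h1 : ∀ᶠ q in 𝓝 (t₀, p.2), q ∈ O ∧ dist (fderiv ℝ g q) (fderiv ℝ g (t₀, p.2)) < η :=
      Filter.Eventually.and (hO.mem_nhds ht₀O)
        (Metric.tendsto_nhds.1 (hc.continuousAt (hO.mem_nhds ht₀O)) η hηpos)
    obtain ⟨δ, hδ, hsub⟩ := Metric.eventually_nhds_iff_ball.1 h1
    have hsub' : ∀ t ∈ ball t₀ δ, ∀ z ∈ ball p.2 δ,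
        (t, z) ∈ O ∧ dist (fderiv ℝ g (t, z)) (fderiv ℝ g (t₀, p.2)) < η := fun t ht z hz =>
      hsub _ (by rw [← ball_prod_same]; exact ⟨ht, hz⟩)
    refine ⟨ball t₀ δ, mem_nhdsWithin_of_mem_nhds (ball_mem_nhds _ hδ), ?_⟩
    filter_upwards [hsmall δ hδ, self_mem_nhdsWithin] with h hh1 hh0 t ht
    have hh0' : (h : ℂ) ≠ 0 := by exact_mod_cast hh0
    have hp2 := hsub' t ht p.2 (mem_ball_self hδ)
    have hmv := (convex_ball p.2 δ).norm_image_sub_le_of_norm_hasFDerivWithin_le'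
      (f := fun z => g (t, z))
      (f' := fun z => (fderiv ℝ g (t, z)).comp (ContinuousLinearMap.inr ℝ ℂ ℂ))
      (φ := (fderiv ℝ g (t, p.2)).comp (ContinuousLinearMap.inr ℝ ℂ ℂ)) (C := 2 * η)
      (fun z hz => (hs t z (hsub' t ht z hz).1).hasFDerivWithinAt)
      (fun z hz => by
        rw [← ContinuousLinearMap.sub_comp]
        refine (ContinuousLinearMap.opNorm_comp_le _ _).trans ?_
        have e1 : ‖ContinuousLinearMap.inr ℝ ℂ ℂ‖ ≤ 1 := ContinuousLinearMap.norm_inr_le_one ℝ ℂ ℂ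
        have e2 : ‖fderiv ℝ g (t, z) - fderiv ℝ g (t, p.2)‖ ≤ 2 * η := by
          rw [← dist_eq_norm]
          have := dist_triangle_right (fderiv ℝ g (t, z)) (fderiv ℝ g (t, p.2))
            (fderiv ℝ g (t₀, p.2))
          linarith [(hsub' t ht z hz).2, hp2.2]
        calc _ ≤ 2 * η * 1 := by gcongr
          _ = 2 * η := mul_one _)
      (mem_ball_self hδ) hh1
    rw [(hs t p.2 hp2.1).fderiv, dist_eq_norm]
    rw [add_sub_cancel_left, map_smul, norm_smul] at hmv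
    set A := (fderiv ℝ g (t, p.2)).comp (ContinuousLinearMap.inr ℝ ℂ ℂ) v
    have e : A - (h : ℂ)⁻¹ * (g (t, p.2 + h • v) - g (t, p.2)) =
        -((h : ℂ)⁻¹ * (g (t, p.2 + h • v) - g (t, p.2) - h • A)) := by
      rw [Complex.real_smul (x := h) (z := A)]
      generalize g (t, p.2 + h • v) = B
      field_simp
      ring
    rw [e, norm_neg, norm_mul, norm_inv, Complex.norm_real]
    have hpos : 0 < ‖h‖ := norm_pos_iff.2 hh0
    calc ‖h‖⁻¹ * ‖g (t, p.2 + h • v) - g (t, p.2) - h • A‖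
        ≤ ‖h‖⁻¹ * (2 * η * (‖h‖ * ‖v‖)) := by gcongr
      _ = 2 * η * ‖v‖ := by field_simp
      _ ≤ 2 * η * (‖v‖ + 1) := by gcongr; linarith
      _ = ε / 2 := by rw [hη]; field_simp; ring
      _ < ε := half_lt_self hε
  have hdiff := key.differentiableOn (by
    filter_upwards [hsmall r hr] with h hh1 t ht
    refine DifferentiableAt.differentiableWithinAt ?_
    exact ((hh (t, p.2 + h • v) (hmem t ht _ hh1)).sub
      (hh (t, p.2) (hmem t ht _ (mem_ball_self hr)))).const_mul _) isOpen_ball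
  exact hdiff.differentiableAt (ball_mem_nhds _ hr)

end Pool.Agent.MP_e62289_ag
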