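import Pool.Agent.MP_e62289_ag.LDefs
import Pool.Agent.MP_e62289_ag.Cx1

open Set Filter Topology Complex MeasureTheory Metric
open scoped Manifold ContDiff ComplexConjugate NNReal ENNReal

namespace Pool.Agent.MP_e62289_ag

/-! Calculus of `d1`, `d2` for functions on surfaces. -/

section General

variable {Y : Type} [TopologicalSpace Y] [ChartedSpace ℂ Y] {u v : Y → ℂ} {q : Y}

theorem d_plane (g : ℂ → ℂ) (z : ℂ) :
    d1 g z = w1 (fderiv ℝ g z) ∧ d2 g z = w2 (fderiv ℝ g z) := by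
  have : dd g z = fderiv ℝ g z := mfderiv_eq_fderiv
  simp only [d1, d2, this, and_self]

theorem L0a_of {L : ℂ →L[ℝ] ℂ} (h : HasMFDerivAt 𝓘(ℝ, ℂ) 𝓘(ℝ, ℂ) u q L) {a b : ℂ}
    (e : ∀ z, L z = a * z + b * conj z) : d1 u q = a ∧ d2 u q = b := by
  have : dd u q = L := h.mfderiv
  simp only [d1, d2, this]
  exact w_eq e

theorem L0a_has (hu : RDiffAt u q) : HasMFDerivAt 𝓘(ℝ, ℂ) 𝓘(ℝ, ℂ) u q (dd u q) := hu.hasMFDerivAt

theorem L0a_app (u : Y → ℂ) (q : Y) (z : ℂ) : dd u q z = d1 u q * z + d2 u q * conj z :=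
  w_apply _ _

theorem d_const (c : ℂ) (q : Y) : d1 (fun _ : Y => c) q = 0 ∧ d2 (fun _ : Y => c) q = 0 :=
  L0a_of (L := 0) (hasMFDerivAt_const c q) fun z => by simp

theorem L0a_bin {g : ℂ × ℂ → ℂ} {L : ℂ × ℂ →L[ℝ] ℂ} (hu : RDiffAt u q) (hv : RDiffAt v q)
    (hg : HasFDerivAt g L (u q, v q)) :
    HasMFDerivAt 𝓘(ℝ, ℂ) 𝓘(ℝ, ℂ) (fun x => g (u x, v x)) q (L.comp ((dd u q).prod (dd v q))) := by
  have h1 : HasMFDerivAt 𝓘(ℝ, ℂ) 𝓘(ℝ, ℂ × ℂ) (fun x => (u x, v x)) q ((dd u q).prod (dd v q)) :=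
    ⟨hu.continuousAt.prodMk hv.continuousAt, (L0a_has hu).2.prodMk (L0a_has hv).2⟩
  exact HasMFDerivAt.comp q (g := g) hg.hasMFDerivAt h1

theorem L0a_add (hu : RDiffAt u q) (hv : RDiffAt v q) :
    HasMFDerivAt 𝓘(ℝ, ℂ) 𝓘(ℝ, ℂ) (fun x => u x + v x) q
      ((ContinuousLinearMap.fst ℝ ℂ ℂ + ContinuousLinearMap.snd ℝ ℂ ℂ).comp
        ((dd u q).prod (dd v q))) :=
  L0a_bin (g := fun p => p.1 + p.2) hu hv (hasFDerivAt_fst.add hasFDerivAt_snd)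

theorem L0a_sub (hu : RDiffAt u q) (hv : RDiffAt v q) :
    HasMFDerivAt 𝓘(ℝ, ℂ) 𝓘(ℝ, ℂ) (fun x => u x - v x) q
      ((ContinuousLinearMap.fst ℝ ℂ ℂ - ContinuousLinearMap.snd ℝ ℂ ℂ).comp
        ((dd u q).prod (dd v q))) :=
  L0a_bin (g := fun p => p.1 - p.2) hu hv (hasFDerivAt_fst.sub hasFDerivAt_snd)

theorem L0a_mul (hu : RDiffAt u q) (hv : RDiffAt v q) :
    HasMFDerivAt 𝓘(ℝ, ℂ) 𝓘(ℝ, ℂ) (fun x => u x * v x) q
      ((u q • ContinuousLinearMap.snd ℝ ℂ ℂ + v q • ContinuousLinearMap.fst ℝ ℂ ℂ).comp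
        ((dd u q).prod (dd v q))) :=
  L0a_bin (g := fun p => p.1 * p.2) hu hv (by
    have := (hasFDerivAt_fst (𝕜 := ℝ) (p := (u q, v q))).fun_mul
      (hasFDerivAt_snd (𝕜 := ℝ) (p := (u q, v q)))
    exact this)

theorem d_add (hu : RDiffAt u q) (hv : RDiffAt v q) :
    d1 (fun x => u x + v x) q = d1 u q + d1 v q ∧ d2 (fun x => u x + v x) q = d2 u q + d2 v q :=
  L0a_of (L0a_add hu hv) fun z => by
    change dd u q z + dd v q z = _
    rw [L0a_app, L0a_app]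
    ring

theorem d_sub (hu : RDiffAt u q) (hv : RDiffAt v q) :
    d1 (fun x => u x - v x) q = d1 u q - d1 v q ∧ d2 (fun x => u x - v x) q = d2 u q - d2 v q :=
  L0a_of (L0a_sub hu hv) fun z => by
    change dd u q z - dd v q z = _
    rw [L0a_app, L0a_app]
    ring

theorem d_mul (hu : RDiffAt u q) (hv : RDiffAt v q) :
    d1 (fun x => u x * v x) q = d1 u q * v q + u q * d1 v q ∧
    d2 (fun x => u x * v x) q = d2 u q * v q + u q * d2 v q :=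
  L0a_of (L0a_mul hu hv) fun z => by
    change u q * dd v q z + v q * dd u q z = _
    rw [L0a_app, L0a_app]
    ring

theorem L0a_conj (hu : RDiffAt u q) : HasMFDerivAt 𝓘(ℝ, ℂ) 𝓘(ℝ, ℂ) (fun x => conj (u x)) q
    ((conjCLE : ℂ →L[ℝ] ℂ).comp (dd u q)) :=
  HasMFDerivAt.comp q (g := conjCLE) conjCLE.hasFDerivAt.hasMFDerivAt (L0a_has hu)

theorem d_conj (u : Y → ℂ) (q : Y) :
    d1 (fun x => conj (u x)) q = conj (d2 u q) ∧ d2 (fun x => conj (u x)) q = conj (d1 u q) := by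
  by_cases hu : RDiffAt u q
  · refine L0a_of (L0a_conj hu) fun z => ?_
    change conj (dd u q z) = _
    rw [L0a_app]
    simp only [map_add, map_mul, conj_conj]
    ring
  · have h2 : ¬ RDiffAt (fun x => conj (u x)) q := fun h => hu (by
      simpa only [conj_conj] using (L0a_conj h).mdifferentiableAt)
    have e1 : dd u q = 0 := mfderiv_zero_of_not_mdifferentiableAt hu
    have e2 : dd (fun x => conj (u x)) q = 0 := mfderiv_zero_of_not_mdifferentiableAt h2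
    simp [d1, d2, e1, e2, w1, w2]

/-- chain rule with a holomorphic outer function -/
theorem d_hol_comp {g : ℂ → ℂ} {c : ℂ} (hg : HasDerivAt g c (u q)) (hu : RDiffAt u q) :
    RDiffAt (fun x => g (u x)) q ∧
    d1 (fun x => g (u x)) q = c * d1 u q ∧ d2 (fun x => g (u x)) q = c * d2 u q := by
  have h := HasMFDerivAt.comp q (g := g) hg.complexToReal_fderiv.hasMFDerivAt (L0a_has hu)
  refine ⟨h.mdifferentiableAt, L0a_of h fun z => ?_⟩
  change c * dd u q z = _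
  rw [L0a_app]
  ring

theorem RDiffAt.add (hu : RDiffAt u q) (hv : RDiffAt v q) : RDiffAt (fun x => u x + v x) q :=
  (L0a_add hu hv).mdifferentiableAt

theorem RDiffAt.sub (hu : RDiffAt u q) (hv : RDiffAt v q) : RDiffAt (fun x => u x - v x) q :=
  (L0a_sub hu hv).mdifferentiableAt

theorem RDiffAt.mul (hu : RDiffAt u q) (hv : RDiffAt v q) : RDiffAt (fun x => u x * v x) q :=
  (L0a_mul hu hv).mdifferentiableAt

theorem RDiffAt.conj (hu : RDiffAt u q) : RDiffAt (fun x => conj (u x)) q :=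
  (L0a_conj hu).mdifferentiableAt

variable {Y' : Type} [TopologicalSpace Y'] [ChartedSpace ℂ Y'] {G : Y → Y'}

theorem L0a_iff (𝕜 : Type) [NontriviallyNormedField 𝕜] [NormedSpace 𝕜 ℂ] :
    MDifferentiableAt 𝓘(𝕜, ℂ) 𝓘(𝕜, ℂ) G q ↔ ContinuousAt G q ∧ DifferentiableAt 𝕜
      (chartAt ℂ (G q) ∘ G ∘ (chartAt ℂ q).symm) (chartAt ℂ q q) := by
  rw [mdifferentiableAt_iff]
  simp only [writtenInExtChartAt, mfld_simps, differentiableWithinAt_univ]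

theorem L0a_dd (h : MDifferentiableAt 𝓘(ℝ, ℂ) 𝓘(ℝ, ℂ) G q) :
    dd G q = fderiv ℝ (chartAt ℂ (G q) ∘ G ∘ (chartAt ℂ q).symm) (chartAt ℂ q q) := by
  rw [dd, h.mfderiv]
  simp only [writtenInExtChartAt, mfld_simps, fderivWithin_univ]

/-- holomorphic maps of surfaces are conformal -/
theorem d2_of_hol (h : MDifferentiableAt 𝓘(ℂ, ℂ) 𝓘(ℂ, ℂ) G q) :
    MDifferentiableAt 𝓘(ℝ, ℂ) 𝓘(ℝ, ℂ) G q ∧ d2 G q = 0 := by
  rw [L0a_iff] at h
  have h' : MDifferentiableAt 𝓘(ℝ, ℂ) 𝓘(ℝ, ℂ) G q :=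
    (L0a_iff ℝ).2 ⟨h.1, h.2.restrictScalars ℝ⟩
  exact ⟨h', by rw [d2, L0a_dd h', (w_of_hasDerivAt h.2.hasDerivAt).2]⟩

/-- conformal maps of surfaces are holomorphic -/
theorem hol_of_d2 (h : MDifferentiableAt 𝓘(ℝ, ℂ) 𝓘(ℝ, ℂ) G q) (h2 : d2 G q = 0) :
    MDifferentiableAt 𝓘(ℂ, ℂ) 𝓘(ℂ, ℂ) G q := by
  rw [d2, L0a_dd h] at h2
  rw [L0a_iff] at h ⊢
  exact ⟨h.1, (hasDerivAt_of_w2 h.2 h2).differentiableAt⟩

/-- the derivative of a function in the preferred chart -/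
theorem dd_eq_fderiv (hu : RDiffAt u q) :
    dd u q = fderiv ℝ (u ∘ (chartAt ℂ q).symm) (chartAt ℂ q q) := L0a_dd hu

/-- the Beltrami coefficient can be computed in any holomorphic coordinate of the target -/
theorem bel_comp_hol {z : Y' → ℂ} (hG : MDifferentiableAt 𝓘(ℝ, ℂ) 𝓘(ℝ, ℂ) G q)
    (hz : HolAt z (G q)) (h1 : d1 z (G q) ≠ 0) :
    d1 (z ∘ G) q = d1 z (G q) * d1 G q ∧ d2 (z ∘ G) q = d1 z (G q) * d2 G q ∧
      bel (z ∘ G) q = bel G q := by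
  have h := d_comp (d2_of_hol hz).1 hG
  rw [(d2_of_hol hz).2, zero_mul, add_zero, zero_mul, add_zero] at h
  exact ⟨h.1, h.2, by rw [bel, h.1, h.2, mul_div_mul_left _ _ h1, bel]⟩

end General

end Pool.Agent.MP_e62289_ag
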