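import Pool.Agent.MP_e62289_ag.LDefs
import Pool.Agent.MP_e62289_ag.Cx1
import Pool.Agent.MP_e62289_ag.L0a

open Set Filter Topology Complex MeasureTheory Metric
open scoped Manifold ContDiff ComplexConjugate NNReal ENNReal

namespace Pool.Agent.MP_e62289_ag

/-! Calculus of `d1`, `d2` for functions on surfaces. -/

section General

variable {Y : Type} [TopologicalSpace Y] [ChartedSpace ℂ Y] {u v : Y → ℂ} {q : Y}

variable {Y' : Type} [TopologicalSpace Y'] [ChartedSpace ℂ Y'] {G : Y → Y'}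

theorem L0b_hasDerivAt (hu : HolAt u q) :
    HasDerivAt (u ∘ (chartAt ℂ q).symm) (d1 u q) (chartAt ℂ q q) := by
  have h := ((mdifferentiableAt_iff _ _).1 hu).2
  simp only [mfld_simps, differentiableWithinAt_univ] at h
  have h2 := h.hasDerivAt
  have h3 := (w_of_hasDerivAt h2).1
  rw [← dd_eq_fderiv (d2_of_hol hu).1] at h3
  rw [d1, h3]
  exact h2

theorem L0b_diff [IsManifold 𝓘(ℂ, ℂ) ω Y] {x : Y} {z : ℂ} (hz : z ∈ (chartAt ℂ x).target)
    (hu : HolAt u ((chartAt ℂ x).symm z)) : DifferentiableAt ℂ (u ∘ (chartAt ℂ x).symm) z :=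
  mdifferentiableAt_iff_differentiableAt.1
    (hu.comp z (mdifferentiableAt_atlas_symm (chart_mem_atlas ℂ x) hz))

/-- functions that are holomorphic near a point are smooth -/
theorem ckAt_of_hol [IsManifold 𝓘(ℂ, ℂ) ω Y] [IsManifold 𝓘(ℝ, ℂ) ω Y]
    (h : ∀ᶠ x in 𝓝 q, HolAt u x) (k : ℕ∞ω) : CkAt k u q := by
  have hq := mem_chart_source ℂ q
  have ht := (chartAt ℂ q).map_source hq
  have h1 : ∀ᶠ z in 𝓝 (chartAt ℂ q q), HolAt u ((chartAt ℂ q).symm z) := by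
    have := (chartAt ℂ q).continuousAt_symm ht
    rw [ContinuousAt, (chartAt ℂ q).left_inv hq] at this
    exact this.eventually h
  have h2 : AnalyticAt ℂ (u ∘ (chartAt ℂ q).symm) (chartAt ℂ q q) := by
    rw [analyticAt_iff_eventually_differentiableAt]
    filter_upwards [h1, (chartAt ℂ q).open_target.mem_nhds ht] with z a b using L0b_diff b a
  refine contMDiffAt_iff.2 ⟨h.self_of_nhds.continuousAt, ?_⟩
  simp only [mfld_simps, contDiffWithinAt_univ]
  exact (h2.contDiffAt (n := k)).restrict_scalars ℝ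

theorem L0b_coord [IsManifold 𝓘(ℂ, ℂ) ω Y] {φ : OpenPartialHomeomorph Y ℂ}
    (h : MDifferentiableOn 𝓘(ℂ, ℂ) 𝓘(ℂ, ℂ) φ φ.source) (hq : q ∈ φ.source) :
    HolAt φ q ∧ d1 φ q ≠ 0 ∧ HasDerivAt (chartAt ℂ q ∘ φ.symm) (d1 φ q)⁻¹ (φ q) := by
  have hol : ∀ x ∈ φ.source, HolAt φ x := fun x hx =>
    (h x hx).mdifferentiableAt (φ.open_source.mem_nhds hx)
  have hc := mem_chart_source ℂ q
  let ψ := (chartAt ℂ q).symm ≫ₕ φ
  have hs : chartAt ℂ q q ∈ ψ.source := by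
    simp only [ψ, mfld_simps, hq]
  have hd := L0b_hasDerivAt (hol q hq)
  have hne : d1 φ q ≠ 0 := by
    rw [← hd.deriv]
    refine deriv_ne_zero_of_injOn ψ.open_source (fun z hz => ?_) ψ.injOn hs
    exact (L0b_diff hz.1 (hol _ hz.2)).differentiableWithinAt
  refine ⟨hol q hq, hne, ?_⟩
  have e : ψ (chartAt ℂ q q) = φ q := by
    simp only [ψ, mfld_simps]
  have ht : φ q ∈ ψ.target := e ▸ ψ.map_source hs
  refine ψ.hasDerivAt_symm ht hne ?_
  rw [← e, ψ.left_inv hs]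
  exact hd

/-- charts are holomorphic with non-vanishing derivative -/
theorem chart_hol [IsManifold 𝓘(ℂ, ℂ) ω Y] {x : Y} (hq : q ∈ (chartAt ℂ x).source) :
    HolAt (chartAt ℂ x) q ∧ d1 (chartAt ℂ x) q ≠ 0 :=
  have h := L0b_coord (mdifferentiableOn_atlas (chart_mem_atlas ℂ x)) hq
  ⟨h.1, h.2.1⟩

/-- holomorphic coordinates have non-vanishing derivative and holomorphic inverse -/
theorem coord_hol [IsManifold 𝓘(ℂ, ℂ) ω Y] {φ : OpenPartialHomeomorph Y ℂ}
    (h : MDifferentiableOn 𝓘(ℂ, ℂ) 𝓘(ℂ, ℂ) φ φ.source) :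
    (∀ q ∈ φ.source, HolAt φ q ∧ d1 φ q ≠ 0) ∧
    ∀ z ∈ φ.target, MDifferentiableAt 𝓘(ℂ, ℂ) 𝓘(ℂ, ℂ) φ.symm z := by
  refine ⟨fun q hq => ⟨(L0b_coord h hq).1, (L0b_coord h hq).2.1⟩, fun z hz => ?_⟩
  have h3 := (L0b_coord h (φ.map_target hz)).2.2
  rw [φ.right_inv hz] at h3
  refine (mdifferentiableAt_iff _ _).2 ⟨φ.continuousAt_symm hz, ?_⟩
  simp only [mfld_simps, differentiableWithinAt_univ]
  exact h3.differentiableAt

/-- the derivative of a holomorphic function in a holomorphic coordinate -/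
theorem hasDerivAt_coord [IsManifold 𝓘(ℂ, ℂ) ω Y] {φ : OpenPartialHomeomorph Y ℂ}
    (h : MDifferentiableOn 𝓘(ℂ, ℂ) 𝓘(ℂ, ℂ) φ φ.source) (hq : q ∈ φ.source) (hu : HolAt u q) :
    HasDerivAt (u ∘ φ.symm) (d1 u q / d1 φ q) (φ q) := by
  have h1 := L0b_hasDerivAt hu
  have h3 := (L0b_coord h hq).2.2
  have e : chartAt ℂ q q = (chartAt ℂ q ∘ φ.symm) (φ q) := by
    rw [Function.comp_apply, φ.left_inv hq]
  rw [e] at h1
  rw [div_eq_mul_inv]
  refine (h1.comp (φ q) h3).congr_of_eventuallyEq ?_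
  have hc := φ.continuousAt_symm (φ.map_source hq)
  rw [ContinuousAt, φ.left_inv hq] at hc
  filter_upwards [hc.eventually (chart_source_mem_nhds ℂ q)] with z hz
  simp only [Function.comp_apply, (chartAt ℂ q).left_inv hz]

end General

end Pool.Agent.MP_e62289_ag
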