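import Pool.Agent.MP_e62289_ag.LDefs
import Pool.Agent.MP_e62289_ag.Cx1
import Pool.Agent.MP_e62289_ag.L0a

open Set Filter Topology Complex MeasureTheory Metric
open scoped Manifold ContDiff ComplexConjugate NNReal ENNReal

namespace Pool.Agent.MP_e62289_ag

/-! Calculus of `d1`, `d2` for functions on surfaces. -/

section General

variable {Y : Type} [TopologicalSpace Y] [ChartedSpace ℂ Y] {u v : Y → ℂ} {q : Y}

variable {Y' : Type} [TopologicalSpace Y'] [ChartedSpace ℂ Y'] {G : Y → Y'}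

theorem L0c_inv [IsManifold 𝓘(ℝ, ℂ) ω Y] [IsManifold 𝓘(ℝ, ℂ) ω Y'] {H : Y' → Y}
    (hH : Function.LeftInverse H G) (hs : ContMDiffAt 𝓘(ℝ, ℂ) 𝓘(ℝ, ℂ) 2 G q)
    (hp : ‖d2 G q‖ < ‖d1 G q‖) : ContMDiffAt 𝓘(ℝ, ℂ) 𝓘(ℝ, ℂ) 2 H (G q) := by
  obtain ⟨e, he⟩ := exists_equiv_of_w hp
  have h1 := (contMDiffAt_iff.1 hs).2
  have h2 := (hs.mdifferentiableAt (by simp)).hasMFDerivAt.2
  simp only [mfld_simps, contDiffWithinAt_univ, hasFDerivWithinAt_univ] at h1 h2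
  have hq := mem_chart_source ℂ q
  have hq' := mem_chart_source ℂ (G q)
  set χ := chartAt ℂ q with hχ
  set χ' := chartAt ℂ (G q) with hχ'
  have h3 : HasFDerivAt (χ' ∘ G ∘ χ.symm) (e : ℂ →L[ℝ] ℂ) (χ q) := by
    rw [he]
    exact h2
  have e1 : (χ' ∘ G ∘ χ.symm) (χ q) = χ' (G q) := by
    simp only [Function.comp_apply, χ.left_inv hq]
  have h4 := h1.to_localInverse h3 (by simp)
  have h5 := h1.localInverse_apply_image h3 (by simp)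
  have h6 : ∀ᶠ y in 𝓝 ((χ' ∘ G ∘ χ.symm) (χ q)),
      (χ' ∘ G ∘ χ.symm) (h1.localInverse h3 (by simp) y) = y :=
    (h1.hasStrictFDerivAt' h3 (by simp)).eventually_right_inverse
  rw [e1] at h4 h5 h6
  generalize h1.localInverse h3 _ = k at h4 h5 h6
  have a1 : ContMDiffAt 𝓘(ℝ, ℂ) 𝓘(ℝ, ℂ) 2 χ' (G q) :=
    contMDiffAt_of_mem_maximalAtlas (IsManifold.chart_mem_maximalAtlas _) hq'
  have a2 : ContMDiffAt 𝓘(ℝ, ℂ) 𝓘(ℝ, ℂ) 2 χ.symm (k (χ' (G q))) := by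
    rw [h5]
    exact contMDiffAt_symm_of_mem_maximalAtlas (IsManifold.chart_mem_maximalAtlas _)
      (χ.map_source hq)
  have a3 : ContMDiffAt 𝓘(ℝ, ℂ) 𝓘(ℝ, ℂ) 2 (χ.symm ∘ k ∘ χ') (G q) :=
    a2.comp (G q) (h4.contMDiffAt.comp (G q) a1)
  have e2 : (χ.symm ∘ k ∘ χ') (G q) = q := by
    simp only [Function.comp_apply, h5, χ.left_inv hq]
  have c1 : Tendsto (G ∘ χ.symm ∘ k ∘ χ') (𝓝 (G q)) (𝓝 (G q)) := by
    have := a3.continuousAt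
    rw [ContinuousAt, e2] at this
    exact hs.continuousAt.tendsto.comp this
  refine a3.congr_of_eventuallyEq ?_
  filter_upwards [a1.continuousAt.eventually h6, χ'.open_source.mem_nhds hq',
    c1.eventually (χ'.open_source.mem_nhds hq')] with y b1 b2 b3
  have := χ'.injOn b3 b2 b1
  conv_lhs => rw [← this]
  exact hH _

/-- bijective `C²` local diffeomorphisms are admissible -/
theorem Adm.exists_of_bij [IsManifold 𝓘(ℝ, ℂ) ω Y] [IsManifold 𝓘(ℝ, ℂ) ω Y']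
    (hb : Function.Bijective G) (hs : ContMDiff 𝓘(ℝ, ℂ) 𝓘(ℝ, ℂ) 2 G)
    (hp : ∀ q, ‖d2 G q‖ < ‖d1 G q‖) (hc : ∃ K, IsCompact K ∧ ∀ q, q ∉ K → d2 G q = 0) :
    ∃ A : Adm Y Y', ⇑A.φ = G := by
  let e := Equiv.ofBijective G hb
  refine ⟨⟨⟨e, hs, fun y => ?_⟩, hp, hc⟩, rfl⟩
  obtain ⟨x, rfl⟩ := hb.2 y
  exact L0c_inv e.left_inv (hs x) (hp x)

end General

end Pool.Agent.MP_e62289_ag
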