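import Pool.Agent.MP_e62289_ag.X3b

open Set Filter Topology Complex MeasureTheory Metric
open scoped Manifold ContDiff ComplexConjugate NNReal ENNReal

namespace Pool.Agent.MP_e62289_ag

theorem X3c_sqrt {P : ℂ → ℂ} (hP : Differentiable ℂ P) (h0 : P 0 ≠ 0) :
    ∃ r > 0, ∃ Y : ℂ → ℂ, DifferentiableOn ℂ Y (ball 0 r) ∧
      ∀ u ∈ ball (0 : ℂ) r, Y u ≠ 0 ∧ Y u ^ 2 = P u := by
  have hc : ContinuousAt (fun u => P u / P 0) 0 := (hP.continuous.div_const _).continuousAt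
  have h1 : ∀ᶠ u in 𝓝 (0 : ℂ), P u / P 0 ∈ slitPlane :=
    hc.eventually (isOpen_slitPlane.mem_nhds (by simp [div_self h0]))
  obtain ⟨r, hr, h2⟩ := Metric.eventually_nhds_iff_ball.1 h1
  refine ⟨r, hr, fun u => exp ((log (P 0) + log (P u / P 0)) / 2), fun u hu => ?_,
    fun u hu => ⟨exp_ne_zero _, ?_⟩⟩
  · exact (((((hP u).div_const _).clog (h2 u hu)).const_add _).div_const _).cexp.differentiableWithinAt
  · rw [← exp_nat_mul, Nat.cast_ofNat, mul_div_cancel₀ _ two_ne_zero, exp_add, exp_log h0,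
      exp_log (slitPlane_ne_zero (h2 u hu)), mul_div_cancel₀ _ h0]

theorem X3c_end {Z : Type} [TopologicalSpace Z] {W : Type} [TopologicalSpace W] {val : Z → W}
    (hval : IsEmbedding val) (z₀ : Z) {u v : Z → ℂ} (hu : Continuous u) (hv : Continuous v)
    (hu0 : ∀ q, u q ≠ 0) {ι : ℂ × ℂ → W} (hι : ContinuousOn ι {p | p.1 ≠ 0})
    (hl : ∀ q, ι (u q, v q) = val q) {P Y : ℂ → ℂ} {r : ℝ} (hr : 0 < r)
    (hP : ∀ q, v q ^ 2 = P (u q)) (hY : ContinuousOn Y (ball 0 r))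
    (hY2 : ∀ a ∈ ball (0 : ℂ) r, Y a ≠ 0 ∧ Y a ^ 2 = P a)
    (hs : ∀ a b : ℂ, a ≠ 0 → ‖a‖ < r → b ^ 2 = P a → ∃ q, u q = a ∧ v q = b) :
    ∃ e : OpenPartialHomeomorph Z ℂ, e.source = {q | ‖u q‖ < r ∧ v q = Y (u q)} ∧
      e.target = ball 0 1 \ {0} ∧ (∀ q, e q = u q / r) ∧
      ∀ ρ, ρ < 1 → IsClosed {q | q ∈ e.source ∧ ‖e q‖ ≤ ρ} := by
  have hrc : (r : ℂ) ≠ 0 := by exact_mod_cast hr.ne'
  have hn : ∀ a : ℂ, ‖a / r‖ = ‖a‖ / r := fun a => by
    rw [norm_div, norm_real, Real.norm_of_nonneg hr.le]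
  have hm : ∀ w ∈ ball (0 : ℂ) 1 \ {0}, (r : ℂ) * w ≠ 0 ∧ ‖(r : ℂ) * w‖ < r := fun w hw => by
    refine ⟨mul_ne_zero hrc hw.2, ?_⟩
    rw [norm_mul, norm_real, Real.norm_of_nonneg hr.le]
    exact mul_lt_of_lt_one_right hr (mem_ball_zero_iff.1 hw.1)
  have hex : ∀ w : ℂ, ∃ q, w ∈ ball (0 : ℂ) 1 \ {0} → u q = r * w ∧ v q = Y (r * w) := fun w => by
    by_cases hw : w ∈ ball (0 : ℂ) 1 \ {0}
    · obtain ⟨q, hq⟩ := hs _ _ (hm w hw).1 (hm w hw).2 (hY2 _ (mem_ball_zero_iff.2 (hm w hw).2)).2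
      exact ⟨q, fun _ => hq⟩
    · exact ⟨z₀, fun h => (hw h).elim⟩
  choose g hg using hex
  have hmap : ∀ q, ‖u q‖ < r → u q / r ∈ ball (0 : ℂ) 1 \ {0} := fun q hq =>
    ⟨by rw [mem_ball_zero_iff, hn, div_lt_one hr]; exact hq, div_ne_zero (hu0 q) hrc⟩
  have hcY : ContinuousOn (fun q => Y (u q)) {q | ‖u q‖ < r} :=
    hY.comp hu.continuousOn fun q hq => mem_ball_zero_iff.2 hq
  refine ⟨{ toFun := fun q => u q / r
            invFun := g
            source := {q | ‖u q‖ < r ∧ v q = Y (u q)}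
            target := ball 0 1 \ {0}
            map_source' := fun q hq => hmap q hq.1
            map_target' := fun w hw => ?_
            left_inv' := fun q hq => ?_
            right_inv' := fun w hw => ?_
            open_source := ?_
            open_target := isOpen_ball.sdiff isClosed_singleton
            continuousOn_toFun := (hu.div_const _).continuousOn
            continuousOn_invFun := ?_ }, rfl, rfl, fun _ => rfl, fun ρ hρ => ?_⟩
  · obtain ⟨a, b⟩ := hg w hw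
    exact ⟨by rw [a]; exact (hm w hw).2, by rw [a, b]⟩
  · obtain ⟨a, b⟩ := hg _ (hmap q hq.1)
    rw [mul_div_cancel₀ _ hrc] at a b
    apply hval.injective
    rw [← hl, ← hl q, a, b, hq.2]
  · rw [(hg w hw).1, mul_div_cancel_left₀ _ hrc]
  · rw [hval.continuousOn_iff]
    have c1 : ContinuousOn (fun w : ℂ => ((r : ℂ) * w, Y (r * w))) (ball 0 1 \ {0}) :=
      (continuous_const.mul continuous_id).continuousOn.prodMk
        (hY.comp (continuous_const.mul continuous_id).continuousOn fun w hw =>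
          mem_ball_zero_iff.2 (hm w hw).2)
    refine (hι.comp c1 fun w hw => (hm w hw).1).congr fun w hw => ?_
    simp only [Function.comp_apply]
    rw [← hl, (hg w hw).1, (hg w hw).2]
  · have : {q | ‖u q‖ < r ∧ v q = Y (u q)} =
        {q | ‖u q‖ < r} ∩ (fun q => v q + Y (u q)) ⁻¹' {0}ᶜ := by
      ext q
      refine and_congr_right fun hq => ?_
      obtain ⟨a, b⟩ := hY2 _ (mem_ball_zero_iff.2 hq)
      have c : (v q - Y (u q)) * (v q + Y (u q)) = 0 := by linear_combination hP q - b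
      constructor
      · intro h h'
        have h'' : v q + Y (u q) = 0 := h'
        exact a (by linear_combination (h'' - h) / 2)
      · intro h
        exact sub_eq_zero.1 ((mul_eq_zero.1 c).resolve_right h)
    rw [this]
    exact (hv.continuousOn.add hcY).isOpen_inter_preimage (isOpen_lt hu.norm continuous_const)
      isOpen_compl_singleton
  · have hlt : ∀ q, ‖u q / r‖ ≤ ρ → ‖u q‖ < r := fun q h => by
      rw [hn, div_le_iff₀ hr] at h
      nlinarith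
    have : {q | q ∈ {q | ‖u q‖ < r ∧ v q = Y (u q)} ∧ ‖u q / r‖ ≤ ρ} =
        {q | ‖u q / r‖ ≤ ρ} ∩ (fun q => v q - Y (u q)) ⁻¹' {0} := by
      ext q
      exact ⟨fun h => ⟨h.2, sub_eq_zero.2 h.1.2⟩, fun h => ⟨⟨hlt q h.1, sub_eq_zero.1 h.2⟩, h.1⟩⟩
    change IsClosed {q | q ∈ {q | ‖u q‖ < r ∧ v q = Y (u q)} ∧ ‖u q / r‖ ≤ ρ}
    rw [this]
    exact (hv.continuousOn.sub (hcY.mono hlt)).preimage_isClosed_of_isClosed
      (isClosed_le (hu.div_const _).norm continuous_const) isClosed_singleton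

/-- local `x`-coordinate at an end -/
noncomputable def X3c_U (i : Fin 8) (x : ℂ) : ℂ := if i.val < 6 then x - xpt i else x⁻¹

/-- local `y`-coordinate at an end -/
noncomputable def X3c_V (i : Fin 8) (p : ℂ × ℂ) : ℂ := if i.val < 6 then p.2 else p.2 * p.1⁻¹ ^ 4

theorem X3c_inv (s : ℝ) {x : ℂ} (hx : x ≠ 0) : PP s x⁻¹ = PP s x * x⁻¹ ^ 8 := by
  simp only [PP]
  field_simp

theorem X3c_xpt (i : Fin 8) : xpt i = I ∨ xpt i = -I ∨ xpt i = 0 := by
  fin_cases i <;> simp [xpt]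

theorem X3c_xpt6 (i : Fin 8) (h : ¬ i.val < 6) : xpt i = 0 := by
  fin_cases i <;> simp [xpt] at h ⊢

theorem X3c_sq (x : ℂ) : x ^ 2 + 1 = (x - I) * (x + I) := by
  linear_combination I_mul_I

theorem X3c_PP_ne {s : ℝ} (h0 : 0 < s) (h1 : s < 1 / 2) (i : Fin 8) : PP s (xpt i + 0) ≠ 0 := by
  have a1 : (1 : ℂ) - s ^ 4 ≠ 0 := by
    have : (1 : ℝ) - s ^ 4 ≠ 0 := by
      have : s ^ 4 < 1 := pow_lt_one₀ h0.le (by linarith) (by norm_num)
      linarith
    exact_mod_cast this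
  have a2 : (s : ℂ) ≠ 0 := by exact_mod_cast h0.ne'
  have a3 : (-I) ^ 4 = 1 := by rw [neg_pow, I_pow_four]; norm_num
  rcases X3c_xpt i with h | h | h <;> rw [h, add_zero, PP]
  · rw [I_pow_four, mul_one]
    exact mul_ne_zero a1 a1
  · rw [a3, mul_one]
    exact mul_ne_zero a1 a1
  · simpa using a2

theorem X3c_sep {x : ℂ} {r : ℝ} (hr : r < 1 / 4) :
    (‖x - I‖ < r → ¬ ‖x + I‖ < r ∧ ¬ ‖x‖ < r ∧ ¬ ‖x⁻¹‖ < r) ∧
    (‖x + I‖ < r → ¬ ‖x‖ < r ∧ ¬ ‖x⁻¹‖ < r) ∧ (‖x‖ < r → x ≠ 0 → ¬ ‖x⁻¹‖ < r) := by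
  have k : ∀ c : ℂ, ‖c‖ = 1 → ‖x - c‖ < r → 1 / 2 < ‖x‖ ∧ ‖x‖ < 2 := fun c hc h => by
    have := abs_le.1 (abs_norm_sub_norm_le x c)
    constructor <;> linarith [this.1, this.2]
  have k2 : 0 < ‖x‖ → ‖x‖ < 2 → ¬ ‖x⁻¹‖ < r := fun a b c => by
    rw [norm_inv, inv_lt_iff_one_lt_mul₀ a] at c
    nlinarith
  refine ⟨fun h => ⟨fun h' => ?_, ?_, ?_⟩, fun h => ?_, fun h h' => k2 (norm_pos_iff.2 h') (by linarith)⟩
  · have := norm_sub_le (x + I) (x - I)
    rw [show x + I - (x - I) = 2 * I by ring, norm_mul, norm_I] at this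
    simp only [Complex.norm_ofNat] at this
    linarith
  · linarith [(k I norm_I h).1]
  · exact k2 (by linarith [(k I norm_I h).1]) (k I norm_I h).2
  · have := k (-I) (by simp) (by simpa using h)
    exact ⟨by linarith [this.1], k2 (by linarith [this.1]) this.2⟩

theorem X3c_near {x : ℂ} {r : ℝ} (hr : r < 1 / 4) (hx : x ≠ 0) (i j : Fin 8)
    (hi : ‖X3c_U i x‖ < r) (hj : ‖X3c_U j x‖ < r) : i.val / 2 = j.val / 2 := by
  obtain ⟨a, b, c⟩ := X3c_sep (x := x) hr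
  fin_cases i <;> fin_cases j <;> simp [X3c_U, xpt, -norm_inv] at hi hj ⊢ <;> tauto

theorem X3c_same (i j : Fin 8) (h : i.val / 2 = j.val / 2) (hne : i ≠ j) :
    xpt i = xpt j ∧ (i.val < 6 ↔ j.val < 6) ∧ (-1 : ℂ) ^ i.val = -(-1) ^ j.val := by
  fin_cases i <;> fin_cases j <;> simp [xpt] at h hne ⊢ <;> norm_num

theorem X3c_other (i : Fin 8) : ∃ j : Fin 8, i.val / 2 = j.val / 2 ∧ i ≠ j := by
  revert i
  decide

theorem X3c_compact {s m : ℝ} (hm : 0 < m) :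
    IsCompact {q : Cv s | ∀ i, m ≤ ‖X3c_U i q.1.1‖} := by
  have hc : Continuous (PP s) := by unfold PP; fun_prop
  obtain ⟨M, hM⟩ := (isCompact_closedBall (0 : ℂ) m⁻¹).exists_bound_of_continuousOn hc.continuousOn
  rw [Subtype.isCompact_iff]
  have e : Subtype.val '' {q : Cv s | ∀ i, m ≤ ‖X3c_U i q.1.1‖} =
      {p : ℂ × ℂ | p.2 ^ 2 = PP s p.1 ∧ m ≤ ‖p.1 - I‖ ∧ m ≤ ‖p.1 + I‖ ∧ m ≤ ‖p.1‖ ∧
        ‖p.1‖ ≤ m⁻¹} := by
    ext p
    constructor
    · rintro ⟨q, hq, rfl⟩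
      refine ⟨q.2.1, by simpa [X3c_U, xpt] using hq 0, by simpa [X3c_U, xpt] using hq 2,
        by simpa [X3c_U, xpt] using hq 4, ?_⟩
      have : m ≤ ‖q.1.1‖⁻¹ := by simpa [X3c_U, xpt] using hq 6
      exact le_inv_of_le_inv₀ hm this
    · rintro ⟨a, b, c, d, e⟩
      have n : ∀ z : ℂ, m ≤ ‖z‖ → z ≠ 0 := fun z h => norm_pos_iff.1 (hm.trans_le h)
      refine ⟨⟨p, a, n _ d, by rw [X3c_sq]; exact mul_ne_zero (n _ b) (n _ c)⟩, fun i => ?_, rfl⟩
      have f : m ≤ ‖p.1‖⁻¹ := le_inv_of_le_inv₀ (hm.trans_le d) e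
      fin_cases i <;> simp [X3c_U, xpt] <;> assumption
  rw [e]
  refine ((isCompact_closedBall (0 : ℂ) m⁻¹).prod (isCompact_closedBall (0 : ℂ) (M + 1))).of_isClosed_subset
    ?_ fun p hp => ⟨mem_closedBall_zero_iff.2 hp.2.2.2.2, mem_closedBall_zero_iff.2 ?_⟩
  · simp only [Set.ofPred_and]
    exact (isClosed_eq (by fun_prop) (by fun_prop)).inter
      ((isClosed_le (by fun_prop) (by fun_prop)).inter
      ((isClosed_le (by fun_prop) (by fun_prop)).inter
      ((isClosed_le (by fun_prop) (by fun_prop)).inter (isClosed_le (by fun_prop) (by fun_prop)))))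
  · have := hM _ (mem_closedBall_zero_iff.2 hp.2.2.2.2)
    rw [← hp.1, norm_pow] at this
    nlinarith [sq_nonneg (‖p.2‖ - 1)]

/-- the eight ends of the curve -/
theorem cv_ends {s : ℝ} (h0 : 0 < s) (h1 : s < 1 / 2) :
    ∃ (e : Fin 8 → OpenPartialHomeomorph (Cv s) ℂ) (r : ℝ) (Yb : Fin 8 → ℂ → ℂ),
      0 < r ∧ r ≤ s / 2 ∧ (∀ i, (e i).target = ball 0 1 \ {0}) ∧
      (Pairwise fun i j => Disjoint (e i).source (e j).source) ∧
      (∀ i ρ, ρ < 1 → IsClosed {q | q ∈ (e i).source ∧ ‖e i q‖ ≤ ρ}) ∧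
      (∀ ρ, 0 < ρ → IsCompact {q | ∀ i, q ∈ (e i).source → ρ ≤ ‖e i q‖}) ∧
      (∀ i, DifferentiableOn ℂ (Yb i) (ball 0 1)) ∧ (∀ i, ∀ z ∈ ball (0 : ℂ) 1, Yb i z ≠ 0) ∧
      (∀ i : Fin 8, i.val < 6 → ∀ q ∈ (e i).source,
        q.1.1 = xpt i + r * e i q ∧ q.1.2 = Yb i (e i q)) ∧
      ∀ i : Fin 8, 6 ≤ i.val → ∀ q ∈ (e i).source,
        q.1.1 * (r * e i q) = 1 ∧ q.1.2 * e i q ^ 4 = Yb i (e i q) := by
  have hroot : ∀ a : ℂ, ∃ r > 0, ∃ Y : ℂ → ℂ, PP s (a + 0) ≠ 0 → DifferentiableOn ℂ Y (ball 0 r) ∧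
      ∀ u ∈ ball (0 : ℂ) r, Y u ≠ 0 ∧ Y u ^ 2 = PP s (a + u) := fun a => by
    by_cases h : PP s (a + 0) = 0
    · exact ⟨1, one_pos, 0, fun h' => (h' h).elim⟩
    · obtain ⟨r, hr, Y, hY⟩ := X3c_sqrt (P := fun u => PP s (a + u)) (by unfold PP; fun_prop) h
      exact ⟨r, hr, Y, fun _ => hY⟩
  choose R hR Y hY using hroot
  set r := min (min (R I) (R (-I))) (min (R 0) (s / 2)) with hrdef
  have hr : 0 < r := lt_min (lt_min (hR _) (hR _)) (lt_min (hR _) (half_pos h0))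
  have hrs : r ≤ s / 2 := (min_le_right _ _).trans (min_le_right _ _)
  have hr4 : r < 1 / 4 := by linarith
  have hrc : (r : ℂ) ≠ 0 := by exact_mod_cast hr.ne'
  have hsub : ∀ i, ball (0 : ℂ) r ⊆ ball 0 (R (xpt i)) := fun i => ball_subset_ball (by
    rcases X3c_xpt i with h | h | h <;> rw [h]
    · exact (min_le_left _ _).trans (min_le_left _ _)
    · exact (min_le_left _ _).trans (min_le_right _ _)
    · exact (min_le_right _ _).trans (min_le_left _ _))
  set Z : Fin 8 → ℂ → ℂ := fun i u => (-1) ^ i.val * Y (xpt i) u with hZ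
  have Zd : ∀ i, DifferentiableOn ℂ (Z i) (ball 0 r) := fun i =>
    ((hY _ (X3c_PP_ne h0 h1 i)).1.mono (hsub i)).const_mul _
  have Z2 : ∀ i, ∀ a ∈ ball (0 : ℂ) r, Z i a ≠ 0 ∧ Z i a ^ 2 = PP s (xpt i + a) := fun i a ha => by
    obtain ⟨b1, b2⟩ := (hY _ (X3c_PP_ne h0 h1 i)).2 a (hsub i ha)
    refine ⟨mul_ne_zero (pow_ne_zero _ (by norm_num)) b1, ?_⟩
    simp only [hZ]
    rw [mul_pow, ← pow_mul, mul_comm i.val, pow_mul, b2]
    simp
  have hP : ∀ i (q : Cv s), X3c_V i q.1 ^ 2 = PP s (xpt i + X3c_U i q.1.1) := fun i q => by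
    simp only [X3c_U, X3c_V]
    split_ifs with h
    · rw [add_sub_cancel, q.2.1]
    · rw [X3c_xpt6 i h, zero_add, X3c_inv s q.2.2.1, ← q.2.1]
      ring
  have z₀ : Cv s := ⟨(s, 0), by simp [PP], ofReal_ne_zero.2 h0.ne', by
    have : (s : ℝ) ^ 2 + 1 ≠ 0 := by positivity
    show (s : ℂ) ^ 2 + 1 ≠ 0
    exact_mod_cast this⟩
  have hinv : Continuous fun q : Cv s => q.1.1⁻¹ :=
    (continuous_fst.comp continuous_subtype_val).inv₀ fun q => q.2.2.1
  have hE : ∀ i : Fin 8, ∃ e : OpenPartialHomeomorph (Cv s) ℂ,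
      e.source = {q | ‖X3c_U i q.1.1‖ < r ∧ X3c_V i q.1 = Z i (X3c_U i q.1.1)} ∧
      e.target = ball 0 1 \ {0} ∧ (∀ q, e q = X3c_U i q.1.1 / r) ∧
      ∀ ρ, ρ < 1 → IsClosed {q | q ∈ e.source ∧ ‖e q‖ ≤ ρ} := fun i => by
    have hPi := hP i
    simp only [X3c_U, X3c_V] at hPi ⊢
    by_cases h : i.val < 6
    · simp only [if_pos h] at hPi ⊢
      refine X3c_end IsEmbedding.subtypeVal z₀ (by fun_prop) (by fun_prop) (fun q => ?_)
        (ι := fun p => (xpt i + p.1, p.2)) (by fun_prop) (fun q => by simp)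
        (P := fun u => PP s (xpt i + u)) hr hPi (Zd i).continuousOn (Z2 i) fun a b a0 ar hb => ?_
      · have := q.2.2.2
        rw [X3c_sq] at this
        rcases X3c_xpt i with h | h | h <;> rw [h]
        · exact left_ne_zero_of_mul this
        · rw [sub_neg_eq_add]
          exact right_ne_zero_of_mul this
        · simpa using q.2.2.1
      · refine ⟨⟨(xpt i + a, b), hb, ?_⟩, by simp, rfl⟩
        obtain ⟨c1, c2, -⟩ := X3c_sep (x := xpt i + a) hr4
        change xpt i + a ≠ 0 ∧ (xpt i + a) ^ 2 + 1 ≠ 0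
        rw [X3c_sq]
        rcases X3c_xpt i with h | h | h <;> rw [h] at c1 c2 ⊢
        · obtain ⟨d1, d2, -⟩ := c1 (by simpa using ar)
          exact ⟨fun e => d2 (by rwa [e, norm_zero]), mul_ne_zero (by simpa using a0)
            fun e => d1 (by rwa [e, norm_zero])⟩
        · have d0 : ‖-I + a + I‖ < r := by simpa using ar
          exact ⟨fun e => (c2 d0).1 (by rwa [e, norm_zero]),
            mul_ne_zero (fun e => (c1 (by rwa [e, norm_zero])).1 d0) (by simpa using a0)⟩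
        · have d0 : ‖0 + a‖ < r := by simpa using ar
          exact ⟨by simpa using a0, mul_ne_zero (fun e => (c1 (by rwa [e, norm_zero])).2.1 d0)
            fun e => (c2 (by rwa [e, norm_zero])).1 d0⟩
    · simp only [if_neg h] at hPi ⊢
      refine X3c_end IsEmbedding.subtypeVal z₀ (v := fun q => q.1.2 * q.1.1⁻¹ ^ 4) hinv
        ((continuous_snd.comp continuous_subtype_val).mul (hinv.pow 4))
        (fun q => inv_ne_zero q.2.2.1) (ι := fun p => (p.1⁻¹, p.2 * p.1⁻¹ ^ 4))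
        ((continuousOn_fst.inv₀ fun p hp => hp).prodMk
          (continuousOn_snd.mul ((continuousOn_fst.inv₀ fun p hp => hp).pow 4))) (fun q => ?_)
        (P := fun u => PP s (xpt i + u)) hr hPi (Zd i).continuousOn (Z2 i) fun a b a0 ar hb => ?_
      · have := q.2.2.1
        refine Prod.ext (inv_inv _) ?_
        simp only [inv_inv]
        field_simp
      · obtain ⟨c1, c2, -⟩ := X3c_sep (x := a⁻¹) hr4
        rw [inv_inv] at c1 c2
        rw [X3c_xpt6 i h, zero_add] at hb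
        refine ⟨⟨(a⁻¹, b * a⁻¹ ^ 4), ?_, inv_ne_zero a0, ?_⟩, inv_inv _, ?_⟩
        · rw [X3c_inv s a0, ← hb]
          ring
        · rw [X3c_sq]
          exact mul_ne_zero (fun e => (c1 (by rwa [e, norm_zero])).2.2 ar)
            fun e => (c2 (by rwa [e, norm_zero])).2 ar
        · change b * a⁻¹ ^ 4 * a⁻¹⁻¹ ^ 4 = b
          rw [inv_inv]
          field_simp
  choose e es et ee ec using hE
  have hn : ∀ a : ℂ, ‖a / r‖ = ‖a‖ / r := fun a => by
    rw [norm_div, norm_real, Real.norm_of_nonneg hr.le]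
  have hmul : ∀ z ∈ ball (0 : ℂ) 1, (r : ℂ) * z ∈ ball (0 : ℂ) r := fun z hz => by
    rw [mem_ball_zero_iff, norm_mul, norm_real, Real.norm_of_nonneg hr.le]
    exact mul_lt_of_lt_one_right hr (mem_ball_zero_iff.1 hz)
  have hsame : ∀ i j : Fin 8, i.val / 2 = j.val / 2 → i ≠ j →
      X3c_U i = X3c_U j ∧ X3c_V i = X3c_V j ∧ ∀ u, Z i u = -Z j u := fun i j h hne => by
    obtain ⟨a, b, c⟩ := X3c_same i j h hne
    refine ⟨funext fun x => ?_, funext fun p => ?_, fun u => ?_⟩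
    · simp only [X3c_U, a, b]
    · simp only [X3c_V, b]
    · simp only [hZ, a, c, neg_mul]
  refine ⟨e, r, fun i z => (if i.val < 6 then 1 else (r : ℂ)⁻¹ ^ 4) * Z i (r * z), hr, hrs, et,
    fun i j hij => ?_, ec, fun ρ hρ => ?_, fun i => ?_, fun i z hz => ?_, fun i hi q hq => ?_,
    fun i hi q hq => ?_⟩
  · change Disjoint (e i).source (e j).source
    rw [es, es, Set.disjoint_left]
    intro q hi hj
    obtain ⟨a, b, c⟩ := hsame i j (X3c_near hr4 q.2.2.1 i j hi.1 hj.1) hij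
    have d1 := hi.2
    rw [a, b, c, hj.2] at d1
    exact (Z2 j _ (mem_ball_zero_iff.2 hj.1)).1 (by linear_combination d1 / 2)
  · have : {q : Cv s | ∀ i, q ∈ (e i).source → ρ ≤ ‖e i q‖} =
        {q : Cv s | ∀ i, min ρ 1 * r ≤ ‖X3c_U i q.1.1‖} := by
      ext q
      constructor
      · intro h i
        by_contra hlt
        have b1 : ‖X3c_U i q.1.1‖ < r :=
          (not_le.1 hlt).trans_le (mul_le_of_le_one_left hr.le (min_le_right _ _))
        have b2 : ‖X3c_U i q.1.1‖ < ρ * r :=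
          (not_le.1 hlt).trans_le (mul_le_mul_of_nonneg_right (min_le_left _ _) hr.le)
        have b3 := (Z2 i _ (mem_ball_zero_iff.2 b1)).2
        rw [← hP i q] at b3
        rcases sq_eq_sq_iff_eq_or_eq_neg.1 b3.symm with c | c
        · have := h i (by rw [es]; exact ⟨b1, c⟩)
          rw [ee, hn, le_div_iff₀ hr] at this
          linarith
        · obtain ⟨j, j1, j2⟩ := X3c_other i
          obtain ⟨a, b, d⟩ := hsame i j j1 j2
          rw [d, neg_neg, a, b] at c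
          rw [a] at b1 b2
          have := h j (by rw [es]; exact ⟨b1, c⟩)
          rw [ee, hn, le_div_iff₀ hr] at this
          linarith
      · intro h i hq
        rw [es] at hq
        rw [ee, hn, le_div_iff₀ hr]
        have b1 := h i
        rcases le_total ρ 1 with c | c
        · rwa [min_eq_left c] at b1
        · rw [min_eq_right c] at b1
          linarith [hq.1]
    rw [this]
    exact X3c_compact (mul_pos (lt_min hρ one_pos) hr)
  · exact ((Zd i).comp (by fun_prop) hmul).const_mul _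
  · refine mul_ne_zero ?_ (Z2 i _ (hmul z hz)).1
    split_ifs
    · exact one_ne_zero
    · exact pow_ne_zero _ (inv_ne_zero hrc)
  · rw [es] at hq
    have b := hq.2
    simp only [ee, mul_div_cancel₀ _ hrc]
    simp only [X3c_U, X3c_V, if_pos hi] at b ⊢
    exact ⟨by ring, by rw [one_mul, b]⟩
  · rw [es] at hq
    have b := hq.2
    simp only [ee, mul_div_cancel₀ _ hrc]
    simp only [X3c_U, X3c_V, if_neg (not_lt.2 hi)] at b ⊢
    exact ⟨mul_inv_cancel₀ q.2.2.1, by rw [← b]; ring⟩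

end Pool.Agent.MP_e62289_ag
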