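import Pool.Agent.MP_e62289_ag.X3a
import Pool.Agent.MP_e62289_ag.X3c
import Pool.Agent.MP_e62289_ag.L0

open Set Filter Topology Complex MeasureTheory Metric
open scoped Manifold ContDiff ComplexConjugate NNReal ENNReal

namespace Pool.Agent.MP_e62289_ag

theorem x3_hol {Y : Type} [TopologicalSpace Y] [ChartedSpace ℂ Y] {u : Y → ℂ} {q : Y} {c : ℂ}
    (hc : ContinuousAt u q) (h : HasDerivAt (u ∘ (chartAt ℂ q).symm) c (chartAt ℂ q q)) :
    HolAt u q ∧ d1 u q = c := by
  have h1 : HolAt u q := by
    rw [HolAt, mdifferentiableAt_iff]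
    refine ⟨hc, ?_⟩
    simp only [mfld_simps]
    exact h.differentiableAt.differentiableWithinAt
  refine ⟨h1, ?_⟩
  rw [d1, dd_eq_fderiv (d2_of_hol h1).1]
  exact (w_of_hasDerivAt h).1

theorem x3_comp {Y : Type} [TopologicalSpace Y] [ChartedSpace ℂ Y] {u : Y → ℂ} {q : Y}
    {g : ℂ → ℂ} (hg : DifferentiableAt ℂ g (u q)) (hu : HolAt u q) :
    HolAt (fun x => g (u x)) q :=
  MDifferentiableAt.comp q (mdifferentiableAt_iff_differentiableAt.2 hg) hu

theorem exists_hyp {s : ℝ} (h0 : 0 < s) (h1 : s < 1 / 2) : Nonempty (Hyp s) := by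
  choose φ hm hφ using exists_flatChart h0 h1
  have hf : ∀ x y : Cv s, ∀ q ∈ (φ x).source ∩ (φ y).source, ∀ᶠ q' in 𝓝 q,
      φ x q' - φ y q' = φ x q - φ y q := fun x y q hq =>
    IsFlatChart.trans h0 h1 (hφ x) (hφ y) hq
  obtain ⟨mC, mR⟩ := flat_manifold φ hm hf
  let ch : ChartedSpace ℂ (Cv s) := chartedOf φ hm
  let ms : MeasurableSpace (Cv s) := borel (Cv s)
  have bor : @BorelSpace (Cv s) _ ms := @BorelSpace.mk _ _ ms rfl
  obtain ⟨lam, hlam⟩ := @flat_area (Cv s) _ _ ms bor φ hm hf
  obtain ⟨e, r, Yb, hr, hrs, e1, e2, e3, e4, e5, e6, e7, e8⟩ := cv_ends h0 h1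
  have hx : ∀ q : Cv s, HolAt (fun q : Cv s => q.1.1) q ∧ d1 (fun q : Cv s => q.1.1) q = q.1.2 := by
    intro q
    refine x3_hol (by fun_prop) ?_
    have h := (hφ q (φ q q) ((φ q).map_source (hm q))).1
    rw [(φ q).left_inv (hm q)] at h
    exact h
  have hy : ∀ q : Cv s, HolAt (fun q : Cv s => q.1.2) q := by
    intro q
    have h := (hφ q (φ q q) ((φ q).map_source (hm q))).2
    exact (x3_hol (u := fun q : Cv s => q.1.2) (q := q) (by fun_prop) h).1
  have hr' : (r : ℂ) ≠ 0 := ofReal_ne_zero.2 hr.ne'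
  have he : ∀ i, MDifferentiableOn 𝓘(ℂ, ℂ) 𝓘(ℂ, ℂ) (e i) (e i).source := by
    intro i
    rcases lt_or_ge i.val 6 with hi | hi
    · refine MDifferentiableOn.congr (f := fun q : Cv s => (q.1.1 - xpt i) / r) ?_ ?_
      · intro q _
        exact (x3_comp (g := fun z => (z - xpt i) / r) (by fun_prop)
          (hx q).1).mdifferentiableWithinAt
      · intro q hq
        rw [(e7 i hi q hq).1]
        field_simp
        ring
    · refine MDifferentiableOn.congr (f := fun q : Cv s => (r * q.1.1)⁻¹) ?_ ?_
      · intro q _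
        refine (x3_comp (g := fun z => ((r : ℂ) * z)⁻¹) ?_ (hx q).1).mdifferentiableWithinAt
        exact DifferentiableAt.inv (by fun_prop) (mul_ne_zero hr' q.2.2.1)
      · intro q hq
        refine eq_inv_of_mul_eq_one_left ?_
        linear_combination (e8 i hi q hq).1
  let S : Flat 8 :=
    { Y := Cv s
      cn := cv_connected h0 h1
      ms := ms
      bor := bor
      ch := ch
      mC := mC
      mR := mR
      flat := hf
      lam := lam
      area := hlam
      e := e
      e_target := e1
      e_hol := he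
      e_disj := e2
      e_closed := e3
      e_compact := e4
      f := fun q => q.1.1 * (q.1.1 ^ 2 + 1)
      f_hol := fun q => x3_comp (g := fun z => z * (z ^ 2 + 1)) (by fun_prop) (hx q).1
      f_ne := fun q => mul_ne_zero q.2.2.1 q.2.2.2 }
  exact ⟨{ S := S
           x := fun q => q.1.1
           y := fun q => q.1.2
           x_hol := fun q => (hx q).1
           y_hol := hy
           d1x := fun q => (hx q).2
           eqn := fun q => q.2.1
           x_ne := fun q => q.2.2.1
           w_ne := fun q => q.2.2.2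
           inj := fun p q h => Subtype.ext h
           surj := fun X Y a b c => ⟨⟨(X, Y), a, b, c⟩, rfl, rfl⟩
           f_eq := fun _ => rfl
           r := r
           r_pos := hr
           r_le := hrs
           Yb := Yb
           Yb_hol := e5
           Yb_ne := e6
           fin := e7
           inf := e8 }⟩

end Pool.Agent.MP_e62289_ag
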