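import Pool.Agent.MP_e62289_ag.W

open Set Filter Topology Complex MeasureTheory Metric
open scoped Manifold ContDiff ComplexConjugate NNReal ENNReal

namespace Pool.Agent.MP_e62289_ag

theorem Cx2a_circle {g : ℂ → ℂ} {z : ℂ} {r s : ℝ} (hg : DifferentiableOn ℂ g (ball z r))
    (hs0 : 0 < s) (hs : s < r) :
    ENNReal.ofReal (2 * Real.pi) * ‖g z‖ₑ ^ 2 ≤
      ∫⁻ θ in Ioo (-Real.pi) Real.pi, ‖g (circleMap z s θ)‖ₑ ^ 2 := by
  have hd : DiffContOnCl ℂ (fun w => g w ^ 2) (ball z |s|) := by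
    rw [abs_of_pos hs0]
    refine DifferentiableOn.diffContOnCl ?_
    rw [closure_ball _ hs0.ne']
    exact (hg.mono (closedBall_subset_ball hs)).pow 2
  have h1 := hd.circleAverage
  rw [Real.circleAverage_eq_integral_add (-Real.pi),
    intervalIntegral.integral_comp_add_right (fun θ => g (circleMap z s θ) ^ 2)] at h1
  have hpi := Real.pi_pos
  have e1 : 0 + -Real.pi = -Real.pi := by ring
  have e2 : 2 * Real.pi + -Real.pi = Real.pi := by ring
  rw [e1, e2, intervalIntegral.integral_of_le (by linarith), integral_Ioc_eq_integral_Ioo] at h1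
  have h2 : ∫ θ in Ioo (-Real.pi) Real.pi, g (circleMap z s θ) ^ 2 = (2 * Real.pi) • g z ^ 2 := by
    rw [← h1, smul_smul, mul_inv_cancel₀ (by positivity), one_smul]
  have h3 := enorm_integral_le_lintegral_enorm (μ := volume.restrict (Ioo (-Real.pi) Real.pi))
    (fun θ => g (circleMap z s θ) ^ 2)
  rw [h2, enorm_smul, enorm_pow, Real.enorm_of_nonneg (by positivity)] at h3
  simpa only [enorm_pow] using h3

theorem Cx2a_polar (z : ℂ) (p : ℝ × ℝ) :
    z + Complex.polarCoord.symm p = circleMap z p.1 p.2 := by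
  rw [Complex.polarCoord_symm_apply, circleMap, Complex.exp_mul_I]
  push_cast
  ring

/-- mean value inequality -/
theorem mean_l2 {g : ℂ → ℂ} {z : ℂ} {r : ℝ} (hr : 0 < r) (hg : DifferentiableOn ℂ g (ball z r)) :
    ENNReal.ofReal (Real.pi * r ^ 2) * ‖g z‖ₑ ^ 2 ≤ ∫⁻ w in ball z r, ‖g w‖ₑ ^ 2 := by
  have hpi := Real.pi_pos
  set F : ℂ → ℝ≥0∞ := (ball z r).indicator (fun w => ‖g w‖ₑ ^ 2) with hF
  have h1 : ∫⁻ w in ball z r, ‖g w‖ₑ ^ 2 = ∫⁻ w, F (z + w) := by
    rw [lintegral_add_left_eq_self F z, hF, lintegral_indicator measurableSet_ball]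
  rw [h1, ← Complex.lintegral_comp_polarCoord_symm]
  have hsub : Ioo (0 : ℝ) r ×ˢ Ioo (-Real.pi) Real.pi ⊆ polarCoord.target := by
    rw [polarCoord_target]
    exact prod_mono Ioo_subset_Ioi_self Subset.rfl
  have hms : MeasurableSet (Ioo (0 : ℝ) r ×ˢ Ioo (-Real.pi) Real.pi) :=
    measurableSet_Ioo.prod measurableSet_Ioo
  have hmem : ∀ p ∈ Ioo (0 : ℝ) r ×ˢ Ioo (-Real.pi) Real.pi, circleMap z p.1 p.2 ∈ ball z r := by
    intro p hp
    rw [mem_ball, dist_eq_norm, circleMap_sub_center, norm_circleMap_zero, abs_of_pos hp.1.1]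
    exact hp.1.2
  refine le_trans ?_ (lintegral_mono_set hsub)
  have h2 : ∫⁻ p in Ioo (0 : ℝ) r ×ˢ Ioo (-Real.pi) Real.pi,
      ENNReal.ofReal p.1 • F (z + Complex.polarCoord.symm p) =
      ∫⁻ p in Ioo (0 : ℝ) r ×ˢ Ioo (-Real.pi) Real.pi,
      ENNReal.ofReal p.1 * ‖g (circleMap z p.1 p.2)‖ₑ ^ 2 := by
    refine setLIntegral_congr_fun hms (fun p hp => ?_)
    simp only [Cx2a_polar, hF, indicator_of_mem (hmem p hp), smul_eq_mul]
  rw [h2]
  have hc : ContinuousOn (fun p : ℝ × ℝ => g (circleMap z p.1 p.2))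
      (Ioo (0 : ℝ) r ×ˢ Ioo (-Real.pi) Real.pi) :=
    hg.continuousOn.comp Real.circleMap.continuous.continuousOn hmem
  have hae : AEMeasurable (fun p : ℝ × ℝ => ENNReal.ofReal p.1 * ‖g (circleMap z p.1 p.2)‖ₑ ^ 2)
      ((volume.prod volume).restrict (Ioo (0 : ℝ) r ×ˢ Ioo (-Real.pi) Real.pi)) := by
    have a1 : AEMeasurable (fun p : ℝ × ℝ => ENNReal.ofReal p.1)
        ((volume.prod volume).restrict (Ioo (0 : ℝ) r ×ˢ Ioo (-Real.pi) Real.pi)) :=
      (ENNReal.measurable_ofReal.comp measurable_fst).aemeasurable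
    have a2 : AEMeasurable (fun p : ℝ × ℝ => ‖g (circleMap z p.1 p.2)‖ₑ ^ 2)
        ((volume.prod volume).restrict (Ioo (0 : ℝ) r ×ˢ Ioo (-Real.pi) Real.pi)) :=
      ((hc.aemeasurable hms).enorm).pow_const 2
    exact a1.mul a2
  rw [Measure.volume_eq_prod, setLIntegral_prod _ hae]
  have h3 : ∫⁻ s in Ioo (0 : ℝ) r, ENNReal.ofReal s * (ENNReal.ofReal (2 * Real.pi) * ‖g z‖ₑ ^ 2) ≤
      ∫⁻ s in Ioo (0 : ℝ) r, ∫⁻ θ in Ioo (-Real.pi) Real.pi,
        ENNReal.ofReal s * ‖g (circleMap z s θ)‖ₑ ^ 2 := by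
    refine setLIntegral_mono' measurableSet_Ioo (fun s hs => ?_)
    rw [lintegral_const_mul' _ _ ENNReal.ofReal_ne_top]
    exact mul_le_mul_right (Cx2a_circle hg hs.1 hs.2) _
  refine le_trans (le_of_eq ?_) h3
  rw [lintegral_mul_const _ ENNReal.measurable_ofReal]
  have h4 : ∫⁻ s in Ioo (0 : ℝ) r, ENNReal.ofReal s = ENNReal.ofReal (r ^ 2 / 2) := by
    rw [← ofReal_integral_eq_lintegral_ofReal]
    · rw [← integral_Ioc_eq_integral_Ioo, ← intervalIntegral.integral_of_le hr.le, integral_id]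
      congr 1
      ring
    · exact (continuous_id.integrableOn_Icc (a := 0) (b := r)).mono_set Ioo_subset_Icc_self
    · filter_upwards [ae_restrict_mem measurableSet_Ioo] with s hs
      exact hs.1.le
  rw [h4, ← mul_assoc, ← ENNReal.ofReal_mul (by positivity)]
  congr 2
  ring

end Pool.Agent.MP_e62289_ag
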