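import Pool.Agent.MP_e62289_ag.W
import Pool.Agent.MP_e62289_ag.Cx2a

open Set Filter Topology Complex MeasureTheory Metric
open scoped Manifold ContDiff ComplexConjugate NNReal ENNReal

namespace Pool.Agent.MP_e62289_ag

/-- a smooth monotone step from `0` to `1` -/
noncomputable def Cx2bT (s : ℝ) : ℝ := Real.smoothTransition (2 * s - 1)

theorem Cx2bT_smooth : ContDiff ℝ ∞ Cx2bT :=
  Real.smoothTransition.contDiff.comp ((contDiff_const.mul contDiff_id).sub contDiff_const)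

theorem Cx2bT_zero {s : ℝ} (h : s ≤ 1 / 2) : Cx2bT s = 0 :=
  Real.smoothTransition.zero_of_nonpos (by linarith)

theorem Cx2bT_one {s : ℝ} (h : 1 ≤ s) : Cx2bT s = 1 :=
  Real.smoothTransition.one_of_one_le (by linarith)

theorem Cx2bT_mono : Monotone Cx2bT := fun a b h =>
  Real.smoothTransition.monotone (by linarith)

theorem Cx2bT_deriv_smooth : ContDiff ℝ ∞ (deriv Cx2bT) :=
  (contDiff_infty_iff_deriv.1 Cx2bT_smooth).2

theorem Cx2bT_deriv_zero {s : ℝ} (h : 1 < s) : deriv Cx2bT s = 0 := by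
  have : Cx2bT =ᶠ[𝓝 s] fun _ => (1 : ℝ) := by
    filter_upwards [Ioi_mem_nhds h] with t ht using Cx2bT_one (le_of_lt ht)
  rw [this.deriv_eq, deriv_const]

theorem Cx2bT_hasDerivAt (a s : ℝ) :
    HasDerivAt (fun s => Cx2bT (a * s)) (a * deriv Cx2bT (a * s)) s := by
  have h1 : HasDerivAt Cx2bT (deriv Cx2bT (a * s)) (a * s) :=
    (Cx2bT_smooth.differentiable (by simp) _).hasDerivAt
  have h2 : HasDerivAt (fun s : ℝ => a * s) a s := by
    simpa using (hasDerivAt_id s).const_mul a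
  have := h1.comp s h2
  rw [mul_comm] at this
  exact this

/-- the radial kernel of radius `ρ` -/
noncomputable def Cx2bK (ρ : ℝ) (w : ℂ) : ℝ := ρ⁻¹ ^ 2 * deriv Cx2bT (ρ⁻¹ ^ 2 * ‖w‖ ^ 2)

theorem Cx2bK_smooth (ρ : ℝ) : ContDiff ℝ ∞ (Cx2bK ρ) :=
  contDiff_const.mul (Cx2bT_deriv_smooth.comp (contDiff_const.mul (contDiff_norm_sq ℝ)))

theorem Cx2b_one_lt {ρ : ℝ} (hρ : 0 < ρ) {w : ℂ} (h : ρ < ‖w‖) : 1 < ρ⁻¹ ^ 2 * ‖w‖ ^ 2 := by
  rw [← mul_pow]
  refine one_lt_pow₀ ?_ two_ne_zero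
  rw [inv_mul_eq_div, one_lt_div hρ]
  exact h

theorem Cx2bK_zero {ρ : ℝ} (hρ : 0 < ρ) {w : ℂ} (h : ρ < ‖w‖) : Cx2bK ρ w = 0 := by
  rw [Cx2bK, Cx2bT_deriv_zero (Cx2b_one_lt hρ h), mul_zero]

theorem Cx2bK_scale (ρ : ℝ) (w : ℂ) : Cx2bK ρ w = ρ⁻¹ ^ 2 * Cx2bK 1 (ρ⁻¹ • w) := by
  simp only [Cx2bK, inv_one, one_pow, one_mul, norm_smul, mul_pow, Real.norm_eq_abs, sq_abs]

theorem Cx2b_hcs {F : Type} [Zero F] {G : ℂ → F} {r : ℝ} (h : ∀ w, r < ‖w‖ → G w = 0) :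
    HasCompactSupport G := by
  refine HasCompactSupport.intro (isCompact_closedBall (0 : ℂ) r) fun w hw => h w ?_
  simpa using hw

theorem Cx2bK_int_pos : 0 < ∫ w, Cx2bK 1 w := by
  obtain ⟨c, hc, hc'⟩ := exists_deriv_eq_slope Cx2bT zero_lt_one
    Cx2bT_smooth.continuous.continuousOn
    (Cx2bT_smooth.differentiable (by simp)).differentiableOn
  rw [Cx2bT_one le_rfl, Cx2bT_zero (by norm_num)] at hc'
  refine (Cx2bK_smooth 1).continuous.integral_pos_of_hasCompactSupport_nonneg_nonzero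
    (x := (Real.sqrt c : ℂ)) (Cx2b_hcs fun w hw => Cx2bK_zero one_pos hw) (fun w => ?_) ?_
  · exact mul_nonneg (by positivity) Cx2bT_mono.deriv_nonneg
  · have : ‖(Real.sqrt c : ℂ)‖ ^ 2 = c := by
      rw [Complex.norm_real, Real.norm_eq_abs, sq_abs, Real.sq_sqrt hc.1.le]
    simp only [Cx2bK, inv_one, one_pow, one_mul, this, hc']
    norm_num

theorem Cx2bK_int {ρ : ℝ} (hρ : 0 < ρ) : ∫ w, Cx2bK ρ w = ∫ w, Cx2bK 1 w := by
  simp only [Cx2bK_scale ρ]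
  rw [integral_const_mul, Measure.integral_comp_inv_smul_of_nonneg volume (Cx2bK 1) hρ.le,
    Complex.finrank_real_complex, smul_eq_mul, ← mul_assoc, ← mul_pow, inv_mul_cancel₀ hρ.ne',
    one_pow, one_mul]

theorem Cx2bK_bound : ∃ M, ∀ ρ w, |Cx2bK ρ w| ≤ ρ⁻¹ ^ 2 * M := by
  obtain ⟨M, hM⟩ := (Cx2bK_smooth 1).continuous.bounded_above_of_compact_support
    (Cx2b_hcs fun w hw => Cx2bK_zero one_pos hw)
  refine ⟨M, fun ρ w => ?_⟩
  rw [Cx2bK_scale, abs_mul, abs_of_nonneg (by positivity)]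
  exact mul_le_mul_of_nonneg_left (hM _) (by positivity)

theorem Cx2bQ_ev {τ : ℝ → ℝ} {δ : ℝ} (hδ : 0 < δ) (h0 : ∀ s ≤ δ, τ s = 0) :
    (fun w : ℂ => (τ (‖w‖ ^ 2) : ℂ) * w⁻¹) =ᶠ[𝓝 0] fun _ => 0 := by
  have hc : Continuous fun w : ℂ => ‖w‖ ^ 2 := by fun_prop
  have : ∀ᶠ w : ℂ in 𝓝 0, ‖w‖ ^ 2 < δ :=
    (hc.tendsto 0).eventually (gt_mem_nhds (by simpa using hδ))
  filter_upwards [this] with w hw
  rw [h0 _ hw.le, ofReal_zero, zero_mul]

theorem Cx2bQ_smooth {τ : ℝ → ℝ} {δ : ℝ} (hτ : ContDiff ℝ ∞ τ) (hδ : 0 < δ)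
    (h0 : ∀ s ≤ δ, τ s = 0) : ContDiff ℝ ∞ fun w : ℂ => (τ (‖w‖ ^ 2) : ℂ) * w⁻¹ := by
  refine contDiff_iff_contDiffAt.2 fun w => ?_
  rcases eq_or_ne w 0 with rfl | hw
  · exact contDiffAt_const.congr_of_eventuallyEq (Cx2bQ_ev hδ h0)
  · refine ContDiffAt.mul ?_ (contDiffAt_id.inv hw)
    exact (ofRealCLM.contDiff.comp (hτ.comp (contDiff_norm_sq ℝ))).contDiffAt

theorem Cx2bQ_w2 {τ : ℝ → ℝ} {δ : ℝ} (hτ : ContDiff ℝ ∞ τ) (hδ : 0 < δ)
    (h0 : ∀ s ≤ δ, τ s = 0) (w : ℂ) :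
    w2 (fderiv ℝ (fun w : ℂ => (τ (‖w‖ ^ 2) : ℂ) * w⁻¹) w) = (deriv τ (‖w‖ ^ 2) : ℝ) := by
  rcases eq_or_ne w 0 with rfl | hw
  · have h1 : τ =ᶠ[𝓝 0] fun _ => (0 : ℝ) := by
      filter_upwards [Iio_mem_nhds hδ] with t ht using h0 t (le_of_lt ht)
    rw [(Cx2bQ_ev hδ h0).fderiv_eq, norm_zero, zero_pow two_ne_zero, h1.deriv_eq]
    simp [w2]
  · have h1 : HasDerivAt τ (deriv τ (‖w‖ ^ 2)) (‖w‖ ^ 2) :=
      (hτ.differentiable (by simp) _).hasDerivAt
    have h2 := (hasFDerivAt_id (𝕜 := ℝ) w).norm_sq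
    have h3 := ofRealCLM.hasFDerivAt.comp w (h1.comp_hasFDerivAt w h2)
    have h4 := (hasDerivAt_inv hw).hasFDerivAt.restrictScalars ℝ
    have h5 := h3.mul h4
    have h6 : HasFDerivAt (fun w : ℂ => (τ (‖w‖ ^ 2) : ℂ) * w⁻¹) _ w := h5
    rw [h6.fderiv]
    refine (w_eq (a := deriv τ (‖w‖ ^ 2) * conj w * w⁻¹ - τ (‖w‖ ^ 2) * (w ^ 2)⁻¹) fun v => ?_).2
    have e : ((inner ℝ w v : ℝ) : ℂ) = (conj w * v + w * conj v) / 2 := by
      rw [Complex.inner, Complex.re_eq_add_conj]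
      simp only [map_mul, conj_conj]
      ring
    simp [-Complex.inner, e]
    field_simp
    ring

theorem Cx2b_w2_int {F : ℂ → (ℂ →L[ℝ] ℂ)} (hF : Integrable F) :
    w2 (∫ t, F t) = ∫ t, w2 (F t) := by
  simp only [w2]
  rw [ContinuousLinearMap.integral_apply hF, ContinuousLinearMap.integral_apply hF,
    integral_div, integral_add (hF.apply_continuousLinearMap 1)
      ((hF.apply_continuousLinearMap I).const_mul I), integral_const_mul]

theorem Cx2b_diff {g : ℂ → ℂ} {z : ℂ} {D : ℂ →L[ℝ] ℂ} (h : HasFDerivAt g D z) (h2 : w2 D = 0) :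
    DifferentiableAt ℂ g z := by
  refine (hasFDerivAt_of_restrictScalars ℝ h
    (f' := w1 D • ContinuousLinearMap.id ℂ ℂ) ?_).differentiableAt
  ext1 v
  rw [w_apply D v, h2]
  simp

/-- the local statement, for an integrable function -/
theorem Cx2b_local {A : ℂ → ℂ} {z₀ : ℂ} {r : ℝ} (hr : 0 < r) (hA : Integrable A)
    (h : ∀ x ∈ ball z₀ r, ∀ G : ℂ → ℂ, ContDiff ℝ ∞ G → (∀ w, r < ‖w‖ → G w = 0) →
      ∫ z, A z * w2 (fderiv ℝ G (x - z)) = 0) :
    ∃ g : ℂ → ℂ, DifferentiableOn ℂ g (ball z₀ r) ∧ ∀ᵐ z, z ∈ ball z₀ r → A z = g z := by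
  set c : ℝ := ∫ w, Cx2bK 1 w with hc
  have hcpos : 0 < c := Cx2bK_int_pos
  have hs : ∀ ρ, ContDiff ℝ ∞ fun w => (Cx2bK ρ w : ℂ) := fun ρ =>
    ofRealCLM.contDiff.comp (Cx2bK_smooth ρ)
  have hz : ∀ ρ, 0 < ρ → ∀ w, ρ < ‖w‖ → (Cx2bK ρ w : ℂ) = 0 := fun ρ hρ w hw => by
    rw [Cx2bK_zero hρ hw, ofReal_zero]
  have hint : ∀ ρ, 0 < ρ → ∀ x, Integrable fun t => A t * (Cx2bK ρ (x - t) : ℂ) := fun ρ hρ x =>
    (Cx2b_hcs (hz ρ hρ)).convolutionExists_right (μ := volume) (ContinuousLinearMap.mul ℝ ℂ)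
      hA.locallyIntegrable (hs ρ).continuous x
  refine ⟨fun x => (c⁻¹ : ℝ) * ∫ t, A t * (Cx2bK r (x - t) : ℂ), fun x hx => ?_, ?_⟩
  · refine (DifferentiableAt.const_mul ?_ _).differentiableWithinAt
    have hcs := Cx2b_hcs (hz r hr)
    have h1 := hcs.hasFDerivAt_convolution_right (μ := volume) (ContinuousLinearMap.mul ℝ ℂ)
      hA.locallyIntegrable ((hs r).of_le (by simp)) x
    refine Cx2b_diff h1 ?_
    have h2 := (hcs.fderiv ℝ).convolutionExists_right (μ := volume)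
      ((ContinuousLinearMap.mul ℝ ℂ).precompR ℂ) hA.locallyIntegrable
      ((hs r).continuous_fderiv (by simp)) x
    rw [convolution_def, Cx2b_w2_int h2, ← h x hx _ (hs r) (hz r hr)]
    refine integral_congr_ae (Eventually.of_forall fun t => ?_)
    simp only [w2]
    simp
    ring
  · obtain ⟨M, hM⟩ := Cx2bK_bound
    filter_upwards [(Besicovitch.vitaliFamily (volume : Measure ℂ)).ae_tendsto_average_norm_sub
      hA.locallyIntegrable] with x h₀ hx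
    have h1 := h₀.comp (Besicovitch.tendsto_filterAt (volume : Measure ℂ) x)
    have h2 : Tendsto (fun ρ : ℝ => ∫ y, (c⁻¹ * Cx2bK ρ (x - y)) • A y) (𝓝[>] 0) (𝓝 (A x)) := by
      refine tendsto_integral_smul_of_tendsto_average_norm_sub (c⁻¹ * M * Real.pi) h1
        (Eventually.of_forall fun ρ => hA.integrableOn) ?_ ?_ ?_
      · refine tendsto_const_nhds.congr' ?_
        filter_upwards [self_mem_nhdsWithin] with ρ hρ
        rw [integral_const_mul, integral_sub_left_eq_self (Cx2bK ρ) volume x, Cx2bK_int hρ,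
          inv_mul_cancel₀ hcpos.ne']
      · filter_upwards [self_mem_nhdsWithin] with ρ hρ y hy
        by_contra hn
        rw [mem_closedBall, not_le, dist_comm, dist_eq_norm] at hn
        exact hy (by simp only [Cx2bK_zero hρ hn, mul_zero])
      · filter_upwards [self_mem_nhdsWithin] with ρ hρ y
        have hρ' : 0 < ρ := hρ
        have e : (volume : Measure ℂ).real (closedBall x ρ) = ρ ^ 2 * Real.pi := by
          rw [Measure.real, Complex.volume_closedBall, ENNReal.toReal_mul, ENNReal.toReal_pow,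
            ENNReal.toReal_ofReal hρ'.le]
          rfl
        rw [e, abs_mul, abs_of_pos (inv_pos.2 hcpos)]
        refine (mul_le_mul_of_nonneg_left (hM ρ _) (inv_pos.2 hcpos).le).trans (le_of_eq ?_)
        have := Real.pi_pos
        field_simp
    refine tendsto_nhds_unique h2 (tendsto_const_nhds.congr' ?_)
    filter_upwards [Ioo_mem_nhdsGT hr] with ρ hρ
    have hτ : ContDiff ℝ ∞ fun s => Cx2bT (ρ⁻¹ ^ 2 * s) - Cx2bT (r⁻¹ ^ 2 * s) :=
      (Cx2bT_smooth.comp (contDiff_const.mul contDiff_id)).sub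
        (Cx2bT_smooth.comp (contDiff_const.mul contDiff_id))
    have hδ : 0 < ρ ^ 2 / 2 := by have := hρ.1; positivity
    have h0 : ∀ s ≤ ρ ^ 2 / 2, Cx2bT (ρ⁻¹ ^ 2 * s) - Cx2bT (r⁻¹ ^ 2 * s) = 0 := by
      intro s hs'
      have hρ0 := hρ.1
      rw [Cx2bT_zero, Cx2bT_zero, sub_zero]
      · rw [inv_pow, inv_mul_le_iff₀ (by positivity)]
        nlinarith [hρ.2]
      · rw [inv_pow, inv_mul_le_iff₀ (by positivity)]
        linarith
    have h3 := h x hx _ (Cx2bQ_smooth hτ hδ h0) fun w hw => by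
      simp only [Cx2bT_one (Cx2b_one_lt hr hw).le, Cx2bT_one (Cx2b_one_lt hρ.1 (hρ.2.trans hw)).le,
        sub_self, ofReal_zero, zero_mul]
    have h4 : ∀ s, deriv (fun s => Cx2bT (ρ⁻¹ ^ 2 * s) - Cx2bT (r⁻¹ ^ 2 * s)) s =
        ρ⁻¹ ^ 2 * deriv Cx2bT (ρ⁻¹ ^ 2 * s) - r⁻¹ ^ 2 * deriv Cx2bT (r⁻¹ ^ 2 * s) := fun s =>
      ((Cx2bT_hasDerivAt _ s).sub (Cx2bT_hasDerivAt _ s)).deriv
    simp only [Cx2bQ_w2 hτ hδ h0, h4] at h3
    have h5 : ∫ t, (A t * (Cx2bK ρ (x - t) : ℂ) - A t * (Cx2bK r (x - t) : ℂ)) = 0 := by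
      rw [← h3]
      refine integral_congr_ae (Eventually.of_forall fun t => ?_)
      simp only [Cx2bK, ofReal_sub, mul_sub]
    rw [integral_sub (hint ρ hρ.1 x) (hint r hr x), sub_eq_zero] at h5
    rw [← h5, ← integral_const_mul]
    refine integral_congr_ae (Eventually.of_forall fun t => ?_)
    simp only [real_smul, ofReal_mul]
    ring

theorem Cx2b_local' {A : ℂ → ℂ} {U : Set ℂ} (hU : IsOpen U) (hA : LocallyIntegrableOn A U)
    (h : ∀ κ : ℂ → ℂ, ContDiff ℝ ∞ κ → HasCompactSupport κ → tsupport κ ⊆ U →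
      ∫ z, A z * w2 (fderiv ℝ κ z) = 0) {z₀ : ℂ} (hz : z₀ ∈ U) :
    ∃ r : ℝ, ∃ g : ℂ → ℂ, 0 < r ∧ ball z₀ r ⊆ U ∧ DifferentiableOn ℂ g (ball z₀ r) ∧
      ∀ᵐ z, z ∈ ball z₀ r → A z = g z := by
  obtain ⟨ε, hε, hεU⟩ := nhds_basis_closedBall.mem_iff.1 (hU.mem_nhds hz)
  have hr : 0 < ε / 2 := half_pos hε
  have hsub : ball z₀ (ε / 2) ⊆ closedBall z₀ ε :=
    ball_subset_closedBall.trans (closedBall_subset_closedBall (by linarith))
  have hi : Integrable (indicator (closedBall z₀ ε) A) :=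
    (integrable_indicator_iff measurableSet_closedBall).2
      (hA.integrableOn_compact_subset hεU (isCompact_closedBall _ _))
  obtain ⟨g, hg, hae⟩ := Cx2b_local (z₀ := z₀) hr hi (by
    intro x hx G hG hG0
    have hxs : closedBall x (ε / 2) ⊆ closedBall z₀ ε :=
      closedBall_subset_closedBall' (by have := mem_ball.1 hx; linarith)
    have hts : tsupport (fun z => G (x - z)) ⊆ closedBall x (ε / 2) := by
      refine closure_minimal (fun y hy => ?_) isClosed_closedBall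
      by_contra hn
      rw [mem_closedBall, not_le, dist_comm, dist_eq_norm] at hn
      exact hy (hG0 _ hn)
    have h1 := h (fun z => G (x - z)) (hG.comp (contDiff_const.sub contDiff_id))
      ((isCompact_closedBall x (ε / 2)).of_isClosed_subset (isClosed_tsupport _) hts)
      (hts.trans (hxs.trans hεU))
    rw [← neg_eq_zero, ← integral_neg] at h1
    rw [← h1]
    refine integral_congr_ae (Eventually.of_forall fun t => ?_)
    have h2 : HasFDerivAt (fun z => G (x - z)) _ t :=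
      (hG.differentiable (by simp) (x - t)).hasFDerivAt.comp t ((hasFDerivAt_id t).const_sub x)
    have h3 : w2 (fderiv ℝ (fun z => G (x - z)) t) = -w2 (fderiv ℝ G (x - t)) := by
      rw [h2.fderiv]
      simp [w2]
      ring
    by_cases ht : t ∈ closedBall z₀ ε
    · simp only [indicator_of_mem ht, h3, mul_neg, neg_neg]
    · have h4 : fderiv ℝ (fun z => G (x - z)) t = 0 :=
        image_eq_zero_of_notMem_tsupport fun hn => ht (hxs (hts (tsupport_fderiv_subset ℝ hn)))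
      simp [indicator_of_notMem ht, h4, w2])
  refine ⟨ε / 2, g, hr, hsub.trans hεU, hg, ?_⟩
  filter_upwards [hae] with z hz' hzb
  rw [← hz' hzb, indicator_of_mem (hsub hzb)]

/-- the lemma of Weyl in the plane -/
theorem weyl_plane {A : ℂ → ℂ} {U : Set ℂ} (hU : IsOpen U) (hA : LocallyIntegrableOn A U)
    (h : ∀ κ : ℂ → ℂ, ContDiff ℝ ∞ κ → HasCompactSupport κ → tsupport κ ⊆ U →
      ∫ z, A z * w2 (fderiv ℝ κ z) = 0) :
    ∃ g : ℂ → ℂ, DifferentiableOn ℂ g U ∧ ∀ᵐ z, z ∈ U → A z = g z := by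
  choose! r g hr hrU hg hae using fun z₀ (hz : z₀ ∈ U) => Cx2b_local' hU hA h hz
  have key : ∀ z₀ ∈ U, ∀ z ∈ ball z₀ (r z₀), g z z = g z₀ z := by
    intro z₀ hz₀ z hz
    have hzU := hrU z₀ hz₀ hz
    have ho : IsOpen (ball z (r z) ∩ ball z₀ (r z₀)) := isOpen_ball.inter isOpen_ball
    refine Measure.eqOn_open_of_ae_eq (μ := volume) ?_ ho
      ((hg z hzU).continuousOn.mono inter_subset_left)
      ((hg z₀ hz₀).continuousOn.mono inter_subset_right) ⟨mem_ball_self (hr z hzU), hz⟩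
    rw [EventuallyEq, ae_restrict_iff' ho.measurableSet]
    filter_upwards [hae z hzU, hae z₀ hz₀] with y h1 h2 hy
    rw [← h1 hy.1, ← h2 hy.2]
  refine ⟨fun z => g z z, fun z₀ hz₀ => ?_, ?_⟩
  · have hb : ball z₀ (r z₀) ∈ 𝓝 z₀ := ball_mem_nhds _ (hr z₀ hz₀)
    refine (((hg z₀ hz₀).differentiableAt hb).congr_of_eventuallyEq ?_).differentiableWithinAt
    filter_upwards [hb] with z hz using key z₀ hz₀ z hz
  · rw [ae_iff]
    refine measure_null_of_locally_null _ fun z₀ hz₀ => ?_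
    have hz₀U : z₀ ∈ U := by
      by_contra hn
      exact hz₀ fun h' => absurd h' hn
    refine ⟨_, inter_mem_nhdsWithin _ (ball_mem_nhds _ (hr z₀ hz₀U)), ?_⟩
    refine measure_mono_null ?_ (ae_iff.1 (hae z₀ hz₀U))
    rintro y ⟨hy, hyb⟩ hy'
    exact hy fun _ => (hy' hyb).trans (key z₀ hz₀U y hyb).symm

end Pool.Agent.MP_e62289_ag
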