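import Pool.Agent.MP_e62289_ag.W

open Set Filter Topology Complex MeasureTheory Metric
open scoped Manifold ContDiff ComplexConjugate NNReal ENNReal

namespace Pool.Agent.MP_e62289_ag

theorem Cx3_deriv {g : ℂ → ℂ} {ρ M : ℝ} (hρ : 0 < ρ) (hg : DifferentiableOn ℂ g (ball 0 ρ))
    (hM : ∀ z ∈ ball (0 : ℂ) ρ, ‖g z‖ ≤ M) : ‖deriv g 0‖ ≤ M / ρ := by
  have h1 : ∀ r : ℝ, 0 < r → r < ρ → ‖deriv g 0‖ ≤ M / r := by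
    intro r hr0 hr
    refine Complex.norm_deriv_le_of_forall_mem_sphere_norm_le hr0 ?_ ?_
    · refine DifferentiableOn.diffContOnCl ?_
      rw [closure_ball _ hr0.ne']
      exact hg.mono (closedBall_subset_ball hr)
    · intro z hz
      exact hM z (closedBall_subset_ball hr (sphere_subset_closedBall hz))
  have h2 : Tendsto (fun r : ℝ => M / r) (𝓝[<] ρ) (𝓝 (M / ρ)) :=
    ((continuousAt_const.div continuousAt_id hρ.ne').tendsto).mono_left nhdsWithin_le_nhds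
  refine ge_of_tendsto h2 ?_
  filter_upwards [Ioo_mem_nhdsLT hρ] with r hr
  exact h1 r hr.1 hr.2

theorem Cx3_maps {g : ℂ → ℂ} {ρ M : ℝ} (hρ : 0 < ρ)
    (hM : ∀ z ∈ ball (0 : ℂ) ρ, ‖g z‖ ≤ M) : MapsTo g (ball 0 ρ) (closedBall (g 0) (2 * M)) := by
  intro w hw
  rw [mem_closedBall, dist_eq_norm]
  have h1 := hM w hw
  have h2 := hM 0 (mem_ball_self hρ)
  have h3 := norm_sub_le (g w) (g 0)
  linarith

theorem Cx3_first {g : ℂ → ℂ} {ρ M : ℝ} (hρ : 0 < ρ) (hg : DifferentiableOn ℂ g (ball 0 ρ))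
    (hM : ∀ z ∈ ball (0 : ℂ) ρ, ‖g z‖ ≤ M) {z : ℂ} (hz : z ∈ ball (0 : ℂ) ρ) :
    ‖g z - g 0‖ ≤ 2 * M / ρ * ‖z‖ := by
  have h := Complex.dist_le_div_mul_dist_of_mapsTo_ball hg (Cx3_maps hρ hM) hz
  rwa [dist_eq_norm, dist_zero_right] at h

/-- second order Schwarz lemma -/
theorem schwarz_two {g : ℂ → ℂ} {ρ M : ℝ} (hρ : 0 < ρ) (hg : DifferentiableOn ℂ g (ball 0 ρ))
    (hM : ∀ z ∈ ball (0 : ℂ) ρ, ‖g z‖ ≤ M) :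
    ‖deriv g 0‖ ≤ M / ρ ∧ ∀ z ∈ ball (0 : ℂ) ρ, ‖g z - g 0‖ ≤ 2 * M / ρ * ‖z‖ ∧
      ‖g z - g 0 - z * deriv g 0‖ ≤ 6 * M / ρ ^ 2 * ‖z‖ ^ 2 := by
  refine ⟨Cx3_deriv hρ hg hM, fun z hz => ⟨Cx3_first hρ hg hM hz, ?_⟩⟩
  have hM0 : 0 ≤ M := (norm_nonneg _).trans (hM 0 (mem_ball_self hρ))
  have hd : DifferentiableOn ℂ (dslope g 0) (ball 0 ρ) :=
    (Complex.differentiableOn_dslope (ball_mem_nhds _ hρ)).2 hg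
  have hb : ∀ w ∈ ball (0 : ℂ) ρ, ‖dslope g 0 w‖ ≤ 2 * M / ρ := fun w hw =>
    Complex.norm_dslope_le_div_of_mapsTo_ball hg (Cx3_maps hρ hM) hw
  have h1 := Cx3_first hρ hd hb hz
  have h2 : g z - g 0 - z * deriv g 0 = z * (dslope g 0 z - dslope g 0 0) := by
    have h3 := sub_smul_dslope g 0 z
    rw [sub_zero, smul_eq_mul] at h3
    rw [dslope_same, mul_sub, h3]
  rw [h2, norm_mul]
  calc ‖z‖ * ‖dslope g 0 z - dslope g 0 0‖ ≤ ‖z‖ * (2 * (2 * M / ρ) / ρ * ‖z‖) :=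
        mul_le_mul_of_nonneg_left h1 (norm_nonneg _)
    _ = 4 * (M / ρ ^ 2 * ‖z‖ ^ 2) := by field_simp; ring
    _ ≤ 6 * (M / ρ ^ 2 * ‖z‖ ^ 2) := by
        have : 0 ≤ M / ρ ^ 2 * ‖z‖ ^ 2 := by positivity
        linarith
    _ = 6 * M / ρ ^ 2 * ‖z‖ ^ 2 := by ring

theorem Cx3_psi {g : ℂ → ℂ → ℂ} {ρ : ℝ} (hρ : 0 < ρ)
    (hu : ∀ r ∈ ball (0 : ℂ) ρ, DifferentiableOn ℂ (fun u => g u r) (ball 0 ρ))
    (hr : ∀ u ∈ ball (0 : ℂ) ρ, DifferentiableOn ℂ (g u) (ball 0 ρ))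
    (hb : ∀ u ∈ ball (0 : ℂ) ρ, ∀ r ∈ ball (0 : ℂ) ρ, ‖g u r‖ ≤ 1) :
    DifferentiableOn ℂ (fun u => deriv (g u) 0) (ball 0 ρ) := by
  have hT : TendstoUniformlyOn (fun (r : ℂ) (u : ℂ) => (g u r - g u 0) / r)
      (fun u => deriv (g u) 0) (𝓝[≠] 0) (ball 0 ρ) := by
    rw [Metric.tendstoUniformlyOn_iff]
    intro ε hε
    have hc : Tendsto (fun r : ℂ => 6 * 1 / ρ ^ 2 * ‖r‖) (𝓝 0) (𝓝 (6 * 1 / ρ ^ 2 * ‖(0 : ℂ)‖)) :=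
      (continuous_const.mul continuous_norm).tendsto 0
    rw [norm_zero, mul_zero] at hc
    have h1 : ∀ᶠ r : ℂ in 𝓝[≠] 0, 6 * 1 / ρ ^ 2 * ‖r‖ < ε :=
      nhdsWithin_le_nhds (hc.eventually (gt_mem_nhds hε))
    have h2 : ∀ᶠ r : ℂ in 𝓝[≠] 0, r ∈ ball (0 : ℂ) ρ :=
      nhdsWithin_le_nhds (ball_mem_nhds _ hρ)
    filter_upwards [h1, h2, self_mem_nhdsWithin] with r h1 h2 h3 u hu'
    have h3' : r ≠ 0 := h3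
    have h4 := ((schwarz_two hρ (hr u hu') (hb u hu')).2 r h2).2
    have h5 : deriv (g u) 0 - (g u r - g u 0) / r = -((g u r - g u 0 - r * deriv (g u) 0) / r) := by
      field_simp
      ring
    have h6 : 0 < ‖r‖ := norm_pos_iff.2 h3'
    rw [dist_eq_norm, h5, norm_neg, norm_div, div_lt_iff₀ h6]
    calc _ ≤ 6 * 1 / ρ ^ 2 * ‖r‖ ^ 2 := h4
      _ = 6 * 1 / ρ ^ 2 * ‖r‖ * ‖r‖ := by ring
      _ < ε * ‖r‖ := mul_lt_mul_of_pos_right h1 h6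
  refine hT.tendstoLocallyUniformlyOn.differentiableOn ?_ isOpen_ball
  filter_upwards [nhdsWithin_le_nhds (ball_mem_nhds (0 : ℂ) hρ)] with r hr'
  exact ((hu r hr').sub (hu 0 (mem_ball_self hρ))).div_const r

/-- mixed second order expansion on a bidisc -/
theorem bidisc {g : ℂ → ℂ → ℂ} {ρ : ℝ} (hρ : 0 < ρ)
    (hu : ∀ r ∈ ball (0 : ℂ) ρ, DifferentiableOn ℂ (fun u => g u r) (ball 0 ρ))
    (hr : ∀ u ∈ ball (0 : ℂ) ρ, DifferentiableOn ℂ (g u) (ball 0 ρ))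
    (hb : ∀ u ∈ ball (0 : ℂ) ρ, ∀ r ∈ ball (0 : ℂ) ρ, ‖g u r‖ ≤ 1) {ν : ℂ}
    (hν : HasDerivAt (fun u => deriv (g u) 0) ν 0) :
    ‖ν‖ ≤ 4 / ρ ^ 2 ∧ ∀ u ∈ ball (0 : ℂ) ρ, ∀ r ∈ ball (0 : ℂ) ρ,
      ‖g u r - g u 0 - g 0 r + g 0 0 - u * r * ν‖ ≤ 100 / ρ ^ 3 * (‖u‖ * ‖r‖ * (‖u‖ + ‖r‖)) := by
  have h0 : (0 : ℂ) ∈ ball (0 : ℂ) ρ := mem_ball_self hρ
  have hψ := Cx3_psi hρ hu hr hb
  have hψb : ∀ u ∈ ball (0 : ℂ) ρ, ‖deriv (g u) 0‖ ≤ 1 / ρ := fun u hu' =>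
    Cx3_deriv hρ (hr u hu') (hb u hu')
  have hS := schwarz_two hρ hψ hψb
  rw [hν.deriv] at hS
  constructor
  · calc ‖ν‖ ≤ 1 / ρ / ρ := hS.1
      _ = 1 / ρ ^ 2 := by field_simp
      _ ≤ 4 / ρ ^ 2 := by gcongr; norm_num
  · intro u hu' r hr'
    have h1 := (hS.2 u hu').2
    have hγ : DifferentiableOn ℂ (fun s => g u s - g 0 s) (ball 0 ρ) := (hr u hu').sub (hr 0 h0)
    have hγb : ∀ s ∈ ball (0 : ℂ) ρ, ‖g u s - g 0 s‖ ≤ 2 * 1 / ρ * ‖u‖ := fun s hs =>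
      Cx3_first hρ (hu s hs) (fun w hw => hb w hw s hs) hu'
    have h2 := ((schwarz_two hρ hγ hγb).2 r hr').2
    have h3 : deriv (fun s => g u s - g 0 s) 0 = deriv (g u) 0 - deriv (g 0) 0 :=
      (((hr u hu').differentiableAt (ball_mem_nhds _ hρ)).hasDerivAt.sub
        ((hr 0 h0).differentiableAt (ball_mem_nhds _ hρ)).hasDerivAt).deriv
    rw [h3] at h2
    have h4 : g u r - g u 0 - g 0 r + g 0 0 - u * r * ν =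
        (g u r - g 0 r - (g u 0 - g 0 0) - r * (deriv (g u) 0 - deriv (g 0) 0)) +
          r * (deriv (g u) 0 - deriv (g 0) 0 - u * ν) := by ring
    rw [h4]
    have h5 : ‖r * (deriv (g u) 0 - deriv (g 0) 0 - u * ν)‖ ≤
        ‖r‖ * (6 * (1 / ρ) / ρ ^ 2 * ‖u‖ ^ 2) := by
      rw [norm_mul]
      exact mul_le_mul_of_nonneg_left h1 (norm_nonneg _)
    have h6 : 0 ≤ 1 / ρ ^ 3 * (‖u‖ * ‖r‖ * ‖r‖) := by positivity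
    have h7 : 0 ≤ 1 / ρ ^ 3 * (‖u‖ * ‖r‖ * ‖u‖) := by positivity
    calc _ ≤ 6 * (2 * 1 / ρ * ‖u‖) / ρ ^ 2 * ‖r‖ ^ 2 + ‖r‖ * (6 * (1 / ρ) / ρ ^ 2 * ‖u‖ ^ 2) :=
          (norm_add_le _ _).trans (add_le_add h2 h5)
      _ = 12 * (1 / ρ ^ 3 * (‖u‖ * ‖r‖ * ‖r‖)) + 6 * (1 / ρ ^ 3 * (‖u‖ * ‖r‖ * ‖u‖)) := by
          field_simp; ring
      _ ≤ 100 * (1 / ρ ^ 3 * (‖u‖ * ‖r‖ * ‖r‖)) + 100 * (1 / ρ ^ 3 * (‖u‖ * ‖r‖ * ‖u‖)) := by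
          linarith
      _ = _ := by ring

end Pool.Agent.MP_e62289_ag
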