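import Pool.Agent.MP_e62289_ag.L4
import Pool.Agent.MP_e62289_ag.Cx2
import Pool.Agent.MP_e62289_ag.Cx3

open Set Filter Topology Complex MeasureTheory Metric
open scoped Manifold ContDiff ComplexConjugate NNReal ENNReal

namespace Pool.Agent.MP_e62289_ag

namespace Flat

variable {n : ℕ} (S : Flat n)

variable {μ : S.Y → ℂ} {κ : ℝ}

theorem L5b_mem (hμ : AEStronglyMeasurable μ S.lamf) (hb : ∀ q, ‖μ q‖ ≤ κ) :
    MemLp μ ⊤ S.lamf :=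
  memLp_top_of_bound hμ κ (Eventually.of_forall hb)

theorem mulOp_apply (hμ : AEStronglyMeasurable μ S.lamf) (hb : ∀ q, ‖μ q‖ ≤ κ) (A : S.H) :
    (S.mulOp μ A : S.Y → ℂ) =ᵐ[S.lamf] fun q => μ q * A q := by
  have h := S.L5b_mem hμ hb
  unfold mulOp
  rw [dif_pos h]
  have h1 := (ContinuousLinearMap.mul ℂ ℂ).coeFn_holder (r := 2) (h.toLp μ) A
  filter_upwards [h1, h.coeFn_toLp] with q h1 h2
  refine Eq.trans h1 ?_
  rw [h2]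
  rfl

theorem norm_mulOp (hμ : AEStronglyMeasurable μ S.lamf) (hb : ∀ q, ‖μ q‖ ≤ κ) :
    ‖S.mulOp μ‖ ≤ κ := by
  have hκ : 0 ≤ κ := (norm_nonneg _).trans (hb (Classical.arbitrary _))
  refine ContinuousLinearMap.opNorm_le_bound _ hκ fun A => ?_
  refine Lp.norm_le_mul_norm_of_ae_le_mul ?_
  filter_upwards [S.mulOp_apply hμ hb A] with q hq
  rw [hq, norm_mul]
  exact mul_le_mul_of_nonneg_right (hb q) (norm_nonneg _)

theorem mulOp_add {μ' : S.Y → ℂ} {κ' : ℝ} (hμ : AEStronglyMeasurable μ S.lamf)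
    (hb : ∀ q, ‖μ q‖ ≤ κ) (hμ' : AEStronglyMeasurable μ' S.lamf) (hb' : ∀ q, ‖μ' q‖ ≤ κ') :
    S.mulOp (fun q => μ q + μ' q) = S.mulOp μ + S.mulOp μ' := by
  have hs : ∀ q, ‖μ q + μ' q‖ ≤ κ + κ' := fun q =>
    (norm_add_le _ _).trans (add_le_add (hb q) (hb' q))
  refine ContinuousLinearMap.ext fun A => Lp.ext ?_
  filter_upwards [S.mulOp_apply (μ := fun q => μ q + μ' q) (hμ.add hμ') hs A,
    S.mulOp_apply hμ hb A, S.mulOp_apply hμ' hb' A,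
    Lp.coeFn_add (S.mulOp μ A) (S.mulOp μ' A)] with q h1 h2 h3 h4
  rw [h1, _root_.add_apply, h4, Pi.add_apply, h2, h3]
  ring

theorem mulOp_smul (hμ : AEStronglyMeasurable μ S.lamf) (hb : ∀ q, ‖μ q‖ ≤ κ) (c : ℂ) :
    S.mulOp (fun q => c * μ q) = c • S.mulOp μ := by
  have hs : ∀ q, ‖c * μ q‖ ≤ ‖c‖ * κ := fun q => by
    rw [norm_mul]
    exact mul_le_mul_of_nonneg_left (hb q) (norm_nonneg _)
  refine ContinuousLinearMap.ext fun A => Lp.ext ?_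
  filter_upwards [S.mulOp_apply (μ := fun q => c * μ q) (hμ.const_mul c) hs A,
    S.mulOp_apply hμ hb A, Lp.coeFn_smul c (S.mulOp μ A)] with q h1 h2 h4
  rw [h1, _root_.smul_apply, h4, Pi.smul_apply, h2, smul_eq_mul]
  ring

theorem β_mulOp (hμ : AEStronglyMeasurable μ S.lamf) (hb : ∀ q, ‖μ q‖ ≤ κ) (A B : S.H) :
    S.hd.β A (S.mulOp μ B) = ∫ q, μ q * (S.f q * B q * A q) ∂S.lam := by
  rw [S.hd_β]
  refine integral_congr_ae ?_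
  filter_upwards [S.ae_lamf.1 (S.mulOp_apply hμ hb B)] with q hq
  rw [hq]
  ring

theorem Hval_bound {ξp ξm : S.H} (hp : ξp ∈ S.hd.W) (hm : ξm ∈ S.hd.W)
    (hμ : AEStronglyMeasurable μ S.lamf) (hb : ∀ q, ‖μ q‖ ≤ κ) (hκ : κ < 1) :
    ‖S.Hval ξp ξm μ‖ ≤ ‖ξp‖ * ‖ξm‖ :=
  S.hd.hv_bound hp hm ((S.norm_mulOp hμ hb).trans_lt hκ)

/-- multiplication operators depend holomorphically on parameters -/
theorem L5b_diff {ν : ℂ → S.Y → ℂ} {ζ₀ : ℂ} {ρ : ℝ} (hρ : 0 < ρ)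
    (hm : ∀ ζ ∈ ball ζ₀ ρ, AEStronglyMeasurable (ν ζ) S.lamf)
    (hb : ∀ ζ ∈ ball ζ₀ ρ, ∀ q, ‖ν ζ q‖ ≤ κ)
    (hd : ∀ q, DifferentiableOn ℂ (fun ζ => ν ζ q) (ball ζ₀ ρ)) :
    DifferentiableAt ℂ (fun ζ => S.mulOp (ν ζ)) ζ₀ := by
  have hmem : ∀ z ∈ ball (0 : ℂ) ρ, ζ₀ + z ∈ ball ζ₀ ρ := fun z hz => by
    simpa using hz
  have h0 : ζ₀ ∈ ball ζ₀ ρ := mem_ball_self hρ
  set ν' : S.Y → ℂ := fun q => deriv (fun z => ν (ζ₀ + z) q) 0 with hν'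
  have hs : ∀ q, ‖ν' q‖ ≤ κ / ρ ∧ ∀ z ∈ ball (0 : ℂ) ρ,
      ‖ν (ζ₀ + z) q - ν ζ₀ q - z * ν' q‖ ≤ 6 * κ / ρ ^ 2 * ‖z‖ ^ 2 := by
    intro q
    have hg : DifferentiableOn ℂ (fun z => ν (ζ₀ + z) q) (ball 0 ρ) :=
      (hd q).comp (f := fun z : ℂ => ζ₀ + z) (by fun_prop) hmem
    obtain ⟨h1, h2⟩ := schwarz_two hρ hg (fun z hz => hb _ (hmem z hz) q)
    refine ⟨h1, fun z hz => ?_⟩
    simpa using (h2 z hz).2
  -- measurability of the derivative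
  have hmeas : AEStronglyMeasurable ν' S.lamf := by
    let t : ℕ → ℝ := fun k => ρ / 2 * (1 / ((k : ℝ) + 1))
    have ht0 : ∀ k, 0 < t k := fun k => by positivity
    have ht1 : ∀ k, t k < ρ := fun k => by
      have h1 : 1 / ((k : ℝ) + 1) ≤ 1 := by
        rw [div_le_one (by positivity)]
        linarith [(Nat.cast_nonneg k : (0 : ℝ) ≤ k)]
      have h2 : ρ / 2 * (1 / ((k : ℝ) + 1)) ≤ ρ / 2 * 1 :=
        mul_le_mul_of_nonneg_left h1 (by positivity)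
      show ρ / 2 * (1 / ((k : ℝ) + 1)) < ρ
      linarith
    have htb : ∀ k, ((t k : ℝ) : ℂ) ∈ ball (0 : ℂ) ρ := fun k => by
      rw [mem_ball_zero_iff, Complex.norm_real, Real.norm_of_nonneg (ht0 k).le]
      exact ht1 k
    have htl : Tendsto t atTop (𝓝 0) := by
      have h1 := (tendsto_one_div_add_atTop_nhds_zero_nat (𝕜 := ℝ)).const_mul (ρ / 2)
      rw [mul_zero] at h1
      exact h1
    refine aestronglyMeasurable_of_tendsto_ae atTop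
      (f := fun k q => ((t k : ℝ) : ℂ)⁻¹ * (ν (ζ₀ + (t k : ℝ)) q - ν ζ₀ q)) (fun k => ?_)
      (Eventually.of_forall fun q => ?_)
    · exact ((hm _ (hmem _ (htb k))).sub (hm _ h0)).const_mul _
    · rw [tendsto_iff_norm_sub_tendsto_zero]
      have h1 := htl.const_mul (6 * κ / ρ ^ 2)
      rw [mul_zero] at h1
      refine squeeze_zero (fun k => norm_nonneg _) (fun k => ?_) h1
      have h2 := (hs q).2 _ (htb k)
      have hne : ((t k : ℝ) : ℂ) ≠ 0 := by exact_mod_cast (ht0 k).ne'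
      have h3 : ((t k : ℝ) : ℂ)⁻¹ * (ν (ζ₀ + (t k : ℝ)) q - ν ζ₀ q) - ν' q =
          ((t k : ℝ) : ℂ)⁻¹ * (ν (ζ₀ + (t k : ℝ)) q - ν ζ₀ q - (t k : ℝ) * ν' q) := by
        field_simp
      rw [h3, norm_mul, norm_inv, Complex.norm_real, Real.norm_of_nonneg (ht0 k).le]
      rw [Complex.norm_real, Real.norm_of_nonneg (ht0 k).le] at h2
      rw [inv_mul_le_iff₀ (ht0 k)]
      refine h2.trans (le_of_eq ?_)
      ring
  have key : ∀ ζ ∈ ball ζ₀ ρ, ‖S.mulOp (ν ζ) - S.mulOp (ν ζ₀) - (ζ - ζ₀) • S.mulOp ν'‖ ≤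
      6 * κ / ρ ^ 2 * ‖ζ - ζ₀‖ ^ 2 := by
    intro ζ hζ
    have hz : ζ - ζ₀ ∈ ball (0 : ℂ) ρ := by
      rw [mem_ball_zero_iff]
      rwa [mem_ball, dist_eq_norm] at hζ
    have hr : ∀ q, ‖ν ζ q - ν ζ₀ q - (ζ - ζ₀) * ν' q‖ ≤ 6 * κ / ρ ^ 2 * ‖ζ - ζ₀‖ ^ 2 :=
      fun q => by simpa using (hs q).2 _ hz
    have hrm : AEStronglyMeasurable (fun q => ν ζ q - ν ζ₀ q - (ζ - ζ₀) * ν' q) S.lamf :=
      ((hm _ hζ).sub (hm _ h0)).sub (hmeas.const_mul _)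
    have hb2 : ∀ q, ‖(ζ - ζ₀) * ν' q‖ ≤ ‖ζ - ζ₀‖ * (κ / ρ) := fun q => by
      rw [norm_mul]
      exact mul_le_mul_of_nonneg_left (hs q).1 (norm_nonneg _)
    have hb3 : ∀ q, ‖ν ζ₀ q + (ζ - ζ₀) * ν' q‖ ≤ κ + ‖ζ - ζ₀‖ * (κ / ρ) := fun q =>
      (norm_add_le _ _).trans (add_le_add (hb _ h0 q) (hb2 q))
    have e1 := S.mulOp_add (μ := fun q => ν ζ₀ q + (ζ - ζ₀) * ν' q)
      ((hm _ h0).add (hmeas.const_mul _)) hb3 hrm hr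
    have e2 := S.mulOp_add (μ' := fun q => (ζ - ζ₀) * ν' q) (hm _ h0) (hb _ h0)
      (hmeas.const_mul _) hb2
    have e3 := S.mulOp_smul hmeas (fun q => (hs q).1) (ζ - ζ₀)
    have e4 : (fun q => ν ζ₀ q + (ζ - ζ₀) * ν' q + (ν ζ q - ν ζ₀ q - (ζ - ζ₀) * ν' q)) = ν ζ := by
      funext q
      ring
    rw [e4, e2, e3] at e1
    have e5 : S.mulOp (ν ζ) - S.mulOp (ν ζ₀) - (ζ - ζ₀) • S.mulOp ν' =
        S.mulOp (fun q => ν ζ q - ν ζ₀ q - (ζ - ζ₀) * ν' q) := by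
      rw [e1]
      abel
    rw [e5]
    exact S.norm_mulOp hrm hr
  have hder : HasDerivAt (fun ζ => S.mulOp (ν ζ)) (S.mulOp ν') ζ₀ := by
    rw [hasDerivAt_iff_isLittleO]
    have h1 : (fun ζ : ℂ => S.mulOp (ν ζ) - S.mulOp (ν ζ₀) - (ζ - ζ₀) • S.mulOp ν')
        =O[𝓝 ζ₀] fun ζ : ℂ => ‖ζ - ζ₀‖ ^ 2 := by
      refine Asymptotics.IsBigO.of_bound (6 * κ / ρ ^ 2) ?_
      filter_upwards [ball_mem_nhds ζ₀ hρ] with ζ hζ
      rw [Real.norm_of_nonneg (by positivity)]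
      exact key ζ hζ
    exact h1.trans_isLittleO (Asymptotics.isLittleO_pow_sub_sub ζ₀ one_lt_two)
  exact hder.differentiableAt

/-- holomorphic dependence on parameters -/
theorem Hval_hol (ξp ξm : S.H) {ν : ℂ → S.Y → ℂ} {ζ₀ : ℂ} {ρ : ℝ} (hρ : 0 < ρ) (hκ : κ < 1)
    (hm : ∀ ζ ∈ ball ζ₀ ρ, AEStronglyMeasurable (ν ζ) S.lamf)
    (hb : ∀ ζ ∈ ball ζ₀ ρ, ∀ q, ‖ν ζ q‖ ≤ κ)
    (hd : ∀ q, DifferentiableOn ℂ (fun ζ => ν ζ q) (ball ζ₀ ρ)) :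
    DifferentiableAt ℂ (fun ζ => S.Hval ξp ξm (ν ζ)) ζ₀ := by
  have h0 : ζ₀ ∈ ball ζ₀ ρ := mem_ball_self hρ
  have h1 : S.mulOp (ν ζ₀) ∈ ball (0 : S.H →L[ℂ] S.H) 1 := by
    rw [mem_ball_zero_iff]
    exact (S.norm_mulOp (hm _ h0) (hb _ h0)).trans_lt hκ
  have h2 := (S.hd.hv_diff ξp ξm).differentiableAt (isOpen_ball.mem_nhds h1)
  exact h2.comp ζ₀ (S.L5b_diff hρ hm hb hd)

end Flat

end Pool.Agent.MP_e62289_ag
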