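import Pool.Agent.MP_e62289_ag.X4
import Pool.Agent.MP_e62289_ag.L5

open Set Filter Topology Complex MeasureTheory Metric
open scoped Manifold ContDiff ComplexConjugate NNReal ENNReal

namespace Pool.Agent.MP_e62289_ag

theorem X5_fin (c : ℂ) : {x : ℂ | x ^ 4 = c}.Finite :=
  (Polynomial.nthRoots 4 c).toFinset.finite_toSet.subset fun x hx => by
    simpa [Polynomial.mem_nthRoots] using hx

theorem X5_comp {Y : Type} [TopologicalSpace Y] [ChartedSpace ℂ Y] {u : Y → ℂ} {q : Y} {g : ℂ → ℂ}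
    (hg : DifferentiableAt ℂ g (u q)) (hu : HolAt u q) : HolAt (fun x => g (u x)) q :=
  hg.mdifferentiableAt.comp q hu

theorem X5_div {Y : Type} [TopologicalSpace Y] [ChartedSpace ℂ Y] {u v : Y → ℂ} (hu : Hol u)
    (hv : Hol v) (h : ∀ q, v q ≠ 0) : Hol fun q => u q / v q := fun q => by
  simp only [div_eq_mul_inv]
  exact (hu q).mul (X5_comp (g := fun z => z⁻¹) (differentiableAt_inv (h q)) (hv q))

namespace Hyp

variable {s : ℝ} (H : Hyp s)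

theorem X5_ae (h0 : 0 < s) : ∀ᵐ q ∂H.S.lam, H.y q ≠ 0 := by
  have hs : (s : ℂ) ^ 4 ≠ 0 := pow_ne_zero _ (by exact_mod_cast h0.ne')
  have h1 : {q | H.y q = 0}.Finite := by
    refine Finite.of_finite_image (f := fun q => (H.x q, H.y q)) ?_ H.inj.injOn
    refine (((X5_fin ((s : ℂ) ^ 4)).union (X5_fin (((s : ℂ) ^ 4)⁻¹))).prod
      (finite_singleton (0 : ℂ))).subset ?_
    rintro _ ⟨q, hq, rfl⟩
    refine ⟨?_, hq⟩
    have e := H.eqn q
    rw [show H.y q = 0 from hq, PP, zero_pow two_ne_zero] at e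
    rcases mul_eq_zero.1 e.symm with h | h
    · exact Or.inl (sub_eq_zero.1 h)
    · exact Or.inr (eq_inv_of_mul_eq_one_right (sub_eq_zero.1 h).symm)
  have h2 : ∀ q : H.S.Y, H.S.lam {q} = 0 := fun q => by
    rw [H.S.area q {q} (measurableSet_singleton q)
      (singleton_subset_iff.2 (mem_chart_source ℂ q)), image_singleton, measure_singleton]
  rw [ae_iff]
  simp only [not_not]
  rw [← biUnion_of_singleton {q | H.y q = 0}]
  exact (measure_biUnion_null_iff h1.countable).2 fun q _ => h2 q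

theorem X5_lp (h0 : 0 < s) {u : H.S.Y → ℂ} (hu : Hol u) {g : ℂ → ℂ} (hg : Measurable g)
    (h : ∀ q, H.y q ≠ 0 → ‖H.S.f q‖ * ‖u q‖ ^ 2 = ‖H.y q‖ ^ 2 * ‖g (H.x q)‖) {C : ℝ≥0∞}
    (hC : C ≠ ⊤) (hb : ∫⁻ z, ‖g z‖ₑ ≤ C) :
    ∃ ξ : H.S.H, ξ ∈ H.S.hd.W ∧ ‖ξ‖ ≤ ((2 * C) ^ (1 / 2 : ℝ)).toReal ∧
      ∀ᵐ q ∂H.S.lam, ξ q = u q := by
  have h1 : eLpNorm u 2 H.S.lamf ≤ (2 * C) ^ (1 / 2 : ℝ) := by
    rw [eLpNorm_eq_lintegral_rpow_enorm_toReal two_ne_zero ENNReal.ofNat_ne_top, H.S.lintegral_lamf]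
    refine ENNReal.rpow_le_rpow ?_ (by norm_num)
    calc _ = ∫⁻ q, ‖H.y q‖ₑ ^ 2 * ‖g (H.x q)‖ₑ ∂H.S.lam := by
          refine lintegral_congr_ae ((H.X5_ae h0).mono fun q hq => ?_)
          have e := congrArg ENNReal.ofReal (h q hq)
          rw [ENNReal.ofReal_mul (norm_nonneg _), ENNReal.ofReal_mul (sq_nonneg _),
            ENNReal.ofReal_pow (norm_nonneg _), ENNReal.ofReal_pow (norm_nonneg _)] at e
          simpa only [ofReal_norm, ENNReal.toReal_ofNat, ENNReal.rpow_ofNat] using e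
      _ = 2 * ∫⁻ z, ‖g z‖ₑ := H.lintegral_x h0 hg.enorm
      _ ≤ _ := by gcongr
  have h2 : (2 * C) ^ (1 / 2 : ℝ) ≠ ⊤ :=
    ENNReal.rpow_ne_top_of_nonneg (by norm_num) (ENNReal.mul_ne_top ENNReal.ofNat_ne_top hC)
  have hm : MemLp u 2 H.S.lamf := ⟨hu.continuous.aestronglyMeasurable, h1.trans_lt h2.lt_top⟩
  refine ⟨hm.toLp u, H.S.mem_W hu hm.coeFn_toLp, ?_, H.S.ae_lamf.1 hm.coeFn_toLp⟩
  rw [Lp.norm_toLp]
  exact ENNReal.toReal_mono h2 h1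

theorem X5_e (i : Fin 8) {q : H.S.Y} (hq : q ∈ (H.S.e i).source) :
    RDiffAt (H.S.e i) q ∧ ‖H.S.e i q‖ < 1 ∧ H.S.e i q ≠ 0 := by
  have h := (H.S.e i).map_source hq
  rw [H.S.e_target] at h
  exact ⟨(d2_of_hol ((coord_hol (H.S.e_hol i)).1 q hq).1).1, mem_ball_zero_iff.1 h.1, h.2⟩

theorem X5_d_fin (i : Fin 8) (hi : i.val < 6) {q : H.S.Y} (hq : q ∈ (H.S.e i).source) :
    H.y q = H.r * d1 (H.S.e i) q := by
  have h : H.x =ᶠ[𝓝 q] fun p => xpt i + H.r * H.S.e i p :=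
    eventually_of_mem ((H.S.e i).open_source.mem_nhds hq) fun p hp => (H.fin i hi p hp).1
  rw [← H.d1x, (d_congr h).1]
  have hg : HasDerivAt (fun z : ℂ => xpt i + H.r * z) (H.r : ℂ) (H.S.e i q) := by
    simpa using ((hasDerivAt_id (H.S.e i q)).const_mul (H.r : ℂ)).const_add (xpt i)
  exact (d_hol_comp hg (H.X5_e i hq).1).2.1

theorem X5_d_inf (i : Fin 8) (hi : 6 ≤ i.val) {q : H.S.Y} (hq : q ∈ (H.S.e i).source) :
    d1 (H.S.e i) q * H.S.e i q ^ 2 = -(H.r * H.Yb i (H.S.e i q)) := by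
  have hr : (H.r : ℂ) ≠ 0 := by exact_mod_cast H.r_pos.ne'
  have he := (H.X5_e i hq).2.2
  have h : H.x =ᶠ[𝓝 q] fun p => (H.r * H.S.e i p)⁻¹ :=
    eventually_of_mem ((H.S.e i).open_source.mem_nhds hq) fun p hp =>
      eq_inv_of_mul_eq_one_left (H.inf i hi p hp).1
  have hg : HasDerivAt (fun z : ℂ => (H.r * z)⁻¹) (-(H.r : ℂ) / (H.r * H.S.e i q) ^ 2)
      (H.S.e i q) := by
    have := ((hasDerivAt_id (H.S.e i q)).const_mul (H.r : ℂ)).inv (mul_ne_zero hr he)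
    rw [mul_one] at this
    exact this
  have e := (d_hol_comp hg (H.X5_e i hq).1).2.1
  rw [← (d_congr h).1, H.d1x] at e
  rw [← (H.inf i hi q hq).2, e]
  field_simp

theorem X5_ends (h1 : s < 1 / 2) (i : Fin 8) : ∃ c : ℝ, 0 < c ∧ ∀ᶠ q in H.S.endF i,
    c * ‖H.S.e i q‖ ^ (aa i - 1) * ‖d1 (H.S.e i) q‖ ≤ ‖H.x q ^ 2 + 1‖ ∧
      c * ‖H.S.e i q‖ ^ (aa i - 1) * ‖-1 / (2 * (H.x q ^ 2 + 1))‖ ≤ 1 := by
  have hr := H.r_pos
  have hr' : H.r ≤ 1 / 4 := by linarith [H.r_le]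
  obtain ⟨M, hM, hev⟩ : ∃ M : ℝ, 1 ≤ M ∧ ∀ᶠ q in H.S.endF i,
      q ∈ (H.S.e i).source ∧ ‖H.Yb i (H.S.e i q)‖ ≤ M := by
    refine ⟨‖H.Yb i 0‖ + 1, le_add_of_nonneg_left (norm_nonneg _),
      Eventually.and (mem_inf_of_right (mem_principal_self _)) ?_⟩
    have ht : Tendsto (H.S.e i) (H.S.endF i) (𝓝 0) := tendsto_comap.mono_left inf_le_left
    have hc : ContinuousAt (H.Yb i) 0 :=
      (H.Yb_hol i).continuousOn.continuousAt (ball_mem_nhds 0 one_pos)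
    exact ((hc.tendsto.comp ht).norm.eventually (gt_mem_nhds (lt_add_one _))).mono
      fun q hq => hq.le
  have hM0 : 0 < M := by linarith
  refine ⟨H.r ^ 2 / M, by positivity, hev.mono fun q ⟨hq, hY⟩ => ?_⟩
  obtain ⟨-, he1, he0⟩ := H.X5_e i hq
  have he0' : 0 < ‖H.S.e i q‖ := norm_pos_iff.2 he0
  have hw : 0 < ‖H.x q ^ 2 + 1‖ := norm_pos_iff.2 (H.w_ne q)
  have hc : H.r ^ 2 / M ≤ H.r ^ 2 := div_le_self (sq_nonneg _) hM
  have hc0 : 0 < H.r ^ 2 / M := by positivity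
  have hre : ‖(H.r : ℂ) * H.S.e i q‖ = H.r * ‖H.S.e i q‖ := by
    rw [norm_mul, Complex.norm_real, Real.norm_of_nonneg hr.le]
  have hre' : H.r * ‖H.S.e i q‖ ≤ 1 / 4 := by nlinarith
  rw [norm_div, norm_neg, norm_one, norm_mul, Complex.norm_two, mul_one_div,
    div_le_one (by positivity)]
  by_cases hi : i.val < 6
  · have hd : ‖d1 (H.S.e i) q‖ ≤ M / H.r := by
      rw [le_div_iff₀ hr, mul_comm, ← Real.norm_of_nonneg hr.le, ← Complex.norm_real, ← norm_mul,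
        ← H.X5_d_fin i hi hq, (H.fin i hi q hq).2]
      exact hY
    have hd' : H.r ^ 2 / M * ‖d1 (H.S.e i) q‖ ≤ H.r := by
      refine (mul_le_mul_of_nonneg_left hd hc0.le).trans (le_of_eq ?_)
      field_simp
    have hx := (H.fin i hi q hq).1
    by_cases hi' : i.val < 4
    · have ha : aa i - 1 = 1 := by fin_cases i <;> simp_all [aa]
      have hp : xpt i ^ 2 = -1 ∧ ‖xpt i‖ = 1 := by fin_cases i <;> simp_all [xpt]
      have e : H.x q ^ 2 + 1 = H.r * H.S.e i q * (2 * xpt i + H.r * H.S.e i q) := by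
        rw [hx]
        linear_combination hp.1
      have h2 : 1 ≤ ‖2 * xpt i + H.r * H.S.e i q‖ := by
        have := norm_sub_le (2 * xpt i + H.r * H.S.e i q) (H.r * H.S.e i q)
        rw [add_sub_cancel_right, norm_mul, hp.2, Complex.norm_two, hre] at this
        linarith
      have h3 : H.r * ‖H.S.e i q‖ ≤ ‖H.x q ^ 2 + 1‖ := by
        rw [e, norm_mul, hre]
        exact le_mul_of_one_le_right (by positivity) h2
      rw [ha, pow_one]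
      constructor
      · rw [mul_right_comm]
        exact (mul_le_mul_of_nonneg_right hd' he0'.le).trans h3
      · have : H.r ^ 2 / M ≤ H.r := by nlinarith
        nlinarith
    · have ha : aa i - 1 = 0 := by fin_cases i <;> simp_all [aa]
      have hp : xpt i = 0 := by fin_cases i <;> simp_all [xpt]
      rw [hp, zero_add] at hx
      have h2 : 1 / 2 ≤ ‖H.x q ^ 2 + 1‖ := by
        have := norm_sub_le (H.x q ^ 2 + 1) (H.x q ^ 2)
        rw [add_sub_cancel_left, norm_one, norm_pow, hx, hre] at this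
        rw [hx]
        nlinarith [mul_pos hr he0']
      rw [ha, pow_zero, mul_one]
      constructor <;> nlinarith
  · have hi' : 6 ≤ i.val := not_lt.1 hi
    have ha : aa i - 1 = 0 := by fin_cases i <;> simp_all [aa]
    have hx : ‖H.x q‖ * (H.r * ‖H.S.e i q‖) = 1 := by
      rw [← hre, ← norm_mul, (H.inf i hi' q hq).1, norm_one]
    have hd : ‖d1 (H.S.e i) q‖ * ‖H.S.e i q‖ ^ 2 ≤ H.r * M := by
      rw [← norm_pow, ← norm_mul, H.X5_d_inf i hi' hq, norm_neg, norm_mul, Complex.norm_real,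
        Real.norm_of_nonneg hr.le]
      exact mul_le_mul_of_nonneg_left hY hr.le
    have h2 : ‖H.x q‖ ^ 2 ≤ ‖H.x q ^ 2 + 1‖ + 1 := by
      have := norm_sub_le (H.x q ^ 2 + 1) 1
      rwa [add_sub_cancel_right, norm_one, norm_pow] at this
    have h3 : 4 ≤ ‖H.x q‖ := by nlinarith [norm_nonneg (H.x q)]
    have h4 : ‖d1 (H.S.e i) q‖ ≤ H.r ^ 3 * M * ‖H.x q‖ ^ 2 := by
      calc _ = ‖d1 (H.S.e i) q‖ * (‖H.x q‖ * (H.r * ‖H.S.e i q‖)) ^ 2 := by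
            rw [hx, one_pow, mul_one]
        _ = ‖d1 (H.S.e i) q‖ * ‖H.S.e i q‖ ^ 2 * (H.r ^ 2 * ‖H.x q‖ ^ 2) := by ring
        _ ≤ H.r * M * (H.r ^ 2 * ‖H.x q‖ ^ 2) := by gcongr
        _ = _ := by ring
    have h5 : H.r ^ 2 / M * ‖d1 (H.S.e i) q‖ ≤ H.r ^ 5 * ‖H.x q‖ ^ 2 := by
      refine (mul_le_mul_of_nonneg_left h4 hc0.le).trans (le_of_eq ?_)
      field_simp
    have h6 : H.r ^ 5 ≤ 1 / 2 := (pow_le_pow_left₀ hr.le hr' 5).trans (by norm_num)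
    have h7 := mul_le_mul_of_nonneg_right h6 (sq_nonneg ‖H.x q‖)
    have h8 : 16 ≤ ‖H.x q‖ ^ 2 := by nlinarith
    have h9 : H.r ^ 2 ≤ 1 := by nlinarith
    rw [ha, pow_zero, mul_one]
    constructor <;> linarith

end Hyp

/-- the two twisted holomorphic forms -/
theorem exists_xi : ∃ H₀ : ℝ, ∀ s : ℝ, 0 < s → s < 1 / 2 → ∀ H : Hyp s, ∃ ξp ξm : H.S.H,
    ξp ∈ H.S.hd.W ∧ ξm ∈ H.S.hd.W ∧ ‖ξp‖ * ‖ξm‖ ≤ H₀ ∧ Nonempty (H.S.FV aa ξp ξm) ∧
    ∀ᵐ q ∂H.S.lam, H.S.f q * ξp q * ξm q = H.x q * H.y q / (H.x q ^ 2 + 1) := by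
  obtain ⟨C, hC⟩ := plane_int2
  refine ⟨((2 * ∫⁻ z : ℂ, ‖1 / (z * (z ^ 2 + 1))‖ₑ) ^ (1 / 2 : ℝ)).toReal *
    ((2 * (C : ℝ≥0∞)) ^ (1 / 2 : ℝ)).toReal, fun s h0 h1 H => ?_⟩
  have hx2 : Hol fun q => H.x q ^ 2 := fun q =>
    X5_comp (g := fun z => z ^ 2) (by fun_prop) (H.x_hol q)
  have hw : Hol fun q => H.x q ^ 2 + 1 := fun q =>
    X5_comp (g := fun z => z ^ 2 + 1) (by fun_prop) (H.x_hol q)
  obtain ⟨ξp, p1, p2, p3⟩ := H.X5_lp h0 (X5_div H.y_hol H.S.f_hol H.S.f_ne)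
    (g := fun z => 1 / (z * (z ^ 2 + 1))) (by fun_prop) (fun q _ => by
      have := norm_pos_iff.2 (H.S.f_ne q)
      rw [← H.f_eq, norm_div, norm_div, norm_one]
      field_simp) plane_int1.ne le_rfl
  obtain ⟨ξm, m1, m2, m3⟩ := H.X5_lp h0 (X5_div hx2 H.S.f_hol H.S.f_ne)
    (g := fun z => z ^ 3 / ((z ^ 2 + 1) * PP s z)) (by unfold PP; fun_prop) (fun q hq => by
      have a1 := norm_pos_iff.2 (H.x_ne q)
      have a2 := norm_pos_iff.2 (H.w_ne q)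
      have a3 := norm_pos_iff.2 hq
      rw [← H.eqn, H.f_eq]
      simp only [norm_div, norm_mul, norm_pow]
      field_simp) ENNReal.coe_ne_top (hC s h0 h1)
  have key : ∀ᵐ q ∂H.S.lam, H.S.f q * ξp q * ξm q = H.x q * H.y q / (H.x q ^ 2 + 1) := by
    filter_upwards [p3, m3] with q a b
    have a1 := H.x_ne q
    have a2 := H.w_ne q
    rw [a, b, H.f_eq]
    field_simp
  have hg : ∀ q, HasDerivAt (fun z : ℂ => -1 / (2 * (z ^ 2 + 1))) (H.x q / (H.x q ^ 2 + 1) ^ 2)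
      (H.x q) := fun q => by
    have a2 := H.w_ne q
    have h := (hasDerivAt_const (H.x q) (-1 : ℂ)).div
      (((hasDerivAt_pow 2 (H.x q)).add_const 1).const_mul 2) (mul_ne_zero two_ne_zero a2)
    refine h.congr_deriv ?_
    simp only [Nat.cast_ofNat, Nat.add_one_sub_one, pow_one]
    field_simp
    ring
  refine ⟨ξp, ξm, p1, m1, mul_le_mul p2 m2 (norm_nonneg _) ENNReal.toReal_nonneg,
    ⟨⟨fun q => H.x q ^ 2 + 1, fun q => -1 / (2 * (H.x q ^ 2 + 1)), hw,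
      fun q => X5_comp (hg q).differentiableAt (H.x_hol q), H.w_ne, ?_, H.X5_ends h1⟩⟩, key⟩
  filter_upwards [key] with q hq
  have a2 := H.w_ne q
  rw [hq, (d_hol_comp (hg q) (d2_of_hol (H.x_hol q)).1).2.1, H.d1x]
  field_simp

end Pool.Agent.MP_e62289_ag
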