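import Pool.Agent.MP_e62289_ag.X6

open Set Filter Topology Complex MeasureTheory Metric
open scoped Manifold ContDiff ComplexConjugate NNReal ENNReal

namespace Pool.Agent.MP_e62289_ag

theorem x7_top {f : ℝ → ℝ} {t : ℝ} (h : 1 ≤ f t) :
    Real.smoothTransition (f t) = 1 ∧ deriv (fun s => Real.smoothTransition (f s)) t = 0 := by
  have h1 := Real.smoothTransition.one_of_one_le h
  refine ⟨h1, IsLocalMax.deriv_eq_zero (Eventually.of_forall fun s => ?_)⟩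
  change Real.smoothTransition (f s) ≤ Real.smoothTransition (f t)
  rw [h1]
  exact Real.smoothTransition.le_one _

theorem x7_bot {f : ℝ → ℝ} {t : ℝ} (h : f t ≤ 0) :
    Real.smoothTransition (f t) = 0 ∧ deriv (fun s => Real.smoothTransition (f s)) t = 0 := by
  have h1 := Real.smoothTransition.zero_of_nonpos h
  refine ⟨h1, IsLocalMin.deriv_eq_zero (Eventually.of_forall fun s => ?_)⟩
  change Real.smoothTransition (f t) ≤ Real.smoothTransition (f s)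
  rw [h1]
  exact Real.smoothTransition.nonneg _

theorem x7_cA_one {t : ℝ} (h : |t| ≤ 1) : cA t = 1 ∧ deriv cA t = 0 := by
  refine x7_top (f := fun t : ℝ => (4 - t ^ 2) / 3) ?_
  have := (sq_le_one_iff_abs_le_one t).2 h
  change 1 ≤ (4 - t ^ 2) / 3
  linarith

theorem x7_cA_zero {t : ℝ} (h : 2 ≤ |t|) : cA t = 0 ∧ deriv cA t = 0 := by
  refine x7_bot (f := fun t : ℝ => (4 - t ^ 2) / 3) ?_
  have h1 : (2 : ℝ) ^ 2 ≤ |t| ^ 2 := pow_le_pow_left₀ (by norm_num) h 2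
  rw [sq_abs] at h1
  change (4 - t ^ 2) / 3 ≤ 0
  linarith

theorem x7_cZ_one {t : ℝ} (h : t ≤ 1 / 16) : cZ t = 1 ∧ deriv cZ t = 0 := by
  refine x7_top (f := fun t : ℝ => (1 / 4 - t) * (16 / 3)) ?_
  linarith

theorem x7_cZ_zero {t : ℝ} (h : 1 / 4 ≤ t) : cZ t = 0 ∧ deriv cZ t = 0 := by
  refine x7_bot (f := fun t : ℝ => (1 / 4 - t) * (16 / 3)) ?_
  linarith

theorem x7_bdd {f : ℝ → ℝ} (hf : ContDiff ℝ 1 f) {a b : ℝ}
    (h : ∀ t, t ∉ Icc a b → deriv f t = 0) : ∃ C, 0 ≤ C ∧ ∀ t, |deriv f t| ≤ C := by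
  obtain ⟨C, hC⟩ := (hf.continuous_deriv le_rfl).bounded_above_of_compact_support
    (HasCompactSupport.intro isCompact_Icc h)
  exact ⟨C, (norm_nonneg _).trans (hC 0), hC⟩

theorem x7_dA : ∃ C, 0 ≤ C ∧ ∀ t, |deriv cA t| ≤ C := by
  refine x7_bdd (a := -2) (b := 2)
    (Real.smoothTransition.contDiff.comp (f := fun t : ℝ => (4 - t ^ 2) / 3) (by fun_prop))
    fun t ht => (x7_cA_zero ?_).2
  by_contra h
  exact ht (abs_le.1 (not_le.1 h).le)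

theorem x7_dZ : ∃ C, 0 ≤ C ∧ ∀ t, |deriv cZ t| ≤ C := by
  refine x7_bdd (a := 1 / 16) (b := 1 / 4)
    (Real.smoothTransition.contDiff.comp (f := fun t : ℝ => (1 / 4 - t) * (16 / 3)) (by fun_prop))
    fun t ht => ?_
  rcases le_total t (1 / 16) with h | h
  · exact (x7_cZ_one h).2
  · refine (x7_cZ_zero ?_).2
    by_contra h'
    exact ht ⟨h, (not_le.1 h').le⟩

theorem x7_sg (x y : ℂ) : ‖sg x y‖ = 1 ∧ sg x y ^ 2 = 1 := by
  unfold sg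
  split_ifs <;> simp

/-- the abstract lower bound -/
theorem x7_low {w j E R : ℂ} {b : ℝ} (hw : w ≠ 0) (hE : E ≠ 0) (h1 : ‖j - 1‖ ≤ 1 / 32)
    (h2 : ‖j - 1‖ ≤ 1 / 32 * ‖E‖) (h3 : ‖R‖ + b ≤ 3 / 4 * (‖E‖ * ‖w‖)) :
    b < ‖w * (1 - j) + j * E * w + R‖ := by
  have hp : 0 < ‖E‖ * ‖w‖ := mul_pos (norm_pos_iff.2 hE) (norm_pos_iff.2 hw)
  have a1 : 31 / 32 ≤ ‖j‖ := by
    have := norm_sub_norm_le (1 : ℂ) j
    rw [norm_one, norm_sub_rev] at this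
    linarith
  have a2 : ‖j * E * w‖ ≤ ‖w * (1 - j) + j * E * w + R‖ + ‖w * (j - 1)‖ + ‖R‖ := by
    have e : j * E * w = (w * (1 - j) + j * E * w + R) + w * (j - 1) - R := by ring
    conv_lhs => rw [e]
    exact (norm_sub_le _ _).trans (add_le_add_left (norm_add_le _ _) _)
  rw [norm_mul, norm_mul, norm_mul, mul_assoc] at a2
  have a3 := mul_le_mul_of_nonneg_right a1 hp.le
  have a4 := mul_le_mul_of_nonneg_left h2 (norm_nonneg w)
  linarith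

theorem x7_x_le {x : ℂ} (h : 1 / 4 ≤ ‖x ^ 2 + 1‖) :
    ‖x‖ ≤ 5 * ‖x ^ 2 + 1‖ ∧ ‖x ^ 2 - 1‖ ≤ 9 * ‖x ^ 2 + 1‖ := by
  constructor
  · have h1 := norm_sub_le (x ^ 2 + 1) 1
    rw [add_sub_cancel_right, norm_pow, norm_one] at h1
    rcases le_total ‖x‖ (5 / 4) with h2 | h2
    · linarith
    · nlinarith
  · have h1 := norm_sub_le (x ^ 2 + 1) 2
    rw [show x ^ 2 + 1 - 2 = x ^ 2 - 1 by ring, Complex.norm_two] at h1
    linarith

theorem x7_far {x : ℂ} (hx : x ≠ 0) (h : 1 ≤ |Real.log ‖x‖|) : 1 / 2 ≤ ‖x ^ 2 + 1‖ := by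
  have hx0 : 0 < ‖x‖ := norm_pos_iff.2 hx
  rcases le_abs'.1 h with h1 | h1
  · have h2 : ‖x‖ ≤ 1 / 2 := by
      have h3 := Real.add_one_le_exp (-Real.log ‖x‖)
      rw [Real.exp_neg, Real.exp_log hx0] at h3
      have h4 : 2 ≤ ‖x‖⁻¹ := by linarith
      rwa [le_inv_comm₀ (by norm_num) hx0, ← one_div] at h4
    have h3 := norm_sub_le (x ^ 2 + 1) (x ^ 2)
    rw [add_sub_cancel_left, norm_pow, norm_one] at h3
    nlinarith
  · have h2 : 2 ≤ ‖x‖ := by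
      have h3 := Real.add_one_le_exp (Real.log ‖x‖)
      rw [Real.exp_log hx0] at h3
      linarith
    have h3 := norm_sub_le (x ^ 2 + 1) 1
    rw [add_sub_cancel_right, norm_pow, norm_one] at h3
    nlinarith

theorem x7_core {C : ℝ} (hC0 : 0 ≤ C) (hC : ∀ t, |deriv cZ t| ≤ C) {x : ℂ}
    (h : 1 / 4 ≤ ‖x ^ 2 + 1‖) :
    ‖x ^ 3 * ((cZ (‖x ^ 2 + 1‖ ^ 2) : ℂ) + (‖x ^ 2 + 1‖ ^ 2 : ℝ) * deriv cZ (‖x ^ 2 + 1‖ ^ 2))‖ +
      ‖x ^ 2 + 1‖ ^ 2 * |deriv cZ (‖x ^ 2 + 1‖ ^ 2)| * ‖x‖ ^ 3 ≤ (8 + 4 * C) * ‖x ^ 2 + 1‖ := by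
  rcases le_total (1 / 2) ‖x ^ 2 + 1‖ with h1 | h1
  · have h2 := x7_cZ_zero (t := ‖x ^ 2 + 1‖ ^ 2) (by nlinarith)
    rw [h2.1, h2.2]
    simp only [ofReal_zero, mul_zero, add_zero, norm_zero, abs_zero, zero_mul]
    positivity
  · have h2 := norm_sub_le (x ^ 2 + 1) 1
    rw [add_sub_cancel_right, norm_pow, norm_one] at h2
    have h0 := norm_nonneg x
    have h3 : ‖x‖ ≤ 4 / 3 := by nlinarith
    have h4 : ‖x‖ ^ 3 ≤ 2 := by nlinarith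
    have h5 : ‖x ^ 2 + 1‖ ^ 2 ≤ 1 / 4 := by nlinarith [norm_nonneg (x ^ 2 + 1)]
    have h6 : ‖x ^ 2 + 1‖ ^ 2 * |deriv cZ (‖x ^ 2 + 1‖ ^ 2)| ≤ 1 / 4 * C :=
      mul_le_mul h5 (hC _) (abs_nonneg _) (by norm_num)
    have h7 : ‖(cZ (‖x ^ 2 + 1‖ ^ 2) : ℂ) +
        (‖x ^ 2 + 1‖ ^ 2 : ℝ) * deriv cZ (‖x ^ 2 + 1‖ ^ 2)‖ ≤ 1 + 1 / 4 * C := by
      refine (norm_add_le _ _).trans (add_le_add ?_ ?_)
      · rw [norm_real, cZ, Real.norm_of_nonneg (Real.smoothTransition.nonneg _)]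
        exact Real.smoothTransition.le_one _
      · rw [norm_mul, norm_real, norm_real, Real.norm_of_nonneg (sq_nonneg _)]
        exact h6
    rw [norm_mul, norm_pow]
    have h8 := mul_le_mul h4 h7 (norm_nonneg _) (by norm_num)
    have h9 := mul_le_mul h6 h4 (by positivity) (by positivity)
    have h10 := mul_le_mul_of_nonneg_left h (by positivity : 0 ≤ 8 + 4 * C)
    linarith

theorem x7_exp {L : ℝ} (hL : 1 ≤ L) : 3 * Real.exp (-(7 * L)) ≤ 1 / 32 ∧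
    Real.exp (-4 * L) ^ 4 ≤ 1 / 2 := by
  have h1 : (2 : ℝ) ≤ Real.exp L := by linarith [Real.add_one_le_exp L]
  constructor
  · have h2 : (2 : ℝ) ^ 7 ≤ Real.exp (7 * L) := by
      rw [show 7 * L = (7 : ℕ) * L by norm_num, Real.exp_nat_mul]
      exact pow_le_pow_left₀ (by norm_num) h1 7
    rw [Real.exp_neg]
    have h3 := inv_anti₀ (by norm_num) h2
    norm_num at h3 ⊢
    linarith
  · rw [← Real.exp_nat_mul]
    have h2 : Real.exp ((4 : ℕ) * (-4 * L)) ≤ Real.exp (-L) :=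
      Real.exp_le_exp.2 (by push_cast; linarith)
    have h3 := inv_anti₀ (by norm_num) h1
    rw [Real.exp_neg] at h2
    norm_num at h3
    linarith

theorem x7_E {u σ : ℂ} (hσ : ‖σ‖ = 1) {a : ℝ} (h0 : 0 ≤ a) (h1 : a ≤ 1) :
    Real.exp (-‖u‖ / 2) ≤ ‖exp (u * σ * a / 2)‖ := by
  rw [Complex.norm_exp]
  refine Real.exp_le_exp.2 ?_
  have h2 := (abs_le.1 (abs_re_le_norm (u * σ * a / 2))).1
  rw [norm_div, norm_mul, norm_mul, hσ, norm_real, Real.norm_of_nonneg h0, Complex.norm_two] at h2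
  have h3 := mul_le_mul_of_nonneg_left h1 (norm_nonneg u)
  linarith

/-- the behaviour of `j` near the zeros of `x ^ 2 + 1` -/
theorem x7_near {S : ℝ} (hS0 : 0 ≤ S) (hS : S ≤ 1 / 2) {x j : ℂ} (hw : ‖x ^ 2 + 1‖ ≤ 1 / 4)
    (hj : ‖j - 1‖ ≤ 1) (h : (j * x ^ 2) ^ 2 = (x ^ 4 - S) * (1 - S * x ^ 4)) :
    ‖x * (1 + j * (1 - (S : ℂ))⁻¹ * x ^ 2)‖ ≤ 26 * ‖x ^ 2 + 1‖ := by
  have h0 := norm_nonneg x
  have w0 := norm_nonneg (x ^ 2 + 1)
  have h1 := norm_sub_le (x ^ 2 + 1) 1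
  rw [add_sub_cancel_right, norm_pow, norm_one] at h1
  have h2 := norm_sub_le (x ^ 2 + 1) (x ^ 2)
  rw [add_sub_cancel_left, norm_pow, norm_one] at h2
  have h3 := norm_sub_le (x ^ 2 + 1) 2
  rw [show x ^ 2 + 1 - 2 = x ^ 2 - 1 by ring, Complex.norm_two] at h3
  have e : (j - (1 - S)) * (j + (1 - S)) * (x ^ 2) ^ 2 =
      -S * ((x ^ 2 + 1) ^ 2 * (x ^ 2 - 1) ^ 2) := by linear_combination h
  have h4 : 1 / 2 ≤ ‖j + (1 - S)‖ := by
    have a1 := re_le_norm (j + (1 - S))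
    have a2 := (abs_le.1 ((abs_re_le_norm (j - 1)).trans hj)).1
    simp only [add_re, sub_re, one_re, ofReal_re] at a1 a2
    linarith
  have h5 : ‖j - (1 - S)‖ ≤ 9 / 2 * ‖x ^ 2 + 1‖ := by
    have a1 := congrArg norm e
    simp only [norm_mul, norm_pow, norm_neg, norm_real, Real.norm_of_nonneg hS0] at a1
    have a2 : (3 / 4 : ℝ) ^ 2 ≤ (‖x‖ ^ 2) ^ 2 := pow_le_pow_left₀ (by norm_num) (by linarith) 2
    have a3 : ‖x ^ 2 - 1‖ ^ 2 ≤ (9 / 4) ^ 2 := pow_le_pow_left₀ (norm_nonneg _) (by linarith) 2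
    have a4 : ‖x ^ 2 + 1‖ ^ 2 ≤ 1 / 4 * ‖x ^ 2 + 1‖ := by nlinarith
    have a5 := mul_le_mul hS (mul_le_mul a4 a3 (by positivity) (by positivity)) (by positivity)
      (by norm_num)
    have a6 := mul_le_mul (mul_le_mul_of_nonneg_left h4 (norm_nonneg (j - (1 - S)))) a2
      (by norm_num) (by positivity)
    linarith
  have h6 : (1 - (S : ℂ)) ≠ 0 := by
    have : (1 - S : ℝ) ≠ 0 := by linarith
    exact_mod_cast this
  have h7 : ‖(1 - (S : ℂ))⁻¹‖ ≤ 2 := by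
    rw [norm_inv, ← ofReal_one, ← ofReal_sub, norm_real, Real.norm_of_nonneg (by linarith)]
    exact inv_le_of_inv_le₀ (by norm_num) (by linarith)
  have e2 : 1 + j * (1 - (S : ℂ))⁻¹ * x ^ 2 =
      (x ^ 2 + 1) + (j - (1 - S)) * (1 - (S : ℂ))⁻¹ * x ^ 2 := by
    field_simp
    ring
  have h8 : ‖1 + j * (1 - (S : ℂ))⁻¹ * x ^ 2‖ ≤ 13 * ‖x ^ 2 + 1‖ := by
    rw [e2]
    refine (norm_add_le _ _).trans ?_
    rw [norm_mul, norm_mul, norm_pow]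
    have a1 := mul_le_mul (mul_le_mul h5 h7 (norm_nonneg _) (by positivity))
      (show ‖x‖ ^ 2 ≤ 5 / 4 by linarith) (by positivity) (by positivity)
    linarith
  have h9 : ‖x‖ ≤ 2 := by nlinarith
  rw [norm_mul]
  have a1 := mul_le_mul h9 h8 (norm_nonneg _) (by norm_num)
  linarith

theorem x7_A {L : ℝ} (hL : 1 ≤ L) {x : ℂ} (hx : x ≠ 0) (u r y : ℂ) :
    x ^ 2 + 1 + r * x + K1 L u r x y * y =
      (x ^ 2 + 1) * (1 - sg x y * y / x ^ 2) +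
        sg x y * y / x ^ 2 * exp (u * sg x y * cA (Real.log ‖x‖ / L) / 2) * (x ^ 2 + 1) +
      (r * x + sg x y * y / x ^ 2 * (exp (u * sg x y * cA (Real.log ‖x‖ / L) / 2) *
          (u * sg x y * deriv cA (Real.log ‖x‖ / L) / (4 * L)) * (x ^ 2 - 1)) +
        sg x y * y / x ^ 2 * (r * (1 - (Real.exp (-4 * L) : ℂ) ^ 4)⁻¹ * (x ^ 3 *
          (cZ (‖x ^ 2 + 1‖ ^ 2) + (‖x ^ 2 + 1‖ ^ 2 : ℝ) * deriv cZ (‖x ^ 2 + 1‖ ^ 2))))) := by
  have hL0 : (L : ℂ) ≠ 0 := by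
    have : L ≠ 0 := by linarith
    exact_mod_cast this
  rw [K1, div_eq_mul_inv r]
  generalize (1 - (Real.exp (-4 * L) : ℂ) ^ 4)⁻¹ = J
  generalize exp (u * sg x y * cA (Real.log ‖x‖ / L) / 2) = E
  generalize ((cZ (‖x ^ 2 + 1‖ ^ 2) : ℂ) +
    (‖x ^ 2 + 1‖ ^ 2 : ℝ) * deriv cZ (‖x ^ 2 + 1‖ ^ 2)) = Z
  generalize (deriv cA (Real.log ‖x‖ / L) : ℝ) = a
  field_simp
  ring

theorem x7_B {L : ℝ} (hL : 1 ≤ L) {x : ℂ} (hx : x ≠ 0) (u r y : ℂ) :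
    ‖K2 L u r x y * conj y‖ ≤ ‖sg x y * y / x ^ 2‖ *
      (‖exp (u * sg x y * cA (Real.log ‖x‖ / L) / 2) *
          (u * sg x y * deriv cA (Real.log ‖x‖ / L) / (4 * L)) * (x ^ 2 - 1)‖ +
        ‖r‖ * ‖(1 - (Real.exp (-4 * L) : ℂ) ^ 4)⁻¹‖ *
          (‖x ^ 2 + 1‖ ^ 2 * |deriv cZ (‖x ^ 2 + 1‖ ^ 2)| * ‖x‖ ^ 3)) := by
  have hL0 : (L : ℂ) ≠ 0 := by
    have : L ≠ 0 := by linarith
    exact_mod_cast this
  have hx' : conj x ≠ 0 := (map_ne_zero _).2 hx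
  rw [norm_mul, RCLike.norm_conj, ← norm_mul, K2, div_eq_mul_inv r]
  generalize (1 - (Real.exp (-4 * L) : ℂ) ^ 4)⁻¹ = J
  generalize exp (u * sg x y * cA (Real.log ‖x‖ / L) / 2) = E
  generalize (deriv cA (Real.log ‖x‖ / L) : ℝ) = a
  generalize (deriv cZ (‖x ^ 2 + 1‖ ^ 2) : ℝ) = z
  have e : sg x y * (E * (u * sg x y * a / (4 * L * conj x)) * (x - 1 / x) +
      r * J * (x ^ 2 + 1) ^ 2 * z * conj x) * y = sg x y * y / x ^ 2 *
      (E * (u * sg x y * a / (4 * L)) * (x ^ 2 - 1) * (x / conj x) +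
        r * J * ((x ^ 2 + 1) ^ 2 * z * (conj x * x ^ 2))) := by
    field_simp
  rw [e, norm_mul]
  refine mul_le_mul_of_nonneg_left ((norm_add_le _ _).trans (le_of_eq ?_)) (norm_nonneg _)
  congr 1
  · rw [norm_mul _ (x / conj x), norm_div, RCLike.norm_conj, div_self (norm_ne_zero_iff.2 hx),
      mul_one]
  · simp only [norm_mul, norm_pow, RCLike.norm_conj, norm_real, Real.norm_eq_abs]
    ring

/-- the deformed forms define complex structures -/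
theorem K_pos : ∃ c ε L₀ : ℝ, 0 < c ∧ c ≤ 1 ∧ 0 < ε ∧ 1 ≤ L₀ ∧ ∀ L, L₀ ≤ L → ∀ x y u r : ℂ,
    y ^ 2 = PP (Real.exp (-4 * L)) x → x ≠ 0 → x ^ 2 + 1 ≠ 0 → ‖u‖ < c * L →
    ‖r‖ < ε * Real.exp (-‖u‖ / 2) →
    ‖K2 L u r x y * conj y‖ < ‖x ^ 2 + 1 + r * x + K1 L u r x y * y‖ := by
  obtain ⟨C1, hC1, hA⟩ := x7_dA
  obtain ⟨C2, hC2, hZ⟩ := x7_dZ
  have hc : 1 / (36 * C1 + 1) ≤ 1 := by
    rw [div_le_one (by positivity)]
    linarith
  have hc' : 1 / (36 * C1 + 1) * C1 ≤ 1 / 36 := by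
    rw [div_mul_eq_mul_div, div_le_iff₀ (by positivity)]
    linarith
  have hε : 1 / (80 + 32 * C2) * (40 + 16 * C2) = 1 / 2 := by
    field_simp
    ring
  refine ⟨1 / (36 * C1 + 1), 1 / (80 + 32 * C2), 1, by positivity, hc, by positivity, le_rfl,
    fun L hL x y u r h hx hw hu hr => ?_⟩
  have hc0 : 0 ≤ 1 / (36 * C1 + 1) := by positivity
  have hε0 : 0 ≤ 1 / (80 + 32 * C2) := by positivity
  generalize 1 / (36 * C1 + 1) = c at hc hc' hu hc0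
  generalize 1 / (80 + 32 * C2) = ε at hε hr hε0
  have hεC := mul_nonneg hε0 hC2
  have hL0 : 0 < L := by linarith
  have hw0 := norm_pos_iff.2 hw
  obtain ⟨hσ, hσ2⟩ := x7_sg x y
  obtain ⟨he1, he2⟩ := x7_exp hL
  have hB := x7_B hL hx u r y
  rw [x7_A hL hx]
  have hE := x7_E (u := u) hσ (a := cA (Real.log ‖x‖ / L)) (Real.smoothTransition.nonneg _)
    (Real.smoothTransition.le_one _)
  have hrE := hr.le.trans (mul_le_mul_of_nonneg_left hE hε0)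
  rcases le_total (2 * L) |Real.log ‖x‖| with hl | hl
  · have h1 := x7_cA_zero (t := Real.log ‖x‖ / L)
      (by rwa [abs_div, abs_of_pos hL0, le_div_iff₀ hL0])
    have h2 := x7_far hx (by linarith)
    have h3 := x7_cZ_zero (t := ‖x ^ 2 + 1‖ ^ 2) (by nlinarith)
    have h4 := (x7_x_le (x := x) (by linarith)).1
    rw [h1.1, h1.2, h3.2] at hB
    rw [h1.1] at hrE
    rw [h1.1, h1.2, h3.1, h3.2]
    simp only [ofReal_zero, mul_zero, zero_div, zero_mul, norm_zero, abs_zero, add_zero, exp_zero,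
      mul_one, norm_one] at hB hrE ⊢
    refine hB.trans_lt ?_
    have h5 := norm_sub_le ((x ^ 2 + 1) * (1 - sg x y * y / x ^ 2) +
      sg x y * y / x ^ 2 * (x ^ 2 + 1) + r * x) (r * x)
    rw [show (x ^ 2 + 1) * (1 - sg x y * y / x ^ 2) + sg x y * y / x ^ 2 * (x ^ 2 + 1) + r * x -
      r * x = x ^ 2 + 1 by ring, norm_mul r] at h5
    have h6 := mul_le_mul (show ‖r‖ ≤ 1 / 80 by linarith) h4 (norm_nonneg _) (by norm_num)
    linarith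
  have hj := (sheet hL h hx (by linarith)).2
  have hj1 : ‖sg x y * y / x ^ 2 - 1‖ ≤ 3 * Real.exp (-(7 * L)) * Real.exp (-L) := by
    rw [mul_assoc, ← Real.exp_add]
    exact hj.trans (mul_le_mul_of_nonneg_left (Real.exp_le_exp.2 (by linarith)) (by norm_num))
  have hj2 : ‖sg x y * y / x ^ 2 - 1‖ ≤ 1 / 32 * Real.exp (-L) :=
    hj1.trans (mul_le_mul_of_nonneg_right he1 (Real.exp_pos _).le)
  have hj3 : ‖sg x y * y / x ^ 2 - 1‖ ≤ 1 / 32 := by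
    have := Real.exp_le_one_iff.2 (show -L ≤ 0 by linarith)
    linarith
  have hj4 : ‖sg x y * y / x ^ 2 - 1‖ ≤
      1 / 32 * ‖exp (u * sg x y * cA (Real.log ‖x‖ / L) / 2)‖ := by
    have a1 := mul_le_mul_of_nonneg_right hc hL0.le
    have a2 := Real.exp_le_exp.2 (show -L ≤ -‖u‖ / 2 by linarith)
    linarith
  have hy : (sg x y * y / x ^ 2 * x ^ 2) ^ 2 = (x ^ 4 - (Real.exp (-4 * L) ^ 4 : ℝ)) *
      (1 - (Real.exp (-4 * L) ^ 4 : ℝ) * x ^ 4) := by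
    rw [div_mul_cancel₀ _ (pow_ne_zero 2 hx), mul_pow, hσ2, one_mul, h, PP, ofReal_pow]
  have hj5 : ‖sg x y * y / x ^ 2‖ ≤ 2 := by
    have := norm_sub_norm_le (sg x y * y / x ^ 2) 1
    rw [norm_one] at this
    linarith
  refine x7_low hw (exp_ne_zero _) hj3 hj4 ?_
  have hJ : ‖(1 - (Real.exp (-4 * L) : ℂ) ^ 4)⁻¹‖ ≤ 2 := by
    rw [norm_inv, ← ofReal_pow, ← ofReal_one, ← ofReal_sub, norm_real,
      Real.norm_of_nonneg (by linarith)]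
    exact inv_le_of_inv_le₀ (by norm_num) (by linarith)
  have hE0 := norm_nonneg (exp (u * sg x y * cA (Real.log ‖x‖ / L) / 2))
  have hEw := mul_nonneg hE0 hw0.le
  rcases le_total ‖x ^ 2 + 1‖ (1 / 4) with hs | hs
  · have h0 : |Real.log ‖x‖| ≤ 1 := by
      by_contra h'
      have := x7_far hx (not_le.1 h').le
      linarith
    have h1 := x7_cA_one (t := Real.log ‖x‖ / L)
      (by rw [abs_div, abs_of_pos hL0, div_le_one hL0]; linarith)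
    have h3 := x7_cZ_one (t := ‖x ^ 2 + 1‖ ^ 2) (by nlinarith)
    have h4 := x7_near (by positivity) he2 hs (by linarith) hy
    rw [ofReal_pow] at h4
    rw [h1.2, h3.2] at hB
    rw [h1.2, h3.1, h3.2]
    simp only [ofReal_zero, mul_zero, zero_div, zero_mul, norm_zero, abs_zero, add_zero,
      mul_one, ofReal_one] at hB ⊢
    rw [show r * x + sg x y * y / x ^ 2 * (r * (1 - (Real.exp (-4 * L) : ℂ) ^ 4)⁻¹ * x ^ 3) =
      r * (x * (1 + sg x y * y / x ^ 2 * (1 - (Real.exp (-4 * L) : ℂ) ^ 4)⁻¹ * x ^ 2)) by ring,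
      norm_mul r]
    have h5 := mul_le_mul hrE h4 (norm_nonneg _) (mul_nonneg hε0 hE0)
    have h6 := mul_le_mul_of_nonneg_right (show ε ≤ 1 / 80 by linarith) hEw
    linarith
  · obtain ⟨h1, h2⟩ := x7_x_le hs
    have h3 := x7_core hC2 hZ hs
    have h4 : ‖u * sg x y * deriv cA (Real.log ‖x‖ / L) / (4 * L)‖ ≤ 1 / 144 := by
      rw [norm_div, norm_mul, norm_mul, norm_mul, hσ, norm_real, norm_real, Real.norm_eq_abs,
        Real.norm_of_nonneg hL0.le, Complex.norm_ofNat, div_le_iff₀ (by positivity)]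
      have a1 := mul_le_mul hu.le (hA (Real.log ‖x‖ / L)) (abs_nonneg _) (by positivity)
      have a2 := mul_le_mul_of_nonneg_right hc' hL0.le
      linarith
    have h5 : ‖exp (u * sg x y * cA (Real.log ‖x‖ / L) / 2) *
        (u * sg x y * deriv cA (Real.log ‖x‖ / L) / (4 * L)) * (x ^ 2 - 1)‖ ≤
        1 / 16 * (‖exp (u * sg x y * cA (Real.log ‖x‖ / L) / 2)‖ * ‖x ^ 2 + 1‖) := by
      rw [norm_mul, norm_mul]
      have a1 := mul_le_mul (mul_le_mul_of_nonneg_left h4 hE0) h2 (norm_nonneg _) (by positivity)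
      linarith
    refine (add_le_add ((norm_add_le _ _).trans (add_le_add_left (norm_add_le _ _) _)) hB).trans ?_
    rw [norm_mul r x, norm_mul (sg x y * y / x ^ 2), norm_mul (sg x y * y / x ^ 2),
      norm_mul (r * _), norm_mul r]
    generalize ‖exp (u * sg x y * cA (Real.log ‖x‖ / L) / 2) *
        (u * sg x y * deriv cA (Real.log ‖x‖ / L) / (4 * L)) * (x ^ 2 - 1)‖ = P at h5 ⊢
    generalize hZ1 : ‖x ^ 3 * ((cZ (‖x ^ 2 + 1‖ ^ 2) : ℂ) +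
      (‖x ^ 2 + 1‖ ^ 2 : ℝ) * deriv cZ (‖x ^ 2 + 1‖ ^ 2))‖ = Z1 at h3 ⊢
    generalize hZ2 : ‖x ^ 2 + 1‖ ^ 2 * |deriv cZ (‖x ^ 2 + 1‖ ^ 2)| * ‖x‖ ^ 3 = Z2 at h3 ⊢
    have hZ0 : 0 ≤ Z1 + Z2 := by
      rw [← hZ1, ← hZ2]
      positivity
    have a1 := mul_le_mul hrE h1 (norm_nonneg _) (mul_nonneg hε0 hE0)
    have a3 := mul_le_mul hj5 (mul_le_mul (mul_le_mul hrE hJ (norm_nonneg _) (mul_nonneg hε0 hE0))
      h3 hZ0 (by positivity)) (by positivity) (by norm_num)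
    have a4 := mul_le_mul_of_nonneg_right hε.le hEw
    have a5 := mul_nonneg hε0 hEw
    have a6 : ‖sg x y * y / x ^ 2‖ * P ≤
        2 * (1 / 16 * (‖exp (u * sg x y * cA (Real.log ‖x‖ / L) / 2)‖ * ‖x ^ 2 + 1‖)) :=
      (mul_le_mul_of_nonneg_left h5 (norm_nonneg _)).trans
        (mul_le_mul_of_nonneg_right hj5 (by positivity))
    linarith

end Pool.Agent.MP_e62289_ag
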