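import Pool.Agent.MP_e62289_ag.X6

open Set Filter Topology Complex MeasureTheory Metric
open scoped Manifold ContDiff ComplexConjugate NNReal ENNReal

namespace Pool.Agent.MP_e62289_ag

theorem X8_loc {f : ℝ → ℝ} {U : Set ℝ} (hU : IsOpen U) {c t : ℝ} (h : ∀ x ∈ U, f x = c)
    (ht : t ∈ U) : f t = c ∧ deriv f t = 0 :=
  ⟨h t ht, by
    rw [EventuallyEq.deriv_eq (f := fun _ => c) (mem_of_superset (hU.mem_nhds ht) h), deriv_const]⟩

theorem X8_cA1 {t : ℝ} (h : t ^ 2 < 1) : cA t = 1 ∧ deriv cA t = 0 :=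
  X8_loc (U := {x | x ^ 2 < 1}) (isOpen_lt (by fun_prop) (by fun_prop))
    (fun x (hx : x ^ 2 < 1) => Real.smoothTransition.one_of_one_le (by linarith)) h

theorem X8_cA0 {t : ℝ} (h : 4 < t ^ 2) : cA t = 0 ∧ deriv cA t = 0 :=
  X8_loc (U := {x | 4 < x ^ 2}) (isOpen_lt (by fun_prop) (by fun_prop))
    (fun x (hx : 4 < x ^ 2) => Real.smoothTransition.zero_of_nonpos (by linarith)) h

theorem X8_cZ1 {t : ℝ} (h : t < 1 / 16) : cZ t = 1 ∧ deriv cZ t = 0 :=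
  X8_loc (U := Iio (1 / 16)) isOpen_Iio
    (fun x (hx : x < 1 / 16) => Real.smoothTransition.one_of_one_le (by linarith)) h

theorem X8_cZ0 {t : ℝ} (h : 1 / 4 < t) : cZ t = 0 ∧ deriv cZ t = 0 :=
  X8_loc (U := Ioi (1 / 4)) isOpen_Ioi
    (fun x (hx : 1 / 4 < x) => Real.smoothTransition.zero_of_nonpos (by linarith)) h

variable {L : ℝ}

theorem X8_s (hL : 1 ≤ L) : Real.exp (-4 * L) ≤ 1 / 16 := by
  have h1 : (2 : ℝ) ^ 4 ≤ Real.exp 1 ^ 4 :=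
    pow_le_pow_left₀ (by norm_num) (by linarith [Real.add_one_le_exp 1]) 4
  rw [Real.exp_one_pow] at h1
  have h2 : Real.exp ((4 : ℕ) : ℝ) ≤ Real.exp (4 * L) := Real.exp_le_exp.2 (by push_cast; linarith)
  rw [neg_mul, Real.exp_neg, one_div]
  exact inv_anti₀ (by norm_num) (by linarith)

theorem X8_far (hL : 1 ≤ L) {x : ℂ} (h1 : 4 * L < |Real.log ‖x‖|) (h2 : 1 / 2 < ‖x ^ 2 + 1‖)
    (u t y : ℂ) : K2 L u t x y = 0 ∧ K1 L u t x y = 0 := by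
  have hA := X8_cA0 (t := Real.log ‖x‖ / L) (by
    rw [div_pow, lt_div_iff₀ (by positivity), ← sq_abs (Real.log _)]; nlinarith)
  have hZ := X8_cZ0 (t := ‖x ^ 2 + 1‖ ^ 2) (by nlinarith)
  simp [K1, K2, hA.1, hA.2, hZ.1, hZ.2]

theorem X8_log {a x : ℂ} (ha : a ^ 2 = -1) (h : ‖x - a‖ < 1 / 32) :
    x ≠ 0 ∧ |Real.log ‖x‖| < 1 ∧ ‖x ^ 2 + 1‖ ^ 2 < 1 / 16 := by
  have h0 : ‖a‖ = 1 := by
    have := congrArg norm ha
    rw [norm_pow, norm_neg, norm_one] at this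
    nlinarith [norm_nonneg a]
  have h1 := abs_lt.1 ((abs_norm_sub_norm_le x a).trans_lt h)
  have h2 : 0 < ‖x‖ := by linarith
  refine ⟨norm_pos_iff.1 h2, abs_lt.2 ⟨?_, ?_⟩, ?_⟩
  · have h3 := Real.one_sub_inv_le_log_of_pos h2
    have h4 : ‖x‖⁻¹ < 2 := by rw [inv_lt_comm₀ h2 (by norm_num)]; linarith
    linarith
  · linarith [Real.log_le_sub_one_of_pos h2]
  · have h3 : x ^ 2 + 1 = (x - a) * (x + a) := by linear_combination ha
    have h4 := norm_add_le x a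
    have h5 : ‖x ^ 2 + 1‖ ≤ 1 / 32 * 3 := by
      rw [h3, norm_mul]
      exact mul_le_mul h.le (by linarith) (norm_nonneg _) (by norm_num)
    nlinarith [norm_nonneg (x ^ 2 + 1)]

theorem X8_near (hL : 1 ≤ L) {a x : ℂ} (ha : a ^ 2 = -1) (h : ‖x - a‖ < 1 / 32) (u t y : ℂ) :
    K2 L u t x y = 0 ∧ K1 L u t x y = sg x y * ((exp (u * sg x y / 2) - 1) * (1 + 1 / x ^ 2) +
      t / (1 - (Real.exp (-4 * L) : ℂ) ^ 4) * x) := by
  obtain ⟨_, h1, h2⟩ := X8_log ha h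
  have hA := X8_cA1 (t := Real.log ‖x‖ / L) (by
    rw [div_pow, div_lt_one (by positivity), ← sq_abs (Real.log _)]
    nlinarith [abs_nonneg (Real.log ‖x‖)])
  have hZ := X8_cZ1 h2
  rw [K1, K2, hA.1, hA.2, hZ.1, hZ.2]
  simp

namespace Hyp

variable {s : ℝ} (H : Hyp s)

theorem X8_ball {i : Fin 8} {q : H.S.Y} (hq : q ∈ (H.S.e i).source) :
    H.S.e i q ∈ ball (0 : ℂ) 1 ∧ H.S.e i q ≠ 0 := by
  have := (H.S.e i).map_source hq
  rwa [H.S.e_target] at this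

theorem X8_d {i : Fin 8} {q : H.S.Y} (hq : q ∈ (H.S.e i).source) {g : ℂ → ℂ} {c : ℂ}
    (hg : HasDerivAt g c (H.S.e i q)) (h : ∀ q ∈ (H.S.e i).source, H.x q = g (H.S.e i q)) :
    H.y q = c * d1 (H.S.e i) q := by
  rw [← H.d1x, ← (d_hol_comp hg (d2_of_hol ((coord_hol (H.S.e_hol i)).1 q hq).1).1).2.1]
  exact (d_congr (mem_of_superset ((H.S.e i).open_source.mem_nhds hq) h)).1

theorem X8_fin {i : Fin 8} (hi : i.val < 6) {q : H.S.Y} (hq : q ∈ (H.S.e i).source) :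
    H.Yb i (H.S.e i q) = H.r * d1 (H.S.e i) q := by
  rw [← (H.fin i hi q hq).2]
  refine H.X8_d hq (g := fun z => xpt i + H.r * z) ?_ fun q hq => (H.fin i hi q hq).1
  simpa using ((hasDerivAt_id (H.S.e i q)).const_mul (H.r : ℂ)).const_add (xpt i)

theorem X8_inf {i : Fin 8} (hi : 6 ≤ i.val) {q : H.S.Y} (hq : q ∈ (H.S.e i).source) :
    H.y q = -H.r / (H.r * H.S.e i q) ^ 2 * d1 (H.S.e i) q := by
  refine H.X8_d hq (g := fun z => (H.r * z)⁻¹) ?_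
    fun q hq => eq_inv_of_mul_eq_one_left (H.inf i hi q hq).1
  have h0 : (H.r : ℂ) * H.S.e i q ≠ 0 := right_ne_zero_of_mul_eq_one (H.inf i hi q hq).1
  have := ((hasDerivAt_id (H.S.e i q)).const_mul (H.r : ℂ)).inv h0
  rwa [mul_one] at this

theorem X8_norm {z : ℂ} (hz : z ∈ ball (0 : ℂ) 1) : ‖(H.r : ℂ) * z‖ < s / 2 := by
  rw [norm_mul, norm_real, Real.norm_of_nonneg H.r_pos.le]
  nlinarith [mem_ball_zero_iff.1 hz, H.r_pos, H.r_le]

theorem X8_sq {i : Fin 8} (hi : i.val < 6) {z : ℂ} (hz : z ∈ ball (0 : ℂ) 1) :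
    H.Yb i z ^ 2 = PP s (xpt i + H.r * z) := by
  have key : ∀ z ∈ ball (0 : ℂ) 1, z ≠ 0 → H.Yb i z ^ 2 = PP s (xpt i + H.r * z) := by
    intro z hz h0
    have h1 : z ∈ (H.S.e i).target := by rw [H.S.e_target]; exact ⟨hz, h0⟩
    have h2 := H.fin i hi _ ((H.S.e i).map_target h1)
    rw [(H.S.e i).right_inv h1] at h2
    rw [← h2.1, ← h2.2, H.eqn]
  by_cases h0 : z = 0
  swap
  · exact key z hz h0
  subst h0
  have c1 : ContinuousAt (fun z => H.Yb i z ^ 2) 0 :=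
    ((H.Yb_hol i).continuousOn.continuousAt (ball_mem_nhds _ one_pos)).pow 2
  have c2 : ContinuousAt (fun z : ℂ => PP s (xpt i + H.r * z)) 0 := by unfold PP; fun_prop
  refine tendsto_nhds_unique (l := 𝓝[≠] 0) (c1.tendsto.mono_left nhdsWithin_le_nhds)
    ((c2.tendsto.mono_left nhdsWithin_le_nhds).congr' ?_)
  filter_upwards [self_mem_nhdsWithin, mem_nhdsWithin_of_mem_nhds (ball_mem_nhds (0 : ℂ) one_pos)]
    with w h1 h2 using (key w h2 h1).symm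

theorem X8_Yb (i : Fin 8) : DifferentiableOn ℂ (fun p : ℂ × P2 => H.Yb i p.1) (ball 0 1 ×ˢ univ) :=
  (H.Yb_hol i).comp differentiableOn_fst fun _ h => h.1

end Hyp

theorem X8_an {Φ : ℂ × P2 → ℂ} (h : DifferentiableOn ℂ Φ (ball 0 1 ×ˢ univ)) (t : P2) :
    AnalyticAt ℂ (fun z => Φ (z, t)) 0 :=
  DifferentiableOn.analyticAt (s := ball 0 1)
    (h.comp (f := fun z => (z, t)) (by fun_prop) fun _ hz => ⟨hz, trivial⟩)
    (ball_mem_nhds _ one_pos)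

theorem X8_div {f g : ℂ × P2 → ℂ} {s : Set (ℂ × P2)} (hf : DifferentiableOn ℂ f s)
    (hg : DifferentiableOn ℂ g s) (h : ∀ p ∈ s, g p ≠ 0) :
    DifferentiableOn ℂ (fun p => f p / g p) s := by
  simp only [div_eq_mul_inv]
  exact hf.mul (hg.inv h)

/-- the statement at one end -/
def X8P (H : Hyp (Real.exp (-4 * L))) (i : Fin 8) (k : ℕ) : Prop :=
  ∃ Φ : ℂ × P2 → ℂ, DifferentiableOn ℂ Φ (ball 0 1 ×ˢ univ) ∧
    (∀ (t : P2), ∀ q ∈ (H.S.e i).source, K2 L (t 0) (t 1) (H.x q) (H.y q) = 0 ∧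
      H.x q ^ 2 + 1 + t 1 * H.x q + K1 L (t 0) (t 1) (H.x q) (H.y q) * H.y q =
        Φ (H.S.e i q, t) * d1 (H.S.e i) q) ∧
    ∀ t ∈ DD 1 (1 / 2) L, analyticOrderAt (fun z => Φ (z, t)) 0 = (k : ℕ∞)

theorem X8_zero (hL : 1 ≤ L) (H : Hyp (Real.exp (-4 * L))) {i : Fin 8} (hi : i.val < 6)
    (h0 : xpt i = 0) : X8P H i 0 := by
  have hr : (H.r : ℂ) ≠ 0 := ofReal_ne_zero.2 H.r_pos.ne'
  refine ⟨fun p => H.r * ((H.r * p.1) ^ 2 + 1 + p.2 1 * (H.r * p.1)) / H.Yb i p.1,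
    X8_div (by fun_prop) (H.X8_Yb i) fun p hp => H.Yb_ne i _ hp.1,
    fun t q hq => ?_, fun t _ => analyticOrderAt_eq_zero.2 (Or.inr ?_)⟩
  · have h1 := (H.fin i hi q hq).1
    rw [h0, zero_add] at h1
    have h2 := H.X8_norm (H.X8_ball hq).1
    rw [← h1] at h2
    have h3 := X8_s hL
    have h4 := norm_pos_iff.2 (H.x_ne q)
    have h5 : Real.log ‖H.x q‖ < -4 * L := by
      rw [Real.log_lt_iff_lt_exp h4]; linarith [Real.exp_pos (-4 * L)]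
    have h6 := X8_far hL (x := H.x q) (by rw [lt_abs]; right; linarith) (by
      have := norm_sub_norm_le (1 : ℂ) (-H.x q ^ 2)
      rw [norm_neg, norm_pow, norm_one, sub_neg_eq_add, add_comm] at this
      nlinarith) (t 0) (t 1) (H.y q)
    refine ⟨h6.1, ?_⟩
    have h7 := H.Yb_ne i _ (H.X8_ball hq).1
    rw [h6.2, h1]
    field_simp
    rw [H.X8_fin hi hq]
    ring
  · simpa [hr] using H.Yb_ne i 0 (mem_ball_self one_pos)

theorem X8_infty (hL : 1 ≤ L) (H : Hyp (Real.exp (-4 * L))) {i : Fin 8} (hi : 6 ≤ i.val) :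
    X8P H i 0 := by
  have hr : (H.r : ℂ) ≠ 0 := ofReal_ne_zero.2 H.r_pos.ne'
  refine ⟨fun p => -((H.r : ℂ) ^ 3)⁻¹ * (1 + (H.r * p.1) ^ 2 + p.2 1 * (H.r * p.1)) / H.Yb i p.1,
    X8_div (by fun_prop) (H.X8_Yb i) fun p hp => H.Yb_ne i _ hp.1,
    fun t q hq => ?_, fun t _ => analyticOrderAt_eq_zero.2 (Or.inr ?_)⟩
  · obtain ⟨h1, h1'⟩ := H.inf i hi q hq
    obtain ⟨b1, b2⟩ := H.X8_ball hq
    have h2 := H.X8_norm b1
    have h3 := X8_s hL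
    have h4 := norm_pos_iff.2 (H.x_ne q)
    have h8 : ‖H.x q‖ * ‖(H.r : ℂ) * H.S.e i q‖ = 1 := by rw [← norm_mul, h1, norm_one]
    have h9 := Real.exp_pos (-4 * L)
    have h10 : 2 < ‖H.x q‖ * Real.exp (-4 * L) := by nlinarith
    have h5 : 4 * L < Real.log ‖H.x q‖ := by
      have := Real.log_pos (by linarith : 1 < ‖H.x q‖ * Real.exp (-4 * L))
      rw [Real.log_mul h4.ne' h9.ne', Real.log_exp] at this
      linarith
    have h6 := X8_far hL (x := H.x q) (h5.trans_le (le_abs_self _)) (by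
      have := norm_sub_norm_le (H.x q ^ 2) (-1)
      rw [norm_neg, norm_pow, norm_one, sub_neg_eq_add] at this
      have h11 : 2 < ‖H.x q‖ := by nlinarith
      nlinarith) (t 0) (t 1) (H.y q)
    refine ⟨h6.1, ?_⟩
    have h7 := H.Yb_ne i _ b1
    have h11 := H.X8_inf hi hq
    rw [h6.2, eq_inv_of_mul_eq_one_left h1]
    dsimp only
    rw [← h1', h11] at h7 ⊢
    have h12 : d1 (H.S.e i) q ≠ 0 := fun h => h7 (by rw [h]; simp)
    field_simp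
    ring
  · simpa [hr] using H.Yb_ne i 0 (mem_ball_self one_pos)

theorem X8_sg (hL : 1 ≤ L) (H : Hyp (Real.exp (-4 * L))) {i : Fin 8} (hi : i.val < 6)
    (ha : xpt i ^ 2 = -1) {z : ℂ} (hz : z ∈ ball (0 : ℂ) 1) :
    sg (xpt i + H.r * z) (H.Yb i z) = sg (xpt i + H.r * 0) (H.Yb i 0) := by
  have h1 : ∀ z ∈ ball (0 : ℂ) 1, ‖xpt i + H.r * z - xpt i‖ < 1 / 32 := fun z hz => by
    rw [add_sub_cancel_left]; linarith [H.X8_norm hz, X8_s hL]
  have h2 : ∀ z ∈ ball (0 : ℂ) 1, (H.Yb i z / (xpt i + H.r * z) ^ 2).re ≠ 0 := fun z hz =>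
    (sheet hL (H.X8_sq hi hz) (X8_log ha (h1 z hz)).1
      (by linarith [(X8_log ha (h1 z hz)).2.1])).1
  have h3 : ContinuousOn (fun z => (H.Yb i z / (xpt i + H.r * z) ^ 2).re) (ball 0 1) :=
    continuous_re.comp_continuousOn ((H.Yb_hol i).continuousOn.div (by fun_prop)
      fun z hz => pow_ne_zero 2 (X8_log ha (h1 z hz)).1)
  have h4 : ∀ z ∈ ball (0 : ℂ) 1, ∀ w ∈ ball (0 : ℂ) 1,
      0 < (H.Yb i z / (xpt i + H.r * z) ^ 2).re → 0 < (H.Yb i w / (xpt i + H.r * w) ^ 2).re := by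
    intro z hz w hw h
    by_contra h'
    obtain ⟨v, hv, e⟩ := (convex_ball (0 : ℂ) 1).isPreconnected.intermediate_value hw hz h3
      ⟨not_lt.1 h', h.le⟩
    exact h2 v hv e
  exact if_congr ⟨h4 _ hz _ (mem_ball_self one_pos), h4 _ (mem_ball_self one_pos) _ hz⟩ rfl rfl

theorem X8_j {a y : ℂ} {j : ℝ} (ha : a ^ 2 = -1) (hj : 0 < j) (h : y ^ 2 = j ^ 2) :
    sg a y * y = -j := by
  rw [sg, ha]
  rcases sq_eq_sq_iff_eq_or_eq_neg.1 h with rfl | rfl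
  · rw [if_neg (by simp [div_neg, hj.le])]; ring
  · rw [if_pos (by simp [div_neg, hj])]; ring

theorem X8_ne (hL : 1 ≤ L) {a σ : ℂ} (ha : ‖a‖ = 1) (hσ : ‖σ‖ = 1) {t : P2}
    (ht : t ∈ DD 1 (1 / 2) L) :
    1 + (1 - (Real.exp (-4 * L) : ℂ) ^ 4) * (exp (t 0 * σ / 2) - 1) + t 1 * a ≠ 0 := by
  obtain ⟨h1, h2⟩ : ‖t 0‖ < 1 * L ∧ ‖t 1‖ < 1 / 2 * Real.exp (-‖t 0‖ / 2) := ht
  have h3 := X8_s hL
  have h4 : Real.exp (-4 * L) ≤ Real.exp (-‖t 0‖ / 2) := Real.exp_le_exp.2 (by linarith)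
  have h5 : Real.exp (-‖t 0‖ / 2) ≤ ‖exp (t 0 * σ / 2)‖ := by
    rw [norm_exp, Real.exp_le_exp]
    have := (abs_le.1 (abs_re_le_norm (t 0 * σ / 2))).1
    rw [norm_div, norm_mul, hσ, mul_one, norm_ofNat] at this
    linarith
  have h6 := Real.exp_pos (-4 * L)
  generalize Real.exp (-4 * L) = s at *
  generalize Real.exp (-‖t 0‖ / 2) = m at *
  have h7 : s ^ 2 ≤ 1 / 16 := by nlinarith
  have h8 : s ^ 4 ≤ 1 / 16 * s := by nlinarith [mul_pos h6 h6]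
  intro h
  have h9 : ((1 - s ^ 4 : ℝ) : ℂ) * exp (t 0 * σ / 2) = -(((s ^ 4 : ℝ) : ℂ) + t 1 * a) := by
    push_cast; linear_combination h
  have h10 := congrArg norm h9
  have h11 := norm_add_le ((s ^ 4 : ℝ) : ℂ) (t 1 * a)
  rw [norm_mul, norm_neg, norm_real, Real.norm_of_nonneg (by nlinarith)] at h10
  rw [norm_mul, ha, norm_real, Real.norm_of_nonneg (by positivity)] at h11
  nlinarith

theorem X8_one (hL : 1 ≤ L) (H : Hyp (Real.exp (-4 * L))) {i : Fin 8} (hi : i.val < 6)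
    (ha : xpt i ^ 2 = -1) : X8P H i 1 := by
  have hr : (H.r : ℂ) ≠ 0 := ofReal_ne_zero.2 H.r_pos.ne'
  have h1 : ∀ z ∈ ball (0 : ℂ) 1, ‖xpt i + H.r * z - xpt i‖ < 1 / 32 := fun z hz => by
    rw [add_sub_cancel_left]; linarith [H.X8_norm hz, X8_s hL]
  obtain ⟨σ, hσ⟩ : ∃ σ, σ = sg (xpt i + H.r * 0) (H.Yb i 0) := ⟨_, rfl⟩
  obtain ⟨J, hJ⟩ : ∃ J : ℂ, J = 1 - (Real.exp (-4 * L) : ℂ) ^ 4 := ⟨_, rfl⟩
  have hd : DifferentiableOn ℂ (fun p : ℂ × P2 => H.r * ((xpt i + H.r * p.1) ^ 2 + 1 +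
      p.2 1 * (xpt i + H.r * p.1) + σ * ((exp (p.2 0 * σ / 2) - 1) *
        (1 + 1 / (xpt i + H.r * p.1) ^ 2) + p.2 1 / J * (xpt i + H.r * p.1)) * H.Yb i p.1) /
      H.Yb i p.1) (ball 0 1 ×ˢ univ) := by
    refine X8_div (DifferentiableOn.const_mul (DifferentiableOn.add (by fun_prop)
      (DifferentiableOn.mul (DifferentiableOn.const_mul (DifferentiableOn.add
        (DifferentiableOn.mul (by fun_prop) (DifferentiableOn.const_add _ ?_)) (by fun_prop)) _)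
        (H.X8_Yb i))) _) (H.X8_Yb i) fun p hp => H.Yb_ne i _ hp.1
    exact X8_div (by fun_prop) (by fun_prop)
      fun p hp => pow_ne_zero 2 (X8_log ha (h1 _ hp.1)).1
  refine ⟨_, hd, fun t q hq => ?_, fun t ht => ?_⟩
  · obtain ⟨b1, _⟩ := H.X8_ball hq
    obtain ⟨e1, e2⟩ := H.fin i hi q hq
    have h2 := X8_near hL ha (h1 _ b1) (t 0) (t 1) (H.Yb i (H.S.e i q))
    rw [X8_sg hL H hi ha b1, ← hσ, ← hJ] at h2
    rw [e1, e2, h2.2]
    refine ⟨h2.1, ?_⟩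
    have h7 := H.Yb_ne i _ b1
    dsimp only
    rw [div_mul_eq_mul_div _ (H.Yb i _), eq_div_iff h7]
    linear_combination ((xpt i + H.r * H.S.e i q) ^ 2 + 1 + t 1 * (xpt i + H.r * H.S.e i q) +
      σ * ((exp (t 0 * σ / 2) - 1) * (1 + 1 / (xpt i + H.r * H.S.e i q) ^ 2) +
        t 1 / J * (xpt i + H.r * H.S.e i q)) * H.Yb i (H.S.e i q)) * H.X8_fin hi hq
  have b0 := mem_ball_self (x := (0 : ℂ)) one_pos
  have a0 : xpt i ≠ 0 := fun h => by simp [h] at ha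
  have a1 : ‖xpt i‖ = 1 := by
    have := congrArg norm ha
    rw [norm_pow, norm_neg, norm_one] at this
    nlinarith [norm_nonneg (xpt i)]
  have hs := X8_s hL
  have hs0 := Real.exp_pos (-4 * L)
  have hj : 0 < 1 - Real.exp (-4 * L) ^ 4 := sub_pos.2 (pow_lt_one₀ hs0.le (by linarith) (by decide))
  have hJ' : J = ((1 - Real.exp (-4 * L) ^ 4 : ℝ) : ℂ) := by rw [hJ, ofReal_sub, ofReal_pow]; rfl
  have hJ0 : J ≠ 0 := hJ' ▸ ofReal_ne_zero.2 hj.ne'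
  have a4 : xpt i ^ 4 = 1 := by linear_combination (xpt i ^ 2 - 1) * ha
  have y0 : H.Yb i 0 ^ 2 = J ^ 2 := by
    rw [H.X8_sq hi b0, PP, mul_zero, add_zero, a4, hJ]; ring
  have y1 : σ * H.Yb i 0 = -J := by
    rw [hσ, mul_zero, add_zero, hJ']; exact X8_j ha hj (hJ' ▸ y0)
  have y2 := H.Yb_ne i 0 b0
  have s1 : ‖σ‖ = 1 := by rw [hσ, sg]; split_ifs <;> simp
  have hY := ((H.Yb_hol i).differentiableAt (ball_mem_nhds _ one_pos)).hasDerivAt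
  generalize deriv (H.Yb i) 0 = Y' at hY
  have hx : HasDerivAt (fun z : ℂ => xpt i + H.r * z) H.r 0 := by
    simpa using ((hasDerivAt_id (0 : ℂ)).const_mul (H.r : ℂ)).const_add (xpt i)
  have y3 : Y' = 2 * H.r * xpt i ^ 3 * H.Yb i 0 := by
    have d1 := hY.fun_pow 2
    have d2 := ((hx.fun_pow 4).sub_const ((Real.exp (-4 * L) : ℂ) ^ 4)).fun_mul
      (((hx.fun_pow 4).const_mul ((Real.exp (-4 * L) : ℂ) ^ 4)).const_sub 1)
    have d3 := d1.unique (d2.congr_of_eventuallyEq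
      (mem_of_superset (ball_mem_nhds _ one_pos) fun z hz => H.X8_sq hi hz))
    apply mul_left_cancel₀ (mul_ne_zero two_ne_zero y2)
    simp only [mul_zero, add_zero, a4] at d3
    push_cast at d3
    rw [hJ] at y0
    push_cast at y0
    linear_combination d3 - 4 * H.r * xpt i ^ 3 * y0
  have hN := (((((hx.fun_pow 2).add_const 1).fun_add (hx.const_mul (t 1))).fun_add
    (((((((hasDerivAt_const (0 : ℂ) (1 : ℂ)).fun_div (hx.fun_pow 2)
      (by simpa using a0)).const_add 1).const_mul (exp (t 0 * σ / 2) - 1)).fun_add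
        (hx.const_mul (t 1 / J))).const_mul σ).fun_mul hY)).const_mul (H.r : ℂ)).fun_div hY y2
  have v0 : (xpt i + H.r * 0) ^ 2 + 1 + t 1 * (xpt i + H.r * 0) + σ * ((exp (t 0 * σ / 2) - 1) *
      (1 + 1 / (xpt i + H.r * 0) ^ 2) + t 1 / J * (xpt i + H.r * 0)) * H.Yb i 0 = 0 := by
    rw [mul_zero, add_zero, ha]
    field_simp
    linear_combination (t 1 * xpt i) * y1
  refine (X8_an hd t).analyticOrderAt_eq_one_of_zero_deriv_ne_zero (by simp only [v0]; simp) ?_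
  rw [hN.deriv, v0]
  have h5 := X8_ne hL a1 s1 ht
  rw [← hJ] at h5
  refine div_ne_zero ?_ (pow_ne_zero 2 y2)
  rw [mul_zero (H.r : ℂ), zero_mul Y', sub_zero]
  refine mul_ne_zero (mul_ne_zero hr fun h => h5 ?_) y2
  apply mul_left_cancel₀ (mul_ne_zero (mul_ne_zero two_ne_zero hr) a0)
  rw [add_zero, ha, y3] at h
  have e : t 1 / J * J = t 1 := div_mul_cancel₀ _ hJ0
  generalize t 1 / J = τ at h e
  generalize exp (t 0 * σ / 2) = E at h ⊢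
  push_cast at h
  linear_combination h - (-2 * xpt i * H.r * (E - 1) + τ * H.r + 2 * τ * H.r * xpt i ^ 4) * y1 +
    (H.r + 2 * H.r * xpt i ^ 4) * e + 2 * H.r * t 1 * xpt i ^ 2 * ha

/-- the deformed forms at the marked points -/
theorem K_ends : ∃ ε L₀ : ℝ, 0 < ε ∧ 1 ≤ L₀ ∧ ∀ L, L₀ ≤ L → ∀ H : Hyp (Real.exp (-4 * L)),
    ∃ Φ : Fin 8 → ℂ × P2 → ℂ, (∀ i, DifferentiableOn ℂ (Φ i) (ball 0 1 ×ˢ univ)) ∧
      (∀ i (t : P2), ∀ q ∈ (H.S.e i).source, K2 L (t 0) (t 1) (H.x q) (H.y q) = 0 ∧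
        H.x q ^ 2 + 1 + t 1 * H.x q + K1 L (t 0) (t 1) (H.x q) (H.y q) * H.y q =
          Φ i (H.S.e i q, t) * d1 (H.S.e i) q) ∧
      ∀ i, ∀ t ∈ DD 1 ε L, analyticOrderAt (fun z => Φ i (z, t)) 0 = ((aa i - 1 : ℕ) : ℕ∞) := by
  refine ⟨1 / 2, 1, by norm_num, le_rfl, fun L hL H => ?_⟩
  have key : ∀ i, X8P H i (aa i - 1) := fun i => by
    fin_cases i
    exacts [X8_one hL H (by decide) I_sq, X8_one hL H (by decide) I_sq,
      X8_one hL H (by decide) ((neg_sq I).trans I_sq),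
      X8_one hL H (by decide) ((neg_sq I).trans I_sq), X8_zero hL H (by decide) rfl,
      X8_zero hL H (by decide) rfl, X8_infty hL H (by decide), X8_infty hL H (by decide)]
  choose Φ h1 h2 h3 using key
  exact ⟨Φ, h1, h2, h3⟩

end Pool.Agent.MP_e62289_ag
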