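import Pool.Agent.MP_e62289_ag.L0

open Set Filter Topology Complex MeasureTheory Metric
open scoped Manifold ContDiff ComplexConjugate NNReal ENNReal

namespace Pool.Agent.MP_e62289_ag

/-- `w1` as a continuous linear map -/
noncomputable def L1a_W1 : (ℂ →L[ℝ] ℂ) →L[ℝ] ℂ :=
  (2⁻¹ : ℂ) • (ContinuousLinearMap.apply ℝ ℂ (1 : ℂ) - I • ContinuousLinearMap.apply ℝ ℂ I)

/-- `w2` as a continuous linear map -/
noncomputable def L1a_W2 : (ℂ →L[ℝ] ℂ) →L[ℝ] ℂ :=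
  (2⁻¹ : ℂ) • (ContinuousLinearMap.apply ℝ ℂ (1 : ℂ) + I • ContinuousLinearMap.apply ℝ ℂ I)

theorem L1a_W1_apply (L : ℂ →L[ℝ] ℂ) : L1a_W1 L = w1 L := by
  simp [L1a_W1, w1]
  ring

theorem L1a_W2_apply (L : ℂ →L[ℝ] ℂ) : L1a_W2 L = w2 L := by
  simp [L1a_W2, w2]
  ring

namespace Flat

variable {n : ℕ} (S : Flat n) {u : S.Y → ℂ} {q : S.Y}

theorem L1a_tendsto_symm (q : S.Y) :
    Tendsto (chartAt ℂ q).symm (𝓝 (chartAt ℂ q q)) (𝓝 q) :=
  (chartAt ℂ q).tendsto_symm (mem_chart_source ℂ q)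

/-- the derivative can be computed in any flat chart -/
theorem dd_eq {x : S.Y} (hq : q ∈ (chartAt ℂ x).source) (hu : RDiffAt u q) :
    dd u q = fderiv ℝ (u ∘ (chartAt ℂ x).symm) (chartAt ℂ x q) := by
  rw [dd_eq_fderiv hu]
  set c : ℂ := chartAt ℂ x q - chartAt ℂ q q with hc
  have h1 := (S.L1a_tendsto_symm q).eventually
    ((S.flat x q q ⟨hq, mem_chart_source ℂ q⟩).and
      ((chartAt ℂ x).open_source.mem_nhds hq))
  have h2 : ∀ᶠ z in 𝓝 (chartAt ℂ q q), z ∈ (chartAt ℂ q).target :=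
    (chartAt ℂ q).open_target.mem_nhds (mem_chart_target ℂ q)
  have h3 : u ∘ (chartAt ℂ q).symm =ᶠ[𝓝 (chartAt ℂ q q)]
      fun z => (u ∘ (chartAt ℂ x).symm) (z + c) := by
    filter_upwards [h1, h2] with z hz hz'
    have e : z + c = chartAt ℂ x ((chartAt ℂ q).symm z) := by
      have := hz.1
      rw [(chartAt ℂ q).right_inv hz'] at this
      rw [hc, ← this]
      ring
    simp only [Function.comp_apply]
    rw [e, (chartAt ℂ x).left_inv hz.2]
  rw [h3.fderiv_eq, fderiv_comp_add_right]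
  congr 1
  rw [hc]
  ring

theorem d_chart {x : S.Y} (hq : q ∈ (chartAt ℂ x).source) :
    d1 (chartAt ℂ x) q = 1 ∧ d2 (chartAt ℂ x) q = 0 := by
  have hu : RDiffAt (chartAt ℂ x) q := (mdifferentiable_chart x).mdifferentiableAt hq
  have h : (chartAt ℂ x) ∘ (chartAt ℂ x).symm =ᶠ[𝓝 (chartAt ℂ x q)] id := by
    filter_upwards [(chartAt ℂ x).open_target.mem_nhds ((chartAt ℂ x).map_source hq)] with z hz
    exact (chartAt ℂ x).right_inv hz
  simp only [d1, d2, S.dd_eq hq hu, h.fderiv_eq, fderiv_id]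
  exact w_id

theorem L1a_contDiffAt {m : ℕ∞ω} (hu : CkAt m u q) :
    ContDiffAt ℝ m (u ∘ (chartAt ℂ q).symm) (chartAt ℂ q q) := by
  have h := (contMDiffAt_iff.1 hu).2
  simpa [contDiffWithinAt_univ] using h

theorem L1a_ev {k : ℕ} (hu : CkAt (k + 1 : ℕ) u q) :
    ∀ᶠ x in 𝓝 q, dd u x = fderiv ℝ (u ∘ (chartAt ℂ q).symm) (chartAt ℂ q x) := by
  have h1 := (contMDiffAt_iff_contMDiffAt_nhds (by simp)).1 hu
  filter_upwards [h1, (chartAt ℂ q).open_source.mem_nhds (mem_chart_source ℂ q)] with x hx hx'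
  exact S.dd_eq hx' (hx.mdifferentiableAt (by simp))

theorem ckAt_d {k : ℕ} (hu : CkAt (k + 1 : ℕ) u q) : CkAt k (d1 u) q ∧ CkAt k (d2 u) q := by
  have h1 : ContDiffAt ℝ k (fderiv ℝ (u ∘ (chartAt ℂ q).symm)) (chartAt ℂ q q) :=
    (S.L1a_contDiffAt hu).fderiv_right (by simp)
  have hc : ContMDiffAt 𝓘(ℝ, ℂ) 𝓘(ℝ, ℂ) k (chartAt ℂ q) q :=
    contMDiffOn_chart.contMDiffAt ((chartAt ℂ q).open_source.mem_nhds (mem_chart_source ℂ q))
  have h2 := h1.contMDiffAt.comp q hc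
  constructor
  · refine ((L1a_W1.contMDiff (n := k)).contMDiffAt.comp q h2).congr_of_eventuallyEq ?_
    filter_upwards [S.L1a_ev hu] with x hx
    simp only [Function.comp_apply, L1a_W1_apply, d1, hx]
  · refine ((L1a_W2.contMDiff (n := k)).contMDiffAt.comp q h2).congr_of_eventuallyEq ?_
    filter_upwards [S.L1a_ev hu] with x hx
    simp only [Function.comp_apply, L1a_W2_apply, d2, hx]

theorem continuousAt_d (hu : CkAt 1 u q) : ContinuousAt (d1 u) q ∧ ContinuousAt (d2 u) q := by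
  have h := S.ckAt_d (k := 0) (u := u) (q := q) (by simpa using hu)
  exact ⟨h.1.continuousAt, h.2.continuousAt⟩

theorem d1_d2 (hu : CkAt 2 u q) : d1 (d2 u) q = d2 (d1 u) q := by
  have hu' : CkAt ((1 : ℕ) + 1 : ℕ) u q := hu
  have hd := S.ckAt_d hu'
  have hg := S.L1a_contDiffAt hu
  set g := u ∘ (chartAt ℂ q).symm with hgdef
  have h1 : HasFDerivAt (fderiv ℝ g) (fderiv ℝ (fderiv ℝ g) (chartAt ℂ q q)) (chartAt ℂ q q) :=
    ((hg.fderiv_right (m := 1) le_rfl).differentiableAt one_ne_zero).hasFDerivAt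
  have hs := hg.isSymmSndFDerivAt (by simp)
  have h2 : ∀ᶠ z in 𝓝 (chartAt ℂ q q), dd u ((chartAt ℂ q).symm z) = fderiv ℝ g z := by
    filter_upwards [(S.L1a_tendsto_symm q).eventually (S.L1a_ev hu'),
      (chartAt ℂ q).open_target.mem_nhds (mem_chart_target ℂ q)] with z hz hz'
    rw [hz, (chartAt ℂ q).right_inv hz']
  have e1 : d1 u ∘ (chartAt ℂ q).symm =ᶠ[𝓝 (chartAt ℂ q q)] L1a_W1 ∘ fderiv ℝ g := by
    filter_upwards [h2] with z hz
    simp only [Function.comp_apply, L1a_W1_apply, d1, hz]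
  have e2 : d2 u ∘ (chartAt ℂ q).symm =ᶠ[𝓝 (chartAt ℂ q q)] L1a_W2 ∘ fderiv ℝ g := by
    filter_upwards [h2] with z hz
    simp only [Function.comp_apply, L1a_W2_apply, d2, hz]
  have f1 := (L1a_W1.hasFDerivAt.comp _ h1).fderiv
  have f2 := (L1a_W2.hasFDerivAt.comp _ h1).fderiv
  rw [d1, dd_eq_fderiv (hd.2.mdifferentiableAt (by simp)), e2.fderiv_eq, f2, d2,
    dd_eq_fderiv (hd.1.mdifferentiableAt (by simp)), e1.fderiv_eq, f1]
  simp only [w1, w2, ContinuousLinearMap.comp_apply, L1a_W1_apply, L1a_W2_apply]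
  rw [hs 1 I]
  ring

theorem holAt_d1 (h : ∀ᶠ x in 𝓝 q, HolAt u x) : ∀ᶠ x in 𝓝 q, HolAt (d1 u) x := by
  filter_upwards [h.eventually_nhds] with y hy
  have hk : CkAt 2 u y := ckAt_of_hol hy 2
  have hk' : CkAt ((1 : ℕ) + 1 : ℕ) u y := hk
  refine hol_of_d2 ((S.ckAt_d hk').1.mdifferentiableAt (by simp)) ?_
  have e : d2 u =ᶠ[𝓝 y] fun _ => 0 := hy.mono fun x hx => (d2_of_hol hx).2
  rw [← S.d1_d2 hk, (d_congr e).1, (d_const 0 y).1]

end Flat

end Pool.Agent.MP_e62289_ag
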