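import Pool.Agent.MP_e62289_ag.L0
import Pool.Agent.MP_e62289_ag.L1a

open Set Filter Topology Complex MeasureTheory Metric
open scoped Manifold ContDiff ComplexConjugate NNReal ENNReal

namespace Pool.Agent.MP_e62289_ag

theorem L1b_bound {Y : Type} [TopologicalSpace Y] {f : Y → ℝ} (hf : Continuous f) {K : Set Y}
    (hK : IsCompact K) (h1 : ∀ q, f q < 1) {κ : ℝ} (hκ : κ < 1) (h2 : ∀ q, q ∉ K → f q ≤ κ) :
    ∃ κ' : ℝ, 0 ≤ κ' ∧ κ' < 1 ∧ ∀ q, f q ≤ κ' := by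
  rcases K.eq_empty_or_nonempty with rfl | hne
  · exact ⟨max κ 0, le_max_right _ _, max_lt hκ one_pos,
      fun q => (h2 q (notMem_empty q)).trans (le_max_left _ _)⟩
  · obtain ⟨x, -, hx⟩ := hK.exists_isMaxOn hne hf.continuousOn
    refine ⟨max (max κ (f x)) 0, le_max_right _ _, max_lt (max_lt hκ (h1 x)) one_pos, fun q => ?_⟩
    refine le_trans ?_ (le_max_left _ _)
    by_cases hq : q ∈ K
    · exact le_trans (hx hq) (le_max_right _ _)
    · exact (h2 q hq).trans (le_max_left _ _)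

theorem L1b_cont_w : Continuous w1 ∧ Continuous w2 := by
  constructor
  · unfold w1
    fun_prop
  · unfold w2
    fun_prop

theorem L1b_chart {Y : Type} [TopologicalSpace Y] [ChartedSpace ℂ Y] [IsManifold 𝓘(ℝ, ℂ) ω Y]
    {x q : Y} (hq : q ∈ (chartAt ℂ x).source) : CkAt 1 (chartAt ℂ x) q := by
  haveI : IsManifold 𝓘(ℝ, ℂ) 1 Y := IsManifold.of_le (n := ω) le_top
  exact (contMDiffOn_chart (I := 𝓘(ℝ, ℂ)) (n := 1) (x := x)).contMDiffAt
    ((chartAt ℂ x).open_source.mem_nhds hq)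

namespace Flat

variable {n : ℕ} (S : Flat n) {u : S.Y → ℂ} {q : S.Y}

theorem L1b_loc {E T : Type} [NormedAddCommGroup E] [NormedSpace ℝ E]
    [TopologicalSpace T] [ChartedSpace E T] [IsManifold 𝓘(ℝ, E) 1 T] {g : T × S.Y → ℂ}
    {O : Set (T × S.Y)} (hO : IsOpen O)
    (hg : ContMDiffOn (𝓘(ℝ, E).prod 𝓘(ℝ, ℂ)) 𝓘(ℝ, ℂ) 1 g O) (t : T) (x : S.Y) :
    ∃ U : Set (E × ℂ), IsOpen U ∧
      ContDiffOn ℝ 1 (fun w : E × ℂ => g ((chartAt E t).symm w.1, (chartAt ℂ x).symm w.2)) U ∧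
      (∀ w ∈ U, ((chartAt E t).symm w.1, (chartAt ℂ x).symm w.2) ∈ O) ∧
      ∀ p ∈ O, p.1 ∈ (chartAt E t).source → p.2 ∈ (chartAt ℂ x).source →
        (chartAt E t p.1, chartAt ℂ x p.2) ∈ U ∧
        dd (fun y => g (p.1, y)) p.2 = fderiv ℝ (fun z =>
          g ((chartAt E t).symm (chartAt E t p.1), (chartAt ℂ x).symm z)) (chartAt ℂ x p.2) := by
  haveI : IsManifold 𝓘(ℝ, ℂ) 1 S.Y := IsManifold.of_le (n := ω) le_top
  have hm : ContMDiffOn 𝓘(ℝ, E × ℂ) (𝓘(ℝ, E).prod 𝓘(ℝ, ℂ)) 1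
      (fun w : E × ℂ => ((chartAt E t).symm w.1, (chartAt ℂ x).symm w.2))
      ((chartAt E t).target ×ˢ (chartAt ℂ x).target) := by
    refine ContMDiffOn.prodMk ?_ ?_
    · exact (contMDiffOn_chart_symm (I := 𝓘(ℝ, E)) (n := 1) (x := t)).comp
        (contDiff_fst.contMDiff.contMDiffOn) (fun w hw => hw.1)
    · exact (contMDiffOn_chart_symm (I := 𝓘(ℝ, ℂ)) (n := 1) (x := x)).comp
        (contDiff_snd.contMDiff.contMDiffOn) (fun w hw => hw.2)
  refine ⟨((chartAt E t).target ×ˢ (chartAt ℂ x).target) ∩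
    (fun w : E × ℂ => ((chartAt E t).symm w.1, (chartAt ℂ x).symm w.2)) ⁻¹' O,
    hm.continuousOn.isOpen_inter_preimage
      ((chartAt E t).open_target.prod (chartAt ℂ x).open_target) hO, ?_, fun w hw => hw.2, ?_⟩
  · rw [← contMDiffOn_iff_contDiffOn]
    exact hg.comp (hm.mono inter_subset_left) (fun w hw => hw.2)
  · intro p hp h1 h2
    refine ⟨⟨⟨(chartAt E t).map_source h1, (chartAt ℂ x).map_source h2⟩, ?_⟩, ?_⟩
    · show ((chartAt E t).symm (chartAt E t p.1), (chartAt ℂ x).symm (chartAt ℂ x p.2)) ∈ O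
      rw [(chartAt E t).left_inv h1, (chartAt ℂ x).left_inv h2]
      exact hp
    · rw [(chartAt E t).left_inv h1]
      have hd : ContMDiffAt 𝓘(ℝ, ℂ) 𝓘(ℝ, ℂ) 1 (fun y => g (p.1, y)) p.2 :=
        (hg.contMDiffAt (hO.mem_nhds hp)).comp p.2 (contMDiffAt_const.prodMk contMDiffAt_id)
      exact S.dd_eq h2 (hd.mdifferentiableAt (by simp))

/-- joint continuity of the derivatives of a function with a parameter in a manifold -/
theorem continuousOn_d_par {E T : Type} [NormedAddCommGroup E] [NormedSpace ℝ E]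
    [TopologicalSpace T] [ChartedSpace E T] [IsManifold 𝓘(ℝ, E) 1 T] {g : T × S.Y → ℂ}
    {O : Set (T × S.Y)} (hO : IsOpen O)
    (hg : ContMDiffOn (𝓘(ℝ, E).prod 𝓘(ℝ, ℂ)) 𝓘(ℝ, ℂ) 1 g O) :
    ContinuousOn (fun p : T × S.Y => d1 (fun x => g (p.1, x)) p.2) O ∧
    ContinuousOn (fun p : T × S.Y => d2 (fun x => g (p.1, x)) p.2) O := by
  have key : ContinuousOn (fun p : T × S.Y => dd (fun x => g (p.1, x)) p.2) O := by
    intro p0 hp0
    obtain ⟨U, hU, hd, -, hl⟩ := S.L1b_loc hO hg p0.1 p0.2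
    set G : E × ℂ → ℂ := fun w => g ((chartAt E p0.1).symm w.1, (chartAt ℂ p0.2).symm w.2)
      with hG
    have hc : ContinuousAt (fun p : T × S.Y => (chartAt E p0.1 p.1, chartAt ℂ p0.2 p.2)) p0 :=
      (((chartAt E p0.1).continuousAt (mem_chart_source E p0.1)).comp continuousAt_fst).prodMk
        (((chartAt ℂ p0.2).continuousAt (mem_chart_source ℂ p0.2)).comp continuousAt_snd)
    have h0 := (hl p0 hp0 (mem_chart_source E p0.1) (mem_chart_source ℂ p0.2)).1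
    have hf : ContinuousAt (fderiv ℝ G) (chartAt E p0.1 p0.1, chartAt ℂ p0.2 p0.2) :=
      (hd.continuousOn_fderiv_of_isOpen hU le_rfl).continuousAt (hU.mem_nhds h0)
    have h2 : ContinuousAt (fun p : T × S.Y =>
        (fderiv ℝ G (chartAt E p0.1 p.1, chartAt ℂ p0.2 p.2)).comp
          (ContinuousLinearMap.inr ℝ E ℂ)) p0 :=
      (ContinuousAt.comp (f := fun p : T × S.Y => (chartAt E p0.1 p.1, chartAt ℂ p0.2 p.2))
        hf hc).clm_comp continuousAt_const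
    refine (h2.congr ?_).continuousWithinAt
    have e1 : ∀ᶠ p : T × S.Y in 𝓝 p0, p.1 ∈ (chartAt E p0.1).source :=
      continuousAt_fst.preimage_mem_nhds (chart_source_mem_nhds E p0.1)
    have e2 : ∀ᶠ p : T × S.Y in 𝓝 p0, p.2 ∈ (chartAt ℂ p0.2).source :=
      continuousAt_snd.preimage_mem_nhds (chart_source_mem_nhds ℂ p0.2)
    filter_upwards [e1, e2, hO.mem_nhds hp0] with p h1 h2 hp
    obtain ⟨hpU, he⟩ := hl p hp h1 h2
    rw [he]
    have hdf : HasFDerivAt G (fderiv ℝ G (chartAt E p0.1 p.1, chartAt ℂ p0.2 p.2))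
        (chartAt E p0.1 p.1, chartAt ℂ p0.2 p.2) :=
      ((hd.contDiffAt (hU.mem_nhds hpU)).differentiableAt (by simp)).hasFDerivAt
    exact ((hdf.comp (chartAt ℂ p0.2 p.2)
      (hasFDerivAt_prodMk_right (chartAt E p0.1 p.1) (chartAt ℂ p0.2 p.2))).fderiv).symm
  exact ⟨L1b_cont_w.1.comp_continuousOn key, L1b_cont_w.2.comp_continuousOn key⟩

/-- the derivatives depend holomorphically on a holomorphic parameter -/
theorem d_par_hol {g : ℂ × S.Y → ℂ} {O : Set (ℂ × S.Y)} (hO : IsOpen O)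
    (hg : ContMDiffOn (𝓘(ℝ, ℂ).prod 𝓘(ℝ, ℂ)) 𝓘(ℝ, ℂ) 1 g O)
    (hh : ∀ p ∈ O, DifferentiableAt ℂ (fun t => g (t, p.2)) p.1) {p : ℂ × S.Y} (hp : p ∈ O) :
    DifferentiableAt ℂ (fun t => d1 (fun x => g (t, x)) p.2) p.1 ∧
    DifferentiableAt ℂ (fun t => d2 (fun x => g (t, x)) p.2) p.1 := by
  obtain ⟨U, hU, hd, hUO, hl⟩ := S.L1b_loc hO hg p.1 p.2
  simp only [chartAt_self_eq, OpenPartialHomeomorph.refl_symm, OpenPartialHomeomorph.refl_apply,
    id, OpenPartialHomeomorph.refl_partialEquiv, PartialEquiv.refl_source, mem_univ,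
    forall_true_left] at hd hUO hl
  have h0 := (hl p hp (mem_chart_source ℂ p.2)).1
  have key := fun v => par_hol hU hd (fun w hw => hh _ (hUO w hw)) h0 v
  have e : ∀ᶠ t in 𝓝 p.1, dd (fun x => g (t, x)) p.2 =
      fderiv ℝ (fun z => g (t, (chartAt ℂ p.2).symm z)) (chartAt ℂ p.2 p.2) := by
    have hc : ContinuousAt (fun t : ℂ => (t, p.2)) p.1 := by fun_prop
    filter_upwards [hc.preimage_mem_nhds (hO.mem_nhds hp)] with t ht
    exact (hl (t, p.2) ht (mem_chart_source ℂ p.2)).2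
  constructor
  · refine (((key 1).sub ((key I).const_mul I)).div_const 2).congr_of_eventuallyEq ?_
    filter_upwards [e] with t ht
    rw [d1, ht]
    rfl
  · refine (((key 1).add ((key I).const_mul I)).div_const 2).congr_of_eventuallyEq ?_
    filter_upwards [e] with t ht
    rw [d2, ht]
    rfl

/-- derivatives of self-maps are continuous -/
theorem continuous_d_adm (Θ : Adm S.Y S.Y) : Continuous (d1 Θ.φ) ∧ Continuous (d2 Θ.φ) := by
  have key : ∀ q0, ContinuousAt (d1 Θ.φ) q0 ∧ ContinuousAt (d2 Θ.φ) q0 := by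
    intro q0
    have hc : CkAt 1 (chartAt ℂ (Θ.φ q0) ∘ Θ.φ) q0 :=
      (L1b_chart (mem_chart_source ℂ (Θ.φ q0))).comp q0
        ((Θ.φ.contMDiff q0).of_le (by norm_num))
    have h := S.continuousAt_d hc
    have e : ∀ᶠ q in 𝓝 q0, d1 (chartAt ℂ (Θ.φ q0) ∘ Θ.φ) q = d1 Θ.φ q ∧
        d2 (chartAt ℂ (Θ.φ q0) ∘ Θ.φ) q = d2 Θ.φ q := by
      filter_upwards [Θ.φ.continuous.continuousAt.preimage_mem_nhds
        (chart_source_mem_nhds ℂ (Θ.φ q0))] with q hq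
      have h1 := d_comp ((L1b_chart hq).mdifferentiableAt (by simp)) (Θ.md q)
      have h2 := S.d_chart hq
      rw [h1.1, h1.2, h2.1, h2.2]
      simp
    exact ⟨h.1.congr (e.mono fun q hq => hq.1), h.2.congr (e.mono fun q hq => hq.2)⟩
  exact ⟨continuous_iff_continuousAt.2 fun q => (key q).1,
    continuous_iff_continuousAt.2 fun q => (key q).2⟩

/-- Beltrami coefficients of admissible maps -/
theorem bel_adm {Y' : Type} [TopologicalSpace Y'] [ChartedSpace ℂ Y'] [IsManifold 𝓘(ℂ, ℂ) ω Y']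
    [IsManifold 𝓘(ℝ, ℂ) ω Y'] (G : Adm S.Y Y') :
    Continuous (bel G.φ) ∧ ∃ κ : ℝ, 0 ≤ κ ∧ κ < 1 ∧ ∀ q, ‖bel G.φ q‖ ≤ κ := by
  have hcont : Continuous (bel G.φ) := by
    refine continuous_iff_continuousAt.2 fun q0 => ?_
    have hc : CkAt 1 (chartAt ℂ (G.φ q0) ∘ G.φ) q0 :=
      (L1b_chart (mem_chart_source ℂ (G.φ q0))).comp q0
        ((G.φ.contMDiff q0).of_le (by norm_num))
    have h := S.continuousAt_d hc
    have h0 := chart_hol (mem_chart_source ℂ (G.φ q0))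
    have hne : d1 (chartAt ℂ (G.φ q0) ∘ G.φ) q0 ≠ 0 := by
      rw [(bel_comp_hol (G.md q0) h0.1 h0.2).1]
      exact mul_ne_zero h0.2 (G.d1_ne q0)
    refine (h.2.div h.1 hne).congr ?_
    filter_upwards [G.φ.continuous.continuousAt.preimage_mem_nhds
      (chart_source_mem_nhds ℂ (G.φ q0))] with q hq
    have h1 := chart_hol hq
    exact (bel_comp_hol (G.md q) h1.1 h1.2).2.2
  refine ⟨hcont, ?_⟩
  obtain ⟨K, hK, h⟩ := G.conf
  refine L1b_bound hcont.norm hK G.norm_bel_lt one_half_lt_one fun q hq => ?_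
  rw [bel, h q hq]
  simp

theorem act_bound (Θ : Adm S.Y S.Y) {μ : S.Y → ℂ} (hμ : Continuous μ) {κ : ℝ} (hκ : κ < 1)
    (hb : ∀ q, ‖μ q‖ ≤ κ) :
    Continuous (Θ.act μ) ∧ (∃ κ' : ℝ, 0 ≤ κ' ∧ κ' < 1 ∧ ∀ q, ‖Θ.act μ q‖ ≤ κ') ∧
      ∀ q, d1 Θ.φ q + μ (Θ.φ q) * conj (d2 Θ.φ q) ≠ 0 := by
  have hlt : ∀ q, ‖d2 Θ.φ q + μ (Θ.φ q) * conj (d1 Θ.φ q)‖ <
      ‖d1 Θ.φ q + μ (Θ.φ q) * conj (d2 Θ.φ q)‖ := by
    intro q
    refine lt_of_pow_lt_pow_left₀ 2 (norm_nonneg _) (sub_pos.1 ?_)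
    have h := w_det 1 (μ (Θ.φ q)) (d1 Θ.φ q) (d2 Θ.φ q)
    rw [one_mul, one_mul] at h
    rw [h]
    refine mul_pos (sub_pos.2 (pow_lt_pow_left₀ ?_ (norm_nonneg _) two_ne_zero)) (Θ.sq_pos q)
    rw [norm_one]
    exact (hb _).trans_lt hκ
  have hne : ∀ q, d1 Θ.φ q + μ (Θ.φ q) * conj (d2 Θ.φ q) ≠ 0 := fun q =>
    norm_pos_iff.1 ((norm_nonneg _).trans_lt (hlt q))
  obtain ⟨c1, c2⟩ := S.continuous_d_adm Θ
  have c3 : Continuous fun q => μ (Θ.φ q) := hμ.comp Θ.φ.continuous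
  have hcont : Continuous (Θ.act μ) :=
    (c2.add (c3.mul (continuous_conj.comp c1))).div (c1.add (c3.mul (continuous_conj.comp c2))) hne
  refine ⟨hcont, ?_, hne⟩
  obtain ⟨K, hK, h⟩ := Θ.conf
  refine L1b_bound hcont.norm hK (fun q => ?_) hκ fun q hq => ?_
  · rw [Adm.act, norm_div, div_lt_one (norm_pos_iff.2 (hne q))]
    exact hlt q
  · rw [Adm.act, h q hq, map_zero, mul_zero, add_zero, zero_add, norm_div, norm_mul, norm_conj,
      mul_div_cancel_right₀ _ (norm_ne_zero_iff.2 (Θ.d1_ne q))]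
    exact hb _

end Flat

end Pool.Agent.MP_e62289_ag
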