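import Pool.Agent.MP_e62289_ag.L0
import Pool.Agent.MP_e62289_ag.L1a

open Set Filter Topology Complex MeasureTheory Metric
open scoped Manifold ContDiff ComplexConjugate NNReal ENNReal

namespace Pool.Agent.MP_e62289_ag

namespace Flat

variable {n : ℕ} (S : Flat n) {u : S.Y → ℂ} {q : S.Y}

theorem l1c_isOpen {N : Set S.Y} (hN : S.IsDisc N) : IsOpen N := by
  obtain ⟨φ, c, ρ, -, -, rfl⟩ := hN
  exact φ.continuousOn.isOpen_inter_preimage φ.open_source isOpen_ball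

theorem l1c_comp {g : ℂ → ℂ} {c : ℂ} (hg : HasDerivAt g c (u q)) (hu : HolAt u q) :
    HolAt (fun x => g (u x)) q ∧ d1 (fun x => g (u x)) q = c * d1 u q := by
  have h := d_hol_comp hg (d2_of_hol hu).1
  refine ⟨hol_of_d2 h.1 ?_, h.2.1⟩
  rw [h.2.2, (d2_of_hol hu).2, mul_zero]

theorem l1c_mul {v : S.Y → ℂ} (hu : HolAt u q) (hv : HolAt v q) :
    HolAt (fun x => u x * v x) q := by
  refine hol_of_d2 ((d2_of_hol hu).1.mul (d2_of_hol hv).1) ?_
  rw [(d_mul (d2_of_hol hu).1 (d2_of_hol hv).1).2, (d2_of_hol hu).2, (d2_of_hol hv).2]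
  simp

theorem l1c_div {v : S.Y → ℂ} (hu : HolAt u q) (hv : HolAt v q) (h0 : v q ≠ 0) :
    HolAt (fun x => u x / v x) q := by
  have h := (S.l1c_comp (hasDerivAt_inv h0) hv).1
  simpa only [div_eq_mul_inv] using S.l1c_mul hu h

/-- a holomorphic function with vanishing derivative on a disc is constant -/
theorem l1c_const {N : Set S.Y} (hN : S.IsDisc N) (hu : ∀ q ∈ N, HolAt u q ∧ d1 u q = 0) :
    ∃ c, ∀ q ∈ N, u q = c := by
  obtain ⟨φ, c, ρ, hφ, hb, rfl⟩ := hN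
  have key : ∀ z ∈ ball c ρ, HasDerivAt (u ∘ φ.symm) 0 z := by
    intro z hz
    have hs : φ.symm z ∈ φ.source := φ.map_target (hb hz)
    have hm : φ.symm z ∈ φ.source ∩ φ ⁻¹' ball c ρ := by
      refine ⟨hs, ?_⟩
      rw [mem_preimage, φ.right_inv (hb hz)]
      exact hz
    have h := hasDerivAt_coord hφ hs (hu _ hm).1
    rw [(hu _ hm).2, zero_div, φ.right_inv (hb hz)] at h
    exact h
  obtain ⟨a, ha⟩ := isOpen_ball.exists_is_const_of_deriv_eq_zero (f := u ∘ φ.symm)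
    (convex_ball c ρ).isPreconnected
    (fun z hz => (key z hz).differentiableAt.differentiableWithinAt)
    (fun z hz => (key z hz).deriv)
  refine ⟨a, fun q hq => ?_⟩
  have := ha _ hq.2
  rwa [Function.comp_apply, φ.left_inv hq.1] at this

/-- primitives and square roots on discs -/
theorem IsDisc.prim {N : Set S.Y} (hN : S.IsDisc N) (hu : ∀ q ∈ N, HolAt u q) :
    ∃ P : S.Y → ℂ, ∀ q ∈ N, HolAt P q ∧ d1 P q = u q := by
  obtain ⟨φ, c, ρ, hφ, hb, rfl⟩ := hN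
  have hc := (coord_hol hφ).1
  have hd : ∀ q ∈ φ.source, HolAt (d1 φ) q := fun q hq =>
    (S.holAt_d1 (u := φ) ((φ.open_source.eventually_mem hq).mono fun x hx =>
      (hc x hx).1)).self_of_nhds
  have key : DifferentiableOn ℂ ((fun x => u x / d1 φ x) ∘ φ.symm) (ball c ρ) := by
    intro z hz
    have hs : φ.symm z ∈ φ.source := φ.map_target (hb hz)
    have hm : φ.symm z ∈ φ.source ∩ φ ⁻¹' ball c ρ := by
      refine ⟨hs, ?_⟩
      rw [mem_preimage, φ.right_inv (hb hz)]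
      exact hz
    have h := hasDerivAt_coord hφ hs (S.l1c_div (hu _ hm) (hd _ hs) (hc _ hs).2)
    rw [φ.right_inv (hb hz)] at h
    exact h.differentiableAt.differentiableWithinAt
  obtain ⟨F, hF⟩ := key.isExactOn_ball
  refine ⟨fun x => F (φ x), fun q hq => ?_⟩
  have h := S.l1c_comp (u := φ) (hF _ hq.2) (hc q hq.1).1
  refine ⟨h.1, ?_⟩
  rw [h.2, Function.comp_apply, φ.left_inv hq.1, div_mul_cancel₀ _ (hc q hq.1).2]

theorem IsDisc.sqrt {N : Set S.Y} (hN : S.IsDisc N) :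
    ∃ ρ : S.Y → ℂ, ∀ q ∈ N, HolAt ρ q ∧ ρ q ^ 2 = S.f q := by
  have hd : ∀ q, HolAt (d1 S.f) q := fun q =>
    (S.holAt_d1 (u := S.f) (Eventually.of_forall fun x => S.f_hol x)).self_of_nhds
  obtain ⟨P, hP⟩ := IsDisc.prim S (u := fun x => d1 S.f x / S.f x) hN
    (fun q _ => S.l1c_div (hd q) (S.f_hol q) (S.f_ne q))
  have hE : ∀ (a : ℂ), ∀ q ∈ N, HolAt (fun x => cexp (a * P x)) q ∧
      d1 (fun x => cexp (a * P x)) q = cexp (a * P q) * a * d1 P q := by
    intro a q hq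
    have h : HasDerivAt (fun w => cexp (a * w)) (cexp (a * P q) * a) (P q) := by
      simpa using ((hasDerivAt_id (P q)).const_mul a).cexp
    exact S.l1c_comp h (hP q hq).1
  obtain ⟨c, hc⟩ := S.l1c_const (u := fun x => S.f x * cexp (-1 * P x)) hN (fun q hq => by
    refine ⟨S.l1c_mul (S.f_hol q) (hE _ q hq).1, ?_⟩
    rw [(d_mul (d2_of_hol (S.f_hol q)).1 (d2_of_hol (hE _ q hq).1).1).1, (hE _ q hq).2,
      (hP q hq).2]
    field_simp [S.f_ne q]
    ring)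
  obtain ⟨w, hw⟩ := IsAlgClosed.exists_pow_nat_eq c (n := 2) two_pos
  refine ⟨fun x => w * cexp (1 / 2 * P x), fun q hq => ⟨?_, ?_⟩⟩
  · exact S.l1c_mul mdifferentiableAt_const (hE _ q hq).1
  · rw [mul_pow, hw, ← hc q hq, ← Complex.exp_nat_mul, mul_assoc, ← Complex.exp_add]
    have : -1 * P q + ((2 : ℕ) : ℂ) * (1 / 2 * P q) = 0 := by
      push_cast
      ring
    rw [this, Complex.exp_zero, mul_one]

theorem IsDisc.isOpen {N : Set S.Y} (hN : S.IsDisc N) : IsOpen N := S.l1c_isOpen hN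

theorem exists_disc {V : Set S.Y} (hV : V ∈ 𝓝 q) : ∃ N, S.IsDisc N ∧ q ∈ N ∧ N ⊆ V := by
  have hq := mem_chart_source ℂ q
  have h1 : (chartAt ℂ q).target ∈ 𝓝 (chartAt ℂ q q) :=
    (chartAt ℂ q).open_target.mem_nhds ((chartAt ℂ q).map_source hq)
  have h2 : (chartAt ℂ q).symm ⁻¹' V ∈ 𝓝 (chartAt ℂ q q) := by
    refine ((chartAt ℂ q).continuousAt_symm ((chartAt ℂ q).map_source hq)).preimage_mem_nhds ?_
    rwa [(chartAt ℂ q).left_inv hq]
  obtain ⟨r, hr, hb⟩ := Metric.mem_nhds_iff.1 (inter_mem h1 h2)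
  refine ⟨(chartAt ℂ q).source ∩ chartAt ℂ q ⁻¹' ball (chartAt ℂ q q) r,
    ⟨chartAt ℂ q, chartAt ℂ q q, r, fun x hx => (chart_hol hx).1.mdifferentiableWithinAt,
      fun z hz => (hb hz).1, rfl⟩, ⟨hq, mem_ball_self hr⟩, fun x hx => ?_⟩
  have := (hb hx.2).2
  rwa [mem_preimage, (chartAt ℂ q).left_inv hx.1] at this

end Flat

end Pool.Agent.MP_e62289_ag
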