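import Pool.Agent.MP_e62289_ag.L0
import Pool.Agent.MP_e62289_ag.L1a

open Set Filter Topology Complex MeasureTheory Metric
open scoped Manifold ContDiff ComplexConjugate NNReal ENNReal

namespace Pool.Agent.MP_e62289_ag

/-- the punctured disc is connected -/
theorem L1d_punct (ρ : ℝ) : IsPreconnected (ball (0 : ℂ) ρ \ {0}) := by
  have h : ball (0 : ℂ) ρ \ {0} =
      (fun p : ℝ × ℝ => (p.1 : ℂ) * exp (p.2 * I)) '' (Ioo 0 ρ ×ˢ univ) := by
    ext z
    constructor
    · rintro ⟨h1, h2⟩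
      exact ⟨(‖z‖, arg z), ⟨⟨norm_pos_iff.2 h2, mem_ball_zero_iff.1 h1⟩, mem_univ _⟩,
        norm_mul_exp_arg_mul_I z⟩
    · rintro ⟨⟨t, θ⟩, ⟨⟨h1, h2⟩, -⟩, rfl⟩
      have hn : ‖(t : ℂ) * exp (θ * I)‖ = t := by
        rw [norm_mul, norm_exp_ofReal_mul_I, mul_one, norm_real, Real.norm_of_nonneg h1.le]
      refine ⟨mem_ball_zero_iff.2 (hn.trans_lt h2), fun h0 => ?_⟩
      have h3 : (t : ℂ) * exp (θ * I) = 0 := h0
      rw [h3, norm_zero] at hn
      exact h1.ne hn
  rw [h]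
  exact (isPreconnected_Ioo.prod isPreconnected_univ).image _ (by fun_prop)

namespace Flat

variable {n : ℕ} (S : Flat n) {u : S.Y → ℂ} {q : S.Y}

theorem L1d_mem_target {i : Fin n} {z : ℂ} (h0 : z ≠ 0) (h1 : ‖z‖ < 1) : z ∈ (S.e i).target := by
  rw [S.e_target]
  exact ⟨mem_ball_zero_iff.2 h1, h0⟩

theorem L1d_map {i : Fin n} (hq : q ∈ (S.e i).source) : S.e i q ≠ 0 ∧ ‖S.e i q‖ < 1 := by
  have h := (S.e i).map_source hq
  rw [S.e_target] at h
  exact ⟨h.2, mem_ball_zero_iff.1 h.1⟩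

theorem L1d_mem_core {i : Fin n} {r : ℝ} (hq : q ∈ (S.e i).source) (hr : r ≤ ‖S.e i q‖) :
    q ∈ S.core r := by
  intro j hj
  by_cases hij : i = j
  · exact hij ▸ hr
  · exact absurd hj (disjoint_left.1 (S.e_disj hij) hq)

theorem isOpen_End (i : Fin n) (r : ℝ) : IsOpen (S.End i r) := by
  have h := (S.e i).isOpen_inter_preimage (isOpen_ball (x := (0 : ℂ)) (ε := r))
  convert h using 1
  ext q
  simp [End]

theorem L1d_End_eq (i : Fin n) (r : ℝ) :
    S.End i r = (S.e i).symm '' (ball (0 : ℂ) (min r 1) \ {0}) := by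
  ext q
  constructor
  · rintro ⟨h1, h2⟩
    have h := S.L1d_map h1
    exact ⟨S.e i q, ⟨mem_ball_zero_iff.2 (lt_min h2 h.2), h.1⟩, (S.e i).left_inv h1⟩
  · rintro ⟨z, ⟨h1, h2⟩, rfl⟩
    have h3 := lt_min_iff.1 (mem_ball_zero_iff.1 h1)
    have h4 := S.L1d_mem_target (i := i) h2 h3.2
    refine ⟨(S.e i).map_target h4, ?_⟩
    rw [(S.e i).right_inv h4]
    exact h3.1

theorem isPreconnected_End (i : Fin n) (r : ℝ) : IsPreconnected (S.End i r) := by
  rw [L1d_End_eq]
  refine (L1d_punct _).image _ ((S.e i).continuousOn_symm.mono fun z hz => ?_)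
  exact S.L1d_mem_target hz.2 ((mem_ball_zero_iff.1 hz.1).trans_le (min_le_right _ _))

theorem hasBasis_endF (i : Fin n) : (S.endF i).HasBasis (fun r : ℝ => 0 < r) (S.End i) := by
  have h := ((nhds_basis_ball (x := (0 : ℂ))).comap (S.e i)).inf_principal (S.e i).source
  refine h.congr (fun _ => Iff.rfl) fun r _ => ?_
  ext q
  simp [End, and_comm]

theorem neBot_endF (i : Fin n) : (S.endF i).NeBot := by
  refine (S.hasBasis_endF i).neBot_iff.2 fun {r} hr => ?_
  rw [L1d_End_eq]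
  have h : 0 < min r 1 := lt_min hr one_pos
  refine Nonempty.image _ ⟨((min r 1 / 2 : ℝ) : ℂ), mem_ball_zero_iff.2 ?_, ?_⟩
  · rw [norm_real, Real.norm_of_nonneg (by positivity)]
    linarith
  · exact ofReal_ne_zero.2 (by positivity)

/-- every compact set lies in the interior of a core -/
theorem subset_core {K : Set S.Y} (hK : IsCompact K) :
    ∃ r : ℝ, 0 < r ∧ r < 1 ∧ K ⊆ interior (S.core r) := by
  have hpos : ∀ k : ℕ, (0 : ℝ) < 1 / ((k : ℝ) + 2) := fun k => by positivity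
  have hlt : ∀ k : ℕ, 1 / ((k : ℝ) + 2) < 1 := fun k => by
    rw [div_lt_one (by positivity)]
    have : (0 : ℝ) ≤ k := Nat.cast_nonneg k
    linarith
  have hanti : ∀ {k l : ℕ}, k ≤ l → 1 / ((l : ℝ) + 2) ≤ 1 / ((k : ℝ) + 2) := fun {k l} h => by
    have : (k : ℝ) ≤ l := Nat.cast_le.2 h
    exact one_div_le_one_div_of_le (by positivity) (by linarith)
  have hmono : Monotone fun k : ℕ => interior (S.core (1 / ((k : ℝ) + 2))) := by
    intro k l h
    exact interior_mono fun q hq i hi => (hanti h).trans (hq i hi)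
  have hcov : K ⊆ ⋃ k : ℕ, interior (S.core (1 / ((k : ℝ) + 2))) := by
    intro q _
    have hev : ∀ᶠ k : ℕ in atTop, ∀ i, q ∈ (S.e i).source → 1 / ((k : ℝ) + 2) < ‖S.e i q‖ := by
      rw [eventually_all]
      intro i
      by_cases hi : q ∈ (S.e i).source
      · obtain ⟨k, hk⟩ := exists_nat_one_div_lt (norm_pos_iff.2 (S.L1d_map hi).1)
        filter_upwards [eventually_ge_atTop k] with l hl _
        refine lt_of_le_of_lt ?_ hk
        have : (k : ℝ) ≤ l := Nat.cast_le.2 hl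
        exact one_div_le_one_div_of_le (by positivity) (by linarith)
      · exact Eventually.of_forall fun _ h => absurd h hi
    obtain ⟨k, hk⟩ := hev.exists
    refine mem_iUnion.2 ⟨k, mem_interior.2
      ⟨(⋃ i, {q | q ∈ (S.e i).source ∧ ‖S.e i q‖ ≤ 1 / ((k : ℝ) + 2)})ᶜ, ?_, ?_, ?_⟩⟩
    · intro x hx i hi
      by_contra hc
      exact hx (mem_iUnion.2 ⟨i, hi, (not_le.1 hc).le⟩)
    · exact (isClosed_iUnion_of_finite fun i => S.e_closed i _ (hlt k)).isOpen_compl
    · intro hx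
      obtain ⟨i, hi, h2⟩ := mem_iUnion.1 hx
      exact absurd (hk i hi) (not_lt.2 h2)
  obtain ⟨k, hk⟩ := hK.elim_directed_cover _ (fun _ => isOpen_interior) hcov hmono.directed_le
  exact ⟨_, hpos k, hlt k, hk⟩

/-- the maximum principle in an end -/
theorem L1d_max (hu : Hol u) {i : Fin n} (hb : ∃ C : ℝ, ∀ᶠ q in S.endF i, ‖u q‖ ≤ C) {M : ℝ}
    (hM : ∀ q ∈ S.core (1 / 2), ‖u q‖ ≤ M) (hq : q ∈ S.End i (1 / 2)) : ‖u q‖ ≤ M := by
  obtain ⟨C, hC⟩ := hb
  obtain ⟨r, hr, hC⟩ := (S.hasBasis_endF i).eventually_iff.1 hC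
  have hg : ∀ z : ℂ, z ≠ 0 → ‖z‖ < 1 → DifferentiableAt ℂ (u ∘ (S.e i).symm) z := by
    intro z h0 h1
    exact mdifferentiableAt_iff_differentiableAt.1
      ((hu _).comp z ((coord_hol (S.e_hol i)).2 z (S.L1d_mem_target h0 h1)))
  have hρ : 0 < min r 1 := lt_min hr one_pos
  have h1 := differentiableOn_update_limUnder_of_bddAbove (f := u ∘ (S.e i).symm)
    (ball_mem_nhds (0 : ℂ) hρ)
    (fun z hz => (hg z hz.2
      ((mem_ball_zero_iff.1 hz.1).trans_le (min_le_right _ _))).differentiableWithinAt)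
    ⟨C, by
      rintro _ ⟨z, hz, rfl⟩
      exact hC (by rw [L1d_End_eq]; exact ⟨z, hz, rfl⟩)⟩
  set G := Function.update (u ∘ (S.e i).symm) 0 (limUnder (𝓝[≠] 0) (u ∘ (S.e i).symm)) with hG
  have h2 : DifferentiableOn ℂ G (closure (ball (0 : ℂ) (1 / 2))) := by
    intro z hz
    refine DifferentiableAt.differentiableWithinAt ?_
    by_cases h0 : z = 0
    · rw [h0]
      exact h1.differentiableAt (ball_mem_nhds _ hρ)
    · have h3 : ‖z‖ ≤ 1 / 2 := mem_closedBall_zero_iff.1 (closure_ball_subset_closedBall hz)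
      refine (hg z h0 (by linarith)).congr_of_eventuallyEq ?_
      filter_upwards [isOpen_ne.mem_nhds h0] with w hw
      exact Function.update_of_ne hw _ _
  have h3 := norm_le_of_forall_mem_frontier_norm_le (C := M) (z := S.e i q) isBounded_ball
    h2.diffContOnCl (fun z hz => by
      rw [frontier_ball _ (by norm_num), mem_sphere_zero_iff_norm] at hz
      have h0 : z ≠ 0 := norm_pos_iff.1 (by rw [hz]; norm_num)
      have ht := S.L1d_mem_target (i := i) h0 (by rw [hz]; norm_num)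
      rw [hG, Function.update_of_ne h0]
      refine hM _ (S.L1d_mem_core ((S.e i).map_target ht) ?_)
      rw [(S.e i).right_inv ht, hz])
    (subset_closure (mem_ball_zero_iff.2 hq.2))
  rwa [hG, Function.update_of_ne (S.L1d_map hq.1).1, Function.comp_apply,
    (S.e i).left_inv hq.1] at h3

/-- a bounded holomorphic function is constant -/
theorem const_of_bounded (hu : Hol u) (hb : ∀ i, ∃ C : ℝ, ∀ᶠ q in S.endF i, ‖u q‖ ≤ C) :
    ∃ c : ℂ, ∀ q, u q = c := by
  have hne : (S.core (1 / 2)).Nonempty := by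
    obtain ⟨q⟩ : Nonempty S.Y := inferInstance
    by_cases hq : q ∈ S.core (1 / 2)
    · exact ⟨q, hq⟩
    · obtain ⟨i, -⟩ := not_forall.1 hq
      have hn : ‖((1 / 2 : ℝ) : ℂ)‖ = 1 / 2 := by
        rw [norm_real, Real.norm_of_nonneg (by norm_num)]
      have ht := S.L1d_mem_target (i := i) (z := ((1 / 2 : ℝ) : ℂ))
        (ofReal_ne_zero.2 (by norm_num)) (by rw [hn]; norm_num)
      refine ⟨_, S.L1d_mem_core ((S.e i).map_target ht) ?_⟩
      rw [(S.e i).right_inv ht, hn]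
  obtain ⟨q₀, -, hq₀⟩ := (S.e_compact (1 / 2) (by norm_num)).exists_isMaxOn hne
    (f := fun q => ‖u q‖) hu.continuous.norm.continuousOn
  have hmax : IsMaxOn (norm ∘ u) univ q₀ := by
    intro q _
    by_cases hq : q ∈ S.core (1 / 2)
    · exact hq₀ hq
    · obtain ⟨i, hi⟩ := not_forall.1 hq
      obtain ⟨h1, h2⟩ := Classical.not_imp.1 hi
      exact S.L1d_max hu (hb i) (fun x hx => hq₀ hx) ⟨h1, not_le.1 h2⟩
  exact ⟨u q₀, fun q => hu.mdifferentiableOn.eqOn_of_isPreconnected_of_isMaxOn_norm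
    isPreconnected_univ isOpen_univ (mem_univ _) hmax (mem_univ q)⟩

end Flat

end Pool.Agent.MP_e62289_ag
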