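import Pool.Agent.MP_e62289_ag.XDefs
import Pool.Agent.MP_e62289_ag.L1

open Set Filter Topology Complex MeasureTheory Metric
open scoped Manifold ContDiff ComplexConjugate NNReal ENNReal

namespace Pool.Agent.MP_e62289_ag

variable {L : ℝ}

theorem X6a_pow_le {t : ℝ} (ht : 0 < t) :
    t ^ 4 ≤ Real.exp (4 * |Real.log t|) ∧ (t ^ 4)⁻¹ ≤ Real.exp (4 * |Real.log t|) := by
  have h : t ^ 4 = Real.exp (4 * Real.log t) := by
    rw [show (4 : ℝ) * Real.log t = ((4 : ℕ) : ℝ) * Real.log t by norm_num, Real.exp_nat_mul,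
      Real.exp_log ht]
  rw [h, ← Real.exp_neg]
  constructor
  · exact Real.exp_le_exp.mpr (by linarith [le_abs_self (Real.log t)])
  · exact Real.exp_le_exp.mpr (by linarith [neg_abs_le (Real.log t)])

theorem X6a_Q (hL : 1 ≤ L) {x y : ℂ} (h : y ^ 2 = PP (Real.exp (-4 * L)) x) (hx : x ≠ 0) :
    ‖(y / x ^ 2) ^ 2 - 1‖ ≤ 3 * Real.exp (4 * |Real.log ‖x‖| - 16 * L) := by
  set s : ℝ := Real.exp (-4 * L) with hs
  have hs4 : s ^ 4 = Real.exp (-(16 * L)) := by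
    rw [hs, ← Real.exp_nat_mul]; congr 1; push_cast; ring
  have hs0 : 0 < s ^ 4 := by rw [hs4]; exact Real.exp_pos _
  have hs1 : s ^ 4 ≤ 1 := by rw [hs4]; exact Real.exp_le_one_iff.mpr (by linarith)
  have hQ : (y / x ^ 2) ^ 2 - 1 =
      ((s ^ 4 : ℝ) : ℂ) * (((s ^ 4 : ℝ) : ℂ) - x ^ 4 - (x ^ 4)⁻¹) := by
    rw [div_pow, h, PP]
    push_cast
    field_simp
    ring
  obtain ⟨h1, h2⟩ := X6a_pow_le (norm_pos_iff.mpr hx)
  have h3 : (1 : ℝ) ≤ Real.exp (4 * |Real.log ‖x‖|) := Real.one_le_exp (by positivity)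
  have h4 : ‖((s ^ 4 : ℝ) : ℂ) - x ^ 4 - (x ^ 4)⁻¹‖ ≤ 3 * Real.exp (4 * |Real.log ‖x‖|) := by
    refine (norm_sub_le _ _).trans ?_
    refine (add_le_add_left (norm_sub_le _ _) _).trans ?_
    rw [norm_inv, norm_pow, Complex.norm_real, Real.norm_eq_abs, abs_of_pos hs0]
    linarith
  rw [hQ, norm_mul, Complex.norm_real, Real.norm_eq_abs, abs_of_pos hs0, sub_eq_add_neg (4 * _),
    Real.exp_add, ← hs4]
  nlinarith [mul_le_mul_of_nonneg_left h4 hs0.le]

theorem X6a_near {j : ℂ} (hj : 0 ≤ j.re) : ‖j - 1‖ ≤ ‖j ^ 2 - 1‖ := by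
  have h1 : j ^ 2 - 1 = (j - 1) * (j + 1) := by ring
  have h2 : 1 ≤ ‖j + 1‖ := by
    refine le_trans ?_ (Complex.re_le_norm _)
    simp only [add_re, one_re]; linarith
  rw [h1, norm_mul]
  exact le_mul_of_one_le_right (norm_nonneg _) h2

/-- between the branch points the two sheets are separated -/
theorem sheet (hL : 1 ≤ L) {x y : ℂ} (h : y ^ 2 = PP (Real.exp (-4 * L)) x) (hx : x ≠ 0)
    (hl : |Real.log ‖x‖| ≤ 3 * L) :
    (y / x ^ 2).re ≠ 0 ∧
      ‖sg x y * y / x ^ 2 - 1‖ ≤ 3 * Real.exp (4 * |Real.log ‖x‖| - 16 * L) := by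
  have hQ := X6a_Q hL h hx
  constructor
  · intro h0
    have h1 : Real.exp (4 * |Real.log ‖x‖| - 16 * L) ≤ Real.exp (-4) :=
      Real.exp_le_exp.mpr (by linarith)
    have h2 : Real.exp (-4) < 1 / 3 := by
      have := Real.add_one_le_exp (4 : ℝ)
      rw [Real.exp_neg, inv_lt_comm₀ (Real.exp_pos _) (by norm_num)]
      linarith
    have h3 : |((y / x ^ 2) ^ 2 - 1).re| ≤ ‖(y / x ^ 2) ^ 2 - 1‖ := Complex.abs_re_le_norm _
    have h4 : ((y / x ^ 2) ^ 2 - 1).re = -((y / x ^ 2).im * (y / x ^ 2).im) - 1 := by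
      rw [sub_re, one_re, pow_two (y / x ^ 2), mul_re, h0]; ring
    have h5 := neg_abs_le ((y / x ^ 2) ^ 2 - 1).re
    nlinarith [mul_self_nonneg (y / x ^ 2).im]
  · refine le_trans ?_ hQ
    unfold sg
    split_ifs with h0
    · rw [one_mul]; exact X6a_near h0.le
    · have h1 : (-1 : ℂ) * y / x ^ 2 = -(y / x ^ 2) := by ring
      rw [h1, ← neg_sq (y / x ^ 2)]
      exact X6a_near (by rw [neg_re]; linarith [not_lt.mp h0])

theorem X6a_mixed (Au Bu : ℂ → ℂ) (Ar Br a b w : ℂ) (hA : HasDerivAt Au a 0)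
    (hB : HasDerivAt Bu b 0) (hA0 : Au 0 = w) (hB0 : Bu 0 = 0) (hw : w ≠ 0) (μ : ℂ → ℂ → ℂ)
    (hμ : ∀ u r, μ u r = (Bu u + r * Br) / (Au u + r * Ar)) :
    HasDerivAt (fun u => deriv (fun r => μ u r) 0) (-(Br * a + b * Ar) / w ^ 2) 0 := by
  have hne : ∀ᶠ u in 𝓝 (0 : ℂ), Au u ≠ 0 := hA.continuousAt.eventually_ne (by rwa [hA0])
  have hev : (fun u => deriv (fun r => μ u r) 0) =ᶠ[𝓝 0]
      fun u => (Br * Au u - Bu u * Ar) / Au u ^ 2 := by
    filter_upwards [hne] with u hu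
    have h1 : HasDerivAt (fun r : ℂ => Bu u + r * Br) Br 0 := by
      simpa using ((hasDerivAt_id (0 : ℂ)).mul_const Br).const_add (Bu u)
    have h2 : HasDerivAt (fun r : ℂ => Au u + r * Ar) Ar 0 := by
      simpa using ((hasDerivAt_id (0 : ℂ)).mul_const Ar).const_add (Au u)
    have h3 := h1.div h2 (by simpa using hu)
    have h4 : (fun r => μ u r) = (fun r : ℂ => Bu u + r * Br) / fun r : ℂ => Au u + r * Ar := by
      funext r; simp [hμ]
    rw [h4, h3.deriv]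
    simp
  refine HasDerivAt.congr_of_eventuallyEq ?_ hev
  have h5 := ((hA.const_mul Br).fun_sub (hB.mul_const Ar)).fun_div (hA.fun_pow 2)
    (by simpa [hA0] using hw)
  refine h5.congr_deriv ?_
  simp only [hA0, hB0]
  field_simp
  ring

theorem X6a_cases (hL : 1 ≤ L) {x : ℂ} :
    (cZ (‖x ^ 2 + 1‖ ^ 2) = 0 ∧ deriv cZ (‖x ^ 2 + 1‖ ^ 2) = 0) ∨
      (cA (Real.log ‖x‖ / L) = 1 ∧ deriv cA (Real.log ‖x‖ / L) = 0) := by
  by_cases h : 1 / 4 < ‖x ^ 2 + 1‖ ^ 2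
  · left
    have hev : cZ =ᶠ[𝓝 (‖x ^ 2 + 1‖ ^ 2)] fun _ => 0 := by
      filter_upwards [Ioi_mem_nhds h] with t ht
      exact Real.smoothTransition.zero_of_nonpos (by
        have : (1 : ℝ) / 4 < t := ht
        nlinarith)
    exact ⟨hev.self_of_nhds, by rw [hev.deriv_eq, deriv_const]⟩
  · right
    have h1 : ‖x ^ 2 + 1‖ ≤ 1 / 2 := by
      nlinarith [norm_nonneg (x ^ 2 + 1), not_lt.mp h]
    have h2 : ‖x‖ ^ 2 ≤ 3 / 2 := by
      have := norm_sub_le (x ^ 2 + 1) 1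
      rw [add_sub_cancel_right, norm_pow, norm_one] at this
      linarith
    have h3 : 1 / 2 ≤ ‖x‖ ^ 2 := by
      have := norm_sub_le (x ^ 2 + 1) (x ^ 2)
      rw [add_sub_cancel_left, norm_pow, norm_one] at this
      linarith
    have h4 : 1 / 2 < ‖x‖ := by nlinarith [norm_nonneg x]
    have h5 : ‖x‖ < 2 := by nlinarith [norm_nonneg x]
    have h6 : |Real.log ‖x‖| < 1 := by
      have hp : 0 < ‖x‖ := by linarith
      have a1 := Real.log_le_sub_one_of_pos hp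
      have a2 := Real.one_sub_inv_le_log_of_pos hp
      have a3 : ‖x‖⁻¹ < 2 := by
        rw [inv_lt_comm₀ hp (by norm_num)]; linarith
      rw [abs_lt]; constructor <;> linarith
    have h7 : |Real.log ‖x‖ / L| < 1 := by
      rw [abs_div, abs_of_pos (show (0 : ℝ) < L by linarith), div_lt_one (by linarith)]
      linarith
    have hev : cA =ᶠ[𝓝 (Real.log ‖x‖ / L)] fun _ => 1 := by
      filter_upwards [Ioo_mem_nhds (abs_lt.mp h7).1 (abs_lt.mp h7).2] with t ht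
      exact Real.smoothTransition.one_of_one_le (by nlinarith [ht.1, ht.2])
    exact ⟨hev.self_of_nhds, by rw [hev.deriv_eq, deriv_const]⟩

theorem nu_eq (hL : 1 ≤ L) {x y : ℂ} (hx : x ≠ 0) (hw : x ^ 2 + 1 ≠ 0) :
    ∃ ν : ℂ, HasDerivAt (fun u => deriv (fun r => muX L u r x y) 0) ν 0 ∧
      ν * (x * y / (x ^ 2 + 1)) = nuX L x y := by
  have hσ : sg x y * sg x y = 1 := by unfold sg; split_ifs <;> norm_num
  have hL0 : (L : ℂ) ≠ 0 := by exact_mod_cast (show L ≠ 0 by linarith)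
  have hcx : conj x ≠ 0 := by simpa using hx
  have hκ : (1 - (Real.exp (-4 * L) : ℂ) ^ 4) ≠ 0 := by
    have h1 : Real.exp (-4 * L) < 1 := Real.exp_lt_one_iff.mpr (by linarith)
    have h2 : Real.exp (-4 * L) ^ 4 < 1 := pow_lt_one₀ (Real.exp_pos _).le h1 (by norm_num)
    have h3 : (1 - Real.exp (-4 * L) ^ 4) ≠ 0 := by linarith
    exact_mod_cast h3
  have hcase := X6a_cases hL (x := x)
  have hny : ((‖y‖ ^ 2 : ℝ) : ℂ) = y * conj y := by rw [Complex.mul_conj, Complex.normSq_eq_norm_sq]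
  have hnx : ((‖x‖ ^ 2 : ℝ) : ℂ) = x * conj x := by rw [Complex.mul_conj, Complex.normSq_eq_norm_sq]
  unfold muX nuX K1 K2
  rw [hny, hnx]
  generalize sg x y = σ at hσ ⊢
  generalize (1 - (Real.exp (-4 * L) : ℂ) ^ 4) = κ at hκ ⊢
  generalize cA (Real.log ‖x‖ / L) = a at hcase ⊢
  generalize deriv cA (Real.log ‖x‖ / L) = a' at hcase ⊢
  generalize cZ (‖x ^ 2 + 1‖ ^ 2) = z at hcase ⊢
  generalize deriv cZ (‖x ^ 2 + 1‖ ^ 2) = z' at hcase ⊢
  generalize ((‖x ^ 2 + 1‖ ^ 2 : ℝ) : ℂ) = N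
  have hE : HasDerivAt (fun u : ℂ => exp (u * σ * a / 2)) (σ * a / 2) 0 := by
    have h1 : HasDerivAt (fun u : ℂ => u * σ * a / 2) (σ * a / 2) 0 := by
      simpa using (((hasDerivAt_id (0 : ℂ)).mul_const σ).mul_const (a : ℂ)).div_const 2
    simpa using h1.cexp
  have hEu : ∀ c : ℂ, HasDerivAt (fun u : ℂ => exp (u * σ * a / 2) * (u * c)) c 0 := by
    intro c
    have h1 : HasDerivAt (fun u : ℂ => u * c) c 0 := by
      simpa using (hasDerivAt_id (0 : ℂ)).mul_const c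
    exact (hE.fun_mul h1).congr_deriv (by simp)
  have hA : HasDerivAt (fun u : ℂ => x ^ 2 + 1 + σ * ((exp (u * σ * a / 2) - 1) * (1 + 1 / x ^ 2) +
      exp (u * σ * a / 2) * (u * (σ * a' / (4 * L * x))) * (x - 1 / x)) * y)
      (σ * (σ * a / 2 * (1 + 1 / x ^ 2) + σ * a' / (4 * L * x) * (x - 1 / x)) * y) 0 :=
    (((((hE.sub_const 1).mul_const _).add ((hEu _).mul_const _)).const_mul σ).mul_const y).const_add _
  have hB : HasDerivAt (fun u : ℂ => σ * (exp (u * σ * a / 2) *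
      (u * (σ * a' / (4 * L * conj x))) * (x - 1 / x)) * conj y)
      (σ * (σ * a' / (4 * L * conj x) * (x - 1 / x)) * conj y) 0 :=
    (((hEu _).mul_const _).const_mul σ).mul_const _
  refine ⟨_, X6a_mixed _ _ (x + σ * (1 / κ * x * (z + N * z')) * y)
    (σ * (1 / κ * (x ^ 2 + 1) ^ 2 * z' * conj x) * conj y) _ _ (x ^ 2 + 1) hA hB (by simp)
    (by simp) hw _ (fun u r => ?_), ?_⟩
  · congr 1 <;> ring
  · rcases hcase with ⟨h1, h2⟩ | ⟨h1, h2⟩
    · subst h1 h2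
      simp only [ofReal_zero]
      field_simp
      rw [pow_two σ, hσ]
      ring
    · subst h1 h2
      simp only [ofReal_zero, ofReal_one]
      field_simp
      rw [pow_two σ, hσ]
      ring

end Pool.Agent.MP_e62289_ag
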