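import Pool.Agent.MP_e62289_ag.XDefs
import Pool.Agent.MP_e62289_ag.L1
import Pool.Agent.MP_e62289_ag.X6a

open Set Filter Topology Complex MeasureTheory Metric
open scoped Manifold ContDiff ComplexConjugate NNReal ENNReal

namespace Pool.Agent.MP_e62289_ag

variable {L : ℝ}

/-- the potential on a fixed sheet -/
noncomputable def X6b_F (σ : ℂ) (L : ℝ) (u r x : ℂ) : ℂ :=
  σ * ((exp (u * σ * cA (Real.log ‖x‖ / L) / 2) - 1) * (x - 1 / x) +
    r / (2 * (1 - (Real.exp (-4 * L) : ℂ) ^ 4)) * ((x ^ 2 + 1) * cZ (‖x ^ 2 + 1‖ ^ 2)))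

theorem X6b_cA {k : ℕ∞} : ContDiff ℝ k cA :=
  Real.smoothTransition.contDiff.comp (f := fun t : ℝ => (4 - t ^ 2) / 3) (by fun_prop)

theorem X6b_cZ {k : ℕ∞} : ContDiff ℝ k cZ :=
  Real.smoothTransition.contDiff.comp (f := fun t : ℝ => (1 / 4 - t) * (16 / 3)) (by fun_prop)

theorem X6b_zero (hL : 1 ≤ L) {x : ℂ} (hx : x ≠ 0) (h : 2 * L < |Real.log ‖x‖|) (σ u r : ℂ) :
    X6b_F σ L u r x = 0 := by
  have hL0 : 0 < L := by linarith
  have hn : 0 < ‖x‖ := norm_pos_iff.2 hx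
  have h1 : cA (Real.log ‖x‖ / L) = 0 := by
    refine Real.smoothTransition.zero_of_nonpos ?_
    have h2 : 2 < |Real.log ‖x‖ / L| := by
      rw [abs_div, abs_of_pos hL0, lt_div_iff₀ hL0]
      exact h
    have h3 := sq_abs (Real.log ‖x‖ / L)
    nlinarith
  have h4 : 1 / 2 ≤ ‖x ^ 2 + 1‖ := by
    rcases lt_abs.1 h with h5 | h5
    · have h6 := Real.log_le_sub_one_of_pos hn
      have h7 := norm_sub_le (x ^ 2 + 1) 1
      rw [add_sub_cancel_right, norm_pow, norm_one] at h7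
      nlinarith
    · have h6 := Real.log_le_sub_one_of_pos (inv_pos.2 hn)
      rw [Real.log_inv] at h6
      have h8 : ‖x‖ ≤ 1 / 2 := by
        have h9 : 2 ≤ ‖x‖⁻¹ := by linarith
        rw [le_inv_comm₀ two_pos hn] at h9
        linarith
      have h7 := norm_sub_le (x ^ 2 + 1) (x ^ 2)
      rw [add_sub_cancel_left, norm_pow, norm_one] at h7
      nlinarith
  have h2 : cZ (‖x ^ 2 + 1‖ ^ 2) = 0 :=
    Real.smoothTransition.zero_of_nonpos (by nlinarith)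
  simp [X6b_F, h1, h2]

theorem X6b_loc (hL : 1 ≤ L) (H : Hyp (Real.exp (-4 * L))) (q : H.S.Y) :
    ∀ᶠ q' in 𝓝 q, ∀ u r, KK L u r (H.x q') (H.y q') =
      X6b_F (sg (H.x q) (H.y q)) L u r (H.x q') := by
  have hx := H.x_hol.continuous
  have hy := H.y_hol.continuous
  rcases le_or_gt |Real.log ‖H.x q‖| (3 * L) with h | h
  · have hc : Continuous fun q => (H.y q / H.x q ^ 2).re :=
      continuous_re.comp (hy.div (hx.pow 2) fun q => pow_ne_zero 2 (H.x_ne q))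
    have h1 : ∀ᶠ q' in 𝓝 q, sg (H.x q') (H.y q') = sg (H.x q) (H.y q) := by
      rcases lt_or_gt_of_ne (sheet hL (H.eqn q) (H.x_ne q) h).1 with h2 | h2
      · filter_upwards [(isOpen_lt hc continuous_const).mem_nhds h2] with q' hq'
        rw [sg, sg, if_neg (not_lt.2 (le_of_lt hq')), if_neg (not_lt.2 h2.le)]
      · filter_upwards [(isOpen_lt continuous_const hc).mem_nhds h2] with q' hq'
        rw [sg, sg, if_pos hq', if_pos h2]
    filter_upwards [h1] with q' hq' u r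
    rw [← hq']
    rfl
  · have hc : Continuous fun q => |Real.log ‖H.x q‖| :=
      (hx.norm.log fun q => norm_ne_zero_iff.2 (H.x_ne q)).abs
    have h1 : 2 * L < |Real.log ‖H.x q‖| := by linarith
    filter_upwards [(isOpen_lt continuous_const hc).mem_nhds h1] with q' hq' u r
    rw [X6b_zero hL (H.x_ne q') hq']
    exact X6b_zero hL (H.x_ne q') hq' _ u r

theorem X6b_contDiffAt (σ : ℂ) (L : ℝ) {p : P2 × ℂ} (hp : p.2 ≠ 0) :
    ContDiffAt ℝ 2 (fun p : P2 × ℂ => X6b_F σ L (p.1 0) (p.1 1) p.2) p := by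
  have h1 : ContDiffAt ℝ 2 (fun p : P2 × ℂ => ((cA (Real.log ‖p.2‖ / L) : ℝ) : ℂ)) p :=
    ofRealCLM.contDiff.contDiffAt.comp p ((X6b_cA (k := 2)).contDiffAt.comp p
      (((contDiffAt_snd.norm ℝ hp).log (norm_ne_zero_iff.2 hp)).div_const L))
  have h0 : ContDiffAt ℝ 2 (fun p : P2 × ℂ => p.2 ^ 2 + 1) p := by fun_prop
  have h2 : ContDiffAt ℝ 2 (fun p : P2 × ℂ => ((cZ (‖p.2 ^ 2 + 1‖ ^ 2) : ℝ) : ℂ)) p :=
    ofRealCLM.contDiff.contDiffAt.comp p ((X6b_cZ (k := 2)).contDiffAt.comp p (h0.norm_sq ℝ))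
  have h3 : ContDiffAt ℝ 2 (fun p : P2 × ℂ => 1 / p.2) p := by
    simp only [one_div]
    exact contDiffAt_snd.inv hp
  have h4 : ∀ i, ContDiffAt ℝ 2 (fun p : P2 × ℂ => p.1 i) p := fun i => by fun_prop
  exact contDiffAt_const.mul
    (((((((h4 0).mul contDiffAt_const).mul h1).div_const 2).cexp.sub contDiffAt_const).mul
      (contDiffAt_snd.sub h3)).add (((h4 1).div_const _).mul (h0.mul h2)))

section W

variable {Y : Type} [TopologicalSpace Y] [ChartedSpace ℂ Y] {f g : Y → ℂ} {q : Y} {a b c d : ℂ}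

/-- `f` is differentiable at `q` with Wirtinger derivatives `a`, `b` -/
def X6b_W (f : Y → ℂ) (q : Y) (a b : ℂ) : Prop := RDiffAt f q ∧ d1 f q = a ∧ d2 f q = b

theorem X6b_W.const (c : ℂ) (q : Y) : X6b_W (fun _ => c) q 0 0 :=
  ⟨mdifferentiableAt_const, d_const c q⟩

theorem X6b_W.add (hf : X6b_W f q a b) (hg : X6b_W g q c d) :
    X6b_W (fun x => f x + g x) q (a + c) (b + d) := by
  obtain ⟨h1, rfl, rfl⟩ := hf
  obtain ⟨h2, rfl, rfl⟩ := hg
  exact ⟨RDiffAt.add h1 h2, d_add h1 h2⟩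

theorem X6b_W.mul (hf : X6b_W f q a b) (hg : X6b_W g q c d) :
    X6b_W (fun x => f x * g x) q (a * g q + f q * c) (b * g q + f q * d) := by
  obtain ⟨h1, rfl, rfl⟩ := hf
  obtain ⟨h2, rfl, rfl⟩ := hg
  exact ⟨RDiffAt.mul h1 h2, d_mul h1 h2⟩

theorem X6b_W.hol (hf : X6b_W f q a b) {G : ℂ → ℂ} (hG : HasDerivAt G c (f q)) :
    X6b_W (fun x => G (f x)) q (c * a) (c * b) := by
  obtain ⟨h1, rfl, rfl⟩ := hf
  exact d_hol_comp hG h1

theorem X6b_W.real (hf : X6b_W f q a 0) {G : ℝ → ℝ} {e : ℝ} (hG : HasDerivAt G e (‖f q‖ ^ 2)) :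
    X6b_W (fun x => (G (‖f x‖ ^ 2) : ℂ)) q (e * conj (f q) * a) (e * f q * conj a) := by
  obtain ⟨h1, rfl, h2⟩ := hf
  have h3 := ofRealCLM.hasFDerivAt.comp (f q)
    (hG.comp_hasFDerivAt (f q) (hasStrictFDerivAt_norm_sq (f q)).hasFDerivAt)
  have h4 : HasFDerivAt (fun z : ℂ => (G (‖z‖ ^ 2) : ℂ)) _ (f q) := h3
  have h5 := h4.differentiableAt.mdifferentiableAt
  have h6 := d_comp h5 h1
  have h7 := d_plane (fun z : ℂ => (G (‖z‖ ^ 2) : ℂ)) (f q)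
  have h8 := w_eq (L := fderiv ℝ (fun z : ℂ => (G (‖z‖ ^ 2) : ℂ)) (f q))
    (a := e * conj (f q)) (b := e * f q) fun v => by
      rw [h4.fderiv]
      apply Complex.ext <;> simp [Complex.inner] <;> ring
  rw [h7.1, h7.2, h8.1, h8.2, h2, map_zero, mul_zero, mul_zero, add_zero, zero_add] at h6
  exact ⟨h5.comp q h1, h6⟩

theorem X6b_W.logn (hf : X6b_W f q a 0) (h0 : f q ≠ 0) {L : ℝ} (hL : L ≠ 0) :
    X6b_W (fun x => (cA (Real.log ‖f x‖ / L) : ℂ)) q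
      (deriv cA (Real.log ‖f q‖ / L) / (2 * L * f q) * a)
      (deriv cA (Real.log ‖f q‖ / L) / (2 * L * conj (f q)) * conj a) := by
  have hn : ‖f q‖ ^ 2 ≠ 0 := pow_ne_zero 2 (norm_ne_zero_iff.2 h0)
  have hl : ∀ z : ℂ, Real.log (‖z‖ ^ 2) / (2 * L) = Real.log ‖z‖ / L := fun z => by
    rw [Real.log_pow, Nat.cast_ofNat, mul_div_mul_left _ _ two_ne_zero]
  have hA : HasDerivAt cA (deriv cA (Real.log ‖f q‖ / L)) (Real.log (‖f q‖ ^ 2) / (2 * L)) := by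
    rw [hl]
    exact ((X6b_cA (k := 1)).differentiable (by simp) _).hasDerivAt
  have hB : HasDerivAt (fun t => cA (Real.log t / (2 * L)))
      (deriv cA (Real.log ‖f q‖ / L) * ((‖f q‖ ^ 2)⁻¹ / (2 * L))) (‖f q‖ ^ 2) :=
    HasDerivAt.comp (h₂ := cA) _ hA ((Real.hasDerivAt_log hn).div_const (2 * L))
  have h1 := hf.real hB
  simp only [hl] at h1
  have n1 : ((‖f q‖ ^ 2 : ℝ) : ℂ) = f q * conj (f q) := by
    rw [mul_conj, normSq_eq_norm_sq]
  have hc0 : conj (f q) ≠ 0 := (map_ne_zero _).2 h0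
  have hL0 : (L : ℂ) ≠ 0 := ofReal_ne_zero.2 hL
  rw [ofReal_mul, ofReal_div, ofReal_inv, n1, ofReal_mul, ofReal_ofNat] at h1
  convert h1 using 2 <;> field_simp

theorem X6b_W.pot (hf : X6b_W f q a 0) (h0 : f q ≠ 0) {L : ℝ} (hL : L ≠ 0) (u r y : ℂ) :
    X6b_W (fun x => X6b_F (sg (f q) y) L u r (f x)) q (K1 L u r (f q) y * a)
      (K2 L u r (f q) y * conj a) := by
  rw [K1, K2]
  unfold X6b_F
  generalize sg (f q) y = σ
  generalize 1 - (Real.exp (-4 * L) : ℂ) ^ 4 = D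
  have h1 := hf.logn h0 hL
  have g2 : ∀ z : ℂ, HasDerivAt (fun z => exp (u * σ * z / 2) - 1)
      (exp (u * σ * z / 2) * (u * σ * 1 / 2)) z := fun z =>
    (((hasDerivAt_id' z).const_mul (u * σ)).div_const 2).cexp.sub_const 1
  have g3 : HasDerivAt (fun z : ℂ => z - 1 / z) (1 + 1 / f q ^ 2) (f q) := by
    simp only [one_div]
    exact ((hasDerivAt_id' (f q)).fun_sub (hasDerivAt_inv h0)).congr_deriv (sub_neg_eq_add _ _)
  have g4 : HasDerivAt (fun z : ℂ => z ^ 2 + 1) (2 * f q) (f q) := by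
    simpa using (hasDerivAt_pow 2 (f q)).add_const 1
  have h2 := h1.hol (g2 _)
  have h3 := hf.hol g3
  have h4 := hf.hol g4
  rw [mul_zero] at h4
  have h5 := h4.real ((X6b_cZ (k := 1)).differentiable (by simp) _).hasDerivAt
  have h6 := (X6b_W.const σ q).mul ((h2.mul h3).add
    ((X6b_W.const (r / (2 * D)) q).mul (h4.mul h5)))
  have n2 : ((‖f q ^ 2 + 1‖ ^ 2 : ℝ) : ℂ) = (f q ^ 2 + 1) * conj (f q ^ 2 + 1) := by
    rw [mul_conj, normSq_eq_norm_sq]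
  refine ⟨h6.1, h6.2.1.trans ?_, h6.2.2.trans ?_⟩
  · rw [n2]
    ring
  · rw [map_mul, map_mul, map_ofNat]
    ring

end W

theorem KK_smooth (hL : 1 ≤ L) (H : Hyp (Real.exp (-4 * L))) :
    ContMDiff (𝓘(ℝ, P2).prod 𝓘(ℝ, ℂ)) 𝓘(ℝ, ℂ) 2
      fun p : P2 × H.S.Y => KK L (p.1 0) (p.1 1) (H.x p.2) (H.y p.2) := by
  intro p
  have h1 : ContMDiffAt (𝓘(ℝ, P2).prod 𝓘(ℝ, ℂ)) 𝓘(ℝ, P2 × ℂ) 2
      (fun p : P2 × H.S.Y => (p.1, H.x p.2)) p :=
    contMDiffAt_fst.prodMk_space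
      ((ckAt_of_hol (Eventually.of_forall H.x_hol) 2).comp p contMDiffAt_snd)
  refine ((X6b_contDiffAt (sg (H.x p.2) (H.y p.2)) L (p := (p.1, H.x p.2))
    (H.x_ne p.2)).contMDiffAt.comp p h1).congr_of_eventuallyEq ?_
  filter_upwards [continuous_snd.continuousAt.eventually (X6b_loc hL H p.2)] with p' hp'
  exact hp' _ _

theorem KK_d (hL : 1 ≤ L) (H : Hyp (Real.exp (-4 * L))) (u r : ℂ) (q : H.S.Y) :
    d1 (fun q => KK L u r (H.x q) (H.y q)) q = K1 L u r (H.x q) (H.y q) * H.y q ∧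
    d2 (fun q => KK L u r (H.x q) (H.y q)) q = K2 L u r (H.x q) (H.y q) * conj (H.y q) := by
  have e := d_congr (G := fun q => KK L u r (H.x q) (H.y q))
    (G' := fun q' => X6b_F (sg (H.x q) (H.y q)) L u r (H.x q'))
    ((X6b_loc hL H q).mono fun q' h => h u r)
  have hx : X6b_W H.x q (H.y q) 0 := ⟨(d2_of_hol (H.x_hol q)).1, H.d1x q, (d2_of_hol (H.x_hol q)).2⟩
  have h := hx.pot (H.x_ne q) (L := L) (by linarith) u r (H.y q)
  exact ⟨e.1.trans h.2.1, e.2.trans h.2.2⟩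

end Pool.Agent.MP_e62289_ag
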