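import Pool.Agent.MP_e62289_ag.X4
import Pool.Agent.MP_e62289_ag.X6

open Set Filter Topology Complex MeasureTheory Metric
open scoped Manifold ContDiff ComplexConjugate NNReal ENNReal

namespace Pool.Agent.MP_e62289_ag

/-- the main density -/
noncomputable def X9g (z : ℂ) : ℝ := ‖z‖ ^ 2 * -deriv cZ (‖z ^ 2 + 1‖ ^ 2)

/-- the density of the error term -/
noncomputable def X9h (z : ℂ) : ℝ := (1 + ‖z‖ ^ 2)⁻¹ ^ 2

theorem X9_cZ : ContDiff ℝ 1 cZ := by
  unfold cZ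
  exact Real.smoothTransition.contDiff.comp (by fun_prop)

theorem X9_cA : ContDiff ℝ 1 cA := by
  unfold cA
  exact Real.smoothTransition.contDiff.comp (by fun_prop)

theorem X9_dZ {t : ℝ} (h : deriv cZ t ≠ 0) : t ≤ 1 / 4 := by
  by_contra ht
  refine h ?_
  have e : cZ =ᶠ[𝓝 t] fun _ => 0 := by
    filter_upwards [lt_mem_nhds (not_le.1 ht)] with u hu
    exact Real.smoothTransition.zero_of_nonpos (by linarith)
  rw [e.deriv_eq, deriv_const]

theorem X9_dA {t : ℝ} (h : deriv cA t ≠ 0) : 1 ≤ |t| := by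
  by_contra ht
  refine h ?_
  have e : cA =ᶠ[𝓝 t] fun _ => 1 := by
    filter_upwards [(continuous_abs.tendsto t).eventually (gt_mem_nhds (not_le.1 ht))] with u hu
    have h1 : u ^ 2 ≤ 1 := (sq_le_one_iff_abs_le_one u).2 hu.le
    exact Real.smoothTransition.one_of_one_le (by linarith)
  rw [e.deriv_eq, deriv_const]

theorem X9_bA : ∃ C : ℝ, ∀ t, ‖deriv cA t‖ ≤ C := by
  refine (X9_cA.continuous_deriv le_rfl).bounded_above_of_compact_support
    (HasCompactSupport.deriv (HasCompactSupport.intro (isCompact_Icc (a := -2) (b := 2)) ?_))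
  intro t ht
  have h1 : 4 ≤ t ^ 2 := by
    by_contra h2
    refine ht ⟨?_, ?_⟩ <;> nlinarith
  exact Real.smoothTransition.zero_of_nonpos (by linarith)

theorem X9g_nonneg (z : ℂ) : 0 ≤ X9g z := by
  have h : Antitone cZ := fun a b hab => Real.smoothTransition.monotone (by linarith)
  exact mul_nonneg (sq_nonneg _) (neg_nonneg.2 h.deriv_nonpos)

theorem X9g_cont : Continuous X9g := by
  have h := X9_cZ.continuous_deriv le_rfl
  unfold X9g
  fun_prop

theorem X9g_supp {z : ℂ} (h : X9g z ≠ 0) : 1 / 2 ≤ ‖z‖ ∧ ‖z‖ ≤ 2 := by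
  have h1 := X9_dZ (neg_ne_zero.1 (right_ne_zero_of_mul h))
  have h2 : ‖z ^ 2 + 1‖ ≤ 1 / 2 := by nlinarith [norm_nonneg (z ^ 2 + 1)]
  have h3 := norm_sub_le (z ^ 2 + 1) 1
  have h4 := norm_sub_le (z ^ 2 + 1) (z ^ 2)
  rw [add_sub_cancel_right, norm_pow, norm_one] at h3
  rw [add_sub_cancel_left, norm_pow, norm_one] at h4
  constructor <;> nlinarith [norm_nonneg z]

theorem X9g_cs : HasCompactSupport X9g :=
  HasCompactSupport.intro (isCompact_closedBall 0 2) fun z hz => by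
    by_contra h
    exact hz (mem_closedBall_zero_iff.2 (X9g_supp h).2)

theorem X9g_pos : 0 < ∫ z, X9g z := by
  obtain ⟨t, ⟨h0, h1⟩, ht⟩ := exists_deriv_eq_slope cZ (a := 0) (b := 1 / 4) (by norm_num)
    X9_cZ.continuous.continuousOn (X9_cZ.differentiable one_ne_zero).differentiableOn
  have e0 : cZ 0 = 1 := Real.smoothTransition.one_of_one_le (by norm_num)
  have e1 : cZ (1 / 4) = 0 := Real.smoothTransition.zero_of_nonpos (by norm_num)
  rw [e0, e1] at ht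
  have h2 : √t < 1 := (Real.sqrt_lt' one_pos).2 (by linarith)
  have h3 : (I * (√(1 - √t) : ℝ)) ^ 2 + 1 = (√t : ℝ) := by
    rw [mul_pow, I_sq, ← ofReal_pow, Real.sq_sqrt (by linarith)]
    push_cast
    ring
  refine X9g_cont.integral_pos_of_hasCompactSupport_nonneg_nonzero X9g_cs X9g_nonneg
    (x := I * (√(1 - √t) : ℝ)) (mul_ne_zero (pow_ne_zero _ ?_) ?_)
  · rw [norm_ne_zero_iff]
    exact mul_ne_zero I_ne_zero (ofReal_ne_zero.2 (Real.sqrt_pos.2 (by linarith)).ne')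
  · rw [h3, norm_real, Real.norm_of_nonneg (Real.sqrt_nonneg t), Real.sq_sqrt h0.le, ht]
    norm_num

theorem X9h_int : Integrable X9h := by
  have h := integrable_rpow_neg_one_add_norm_sq (E := ℂ) (μ := volume) (r := 4) (by simp; norm_num)
  refine h.congr (Eventually.of_forall fun z => ?_)
  have e : (-4 : ℝ) / 2 = -((2 : ℕ) : ℝ) := by norm_num
  simp only [X9h]
  rw [e, Real.rpow_neg (by positivity), Real.rpow_natCast, inv_pow]

theorem X9h_meas : Measurable X9h := by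
  unfold X9h
  fun_prop

/-- transfer of integrals from the plane to the curve -/
theorem X9_transfer {s : ℝ} (H : Hyp s) (h0 : 0 < s) {g : ℂ → ℝ} (hm : Measurable g)
    (hg : ∀ z, 0 ≤ g z) (hi : Integrable g) :
    Integrable (fun q => ‖H.y q‖ ^ 2 * g (H.x q)) H.S.lam ∧
      ∫ q, ‖H.y q‖ ^ 2 * g (H.x q) ∂H.S.lam = 2 * ∫ z, g z := by
  have hx := H.x_hol.continuous.measurable
  have hy := H.y_hol.continuous.measurable
  have h1 : ∫⁻ q, ENNReal.ofReal (‖H.y q‖ ^ 2 * g (H.x q)) ∂H.S.lam =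
      ENNReal.ofReal (2 * ∫ z, g z) := by
    have h2 := H.lintegral_x h0 hm.ennreal_ofReal
    rw [← ofReal_integral_eq_lintegral_ofReal hi (Eventually.of_forall hg)] at h2
    rw [ENNReal.ofReal_mul zero_le_two, ENNReal.ofReal_ofNat, ← h2]
    refine lintegral_congr fun q => ?_
    rw [ENNReal.ofReal_mul (sq_nonneg _), ENNReal.ofReal_pow (norm_nonneg _), ofReal_norm_eq_enorm]
  have h3 : AEStronglyMeasurable (fun q => ‖H.y q‖ ^ 2 * g (H.x q)) H.S.lam :=
    ((hy.norm.pow_const 2).mul (hm.comp hx)).aestronglyMeasurable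
  have h4 : 0 ≤ᵐ[H.S.lam] fun q => ‖H.y q‖ ^ 2 * g (H.x q) :=
    Eventually.of_forall fun q => mul_nonneg (sq_nonneg _) (hg _)
  refine ⟨⟨h3, (hasFiniteIntegral_iff_ofReal h4).2 (h1 ▸ ENNReal.ofReal_lt_top)⟩, ?_⟩
  rw [integral_eq_lintegral_of_nonneg_ae h4 h3, h1, ENNReal.toReal_ofReal]
  exact mul_nonneg zero_le_two (integral_nonneg hg)

theorem X9_main {L : ℝ} (hL : 1 ≤ L) {x y : ℂ} (h : y ^ 2 = PP (Real.exp (-4 * L)) x)
    (hx : x ≠ 0) {A : ℂ}
    (hA : A = X9g x * (sg x y * y / x ^ 2) / (2 * (1 - (Real.exp (-4 * L) : ℂ) ^ 4))) :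
    X9g x / 4 ≤ A.re ∧ ‖A‖ ≤ 2 * X9g x := by
  by_cases h0 : X9g x = 0
  · simp [hA, h0]
  obtain ⟨h1, h2⟩ := X9g_supp h0
  have hg := X9g_nonneg x
  have h3 : |Real.log ‖x‖| ≤ 1 := by
    have a1 := Real.log_le_sub_one_of_pos (norm_pos_iff.2 hx)
    have a2 := Real.one_sub_inv_le_log_of_pos (norm_pos_iff.2 hx)
    have a3 : ‖x‖⁻¹ ≤ 2 := by
      rw [inv_le_comm₀ (norm_pos_iff.2 hx) two_pos]
      linarith
    exact abs_le.2 ⟨by linarith, by linarith⟩
  have h4 := (sheet hL h hx (by linarith)).2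
  have h5 : ∀ u : ℝ, u ≤ -12 → Real.exp u ≤ 1 / 6 := fun u hu => by
    have a1 := Real.add_one_le_exp (-u)
    have a2 : Real.exp u * Real.exp (-u) = 1 := by rw [← Real.exp_add]; simp
    nlinarith [Real.exp_pos u]
  have h6 := h5 (4 * |Real.log ‖x‖| - 16 * L) (by linarith)
  generalize sg x y * y / x ^ 2 = j at *
  have h7 : 1 / 2 ≤ j.re := by
    have a1 := (abs_le.1 (abs_re_le_norm (j - 1))).1
    rw [sub_re, one_re] at a1
    linarith
  have h8 : ‖j‖ ≤ 2 := by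
    have a1 := norm_add_le (j - 1) 1
    rw [sub_add_cancel, norm_one] at a1
    linarith
  obtain ⟨D, hD, d1, d2⟩ : ∃ D : ℝ, (2 * (1 - (Real.exp (-4 * L) : ℂ) ^ 4)) = D ∧ 1 ≤ D ∧
      D ≤ 2 := by
    refine ⟨2 * (1 - Real.exp (-4 * L) ^ 4), by push_cast; rfl, ?_, ?_⟩
    · have a1 := h5 (((4 : ℕ) : ℝ) * (-4 * L)) (by push_cast; linarith)
      rw [Real.exp_nat_mul] at a1
      linarith
    · have a1 : 0 ≤ Real.exp (-4 * L) ^ 4 := by positivity
      linarith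
  have d0 : 0 < D := by linarith
  rw [hA, hD]
  constructor
  · rw [div_ofReal_re, re_ofReal_mul, le_div_iff₀ d0]
    nlinarith [mul_le_mul_of_nonneg_left h7 hg, mul_le_mul_of_nonneg_left d2 hg]
  · rw [norm_div, norm_mul, norm_real, norm_real, Real.norm_of_nonneg hg,
      Real.norm_of_nonneg d0.le, div_le_iff₀ d0]
    nlinarith [mul_le_mul_of_nonneg_left h8 hg, mul_le_mul_of_nonneg_left d1 hg]

theorem X9_err {L C : ℝ} (hL : 1 ≤ L) (hC : ∀ t, ‖deriv cA t‖ ≤ C) {x : ℂ} (hx : x ≠ 0) :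
    ‖deriv cA (Real.log ‖x‖ / L) * (x ^ 2 - 1) * x / (4 * L * conj x * (x ^ 2 + 1) ^ 3)‖ ≤
      2 * C / L * X9h x := by
  have hC0 : 0 ≤ C := (norm_nonneg _).trans (hC 0)
  have hL0 : 0 < L := by linarith
  have hn := norm_pos_iff.2 hx
  by_cases h0 : deriv cA (Real.log ‖x‖ / L) = 0
  · rw [h0, ofReal_zero, zero_mul, zero_mul, zero_div, norm_zero, X9h]
    positivity
  have h1 := X9_dA h0
  rw [abs_div, abs_of_pos hL0, one_le_div hL0] at h1
  have h2 : 3 / 5 * (1 + ‖x‖ ^ 2) ≤ ‖x ^ 2 + 1‖ := by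
    have h3 := norm_sub_le (x ^ 2 + 1) 1
    have h4 := norm_sub_le (x ^ 2 + 1) (x ^ 2)
    rw [add_sub_cancel_right, norm_pow, norm_one] at h3
    rw [add_sub_cancel_left, norm_pow, norm_one] at h4
    rcases le_abs.1 (hL.trans h1) with h5 | h5
    · have a1 := Real.log_le_sub_one_of_pos hn
      nlinarith
    · have a1 := Real.one_sub_inv_le_log_of_pos hn
      have a2 : 2 ≤ ‖x‖⁻¹ := by linarith
      rw [le_inv_comm₀ two_pos hn] at a2
      nlinarith
  have h3 : ‖x ^ 2 - 1‖ ≤ 1 + ‖x‖ ^ 2 := by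
    have := norm_sub_le (x ^ 2) 1
    rw [norm_pow, norm_one] at this
    linarith
  have e4 : ‖(4 : ℂ)‖ = 4 := by simp
  rw [norm_div, norm_mul, norm_mul, norm_mul, norm_mul, norm_mul, norm_pow, norm_conj, norm_real,
    norm_real, Real.norm_of_nonneg hL0.le, e4, X9h]
  have hb : 0 < 1 + ‖x‖ ^ 2 := by positivity
  calc _ ≤ C * (1 + ‖x‖ ^ 2) * ‖x‖ / (4 * L * ‖x‖ * (3 / 5 * (1 + ‖x‖ ^ 2)) ^ 3) := by
        gcongr
        exact hC _
    _ = 125 / 108 * (C / L * (1 + ‖x‖ ^ 2)⁻¹ ^ 2) := by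
        field_simp
        ring
    _ ≤ 2 * (C / L * (1 + ‖x‖ ^ 2)⁻¹ ^ 2) := by
        gcongr
        norm_num
    _ = _ := by ring

theorem X9_point {L C : ℝ} (hL : 1 ≤ L) (hC : ∀ t, ‖deriv cA t‖ ≤ C) {x y : ℂ}
    (h : y ^ 2 = PP (Real.exp (-4 * L)) x) (hx : x ≠ 0) :
    ‖y‖ ^ 2 * X9g x / 4 - 2 * C / L * (‖y‖ ^ 2 * X9h x) ≤ (nuX L x y).re ∧
      ‖nuX L x y‖ ≤ 2 * (‖y‖ ^ 2 * X9g x) + 2 * C / L * (‖y‖ ^ 2 * X9h x) := by
  obtain ⟨A, hA⟩ : ∃ A : ℂ,
      A = X9g x * (sg x y * y / x ^ 2) / (2 * (1 - (Real.exp (-4 * L) : ℂ) ^ 4)) := ⟨_, rfl⟩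
  obtain ⟨a1, a2⟩ := X9_main hL h hx hA
  have b1 := X9_err hL hC hx
  obtain ⟨B, hB⟩ : ∃ B : ℂ, B = deriv cA (Real.log ‖x‖ / L) * (x ^ 2 - 1) * x /
      (4 * L * conj x * (x ^ 2 + 1) ^ 3) := ⟨_, rfl⟩
  rw [← hB] at b1
  have e : nuX L x y = (‖y‖ ^ 2 : ℝ) * (A - B) := by
    rw [nuX, ← hB, hA, X9g, ofReal_mul, ofReal_neg]
    ring
  have hy := sq_nonneg ‖y‖
  rw [e]
  constructor
  · have b2 := (abs_le.1 (abs_re_le_norm B)).2
    rw [re_ofReal_mul, sub_re]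
    have := mul_le_mul_of_nonneg_left (show X9g x / 4 - 2 * C / L * X9h x ≤ A.re - B.re by
      linarith) hy
    linarith
  · rw [norm_mul, norm_real, Real.norm_of_nonneg hy]
    have := mul_le_mul_of_nonneg_left (show ‖A - B‖ ≤ 2 * X9g x + 2 * C / L * X9h x by
      linarith [norm_sub_le A B]) hy
    linarith

theorem X9_meas (L : ℝ) {Y : Type} [MeasurableSpace Y] {x y : Y → ℂ} (hx : Measurable x)
    (hy : Measurable y) : Measurable fun q => nuX L (x q) (y q) := by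
  have h1 := (X9_cZ.continuous_deriv le_rfl).measurable
  have h2 := (X9_cA.continuous_deriv le_rfl).measurable
  have h3 : Measurable fun q => sg (x q) (y q) :=
    Measurable.ite (measurableSet_lt measurable_const (by fun_prop)) measurable_const
      measurable_const
  have h4 : Measurable fun q => conj (x q) := continuous_conj.measurable.comp hx
  unfold nuX
  fun_prop

/-- the mixed second variation does not degenerate -/
theorem nu_lower : ∃ I₀ L₀ : ℝ, 0 < I₀ ∧ 1 ≤ L₀ ∧ ∀ L, L₀ ≤ L → ∀ H : Hyp (Real.exp (-4 * L)),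
    I₀ ≤ ‖∫ q, nuX L (H.x q) (H.y q) ∂H.S.lam‖ := by
  obtain ⟨C, hC⟩ := X9_bA
  have hC0 : 0 ≤ C := (norm_nonneg _).trans (hC 0)
  have hh : ∀ z, 0 ≤ X9h z := fun z => sq_nonneg _
  have hp := X9g_pos
  have hq : 0 ≤ ∫ z, X9h z := integral_nonneg hh
  refine ⟨(∫ z, X9g z) / 4, 1 + 16 * C * (∫ z, X9h z) / ∫ z, X9g z, by positivity,
    le_add_of_nonneg_right (by positivity), fun L hL H => ?_⟩
  have h0 : 0 ≤ 16 * C * (∫ z, X9h z) / ∫ z, X9g z := by positivity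
  have hL1 : 1 ≤ L := by linarith
  have hL0 : 0 < L := by linarith
  obtain ⟨i1, e1⟩ := X9_transfer H (Real.exp_pos _) X9g_cont.measurable X9g_nonneg
    (X9g_cont.integrable_of_hasCompactSupport X9g_cs)
  obtain ⟨i2, e2⟩ := X9_transfer H (Real.exp_pos _) X9h_meas hh X9h_int
  have hpt := fun q => X9_point hL1 hC (H.eqn q) (H.x_ne q)
  have i3 : Integrable (fun q => nuX L (H.x q) (H.y q)) H.S.lam :=
    ((i1.const_mul 2).add (i2.const_mul (2 * C / L))).mono'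
      (X9_meas L H.x_hol.continuous.measurable H.y_hol.continuous.measurable).aestronglyMeasurable
      (Eventually.of_forall fun q => (hpt q).2)
  have h1 := integral_mono ((i1.div_const 4).sub (i2.const_mul (2 * C / L))) i3.re
    fun q => (hpt q).1
  have h2 := integral_re i3
  simp only [Pi.sub_apply, RCLike.re_to_complex] at h1 h2
  rw [integral_sub (i1.div_const 4) (i2.const_mul (2 * C / L)), integral_div, integral_const_mul,
    e1, e2, h2] at h1
  refine le_trans ?_ (h1.trans (re_le_norm _))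
  have h3 : 16 * C * (∫ z, X9h z) ≤ L * ∫ z, X9g z := by
    rw [← div_le_iff₀ hp]
    linarith
  have h4 : 2 * C / L * (2 * ∫ z, X9h z) ≤ (∫ z, X9g z) / 4 := by
    rw [div_mul_eq_mul_div, div_le_iff₀ hL0]
    linarith
  linarith

end Pool.Agent.MP_e62289_ag
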