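import Pool.Agent.MP_e62289_ag.Mid
import Pool.Agent.MP_e62289_ag.X3
import Pool.Agent.MP_e62289_ag.X5
import Pool.Agent.MP_e62289_ag.X7
import Pool.Agent.MP_e62289_ag.X8
import Pool.Agent.MP_e62289_ag.X9

open Set Filter Topology Complex MeasureTheory Metric
open scoped Manifold ContDiff ComplexConjugate NNReal ENNReal

namespace Pool.Agent.MP_e62289_ag

theorem DD_simply {c ε L : ℝ} (h1 : 0 < c * L) (h2 : 0 < ε) : SimplyConnectedSpace (DD c ε L) := by
  have hs : StarConvex ℝ (0 : P2) (DD c ε L : Set P2) := by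
    intro t ht a b ha hb hab
    have hb1 : b ≤ 1 := by linarith
    have e : ∀ i, ‖(a • (0 : P2) + b • t) i‖ ≤ ‖t i‖ := fun i => by
      simp only [smul_zero, zero_add, Pi.smul_apply, norm_smul, Real.norm_of_nonneg hb]
      exact mul_le_of_le_one_left (norm_nonneg _) hb1
    refine ⟨(e 0).trans_lt ht.1, (e 1).trans_lt (ht.2.trans_le ?_)⟩
    have := e 0
    gcongr
  have : ContractibleSpace (DD c ε L : Set P2) := hs.contractibleSpace ⟨0, by
    constructor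
    · simpa using h1
    · simpa using h2⟩
  exact SimplyConnectedSpace.ofContractible (DD c ε L : Set P2)

variable {E : Type} [NormedAddCommGroup E] [NormedSpace ℂ E] [FiniteDimensional ℂ E]
  {B : Type} [EMetricSpace B] [ChartedSpace E B] [IsManifold 𝓘(ℂ, E) ω B]
  [IsManifold 𝓘(ℝ, E) ∞ B] [SimplyConnectedSpace B]

theorem core (k : KData E B) (d : DData k) (C : Family E B aa) (hC : C.Versal) : False := by
  obtain ⟨Cst, hCst, hmid⟩ := mid k d C hC
  obtain ⟨H₀, hxi⟩ := exists_xi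
  obtain ⟨c, ε₁, L₁, c0, c1, e1, l1, hpos⟩ := K_pos
  obtain ⟨ε₂, L₂, e2, -, hend⟩ := K_ends
  obtain ⟨I₀, L₃, i0, -, hnu⟩ := nu_lower
  obtain ⟨ε, e0, ee1, ee2⟩ : ∃ ε : ℝ, 0 < ε ∧ ε ≤ ε₁ ∧ ε ≤ ε₂ :=
    ⟨min ε₁ ε₂, lt_min e1 e2, min_le_left _ _, min_le_right _ _⟩
  obtain ⟨L, hL1, hL2, hL3, hL4⟩ : ∃ L : ℝ, L₁ ≤ L ∧ L₂ ≤ L ∧ L₃ ≤ L ∧
      (Cst * H₀ + 1) / (c * ε * I₀) ≤ L :=
    ⟨max (max L₁ L₂) (max L₃ ((Cst * H₀ + 1) / (c * ε * I₀))), by simp, by simp, by simp, by simp⟩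
  have hL : 1 ≤ L := l1.trans hL1
  have hs0 : 0 < Real.exp (-4 * L) := Real.exp_pos _
  have hs1 : Real.exp (-4 * L) < 1 / 2 := by
    have h1 : Real.exp (-4 * L) ≤ Real.exp (-4) := Real.exp_le_exp.2 (by linarith)
    have h2 : (4 : ℝ) + 1 ≤ Real.exp 4 := Real.add_one_le_exp 4
    have h3 : Real.exp (-4) * Real.exp 4 = 1 := by rw [← Real.exp_add]; simp
    nlinarith [Real.exp_pos (-4)]
  obtain ⟨H⟩ := exists_hyp hs0 hs1
  obtain ⟨ξp, ξm, hp, hm, hn, hfv, hprod⟩ := hxi _ hs0 hs1 H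
  obtain ⟨Φ, Φ1, Φ2, Φ3⟩ := hend L hL2 H
  have cL : 0 < c * L := by positivity
  let δ : H.S.Defo aa (DD c ε L) :=
    { g₀ := fun q => H.x q ^ 2 + 1
      g₁ := H.x
      hol₀ := (H.x_hol.pow (n := 2)).add mdifferentiable_const
      hol₁ := H.x_hol
      K := fun t q => KK L (t 0) (t 1) (H.x q) (H.y q)
      smooth := KK_smooth hL H
      holK := fun q => by
        unfold KK
        fun_prop
      pos := fun t ht q => by
        rw [(KK_d hL H _ _ q).1, (KK_d hL H _ _ q).2]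
        exact hpos L hL1 _ _ _ _ (H.eqn q) (H.x_ne q) (H.w_ne q) ht.1
          (ht.2.trans_le (by gcongr))
      r := 1
      r_pos := one_pos
      r_le := le_rfl
      Φ := Φ
      holΦ := fun i => (Φ1 i).mono (prod_mono_right (subset_univ _))
      endK := fun i t _ q hq => by
        rw [(KK_d hL H _ _ q).1, (KK_d hL H _ _ q).2, (Φ2 i t q hq.1).1, zero_mul]
        exact ⟨rfl, (Φ2 i t q hq.1).2⟩
      ord := fun i t ht => Φ3 i t ⟨ht.1.trans_le (by gcongr), ht.2.trans_le (by gcongr)⟩ }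
  have hmu : ∀ t q, δ.mu t q = muX L (t 0) (t 1) (H.x q) (H.y q) := fun t q => by
    change d2 (fun q => KK L (t 0) (t 1) (H.x q) (H.y q)) q / (H.x q ^ 2 + 1 + t 1 * H.x q +
      d1 (fun q => KK L (t 0) (t 1) (H.x q) (H.y q)) q) = _
    rw [(KK_d hL H _ _ q).1, (KK_d hL H _ _ q).2, muX]
  choose ν hν1 hν2 using fun q => nu_eq hL (y := H.y q) (H.x_ne q) (H.w_ne q)
  have key := hmid H.S ξp ξm hp hm hfv _ (DD_simply cL e0) δ (c * L) ε cL e0 (fun ζ hζ => by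
      rw [mem_ball_zero_iff] at hζ
      refine ⟨⟨?_, ?_⟩, ?_, ?_⟩
      · change ‖((c * L : ℝ) : ℂ) * ζ‖ < c * L
        rw [norm_mul, Complex.norm_real, Real.norm_of_nonneg cL.le]
        exact mul_lt_of_lt_one_right cL hζ
      · change ‖(0 : ℂ)‖ < _
        rw [norm_zero]
        positivity
      · change ‖(0 : ℂ)‖ < _
        rwa [norm_zero]
      · change ‖(ε : ℂ) * ζ‖ < ε * Real.exp (-‖(0 : ℂ)‖ / 2)
        rw [norm_mul, Complex.norm_real, Real.norm_of_nonneg e0.le]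
        simpa using mul_lt_of_lt_one_right e0 hζ)
    (fun q => by simp [hmu, muX, K2]) ν (fun q => by
      simp only [hmu]
      exact hν1 q)
  have e : ∫ q, ν q * (H.S.f q * ξp q * ξm q) ∂H.S.lam = ∫ q, nuX L (H.x q) (H.y q) ∂H.S.lam :=
    integral_congr_ae (hprod.mono fun q hq => by
      change ν q * _ = nuX L _ _
      rw [hq, hν2])
  rw [e] at key
  have h1 := hnu L hL3 H
  have h2 : Cst * (‖ξp‖ * ‖ξm‖) ≤ Cst * H₀ := mul_le_mul_of_nonneg_left hn hCst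
  have h3 : c * L * ε * I₀ ≤ c * L * ε * ‖∫ q, nuX L (H.x q) (H.y q) ∂H.S.lam‖ :=
    mul_le_mul_of_nonneg_left h1 (by positivity)
  rw [div_le_iff₀ (by positivity)] at hL4
  nlinarith

end Pool.Agent.MP_e62289_ag
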