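import Pool.Agent.MP_e62289_ag.W

open Set Filter Topology Complex MeasureTheory Metric
open scoped Manifold ContDiff ComplexConjugate NNReal ENNReal

namespace Pool.Agent.MP_e62289_ag

variable {E : Type} [NormedAddCommGroup E] [NormedSpace ℂ E] {n : ℕ} {a : Fin n → ℕ}
  {M B : Type} [TopologicalSpace M] [ChartedSpace E M] [IsManifold 𝓘(ℂ, E) ω M]
  [TopologicalSpace B] [T2Space B] [ChartedSpace E B] [IsManifold 𝓘(ℂ, E) ω B]

/-- the total space of the induced family -/
abbrev CoverX (C : Family E M a) (π : B → M) : Type := {p : B × C.X // π p.1 = C.proj p.2}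

omit [IsManifold 𝓘(ℂ, E) ω M] [T2Space B] [ChartedSpace E B] [IsManifold 𝓘(ℂ, E) ω B]
  [TopologicalSpace B] in
theorem Cover_pair {C : Family E M a} {π : B → M} (x : C.X) (p : CoverX C π)
    (hp : p.1.2 ∈ (C.chart x).source) : ((C.chart x p.1.2).1, π p.1.1) = C.chart x p.1.2 := by
  rw [p.2, ← C.snd_chart x _ hp]

omit [IsManifold 𝓘(ℂ, E) ω M] [T2Space B] [ChartedSpace E B] [IsManifold 𝓘(ℂ, E) ω B]
  [TopologicalSpace B] in
theorem Cover_proj {C : Family E M a} (x : C.X) {w : ℂ × M} (hw : w ∈ (C.chart x).target) :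
    w.2 = C.proj ((C.chart x).symm w) := by
  rw [← C.snd_chart x _ ((C.chart x).map_target hw), (C.chart x).right_inv hw]

open Classical in
/-- the inverse of a chart of the induced family -/
noncomputable def CoverInv {C : Family E M a} {π : B → M} (p₀ : CoverX C π) (w : ℂ × B) :
    CoverX C π :=
  if h : (w.1, π w.2) ∈ (C.chart p₀.1.2).target then
    ⟨(w.2, (C.chart p₀.1.2).symm (w.1, π w.2)), Cover_proj p₀.1.2 h⟩
  else p₀

omit [IsManifold 𝓘(ℂ, E) ω M] [T2Space B] [ChartedSpace E B] [IsManifold 𝓘(ℂ, E) ω B]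
  [TopologicalSpace B] in
theorem CoverInv_val {C : Family E M a} {π : B → M} (p₀ : CoverX C π) {w : ℂ × B}
    (h : (w.1, π w.2) ∈ (C.chart p₀.1.2).target) :
    (CoverInv p₀ w).1 = (w.2, (C.chart p₀.1.2).symm (w.1, π w.2)) := by
  rw [CoverInv, dif_pos h]

/-- the charts of the induced family -/
noncomputable def CoverChart {C : Family E M a} {π : B → M} (hπ : Continuous π)
    (p₀ : CoverX C π) : OpenPartialHomeomorph (CoverX C π) (ℂ × B) where
  toFun p := ((C.chart p₀.1.2 p.1.2).1, p.1.1)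
  invFun := CoverInv p₀
  source := {p | p.1.2 ∈ (C.chart p₀.1.2).source}
  target := {w | (w.1, π w.2) ∈ (C.chart p₀.1.2).target}
  map_source' p hp := by
    change ((C.chart p₀.1.2 p.1.2).1, π p.1.1) ∈ (C.chart p₀.1.2).target
    rw [Cover_pair _ p hp]
    exact (C.chart p₀.1.2).map_source hp
  map_target' w hw := by
    change (CoverInv p₀ w).1.2 ∈ (C.chart p₀.1.2).source
    rw [CoverInv_val p₀ hw]
    exact (C.chart p₀.1.2).map_target hw
  left_inv' p hp := by
    have h : ((C.chart p₀.1.2 p.1.2).1, π p.1.1) ∈ (C.chart p₀.1.2).target := by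
      rw [Cover_pair _ p hp]
      exact (C.chart p₀.1.2).map_source hp
    refine Subtype.ext ?_
    rw [CoverInv_val p₀ h]
    dsimp only
    rw [Cover_pair _ p hp, (C.chart p₀.1.2).left_inv hp]
  right_inv' w hw := by
    rw [CoverInv_val p₀ hw]
    dsimp only
    rw [(C.chart p₀.1.2).right_inv hw]
  open_source := (C.chart p₀.1.2).open_source.preimage
    (continuous_snd.comp continuous_subtype_val)
  open_target := (C.chart p₀.1.2).open_target.preimage
    (continuous_fst.prodMk (hπ.comp continuous_snd))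
  continuousOn_toFun := by
    refine ContinuousOn.prodMk ?_ (continuous_fst.comp continuous_subtype_val).continuousOn
    exact continuous_fst.comp_continuousOn ((C.chart p₀.1.2).continuousOn.comp
      (continuous_snd.comp continuous_subtype_val).continuousOn fun p hp => hp)
  continuousOn_invFun := by
    rw [IsInducing.subtypeVal.continuousOn_iff]
    refine ContinuousOn.congr
      (f := fun w : ℂ × B => (w.2, (C.chart p₀.1.2).symm (w.1, π w.2))) ?_
      fun w hw => CoverInv_val p₀ hw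
    refine continuous_snd.continuousOn.prodMk ?_
    exact (C.chart p₀.1.2).continuousOn_symm.comp
      (continuous_fst.prodMk (hπ.comp continuous_snd)).continuousOn fun w hw => hw

omit [IsManifold 𝓘(ℂ, E) ω M] [T2Space B] [IsManifold 𝓘(ℂ, E) ω B] in
theorem Cover_md {π : B → M} (hπ : MDifferentiable 𝓘(ℂ, E) 𝓘(ℂ, E) π) :
    MDifferentiable (𝓘(ℂ, ℂ).prod 𝓘(ℂ, E)) (𝓘(ℂ, ℂ).prod 𝓘(ℂ, E))
      (fun w : ℂ × B => (w.1, π w.2)) :=
  mdifferentiable_fst.prodMk (hπ.comp mdifferentiable_snd)

/-- the family induced along a holomorphic map -/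
noncomputable def CoverFam (C : Family E M a) {π : B → M}
    (hπ : MDifferentiable 𝓘(ℂ, E) 𝓘(ℂ, E) π) : Family E B a where
  X := CoverX C π
  proj p := p.1.1
  proper := by
    rw [isProperMap_iff_ultrafilter]
    refine ⟨continuous_fst.comp continuous_subtype_val, fun U b hb => ?_⟩
    have h1 : Tendsto C.proj (U.map fun p => p.1.2 : Ultrafilter C.X) (𝓝 (π b)) := by
      rw [Ultrafilter.coe_map, tendsto_map'_iff]
      exact ((hπ.continuous.tendsto b).comp hb).congr fun p => p.2
    obtain ⟨x, hx, hU⟩ := (isProperMap_iff_ultrafilter.1 C.proper).2 h1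
    refine ⟨⟨(b, x), hx.symm⟩, rfl, ?_⟩
    have h2 : Tendsto (fun p : CoverX C π => p) U (𝓝 ⟨(b, x), hx.symm⟩) := by
      rw [tendsto_subtype_rng]
      exact hb.prodMk_nhds hU
    exact h2
  conn b := by
    obtain ⟨⟨x, hx⟩, h⟩ := C.conn (π b)
    refine ⟨⟨⟨(b, x), hx.symm⟩, rfl⟩, ?_⟩
    refine IsInducing.subtypeVal.isPreconnected_image.1 ?_
    have : Subtype.val '' ((fun p : CoverX C π => p.1.1) ⁻¹' {b}) =
        {b} ×ˢ (C.proj ⁻¹' {π b}) := by
      ext ⟨b', x'⟩
      constructor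
      · rintro ⟨p, hp, he⟩
        have h1 : p.1.1 = b := hp
        have h2 := p.2
        rw [he] at h1 h2
        exact ⟨h1, h2.symm.trans (congrArg π h1)⟩
      · rintro ⟨h1, h2⟩
        have h1 : b' = b := h1
        have h2 : C.proj x' = π b := h2
        exact ⟨⟨(b', x'), by rw [h2, h1]⟩, h1, rfl⟩
    exact this ▸ isPreconnected_singleton.prod h
  chart := CoverChart hπ.continuous
  mem_source p := C.mem_source p.1.2
  snd_chart _ _ _ := rfl
  hol_chart p q := by
    refine ((C.hol_chart p.1.2 q.1.2).comp (Cover_md hπ).mdifferentiableOn ?_).congr ?_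
    · rintro w ⟨hw, hw'⟩
      refine ⟨hw, ?_⟩
      have h1 : (CoverInv p w).1.2 ∈ (C.chart q.1.2).source := hw'
      rw [CoverInv_val p hw] at h1
      exact h1
    · rintro w ⟨hw, -⟩
      change (C.chart q.1.2 (CoverInv p w).1.2).1 = _
      rw [CoverInv_val p hw]
      rfl
  sec i b := ⟨(b, C.sec i (π b)), (C.proj_sec i (π b)).symm⟩
  cont_sec i := (continuous_id.prodMk ((C.cont_sec i).comp hπ.continuous)).subtype_mk _
  proj_sec _ _ := rfl
  inj_sec b i j h := C.inj_sec (π b) (congrArg (fun p : CoverX C π => p.1.2) h)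
  hol_sec i p := (C.hol_sec i p.1.2).comp hπ.mdifferentiableOn fun _ h => h
  form b₀ := by
    obtain ⟨V, hV, hb, f, h1, h2, h3⟩ := C.form (π b₀)
    refine ⟨π ⁻¹' V, hV.preimage hπ.continuous, hb, fun p w => f p.1.2 (w.1, π w.2), fun p => ?_,
      fun p p' q hq hqV => ?_, fun p hp => ?_⟩
    · exact (h1 p.1.2).comp (Cover_md hπ).mdifferentiableOn fun w hw => ⟨hw.1, trivial, hw.2.2⟩
    · have hV' : C.proj q.1.2 ∈ V := q.2 ▸ hqV
      have h4 := h2 p.1.2 p'.1.2 q.1.2 hq hV'
      change f p.1.2 ((C.chart p.1.2 q.1.2).1, π q.1.1) =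
        f p'.1.2 ((C.chart p'.1.2 q.1.2).1, π q.1.1) *
          deriv (fun z => (C.chart p'.1.2 (CoverInv p (z, q.1.1)).1.2).1) (C.chart p.1.2 q.1.2).1
      rw [Cover_pair _ q hq.1, Cover_pair _ q hq.2, h4]
      congr 1
      refine Filter.EventuallyEq.deriv_eq ?_
      have h5 : ∀ᶠ z in 𝓝 (C.chart p.1.2 q.1.2).1, (z, π q.1.1) ∈ (C.chart p.1.2).target := by
        refine ((C.chart p.1.2).open_target.preimage
          (continuous_id.prodMk continuous_const)).mem_nhds ?_
        change ((C.chart p.1.2 q.1.2).1, π q.1.1) ∈ (C.chart p.1.2).target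
        rw [Cover_pair _ q hq.1]
        exact (C.chart p.1.2).map_source hq.1
      filter_upwards [h5] with z hz
      rw [CoverInv_val p (w := (z, q.1.1)) hz, q.2]
    · have hV' : C.proj p.1.2 ∈ V := p.2 ▸ hp
      have h4 := h3 p.1.2 hV'
      have h6 : analyticOrderAt (fun z => f p.1.2 (z, π p.1.1)) (C.chart p.1.2 p.1.2).1 =
          analyticOrderAt (fun z => f p.1.2 (z, C.proj p.1.2)) (C.chart p.1.2 p.1.2).1 := by
        rw [p.2]
      refine (h6.trans h4).trans ?_
      congr 1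
      refine finsum_congr fun i => finsum_congr_Prop (propext ⟨fun h => ?_, fun h => ?_⟩)
        fun _ => rfl
      · refine Subtype.ext (Prod.ext rfl ?_)
        change C.sec i (π p.1.1) = p.1.2
        rw [p.2, h]
      · have h5 : C.sec i (π p.1.1) = p.1.2 := congrArg (fun p : CoverX C π => p.1.2) h
        rwa [p.2] at h5

set_option linter.unusedSectionVars false in
/-- versal families lift to holomorphic coverings -/
theorem Family.Versal.cover {C : Family E M a} (hC : C.Versal) {π : B → M} (h1 : IsCoveringMap π)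
    (h2 : Function.Surjective π) (h3 : IsLocalDiffeomorph 𝓘(ℂ, E) 𝓘(ℂ, E) ω π) :
    ∃ C' : Family E B a, C'.Versal := by
  have hπ : MDifferentiable 𝓘(ℂ, E) 𝓘(ℂ, E) π := h3.mdifferentiable (by simp)
  refine ⟨CoverFam C hπ, fun k S hS D => ?_⟩
  obtain ⟨ψ, Ψ, hψ, hΨ, hbij, hsec, hhol⟩ := hC k S hS D
  have : LocallyPathConnectedSpace S := S.isOpen.locallyPathConnectedSpace
  obtain ⟨s₀⟩ : Nonempty S := inferInstance
  obtain ⟨b₀, hb₀⟩ := h2 (ψ s₀)
  obtain ⟨F, ⟨-, hF⟩, -⟩ := h1.existsUnique_continuousMap_lifts ⟨ψ, hψ.continuous⟩ s₀ b₀ hb₀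
  have hF : ∀ s, π (F s) = ψ s := fun s => congrFun hF s
  have hP : ∀ d, π (F (D.proj d)) = C.proj (Ψ d) := fun d => by
    rw [hF]
    exact ((hbij (D.proj d)).mapsTo rfl).symm
  refine ⟨F, fun d => ⟨(F (D.proj d), Ψ d), hP d⟩, fun s => ?_, ?_, fun t => ⟨?_, ?_, ?_⟩,
    fun i t => ?_, fun x y => hhol x y.1.2⟩
  · have h4 := (h3 (F s)).localInverse_mdifferentiableAt (by simp)
    rw [hF] at h4
    refine (h4.comp s (hψ s)).congr_of_eventuallyEq ?_
    filter_upwards [(F.continuous.tendsto s).eventually (h3 (F s)).localInverse_eventuallyEq_left]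
      with s' hs'
    rw [Function.comp_apply, ← hF]
    exact hs'.symm
  · exact ((F.continuous.comp D.proper.continuous).prodMk hΨ).subtype_mk _
  · intro d hd
    exact congrArg F hd
  · intro d hd d' hd' h
    exact (hbij t).injOn hd hd' (congrArg (fun p : CoverX C π => p.1.2) h)
  · intro p hp
    have hp : p.1.1 = F t := hp
    have h4 : p.1.2 ∈ C.proj ⁻¹' {ψ t} := by
      change C.proj p.1.2 = ψ t
      rw [← p.2, hp, hF]
    obtain ⟨d, hd, he⟩ := (hbij t).surjOn h4
    refine ⟨d, hd, Subtype.ext (Prod.ext ?_ he)⟩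
    have hd : D.proj d = t := hd
    change F (D.proj d) = p.1.1
    rw [hd, hp]
  · refine Subtype.ext (Prod.ext ?_ ?_)
    · change F (D.proj (D.sec i t)) = F t
      rw [D.proj_sec]
    · change Ψ (D.sec i t) = C.sec i (π (F t))
      rw [hsec, hF]

end Pool.Agent.MP_e62289_ag
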