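import Pool.Agent.MP_e62289_ag.W

open Set Filter Topology Complex MeasureTheory Metric
open scoped Manifold ContDiff ComplexConjugate NNReal ENNReal

namespace Pool.Agent.MP_e62289_ag

section Aux

variable {E F : Type} [NormedAddCommGroup E] [NormedSpace ℂ E]
  [NormedAddCommGroup F] [NormedSpace ℂ F]

/-- Cauchy estimate -/
theorem cx1a_cauchy {h : E → F} {x : E} {r M : ℝ} (hr : 0 < r)
    (hd : DifferentiableOn ℂ h (ball x r)) (hb : ∀ y ∈ ball x r, ‖h y‖ ≤ M) :
    ‖fderiv ℂ h x‖ ≤ 2 * M / r := by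
  refine norm_fderiv_le_div_of_mapsTo_ball hd (fun y hy => ?_) hr
  rw [mem_closedBall, dist_eq_norm]
  have h1 := hb y hy
  have h2 := hb x (mem_ball_self hr)
  have h3 := norm_sub_le (h y) (h x)
  linarith

/-- Weierstrass: uniform limits of complex differentiable maps are differentiable -/
theorem cx1a_weierstrass [CompleteSpace F] {g : ℕ → E → F} {G : E → F} {c : E} {r : ℝ}
    (hr : 0 < r) (hd : ∀ n, DifferentiableOn ℂ (g n) (ball c (2 * r)))
    (hu : TendstoUniformlyOn g G atTop (ball c (2 * r))) : DifferentiableAt ℂ G c := by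
  have hsub : ∀ x ∈ ball c r, ball x r ⊆ ball c (2 * r) := by
    intro x hx y hy
    rw [mem_ball] at *
    have := dist_triangle y x c
    linarith
  have hat : ∀ n, ∀ x ∈ ball c r, DifferentiableAt ℂ (g n) x := fun n x hx =>
    (hd n).differentiableAt (isOpen_ball.mem_nhds (hsub x hx (mem_ball_self hr)))
  have hC : UniformCauchySeqOn (fun n x => fderiv ℂ (g n) x) atTop (ball c r) := by
    rw [Metric.uniformCauchySeqOn_iff]
    intro ε hε
    obtain ⟨N, hN⟩ := Metric.uniformCauchySeqOn_iff.1 hu.uniformCauchySeqOn (ε * r / 4)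
      (by positivity)
    refine ⟨N, fun m hm n hn x hx => ?_⟩
    have h1 : ‖fderiv ℂ (g m - g n) x‖ ≤ 2 * (ε * r / 4) / r := by
      refine cx1a_cauchy hr (((hd m).sub (hd n)).mono (hsub x hx)) fun y hy => ?_
      have := hN m hm n hn y (hsub x hx hy)
      rw [dist_eq_norm] at this
      exact this.le
    rw [fderiv_sub (hat m x hx) (hat n x hx)] at h1
    rw [dist_eq_norm]
    have h2 : 2 * (ε * r / 4) / r = ε / 2 := by field_simp; ring
    linarith
  have hlim : ∀ x ∈ ball c r, ∃ L, Tendsto (fun n => fderiv ℂ (g n) x) atTop (𝓝 L) :=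
    fun x hx => cauchySeq_tendsto_of_complete (hC.cauchySeq hx)
  choose! G' hG' using hlim
  have hT := hC.tendstoUniformlyOn_of_tendsto hG'
  exact (hasFDerivAt_of_tendstoUniformlyOn isOpen_ball hT
    (fun n x hx => (hat n x hx).hasFDerivAt)
    (fun x hx => hu.tendsto_at (hsub x hx (mem_ball_self hr))) (mem_ball_self hr)).differentiableAt

/-- uniform second order Taylor estimate -/
theorem cx1a_taylor {h : E → F} {x : E} {r M : ℝ} (hr : 0 < r)
    (hd : DifferentiableOn ℂ h (ball x r)) (hb : ∀ y ∈ ball x r, ‖h y‖ ≤ M) {y : E}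
    (hy : y ∈ ball x r) :
    ‖h y - h x - fderiv ℂ h x (y - x)‖ ≤ 4 * M * (‖y - x‖ / r) ^ 2 := by
  have hx : DifferentiableAt ℂ h x := hd.differentiableAt (ball_mem_nhds x hr)
  have hc := cx1a_cauchy hr hd hb
  set L := fderiv ℂ h x with hL
  have key := dist_le_mul_div_pow_of_mapsTo_ball_of_isLittleO
    (f := fun w => h w - L (w - x)) (c := x) (z := y) (R₁ := r) (R₂ := 4 * M) (n := 1)
    (hd.sub (by fun_prop)) ?_ ?_ hy
  · rw [dist_eq_norm, dist_eq_norm] at key
    simp only [sub_self, map_zero, sub_zero] at key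
    have e : h y - h x - L (y - x) = h y - L (y - x) - h x := by abel
    rw [e]
    exact key
  · intro w hw
    simp only [sub_self, map_zero, sub_zero, mem_closedBall, dist_eq_norm]
    have h1 := hb w hw
    have h2 := hb x (mem_ball_self hr)
    have h3 : ‖L (w - x)‖ ≤ 2 * M := by
      have h4 : ‖w - x‖ ≤ r := by
        rw [mem_ball, dist_eq_norm] at hw
        exact hw.le
      calc ‖L (w - x)‖ ≤ ‖L‖ * ‖w - x‖ := L.le_opNorm _
        _ ≤ (2 * M / r) * r := by
          refine mul_le_mul hc h4 (norm_nonneg _) ((norm_nonneg _).trans hc)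
        _ = 2 * M := by field_simp
    have h5 := norm_sub_le (h w - L (w - x)) (h x)
    have h6 := norm_sub_le (h w) (L (w - x))
    linarith
  · have h1 := hx.hasFDerivAt.isLittleO
    simp only [sub_self, map_zero, sub_zero, pow_one]
    rw [Asymptotics.isLittleO_norm_right]
    refine h1.congr_left fun w => ?_
    rw [hL]
    abel

/-- directional derivatives of complex differentiable maps are differentiable -/
theorem cx1a_dir [CompleteSpace F] {f : E → F} {s : Set E} (hs : IsOpen s)
    (hf : DifferentiableOn ℂ f s) (v : E) : DifferentiableOn ℂ (fun x => fderiv ℂ f x v) s := by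
  intro c hc
  refine DifferentiableAt.differentiableWithinAt ?_
  have hcont : ContinuousAt f c := (hf.differentiableAt (hs.mem_nhds hc)).continuousAt
  have hev : ∀ᶠ y in 𝓝 c, y ∈ s ∧ ‖f y‖ ≤ ‖f c‖ + 1 := by
    refine (hs.eventually_mem hc).and ?_
    exact (hcont.norm.eventually (Iic_mem_nhds (lt_add_one ‖f c‖)))
  obtain ⟨ρ, hρ, hball⟩ := Metric.eventually_nhds_iff_ball.1 hev
  set M := ‖f c‖ + 1 with hM
  have hM0 : 0 < M := by positivity
  set r := ρ / 3 with hr
  have hr0 : 0 < r := by positivity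
  have hsub : ∀ x ∈ ball c (2 * r), ball x r ⊆ ball c ρ := by
    intro x hx y hy
    rw [mem_ball] at *
    have := dist_triangle y x c
    linarith
  set a : ℝ := r / (‖v‖ + 1) with ha
  have ha0 : 0 < a := by positivity
  have hav : a * ‖v‖ < r := by
    rw [ha, div_mul_eq_mul_div, div_lt_iff₀ (by positivity)]
    nlinarith
  set t : ℕ → ℝ := fun n => a / ((n : ℝ) + 1) with ht
  have ht0 : ∀ n, 0 < t n := fun n => by positivity
  have hta : ∀ n, t n ≤ a := fun n => div_le_self ha0.le (by simp)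
  have hnorm : ∀ n, ‖(t n : ℂ) • v‖ = t n * ‖v‖ := fun n => by
    rw [norm_smul, Complex.norm_real, Real.norm_of_nonneg (ht0 n).le]
  have hmem : ∀ n x, x + (t n : ℂ) • v ∈ ball x r := fun n x => by
    rw [mem_ball, dist_eq_norm, add_sub_cancel_left, hnorm]
    exact lt_of_le_of_lt (mul_le_mul_of_nonneg_right (hta n) (norm_nonneg _)) hav
  have hlim : Tendsto t atTop (𝓝 0) := by
    have := tendsto_one_div_add_atTop_nhds_zero_nat (𝕜 := ℝ) |>.const_mul a
    simpa [ht, div_eq_mul_inv] using this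
  refine cx1a_weierstrass (g := fun n x => ((t n : ℂ))⁻¹ • (f (x + (t n : ℂ) • v) - f x)) hr0
    (fun n x hx => ?_) ?_
  · refine DifferentiableAt.differentiableWithinAt ?_
    have h1 : DifferentiableAt ℂ f x :=
      hf.differentiableAt (hs.mem_nhds (hball _ (hsub x hx (mem_ball_self hr0))).1)
    have h2 : DifferentiableAt ℂ f (x + (t n : ℂ) • v) :=
      hf.differentiableAt (hs.mem_nhds (hball _ (hsub x hx (hmem n x))).1)
    have h3 : DifferentiableAt ℂ (fun x => f (x + (t n : ℂ) • v)) x :=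
      h2.comp x (by fun_prop)
    exact (h3.sub h1).const_smul _
  · rw [Metric.tendstoUniformlyOn_iff]
    intro ε hε
    have h0 : Tendsto (fun n => t n * (4 * M * (‖v‖ / r) ^ 2)) atTop (𝓝 0) := by
      simpa using hlim.mul_const (4 * M * (‖v‖ / r) ^ 2)
    filter_upwards [h0.eventually (Iio_mem_nhds hε)] with n hn x hx
    have h1 := cx1a_taylor hr0 (hf.mono fun y hy => (hball _ (hsub x hx hy)).1)
      (fun y hy => (hball _ (hsub x hx hy)).2) (hmem n x)
    rw [add_sub_cancel_left, hnorm] at h1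
    have hne : (t n : ℂ) ≠ 0 := by exact_mod_cast (ht0 n).ne'
    have e : ((t n : ℂ))⁻¹ • (f (x + (t n : ℂ) • v) - f x) - fderiv ℂ f x v =
        ((t n : ℂ))⁻¹ • (f (x + (t n : ℂ) • v) - f x - fderiv ℂ f x ((t n : ℂ) • v)) := by
      rw [map_smul, smul_sub ((t n : ℂ))⁻¹ _ ((t n : ℂ) • _), inv_smul_smul₀ hne]
    rw [dist_comm, dist_eq_norm, e, norm_smul, norm_inv, Complex.norm_real,
      Real.norm_of_nonneg (ht0 n).le]
    refine lt_of_le_of_lt ?_ hn
    have h2 := ht0 n
    calc (t n)⁻¹ * ‖f (x + (t n : ℂ) • v) - f x - fderiv ℂ f x ((t n : ℂ) • v)‖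
        ≤ (t n)⁻¹ * (4 * M * (t n * ‖v‖ / r) ^ 2) :=
          mul_le_mul_of_nonneg_left h1 (by positivity)
      _ = t n * (4 * M * (‖v‖ / r) ^ 2) := by field_simp

/-- a family of continuous linear maps is differentiable if all its applications are -/
theorem cx1a_clm [FiniteDimensional ℂ E] {f : E → E →L[ℂ] F} {s : Set E}
    (h : ∀ y, DifferentiableOn ℂ (fun x => f x y) s) : DifferentiableOn ℂ f s := by
  let d := Module.finrank ℂ E
  have hd : d = Module.finrank ℂ (Fin d → ℂ) := (Module.finrank_fin_fun ℂ).symm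
  let e₁ := ContinuousLinearEquiv.ofFinrankEq hd
  let e₂ := (e₁.arrowCongr (1 : F ≃L[ℂ] F)).trans (ContinuousLinearEquiv.piRing (Fin d))
  rw [← e₂.comp_differentiableOn_iff]
  exact differentiableOn_pi.mpr fun i => h _

end Aux

/-- Osgood: complex differentiable maps on open subsets of finite-dimensional spaces are
smooth. -/
theorem osgood {E F : Type} [NormedAddCommGroup E] [NormedSpace ℂ E] [FiniteDimensional ℂ E]
    [NormedAddCommGroup F] [NormedSpace ℂ F] [CompleteSpace F] {f : E → F} {s : Set E}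
    (hs : IsOpen s) (hf : DifferentiableOn ℂ f s) : ContDiffOn ℂ ∞ f s := by
  rw [contDiffOn_infty]
  intro n
  induction n generalizing F with
  | zero => simpa using hf.continuousOn
  | succ n ih =>
    have h1 : DifferentiableOn ℂ (fderiv ℂ f) s :=
      cx1a_clm fun v => cx1a_dir hs hf v
    rw [Nat.cast_succ, contDiffOn_succ_iff_fderiv_of_isOpen hs]
    exact ⟨hf, fun h => absurd h (by simp), ih h1⟩

end Pool.Agent.MP_e62289_ag
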