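import Pool.Agent.MP_e62289_ag.FDefs
import Pool.Agent.MP_e62289_ag.L0

open Set Filter Topology Complex MeasureTheory Metric
open scoped Manifold ContDiff ComplexConjugate NNReal ENNReal

namespace Pool.Agent.MP_e62289_ag

/-- holomorphic functions on `ℂ × B` are smooth in the real sense -/
theorem smooth_of_hol {E : Type} [NormedAddCommGroup E] [NormedSpace ℂ E] [FiniteDimensional ℂ E]
    {B : Type} [TopologicalSpace B] [ChartedSpace E B] [IsManifold 𝓘(ℂ, E) ω B]
    [IsManifold 𝓘(ℝ, E) ∞ B] {g : ℂ × B → ℂ} {O : Set (ℂ × B)} (hO : IsOpen O)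
    (hg : MDifferentiableOn (𝓘(ℂ, ℂ).prod 𝓘(ℂ, E)) 𝓘(ℂ, ℂ) g O) :
    ContMDiffOn (𝓘(ℝ, ℂ).prod 𝓘(ℝ, E)) 𝓘(ℝ, ℂ) ∞ g O := by
  intro p hp
  let e := chartAt E p.2
  have hc : ContinuousOn (fun w : ℂ × E => (w.1, e.symm w.2)) (Prod.snd ⁻¹' e.target) :=
    continuousOn_fst.prodMk (e.continuousOn_symm.comp continuousOn_snd fun _ h => h)
  have hs := hc.isOpen_inter_preimage (e.open_target.preimage continuous_snd) hO
  have hd := osgood (f := fun w : ℂ × E => g (w.1, e.symm w.2)) hs fun w hw => by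
    have h1 : MDifferentiableAt 𝓘(ℂ, ℂ × E) (𝓘(ℂ, ℂ).prod 𝓘(ℂ, E))
        (fun w : ℂ × E => (w.1, e.symm w.2)) w :=
      differentiableAt_fst.mdifferentiableAt.prodMk
        ((mdifferentiableAt_atlas_symm (chart_mem_atlas E p.2) hw.1).comp w
          differentiableAt_snd.mdifferentiableAt)
    exact (((hg _ hw.2).mdifferentiableAt (hO.mem_nhds hw.2)).comp w
      h1).differentiableAt.differentiableWithinAt
  have hm : (p.1, e p.2) ∈ Prod.snd ⁻¹' e.target ∩ (fun w : ℂ × E => (w.1, e.symm w.2)) ⁻¹' O :=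
    ⟨mem_chart_target E p.2, by
      simpa only [mem_preimage, e.left_inv (mem_chart_source E p.2)] using hp⟩
  have h2 : ContMDiffAt (𝓘(ℝ, ℂ).prod 𝓘(ℝ, E)) 𝓘(ℝ, ℂ × E) ∞ (fun p : ℂ × B => (p.1, e p.2)) p :=
    contMDiffAt_fst.prodMk_space ((contMDiffOn_chart.contMDiffAt
      (chart_source_mem_nhds E p.2)).comp p contMDiffAt_snd)
  have h3 := ((hd.restrict_scalars ℝ).contDiffAt (hs.mem_nhds hm)).contMDiffAt.comp p h2
  refine (h3.congr_of_eventuallyEq ?_).contMDiffWithinAt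
  filter_upwards [continuous_snd.continuousAt.preimage_mem_nhds (chart_source_mem_nhds E p.2)]
    with w hw
  simp only [Function.comp_apply, e.left_inv hw]

/-- holomorphic functions on `B` are smooth in the real sense -/
theorem smooth_of_hol' {E : Type} [NormedAddCommGroup E] [NormedSpace ℂ E] [FiniteDimensional ℂ E]
    {B : Type} [TopologicalSpace B] [ChartedSpace E B] [IsManifold 𝓘(ℂ, E) ω B]
    [IsManifold 𝓘(ℝ, E) ∞ B] {g : B → ℂ} {O : Set B} (hO : IsOpen O)
    (hg : MDifferentiableOn 𝓘(ℂ, E) 𝓘(ℂ, ℂ) g O) : ContMDiffOn 𝓘(ℝ, E) 𝓘(ℝ, ℂ) ∞ g O := by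
  have h := smooth_of_hol (g := fun p : ℂ × B => g p.2) (hO.preimage continuous_snd)
    (hg.comp mdifferentiableOn_snd fun _ h => h)
  exact h.comp (f := fun b : B => ((0 : ℂ), b)) (contMDiffOn_const.prodMk contMDiffOn_id)
    fun _ h => h

namespace Family

variable {E : Type} [NormedAddCommGroup E] [NormedSpace ℂ E] {B : Type} [TopologicalSpace B]
  [ChartedSpace E B] {n : ℕ} {a : Fin n → ℕ} (C : Family E B a)

theorem F1_open (x y : C.X) (b : B) :
    IsOpen {z : ℂ | (z, b) ∈ ((C.chart x).symm ≫ₕ C.chart y).source} :=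
  ((C.chart x).symm ≫ₕ C.chart y).open_source.preimage (Continuous.prodMk_left b)

theorem F1_analytic {x y : C.X} {b : B} {z : ℂ}
    (hz : (z, b) ∈ ((C.chart x).symm ≫ₕ C.chart y).source) :
    AnalyticAt ℂ (fun z => (C.chart y ((C.chart x).symm (z, b))).1) z := by
  refine DifferentiableOn.analyticAt (fun w hw => ?_) ((C.F1_open x y b).mem_nhds hz)
  have h1 : MDifferentiableAt 𝓘(ℂ, ℂ) (𝓘(ℂ, ℂ).prod 𝓘(ℂ, E)) (fun z : ℂ => (z, b)) w :=
    mdifferentiableAt_id.prodMk mdifferentiableAt_const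
  exact (((C.hol_chart x y _ hw).mdifferentiableAt
    (((C.chart x).symm ≫ₕ C.chart y).open_source.mem_nhds hw)).comp w
      h1).differentiableAt.differentiableWithinAt

theorem F1_mem {x y q : C.X} (hx : q ∈ (C.chart x).source) (hy : q ∈ (C.chart y).source) :
    ((C.chart x q).1, C.proj q) ∈ ((C.chart x).symm ≫ₕ C.chart y).source := by
  rw [C.chart_eq hx]
  refine ⟨(C.chart x).map_source hx, ?_⟩
  change (C.chart x).symm (C.chart x q) ∈ (C.chart y).source
  rwa [(C.chart x).left_inv hx]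

/-- coordinate changes along a fibre -/
theorem analyticAt_trans {x y q : C.X} (hx : q ∈ (C.chart x).source)
    (hy : q ∈ (C.chart y).source) :
    AnalyticAt ℂ (fun z => (C.chart y ((C.chart x).symm (z, C.proj q))).1) (C.chart x q).1 ∧
    deriv (fun z => (C.chart y ((C.chart x).symm (z, C.proj q))).1) (C.chart x q).1 ≠ 0 := by
  have h1 := C.F1_analytic (C.F1_mem hx hy)
  have h2 := C.F1_analytic (C.F1_mem hy hx)
  refine ⟨h1, fun h0 => ?_⟩
  have e : (C.chart y ((C.chart x).symm ((C.chart x q).1, C.proj q))).1 = (C.chart y q).1 := by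
    rw [C.chart_eq hx, (C.chart x).left_inv hx]
  have h3 := (e ▸ h2.differentiableAt.hasDerivAt).comp (C.chart x q).1
    h1.differentiableAt.hasDerivAt
  rw [h0, mul_zero] at h3
  refine zero_ne_one (h3.unique ((hasDerivAt_id _).congr_of_eventuallyEq ?_))
  filter_upwards [(C.F1_open x y _).mem_nhds (C.F1_mem hx hy)] with z hz
  have h4 : (C.chart x).symm (z, C.proj q) ∈ (C.chart y).source := hz.2
  have h5 := C.chart_eq h4
  rw [C.proj_symm hz.1] at h5
  simp only [Function.comp_apply, id, h5, (C.chart y).left_inv h4, (C.chart x).right_inv hz.1]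

theorem F1_trans {b : B} (y y' : C.Fib b) (x x' : C.X) {z : ℂ}
    (hz : z ∈ ((C.fchart y x).symm ≫ₕ C.fchart y' x').source) :
    AnalyticAt ℂ (C.fchart y' x' ∘ (C.fchart y x).symm) z := by
  have h1 : ((C.fchart y x).symm z).1 ∈ (C.chart x').source := hz.2
  rw [C.fchart_symm y x hz.1] at h1
  refine (C.F1_analytic (x := x) (y := x') (b := b) ⟨hz.1.1, h1⟩).congr ?_
  filter_upwards [(C.fchart y x).open_target.mem_nhds hz.1] with w hw
  rw [Function.comp_apply, fchart_apply, C.fchart_symm y x hw]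

instance (b : B) : IsManifold 𝓘(ℂ, ℂ) ω (C.Fib b) := by
  refine isManifold_of_contDiffOn _ _ _ ?_
  rintro _ _ ⟨y, rfl⟩ ⟨y', rfl⟩ z hz
  simp only [mfld_simps] at hz ⊢
  exact (C.F1_trans y y' _ _ hz).contDiffAt.contDiffWithinAt

instance (b : B) : IsManifold 𝓘(ℝ, ℂ) ω (C.Fib b) := by
  refine isManifold_of_contDiffOn _ _ _ ?_
  rintro _ _ ⟨y, rfl⟩ ⟨y', rfl⟩ z hz
  simp only [mfld_simps] at hz ⊢
  exact ((C.F1_trans y y' _ _ hz).contDiffAt.restrict_scalars ℝ).contDiffWithinAt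

theorem fchart_hol {b : B} (y : C.Fib b) (x : C.X) :
    MDifferentiableOn 𝓘(ℂ, ℂ) 𝓘(ℂ, ℂ) (C.fchart y x) (C.fchart y x).source := by
  intro q hq
  have h0 := mem_chart_source ℂ q
  have h1 := C.F1_trans q y q.1 x (z := chartAt ℂ q q) ⟨mem_chart_target ℂ q, by
    have := (chartAt ℂ q).left_inv h0
    change (chartAt ℂ q).symm (chartAt ℂ q q) ∈ (C.fchart y x).source
    rwa [this]⟩
  have h2 := h1.differentiableAt.mdifferentiableAt.comp q
    (mdifferentiableAt_atlas (I := 𝓘(ℂ, ℂ)) (chart_mem_atlas ℂ q) h0)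
  refine (h2.congr_of_eventuallyEq ?_).mdifferentiableWithinAt
  filter_upwards [chart_source_mem_nhds ℂ q] with w hw
  exact congrArg _ ((chartAt ℂ q).left_inv hw).symm

theorem holAt_chart {b : B} {x : C.X} {q : C.Fib b} (h : q.1 ∈ (C.chart x).source) :
    HolAt (fun y : C.Fib b => (C.chart x y.1).1) q ∧
      d1 (fun y : C.Fib b => (C.chart x y.1).1) q ≠ 0 := by
  exact (coord_hol (C.fchart_hol q x)).1 q h

variable {Y : Type} [TopologicalSpace Y] [ChartedSpace ℂ Y]

/-- smoothness of a map into a fibre can be tested in any chart of the total space -/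
theorem contMDiffAt_fib {b : B} {G : Y → C.Fib b} {q : Y} {x : C.X} (hc : ContinuousAt G q)
    (hx : (G q).1 ∈ (C.chart x).source) (h : CkAt 2 (fun y => (C.chart x (G y).1).1) q) :
    ContMDiffAt 𝓘(ℝ, ℂ) 𝓘(ℝ, ℂ) 2 G q ∧
    (∃ c : ℂ, c ≠ 0 ∧ d1 (fun y => (C.chart x (G y).1).1) q = c * d1 G q ∧
      d2 (fun y => (C.chart x (G y).1).1) q = c * d2 G q) := by
  have h0 : G q ∈ (C.fchart (G q) x).source := hx
  have h1 := C.F1_trans (G q) (G q) x (G q).1 (z := C.fchart (G q) x (G q))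
    ⟨(C.fchart (G q) x).map_source h0, by
      change (C.fchart (G q) x).symm _ ∈ (C.fchart (G q) (G q).1).source
      rw [(C.fchart (G q) x).left_inv h0]
      exact C.mem_source _⟩
  have h2 : ContMDiffAt 𝓘(ℝ, ℂ) 𝓘(ℝ, ℂ) 2 G q := by
    refine contMDiffAt_iff_target.2 ⟨hc, ?_⟩
    refine ((h1.contDiffAt.restrict_scalars ℝ).contMDiffAt.comp q h).congr_of_eventuallyEq ?_
    filter_upwards [hc.preimage_mem_nhds ((C.fchart (G q) x).open_source.mem_nhds h0)] with w hw
    exact congrArg (C.fchart (G q) (G q).1) ((C.fchart (G q) x).left_inv hw).symm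
  obtain ⟨h3, h4⟩ := C.holAt_chart hx
  obtain ⟨h5, h6, -⟩ := bel_comp_hol (h2.mdifferentiableAt (by simp)) h3 h4
  exact ⟨h2, _, h4, h5, h6⟩

theorem ckAt_adm {b : B} (G : Adm Y (C.Fib b)) {q : Y} {x : C.X}
    (hx : (G.φ q).1 ∈ (C.chart x).source) : CkAt 2 (fun y => (C.chart x (G.φ y).1).1) q := by
  have h1 : CkAt 2 (fun y : C.Fib b => (C.chart x y.1).1) (G.φ q) := by
    refine ckAt_of_hol ?_ 2
    filter_upwards [(C.fchart (G.φ q) x).open_source.mem_nhds hx] with w hw
    exact (C.holAt_chart hw).1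
  exact h1.comp q (G.φ.contMDiff q)

variable {C} {T T' : Type} [TopologicalSpace T] [TopologicalSpace T'] {ψ : T → B}
  {Y' : Type} [TopologicalSpace Y'] [ChartedSpace ℂ Y']

/-- change of the marking surface -/
noncomputable def MFam.pre (M : C.MFam Y' ψ) (A : Adm Y Y') : C.MFam Y ψ where
  G t := A.trans (M.G t)
  cont := M.cont.comp (continuous_fst.prodMk (A.φ.continuous.comp continuous_snd))
  cont' := A.φ.symm.continuous.comp M.cont'
  conf := by
    obtain ⟨K, hK, h⟩ := A.conf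
    obtain ⟨K', hK', h'⟩ := M.conf
    refine ⟨K ∪ A.φ.symm '' K', hK.union (hK'.image A.φ.symm.continuous), fun t q hq => ?_⟩
    rw [(A.d_trans (M.G t) q).2, h q fun h => hq (Or.inl h),
      h' t (A.φ q) fun h => hq (Or.inr ⟨_, h, A.φ.symm_apply_apply q⟩)]
    simp

/-- change of the parameter space -/
noncomputable def MFam.comap (M : C.MFam Y ψ) (g : T' → T) (hg : Continuous g) :
    C.MFam Y fun t => ψ (g t) where
  G t := M.G (g t)
  cont := M.cont.comp ((hg.comp continuous_fst).prodMk continuous_snd)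
  cont' := M.cont'.comp (f := fun p : C.Tot fun t => ψ (g t) => (⟨(g p.1.1, p.1.2), p.2⟩ : C.Tot ψ))
    (((hg.comp (continuous_fst.comp continuous_subtype_val)).prodMk
      (continuous_snd.comp continuous_subtype_val)).subtype_mk _)
  conf := let ⟨K, hK, h⟩ := M.conf; ⟨K, hK, fun t => h (g t)⟩

end Family

end Pool.Agent.MP_e62289_ag
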