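import Pool.Agent.MP_e62289_ag.F1
import Pool.Agent.MP_e62289_ag.L1

open Set Filter Topology Complex MeasureTheory Metric
open scoped Manifold ContDiff ComplexConjugate NNReal ENNReal

namespace Pool.Agent.MP_e62289_ag

namespace Family

variable {E : Type} [NormedAddCommGroup E] [NormedSpace ℂ E] {B : Type} [TopologicalSpace B]
  [ChartedSpace E B] {n : ℕ} {a : Fin n → ℕ} {C : Family E B a} {V : Set B}
  {f : C.X → ℂ × B → ℂ} {b : B} {m : ℕ} {S : Flat m}

theorem F2a_chart {x : C.X} (y : C.Fib b) (hy : y.1 ∈ (C.chart x).source) :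
    ((C.chart x y.1).1, b) = C.chart x y.1 := by
  have e := C.chart_eq hy
  rwa [y.2.1] at e

theorem IsForm.analyticAt (hf : C.IsForm V f) (hV : IsOpen V) {x q : C.X}
    (hq : q ∈ (C.chart x).source) (hb : C.proj q ∈ V) :
    AnalyticAt ℂ (fun z => f x (z, C.proj q)) (C.chart x q).1 := by
  have ho : IsOpen ((C.chart x).target ∩ univ ×ˢ V) :=
    (C.chart x).open_target.inter (isOpen_univ.prod hV)
  have ho' := ho.preimage (Continuous.prodMk_left (C.proj q))
  refine DifferentiableOn.analyticAt (fun z hz => ?_) (ho'.mem_nhds ?_)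
  · have h1 := (hf.1 x _ hz).mdifferentiableAt (ho.mem_nhds hz)
    have h2 : MDifferentiableAt 𝓘(ℂ, ℂ) (𝓘(ℂ, ℂ).prod 𝓘(ℂ, E)) (fun z : ℂ => (z, C.proj q)) z :=
      mdifferentiableAt_id.prodMk mdifferentiableAt_const
    exact (mdifferentiableAt_iff_differentiableAt.1 (h1.comp z h2)).differentiableWithinAt
  · refine ⟨?_, mem_univ _, hb⟩
    change ((C.chart x q).1, C.proj q) ∈ _
    rw [C.chart_eq hq]
    exact (C.chart x).map_source hq

/-- the pull back can be computed in any chart -/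
theorem IsForm.pb_eq (hf : C.IsForm V f) (hb : b ∈ V) (G : Adm S.Y (C.Fib b)) {q : S.Y} {x : C.X}
    (hx : (G.φ q).1 ∈ (C.chart x).source) :
    C.pb1 f (fun y => (G.φ y).1) q =
      f x (C.chart x (G.φ q).1) * d1 (fun y => (C.chart x (G.φ y).1).1) q ∧
    C.pb2 f (fun y => (G.φ y).1) q =
      f x (C.chart x (G.φ q).1) * d2 (fun y => (C.chart x (G.φ y).1).1) q := by
  have hp : ∀ y, C.proj (G.φ y).1 = b := fun y => (G.φ y).2.1
  have hc : Continuous fun y => (G.φ y).1 := continuous_subtype_val.comp G.φ.continuous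
  have h1 := hf.2.1 x (G.φ q).1 (G.φ q).1 ⟨hx, C.mem_source _⟩ (by rw [hp]; exact hb)
  have h2 := (C.analyticAt_trans hx (C.mem_source _)).1.differentiableAt.hasDerivAt
  have h3 := d_hol_comp (u := fun y => (C.chart x (G.φ y).1).1) (q := q) h2
    ((C.ckAt_adm G hx).mdifferentiableAt (by simp))
  have h4 : (fun y => (C.chart (G.φ q).1 (G.φ y).1).1) =ᶠ[𝓝 q] fun y => (C.chart (G.φ q).1
      ((C.chart x).symm ((C.chart x (G.φ y).1).1, C.proj (G.φ q).1))).1 := by
    filter_upwards [hc.continuousAt.preimage_mem_nhds ((C.chart x).open_source.mem_nhds hx)]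
      with y hy
    rw [hp q, F2a_chart _ hy, (C.chart x).left_inv hy]
  rw [pb1, pb2, (d_congr h4).1, (d_congr h4).2, h3.2.1, h3.2.2, h1, mul_assoc, mul_assoc]
  exact ⟨rfl, rfl⟩

theorem IsForm.pb_closed (hf : C.IsForm V f) (hV : IsOpen V) (hb : b ∈ V) (G : Adm S.Y (C.Fib b))
    (q : S.Y) : ∃ v : S.Y → ℂ, CkAt 2 v q ∧ C.pb1 f (fun y => (G.φ y).1) =ᶠ[𝓝 q] d1 v ∧
      C.pb2 f (fun y => (G.φ y).1) =ᶠ[𝓝 q] d2 v := by
  have hp : ∀ y, C.proj (G.φ y).1 = b := fun y => (G.φ y).2.1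
  have hc : Continuous fun y => (G.φ y).1 := continuous_subtype_val.comp G.φ.continuous
  obtain ⟨x, hx⟩ : ∃ x, (G.φ q).1 ∈ (C.chart x).source := ⟨_, C.mem_source _⟩
  have h1 := hf.analyticAt hV hx (by rw [hp]; exact hb)
  rw [hp] at h1
  obtain ⟨r, hr, h2⟩ := Metric.eventually_nhds_iff_ball.1 h1.eventually_analyticAt
  obtain ⟨P, hP⟩ := DifferentiableOn.isExactOn_ball
    (fun z hz => (h2 z hz).differentiableAt.differentiableWithinAt)
  have h3 := C.ckAt_adm G hx
  have h4 : AnalyticAt ℂ P (C.chart x (G.φ q).1).1 :=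
    DifferentiableOn.analyticAt (fun z hz => (hP z hz).differentiableAt.differentiableWithinAt)
      (ball_mem_nhds _ hr)
  have h5 : ∀ᶠ y in 𝓝 q, C.pb1 f (fun y => (G.φ y).1) y =
      d1 (fun y => P (C.chart x (G.φ y).1).1) y ∧
      C.pb2 f (fun y => (G.φ y).1) y = d2 (fun y => P (C.chart x (G.φ y).1).1) y := by
    filter_upwards [hc.continuousAt.preimage_mem_nhds ((C.chart x).open_source.mem_nhds hx),
      h3.continuousAt.preimage_mem_nhds (ball_mem_nhds _ hr)] with y hy hy'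
    have h6 := d_hol_comp (u := fun y => (C.chart x (G.φ y).1).1) (q := y) (hP _ hy')
      ((C.ckAt_adm G hy).mdifferentiableAt (by simp))
    rw [(hf.pb_eq hb G hy).1, (hf.pb_eq hb G hy).2, h6.2.1, h6.2.2]
    simp only [F2a_chart _ hy, and_self]
  exact ⟨fun y => P (C.chart x (G.φ y).1).1,
    ((h4.contDiffAt (n := 2)).restrict_scalars ℝ).contMDiffAt.comp q h3,
    h5.mono fun _ h => h.1, h5.mono fun _ h => h.2⟩

theorem pb2_eq (f : C.X → ℂ × B → ℂ) (G : Adm S.Y (C.Fib b)) (q : S.Y) :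
    C.pb2 f (fun y => (G.φ y).1) q = bel G.φ q * C.pb1 f (fun y => (G.φ y).1) q := by
  have hx := C.mem_source (G.φ q).1
  obtain ⟨-, c, -, h1, h2⟩ := C.contMDiffAt_fib G.φ.continuous.continuousAt hx (C.ckAt_adm G hx)
  have h3 := G.d1_ne q
  rw [pb1, pb2, h1, h2, bel]
  field_simp

theorem IsForm.pb1_ne (hf : C.IsForm V f) (hV : IsOpen V) (hb : b ∈ V) (G : Adm S.Y (C.Fib b))
    (q : S.Y) : C.pb1 f (fun y => (G.φ y).1) q ≠ 0 := by
  have hx := C.mem_source (G.φ q).1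
  have hp : C.proj (G.φ q).1 ∈ V := by rw [(G.φ q).2.1]; exact hb
  obtain ⟨-, c, hc, h1, -⟩ := C.contMDiffAt_fib G.φ.continuous.continuousAt hx (C.ckAt_adm G hx)
  have h2 := hf.2.2 _ hp
  classical
  have h0 : (∑ᶠ (i) (_ : C.sec i (C.proj (G.φ q).1) = (G.φ q).1), (a i - 1) : ℕ) = 0 :=
    finsum_eq_zero_of_forall_eq_zero fun i => by
      rw [finsum_eq_if, if_neg]
      rw [(G.φ q).2.1]
      exact Ne.symm ((G.φ q).2.2 i)
  rw [h0, Nat.cast_zero, analyticOrderAt_eq_zero] at h2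
  have h3 := h2.resolve_left (not_not.2 (hf.analyticAt hV hx hp))
  rw [C.chart_eq hx] at h3
  rw [pb1, h1]
  exact mul_ne_zero h3 (mul_ne_zero hc (G.d1_ne q))

end Family

end Pool.Agent.MP_e62289_ag
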