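import Pool.Agent.MP_e62289_ag.F1
import Pool.Agent.MP_e62289_ag.L1
import Pool.Agent.MP_e62289_ag.F2a

open Set Filter Topology Complex MeasureTheory Metric
open scoped Manifold ContDiff ComplexConjugate NNReal ENNReal

namespace Pool.Agent.MP_e62289_ag

section ends
variable {m : ℕ} (S : Flat m) (j : Fin m)

theorem f2b_src : ∀ᶠ q in S.endF j, q ∈ (S.e j).source :=
  mem_inf_of_right (mem_principal_self _)

theorem f2b_tgt : ∀ᶠ w in 𝓝[≠] (0 : ℂ), w ∈ (S.e j).target := by
  rw [S.e_target]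
  exact inter_mem (mem_nhdsWithin_of_mem_nhds (ball_mem_nhds _ one_pos)) self_mem_nhdsWithin

theorem f2b_to : Tendsto (S.e j) (S.endF j) (𝓝[≠] 0) := by
  refine tendsto_nhdsWithin_iff.2 ⟨tendsto_inf_left tendsto_comap, ?_⟩
  filter_upwards [f2b_src S j] with q hq
  have := (S.e j).map_source hq
  rw [S.e_target] at this
  exact this.2

theorem f2b_from : Tendsto (S.e j).symm (𝓝[≠] 0) (S.endF j) := by
  refine tendsto_inf.2 ⟨tendsto_comap_iff.2 ?_, tendsto_principal.2 ?_⟩
  · refine (tendsto_nhdsWithin_of_tendsto_nhds tendsto_id).congr' ?_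
    filter_upwards [f2b_tgt S j] with w hw
    exact ((S.e j).right_inv hw).symm
  · filter_upwards [f2b_tgt S j] with w hw
    exact (S.e j).map_target hw

theorem f2b_out {K : Set S.Y} (hK : IsCompact K) : ∀ᶠ q in S.endF j, q ∉ K := by
  obtain ⟨r, hr, -, h⟩ := S.subset_core hK
  filter_upwards [(S.hasBasis_endF j).mem_of_mem hr] with q hq hq'
  exact absurd (interior_subset (h hq') j hq.1) (not_le.2 hq.2)

open Asymptotics in
/-- a holomorphic function with a limit at an end -/
theorem f2b_hol {u : S.Y → ℂ} {z : ℂ} (hu : ∀ᶠ q in S.endF j, HolAt u q)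
    (hz : Tendsto u (S.endF j) (𝓝 z)) :
    (fun q => u q - z) =O[S.endF j] S.e j ∧ d1 u =O[S.endF j] d1 (S.e j) := by
  set g : ℂ → ℂ := Function.update (u ∘ (S.e j).symm) 0 z with hg
  have h1 : ∀ᶠ q in S.endF j, HasDerivAt g (d1 u q / d1 (S.e j) q) (S.e j q) ∧ g (S.e j q) = u q := by
    filter_upwards [hu, f2b_src S j, (f2b_to S j).eventually self_mem_nhdsWithin] with q h1 h2 h3
    refine ⟨(hasDerivAt_coord (S.e_hol j) h2 h1).congr_of_eventuallyEq ?_, ?_⟩
    · filter_upwards [isOpen_ne.mem_nhds h3] with w hw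
      exact Function.update_of_ne hw _ _
    · rw [hg, Function.update_of_ne h3, Function.comp_apply, (S.e j).left_inv h2]
  have h2 : AnalyticAt ℂ g 0 := by
    refine Complex.analyticAt_of_differentiable_on_punctured_nhds_of_continuousAt ?_
      (continuousAt_update_same.2 (hz.comp (f2b_from S j)))
    filter_upwards [(f2b_from S j).eventually h1, f2b_tgt S j] with w hw hw'
    have := hw.1.differentiableAt
    rwa [(S.e j).right_inv hw'] at this
  have h3 : Tendsto (S.e j) (S.endF j) (𝓝 0) := (f2b_to S j).mono_right nhdsWithin_le_nhds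
  constructor
  · refine (h2.differentiableAt.isBigO_sub.comp_tendsto h3).congr' ?_ (Eventually.of_forall ?_)
    · filter_upwards [h1] with q hq
      simp only [Function.comp_apply, hq.2]
      rw [hg, Function.update_self]
    · intro q
      simp
  · have h4 := ((h2.deriv.continuousAt.tendsto.comp h3).isBigO_one ℂ).mul
      (isBigO_refl (d1 (S.e j)) (S.endF j))
    refine h4.congr' ?_ (Eventually.of_forall fun q => one_mul _)
    filter_upwards [h1, f2b_src S j] with q hq hq'
    simp only [Function.comp_apply, hq.1.deriv]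
    exact div_mul_cancel₀ _ ((coord_hol (S.e_hol j)).1 q hq').2

end ends

open Asymptotics in
theorem f2b_ord {F : ℂ → ℂ} {z : ℂ} {k : ℕ} (hF : AnalyticAt ℂ F z)
    (hk : analyticOrderAt F z = k) : F =O[𝓝 z] fun w => (w - z) ^ k := by
  obtain ⟨g, hg, -, h⟩ := hF.analyticOrderAt_eq_natCast.1 hk
  have h1 := (isBigO_refl (fun w => (w - z) ^ k) (𝓝 z)).mul (hg.continuousAt.tendsto.isBigO_one ℂ)
  exact h1.congr' (EventuallyEq.symm h) (Eventually.of_forall fun w => mul_one _)

namespace Family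

variable {E : Type} [NormedAddCommGroup E] [NormedSpace ℂ E] {B : Type} [TopologicalSpace B]
  [ChartedSpace E B] {n : ℕ} {a : Fin n → ℕ} {C : Family E B a} {V : Set B}
  {f : C.X → ℂ × B → ℂ} {b : B} {m : ℕ} {S : Flat m}

/-- the pull back vanishes at the ends to the prescribed order -/
theorem IsForm.pb1_end (hf : C.IsForm V f) (hV : IsOpen V) (hb : b ∈ V) (G : Adm S.Y (C.Fib b))
    {j : Fin m} {i : Fin n} (h : Tendsto (fun q => (G.φ q).1) (S.endF j) (𝓝 (C.sec i b))) :
    ∃ c : ℝ, ∀ᶠ q in S.endF j,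
      ‖C.pb1 f (fun y => (G.φ y).1) q‖ ≤ c * ‖S.e j q‖ ^ (a i - 1) * ‖d1 (S.e j) q‖ := by
  set s := C.sec i b with hs
  have hp : C.proj s = b := C.proj_sec i b
  have hsrc : ∀ᶠ q in S.endF j, (G.φ q).1 ∈ (C.chart s).source :=
    h.eventually ((C.chart s).open_source.mem_nhds (C.mem_source s))
  obtain ⟨K, hK, hK'⟩ := G.conf
  have hz : Tendsto (fun q => (C.chart s (G.φ q).1).1) (S.endF j) (𝓝 (C.chart s s).1) :=
    (continuous_fst.continuousAt.comp ((C.chart s).continuousAt (C.mem_source s))).tendsto.comp h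
  have hu : ∀ᶠ q in S.endF j, HolAt (fun q => (C.chart s (G.φ q).1).1) q := by
    filter_upwards [hsrc, f2b_out S j hK] with q h1 h2
    exact (C.holAt_chart h1).1.comp q (hol_of_d2 (G.md q) (hK' q h2))
  obtain ⟨h1, h2⟩ := f2b_hol S j hu hz
  have hF : AnalyticAt ℂ (fun z => f s (z, C.proj s)) (C.chart s s).1 :=
    hf.analyticAt hV (C.mem_source s) (hp ▸ hb)
  have hk : (∑ᶠ (i') (_ : C.sec i' (C.proj s) = s), (a i' - 1) : ℕ) = a i - 1 := by
    have : ∀ i', C.sec i' (C.proj s) = s ↔ i' = i := fun i' => by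
      rw [hp]
      exact (C.inj_sec b).eq_iff
    simp only [this, finsum_cond_eq_left]
  have h3 := (f2b_ord hF ((hf.2.2 s (hp ▸ hb)).trans (congrArg _ hk))).comp_tendsto hz
  obtain ⟨c, hc⟩ := ((h3.trans (h1.pow (a i - 1))).mul h2).bound
  refine ⟨c, ?_⟩
  filter_upwards [hc, hsrc] with q h4 h5
  rw [(hf.pb_eq hb G h5).1, ← C.chart_eq h5, (G.φ q).2.1, mul_assoc, ← norm_pow, ← norm_mul]
  simpa only [Function.comp_apply, hp] using h4

end Family

end Pool.Agent.MP_e62289_ag
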