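import Pool.Agent.MP_e62289_ag.F1
import Pool.Agent.MP_e62289_ag.L1

open Set Filter Topology Complex MeasureTheory Metric
open scoped Manifold ContDiff ComplexConjugate NNReal ENNReal

namespace Pool.Agent.MP_e62289_ag

namespace Family

variable {E : Type} [NormedAddCommGroup E] [NormedSpace ℂ E] {B : Type} [TopologicalSpace B]
  [ChartedSpace E B] {n : ℕ} {a : Fin n → ℕ} {C : Family E B a} {V : Set B}
  {f : C.X → ℂ × B → ℂ} {b : B} {m : ℕ} {S : Flat m}

/-- a fibrewise holomorphic bijection read in a chart of the target -/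
theorem f2c_loc {E' : Type} [NormedAddCommGroup E'] [NormedSpace ℂ E'] {T : Type}
    [TopologicalSpace T] [ChartedSpace E' T] {D : Family E' T a} {ψ : T → B}
    {Ψ : D.X → C.X} (hΨ : Continuous Ψ) (hb : ∀ t, BijOn Ψ (D.proj ⁻¹' {t}) (C.proj ⁻¹' {ψ t}))
    (hh : ∀ x y, MDifferentiableOn (𝓘(ℂ, ℂ).prod 𝓘(ℂ, E')) 𝓘(ℂ, ℂ)
      (fun w => (C.chart y (Ψ ((D.chart x).symm w))).1)
      ((D.chart x).target ∩ (fun w => Ψ ((D.chart x).symm w)) ⁻¹' (C.chart y).source))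
    {t : T} {y : C.X} {q : D.Fib t} (hq : Ψ q.1 ∈ (C.chart y).source) :
    HolAt (fun q' : D.Fib t => (C.chart y (Ψ q'.1)).1) q ∧
      d1 (fun q' : D.Fib t => (C.chart y (Ψ q'.1)).1) q ≠ 0 := by
  obtain ⟨x, hx⟩ : ∃ x, q.1 ∈ (D.chart x).source := ⟨_, D.mem_source q.1⟩
  let g : ℂ → ℂ := fun z => (C.chart y (Ψ ((D.chart x).symm (z, t)))).1
  let O : Set (ℂ × T) :=
    (D.chart x).target ∩ (fun w => Ψ ((D.chart x).symm w)) ⁻¹' (C.chart y).source
  have hO : IsOpen O :=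
    (D.chart x).isOpen_inter_preimage_symm ((C.chart y).open_source.preimage hΨ)
  have hs : IsOpen ((fun z : ℂ => (z, t)) ⁻¹' O) := hO.preimage (Continuous.prodMk_left t)
  have hg : DifferentiableOn ℂ g ((fun z : ℂ => (z, t)) ⁻¹' O) := by
    rw [← mdifferentiableOn_iff_differentiableOn]
    exact (hh x y).comp (f := fun z : ℂ => (z, t))
      (mdifferentiable_id.prodMk mdifferentiable_const).mdifferentiableOn fun z hz => hz
  have hi : InjOn g ((fun z : ℂ => (z, t)) ⁻¹' O) := by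
    intro z₁ h₁ z₂ h₂ e
    have p₁ : D.proj ((D.chart x).symm (z₁, t)) = t := D.proj_symm h₁.1
    have p₂ : D.proj ((D.chart x).symm (z₂, t)) = t := D.proj_symm h₂.1
    have c₁ := C.chart_eq h₁.2
    have c₂ := C.chart_eq h₂.2
    have r₁ : C.proj (Ψ ((D.chart x).symm (z₁, t))) = ψ t := (hb t).mapsTo p₁
    have r₂ : C.proj (Ψ ((D.chart x).symm (z₂, t))) = ψ t := (hb t).mapsTo p₂
    have e1 : C.chart y (Ψ ((D.chart x).symm (z₁, t))) =
        C.chart y (Ψ ((D.chart x).symm (z₂, t))) := by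
      rw [← c₁, ← c₂, r₁, r₂]
      exact Prod.ext e rfl
    have e2 := (hb t).injOn p₁ p₂ ((C.chart y).injOn h₁.2 h₂.2 e1)
    exact congrArg Prod.fst ((D.chart x).symm.injOn h₁.1 h₂.1 e2)
  have hc : ∀ q' : D.Fib t, q'.1 ∈ (D.chart x).source →
      (D.chart x).symm ((D.chart x q'.1).1, t) = q'.1 := by
    intro q' h'
    have e := D.chart_eq h'
    rw [q'.2.1] at e
    rw [e, (D.chart x).left_inv h']
  have hm : (D.chart x q.1).1 ∈ (fun z : ℂ => (z, t)) ⁻¹' O := by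
    have e := D.chart_eq hx
    rw [q.2.1] at e
    refine ⟨e ▸ (D.chart x).map_source hx, ?_⟩
    change Ψ ((D.chart x).symm ((D.chart x q.1).1, t)) ∈ (C.chart y).source
    rwa [hc q hx]
  have he : (fun q' : D.Fib t => (C.chart y (Ψ q'.1)).1) =ᶠ[𝓝 q]
      fun q' : D.Fib t => g (D.chart x q'.1).1 := by
    filter_upwards [((D.chart x).open_source.preimage continuous_subtype_val).mem_nhds hx]
      with q' h'
    simp only [g, hc q' h']
  obtain ⟨h1, h2⟩ := D.holAt_chart hx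
  have hd := hg.differentiableAt (hs.mem_nhds hm)
  constructor
  · exact (MDifferentiableAt.comp (g := g) q hd.mdifferentiableAt h1).congr_of_eventuallyEq he
  · rw [(d_congr he).1, (d_hol_comp (u := fun q' : D.Fib t => (D.chart x q'.1).1) hd.hasDerivAt
      (d2_of_hol h1).1).2.1]
    exact mul_ne_zero (deriv_ne_zero_of_injOn hs hg hi hm) h2

/-- the conformal maps between punctured fibres -/
theorem f2c_adm {E' : Type} [NormedAddCommGroup E'] [NormedSpace ℂ E'] {T : Type}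
    [TopologicalSpace T] [ChartedSpace E' T] {D : Family E' T a} {ψ : T → B}
    {Ψ : D.X → C.X} (hΨ : Continuous Ψ) (hb : ∀ t, BijOn Ψ (D.proj ⁻¹' {t}) (C.proj ⁻¹' {ψ t}))
    (hs : ∀ i t, Ψ (D.sec i t) = C.sec i (ψ t))
    (hh : ∀ x y, MDifferentiableOn (𝓘(ℂ, ℂ).prod 𝓘(ℂ, E')) 𝓘(ℂ, ℂ)
      (fun w => (C.chart y (Ψ ((D.chart x).symm w))).1)
      ((D.chart x).target ∩ (fun w => Ψ ((D.chart x).symm w)) ⁻¹' (C.chart y).source))
    (t : T) : ∃ A : Adm (D.Fib t) (C.Fib (ψ t)), (∀ q, (A.φ q).1 = Ψ q.1) ∧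
      ∀ q, d2 A.φ q = 0 := by
  let P : D.Fib t → C.Fib (ψ t) := fun q => ⟨Ψ q.1, (hb t).mapsTo q.2.1, fun i h =>
    q.2.2 i ((hb t).injOn q.2.1 (D.proj_sec i t) (h.trans (hs i t).symm))⟩
  have hP : Continuous P := (hΨ.comp continuous_subtype_val).subtype_mk _
  have hbij : Function.Bijective P := by
    constructor
    · intro q q' e
      exact Subtype.ext ((hb t).injOn q.2.1 q'.2.1 (congrArg Subtype.val e))
    · intro p
      obtain ⟨x, hx, e⟩ := (hb t).surjOn p.2.1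
      exact ⟨⟨x, hx, fun i h => p.2.2 i (by rw [← e, h, hs])⟩, Subtype.ext e⟩
  have key : ∀ q, ContMDiffAt 𝓘(ℝ, ℂ) 𝓘(ℝ, ℂ) 2 P q ∧ d1 P q ≠ 0 ∧ d2 P q = 0 := by
    intro q
    have hq := C.mem_source (Ψ q.1)
    have h1 : ∀ᶠ q' in 𝓝 q, HolAt (fun q' : D.Fib t => (C.chart (Ψ q.1) (Ψ q'.1)).1) q' := by
      filter_upwards [((C.chart (Ψ q.1)).open_source.preimage
        (hΨ.comp continuous_subtype_val)).mem_nhds hq] with q' h'
      exact (f2c_loc hΨ hb hh h').1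
    obtain ⟨h2, c, hc, h3, h4⟩ := C.contMDiffAt_fib (G := P) (x := Ψ q.1) hP.continuousAt hq
      (ckAt_of_hol h1 2)
    obtain ⟨h5, h6⟩ := f2c_loc hΨ hb hh hq
    refine ⟨h2, fun h => h6 (h3.trans (by rw [h, mul_zero])), ?_⟩
    exact (mul_eq_zero.1 (h4.symm.trans (d2_of_hol h5).2)).resolve_left hc
  obtain ⟨A, hA⟩ := Adm.exists_of_bij hbij (fun q => (key q).1)
    (fun q => by rw [(key q).2.2, norm_zero]; exact norm_pos_iff.2 (key q).2.1)
    ⟨∅, isCompact_empty, fun q _ => (key q).2.2⟩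
  exact ⟨A, fun q => by rw [hA], fun q => by rw [hA]; exact (key q).2.2⟩

/-- markings of an induced family -/
theorem MFam.pull {E' : Type} [NormedAddCommGroup E'] [NormedSpace ℂ E'] {T : Type}
    [TopologicalSpace T] [T2Space T] [ChartedSpace E' T] {D : Family E' T a} {Y : Type}
    [TopologicalSpace Y] [ChartedSpace ℂ Y] (M : D.MFam Y fun t => t) {ψ : T → B}
    {Ψ : D.X → C.X} (hΨ : Continuous Ψ) (hb : ∀ t, BijOn Ψ (D.proj ⁻¹' {t}) (C.proj ⁻¹' {ψ t}))
    (hs : ∀ i t, Ψ (D.sec i t) = C.sec i (ψ t))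
    (hh : ∀ x y, MDifferentiableOn (𝓘(ℂ, ℂ).prod 𝓘(ℂ, E')) 𝓘(ℂ, ℂ)
      (fun w => (C.chart y (Ψ ((D.chart x).symm w))).1)
      ((D.chart x).target ∩ (fun w => Ψ ((D.chart x).symm w)) ⁻¹' (C.chart y).source)) :
    ∃ M' : C.MFam Y ψ, (∀ t q, ((M'.G t).φ q).1 = Ψ ((M.G t).φ q).1) ∧
      ∀ t, bel (M'.G t).φ = bel (M.G t).φ := by
  choose A hA hA2 using f2c_adm hΨ hb hs hh
  have hΛc : Continuous fun d : D.X => (D.proj d, Ψ d) := D.proper.continuous.prodMk hΨ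
  have hΛ : Topology.IsClosedEmbedding fun d : D.X => (D.proj d, Ψ d) := by
    refine .of_continuous_injective_isClosedMap hΛc (fun d d' e => ?_)
      (isProperMap_of_comp_of_t2 hΛc continuous_fst D.proper).isClosedMap
    exact (hb (D.proj d)).injOn rfl (congrArg Prod.fst e).symm (congrArg Prod.snd e)
  have hj : Continuous fun p : C.Tot ψ => ((A p.1.1).φ.symm ⟨p.1.2, p.2⟩).1 := by
    refine hΛ.isInducing.continuous_iff.2 (continuous_subtype_val.congr fun p => ?_)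
    refine Prod.ext ((A p.1.1).φ.symm ⟨p.1.2, p.2⟩).2.1.symm ?_
    change p.1.2 = Ψ _
    rw [← hA, Diffeomorph.apply_symm_apply]
  refine ⟨⟨fun t => (M.G t).trans (A t), ?_, ?_, ?_⟩, fun t q => hA t _, fun t => ?_⟩
  · exact (hΨ.comp M.cont).congr fun p => (hA p.1 _).symm
  · exact M.cont'.comp (f := fun p : C.Tot ψ =>
      (⟨(p.1.1, ((A p.1.1).φ.symm ⟨p.1.2, p.2⟩).1), ((A p.1.1).φ.symm ⟨p.1.2, p.2⟩).2⟩ :
        D.Tot fun t => t))
      (((continuous_fst.comp continuous_subtype_val).prodMk hj).subtype_mk _)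
  · obtain ⟨K, hK, h⟩ := M.conf
    refine ⟨K, hK, fun t q hq => ?_⟩
    rw [((M.G t).d_trans (A t) q).2, h t q hq, hA2]
    simp
  · exact funext fun q => (M.G t).bel_trans_conf (A t) (hA2 t _)

end Family

end Pool.Agent.MP_e62289_ag
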