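import Pool.Agent.MP_e62289_ag.F2
import Pool.Agent.MP_e62289_ag.L5

open Set Filter Topology Complex MeasureTheory Metric
open scoped Manifold ContDiff ComplexConjugate NNReal ENNReal

namespace Pool.Agent.MP_e62289_ag

namespace Family

variable {E : Type} [NormedAddCommGroup E] [NormedSpace ℂ E] {B : Type} [TopologicalSpace B]
  [ChartedSpace E B] {n : ℕ} {a : Fin n → ℕ} {C : Family E B a} {b₀ : B} {m : ℕ} {S : Flat m}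

open Classical in
/-- the Beltrami coefficients of the transported marking -/
noncomputable def Triv.mu (τ : C.Triv b₀) (G₀ : Adm S.Y (C.Fib b₀)) (b : B) : S.Y → ℂ :=
  if h : b ∈ τ.U then bel (G₀.trans (τ.M.G ⟨b, h⟩)).φ else 0

theorem Triv.mu_eq (τ : C.Triv b₀) (G₀ : Adm S.Y (C.Fib b₀)) {b : B} (h : b ∈ τ.U) :
    τ.mu G₀ b = bel (G₀.trans (τ.M.G ⟨b, h⟩)).φ := dif_pos h

/-- the fibre coordinate of the transported marking -/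
noncomputable def Triv.F3a_g (τ : C.Triv b₀) (G₀ : Adm S.Y (C.Fib b₀)) (x : C.X) (p : B × S.Y) :
    ℂ := (C.chart x (τ.F p.1 (G₀.φ p.2).1)).1

/-- the domain of `F3a_g` -/
def Triv.F3a_O (τ : C.Triv b₀) (G₀ : Adm S.Y (C.Fib b₀)) (x : C.X) : Set (B × S.Y) :=
  {p | p.1 ∈ τ.U ∧ τ.F p.1 (G₀.φ p.2).1 ∈ (C.chart x).source}

theorem Triv.F3a_open (τ : C.Triv b₀) (G₀ : Adm S.Y (C.Fib b₀)) (x : C.X) :
    IsOpen (τ.F3a_O G₀ x) := by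
  have h1 : ContinuousOn (fun p : B × S.Y => τ.F p.1 (G₀.φ p.2).1) (τ.U ×ˢ univ) :=
    τ.contF.comp (f := fun p : B × S.Y => (p.1, (G₀.φ p.2).1))
      (continuous_fst.prodMk
        (continuous_subtype_val.comp (G₀.φ.continuous.comp continuous_snd))).continuousOn
      fun p hp => ⟨hp.1, (G₀.φ p.2).2.1⟩
  have h2 := h1.isOpen_inter_preimage (τ.isOpen.prod isOpen_univ) (C.chart x).open_source
  convert h2 using 1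
  ext p
  simp [Triv.F3a_O]

theorem Triv.F3a_smooth (τ : C.Triv b₀) (G₀ : Adm S.Y (C.Fib b₀)) (x : C.X) :
    ContMDiffOn (𝓘(ℝ, E).prod 𝓘(ℝ, ℂ)) 𝓘(ℝ, ℂ) 1 (τ.F3a_g G₀ x) (τ.F3a_O G₀ x) := by
  have h1 : ContMDiff (𝓘(ℝ, E).prod 𝓘(ℝ, ℂ)) (𝓘(ℝ, E).prod 𝓘(ℝ, ℂ)) 2
      (fun p : B × S.Y => (p.1, G₀.φ p.2)) :=
    contMDiff_fst.prodMk (G₀.φ.contMDiff.comp contMDiff_snd)
  exact ((τ.smooth x).comp h1.contMDiffOn fun p hp => hp).of_le one_le_two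

theorem Triv.F3a_mem (τ : C.Triv b₀) (G₀ : Adm S.Y (C.Fib b₀)) {p : B × S.Y} (h : p.1 ∈ τ.U) :
    p ∈ τ.F3a_O G₀ (τ.F p.1 (G₀.φ p.2).1) := ⟨h, C.mem_source _⟩

theorem Triv.F3a_loc (τ : C.Triv b₀) (G₀ : Adm S.Y (C.Fib b₀)) {x : C.X} {p : B × S.Y}
    (hp : p ∈ τ.F3a_O G₀ x) :
    d1 (fun y => τ.F3a_g G₀ x (p.1, y)) p.2 ≠ 0 ∧
    τ.mu G₀ p.1 p.2 =
      d2 (fun y => τ.F3a_g G₀ x (p.1, y)) p.2 / d1 (fun y => τ.F3a_g G₀ x (p.1, y)) p.2 := by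
  obtain ⟨b, q⟩ := p
  obtain ⟨h, hx⟩ := hp
  let A : Adm S.Y (C.Fib b) := G₀.trans (τ.M.G ⟨b, h⟩)
  have hA : ∀ y, (A.φ y).1 = τ.F b (G₀.φ y).1 := fun y => τ.eq ⟨b, h⟩ (G₀.φ y)
  have e : (fun y => τ.F3a_g G₀ x (b, y)) = (fun y : C.Fib b => (C.chart x y.1).1) ∘ A.φ :=
    funext fun y => by simp only [Triv.F3a_g, Function.comp_apply, hA]
  have hx' : (A.φ q).1 ∈ (C.chart x).source := by rw [hA]; exact hx
  have hc := C.holAt_chart hx'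
  have hb := bel_comp_hol (A.md q) hc.1 hc.2
  refine ⟨?_, ?_⟩
  · change d1 (fun y => τ.F3a_g G₀ x (b, y)) q ≠ 0
    rw [e, hb.1]
    exact mul_ne_zero hc.2 (A.d1_ne q)
  · change τ.mu G₀ b q =
      d2 (fun y => τ.F3a_g G₀ x (b, y)) q / d1 (fun y => τ.F3a_g G₀ x (b, y)) q
    rw [e, τ.mu_eq G₀ h]
    exact hb.2.2.symm

variable [FiniteDimensional ℂ E] [IsManifold 𝓘(ℂ, E) ω B] [IsManifold 𝓘(ℝ, E) ∞ B]
  (τ : C.Triv b₀) (G₀ : Adm S.Y (C.Fib b₀))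

theorem Triv.mu_cont : ContinuousOn (fun p : B × S.Y => τ.mu G₀ p.1 p.2) (τ.U ×ˢ univ) := by
  intro p hp
  have hm := τ.F3a_mem G₀ hp.1
  have ho := τ.F3a_open G₀ (τ.F p.1 (G₀.φ p.2).1)
  have hd := S.continuousOn_d_par ho (τ.F3a_smooth G₀ _)
  have hc : ContinuousOn (fun p : B × S.Y => τ.mu G₀ p.1 p.2) (τ.F3a_O G₀ _) :=
    (hd.2.div hd.1 fun p hp => (τ.F3a_loc G₀ hp).1).congr fun p hp => (τ.F3a_loc G₀ hp).2
  exact (hc.continuousAt (ho.mem_nhds hm)).continuousWithinAt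

theorem Triv.mu_supp : ∃ K, IsCompact K ∧ ∀ b q, q ∉ K → τ.mu G₀ b q = 0 := by
  obtain ⟨K, hK, h⟩ := (τ.M.pre G₀).conf
  refine ⟨K, hK, fun b q hq => ?_⟩
  by_cases hb : b ∈ τ.U
  · have h0 : d2 (G₀.trans (τ.M.G ⟨b, hb⟩)).φ q = 0 := h ⟨b, hb⟩ q hq
    rw [τ.mu_eq G₀ hb, bel, h0, zero_div]
  · simp only [Triv.mu, dif_neg hb, Pi.zero_apply]

theorem Triv.mu_bound {b₁ : B} (h : b₁ ∈ τ.U) :
    ∃ κ : ℝ, κ < 1 ∧ ∀ᶠ b in 𝓝 b₁, ∀ q, ‖τ.mu G₀ b q‖ ≤ κ := by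
  obtain ⟨K, hK, h0⟩ := τ.mu_supp G₀
  obtain ⟨-, κ, hκ0, hκ1, hb⟩ := S.bel_adm (G₀.trans (τ.M.G ⟨b₁, h⟩))
  refine ⟨(κ + 1) / 2, by linarith, ?_⟩
  have h1 : ∀ᶠ b in 𝓝 b₁, ∀ q ∈ K, ‖τ.mu G₀ b q‖ < (κ + 1) / 2 := by
    refine hK.eventually_forall_of_forall_eventually fun q _ => ?_
    have hc : ContinuousAt (fun p : B × S.Y => τ.mu G₀ p.1 p.2) (b₁, q) :=
      (τ.mu_cont G₀).continuousAt ((τ.isOpen.prod isOpen_univ).mem_nhds ⟨h, mem_univ _⟩)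
    refine hc.norm.eventually_lt continuousAt_const ?_
    have h2 := hb q
    rw [← τ.mu_eq G₀ h] at h2
    change ‖τ.mu G₀ b₁ q‖ < _
    linarith
  filter_upwards [h1] with b hb q
  by_cases hq : q ∈ K
  · exact (hb q hq).le
  · rw [h0 b q hq, norm_zero]
    linarith

theorem Triv.mu_hol {x : B} {φ : ℂ → E} {ζ₀ : ℂ} (hφ : AnalyticAt ℂ φ ζ₀)
    (hx : φ ζ₀ ∈ (chartAt E x).target) (hU : (chartAt E x).symm (φ ζ₀) ∈ τ.U) (q : S.Y) :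
    DifferentiableAt ℂ (fun ζ => τ.mu G₀ ((chartAt E x).symm (φ ζ)) q) ζ₀ := by
  let ψ : ℂ → B := fun ζ => (chartAt E x).symm (φ ζ)
  let W : Set ℂ := {ζ | AnalyticAt ℂ φ ζ ∧ φ ζ ∈ (chartAt E x).target}
  have hW : IsOpen W := isOpen_iff_mem_nhds.2 fun ζ hζ =>
    hζ.1.eventually_analyticAt.and
      (hζ.1.continuousAt.preimage_mem_nhds ((chartAt E x).open_target.mem_nhds hζ.2))
  have hψ : ContMDiffOn 𝓘(ℝ, ℂ) 𝓘(ℝ, E) 1 ψ W := by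
    have h1 : ContMDiffOn 𝓘(ℝ, ℂ) 𝓘(ℝ, E) 1 φ W := fun ζ hζ =>
      ((hζ.1.contDiffAt (n := 1)).restrict_scalars ℝ).contMDiffAt.contMDiffWithinAt
    exact (contMDiffOn_chart_symm (I := 𝓘(ℝ, E)) (n := 1) (x := x)).comp h1 fun ζ hζ => hζ.2
  have hψ' : ∀ ζ ∈ W, MDifferentiableAt 𝓘(ℂ, ℂ) 𝓘(ℂ, E) ψ ζ := fun ζ hζ =>
    (((contMDiffOn_chart_symm (I := 𝓘(ℂ, E)) (n := 1) (x := x)).contMDiffAt
      ((chartAt E x).open_target.mem_nhds hζ.2)).mdifferentiableAt one_ne_zero).comp ζ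
      hζ.1.differentiableAt.mdifferentiableAt
  let y : C.X := τ.F (ψ ζ₀) (G₀.φ q).1
  have ho := τ.F3a_open G₀ y
  let O : Set (ℂ × S.Y) := W ×ˢ univ ∩ (fun p => (ψ p.1, p.2)) ⁻¹' τ.F3a_O G₀ y
  have hP : ContMDiffOn (𝓘(ℝ, ℂ).prod 𝓘(ℝ, ℂ)) (𝓘(ℝ, E).prod 𝓘(ℝ, ℂ)) 1
      (fun p : ℂ × S.Y => (ψ p.1, p.2)) (W ×ˢ univ) :=
    (hψ.comp contMDiffOn_fst fun p hp => hp.1).prodMk contMDiffOn_snd
  have hO : IsOpen O := hP.continuousOn.isOpen_inter_preimage (hW.prod isOpen_univ) ho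
  have hm : (ζ₀, q) ∈ O := ⟨⟨⟨hφ, hx⟩, mem_univ _⟩, τ.F3a_mem G₀ (p := (ψ ζ₀, q)) hU⟩
  have hd := S.d_par_hol (g := fun p => τ.F3a_g G₀ y (ψ p.1, p.2)) hO
    ((τ.F3a_smooth G₀ y).comp (hP.mono inter_subset_left) fun p hp => hp.2)
    (fun p hp => by
      have h1 : IsOpen {b | b ∈ τ.U ∧ τ.F b (G₀.φ p.2).1 ∈ (C.chart y).source} :=
        ho.preimage (Continuous.prodMk_left p.2)
      have h2 := ((τ.hol y (G₀.φ p.2)).mdifferentiableAt (h1.mem_nhds hp.2)).comp p.1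
        (hψ' p.1 hp.1.1)
      exact mdifferentiableAt_iff_differentiableAt.1 h2) hm
  refine (hd.2.div hd.1 (τ.F3a_loc G₀ hm.2).1).congr_of_eventuallyEq ?_
  filter_upwards [(hO.preimage (Continuous.prodMk_left q)).mem_nhds hm] with ζ hζ
  exact (τ.F3a_loc G₀ hζ.2).2

theorem Triv.hval_hol (ξp ξm : S.H) {x : B} {φ : ℂ → E} {ζ₀ : ℂ} (hφ : AnalyticAt ℂ φ ζ₀)
    (hx : φ ζ₀ ∈ (chartAt E x).target) (hU : (chartAt E x).symm (φ ζ₀) ∈ τ.U) :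
    DifferentiableAt ℂ (fun ζ => S.Hval ξp ξm (τ.mu G₀ ((chartAt E x).symm (φ ζ)))) ζ₀ := by
  obtain ⟨κ, hκ, hb⟩ := τ.mu_bound G₀ hU
  have hc : ContinuousAt (fun ζ => (chartAt E x).symm (φ ζ)) ζ₀ :=
    ((chartAt E x).continuousAt_symm hx).comp hφ.continuousAt
  have h1 := ((hφ.eventually_analyticAt.and
    (hφ.continuousAt.preimage_mem_nhds ((chartAt E x).open_target.mem_nhds hx))).and
    (hc.preimage_mem_nhds (τ.isOpen.mem_nhds hU))).and (hc.eventually hb)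
  obtain ⟨ρ, hρ, h2⟩ := Metric.eventually_nhds_iff_ball.1 h1
  refine S.Hval_hol ξp ξm hρ hκ (fun ζ hζ => ?_) (fun ζ hζ => (h2 ζ hζ).2) fun q ζ hζ =>
    (τ.mu_hol G₀ (h2 ζ hζ).1.1.1 (h2 ζ hζ).1.1.2 (h2 ζ hζ).1.2 q).differentiableWithinAt
  rw [τ.mu_eq G₀ (h2 ζ hζ).1.2]
  exact (S.bel_adm _).1.aestronglyMeasurable

variable {V : Set B} {f : C.X → ℂ × B → ℂ}

end Family

end Pool.Agent.MP_e62289_ag
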