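import Pool.Agent.MP_e62289_ag.F2
import Pool.Agent.MP_e62289_ag.L5
import Pool.Agent.MP_e62289_ag.F3a

open Set Filter Topology Complex MeasureTheory Metric
open scoped Manifold ContDiff ComplexConjugate NNReal ENNReal

namespace Pool.Agent.MP_e62289_ag

namespace Family

variable {E : Type} [NormedAddCommGroup E] [NormedSpace ℂ E] {B : Type} [TopologicalSpace B]
  [ChartedSpace E B] {n : ℕ} {a : Fin n → ℕ} {C : Family E B a} {b₀ : B} {m : ℕ} {S : Flat m}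

section Aux

variable (τ : C.Triv b₀) (G₀ : Adm S.Y (C.Fib b₀))

/-- the fibre coordinate of the transported marking in the chart at `x` -/
noncomputable def F3b_g (x : C.X) (p : B × S.Y) : ℂ := (C.chart x (τ.F p.1 (G₀.φ p.2).1)).1

/-- the domain of the fibre coordinate -/
def F3b_O (x : C.X) : Set (B × S.Y) :=
  {p | p.1 ∈ τ.U ∧ τ.F p.1 (G₀.φ p.2).1 ∈ (C.chart x).source}

theorem F3b_proj {b : B} (hb : b ∈ τ.U) (q : C.Fib b₀) : C.proj (τ.F b q.1) = b := by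
  rw [← τ.eq ⟨b, hb⟩ q]
  exact ((τ.M.G ⟨b, hb⟩).φ q).2.1

theorem F3b_contF :
    ContinuousOn (fun p : B × S.Y => τ.F p.1 (G₀.φ p.2).1) (τ.U ×ˢ univ) :=
  τ.contF.comp (f := fun p : B × S.Y => (p.1, (G₀.φ p.2).1))
    (continuous_fst.prodMk
      (continuous_subtype_val.comp (G₀.φ.continuous.comp continuous_snd))).continuousOn
    fun p hp => ⟨hp.1, (G₀.φ p.2).2.1⟩

theorem F3b_open (x : C.X) : IsOpen (F3b_O τ G₀ x) := by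
  have h := (F3b_contF τ G₀).isOpen_inter_preimage (τ.isOpen.prod isOpen_univ)
    (C.chart x).open_source
  convert h using 1
  ext p
  simp [F3b_O]

theorem F3b_smooth (x : C.X) :
    ContMDiffOn (𝓘(ℝ, E).prod 𝓘(ℝ, ℂ)) 𝓘(ℝ, ℂ) 2 (F3b_g τ G₀ x) (F3b_O τ G₀ x) :=
  (τ.smooth x).comp (f := fun p : B × S.Y => (p.1, G₀.φ p.2))
    (contMDiff_fst.prodMk (G₀.φ.contMDiff.comp contMDiff_snd)).contMDiffOn fun _ hp => hp

theorem F3b_chart {x : C.X} {p : B × S.Y} (hp : p ∈ F3b_O τ G₀ x) :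
    (F3b_g τ G₀ x p, p.1) = C.chart x (τ.F p.1 (G₀.φ p.2).1) := by
  rw [← C.chart_eq hp.2, F3b_proj τ hp.1]
  rfl

theorem F3b_target {x : C.X} {p : B × S.Y} (hp : p ∈ F3b_O τ G₀ x) :
    (F3b_g τ G₀ x p, p.1) ∈ (C.chart x).target := by
  rw [F3b_chart τ G₀ hp]
  exact (C.chart x).map_source hp.2

theorem F3b_pb {V : Set B} {f : C.X → ℂ × B → ℂ} (hf : C.IsForm V f) {x : C.X} {p : B × S.Y}
    (hp : p ∈ F3b_O τ G₀ x) (hV : p.1 ∈ V) :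
    C.pb1 f (fun y => τ.F p.1 (G₀.φ y).1) p.2 =
      f x (F3b_g τ G₀ x p, p.1) * d1 (fun y => F3b_g τ G₀ x (p.1, y)) p.2 := by
  have e : ∀ y, ((G₀.trans (τ.M.G ⟨p.1, hp.1⟩)).φ y).1 = τ.F p.1 (G₀.φ y).1 := fun y =>
    τ.eq ⟨p.1, hp.1⟩ (G₀.φ y)
  have h := (hf.pb_eq hV (G₀.trans (τ.M.G ⟨p.1, hp.1⟩)) (q := p.2) (x := x)
    (by rw [e]; exact hp.2)).1
  simp only [e] at h
  rw [h, F3b_chart τ G₀ hp]
  rfl

end Aux

variable [FiniteDimensional ℂ E] [IsManifold 𝓘(ℂ, E) ω B] [IsManifold 𝓘(ℝ, E) ∞ B]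
  (τ : C.Triv b₀) (G₀ : Adm S.Y (C.Fib b₀))

variable {V : Set B} {f : C.X → ℂ × B → ℂ}

theorem Triv.pb_cont (hf : C.IsForm V f) (hV : IsOpen V) :
    ContinuousOn (fun p : B × S.Y => C.pb1 f (fun y => τ.F p.1 (G₀.φ y).1) p.2)
      ((τ.U ∩ V) ×ˢ univ) := by
  intro p₀ hp₀
  refine ContinuousAt.continuousWithinAt ?_
  set x := τ.F p₀.1 (G₀.φ p₀.2).1 with hx
  have hO := F3b_open τ G₀ x
  have hm : p₀ ∈ F3b_O τ G₀ x := ⟨hp₀.1.1, C.mem_source x⟩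
  have hs := F3b_smooth τ G₀ x
  have h1 := (S.continuousOn_d_par hO (hs.of_le (by norm_num))).1.continuousAt (hO.mem_nhds hm)
  have h2 : ContinuousAt (fun p : B × S.Y => (F3b_g τ G₀ x p, p.1)) p₀ :=
    (hs.continuousOn.continuousAt (hO.mem_nhds hm)).prodMk continuousAt_fst
  have h3 : ContinuousAt (f x) (F3b_g τ G₀ x p₀, p₀.1) :=
    (hf.1 x).continuousOn.continuousAt
      (((C.chart x).open_target.inter (isOpen_univ.prod hV)).mem_nhds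
        ⟨F3b_target τ G₀ hm, mem_univ _, hp₀.1.2⟩)
  refine ((ContinuousAt.comp (f := fun p : B × S.Y => (F3b_g τ G₀ x p, p.1)) h3 h2).mul h1).congr ?_
  filter_upwards [hO.mem_nhds hm, (hV.preimage continuous_fst).mem_nhds hp₀.1.2] with p hp hp'
  exact (F3b_pb τ G₀ hf hp hp').symm

theorem Triv.pb_hol (hf : C.IsForm V f) (hV : IsOpen V) {x : B} {φ : ℂ → E} {ζ₀ : ℂ}
    (hφ : AnalyticAt ℂ φ ζ₀) (hx : φ ζ₀ ∈ (chartAt E x).target)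
    (hU : (chartAt E x).symm (φ ζ₀) ∈ τ.U ∩ V) (q : S.Y) :
    DifferentiableAt ℂ
      (fun ζ => C.pb1 f (fun y => τ.F ((chartAt E x).symm (φ ζ)) (G₀.φ y).1) q) ζ₀ := by
  set ψ : ℂ → B := fun ζ => (chartAt E x).symm (φ ζ) with hψ
  set x' := τ.F (ψ ζ₀) (G₀.φ q).1 with hx'
  have hO := F3b_open τ G₀ x'
  have hm : (ψ ζ₀, q) ∈ F3b_O τ G₀ x' := ⟨hU.1, C.mem_source x'⟩
  have hs := F3b_smooth τ G₀ x'
  obtain ⟨W, hW, hWo, hW₀⟩ := _root_.mem_nhds_iff.1 (hφ.eventually_analyticAt.and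
    (hφ.continuousAt.eventually ((chartAt E x).open_target.mem_nhds hx)))
  have hψR : ContMDiffOn 𝓘(ℝ, ℂ) 𝓘(ℝ, E) 1 ψ W :=
    (contMDiffOn_chart_symm (I := 𝓘(ℝ, E)) (n := 1) (x := x)).comp
      (fun ζ hζ => (((hW hζ).1.contDiffAt (n := 1)).restrict_scalars ℝ).contMDiffAt.contMDiffWithinAt)
      fun ζ hζ => (hW hζ).2
  have hψC : ∀ ζ ∈ W, MDifferentiableAt 𝓘(ℂ, ℂ) 𝓘(ℂ, E) ψ ζ := fun ζ hζ =>
    ((mdifferentiable_chart (I := 𝓘(ℂ, E)) x).mdifferentiableAt_symm (hW hζ).2).comp ζ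
      (hW hζ).1.differentiableAt.mdifferentiableAt
  have hP : ContMDiffOn (𝓘(ℝ, ℂ).prod 𝓘(ℝ, ℂ)) (𝓘(ℝ, E).prod 𝓘(ℝ, ℂ)) 1
      (fun p : ℂ × S.Y => (ψ p.1, p.2)) (W ×ˢ univ) :=
    (hψR.comp contMDiff_fst.contMDiffOn fun _ hp => hp.1).prodMk contMDiff_snd.contMDiffOn
  set O' : Set (ℂ × S.Y) := W ×ˢ univ ∩ (fun p : ℂ × S.Y => (ψ p.1, p.2)) ⁻¹' F3b_O τ G₀ x'
    with hO'def
  have hO' : IsOpen O' := hP.continuousOn.isOpen_inter_preimage (hWo.prod isOpen_univ) hO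
  have hg : ContMDiffOn (𝓘(ℝ, ℂ).prod 𝓘(ℝ, ℂ)) 𝓘(ℝ, ℂ) 1
      (fun p : ℂ × S.Y => F3b_g τ G₀ x' (ψ p.1, p.2)) O' :=
    (hs.of_le (by norm_num)).comp (hP.mono inter_subset_left) fun _ hp => hp.2
  have hh : ∀ p ∈ O', MDifferentiableAt 𝓘(ℂ, ℂ) 𝓘(ℂ, ℂ)
      (fun t => F3b_g τ G₀ x' (ψ t, p.2)) p.1 := fun p hp => by
    have h1 := (τ.hol x' (G₀.φ p.2)).mdifferentiableAt (x := ψ p.1)
      ((hO.preimage (Continuous.prodMk_left p.2)).mem_nhds hp.2)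
    exact h1.comp p.1 (hψC _ hp.1.1)
  have hm' : (ζ₀, q) ∈ O' := ⟨⟨hW₀, mem_univ _⟩, hm⟩
  have h1 := (S.d_par_hol hO' hg (fun p hp => (hh p hp).differentiableAt) hm').1
  have h2 : MDifferentiableAt (𝓘(ℂ, ℂ).prod 𝓘(ℂ, E)) 𝓘(ℂ, ℂ) (f x')
      (F3b_g τ G₀ x' (ψ ζ₀, q), ψ ζ₀) :=
    (hf.1 x').mdifferentiableAt
      (((C.chart x').open_target.inter (isOpen_univ.prod hV)).mem_nhds
        ⟨F3b_target τ G₀ hm, mem_univ _, hU.2⟩)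
  have h3 : DifferentiableAt ℂ (fun t => f x' (F3b_g τ G₀ x' (ψ t, q), ψ t)) ζ₀ :=
    (h2.comp (f := fun t => (F3b_g τ G₀ x' (ψ t, q), ψ t)) ζ₀
      ((hh _ hm').prodMk (hψC _ hW₀))).differentiableAt
  refine (h3.mul h1).congr_of_eventuallyEq ?_
  filter_upwards [(hO'.preimage (Continuous.prodMk_left q)).mem_nhds hm',
    (hψC _ hW₀).continuousAt.eventually (hV.mem_nhds hU.2)] with ζ hζ hζ'
  exact F3b_pb τ G₀ hf (p := (ψ ζ, q)) hζ.2 hζ'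

end Family

end Pool.Agent.MP_e62289_ag
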