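import Pool.Agent.MP_e62289_ag.HDefs

open Set Filter Topology Complex MeasureTheory Metric
open scoped Manifold ContDiff ComplexConjugate NNReal ENNReal

namespace Pool.Agent.MP_e62289_ag

namespace HData

variable {H : Type} [NormedAddCommGroup H] [InnerProductSpace ℂ H] (D : HData H)

theorem β_symm (A B : H) : D.β A B = D.β B A := by
  unfold β
  rw [← D.inner_c B (D.c A), D.c_c]

theorem norm_c (A : H) : ‖D.c A‖ = ‖A‖ := by
  rw [@norm_eq_sqrt_re_inner ℂ, @norm_eq_sqrt_re_inner ℂ, D.inner_c]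

theorem norm_β_le (A B : H) : ‖D.β A B‖ ≤ ‖A‖ * ‖B‖ := by
  rw [← D.norm_c A]
  exact norm_inner_le_norm _ _

theorem c_mem_W {A : H} (h : A ∈ D.Wb) : D.c A ∈ D.W := by
  intro e he
  have h1 := h _ (D.stab e he)
  unfold β at h1 ⊢
  rw [D.inner_c] at h1
  rw [D.c_c, inner_eq_zero_symm]
  exact h1

theorem norm_T_le : ‖D.T‖ ≤ 1 := by
  unfold T
  split_ifs with h
  · exact h.choose_spec.1
  · simp

theorem H1a_norm {e : H × H} (he : e ∈ D.Eb) : ‖e.1‖ = ‖e.2‖ := by
  have hc : IsClosed {e : H × H | ‖e.1‖ = ‖e.2‖} :=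
    isClosed_eq (by fun_prop) (by fun_prop)
  refine closure_minimal (fun e he => ?_) hc he
  have h1 := D.iso e he _ (D.stab e he)
  simp only [D.inner_c] at h1
  show ‖e.1‖ = ‖e.2‖
  rw [@norm_eq_sqrt_re_inner ℂ, @norm_eq_sqrt_re_inner ℂ, h1]

theorem H1a_Wb (η : H) : η ∈ D.Wb ↔ ∀ e ∈ D.Eb, inner ℂ e.2 η = 0 := by
  constructor
  · intro h e he
    have hc : IsClosed {e : H × H | inner ℂ e.2 η = (0 : ℂ)} :=
      isClosed_eq (by fun_prop) (by fun_prop)
    refine closure_minimal (fun e he => ?_) hc he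
    have h1 := h _ (D.stab e he)
    unfold β at h1
    rw [D.inner_c] at h1
    exact h1
  · intro h e he
    have h1 := h _ (subset_closure (D.stab e he))
    unfold β
    rw [← D.c_c e.1, D.inner_c]
    exact h1

/-- the second projection is isometric on the closure of the exact forms -/
noncomputable def H1aS : D.E.topologicalClosure →ₗᵢ[ℂ] H where
  toLinearMap := (LinearMap.snd ℂ H H).comp D.E.topologicalClosure.subtype
  norm_map' e := by
    have h1 : ‖e.1.1‖ = ‖e.1.2‖ := D.H1a_norm e.2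
    show ‖e.1.2‖ = ‖e.1‖
    rw [Prod.norm_def, h1, max_self]

variable [CompleteSpace H]

theorem H1a_ex : ∃ T, D.IsT T := by
  let K : Submodule ℂ H := LinearMap.range D.H1aS.toLinearMap
  have : CompleteSpace D.E.topologicalClosure :=
    D.E.isClosed_topologicalClosure.completeSpace_coe
  have : CompleteSpace K := D.H1aS.isometry.isClosedEmbedding.isClosed_range.completeSpace_coe
  let q : D.E.topologicalClosure ≃ₗᵢ[ℂ] K := D.H1aS.equivRange
  have hq : ∀ e, (q e : H) = e.1.2 := fun e => rfl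
  have hq' : ∀ k : K, (q.symm k).1.2 = k := fun k => by rw [← hq, q.apply_symm_apply]
  let T : H →L[ℂ] H := (ContinuousLinearMap.fst ℂ H H).comp (D.E.topologicalClosure.subtypeL.comp
    ((q.symm.toContinuousLinearEquiv : K →L[ℂ] D.E.topologicalClosure).comp
      K.orthogonalProjectionOnto))
  have hT : ∀ B, T B = (q.symm (K.orthogonalProjectionOnto B)).1.1 := fun B => rfl
  have hW : ∀ η, η ∈ D.Wb ↔ η ∈ Kᗮ := by
    intro η
    rw [D.H1a_Wb, Submodule.mem_orthogonal]
    constructor
    · rintro h u ⟨e, rfl⟩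
      exact h e.1 e.2
    · intro h e he
      exact h e.2 ⟨⟨e, he⟩, rfl⟩
  refine ⟨T, T.opNorm_le_bound zero_le_one fun B => ?_, fun A B => ⟨?_, ?_⟩⟩
  · rw [hT, D.H1a_norm (q.symm (K.orthogonalProjectionOnto B)).2, hq', one_mul]
    exact K.norm_starProjection_apply_le B
  · rintro ⟨η, hη, he⟩
    have h1 : K.starProjection B = B - η :=
      Submodule.eq_starProjection_of_mem_orthogonal ⟨⟨_, he⟩, rfl⟩ (by
        rw [sub_sub_cancel]; exact (hW η).1 hη)
    have h2 : K.orthogonalProjectionOnto B = q ⟨_, he⟩ := Subtype.ext h1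
    rw [hT, h2, q.symm_apply_apply]
  · rintro rfl
    refine ⟨B - K.starProjection B, (hW _).2 (K.sub_starProjection_mem_orthogonal B), ?_⟩
    have h1 : (T B, B - (B - K.starProjection B)) = (q.symm (K.orthogonalProjectionOnto B)).1 := by
      refine Prod.ext (hT B) ?_
      rw [hq', sub_sub_cancel]
      rfl
    rw [h1]
    exact (q.symm (K.orthogonalProjectionOnto B)).2

theorem isT : D.IsT D.T := by
  have h := D.H1a_ex
  unfold T
  rw [dif_pos h]
  exact h.choose_spec

end HData

end Pool.Agent.MP_e62289_ag
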