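import Pool.Agent.MP_e62289_ag.HDefs
import Pool.Agent.MP_e62289_ag.H1a

open Set Filter Topology Complex MeasureTheory Metric
open scoped Manifold ContDiff ComplexConjugate NNReal ENNReal

namespace Pool.Agent.MP_e62289_ag

namespace HData

variable {H : Type} [NormedAddCommGroup H] [InnerProductSpace ℂ H] (D : HData H)

theorem H1b_c_zero : D.c 0 = 0 := by
  have h := D.c_add 0 0
  rw [add_zero] at h
  exact left_eq_add.mp h

theorem H1b_c_sub (x y : H) : D.c (x - y) = D.c x - D.c y := by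
  have h := D.c_add (x - y) y
  rw [sub_add_cancel] at h
  rw [h]; abel

theorem H1b_cont_c : Continuous D.c := by
  have : Isometry D.c := by
    refine Isometry.of_dist_eq fun x y => ?_
    rw [dist_eq_norm, dist_eq_norm, ← H1b_c_sub, norm_c]
  exact this.continuous

theorem H1b_Eb_eq : D.Eb = (D.E.topologicalClosure : Set (H × H)) := rfl

theorem H1b_add {e e' : H × H} (h : e ∈ D.Eb) (h' : e' ∈ D.Eb) : e + e' ∈ D.Eb :=
  D.E.topologicalClosure.add_mem h h'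

theorem H1b_sub {e e' : H × H} (h : e ∈ D.Eb) (h' : e' ∈ D.Eb) : e - e' ∈ D.Eb :=
  D.E.topologicalClosure.sub_mem h h'

theorem H1b_stab {e : H × H} (h : e ∈ D.Eb) : (D.c e.2, D.c e.1) ∈ D.Eb := by
  have hc : Continuous fun e : H × H => (D.c e.2, D.c e.1) :=
    (D.H1b_cont_c.comp continuous_snd).prodMk (D.H1b_cont_c.comp continuous_fst)
  exact map_mem_closure (f := fun e : H × H => (D.c e.2, D.c e.1)) hc h fun x hx => D.stab x hx

theorem H1b_β_add (A B C : H) : D.β A (B + C) = D.β A B + D.β A C := inner_add_right _ _ _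

theorem H1b_W {A : H} (hA : A ∈ D.W) {e : H × H} (h : e ∈ D.Eb) : D.β A e.2 = 0 := by
  have hc : IsClosed {e : H × H | D.β A e.2 = 0} :=
    isClosed_eq (continuous_const.inner continuous_snd) continuous_const
  exact closure_minimal (fun x hx => hA x hx) hc h

theorem H1b_Wb {A : H} (hA : A ∈ D.Wb) {e : H × H} (h : e ∈ D.Eb) : D.β A e.1 = 0 := by
  have hc : IsClosed {e : H × H | D.β A e.1 = 0} :=
    isClosed_eq (continuous_const.inner continuous_fst) continuous_const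
  exact closure_minimal (fun x hx => hA x hx) hc h

theorem H1b_norm_eq {e : H × H} (h : e ∈ D.Eb) : ‖e.1‖ = ‖e.2‖ := by
  have hc : IsClosed {e : H × H | ‖e.1‖ = ‖e.2‖} :=
    isClosed_eq continuous_fst.norm continuous_snd.norm
  refine closure_minimal (fun x hx => ?_) hc h
  have h1 := D.iso x hx _ (D.stab x hx)
  simp only [inner_self_eq_norm_sq_to_K, norm_c] at h1
  have h2 : ‖x.1‖ ^ 2 = ‖x.2‖ ^ 2 := by exact_mod_cast h1
  exact (pow_left_inj₀ (norm_nonneg _) (norm_nonneg _) two_ne_zero).mp h2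

theorem H1b_orthW {A : H} (hA : A ∈ D.W) {e : H × H} (h : e ∈ D.Eb) : inner ℂ e.1 A = 0 := by
  have h1 := D.H1b_W hA (D.H1b_stab h)
  simpa only [β, D.inner_c] using h1

theorem H1b_orthWb {A : H} (hA : A ∈ D.Wb) {e : H × H} (h : e ∈ D.Eb) : inner ℂ e.2 A = 0 := by
  have h1 := D.H1b_Wb hA (D.H1b_stab h)
  simpa only [β, D.inner_c] using h1

variable [CompleteSpace H]

theorem H1b_unit {m : H →L[ℂ] H} (h : ‖m‖ < 1) : IsUnit (1 - D.T * m) := by
  have h1 : ‖D.T * m‖ < 1 := by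
    refine lt_of_le_of_lt (norm_mul_le _ _) ?_
    exact lt_of_le_of_lt (mul_le_of_le_one_left (norm_nonneg _) D.norm_T_le) h
  exact (Units.oneSub _ h1).isUnit

theorem H1b_eq {m : H →L[ℂ] H} (h : ‖m‖ < 1) (ξ : H) :
    Ring.inverse (1 - D.T * m) ξ - ξ = D.T (m (Ring.inverse (1 - D.T * m) ξ)) := by
  have h1 := Ring.mul_inverse_cancel _ (D.H1b_unit h)
  have h2 := congrArg (fun L : H →L[ℂ] H => L ξ) h1
  simp only [mul_apply_eq_comp, sub_apply, one_apply_eq_self] at h2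
  rw [sub_eq_iff_eq_add, ← sub_eq_iff_eq_add', h2]

theorem H1b_uniq {m : H →L[ℂ] H} (h : ‖m‖ < 1) {ξ a : H} (ha : a - ξ = D.T (m a)) :
    Ring.inverse (1 - D.T * m) ξ = a := by
  have h1 := Ring.inverse_mul_cancel _ (D.H1b_unit h)
  have h2 := congrArg (fun L : H →L[ℂ] H => L a) h1
  simp only [mul_apply_eq_comp, sub_apply, one_apply_eq_self] at h2
  rw [← ha, sub_sub_cancel] at h2
  exact h2

theorem hv_bound {ξp ξm : H} (hp : ξp ∈ D.W) (hm : ξm ∈ D.W) {m : H →L[ℂ] H} (h : ‖m‖ < 1) :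
    ‖D.hv ξp ξm m‖ ≤ ‖ξp‖ * ‖ξm‖ := by
  set a := Ring.inverse (1 - D.T * m) ξp with ha
  obtain ⟨η, hη, he⟩ := (D.isT.2 (a - ξp) (m a)).mpr (D.H1b_eq h ξp)
  have o1 : inner ℂ (a - ξp) ξp = 0 := D.H1b_orthW hp he
  have o2 : inner ℂ (m a - η) η = 0 := D.H1b_orthWb hη he
  have n0 : ‖a - ξp‖ = ‖m a - η‖ := D.H1b_norm_eq he
  have n1 := norm_add_sq_eq_norm_sq_add_norm_sq_of_inner_eq_zero _ _ o1
  have n2 := norm_add_sq_eq_norm_sq_add_norm_sq_of_inner_eq_zero _ _ o2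
  rw [sub_add_cancel] at n1 n2
  have n3 : ‖m a‖ ≤ ‖a‖ :=
    (m.le_opNorm a).trans (mul_le_of_le_one_left (norm_nonneg _) h.le)
  have n4 : ‖m a‖ * ‖m a‖ ≤ ‖a‖ * ‖a‖ := mul_self_le_mul_self (norm_nonneg _) n3
  have n5 : ‖η‖ ≤ ‖ξp‖ := by
    rw [n0] at n1
    exact (mul_self_le_mul_self_iff (norm_nonneg _) (norm_nonneg _)).mpr (by linarith)
  have hb : D.hv ξp ξm m = D.β ξm η := by
    have h0 : D.β ξm (m a - η) = 0 := D.H1b_W hm he
    have h1 := D.H1b_β_add ξm (m a - η) η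
    rw [sub_add_cancel, h0, zero_add] at h1
    exact h1
  rw [hb, mul_comm]
  exact (D.norm_β_le _ _).trans (mul_le_mul_of_nonneg_left n5 (norm_nonneg _))

/-- invariance under operators that act trivially on cohomology -/
theorem hv_inv {ξp ξm : H} (hp : ξp ∈ D.W) (hm : ξm ∈ D.W) (U : H × H →L[ℂ] H × H)
    (hE : ∀ e ∈ D.E, U e ∈ D.Eb) (hW : ∀ ξ ∈ D.W, U (ξ, 0) - (ξ, 0) ∈ D.Eb)
    (hc : ∀ A B, U (D.c B, D.c A) = (D.c (U (A, B)).2, D.c (U (A, B)).1))
    {m m' : H →L[ℂ] H} (h : ‖m‖ < 1) (h' : ‖m'‖ < 1)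
    (hmm : ∀ A, (U (A, m A)).2 = m' (U (A, m A)).1) : D.hv ξp ξm m' = D.hv ξp ξm m := by
  set a := Ring.inverse (1 - D.T * m) ξp with ha
  obtain ⟨η, hη, he⟩ := (D.isT.2 (a - ξp) (m a)).mpr (D.H1b_eq h ξp)
  have hUE : ∀ e ∈ D.Eb, U e ∈ D.Eb := fun e he =>
    closure_minimal (s := (D.E : Set (H × H))) (t := U ⁻¹' D.Eb) (fun x hx => hE x hx)
      (isClosed_closure.preimage U.continuous) he
  have hη' : U (0, η) - (0, η) ∈ D.Eb := by
    have h1 := D.H1b_stab (hW _ (D.c_mem_W hη))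
    have h2 := hc (D.c η) 0
    rw [H1b_c_zero, D.c_c] at h2
    rw [h2]
    simpa only [Prod.fst_sub, Prod.snd_sub, sub_zero, H1b_c_sub, D.c_c, Prod.mk_sub_mk,
      H1b_c_zero] using h1
  have hdec : ((a, m a) : H × H) = (a - ξp, m a - η) + (ξp, 0) + (0, η) := by
    ext <;> simp
  have hU : U (a, m a) - (a, m a) ∈ D.Eb := by
    have h1 := D.H1b_add (D.H1b_add (D.H1b_sub (hUE _ he) he) (hW _ hp)) hη'
    have h2 : U (a, m a) - (a, m a) = U (a - ξp, m a - η) - (a - ξp, m a - η)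
        + (U (ξp, 0) - (ξp, 0)) + (U (0, η) - (0, η)) := by
      conv_lhs => rw [hdec]
      rw [map_add, map_add]; abel
    rw [h2]; exact h1
  set a' := (U (a, m a)).1 with ha'
  have hU2 : U (a, m a) = (a', m' a') := Prod.ext rfl (hmm a)
  rw [hU2] at hU
  have he' : ((a' - ξp, m' a' - η) : H × H) ∈ D.Eb := by
    have h1 := D.H1b_add hU he
    have h2 : ((a' - ξp, m' a' - η) : H × H) = (a', m' a') - (a, m a) + (a - ξp, m a - η) := by
      ext <;> simp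
    rw [h2]; exact h1
  have hT : a' - ξp = D.T (m' a') := (D.isT.2 _ _).mp ⟨η, hη, he'⟩
  have h0 : D.β ξm (m' a' - m a) = 0 := D.H1b_W hm hU
  have h1 := D.H1b_β_add ξm (m' a' - m a) (m a)
  rw [sub_add_cancel, h0, zero_add] at h1
  unfold hv
  rw [D.H1b_uniq h' hT, h1]

end HData

end Pool.Agent.MP_e62289_ag
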