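import Pool.Agent.MP_e62289_ag.HDefs
import Pool.Agent.MP_e62289_ag.H1a

open Set Filter Topology Complex MeasureTheory Metric
open scoped Manifold ContDiff ComplexConjugate NNReal ENNReal

namespace Pool.Agent.MP_e62289_ag

namespace HData

variable {H : Type} [NormedAddCommGroup H] [InnerProductSpace ℂ H] (D : HData H)

theorem H1c_norm_T (A : H) : ‖D.T A‖ ≤ ‖A‖ :=
  (D.T.le_opNorm A).trans (by
    have := mul_le_mul_of_nonneg_right D.norm_T_le (norm_nonneg A)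
    rwa [one_mul] at this)

theorem H1c_step (m : H →L[ℂ] H) (A : H) : ‖m (D.T A)‖ ≤ ‖m‖ * ‖A‖ :=
  (m.le_opNorm _).trans (mul_le_mul_of_nonneg_left (D.H1c_norm_T A) (norm_nonneg m))

theorem H1c_β_add (ξ A B : H) : D.β ξ (A + B) = D.β ξ A + D.β ξ B := inner_add_right _ _ _

variable [CompleteSpace H]

theorem H1c_unit {m : H →L[ℂ] H} (h : ‖m‖ < 1) : IsUnit (1 - D.T * m) := by
  refine isUnit_one_sub_of_norm_lt_one ((norm_mul_le _ _).trans_lt ?_)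
  have := mul_le_mul_of_nonneg_right D.norm_T_le (norm_nonneg m)
  linarith

theorem H1c_fix (ξp : H) {m : H →L[ℂ] H} (h : ‖m‖ ≤ 1 / 2) :
    ∃ a : H, a = Ring.inverse (1 - D.T * m) ξp ∧ a = ξp + D.T (m a) ∧ ‖a‖ ≤ 2 * ‖ξp‖ := by
  have hu := D.H1c_unit (m := m) (by linarith)
  have h1 : (1 - D.T * m) (Ring.inverse (1 - D.T * m) ξp) = ξp := by
    rw [← mul_apply_eq_comp, Ring.mul_inverse_cancel _ hu, one_apply_eq_self]
  generalize Ring.inverse (1 - D.T * m) ξp = a at h1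
  have h2 : a = ξp + D.T (m a) := by
    rw [← h1]
    simp
  refine ⟨a, rfl, h2, ?_⟩
  have h3 : ‖a‖ ≤ ‖ξp‖ + ‖D.T (m a)‖ := by
    conv_lhs => rw [h2]
    exact norm_add_le _ _
  have h4 := D.H1c_norm_T (m a)
  have h5 := m.le_opNorm a
  have h6 := mul_le_mul_of_nonneg_right h (norm_nonneg a)
  linarith

theorem hv_diff (ξp ξm : H) : DifferentiableOn ℂ (D.hv ξp ξm) (ball 0 1) := by
  intro m hm
  have hu := D.H1c_unit (mem_ball_zero_iff.1 hm)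
  refine DifferentiableAt.differentiableWithinAt ?_
  have h1 : DifferentiableAt ℂ (fun m : H →L[ℂ] H => 1 - D.T * m) m := by fun_prop
  have h2 : DifferentiableAt ℂ (fun m : H →L[ℂ] H => Ring.inverse (1 - D.T * m)) m :=
    DifferentiableAt.comp (g := Ring.inverse) (f := fun m : H →L[ℂ] H => 1 - D.T * m) m
      (differentiableAt_inverse hu) h1
  have h3 : DifferentiableAt ℂ (fun m : H →L[ℂ] H => Ring.inverse (1 - D.T * m) ξp) m :=
    h2.clm_apply (differentiableAt_const ξp)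
  have h4 : DifferentiableAt ℂ (fun m : H →L[ℂ] H => m (Ring.inverse (1 - D.T * m) ξp)) m :=
    differentiableAt_fun_id.clm_apply h3
  exact ((innerSL ℂ (D.c ξm)).differentiableAt).comp m h4

theorem hv_lin (ξp ξm : H) {m : H →L[ℂ] H} (h : ‖m‖ ≤ 1 / 2) :
    ‖D.hv ξp ξm m - D.β ξm (m ξp)‖ ≤ 2 * ‖m‖ ^ 2 * (‖ξp‖ * ‖ξm‖) := by
  obtain ⟨a, ha, h1, h2⟩ := D.H1c_fix ξp h
  have e : D.hv ξp ξm m - D.β ξm (m ξp) = D.β ξm (m (D.T (m a))) := by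
    rw [hv, ← ha]
    conv_lhs => rw [h1, map_add, D.H1c_β_add]
    ring
  rw [e]
  refine (D.norm_β_le _ _).trans ?_
  have h3 : ‖m (D.T (m a))‖ ≤ ‖m‖ * (‖m‖ * (2 * ‖ξp‖)) :=
    (D.H1c_step m _).trans (mul_le_mul_of_nonneg_left ((m.le_opNorm a).trans
      (mul_le_mul_of_nonneg_left h2 (norm_nonneg m))) (norm_nonneg m))
  calc _ ≤ ‖ξm‖ * (‖m‖ * (‖m‖ * (2 * ‖ξp‖))) := mul_le_mul_of_nonneg_left h3 (norm_nonneg _)
    _ = _ := by ring

theorem hv_quad (ξp ξm : H) {m : H →L[ℂ] H} (h : ‖m‖ ≤ 1 / 2) :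
    ‖D.hv ξp ξm m - D.β ξm (m ξp) - D.β ξm (m (D.T (m ξp)))‖ ≤ 2 * ‖m‖ ^ 3 * (‖ξp‖ * ‖ξm‖) := by
  obtain ⟨a, ha, h1, h2⟩ := D.H1c_fix ξp h
  have h1' : a = ξp + (D.T (m ξp) + D.T (m (D.T (m a)))) := by
    rw [← map_add, ← map_add, ← h1]
    exact h1
  have e : D.hv ξp ξm m - D.β ξm (m ξp) - D.β ξm (m (D.T (m ξp)))
      = D.β ξm (m (D.T (m (D.T (m a))))) := by
    rw [hv, ← ha]
    conv_lhs => rw [h1', map_add, map_add, D.H1c_β_add, D.H1c_β_add]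
    ring
  rw [e]
  refine (D.norm_β_le _ _).trans ?_
  have h3 : ‖m (D.T (m a))‖ ≤ ‖m‖ * (‖m‖ * (2 * ‖ξp‖)) :=
    (D.H1c_step m _).trans (mul_le_mul_of_nonneg_left ((m.le_opNorm a).trans
      (mul_le_mul_of_nonneg_left h2 (norm_nonneg m))) (norm_nonneg m))
  have h4 : ‖m (D.T (m (D.T (m a))))‖ ≤ ‖m‖ * (‖m‖ * (‖m‖ * (2 * ‖ξp‖))) :=
    (D.H1c_step m _).trans (mul_le_mul_of_nonneg_left h3 (norm_nonneg m))
  calc _ ≤ ‖ξm‖ * (‖m‖ * (‖m‖ * (‖m‖ * (2 * ‖ξp‖)))) :=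
      mul_le_mul_of_nonneg_left h4 (norm_nonneg _)
    _ = _ := by ring

end HData

end Pool.Agent.MP_e62289_ag
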