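import Pool.Agent.MP_e62289_ag.L2

open Set Filter Topology Complex MeasureTheory Metric
open scoped Manifold ContDiff ComplexConjugate NNReal ENNReal

namespace Pool.Agent.MP_e62289_ag

section General

variable {Y : Type} [TopologicalSpace Y] [ChartedSpace ℂ Y] {u v : Y → ℂ} {q : Y}

theorem L4_supp (hc : HasCompactSupport u) :
    HasCompactSupport (d1 u) ∧ HasCompactSupport (d2 u) := by
  have key : ∀ x, x ∉ tsupport u → d1 u x = 0 ∧ d2 u x = 0 := by
    intro x hx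
    have h : u =ᶠ[𝓝 x] fun _ => (0 : ℂ) := notMem_tsupport_iff_eventuallyEq.1 hx
    rw [(d_congr h).1, (d_congr h).2]
    exact d_const 0 x
  constructor
  · exact hc.mono' fun x hx => by_contra fun h => hx (key x h).1
  · exact hc.mono' fun x hx => by_contra fun h => hx (key x h).2

theorem L4_ck_mul {k : ℕ∞ω} (hu : Ck k u) (hv : Ck k v) : Ck k fun x => u x * v x :=
  (contDiff_fst.mul contDiff_snd : ContDiff ℝ k fun p : ℂ × ℂ => p.1 * p.2).comp_contMDiff
    (hu.prodMk_space hv)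

theorem L4_ck_add {k : ℕ∞ω} (hu : Ck k u) (hv : Ck k v) : Ck k fun x => u x + v x :=
  (contDiff_fst.add contDiff_snd : ContDiff ℝ k fun p : ℂ × ℂ => p.1 + p.2).comp_contMDiff
    (hu.prodMk_space hv)

theorem L4_ck_conj {k : ℕ∞ω} (hu : Ck k u) : Ck k fun x => conj (u x) :=
  (conjCLE.contDiff : ContDiff ℝ k conjCLE).comp_contMDiff hu

theorem L4_rd {k : ℕ∞ω} (hu : Ck k u) (hk : k ≠ 0) (q : Y) : RDiffAt u q :=
  hu.mdifferentiableAt hk

end General

namespace Flat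

variable {n : ℕ} (S : Flat n)

theorem L4_f_ck (k : ℕ∞ω) : Ck k S.f := fun _ =>
  ckAt_of_hol (Eventually.of_forall S.f_hol) k

theorem L4_df_hol (q : S.Y) : ∀ᶠ x in 𝓝 q, HolAt (d1 S.f) x :=
  S.holAt_d1 (Eventually.of_forall S.f_hol)

theorem L4_df_ck (k : ℕ∞ω) : Ck k (d1 S.f) := fun q => ckAt_of_hol (S.L4_df_hol q) k

theorem L4_d2_f (q : S.Y) : d2 S.f q = 0 := (d2_of_hol (S.f_hol q)).2

theorem L4_d2_df (q : S.Y) : d2 (d1 S.f) q = 0 := (d2_of_hol (S.L4_df_hol q).self_of_nhds).2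

theorem L4_ck_d {κ : S.Y → ℂ} (h : Ck 2 κ) : Ck 1 (d1 κ) ∧ Ck 1 (d2 κ) := by
  have h' : ∀ q, CkAt (1 + 1 : ℕ) κ q := fun q => by exact_mod_cast h q
  constructor
  · intro q
    exact_mod_cast (S.ckAt_d (h' q)).1
  · intro q
    exact_mod_cast (S.ckAt_d (h' q)).2

theorem L4_cont_d {g : S.Y → ℂ} (h : Ck 1 g) : Continuous (d1 g) ∧ Continuous (d2 g) :=
  ⟨continuous_iff_continuousAt.2 fun q => (S.continuousAt_d (h q)).1,
    continuous_iff_continuousAt.2 fun q => (S.continuousAt_d (h q)).2⟩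

theorem L4_cont_D1 {κ : S.Y → ℂ} (h : Ck 2 κ) : Continuous (S.D1 κ) := by
  have h1 := (S.L4_ck_d h).1.continuous
  have h2 := h.continuous
  have h3 := (S.L4_df_ck 0).continuous
  have h4 := (S.L4_f_ck 0).continuous
  exact h1.add ((h2.mul h3).div (continuous_const.mul h4) fun q =>
    mul_ne_zero two_ne_zero (S.f_ne q))

theorem L4_supp_D1 {κ : S.Y → ℂ} (hc : HasCompactSupport κ) : HasCompactSupport (S.D1 κ) := by
  have h1 := (L4_supp hc).1
  have h2 : HasCompactSupport fun q => κ q * (d1 S.f q / (2 * S.f q)) := hc.mul_right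
  have e : S.D1 κ = d1 κ + fun q => κ q * (d1 S.f q / (2 * S.f q)) := by
    funext q
    simp only [D1, Pi.add_apply, mul_div_assoc]
  rw [e]
  exact h1.add h2

/-- the unimodular factor -/
noncomputable def L4u (q : S.Y) : ℂ := (‖S.f q‖ : ℂ) / S.f q

theorem L4u_ck (k : ℕ∞ω) : Ck k S.L4u := by
  intro q
  have h1 : ContDiffAt ℝ k (fun z : ℂ => (‖z‖ : ℂ) / z) (S.f q) := by
    have h2 : ContDiffAt ℝ k (fun z : ℂ => ‖z‖) (S.f q) := contDiffAt_norm ℝ (S.f_ne q)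
    have h3 : ContDiffAt ℝ k (fun z : ℂ => ((‖z‖ : ℝ) : ℂ)) (S.f q) :=
      (ofRealCLM.contDiff.contDiffAt).comp _ h2
    have h4 : ContDiffAt ℝ k (fun z : ℂ => z⁻¹) (S.f q) := contDiffAt_inv ℝ (S.f_ne q)
    simpa only [div_eq_mul_inv] using h3.mul h4
  exact h1.comp_contMDiffAt (S.L4_f_ck k q)

theorem L4u_norm (q : S.Y) : ‖S.L4u q‖ = 1 := by
  rw [L4u, norm_div, norm_real, norm_norm, div_self (norm_ne_zero_iff.2 (S.f_ne q))]

theorem L4u_ne (q : S.Y) : S.L4u q ≠ 0 := norm_ne_zero_iff.1 (by rw [S.L4u_norm]; simp)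

theorem L4u_sq (q : S.Y) : S.L4u q * S.L4u q * S.f q = conj (S.f q) := by
  have h := S.f_ne q
  have h2 : (‖S.f q‖ : ℂ) ^ 2 = conj (S.f q) * S.f q := (conj_mul' _).symm
  rw [L4u]
  field_simp
  rw [h2]
  ring

theorem L4u_conj (q : S.Y) : S.L4u q * conj (S.L4u q) = 1 := by
  rw [mul_conj', S.L4u_norm]
  simp

theorem L4u_f (q : S.Y) : (‖S.f q‖ : ℂ) * conj (S.L4u q) = S.f q := by
  have h := S.f_ne q
  have h1 : (‖S.f q‖ : ℂ) = S.L4u q * S.f q := by
    rw [L4u]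
    field_simp
  rw [h1]
  linear_combination S.f q * S.L4u_conj q

theorem L4u_d (q : S.Y) : d1 S.L4u q = -(S.L4u q * d1 S.f q / (2 * S.f q)) ∧
    d2 S.L4u q = S.L4u q * conj (d1 S.f q / (2 * S.f q)) := by
  have hu := L4_rd (S.L4u_ck 1) one_ne_zero q
  have hf := L4_rd (S.L4_f_ck 1) one_ne_zero q
  have e : (fun x => S.L4u x * S.L4u x * S.f x) = fun x => conj (S.f x) := funext S.L4u_sq
  have h1 := d_mul (hu.mul hu) hf
  rw [e, (d_conj _ _).1, (d_conj _ _).2, (d_mul hu hu).1, (d_mul hu hu).2, S.L4_d2_f] at h1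
  have h := S.f_ne q
  have h' := S.L4u_ne q
  have hs := S.L4u_sq q
  obtain ⟨h2, h3⟩ := h1
  rw [map_zero] at h2
  constructor
  · field_simp
    refine mul_left_cancel₀ h' ?_
    linear_combination -h2
  · rw [map_div₀, map_mul, ← hs, h3, map_ofNat]
    field_simp
    ring

theorem L4_stab {κ : S.Y → ℂ} (h : Ck 2 κ) (q : S.Y) :
    S.D1 (fun x => S.L4u x * conj (κ x)) q = S.L4u q * conj (d2 κ q) ∧
    d2 (fun x => S.L4u x * conj (κ x)) q = S.L4u q * conj (S.D1 κ q) := by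
  have hu := L4_rd (S.L4u_ck 1) one_ne_zero q
  have hk := L4_rd h two_ne_zero q
  have h1 := d_mul hu hk.conj
  rw [(d_conj _ _).1, (d_conj _ _).2, (S.L4u_d q).1, (S.L4u_d q).2] at h1
  constructor
  · rw [D1, h1.1]
    ring
  · rw [h1.2, D1, mul_div_assoc (κ q), map_add, map_mul]
    ring

theorem L4_int_d {g : S.Y → ℂ} (hg : Ck 1 g) (hc : HasCompactSupport g) :
    Integrable (d1 g) S.lam ∧ Integrable (d2 g) S.lam :=
  ⟨(S.L4_cont_d hg).1.integrable_of_hasCompactSupport (L4_supp hc).1,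
    (S.L4_cont_d hg).2.integrable_of_hasCompactSupport (L4_supp hc).2⟩

theorem L4_iso {κ κ' : S.Y → ℂ} (h : Ck 2 κ) (h' : Ck 2 κ') (hc' : HasCompactSupport κ') :
    ∫ q, S.f q * S.D1 κ q * d2 κ' q ∂S.lam = ∫ q, S.f q * d2 κ q * S.D1 κ' q ∂S.lam := by
  have h1 : Ck 1 κ := h.of_le (by norm_num)
  have h1' : Ck 1 κ' := h'.of_le (by norm_num)
  have hf := S.L4_f_ck 1
  have hd := S.L4_ck_d h
  have hd' := S.L4_ck_d h'
  have ha : Ck 1 fun q => S.f q * κ q * d2 κ' q := L4_ck_mul (L4_ck_mul hf h1) hd'.2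
  have hb : Ck 1 fun q => S.f q * κ q * d1 κ' q := L4_ck_mul (L4_ck_mul hf h1) hd'.1
  have he : Ck 1 fun q => d1 S.f q * κ q * κ' q := L4_ck_mul (L4_ck_mul (S.L4_df_ck 1) h1) h1'
  have sa : HasCompactSupport fun q => S.f q * κ q * d2 κ' q := (L4_supp hc').2.mul_left
  have sb : HasCompactSupport fun q => S.f q * κ q * d1 κ' q := (L4_supp hc').1.mul_left
  have se : HasCompactSupport fun q => d1 S.f q * κ q * κ' q := hc'.mul_left
  have i1 : Integrable (fun q => S.f q * S.D1 κ q * d2 κ' q) S.lam :=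
    ((hf.continuous.mul (S.L4_cont_D1 h)).mul hd'.2.continuous).integrable_of_hasCompactSupport
      (L4_supp hc').2.mul_left
  have i2 : Integrable (fun q => S.f q * d2 κ q * S.D1 κ' q) S.lam :=
    ((hf.continuous.mul hd.2.continuous).mul (S.L4_cont_D1 h')).integrable_of_hasCompactSupport
      (S.L4_supp_D1 hc').mul_left
  rw [← sub_eq_zero, ← integral_sub i1 i2]
  have key : ∀ q, S.f q * S.D1 κ q * d2 κ' q - S.f q * d2 κ q * S.D1 κ' q =
      d1 (fun q => S.f q * κ q * d2 κ' q) q - d2 (fun q => S.f q * κ q * d1 κ' q) q -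
        (1 / 2 : ℂ) * d2 (fun q => d1 S.f q * κ q * κ' q) q := by
    intro q
    have r0 := L4_rd hf one_ne_zero q
    have r1 := L4_rd h1 one_ne_zero q
    have r2 := L4_rd h1' one_ne_zero q
    have r3 := L4_rd hd'.1 one_ne_zero q
    have r4 := L4_rd hd'.2 one_ne_zero q
    have r5 := L4_rd (S.L4_df_ck 1) one_ne_zero q
    rw [(d_mul (r0.mul r1) r4).1, (d_mul (r0.mul r1) r3).2, (d_mul (r5.mul r1) r2).2,
      (d_mul r0 r1).1, (d_mul r0 r1).2, (d_mul r5 r1).2, S.d1_d2 (h' q), S.L4_d2_f, S.L4_d2_df,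
      D1, D1]
    have := S.f_ne q
    field_simp
    ring
  simp_rw [key]
  have i3 : Integrable (fun x => d1 (fun q => S.f q * κ q * d2 κ' q) x -
      d2 (fun q => S.f q * κ q * d1 κ' q) x) S.lam := (S.L4_int_d ha sa).1.sub (S.L4_int_d hb sb).2
  rw [integral_sub i3 ((S.L4_int_d he se).2.const_mul _), integral_sub (S.L4_int_d ha sa).1 (S.L4_int_d hb sb).2,
    integral_const_mul, (S.stokes ha sa).1, (S.stokes hb sb).2, (S.stokes he se).2]
  simp

theorem L4_memLp (A : S.H) : MemLp (fun q => S.L4u q * conj (A q)) 2 S.lamf := by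
  refine (Lp.memLp A).of_le ?_ (Eventually.of_forall fun q => ?_)
  · exact (S.L4u_ck 0).continuous.aestronglyMeasurable.mul
      (continuous_conj.comp_aestronglyMeasurable (Lp.aestronglyMeasurable A))
  · rw [norm_mul, S.L4u_norm, one_mul, norm_conj]

/-- the conjugation -/
noncomputable def L4c (A : S.H) : S.H := (S.L4_memLp A).toLp _

theorem L4c_ae (A : S.H) : (S.L4c A : S.Y → ℂ) =ᵐ[S.lamf] fun q => S.L4u q * conj (A q) :=
  MemLp.coeFn_toLp _

theorem L4_inner {C A B : S.H} (hC : (C : S.Y → ℂ) =ᵐ[S.lamf] fun q => S.L4u q * conj (A q)) :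
    inner ℂ C B = ∫ q, S.f q * A q * B q ∂S.lam := by
  rw [L2.inner_def]
  have h1 : ∀ᵐ q ∂S.lamf, inner ℂ (C q) (B q) = conj (S.L4u q) * A q * B q := by
    filter_upwards [hC] with q hq
    rw [hq, RCLike.inner_apply', map_mul, conj_conj]
  rw [integral_congr_ae h1, S.integral_lamf]
  refine integral_congr_ae (Eventually.of_forall fun q => ?_)
  simp only
  rw [← mul_assoc, ← mul_assoc, S.L4u_f]

theorem L4c_add (x y : S.H) : S.L4c (x + y) = S.L4c x + S.L4c y := by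
  refine Lp.ext ?_
  filter_upwards [S.L4c_ae (x + y), S.L4c_ae x, S.L4c_ae y, Lp.coeFn_add x y,
    Lp.coeFn_add (S.L4c x) (S.L4c y)] with q h1 h2 h3 h4 h5
  rw [h1, h5, h4, Pi.add_apply, Pi.add_apply, h2, h3, map_add, mul_add]

theorem L4c_smul (a : ℂ) (x : S.H) : S.L4c (a • x) = conj a • S.L4c x := by
  refine Lp.ext ?_
  filter_upwards [S.L4c_ae (a • x), S.L4c_ae x, Lp.coeFn_smul a x,
    Lp.coeFn_smul (conj a) (S.L4c x)] with q h1 h2 h4 h5
  rw [h1, h5, h4, Pi.smul_apply, Pi.smul_apply, h2, smul_eq_mul, smul_eq_mul, map_mul]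
  ring

theorem L4c_c (x : S.H) : S.L4c (S.L4c x) = x := by
  refine Lp.ext ?_
  filter_upwards [S.L4c_ae (S.L4c x), S.L4c_ae x] with q h1 h2
  rw [h1, h2, map_mul, conj_conj, ← mul_assoc, S.L4u_conj, one_mul]

theorem L4c_inner (x y : S.H) : inner ℂ (S.L4c x) (S.L4c y) = inner ℂ y x := by
  rw [L2.inner_def, L2.inner_def]
  refine integral_congr_ae ?_
  filter_upwards [S.L4c_ae x, S.L4c_ae y] with q h1 h2
  rw [h1, h2, RCLike.inner_apply', RCLike.inner_apply', map_mul, conj_conj]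
  linear_combination x q * conj (y q) * S.L4u_conj q

/-- the exact forms -/
def L4E : Submodule ℂ (S.H × S.H) where
  carrier := {e | S.IsExact e}
  add_mem' := by
    rintro a b ⟨κ, h, hc, h1, h2⟩ ⟨κ', h', hc', h1', h2'⟩
    have hd := fun q => d_add (L4_rd h two_ne_zero q) (L4_rd h' two_ne_zero q)
    refine ⟨fun q => κ q + κ' q, L4_ck_add h h', hc.add hc', ?_, ?_⟩
    · filter_upwards [h1, h1', Lp.coeFn_add a.1 b.1] with q e1 e2 e3
      rw [Prod.fst_add, e3, Pi.add_apply, e1, e2, D1, D1, D1, (hd q).1]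
      ring
    · filter_upwards [h2, h2', Lp.coeFn_add a.2 b.2] with q e1 e2 e3
      rw [Prod.snd_add, e3, Pi.add_apply, e1, e2, (hd q).2]
  zero_mem' := by
    refine ⟨fun _ => 0, contMDiff_const, HasCompactSupport.zero, ?_, ?_⟩
    · filter_upwards [Lp.coeFn_zero ℂ 2 S.lamf] with q e1
      rw [Prod.fst_zero, e1, D1, (d_const 0 q).1]
      simp
    · filter_upwards [Lp.coeFn_zero ℂ 2 S.lamf] with q e1
      rw [Prod.snd_zero, e1, (d_const 0 q).2]
      simp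
  smul_mem' := by
    rintro c a ⟨κ, h, hc, h1, h2⟩
    have hk : Ck 2 fun _ : S.Y => c := contMDiff_const
    have hd := fun q => d_mul (L4_rd hk two_ne_zero q) (L4_rd h two_ne_zero q)
    refine ⟨fun q => c * κ q, L4_ck_mul hk h, hc.mul_left, ?_, ?_⟩
    · filter_upwards [h1, Lp.coeFn_smul c a.1] with q e1 e3
      rw [Prod.smul_fst, e3, Pi.smul_apply, e1, D1, D1, (hd q).1, (d_const c q).1, smul_eq_mul]
      ring
    · filter_upwards [h2, Lp.coeFn_smul c a.2] with q e1 e3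
      rw [Prod.smul_snd, e3, Pi.smul_apply, e1, (hd q).2, (d_const c q).2, smul_eq_mul]
      ring

theorem L4E_iso (e : S.H × S.H) (he : e ∈ S.L4E) (e' : S.H × S.H) (he' : e' ∈ S.L4E) :
    inner ℂ (S.L4c e.1) e'.2 = inner ℂ (S.L4c e.2) e'.1 := by
  obtain ⟨κ, h, -, h1, h2⟩ := he
  obtain ⟨κ', h', hc', h1', h2'⟩ := he'
  rw [S.L4_inner (S.L4c_ae _), S.L4_inner (S.L4c_ae _)]
  have e1 : ∀ᵐ q ∂S.lam, S.f q * e.1 q * e'.2 q = S.f q * S.D1 κ q * d2 κ' q := by
    filter_upwards [S.ae_lamf.1 h1, S.ae_lamf.1 h2'] with q a b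
    rw [a, b]
  have e2 : ∀ᵐ q ∂S.lam, S.f q * e.2 q * e'.1 q = S.f q * d2 κ q * S.D1 κ' q := by
    filter_upwards [S.ae_lamf.1 h2, S.ae_lamf.1 h1'] with q a b
    rw [a, b]
  rw [integral_congr_ae e1, integral_congr_ae e2]
  exact S.L4_iso h h' hc'

theorem L4E_stab (e : S.H × S.H) (he : e ∈ S.L4E) : (S.L4c e.2, S.L4c e.1) ∈ S.L4E := by
  obtain ⟨κ, h, hc, h1, h2⟩ := he
  have hc2 : HasCompactSupport fun q => conj (κ q) := hc.comp_left (g := conj) (map_zero _)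
  refine ⟨fun q => S.L4u q * conj (κ q), L4_ck_mul (S.L4u_ck 2) (L4_ck_conj h), hc2.mul_left,
    ?_, ?_⟩
  · filter_upwards [h2, S.L4c_ae e.2] with q e1 e2
    rw [e2, e1, (S.L4_stab h q).1]
  · filter_upwards [h1, S.L4c_ae e.1] with q e1 e2
    rw [e2, e1, (S.L4_stab h q).2]

end Flat

end Pool.Agent.MP_e62289_ag
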