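import Pool.Agent.MP_e62289_ag.L2
import Pool.Agent.MP_e62289_ag.H1
import Pool.Agent.MP_e62289_ag.L4Aux

open Set Filter Topology Complex MeasureTheory Metric
open scoped Manifold ContDiff ComplexConjugate NNReal ENNReal

namespace Pool.Agent.MP_e62289_ag

namespace Flat

variable {n : ℕ} (S : Flat n)

theorem memLp_D {κ : S.Y → ℂ} (h : Ck 2 κ) (hc : HasCompactSupport κ) :
    MemLp (S.D1 κ) 2 S.lamf ∧ MemLp (d2 κ) 2 S.lamf :=
  ⟨(S.L4_cont_D1 h).memLp_of_hasCompactSupport (S.L4_supp_D1 hc),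
    (S.L4_ck_d h).2.continuous.memLp_of_hasCompactSupport (L4_supp hc).2⟩

theorem exists_hdata : ∃ D : HData S.H,
    (∀ A : S.H, (D.c A : S.Y → ℂ) =ᵐ[S.lamf] fun q => (‖S.f q‖ : ℂ) / S.f q * conj (A q)) ∧
    ∀ e, e ∈ D.E ↔ S.IsExact e :=
  ⟨⟨S.L4c, S.L4c_add, S.L4c_smul, S.L4c_c, S.L4c_inner, S.L4E, S.L4E_iso, S.L4E_stab⟩,
    S.L4c_ae, fun _ => Iff.rfl⟩

/-- the twisted square integrable forms -/
noncomputable def hd : HData S.H := S.exists_hdata.choose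

theorem hd_c (A : S.H) :
    (S.hd.c A : S.Y → ℂ) =ᵐ[S.lamf] fun q => (‖S.f q‖ : ℂ) / S.f q * conj (A q) :=
  S.exists_hdata.choose_spec.1 A

theorem hd_E (e : S.H × S.H) : e ∈ S.hd.E ↔ S.IsExact e := S.exists_hdata.choose_spec.2 e

theorem hd_β (A B : S.H) : S.hd.β A B = ∫ q, S.f q * A q * B q ∂S.lam :=
  S.L4_inner (S.hd_c A)

/-- the period function -/
noncomputable def Hval (ξp ξm : S.H) (μ : S.Y → ℂ) : ℂ := S.hd.hv ξp ξm (S.mulOp μ)

end Flat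

end Pool.Agent.MP_e62289_ag
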