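import Pool.Agent.MP_e62289_ag.L3
import Pool.Agent.MP_e62289_ag.L4

open Set Filter Topology Complex MeasureTheory Metric
open scoped Manifold ContDiff ComplexConjugate NNReal ENNReal

namespace Pool.Agent.MP_e62289_ag

namespace Flat

variable {n : ℕ} (S : Flat n)

theorem L9b_meas (i : Fin n) {r : ℝ} (hr : r < 1 / 4) :
    MeasurableSet ((S.e i).source ∩ S.e i ⁻¹' (closedBall (0 : ℂ) (2 * r) \ ball 0 r)) := by
  have h : (S.e i).source ∩ S.e i ⁻¹' (closedBall (0 : ℂ) (2 * r) \ ball 0 r) =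
      {q | q ∈ (S.e i).source ∧ ‖S.e i q‖ ≤ 2 * r} \ S.End i r := by
    ext q
    simp only [mem_inter_iff, mem_preimage, Set.mem_sdiff, mem_closedBall, mem_ball, dist_zero_right,
      mem_ofPred_eq, End]
    tauto
  rw [h]
  exact (S.e_closed i (2 * r) (by linarith)).measurableSet.diff (S.isOpen_End i r).measurableSet

theorem L9b_annulus (i : Fin n) {r K : ℝ} (hr0 : 0 < r) (hr : r < 1 / 4) (hK : 0 ≤ K) :
    ∫⁻ q in (S.e i).source ∩ S.e i ⁻¹' (closedBall (0 : ℂ) (2 * r) \ ball 0 r),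
      ‖d1 (S.e i) q‖ₑ ^ 2 * ENNReal.ofReal (K / r) ∂S.lam ≤
        ENNReal.ofReal (K * (4 * Real.pi) * r) := by
  have hA : closedBall (0 : ℂ) (2 * r) \ ball 0 r ⊆ ball 0 1 \ {0} := by
    intro z hz
    simp only [Set.mem_sdiff, mem_closedBall, mem_ball, dist_zero_right, mem_singleton_iff,
      not_lt] at hz ⊢
    refine ⟨by linarith [hz.1], fun h => ?_⟩
    rw [h, norm_zero] at hz
    linarith [hz.2]
  rw [S.lintegral_end i (measurableSet_closedBall.diff measurableSet_ball) hA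
    (fun _ => ENNReal.ofReal (K / r)), setLIntegral_const]
  calc ENNReal.ofReal (K / r) * volume (closedBall (0 : ℂ) (2 * r) \ ball 0 r)
      ≤ ENNReal.ofReal (K / r) * volume (closedBall (0 : ℂ) (2 * r)) := by
        gcongr
        exact Set.sdiff_subset
    _ = ENNReal.ofReal (K * (4 * Real.pi) * r) := by
        rw [Complex.volume_closedBall, ← ENNReal.ofReal_pow (by positivity),
          ← ENNReal.ofReal_coe_nnreal, ← ENNReal.ofReal_mul (by positivity),
          ← ENNReal.ofReal_mul (by positivity)]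
        congr 1
        rw [NNReal.coe_real_pi]
        field_simp
        ring

theorem L9b_bound {g : S.Y → ℂ} {r : ℝ} {K : Fin n → ℝ} (hr0 : 0 < r) (hr : r < 1 / 4)
    (hK : ∀ i, 0 ≤ K i)
    (hg : ∀ q, g q = 0 ∨ ∃ i, q ∈ (S.e i).source ∧ r ≤ ‖S.e i q‖ ∧ ‖S.e i q‖ ≤ 2 * r)
    (hb : ∀ i, ∀ q ∈ (S.e i).source, ‖S.e i q‖ ≤ 2 * r →
      ‖g q‖ ≤ K i / r * ‖d1 (S.e i) q‖ ^ 2) :
    ∫⁻ q, ‖g q‖ₑ ∂S.lam ≤ ENNReal.ofReal ((∑ i, K i) * (4 * Real.pi) * r) := by
  set A : Fin n → Set S.Y := fun i =>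
    (S.e i).source ∩ S.e i ⁻¹' (closedBall (0 : ℂ) (2 * r) \ ball 0 r) with hA
  have h1 : ∀ q, ‖g q‖ₑ ≤ (⋃ i, A i).indicator (fun q => ‖g q‖ₑ) q := by
    intro q
    rcases hg q with h | ⟨i, h1, h2, h3⟩
    · simp [h]
    · rw [indicator_of_mem]
      refine mem_iUnion.2 ⟨i, h1, ?_⟩
      simp only [mem_preimage, Set.mem_sdiff, mem_closedBall, mem_ball, dist_zero_right, not_lt]
      exact ⟨h3, h2⟩
  calc ∫⁻ q, ‖g q‖ₑ ∂S.lam ≤ ∫⁻ q, (⋃ i, A i).indicator (fun q => ‖g q‖ₑ) q ∂S.lam :=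
        lintegral_mono h1
    _ ≤ ∫⁻ q in ⋃ i, A i, ‖g q‖ₑ ∂S.lam := lintegral_indicator_le _ _
    _ ≤ ∑' i, ∫⁻ q in A i, ‖g q‖ₑ ∂S.lam := lintegral_iUnion_le _ _
    _ = ∑ i, ∫⁻ q in A i, ‖g q‖ₑ ∂S.lam := tsum_fintype _
    _ ≤ ∑ i, ENNReal.ofReal (K i * (4 * Real.pi) * r) := by
        refine Finset.sum_le_sum fun i _ => ?_
        refine le_trans ?_ (S.L9b_annulus i hr0 hr (hK i))
        refine setLIntegral_mono' (S.L9b_meas i hr) fun q hq => ?_
        have h2 : ‖S.e i q‖ ≤ 2 * r := by simpa using hq.2.1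
        have h3 := hb i q hq.1 h2
        rw [← ofReal_norm, ← ofReal_norm, ← ENNReal.ofReal_pow (norm_nonneg _),
          ← ENNReal.ofReal_mul (by positivity), mul_comm]
        exact ENNReal.ofReal_le_ofReal h3
    _ = ENNReal.ofReal ((∑ i, K i) * (4 * Real.pi) * r) := by
        rw [← ENNReal.ofReal_sum_of_nonneg fun i _ => by have := hK i; positivity,
          Finset.sum_mul, Finset.sum_mul]

/-- vanishing of the first variation -/
theorem stokes_ends {a b R : S.Y → ℂ} (hR : Hol R)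
    (hab : ∀ q, ∃ v : S.Y → ℂ, CkAt 2 v q ∧ a =ᶠ[𝓝 q] d1 v ∧ b =ᶠ[𝓝 q] d2 v)
    (hb : HasCompactSupport b)
    (he : ∀ i, ∃ C : ℝ, ∀ᶠ q in S.endF i, ‖R q * a q‖ ≤ C * ‖d1 (S.e i) q‖) :
    ∫ q, b q * d1 R q ∂S.lam = 0 := by
  obtain ⟨C0, hC0⟩ := S.cutoff
  choose C hC using he
  have hC' : ∀ i, ∃ ρ : ℝ, 0 < ρ ∧ ∀ q ∈ S.End i ρ, ‖R q * a q‖ ≤ C i * ‖d1 (S.e i) q‖ :=
    fun i => (S.hasBasis_endF i).eventually_iff.1 (hC i)
  choose ρ hρ0 hρ using hC'
  obtain ⟨r0, hr0, -, hr0K⟩ := S.subset_core hb.isCompact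
  have hac : Continuous a := continuous_iff_continuousAt.2 fun q => by
    obtain ⟨v, hv, h1, -⟩ := hab q
    exact (S.continuousAt_d (hv.of_le (by norm_num))).1.congr h1.symm
  have hbc : Continuous b := continuous_iff_continuousAt.2 fun q => by
    obtain ⟨v, hv, -, h1⟩ := hab q
    exact (S.continuousAt_d (hv.of_le (by norm_num))).2.congr h1.symm
  have hRk : ∀ k, Ck k R := fun k q => ckAt_of_hol (Eventually.of_forall hR) k
  have hdR : Continuous (d1 R) :=
    continuous_iff_continuousAt.2 fun q => (S.continuousAt_d (hRk 1 q)).1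
  have hint : Integrable (fun q => b q * d1 R q) S.lam :=
    (hbc.mul hdR).integrable_of_hasCompactSupport hb.mul_right
  set K : ℝ := (∑ i, |C0| * |C i|) * (4 * Real.pi) with hK
  have hK0 : 0 ≤ K := by positivity
  have key : ∀ r : ℝ, 0 < r → r < 1 / 4 → 2 * r < r0 → (∀ i, 2 * r < ρ i) →
      ‖∫ q, b q * d1 R q ∂S.lam‖ ≤ K * r := by
    intro r h0 h1 h2 h3
    obtain ⟨χ, hχ, hχc, -, hχ1, hχd⟩ := hC0 r h0 h1
    have hχ' : Ck 1 χ := hχ.of_le (by norm_num)
    have hu : Ck 1 fun q => χ q * R q :=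
      (contDiff_mul (𝕜 := ℝ) (𝔸 := ℂ)).comp_contMDiff (hχ'.prodMk_space (hRk 1))
    have hst := S.stokes_closed hu hχc.mul_right hab
    have hd : ∀ q, d1 (fun q => χ q * R q) q * b q - d2 (fun q => χ q * R q) q * a q =
        b q * d1 R q - d2 χ q * (R q * a q) := by
      intro q
      have hm := d_mul ((hχ' q).mdifferentiableAt one_ne_zero) (d2_of_hol (hR q)).1
      rw [hm.1, hm.2, (d2_of_hol (hR q)).2]
      by_cases hq : b q = 0
      · rw [hq]
        ring
      · have hq' : q ∈ S.core r0 := interior_subset (hr0K (subset_tsupport _ hq))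
        have e1 : χ q = 1 := hχ1 q fun i hi => h2.le.trans (hq' i hi)
        have e2 : d1 χ q = 0 := by
          rcases hχd q with h | ⟨i, hi, -, h4, -⟩
          · exact h.1
          · exact absurd ((hq' i hi).trans h4) (not_le.2 h2)
        rw [e1, e2]
        ring
    have hgc : Continuous fun q => d2 χ q * (R q * a q) :=
      (continuous_iff_continuousAt.2 fun q => (S.continuousAt_d (hχ' q)).2).mul
        (hR.continuous.mul hac)
    have hbd := S.L9b_bound (g := fun q => d2 χ q * (R q * a q)) (K := fun i => |C0| * |C i|)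
      h0 h1 (fun i => by positivity) (fun q => by
        rcases hχd q with h | ⟨i, hi, h4, h5, -⟩
        · left
          simp [h.2]
        · exact Or.inr ⟨i, hi, h4, h5⟩) (fun i q hi hq => by
        rcases hχd q with h | ⟨j, hj, -, -, -, h6⟩
        · simp only [h.2, zero_mul, norm_zero]
          positivity
        · obtain rfl : i = j := by
            by_contra hne
            exact disjoint_left.1 (S.e_disj hne) hi hj
          have h7 := hρ i q ⟨hi, hq.trans_lt (h3 i)⟩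
          have h8 : ‖d2 χ q‖ ≤ |C0| / r * ‖d1 (S.e i) q‖ :=
            h6.trans (by gcongr; exact le_abs_self _)
          have h9 : ‖R q * a q‖ ≤ |C i| * ‖d1 (S.e i) q‖ :=
            h7.trans (by gcongr; exact le_abs_self _)
          rw [norm_mul]
          calc ‖d2 χ q‖ * ‖R q * a q‖
              ≤ (|C0| / r * ‖d1 (S.e i) q‖) * (|C i| * ‖d1 (S.e i) q‖) := by gcongr
            _ = |C0| * |C i| / r * ‖d1 (S.e i) q‖ ^ 2 := by ring)
    have hgi : Integrable (fun q => d2 χ q * (R q * a q)) S.lam :=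
      ⟨hgc.aestronglyMeasurable, hbd.trans_lt ENNReal.ofReal_lt_top⟩
    simp only [hd] at hst
    rw [integral_sub hint hgi, sub_eq_zero] at hst
    rw [hst]
    have h10 := (enorm_integral_le_lintegral_enorm (μ := S.lam)
      (fun q => d2 χ q * (R q * a q))).trans hbd
    rw [← ofReal_norm, ENNReal.ofReal_le_ofReal_iff (by positivity)] at h10
    exact h10
  have hev : ∀ᶠ r in 𝓝[>] (0 : ℝ), ‖∫ q, b q * d1 R q ∂S.lam‖ ≤ K * r := by
    have h2 : ∀ c : ℝ, 0 < c → ∀ᶠ r in 𝓝[>] (0 : ℝ), 2 * r < c := fun c hc => by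
      have : ∀ᶠ r in 𝓝 (0 : ℝ), r < c / 2 := eventually_lt_nhds (by linarith)
      exact (this.filter_mono nhdsWithin_le_nhds).mono fun r hr => by linarith
    filter_upwards [self_mem_nhdsWithin, h2 (1 / 2) (by norm_num), h2 r0 hr0,
      eventually_all.2 fun i => h2 (ρ i) (hρ0 i)] with r e0 e1 e2 e3
    exact key r e0 (by linarith) e2 e3
  have ht : Tendsto (fun r : ℝ => K * r) (𝓝[>] 0) (𝓝 0) := by
    have : Tendsto (fun r : ℝ => K * r) (𝓝 0) (𝓝 (K * 0)) :=
      (continuous_const.mul continuous_id).tendsto 0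
    rw [mul_zero] at this
    exact this.mono_left nhdsWithin_le_nhds
  exact norm_le_zero_iff.1 (ge_of_tendsto ht hev)

end Flat

end Pool.Agent.MP_e62289_ag
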