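import Pool.Agent.MP_e62289_ag.F3
import Pool.Agent.MP_e62289_ag.L9

open Set Filter Topology Complex MeasureTheory Metric
open scoped Manifold ContDiff ComplexConjugate NNReal ENNReal

namespace Pool.Agent.MP_e62289_ag

/-- the Schwarz lemma along complex lines in a chart -/
theorem F4_schwarz {E : Type} [NormedAddCommGroup E] [NormedSpace ℂ E] {B : Type}
    [TopologicalSpace B] [ChartedSpace E B] {b₀ : B} {Y : Type} {g : B → Y → ℂ} {K : Set Y}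
    {N : Set B} (hN : N ∈ 𝓝 b₀) {M : ℝ} (hM0 : 0 ≤ M) (hM : ∀ b ∈ N, ∀ q ∈ K, ‖g b q‖ ≤ M)
    (hh : ∀ (φ : ℂ → E) (ζ₀ : ℂ), AnalyticAt ℂ φ ζ₀ → φ ζ₀ ∈ (chartAt E b₀).target →
      (chartAt E b₀).symm (φ ζ₀) ∈ N → ∀ q,
        DifferentiableAt ℂ (fun ζ => g ((chartAt E b₀).symm (φ ζ)) q) ζ₀) :
    ∃ L : ℝ, 0 ≤ L ∧ ∀ᶠ b in 𝓝 b₀, ∀ q ∈ K,
      ‖g b q - g b₀ q‖ ≤ L * ‖chartAt E b₀ b - chartAt E b₀ b₀‖ := by
  set e := chartAt E b₀ with he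
  have hs : b₀ ∈ e.source := mem_chart_source E b₀
  have ht : e b₀ ∈ e.target := e.map_source hs
  have h1 : e.target ∩ e.symm ⁻¹' N ∈ 𝓝 (e b₀) := by
    refine inter_mem (e.open_target.mem_nhds ht) ?_
    refine (e.continuousAt_symm ht).preimage_mem_nhds ?_
    rwa [e.left_inv hs]
  obtain ⟨ρ, hρ, hb⟩ := Metric.mem_nhds_iff.1 h1
  refine ⟨2 * M / ρ, by positivity, ?_⟩
  have h2 : ∀ᶠ b in 𝓝 b₀, e b ∈ ball (e b₀) ρ :=
    (e.continuousAt hs).preimage_mem_nhds (ball_mem_nhds _ hρ)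
  filter_upwards [h2, e.open_source.mem_nhds hs] with b hb1 hb2 q hq
  by_cases h0 : e b - e b₀ = 0
  · have : b = b₀ := e.injOn hb2 hs (sub_eq_zero.1 h0)
    subst this
    simp
  set v := e b - e b₀ with hv
  have ht0 : 0 < ‖v‖ := norm_pos_iff.2 h0
  have ht0' : ((‖v‖ : ℝ) : ℂ) ≠ 0 := by exact_mod_cast ht0.ne'
  set u : E := ((‖v‖ : ℝ) : ℂ)⁻¹ • v with hu
  have hu1 : ‖u‖ = 1 := by
    rw [hu, norm_smul, norm_inv, Complex.norm_real, norm_norm, inv_mul_cancel₀ ht0.ne']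
  have hφ : ∀ ζ ∈ ball (0 : ℂ) ρ, e b₀ + ζ • u ∈ e.target ∩ e.symm ⁻¹' N := fun ζ hζ => hb (by
    rw [mem_ball_iff_norm, add_sub_cancel_left, norm_smul, hu1, mul_one]
    exact mem_ball_zero_iff.1 hζ)
  have key := (schwarz_two (g := fun ζ => g (e.symm (e b₀ + ζ • u)) q) (M := M) hρ
    (fun ζ hζ => (hh (fun ζ => e b₀ + ζ • u) ζ (by fun_prop) (hφ ζ hζ).1 (hφ ζ hζ).2
      q).differentiableWithinAt)
    (fun ζ hζ => hM _ (hφ ζ hζ).2 q hq)).2 ((‖v‖ : ℝ) : ℂ) (by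
      rw [mem_ball_zero_iff, Complex.norm_real, norm_norm]
      exact mem_ball_iff_norm.1 hb1)
  have e1 : e b₀ + ((‖v‖ : ℝ) : ℂ) • u = e b := by
    rw [hu, smul_smul, mul_inv_cancel₀ ht0', one_smul, hv, add_sub_cancel]
  have k1 := key.1
  simp only [e1, zero_smul, add_zero, e.left_inv hs, e.left_inv hb2, Complex.norm_real,
    norm_norm] at k1
  exact k1

namespace Family

variable {E : Type} [NormedAddCommGroup E] [NormedSpace ℂ E] {B : Type} [TopologicalSpace B]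
  [ChartedSpace E B] {n : ℕ} {a : Fin n → ℕ} {C : Family E B a} {b₀ : B} {S : Flat n}

theorem Triv.F4_map (τ : C.Triv b₀) (G₀ : Adm S.Y (C.Fib b₀)) {b : B} (h : b ∈ τ.U) :
    (fun y => ((G₀.trans (τ.M.G ⟨b, h⟩)).φ y).1) = fun y => τ.F b (G₀.φ y).1 :=
  funext fun y => τ.eq ⟨b, h⟩ (G₀.φ y)

theorem Triv.F4_end (τ : C.Triv b₀) (G₀ : Adm S.Y (C.Fib b₀)) {b : B} (h : b ∈ τ.U) {i : Fin n}
    (he : Tendsto (fun q => (G₀.φ q).1) (S.endF i) (𝓝 (C.sec i b₀))) :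
    Tendsto (fun q => τ.F b (G₀.φ q).1) (S.endF i) (𝓝 (C.sec i b)) := by
  have h1 := τ.contF (b, C.sec i b₀) ⟨h, C.proj_sec i b₀⟩
  have h2 : Tendsto (fun q => (b, (G₀.φ q).1)) (S.endF i)
      (𝓝[τ.U ×ˢ (C.proj ⁻¹' {b₀})] (b, C.sec i b₀)) :=
    tendsto_nhdsWithin_iff.2 ⟨tendsto_const_nhds.prodMk_nhds he,
      Eventually.of_forall fun q => ⟨h, (G₀.φ q).2.1⟩⟩
  have h3 := h1.tendsto.comp h2
  rwa [τ.sec b h i] at h3

theorem Triv.F4_mu0 (τ : C.Triv b₀) (G₀ : Adm S.Y (C.Fib b₀)) (hc : ∀ q, d2 G₀.φ q = 0)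
    (q : S.Y) : τ.mu G₀ b₀ q = 0 := by
  rw [τ.mu_eq G₀ τ.mem]
  have e : (⇑(G₀.trans (τ.M.G ⟨b₀, τ.mem⟩)).φ : S.Y → C.Fib b₀) = G₀.φ := funext fun y =>
    Subtype.ext ((τ.eq ⟨b₀, τ.mem⟩ (G₀.φ y)).trans (τ.base _ (G₀.φ y).2.1))
  change bel (⇑(G₀.trans (τ.M.G ⟨b₀, τ.mem⟩)).φ : S.Y → C.Fib b₀) q = 0
  rw [e, bel, hc, zero_div]

variable {V : Set B} {f : C.X → ℂ × B → ℂ} {ξp ξm : S.H}

/-- at the base point the pull back of the form is proportional to `w` -/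
theorem IsForm.F4_base (hf : C.IsForm V f) (hV : IsOpen V) (hb : b₀ ∈ V)
    (G₀ : Adm S.Y (C.Fib b₀)) (d : S.FV a ξp ξm) (hc : ∀ q, d2 G₀.φ q = 0)
    (he : ∀ i, Tendsto (fun q => (G₀.φ q).1) (S.endF i) (𝓝 (C.sec i b₀))) :
    ∃ c : ℂ, c ≠ 0 ∧ ∀ q, C.pb1 f (fun y => (G₀.φ y).1) q = c * d.w q := by
  have h1 : Hol (C.pb1 f fun y => (G₀.φ y).1) := fun q => by
    obtain ⟨v, v1, v2, v3⟩ := hf.pb_closed hV hb G₀ q
    have v4 : ∀ᶠ x in 𝓝 q, CkAt 2 v x := (contMDiffAt_iff_contMDiffAt_nhds (by simp)).1 v1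
    have v5 : ∀ᶠ x in 𝓝 q, HolAt v x := by
      filter_upwards [v4, v3] with x x1 x2
      refine hol_of_d2 (x1.mdifferentiableAt (by simp)) ?_
      rw [← x2, pb2_eq, bel, hc, zero_div, zero_mul]
    exact (S.holAt_d1 v5).self_of_nhds.congr_of_eventuallyEq v2
  have h2 : Hol fun q => C.pb1 f (fun y => (G₀.φ y).1) q / d.w q := fun q =>
    (h1 q).div (d.w_hol q) (d.w_ne q)
  obtain ⟨c, hc'⟩ := S.const_of_bounded h2 fun i => by
    obtain ⟨c₁, h₁⟩ := hf.pb1_end hV hb G₀ (he i)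
    obtain ⟨c₂, c0, h₂⟩ := d.ends i
    refine ⟨|c₁| / c₂, ?_⟩
    filter_upwards [h₁, h₂] with q q1 q2
    have hw : 0 < ‖d.w q‖ := norm_pos_iff.2 (d.w_ne q)
    rw [norm_div, div_le_div_iff₀ hw c0]
    have hX : 0 ≤ ‖S.e i q‖ ^ (a i - 1) * ‖d1 (S.e i) q‖ := by positivity
    have k1 : ‖C.pb1 f (fun y => (G₀.φ y).1) q‖ ≤
        |c₁| * (‖S.e i q‖ ^ (a i - 1) * ‖d1 (S.e i) q‖) := by
      rw [mul_assoc] at q1
      exact q1.trans (mul_le_mul_of_nonneg_right (le_abs_self _) hX)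
    have k2 := mul_le_mul_of_nonneg_left q2.1 (abs_nonneg c₁)
    have k3 := mul_le_mul_of_nonneg_right k1 c0.le
    nlinarith
  have h3 : ∀ q, C.pb1 f (fun y => (G₀.φ y).1) q = c * d.w q := fun q => by
    rw [← hc' q, div_mul_cancel₀ _ (d.w_ne q)]
  refine ⟨c, fun h0 => ?_, h3⟩
  obtain ⟨q⟩ : Nonempty S.Y := inferInstance
  exact hf.pb1_ne hV hb G₀ q (by rw [h3, h0, zero_mul])

variable [FiniteDimensional ℂ E] [IsManifold 𝓘(ℂ, E) ω B] [IsManifold 𝓘(ℝ, E) ∞ B]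

/-- the theorem of Stokes on the nearby fibres -/
theorem Triv.F4_stokes (τ : C.Triv b₀) (G₀ : Adm S.Y (C.Fib b₀)) (hf : C.IsForm V f)
    (hV : IsOpen V) (d : S.FV a ξp ξm)
    (he : ∀ i, Tendsto (fun q => (G₀.φ q).1) (S.endF i) (𝓝 (C.sec i b₀))) {b : B}
    (h : b ∈ τ.U) (hb : b ∈ V) :
    ∫ q, τ.mu G₀ b q * C.pb1 f (fun y => τ.F b (G₀.φ y).1) q * d1 d.R q ∂S.lam = 0 := by
  obtain ⟨K, hK, hK'⟩ := τ.mu_supp G₀
  let G : Adm S.Y (C.Fib b) := G₀.trans (τ.M.G ⟨b, h⟩)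
  have e : (fun y => (G.φ y).1) = fun y => τ.F b (G₀.φ y).1 := τ.F4_map G₀ h
  have e2 : ∀ q, C.pb2 f (fun y => (G.φ y).1) q =
      τ.mu G₀ b q * C.pb1 f (fun y => τ.F b (G₀.φ y).1) q := fun q => by
    rw [pb2_eq, e, τ.mu_eq G₀ h]
  have key := S.stokes_ends d.R_hol (hf.pb_closed hV hb G)
    (HasCompactSupport.intro hK fun q hq => by rw [e2, hK' b q hq, zero_mul]) fun i => by
      obtain ⟨c₁, h₁⟩ := hf.pb1_end hV hb G (j := i) (i := i) (by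
        rw [e]
        exact τ.F4_end G₀ h (he i))
      obtain ⟨c₂, c0, h₂⟩ := d.ends i
      refine ⟨|c₁| / c₂, ?_⟩
      filter_upwards [h₁, h₂] with q q1 q2
      rw [norm_mul, div_mul_eq_mul_div, le_div_iff₀ c0]
      have hX : 0 ≤ ‖S.e i q‖ ^ (a i - 1) * ‖d1 (S.e i) q‖ := by positivity
      have k1 : ‖C.pb1 f (fun y => (G.φ y).1) q‖ ≤
          |c₁| * (‖S.e i q‖ ^ (a i - 1) * ‖d1 (S.e i) q‖) := by
        rw [mul_assoc] at q1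
        exact q1.trans (mul_le_mul_of_nonneg_right (le_abs_self _) hX)
      have k2 := mul_le_mul_of_nonneg_left q2.2
        (mul_nonneg (abs_nonneg c₁) (norm_nonneg (d1 (S.e i) q)))
      have k3 := mul_le_mul_of_nonneg_left k1 (mul_nonneg (norm_nonneg (d.R q)) c0.le)
      nlinarith
  simpa only [e2] using key

/-- the period function vanishes to second order at the base point -/
theorem Triv.fv (τ : C.Triv b₀) (G₀ : Adm S.Y (C.Fib b₀)) {ξp ξm : S.H} (d : S.FV a ξp ξm)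
    (hc : ∀ q, d2 G₀.φ q = 0)
    (he : ∀ i, Tendsto (fun q => (G₀.φ q).1) (S.endF i) (𝓝 (C.sec i b₀))) :
    ∃ K : ℝ, ∀ᶠ b in 𝓝 b₀,
      ‖S.Hval ξp ξm (τ.mu G₀ b)‖ ≤ K * ‖chartAt E b₀ b - chartAt E b₀ b₀‖ ^ 2 := by
  obtain ⟨V, hV, hbV, f, hf⟩ := C.exists_form b₀
  obtain ⟨K, hK, hK'⟩ := τ.mu_supp G₀
  set A : B → S.Y → ℂ := fun b q => C.pb1 f (fun y => τ.F b (G₀.φ y).1) q with hA
  have hUV : IsOpen (τ.U ∩ V) := τ.isOpen.inter hV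
  have hb0 : b₀ ∈ τ.U ∩ V := ⟨τ.mem, hbV⟩
  have cA : ContinuousOn (fun p : B × S.Y => A p.1 p.2) ((τ.U ∩ V) ×ˢ univ) := τ.pb_cont G₀ hf hV
  have cA' : ∀ b ∈ τ.U ∩ V, Continuous (A b) := fun b hb =>
    cA.comp_continuous (Continuous.prodMk_right b) fun q => ⟨hb, mem_univ q⟩
  have cmu : ∀ b ∈ τ.U, Continuous (τ.mu G₀ b) := fun b hb =>
    (τ.mu_cont G₀).comp_continuous (Continuous.prodMk_right b) fun q => ⟨hb, mem_univ q⟩
  have cR : Continuous (d1 d.R) := continuous_iff_continuousAt.2 fun q =>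
    (S.continuousAt_d (ckAt_of_hol (Eventually.of_forall d.R_hol) 1)).1
  obtain ⟨c, c0, hcw⟩ := hf.F4_base hV hbV G₀ d hc he
  have hA0 : ∀ q, A b₀ q = c * d.w q := fun q => by
    have e : (fun y => τ.F b₀ (G₀.φ y).1) = fun y => (G₀.φ y).1 :=
      funext fun y => τ.base _ (G₀.φ y).2.1
    rw [← hcw q, hA]
    simp only [e]
  -- the Beltrami coefficients are of first order
  obtain ⟨κ, -, hκ⟩ := τ.mu_bound G₀ τ.mem
  obtain ⟨L₁, l1, hL₁⟩ := F4_schwarz (E := E) (g := τ.mu G₀) (K := univ) (M := |κ|)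
    (inter_mem (τ.isOpen.mem_nhds τ.mem) hκ) (abs_nonneg κ)
    (fun b hb q _ => (hb.2 q).trans (le_abs_self κ))
    (fun φ ζ₀ h1 h2 h3 q => τ.mu_hol G₀ h1 h2 h3.1 q)
  -- the forms are Lipschitz on the compact set
  obtain ⟨M₀, hM₀⟩ := hK.exists_bound_of_continuousOn (cA' b₀ hb0).continuousOn
  have hbd : ∀ᶠ b in 𝓝 b₀, ∀ q ∈ K, ‖A b q‖ ≤ |M₀| + 1 := by
    refine hK.eventually_forall_of_forall_eventually fun q hq => ?_
    have h1 : ContinuousAt (fun p : B × S.Y => A p.1 p.2) (b₀, q) :=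
      cA.continuousAt ((hUV.prod isOpen_univ).mem_nhds ⟨hb0, mem_univ q⟩)
    have h2 : ‖A b₀ q‖ < |M₀| + 1 := by linarith [hM₀ q hq, le_abs_self M₀]
    exact (h1.norm.eventually_lt continuousAt_const h2).mono fun p hp => hp.le
  obtain ⟨L₂, l2, hL₂⟩ := F4_schwarz (E := E) (g := A) (K := K) (M := |M₀| + 1)
    (inter_mem (hUV.mem_nhds hb0) hbd) (by positivity) (fun b hb q hq => hb.2 q hq)
    (fun φ ζ₀ h1 h2 h3 q => τ.pb_hol G₀ hf hV h1 h2 h3.1 q)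
  obtain ⟨M₁, hM₁⟩ := hK.exists_bound_of_continuousOn cR.continuousOn
  have hδ : ∀ᶠ b in 𝓝 b₀, L₁ * ‖chartAt E b₀ b - chartAt E b₀ b₀‖ < 1 / 2 := by
    have h1 : ContinuousAt (fun b => L₁ * ‖chartAt E b₀ b - chartAt E b₀ b₀‖) b₀ :=
      continuousAt_const.mul
        (((chartAt E b₀).continuousAt (mem_chart_source E b₀)).sub continuousAt_const).norm
    exact h1.eventually_lt continuousAt_const (by simp)
  refine ⟨2 * L₁ ^ 2 * (‖ξp‖ * ‖ξm‖) + ‖c‖⁻¹ * (L₁ * L₂ * |M₁| * S.lam.real K), ?_⟩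
  filter_upwards [hL₁, hL₂, hδ, hUV.mem_nhds hb0] with b b1 b2 b3 hb
  set δ := ‖chartAt E b₀ b - chartAt E b₀ b₀‖ with hδ'
  have δ0 : 0 ≤ δ := norm_nonneg _
  have m1 : ∀ q, ‖τ.mu G₀ b q‖ ≤ L₁ * δ := fun q => by
    have := b1 q (mem_univ q)
    rwa [τ.F4_mu0 G₀ hc q, sub_zero] at this
  have m2 : AEStronglyMeasurable (τ.mu G₀ b) S.lamf := (cmu b hb.1).aestronglyMeasurable
  have m3 := S.norm_mulOp m2 m1
  have m4 := S.hd.hv_lin ξp ξm (m3.trans b3.le)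
  have m5 : 2 * ‖S.mulOp (τ.mu G₀ b)‖ ^ 2 * (‖ξp‖ * ‖ξm‖) ≤
      2 * (L₁ * δ) ^ 2 * (‖ξp‖ * ‖ξm‖) := by gcongr
  have cs : ∀ g : S.Y → ℂ, Continuous g →
      Integrable (fun q => τ.mu G₀ b q * g q * d1 d.R q) S.lam := fun g hg =>
    (((cmu b hb.1).mul hg).mul cR).integrable_of_hasCompactSupport
      (HasCompactSupport.intro hK fun q hq => by simp [hK' b q hq])
  have i1 : S.hd.β ξm (S.mulOp (τ.mu G₀ b) ξp) =
      c⁻¹ * ∫ q, τ.mu G₀ b q * (A b₀ q - A b q) * d1 d.R q ∂S.lam := by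
    have j1 : ∫ q, τ.mu G₀ b q * (A b₀ q - A b q) * d1 d.R q ∂S.lam =
        ∫ q, τ.mu G₀ b q * A b₀ q * d1 d.R q ∂S.lam := by
      have j2 := integral_sub (cs _ (cA' b₀ hb0)) (cs _ (cA' b hb))
      rw [τ.F4_stokes G₀ hf hV d he hb.1 hb.2, sub_zero] at j2
      rw [← j2]
      exact integral_congr_ae (Eventually.of_forall fun q => by ring)
    rw [S.β_mulOp m2 m1, j1, ← integral_const_mul]
    refine integral_congr_ae (d.prod.mono fun q hq => ?_)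
    simp only [hq, hA0]
    field_simp
  have i2 : ‖∫ q, τ.mu G₀ b q * (A b₀ q - A b q) * d1 d.R q ∂S.lam‖ ≤
      L₁ * δ * (L₂ * δ) * |M₁| * S.lam.real K := by
    rw [← setIntegral_eq_integral_of_forall_compl_eq_zero (s := K) fun q hq => by
      rw [hK' b q hq, zero_mul, zero_mul]]
    refine norm_setIntegral_le_of_norm_le_const hK.measure_lt_top fun q hq => ?_
    rw [norm_mul, norm_mul, norm_sub_rev]
    have := (hM₁ q hq).trans (le_abs_self M₁)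
    have := b2 q hq
    have := m1 q
    gcongr
  have i3 : ‖S.hd.β ξm (S.mulOp (τ.mu G₀ b) ξp)‖ ≤
      ‖c‖⁻¹ * (L₁ * δ * (L₂ * δ) * |M₁| * S.lam.real K) := by
    rw [i1, norm_mul, norm_inv]
    gcongr
  have i4 := norm_le_insert' (S.hd.hv ξp ξm (S.mulOp (τ.mu G₀ b)))
    (S.hd.β ξm (S.mulOp (τ.mu G₀ b) ξp))
  change ‖S.hd.hv ξp ξm (S.mulOp (τ.mu G₀ b))‖ ≤ _
  calc _ ≤ _ := i4
    _ ≤ ‖c‖⁻¹ * (L₁ * δ * (L₂ * δ) * |M₁| * S.lam.real K) + 2 * (L₁ * δ) ^ 2 * (‖ξp‖ * ‖ξm‖) :=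
      add_le_add i3 (m4.trans m5)
    _ = _ := by ring

end Family

end Pool.Agent.MP_e62289_ag
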