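import Pool.Agent.MP_e62289_ag.L1

open Set Filter Topology Complex MeasureTheory Metric
open scoped Manifold ContDiff ComplexConjugate NNReal ENNReal

namespace Pool.Agent.MP_e62289_ag

theorem L7_plane {g : ℂ → ℂ} {r R : ℝ} (hr : 0 < r) (hR : r < R)
    (hd : DifferentiableOn ℂ g (ball 0 R \ {0})) (h0 : Tendsto g (𝓝[≠] 0) (𝓝 0))
    (hs : ∀ w ∈ sphere (0 : ℂ) r, ‖g w - w‖ ≤ r / 2) {w : ℂ} (hw : w ≠ 0) (hwr : ‖w‖ ≤ r) :
    ‖g w - w‖ ≤ ‖w‖ / 2 := by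
  have hB : ball (0 : ℂ) R ∈ 𝓝 (0 : ℂ) := ball_mem_nhds _ (hr.trans hR)
  let G : ℂ → ℂ := fun z => Function.update g 0 0 z - z
  have hG : ∀ z, z ≠ 0 → G z = g z - z := fun z hz => by simp [G, hz]
  have hG0 : G 0 = 0 := by simp [G]
  have hd1 : DifferentiableOn ℂ (Function.update g 0 0) (ball 0 R) := by
    rw [← Complex.differentiableOn_compl_singleton_and_continuousAt_iff hB]
    exact ⟨hd.congr fun z hz => Function.update_of_ne hz.2 _ _, continuousAt_update_same.2 h0⟩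
  have hd2 : DifferentiableOn ℂ (dslope G 0) (ball 0 R) :=
    (Complex.differentiableOn_dslope hB).2 (hd1.sub differentiableOn_id)
  have hq : ∀ z, z ≠ 0 → ‖dslope G 0 z‖ = ‖g z - z‖ / ‖z‖ := fun z hz => by
    rw [dslope_of_ne _ hz, slope_def_field, hG0, hG z hz, sub_zero, sub_zero, norm_div]
  have hd3 : DiffContOnCl ℂ (dslope G 0) (ball 0 r) := by
    refine DifferentiableOn.diffContOnCl (hd2.mono ?_)
    rw [closure_ball _ hr.ne']
    exact closedBall_subset_ball hR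
  have h4 := Complex.norm_le_of_forall_mem_frontier_norm_le (C := 1 / 2) isBounded_ball hd3
    (fun z hz => by
      rw [frontier_ball _ hr.ne'] at hz
      have hz' : ‖z‖ = r := by simpa using hz
      have hz0 : z ≠ 0 := fun h => by rw [h, norm_zero] at hz'; exact hr.ne hz'
      rw [hq z hz0, hz', div_le_iff₀ hr]
      linarith [hs z hz]) (z := w) (by rw [closure_ball _ hr.ne']; simpa using hwr)
  rw [hq w hw, div_le_iff₀ (norm_pos_iff.2 hw)] at h4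
  linarith

namespace Flat

variable {n : ℕ} (S : Flat n) {T : Type} [TopologicalSpace T]

/-- the family `Θ t`, `t ∈ T'`, stays in discs and moves points near the ends little -/
def Small (Θ : T → Adm S.Y S.Y) (T' : Set T) : Prop :=
  (∀ q, ∃ N, S.IsDisc N ∧ ∀ᶠ q' in 𝓝 q, ∀ t ∈ T', (Θ t).φ q' ∈ N) ∧
  ∃ r : ℝ, 0 < r ∧ ∀ i, ∀ t ∈ T', ∀ q ∈ S.End i r,
    (Θ t).φ q ∈ (S.e i).source ∧ ‖S.e i ((Θ t).φ q) - S.e i q‖ ≤ ‖S.e i q‖ / 2

theorem L7_not_core {q : S.Y} {r : ℝ} : q ∉ S.core r ↔ ∃ i, q ∈ S.End i r := by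
  simp [core, End]

theorem L7_mono {r r' : ℝ} (h : r ≤ r') : S.core r' ⊆ S.core r :=
  fun _ hq i hi => h.trans (hq i hi)

theorem L7_eq {i j : Fin n} {q : S.Y} (hi : q ∈ (S.e i).source) (hj : q ∈ (S.e j).source) :
    i = j := by
  by_contra h
  exact Set.disjoint_left.1 (S.e_disj h) hi hj

theorem L7_tgt {i : Fin n} {w : ℂ} (h0 : w ≠ 0) (h1 : ‖w‖ < 1) : w ∈ (S.e i).target := by
  rw [S.e_target]
  exact ⟨by simpa using h1, h0⟩

theorem L7_ne {i : Fin n} {q : S.Y} (h : q ∈ (S.e i).source) : S.e i q ≠ 0 := by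
  have := (S.e i).map_source h
  rw [S.e_target] at this
  exact this.2

theorem L7_symm {i : Fin n} {w : ℂ} {r : ℝ} (h0 : w ≠ 0) (h1 : ‖w‖ < r) (hr : r ≤ 1) :
    (S.e i).symm w ∈ S.End i r := by
  have ht : w ∈ (S.e i).target := S.L7_tgt h0 (h1.trans_le hr)
  exact ⟨(S.e i).map_target ht, by rwa [(S.e i).right_inv ht]⟩

/-- a single map that is conformal near an end -/
theorem L7_one (A : Adm S.Y S.Y) (i : Fin n) {r R : ℝ} (hr : 0 < r) (hR : r < R) (hR1 : R ≤ 1)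
    (h1 : ∀ q ∈ S.End i R, A.φ q ∈ (S.e i).source ∧ d2 A.φ q = 0)
    (hs : ∀ w ∈ sphere (0 : ℂ) r, ‖S.e i (A.φ ((S.e i).symm w)) - w‖ ≤ r / 2) {q : S.Y}
    (hq : q ∈ S.End i r) : ‖S.e i (A.φ q) - S.e i q‖ ≤ ‖S.e i q‖ / 2 := by
  have hc := coord_hol (S.e_hol i)
  have := L7_plane (g := fun w => S.e i (A.φ ((S.e i).symm w))) hr hR ?_ ?_ hs (S.L7_ne hq.1)
    hq.2.le
  · rwa [(S.e i).left_inv hq.1] at this
  · intro w hw
    have hw1 : ‖w‖ < R := by simpa using hw.1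
    have h2 := h1 _ (S.L7_symm hw.2 hw1 hR1)
    have h3 := ((hc.1 _ h2.1).1.comp _ (hol_of_d2 (A.md _) h2.2)).comp w
      (hc.2 w (S.L7_tgt hw.2 (hw1.trans_le hR1)))
    exact (mdifferentiableAt_iff_differentiableAt.1 h3).differentiableWithinAt
  · rw [Metric.tendsto_nhdsWithin_nhds]
    intro ρ hρ
    obtain ⟨ρ', h2, -, h3⟩ := S.subset_core ((S.e_compact ρ hρ).image A.φ.symm.continuous)
    refine ⟨min ρ' R, lt_min h2 (hr.trans hR), fun w hw hw' => ?_⟩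
    rw [dist_zero_right, lt_min_iff] at hw'
    have h4 := S.L7_symm (i := i) hw hw'.2 hR1
    have h5 : A.φ ((S.e i).symm w) ∉ S.core ρ := fun h => by
      have h6 := interior_subset (h3 ⟨_, h, A.φ.symm_apply_apply _⟩) i h4.1
      rw [(S.e i).right_inv (S.L7_tgt hw (hw'.2.trans_le hR1))] at h6
      exact absurd hw'.1 (not_lt.2 h6)
    obtain ⟨j, hj⟩ := S.L7_not_core.1 h5
    obtain rfl := S.L7_eq hj.1 (h1 _ h4).1
    rw [dist_zero_right]
    exact hj.2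

theorem L7_disc (t₀ : T) (Θ : T → Adm S.Y S.Y)
    (hc : Continuous fun p : T × S.Y => (Θ p.1).φ p.2) {K : Set S.Y} (hK : IsCompact K) :
    ∃ A ∈ 𝓝 t₀, ∀ q ∈ K, ∃ N, S.IsDisc N ∧ ∀ᶠ q' in 𝓝 q, ∀ t ∈ A, (Θ t).φ q' ∈ N := by
  refine hK.induction_on (p := fun s => ∃ A ∈ 𝓝 t₀, ∀ q ∈ s, ∃ N, S.IsDisc N ∧
    ∀ᶠ q' in 𝓝 q, ∀ t ∈ A, (Θ t).φ q' ∈ N) ⟨univ, univ_mem, fun q hq => hq.elim⟩ ?_ ?_ ?_
  · rintro s s' hs ⟨A, hA, h⟩
    exact ⟨A, hA, fun q hq => h q (hs hq)⟩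
  · rintro s s' ⟨A, hA, h⟩ ⟨A', hA', h'⟩
    refine ⟨A ∩ A', inter_mem hA hA', fun q hq => ?_⟩
    rcases hq with hq | hq
    · obtain ⟨N, h1, h2⟩ := h q hq
      exact ⟨N, h1, h2.mono fun q' h3 t ht => h3 t ht.1⟩
    · obtain ⟨N, h1, h2⟩ := h' q hq
      exact ⟨N, h1, h2.mono fun q' h3 t ht => h3 t ht.2⟩
  · intro x _
    obtain ⟨N, h1, h2, -⟩ := S.exists_disc (q := (Θ t₀).φ x) univ_mem
    have h3 := hc.continuousAt (x := (t₀, x)) ((IsDisc.isOpen S h1).mem_nhds h2)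
    rw [mem_map, mem_nhds_prod_iff] at h3
    obtain ⟨A, hA, V, hV, h4⟩ := h3
    refine ⟨interior V, mem_nhdsWithin_of_mem_nhds (interior_mem_nhds.2 hV), A, hA,
      fun q hq => ⟨N, h1, ?_⟩⟩
    filter_upwards [mem_interior_iff_mem_nhds.1 hq] with q' hq' t ht
    exact h4 (mk_mem_prod ht hq')

theorem exists_small [LocallyConnectedSpace T] (t₀ : T) (Θ : T → Adm S.Y S.Y)
    (hc : Continuous fun p : T × S.Y => (Θ p.1).φ p.2)
    (hc' : Continuous fun p : T × S.Y => (Θ p.1).φ.symm p.2) (h0 : ∀ q, (Θ t₀).φ q = q)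
    (hK : ∃ K, IsCompact K ∧ ∀ t q, q ∉ K → (Θ t).φ q ∉ K → d2 (Θ t).φ q = 0) :
    ∃ T' ∈ 𝓝 t₀, IsPreconnected T' ∧ S.Small Θ T' := by
  obtain ⟨K, hK, hd⟩ := hK
  obtain ⟨r₁, h1, h1', hK1⟩ := S.subset_core hK
  have hC : IsCompact (S.core r₁) := S.e_compact r₁ h1
  obtain ⟨r₃, h3, -, hK3⟩ := S.subset_core hC
  obtain ⟨R, hR, hR1, hR3⟩ : ∃ R : ℝ, 0 < R ∧ R ≤ r₁ ∧ R ≤ r₃ :=
    ⟨min r₁ r₃, lt_min h1 h3, min_le_left _ _, min_le_right _ _⟩
  have h0' : ∀ q, (Θ t₀).φ.symm q = q := fun q => by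
    conv_lhs => rw [← h0 q]
    exact (Θ t₀).φ.symm_apply_apply q
  have e1 : ∀ᶠ t in 𝓝 t₀, ∀ q ∈ S.core r₁, (Θ t).φ.symm q ∈ interior (S.core r₃) :=
    hC.eventually_forall_of_forall_eventually
      (P := fun t q => (Θ t).φ.symm q ∈ interior (S.core r₃)) fun q hq =>
      hc'.continuousAt (x := (t₀, q)) (isOpen_interior.mem_nhds (by
        show (Θ t₀).φ.symm q ∈ _
        rw [h0']; exact hK3 hq))
  have e2 : ∀ᶠ t in 𝓝 t₀, ∀ i, ∀ w ∈ sphere (0 : ℂ) (R / 2),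
      ‖S.e i ((Θ t).φ ((S.e i).symm w)) - w‖ ≤ R / 2 / 2 := by
    refine eventually_all.2 fun i => (isCompact_sphere _ _).eventually_forall_of_forall_eventually
      (P := fun t w => ‖S.e i ((Θ t).φ ((S.e i).symm w)) - w‖ ≤ R / 2 / 2) fun w hw => ?_
    have hw' : ‖w‖ = R / 2 := by simpa using hw
    have ht : w ∈ (S.e i).target :=
      S.L7_tgt (fun h => by rw [h, norm_zero] at hw'; linarith) (by linarith)
    have c1 : ContinuousAt (fun p : T × ℂ => (p.1, (S.e i).symm p.2)) (t₀, w) :=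
      continuousAt_fst.prodMk (ContinuousAt.comp ((S.e i).continuousAt_symm ht) continuousAt_snd)
    have c2 : ContinuousAt (fun p : T × ℂ => (Θ p.1).φ ((S.e i).symm p.2)) (t₀, w) :=
      ContinuousAt.comp (f := fun p : T × ℂ => (p.1, (S.e i).symm p.2)) hc.continuousAt c1
    have c3 : ContinuousAt (fun p : T × ℂ => S.e i ((Θ p.1).φ ((S.e i).symm p.2))) (t₀, w) :=
      ContinuousAt.comp (f := fun p : T × ℂ => (Θ p.1).φ ((S.e i).symm p.2))
        ((S.e i).continuousAt (by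
          show (Θ t₀).φ _ ∈ _
          rw [h0]; exact (S.e i).map_target ht)) c2
    have c4 := (c3.sub continuousAt_snd).norm
    refine (c4.eventually (p := fun y => y < R / 2 / 2) (gt_mem_nhds ?_)).mono
      fun p hp => le_of_lt hp
    show ‖S.e i ((Θ t₀).φ _) - w‖ < _
    rw [h0, (S.e i).right_inv ht, sub_self, norm_zero]
    linarith
  obtain ⟨A, hA, e3⟩ := S.L7_disc t₀ Θ hc (S.e_compact (R / 2) (by linarith))
  obtain ⟨T', hT', hT1, hT2⟩ := locallyConnectedSpace_iff_connected_subsets.1 inferInstance t₀ _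
    (inter_mem (inter_mem e1 e2) hA)
  have ht₀ : t₀ ∈ T' := mem_of_mem_nhds hT'
  have k1 : ∀ i, ∀ t ∈ T', ∀ q ∈ S.End i R, (Θ t).φ q ∈ S.End i r₁ := by
    intro i t ht q hq
    have c : Continuous fun t => (Θ t).φ q := hc.comp (Continuous.prodMk_left q)
    have c' : IsPreconnected ((fun t => (Θ t).φ q) '' T') := hT1.image _ c.continuousOn
    have c'' : ((fun t => (Θ t).φ q) '' T' ∩ S.End i r₁).Nonempty :=
      ⟨q, ⟨t₀, ht₀, h0 q⟩, hq.1, hq.2.trans_le hR1⟩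
    refine c'.subset_left_of_subset_union (S.isOpen_End i r₁)
      (isOpen_iUnion fun j => isOpen_iUnion fun _ : j ≠ i => S.isOpen_End j r₁) ?_ ?_
      c'' (mem_image_of_mem _ ht)
    · rw [Set.disjoint_left]
      intro x hx hx'
      simp only [mem_iUnion] at hx'
      obtain ⟨j, hj, hx'⟩ := hx'
      exact hj (S.L7_eq hx'.1 hx.1)
    · rintro _ ⟨s, hs, rfl⟩
      have h5 : (Θ s).φ q ∉ S.core r₁ := fun h => by
        have h6 := (hT2 hs).1.1 _ h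
        rw [(Θ s).φ.symm_apply_apply] at h6
        exact absurd (hq.2.trans_le hR3) (not_lt.2 (interior_subset h6 i hq.1))
      obtain ⟨j, hj⟩ := S.L7_not_core.1 h5
      by_cases hji : j = i
      · exact Or.inl (hji ▸ hj)
      · exact Or.inr (mem_iUnion₂.2 ⟨j, hji, hj⟩)
  have k2 : ∀ i, ∀ t ∈ T', ∀ q ∈ S.End i (R / 2), (Θ t).φ q ∈ (S.e i).source ∧
      ‖S.e i ((Θ t).φ q) - S.e i q‖ ≤ ‖S.e i q‖ / 2 := by
    intro i t ht q hq
    refine ⟨(k1 i t ht q ⟨hq.1, by linarith [hq.2]⟩).1, S.L7_one (Θ t) i (R := R) (by linarith)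
      (by linarith) (by linarith) (fun x hx => ⟨(k1 i t ht x hx).1, hd t x ?_ ?_⟩)
      ((hT2 ht).1.2 i) hq⟩
    · exact fun h => S.L7_not_core.2 ⟨i, hx.1, hx.2.trans_le hR1⟩ (interior_subset (hK1 h))
    · exact fun h => S.L7_not_core.2 ⟨i, k1 i t ht x hx⟩ (interior_subset (hK1 h))
  refine ⟨T', hT', hT1, fun q => ?_, R / 2, by linarith, k2⟩
  by_cases hq : q ∈ S.core (R / 2)
  · obtain ⟨N, h5, h6⟩ := e3 q hq
    exact ⟨N, h5, h6.mono fun q' h7 t ht => h7 t (hT2 ht).2⟩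
  · obtain ⟨i, hi⟩ := S.L7_not_core.1 hq
    have hp : 0 < ‖S.e i q‖ := norm_pos_iff.2 (S.L7_ne hi.1)
    refine ⟨_, ⟨S.e i, S.e i q, 3 / 4 * ‖S.e i q‖, S.e_hol i, fun z hz => ?_, rfl⟩, ?_⟩
    · rw [mem_ball, dist_eq_norm] at hz
      refine S.L7_tgt (fun h => ?_) ?_
      · rw [h, zero_sub, norm_neg] at hz
        linarith
      · have := norm_le_insert' z (S.e i q)
        linarith [hi.2]
    · have h5 : ∀ᶠ q' in 𝓝 q, S.e i q' ∈ ball (S.e i q) (‖S.e i q‖ / 8) :=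
        (S.e i).continuousAt hi.1 (ball_mem_nhds _ (by linarith))
      filter_upwards [h5, (S.isOpen_End i (R / 2)).mem_nhds hi] with q' h6 h7 t ht
      obtain ⟨h8, h9⟩ := k2 i t ht q' h7
      refine ⟨h8, ?_⟩
      rw [mem_ball, dist_eq_norm] at h6
      rw [mem_preimage, mem_ball, dist_eq_norm]
      have h10 := norm_le_insert' (S.e i q') (S.e i q)
      have h11 := norm_sub_le_norm_sub_add_norm_sub (S.e i ((Θ t).φ q')) (S.e i q') (S.e i q)
      linarith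

end Flat

end Pool.Agent.MP_e62289_ag
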