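import Pool.Agent.MP_e62289_ag.L3
import Pool.Agent.MP_e62289_ag.L7
import Pool.Agent.MP_e62289_ag.Cx2

open Set Filter Topology Complex MeasureTheory Metric
open scoped Manifold ContDiff ComplexConjugate NNReal ENNReal

namespace Pool.Agent.MP_e62289_ag

namespace Flat

variable {n : ℕ} (S : Flat n) {T : Type} [TopologicalSpace T]

theorem l8a_preconn {N : Set S.Y} (hN : S.IsDisc N) : IsPreconnected N := by
  obtain ⟨φ, c, ρ, -, hb, rfl⟩ := hN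
  have e : φ.source ∩ φ ⁻¹' ball c ρ = φ.symm '' ball c ρ := by
    ext x
    constructor
    · intro hx
      exact ⟨φ x, hx.2, φ.left_inv hx.1⟩
    · rintro ⟨z, hz, rfl⟩
      refine ⟨φ.map_target (hb hz), ?_⟩
      rw [mem_preimage, φ.right_inv (hb hz)]
      exact hz
  rw [e]
  exact (convex_ball c ρ).isPreconnected.image _ (φ.continuousOn_symm.mono hb)

theorem l8a_sign {P : Set S.Y} (hP : IsPreconnected P) {ρ ρ' : S.Y → ℂ}
    (hρ : ∀ q ∈ P, HolAt ρ q ∧ ρ q ^ 2 = S.f q) (hρ' : ∀ q ∈ P, HolAt ρ' q ∧ ρ' q ^ 2 = S.f q) :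
    ∃ ε : ℂ, ε ≠ 0 ∧ ∀ q ∈ P, ρ q = ε * ρ' q := by
  have h := hP.eq_or_eq_neg_of_sq_eq (f := ρ) (g := ρ')
    (fun q hq => (hρ q hq).1.continuousAt.continuousWithinAt)
    (fun q hq => (hρ' q hq).1.continuousAt.continuousWithinAt)
    (fun q hq => by simp only [Pi.pow_apply, (hρ q hq).2, (hρ' q hq).2])
    (fun {q} hq h0 => S.f_ne q (by rw [← (hρ' q hq).2, h0]; simp))
  rcases h with h | h
  · exact ⟨1, one_ne_zero, fun q hq => by rw [h hq, one_mul]⟩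
  · exact ⟨-1, by simp, fun q hq => by rw [h hq]; simp⟩

/-- a connected set on which two local roots and primitives are defined -/
theorem consist {N N' P : Set S.Y} (hN : IsOpen N) (hN' : IsOpen N') (hP : IsPreconnected P)
    (h1 : P ⊆ N) (h2 : P ⊆ N') {A ρ ρ' Ξ Ξ' : S.Y → ℂ}
    (hρ : ∀ q ∈ N, HolAt ρ q ∧ ρ q ^ 2 = S.f q) (hρ' : ∀ q ∈ N', HolAt ρ' q ∧ ρ' q ^ 2 = S.f q)
    (hΞ : ∀ q ∈ N, HolAt Ξ q ∧ d1 Ξ q = A q * ρ q)
    (hΞ' : ∀ q ∈ N', HolAt Ξ' q ∧ d1 Ξ' q = A q * ρ' q) {x y : S.Y} (hx : x ∈ P) (hy : y ∈ P) :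
    ρ y / ρ x = ρ' y / ρ' x ∧ (Ξ y - Ξ x) / ρ x = (Ξ' y - Ξ' x) / ρ' x := by
  have hne : ∀ q ∈ N', ρ' q ≠ 0 := fun q hq h0 =>
    S.f_ne q (by rw [← (hρ' q hq).2, h0]; simp)
  obtain ⟨ε, hε, he⟩ := S.l8a_sign hP (fun q hq => hρ q (h1 hq)) (fun q hq => hρ' q (h2 hq))
  have key : Ξ x - ε * Ξ' x = Ξ y - ε * Ξ' y := by
    refine hP.induction₂' (fun a b => Ξ a - ε * Ξ' a = Ξ b - ε * Ξ' b) ?_
      (fun _ _ _ _ _ _ h h' => h.trans h') hx hy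
    intro p hp
    obtain ⟨D, hD, hpD, hDs⟩ := S.exists_disc
      (inter_mem (hN.mem_nhds (h1 hp)) (hN'.mem_nhds (h2 hp)))
    obtain ⟨δ, -, hd⟩ := S.l8a_sign (S.l8a_preconn hD) (fun q hq => hρ q (hDs hq).1)
      (fun q hq => hρ' q (hDs hq).2)
    have hδ : δ = ε := mul_right_cancel₀ (hne p (h2 hp)) ((hd p hpD).symm.trans (he p hp))
    subst hδ
    obtain ⟨c, hc⟩ := S.l1c_const (u := fun z => Ξ z - δ * Ξ' z) hD (fun q hq => by
      have a := hΞ q (hDs hq).1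
      have b := hΞ' q (hDs hq).2
      have hm : HolAt (fun z => δ * Ξ' z) q ∧ d1 (fun z => δ * Ξ' z) q = δ * d1 Ξ' q :=
        S.l1c_comp (g := fun w => δ * w) (by simpa using (hasDerivAt_id (Ξ' q)).const_mul δ) b.1
      have ra := d2_of_hol a.1
      have rb := d2_of_hol hm.1
      refine ⟨hol_of_d2 (ra.1.sub rb.1) ?_, ?_⟩
      · rw [(d_sub ra.1 rb.1).2, ra.2, rb.2, sub_zero]
      · rw [(d_sub ra.1 rb.1).1, hm.2, a.2, b.2, hd q hq]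
        ring)
    refine mem_nhdsWithin_of_mem_nhds ?_
    filter_upwards [(IsDisc.isOpen S hD).mem_nhds hpD] with z hz
    rw [hc p hpD, hc z hz]
    exact ⟨rfl, rfl⟩
  have hx0 := hne x (h2 hx)
  rw [he x hx, he y hy]
  refine ⟨by field_simp, ?_⟩
  have : Ξ y - Ξ x = ε * (Ξ' y - Ξ' x) := by linear_combination -key
  rw [this]
  field_simp

end Flat

end Pool.Agent.MP_e62289_ag
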