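import Pool.Agent.MP_e62289_ag.L3
import Pool.Agent.MP_e62289_ag.L7
import Pool.Agent.MP_e62289_ag.Cx2
import Pool.Agent.MP_e62289_ag.L8a

open Set Filter Topology Complex MeasureTheory Metric
open scoped Manifold ContDiff ComplexConjugate NNReal ENNReal

namespace Pool.Agent.MP_e62289_ag

namespace Flat

variable {n : ℕ} (S : Flat n) {T : Type} [TopologicalSpace T]

theorem L8b_mul {u v : S.Y → ℂ} {q : S.Y} (hu : CkAt 2 u q) (hv : CkAt 2 v q) :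
    CkAt 2 (fun x => u x * v x) q :=
  (contDiff_mul (𝕜 := ℝ) (𝔸 := ℂ) (n := 2)).contDiffAt.comp_contMDiffAt (hu.prodMk_space hv)

theorem L8b_sub {u v : S.Y → ℂ} {q : S.Y} (hu : CkAt 2 u q) (hv : CkAt 2 v q) :
    CkAt 2 (fun x => u x - v x) q := hu.sub hv

theorem L8b_inv {u : S.Y → ℂ} {q : S.Y} (hu : CkAt 2 u q) (h : u q ≠ 0) :
    CkAt 2 (fun x => (u x)⁻¹) q :=
  (contDiffAt_inv ℝ h).comp_contMDiffAt hu

theorem L8b_ne {N : Set S.Y} {ρ : S.Y → ℂ} (hρ : ∀ q ∈ N, HolAt ρ q ∧ ρ q ^ 2 = S.f q)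
    {q : S.Y} (hq : q ∈ N) : ρ q ≠ 0 := by
  intro h
  have := (hρ q hq).2
  rw [h] at this
  exact S.f_ne q (by simpa using this.symm)

theorem L8b_ck {N : Set S.Y} (hN : IsOpen N) {u : S.Y → ℂ} (hu : ∀ q ∈ N, HolAt u q)
    {q : S.Y} (hq : q ∈ N) : CkAt 2 u q :=
  ckAt_of_hol (Filter.eventually_of_mem (hN.mem_nhds hq) hu) 2

theorem L8b_local {N : Set S.Y} (hN : IsOpen N) {A ρ Ξ : S.Y → ℂ}
    (hρ : ∀ q ∈ N, HolAt ρ q ∧ ρ q ^ 2 = S.f q) (hΞ : ∀ q ∈ N, HolAt Ξ q ∧ d1 Ξ q = A q * ρ q)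
    (G : Adm S.Y S.Y) {q : S.Y} (hq : q ∈ N) (hG : G.φ q ∈ N) :
    CkAt 2 (fun x => ρ (G.φ x) / ρ x) q ∧ CkAt 2 (fun x => (Ξ (G.φ x) - Ξ x) / ρ x) q ∧
    S.D1 (fun x => (Ξ (G.φ x) - Ξ x) / ρ x) q =
      ρ (G.φ q) / ρ q * (A (G.φ q) * d1 G.φ q) - A q ∧
    d2 (fun x => (Ξ (G.φ x) - Ξ x) / ρ x) q = ρ (G.φ q) / ρ q * (A (G.φ q) * d2 G.φ q) := by
  have hne := S.L8b_ne hρ hq
  have c1 : CkAt 2 ρ q := S.L8b_ck hN (fun x hx => (hρ x hx).1) hq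
  have c2 : CkAt 2 Ξ q := S.L8b_ck hN (fun x hx => (hΞ x hx).1) hq
  have c3 : CkAt 2 (fun x => ρ (G.φ x)) q :=
    (S.L8b_ck hN (fun x hx => (hρ x hx).1) hG).comp q G.φ.contMDiff.contMDiffAt
  have c4 : CkAt 2 (fun x => Ξ (G.φ x)) q :=
    (S.L8b_ck hN (fun x hx => (hΞ x hx).1) hG).comp q G.φ.contMDiff.contMDiffAt
  have c5 := S.L8b_inv c1 hne
  have c6 := S.L8b_sub c4 c2
  have r1 : RDiffAt ρ q := c1.mdifferentiableAt (by simp)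
  have r2 : RDiffAt Ξ q := c2.mdifferentiableAt (by simp)
  have r4 : RDiffAt (fun x => Ξ (G.φ x)) q := c4.mdifferentiableAt (by simp)
  have r6 : RDiffAt (fun x => Ξ (G.φ x) - Ξ x) q := c6.mdifferentiableAt (by simp)
  obtain ⟨r5, e1, e2⟩ := d_hol_comp (u := ρ) (q := q) (hasDerivAt_inv hne) r1
  obtain ⟨m1, m2⟩ := d_mul r6 r5
  obtain ⟨s1, s2⟩ := d_sub r4 r2
  obtain ⟨g1, g2⟩ := d_comp (d2_of_hol (hΞ _ hG).1).1 (G.md q)
  have g1' : d1 (fun x => Ξ (G.φ x)) q = A (G.φ q) * ρ (G.φ q) * d1 G.φ q := by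
    rw [(d2_of_hol (hΞ _ hG).1).2, (hΞ _ hG).2, zero_mul, add_zero] at g1
    exact g1
  have g2' : d2 (fun x => Ξ (G.φ x)) q = A (G.φ q) * ρ (G.φ q) * d2 G.φ q := by
    rw [(d2_of_hol (hΞ _ hG).1).2, (hΞ _ hG).2, zero_mul, add_zero] at g2
    exact g2
  have hf : d1 S.f q = d1 ρ q * ρ q + ρ q * d1 ρ q := by
    rw [← (d_mul r1 r1).1]
    refine (d_congr ?_).1
    filter_upwards [hN.mem_nhds hq] with x hx
    rw [← (hρ x hx).2, sq]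
  simp only [div_eq_mul_inv]
  refine ⟨S.L8b_mul c3 c5, S.L8b_mul c6 c5, ?_, ?_⟩
  · rw [D1, m1, e1, s1, g1', (hΞ q hq).2, hf, ← (hρ q hq).2]
    field_simp
    ring
  · rw [m2, e2, s2, g2', (d2_of_hol (hΞ q hq).1).2, (d2_of_hol (hρ q hq).1).2]
    ring

theorem L8b_small (i : Fin n) {A : S.Y → ℂ} (hm : MemLp A 2 S.lamf) {ε : ℝ}
    (hε : 0 < ε) : ∃ r : ℝ, 0 < r ∧
      ∫⁻ q in S.End i r, ‖S.f q‖ₑ * ‖A q‖ₑ ^ 2 ∂S.lam ≤ ENNReal.ofReal ε := by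
  have hfin : ∫⁻ q, ‖S.f q‖ₑ * ‖A q‖ₑ ^ 2 ∂S.lam ≠ ⊤ := by
    rw [← S.lintegral_lamf]
    have := lintegral_rpow_enorm_lt_top_of_eLpNorm_lt_top two_ne_zero ENNReal.ofNat_ne_top hm.2
    simpa using this.ne
  set ν : Measure S.Y := S.lam.withDensity fun q => ‖S.f q‖ₑ * ‖A q‖ₑ ^ 2 with hν
  have hap : ∀ r, ν (S.End i r) = ∫⁻ q in S.End i r, ‖S.f q‖ₑ * ‖A q‖ₑ ^ 2 ∂S.lam := fun r =>
    withDensity_apply _ (S.isOpen_End i r).measurableSet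
  have : IsFiniteMeasure ν := isFiniteMeasure_withDensity hfin
  have ht := tendsto_measure_iInter_atTop (μ := ν) (s := fun m : ℕ => S.End i (1 / ((m : ℝ) + 1)))
    (fun m => (S.isOpen_End i _).measurableSet.nullMeasurableSet)
    (fun a b hab q hq => ⟨hq.1, hq.2.trans_le (Nat.one_div_le_one_div hab)⟩)
    ⟨0, measure_ne_top _ _⟩
  have he : ⋂ m : ℕ, S.End i (1 / ((m : ℝ) + 1)) = ∅ := by
    refine eq_empty_of_forall_notMem fun q hq => ?_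
    rw [mem_iInter] at hq
    have h0 : S.e i q ≠ 0 := by
      have := (S.e i).map_source (hq 0).1
      rw [S.e_target] at this
      exact this.2
    obtain ⟨m, hm⟩ := exists_nat_one_div_lt (norm_pos_iff.2 h0)
    exact lt_asymm hm (hq m).2
  rw [he, measure_empty] at ht
  obtain ⟨m, hm⟩ := (ht.eventually (ge_mem_nhds (ENNReal.ofReal_pos.2 hε))).exists
  exact ⟨1 / ((m : ℝ) + 1), Nat.one_div_pos_of_nat, (hap _).symm.trans_le hm⟩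

theorem L8b_end (i : Fin n) {r ε : ℝ} (hr : r ≤ 1) (hε : 0 ≤ ε) {A ρ Ξ : S.Y → ℂ}
    (hI : ∫⁻ q in S.End i r, ‖S.f q‖ₑ * ‖A q‖ₑ ^ 2 ∂S.lam ≤ ENNReal.ofReal (ε ^ 2))
    {x y : S.Y} (hx : x ∈ S.End i (r / 2)) (hy : y ∈ (S.e i).source)
    (hxy : ‖S.e i y - S.e i x‖ ≤ ‖S.e i x‖ / 2)
    (hρ : ∀ q ∈ (S.e i).source ∩ S.e i ⁻¹' ball (S.e i x) (3 / 4 * ‖S.e i x‖),
      HolAt ρ q ∧ ρ q ^ 2 = S.f q)
    (hΞ : ∀ q ∈ (S.e i).source ∩ S.e i ⁻¹' ball (S.e i x) (3 / 4 * ‖S.e i x‖),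
      HolAt Ξ q ∧ d1 Ξ q = A q * ρ q) : ‖Ξ y - Ξ x‖ ≤ 2 * ε := by
  set w := S.e i x with hw
  have hw0 : 0 < ‖w‖ := by
    have := (S.e i).map_source hx.1
    rw [S.e_target] at this
    exact norm_pos_iff.2 this.2
  have hwr : ‖w‖ < r / 2 := hx.2
  have hb : ∀ z ∈ ball w (3 / 4 * ‖w‖), ‖z‖ < r ∧ z ≠ 0 := by
    intro z hz
    rw [mem_ball_iff_norm] at hz
    constructor
    · have := norm_add_le w (z - w)
      rw [add_sub_cancel] at this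
      linarith
    · rintro rfl
      rw [zero_sub, norm_neg] at hz
      linarith
  have hb' : ball w (3 / 4 * ‖w‖) ⊆ ball 0 1 \ {0} := fun z hz =>
    ⟨mem_ball_zero_iff.2 ((hb z hz).1.trans_le hr), (hb z hz).2⟩
  have hd : ∀ q ∈ (S.e i).source, S.e i q ∈ ball w (3 / 4 * ‖w‖) →
      HasDerivAt (Ξ ∘ (S.e i).symm) (A q * ρ q / d1 (S.e i) q) (S.e i q) := by
    intro q hq hq'
    rw [← (hΞ q ⟨hq, hq'⟩).2]
    exact hasDerivAt_coord (S.e_hol i) hq (hΞ q ⟨hq, hq'⟩).1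
  have hD : DifferentiableOn ℂ (Ξ ∘ (S.e i).symm) (ball w (3 / 4 * ‖w‖)) := by
    intro z hz
    have hz' : z ∈ (S.e i).target := by rw [S.e_target]; exact hb' hz
    have := hd _ ((S.e i).map_target hz') (by rw [(S.e i).right_inv hz']; exact hz)
    rw [(S.e i).right_inv hz'] at this
    exact this.differentiableAt.differentiableWithinAt
  have hD' := hD.deriv isOpen_ball
  have hbd : ∀ z ∈ closedBall w (‖w‖ / 2), ‖deriv (Ξ ∘ (S.e i).symm) z‖ ≤ 4 * ε / ‖w‖ := by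
    intro z hz
    have hs : ball z (‖w‖ / 4) ⊆ ball w (3 / 4 * ‖w‖) :=
      ball_subset_ball' (by rw [mem_closedBall] at hz; linarith)
    have h1 := mean_l2 (by positivity) (hD'.mono hs)
    rw [← S.lintegral_end i measurableSet_ball (hs.trans hb')] at h1
    have hO : IsOpen ((S.e i).source ∩ S.e i ⁻¹' ball z (‖w‖ / 4)) :=
      (S.e i).isOpen_inter_preimage isOpen_ball
    have h2 : ∫⁻ q in (S.e i).source ∩ S.e i ⁻¹' ball z (‖w‖ / 4),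
        ‖d1 (S.e i) q‖ₑ ^ 2 * ‖deriv (Ξ ∘ (S.e i).symm) (S.e i q)‖ₑ ^ 2 ∂S.lam =
        ∫⁻ q in (S.e i).source ∩ S.e i ⁻¹' ball z (‖w‖ / 4), ‖S.f q‖ₑ * ‖A q‖ₑ ^ 2 ∂S.lam := by
      refine setLIntegral_congr_fun hO.measurableSet fun q hq => ?_
      have h3 := ((coord_hol (S.e_hol i)).1 q hq.1).2
      rw [(hd q hq.1 (hs hq.2)).deriv, ← (hρ q ⟨hq.1, hs hq.2⟩).2, ← mul_pow, ← enorm_mul,
        mul_div_cancel₀ _ h3, enorm_mul, enorm_pow, mul_pow, mul_comm]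
    have h4 : (S.e i).source ∩ S.e i ⁻¹' ball z (‖w‖ / 4) ⊆ S.End i r := fun q hq =>
      ⟨hq.1, (hb _ (hs hq.2)).1⟩
    have h5 := h1.trans (h2.trans_le ((lintegral_mono_set h4).trans hI))
    rw [← ofReal_norm, ← ENNReal.ofReal_pow (norm_nonneg _),
      ← ENNReal.ofReal_mul (by positivity), ENNReal.ofReal_le_ofReal_iff (by positivity)] at h5
    rw [le_div_iff₀ hw0]
    refine le_of_sq_le_sq (h := ?_) (by positivity)
    have h6 := Real.pi_gt_three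
    have h7 : 0 ≤ (‖deriv (Ξ ∘ (S.e i).symm) z‖ * ‖w‖) ^ 2 := by positivity
    nlinarith
  have hcb : closedBall w (‖w‖ / 2) ⊆ ball w (3 / 4 * ‖w‖) :=
    closedBall_subset_ball (by linarith)
  have key := (convex_closedBall w (‖w‖ / 2)).norm_image_sub_le_of_norm_deriv_le
    (fun z hz => hD.differentiableAt (isOpen_ball.mem_nhds (hcb hz))) hbd
    (mem_closedBall_self (by positivity)) (mem_closedBall_iff_norm.2 hxy)
  have e1 : (Ξ ∘ (S.e i).symm) (S.e i y) = Ξ y := congrArg Ξ ((S.e i).left_inv hy)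
  have e2 : (Ξ ∘ (S.e i).symm) w = Ξ x := congrArg Ξ ((S.e i).left_inv hx.1)
  rw [e1, e2] at key
  refine key.trans ((mul_le_mul_of_nonneg_left hxy (by positivity)).trans_eq ?_)
  field_simp
  ring

/-- the pull back of a holomorphic form by a small map differs from it by an exact form -/
theorem exists_prim {Θ : T → Adm S.Y S.Y} {T' : Set T} (hT : IsPreconnected T') {t₀ t : T}
    (ht₀ : t₀ ∈ T') (ht : t ∈ T') (hc : Continuous fun p : T × S.Y => (Θ p.1).φ p.2)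
    (h0 : ∀ q, (Θ t₀).φ q = q) (hs : S.Small Θ T') :
    ∃ k : S.Y → ℂ, Ck 2 k ∧ (∀ q, k q ^ 2 * S.f q = S.f ((Θ t).φ q)) ∧
      ∀ A : S.Y → ℂ, Hol A → MemLp A 2 S.lamf → ∃ κ : S.Y → ℂ, Ck 2 κ ∧
        (∀ q, S.D1 κ q = k q * (A ((Θ t).φ q) * d1 (Θ t).φ q) - A q ∧
          d2 κ q = k q * (A ((Θ t).φ q) * d2 (Θ t).φ q)) ∧
        ∀ i, Tendsto (fun q => ‖κ q‖ ^ 2 * ‖S.f q‖) (S.endF i) (𝓝 0) := by
  obtain ⟨hs1, r₀, hr₀, hs2⟩ := hs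
  choose N hN hNe using hs1
  choose ρ hρ using fun q => IsDisc.sqrt S (hN q)
  have hO := fun q => IsDisc.isOpen S (hN q)
  set P : S.Y → Set S.Y := fun q => (fun s => (Θ s).φ q) '' T' with hP
  have hPc : ∀ q, IsPreconnected (P q) := fun q =>
    hT.image _ (hc.comp (Continuous.prodMk_left q)).continuousOn
  have hP0 : ∀ q, q ∈ P q := fun q => ⟨t₀, ht₀, h0 q⟩
  have hP1 : ∀ q, (Θ t).φ q ∈ P q := fun q => ⟨t, ht, rfl⟩
  have hPN : ∀ q, ∀ᶠ x in 𝓝 q, P x ⊆ N q := fun q =>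
    (hNe q).mono fun x hx => by
      rintro _ ⟨s, hs, rfl⟩
      exact hx s hs
  have hPs : ∀ q, P q ⊆ N q := fun q => (hPN q).self_of_nhds
  have hz : ∀ q, ∀ x ∈ N q, HolAt (fun _ : S.Y => (0 : ℂ)) x ∧
      d1 (fun _ : S.Y => (0 : ℂ)) x = (fun _ : S.Y => (0 : ℂ)) x * ρ q x := fun q x _ =>
    ⟨mdifferentiableAt_const, by rw [(d_const 0 x).1, zero_mul]⟩
  refine ⟨fun q => ρ q ((Θ t).φ q) / ρ q q, fun q => ?_, fun q => ?_, fun A hA hm => ?_⟩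
  · refine (S.L8b_local (hO q) (hρ q) (hz q) (Θ t) (hPs q (hP0 q))
      (hPs q (hP1 q))).1.congr_of_eventuallyEq ?_
    filter_upwards [hPN q] with x hx
    exact (S.consist (hO x) (hO q) (hPc x) (hPs x) hx (hρ x) (hρ q) (hz x) (hz q) (hP0 x)
      (hP1 x)).1
  · have h1 := S.L8b_ne (hρ q) (hPs q (hP0 q))
    rw [← (hρ q q (hPs q (hP0 q))).2, ← (hρ q _ (hPs q (hP1 q))).2]
    field_simp
  choose Ξ hΞ using fun q => IsDisc.prim S (u := fun x => A x * ρ q x) (hN q)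
    fun x hx => (hA x).mul (hρ q x hx).1
  have hev : ∀ q, (fun x => (Ξ x ((Θ t).φ x) - Ξ x x) / ρ x x) =ᶠ[𝓝 q]
      fun x => (Ξ q ((Θ t).φ x) - Ξ q x) / ρ q x := fun q => by
    filter_upwards [hPN q] with x hx
    exact (S.consist (hO x) (hO q) (hPc x) (hPs x) hx (hρ x) (hρ q) (hΞ x) (hΞ q) (hP0 x)
      (hP1 x)).2
  have hl := fun q => (S.L8b_local (hO q) (hρ q) (hΞ q) (Θ t) (hPs q (hP0 q)) (hPs q (hP1 q))).2
  refine ⟨fun x => (Ξ x ((Θ t).φ x) - Ξ x x) / ρ x x,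
    fun q => (hl q).1.congr_of_eventuallyEq (hev q), fun q => ⟨?_, ?_⟩, fun i => ?_⟩
  · rw [← (hl q).2.1, D1, D1, (d_congr (hev q)).1]
  · rw [← (hl q).2.2, (d_congr (hev q)).2]
  rw [Metric.tendsto_nhds]
  intro ε hε
  obtain ⟨r, hr, hI⟩ := S.L8b_small i hm (ε := (√ε / 4) ^ 2) (by positivity)
  have hI' : ∫⁻ q in S.End i (min r 1), ‖S.f q‖ₑ * ‖A q‖ₑ ^ 2 ∂S.lam ≤
      ENNReal.ofReal ((√ε / 4) ^ 2) :=
    (lintegral_mono_set (s := S.End i (min r 1)) (t := S.End i r)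
      fun q hq => ⟨hq.1, hq.2.trans_le (min_le_left _ _)⟩).trans hI
  refine (S.hasBasis_endF i).eventually_iff.2 ⟨min r₀ (min r 1 / 2), by positivity,
    fun q hq => ?_⟩
  have hq0 : q ∈ S.End i r₀ := ⟨hq.1, hq.2.trans_le (min_le_left _ _)⟩
  have hq1 : q ∈ S.End i (min r 1 / 2) := ⟨hq.1, hq.2.trans_le (min_le_right _ _)⟩
  have hw0 : 0 < ‖S.e i q‖ := by
    have := (S.e i).map_source hq.1
    rw [S.e_target] at this
    exact norm_pos_iff.2 this.2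
  have hM : S.IsDisc ((S.e i).source ∩ S.e i ⁻¹' ball (S.e i q) (3 / 4 * ‖S.e i q‖)) := by
    refine ⟨S.e i, _, _, S.e_hol i, fun z hz => ?_, rfl⟩
    rw [S.e_target]
    rw [mem_ball_iff_norm] at hz
    refine ⟨mem_ball_zero_iff.2 ?_, ?_⟩
    · have := norm_add_le (S.e i q) (z - S.e i q)
      rw [add_sub_cancel] at this
      have h2 := hq1.2
      have h3 := min_le_right r 1
      linarith
    · rintro rfl
      rw [zero_sub, norm_neg] at hz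
      linarith
  obtain ⟨ρ', hρ'⟩ := IsDisc.sqrt S hM
  obtain ⟨Ξ', hΞ'⟩ := IsDisc.prim S (u := fun x => A x * ρ' x) hM
    fun x hx => (hA x).mul (hρ' x hx).1
  have hPM : P q ⊆ (S.e i).source ∩ S.e i ⁻¹' ball (S.e i q) (3 / 4 * ‖S.e i q‖) := by
    rintro _ ⟨s, hs, rfl⟩
    refine ⟨(hs2 i s hs q hq0).1, mem_ball_iff_norm.2 ((hs2 i s hs q hq0).2.trans_lt ?_)⟩
    linarith
  have h1 := (S.consist (hO q) (IsDisc.isOpen S hM) (hPc q) (hPs q) hPM (hρ q) hρ' (hΞ q) hΞ'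
    (hP0 q) (hP1 q)).2
  have h2 := S.L8b_end i (min_le_right r 1) (by positivity) hI' hq1 (hs2 i t ht q hq0).1
    (hs2 i t ht q hq0).2 hρ' hΞ'
  have h3 := norm_pos_iff.2 (S.L8b_ne hρ' (hPM (hP0 q)))
  beta_reduce
  rw [h1, ← (hρ' q (hPM (hP0 q))).2, norm_div, norm_pow, div_pow,
    div_mul_cancel₀ _ (by positivity), dist_zero_right, norm_pow, norm_norm]
  have h4 := pow_le_pow_left₀ (norm_nonneg _) h2 2
  have h5 := Real.sq_sqrt hε.le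
  nlinarith

end Flat

end Pool.Agent.MP_e62289_ag
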