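import Pool.Agent.MP_e62289_ag.L6
import Pool.Agent.MP_e62289_ag.L8
import Pool.Agent.MP_e62289_ag.L9

open Set Filter Topology Complex MeasureTheory Metric
open scoped Manifold ContDiff ComplexConjugate NNReal ENNReal

namespace Pool.Agent.MP_e62289_ag

namespace Flat

variable {n : ℕ} (S : Flat n) {T : Type} [TopologicalSpace T]

/-- admissible maps close to the identity do not change the period function -/
theorem lc [LocallyConnectedSpace T] (t₀ : T) (Θ : T → Adm S.Y S.Y)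
    (hc : Continuous fun p : T × S.Y => (Θ p.1).φ p.2)
    (hc' : Continuous fun p : T × S.Y => (Θ p.1).φ.symm p.2) (h0 : ∀ q, (Θ t₀).φ q = q)
    (hK : ∃ K, IsCompact K ∧ ∀ t q, q ∉ K → (Θ t).φ q ∉ K → d2 (Θ t).φ q = 0) :
    ∀ᶠ t in 𝓝 t₀, ∀ ξp ∈ S.hd.W, ∀ ξm ∈ S.hd.W, ∀ μ : S.Y → ℂ, Continuous μ →
      (∃ κ : ℝ, κ < 1 ∧ ∀ q, ‖μ q‖ ≤ κ) → S.Hval ξp ξm ((Θ t).act μ) = S.Hval ξp ξm μ := by
  obtain ⟨T', hT', hT, hs⟩ := S.exists_small t₀ Θ hc hc' h0 hK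
  filter_upwards [hT'] with t ht ξp hp ξm hm μ hμ ⟨κ, hκ, hb⟩
  obtain ⟨k, k1, k2, k3⟩ := S.exists_prim hT (mem_of_mem_nhds hT') ht hc h0 hs
  obtain ⟨U, hU⟩ := exists_pull (Θ t) k1.continuous k2
  obtain ⟨a1, ⟨κ', -, hκ', hb'⟩, -⟩ := S.act_bound (Θ t) hμ hκ hb
  refine S.hd.hv_inv hp hm U (fun e he => subset_closure (hU.exact k1 k2 he)) (fun ξ hξ => ?_)
    (hU.conj k2) ((S.norm_mulOp hμ.aestronglyMeasurable hb).trans_lt hκ)
    ((S.norm_mulOp a1.aestronglyMeasurable hb').trans_lt hκ') (hU.graph hμ hκ hb)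
  obtain ⟨A, hA, hAe⟩ := S.weyl hξ
  obtain ⟨κ₁, c1, c2, c3⟩ := k3 A hA ((Lp.memLp ξ).ae_eq hAe)
  have q1 := (S.qmp_adm (Θ t)).ae_eq_comp hAe
  have q2 := (S.qmp_adm (Θ t)).ae_eq_comp (Lp.coeFn_zero ℂ 2 S.lamf)
  refine S.mem_Eb (A := (U (ξ, 0)).1 - ξ) (B := (U (ξ, 0)).2 - 0) c1 ?_ ?_ c3
  · filter_upwards [Lp.coeFn_sub (U (ξ, 0)).1 ξ, (hU ξ 0).1, q1, q2, hAe] with q e1 e2 e3 e4 e5
    simp only [Function.comp_apply, Pi.zero_apply] at e3 e4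
    rw [e1, Pi.sub_apply, e2, e3, e4, e5, (c2 q).1, zero_mul, add_zero]
  · rw [sub_zero]
    filter_upwards [(hU ξ 0).2, q1, q2] with q e2 e3 e4
    simp only [Function.comp_apply, Pi.zero_apply] at e3 e4
    rw [e2, e3, e4, (c2 q).2, zero_mul, add_zero]

end Flat

end Pool.Agent.MP_e62289_ag
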