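import Pool.Agent.MP_e62289_ag.W

open Set Filter Topology Complex MeasureTheory Metric
open scoped Manifold ContDiff ComplexConjugate NNReal ENNReal

namespace Pool.Agent.MP_e62289_ag

/-- monodromy for a system whose transition maps are bijections -/
theorem Mono_aux {B : Type} [TopologicalSpace B] [SimplyConnectedSpace B]
    [LocallyPathConnectedSpace B] (Q : B → Type) (U : B → Set B)
    (hU : ∀ b, IsOpen (U b)) (hm : ∀ b, b ∈ U b) (G : ∀ b₀ b, b ∈ U b₀ → Q b₀ → Q b)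
    (inj : ∀ b₀ b h, Function.Injective (G b₀ b h))
    (surj : ∀ b₀ b h, Function.Surjective (G b₀ b h)) (hid : ∀ b s, G b b (hm b) s = s)
    (loc : ∀ b₀ b₁ s₀ s₁ b₂ h₀ h₁, G b₀ b₂ h₀ s₀ = G b₁ b₂ h₁ s₁ →
      ∀ᶠ b in 𝓝 b₂, ∀ h₀' h₁', G b₀ b h₀' s₀ = G b₁ b h₁' s₁)
    (p : B) (s : Q p) : ∃ σ : ∀ b, Q b, σ p = s ∧
      ∀ b₀, ∀ᶠ b in 𝓝 b₀, ∀ h, σ b = G b₀ b h (σ b₀) := by
  let _ : TopologicalSpace (Σ b, Q b) :=
    { IsOpen := fun W => ∀ z ∈ W, ∀ᶠ b in 𝓝 z.1, ∀ h : b ∈ U z.1,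
        (⟨b, G z.1 b h z.2⟩ : Σ b, Q b) ∈ W
      isOpen_univ := fun _ _ => Eventually.of_forall fun _ _ => mem_univ _
      isOpen_inter := fun W W' h h' z hz =>
        ((h z hz.1).and (h' z hz.2)).mono fun b hb hb' => ⟨hb.1 hb', hb.2 hb'⟩
      isOpen_sUnion := fun T hT z ⟨W, hW, hz⟩ =>
        (hT W hW z hz).mono fun b hb hb' => ⟨W, hW, hb hb'⟩ }
  have hop : ∀ W : Set (Σ b, Q b), IsOpen W ↔ ∀ z ∈ W, ∀ᶠ b in 𝓝 z.1, ∀ h : b ∈ U z.1,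
      (⟨b, G z.1 b h z.2⟩ : Σ b, Q b) ∈ W := fun W => Iff.rfl
  let S : ∀ b₀, Q b₀ → Set (Σ b, Q b) := fun b₀ q => {z | ∃ h : z.1 ∈ U b₀, z.2 = G b₀ z.1 h q}
  have open_iff : ∀ b₀ q {W : Set B}, W ⊆ U b₀ →
      (IsOpen W ↔ IsOpen ((Sigma.fst : (Σ b, Q b) → B) ⁻¹' W ∩ S b₀ q)) := by
    intro b₀ q W hW
    rw [hop]
    constructor
    · rintro hWo ⟨b₂, q₂⟩ ⟨hz, h, hq⟩
      have h1 := loc b₀ b₂ q q₂ b₂ h (hm b₂) (by rw [hid]; exact hq.symm)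
      filter_upwards [h1, hWo.mem_nhds hz] with b hb hbW h'
      exact ⟨hbW, hW hbW, (hb _ _).symm⟩
    · intro h
      refine isOpen_iff_mem_nhds.2 fun b₂ hb₂ => ?_
      have h1 := h ⟨b₂, G b₀ b₂ (hW hb₂) q⟩ ⟨hb₂, hW hb₂, rfl⟩
      filter_upwards [h1, (hU b₂).mem_nhds (hm b₂)] with b hb hb'
      exact (hb hb').1
  have cov : IsCoveringMap (Sigma.fst : (Σ b, Q b) → B) := by
    intro b₀
    let _ : TopologicalSpace (Q b₀) := ⊥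
    have : DiscreteTopology (Q b₀) := ⟨rfl⟩
    rcases isEmpty_or_nonempty (Q b₀) with he | hne
    · refine (IsEvenlyCovered.of_preimage_eq_empty (Q b₀) ((hU b₀).mem_nhds (hm b₀))
        ?_).to_isEvenlyCovered_preimage
      refine eq_empty_of_forall_notMem fun z hz => ?_
      obtain ⟨q, -⟩ := surj b₀ z.1 hz z.2
      exact he.elim q
    · have : Nonempty (B → Σ b, Q b) := ⟨fun _ => ⟨p, s⟩⟩
      refine (IsEvenlyCovered.of_trivialization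
        (t := IsOpen.trivializationDiscrete (f := (Sigma.fst : (Σ b, Q b) → B)) (S b₀) (U b₀)
          (hU b₀) (open_iff b₀) ?_ ?_ ?_ ?_) (hm b₀)).to_isEvenlyCovered_preimage
      · rintro q ⟨b, x⟩ ⟨h, hx⟩ ⟨b', x'⟩ ⟨h', hx'⟩ hb
        dsimp only at hb hx hx'
        subst hb
        rw [hx, hx']
      · intro q b hb
        exact ⟨⟨b, G b₀ b hb q⟩, ⟨hb, rfl⟩, rfl⟩
      · intro q q' hq
        refine disjoint_left.2 ?_
        rintro z ⟨h, hz⟩ ⟨h', hz'⟩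
        exact hq (inj b₀ z.1 h (hz.symm.trans hz'))
      · intro z hz
        obtain ⟨q, hq⟩ := surj b₀ z.1 hz z.2
        exact mem_iUnion.2 ⟨q, hz, hq.symm⟩
  obtain ⟨L, ⟨hL0, hL⟩, -⟩ := cov.existsUnique_continuousMap_lifts (ContinuousMap.id B) p ⟨p, s⟩ rfl
  have hex : ∀ b, ∃ q : Q b, L b = ⟨b, q⟩ := by
    intro b
    have h1 : (L b).1 = b := congrFun hL b
    generalize L b = z at h1
    obtain ⟨b', q⟩ := z
    dsimp only at h1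
    subst h1
    exact ⟨q, rfl⟩
  choose σ hσ using hex
  refine ⟨σ, ?_, fun b₀ => ?_⟩
  · rw [hσ p] at hL0
    exact sigma_mk_injective hL0
  · have h1 := (open_iff b₀ (σ b₀) subset_rfl).1 (hU b₀)
    have h2 : L b₀ ∈ (Sigma.fst : (Σ b, Q b) → B) ⁻¹' U b₀ ∩ S b₀ (σ b₀) := by
      rw [hσ b₀]
      exact ⟨hm b₀, hm b₀, (hid _ _).symm⟩
    filter_upwards [L.continuous.continuousAt.preimage_mem_nhds (h1.mem_nhds h2)] with b hb h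
    rw [mem_preimage, hσ b] at hb
    obtain ⟨-, h', hq⟩ := hb
    exact hq

/-- monodromy: a locally constant system of states over a simply connected space has a global
section through any state -/
theorem mono {B : Type} [TopologicalSpace B] [SimplyConnectedSpace B] [LocallyPathConnectedSpace B]
    (St : B → Type) (r : ∀ b, St b → St b → Prop) (hr : ∀ b, Equivalence (r b)) (U : B → Set B)
    (hU : ∀ b, IsOpen (U b)) (hm : ∀ b, b ∈ U b) (F : ∀ b₀ b, b ∈ U b₀ → St b₀ → St b)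
    (inj : ∀ b₀ b h s s', r b (F b₀ b h s) (F b₀ b h s') ↔ r b₀ s s')
    (surj : ∀ b₀ b h s', ∃ s, r b (F b₀ b h s) s') (hid : ∀ b s, r b (F b b (hm b) s) s)
    (loc : ∀ b₀ b₁ s₀ s₁ b₂ h₀ h₁, r b₂ (F b₀ b₂ h₀ s₀) (F b₁ b₂ h₁ s₁) →
      ∀ᶠ b in 𝓝 b₂, ∀ h₀' h₁', r b (F b₀ b h₀' s₀) (F b₁ b h₁' s₁))
    (p : B) (s : St p) : ∃ σ : ∀ b, St b, r p (σ p) s ∧
      ∀ b₀, ∀ᶠ b in 𝓝 b₀, ∀ h, r b (σ b) (F b₀ b h (σ b₀)) := by
  have hq : ∀ b (x y : St b), Quot.mk (r b) x = Quot.mk (r b) y ↔ r b x y := fun b x y =>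
    Quot.eq.trans (hr b).eqvGen_iff
  let G : ∀ b₀ b, b ∈ U b₀ → Quot (r b₀) → Quot (r b) := fun b₀ b h =>
    Quot.map (F b₀ b h) fun x y hxy => (inj b₀ b h x y).2 hxy
  have hG : ∀ b₀ b h x, G b₀ b h (Quot.mk _ x) = Quot.mk _ (F b₀ b h x) := fun _ _ _ _ => rfl
  obtain ⟨σ, h0, hσ⟩ := Mono_aux (fun b => Quot (r b)) U hU hm G
    (by
      rintro b₀ b h ⟨x⟩ ⟨y⟩ hxy
      exact (hq _ _ _).2 ((inj b₀ b h x y).1 ((hq _ _ _).1 hxy)))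
    (by
      rintro b₀ b h ⟨y⟩
      obtain ⟨x, hx⟩ := surj b₀ b h y
      exact ⟨Quot.mk _ x, (hq _ _ _).2 hx⟩)
    (by
      rintro b ⟨x⟩
      exact (hq _ _ _).2 (hid b x))
    (by
      rintro b₀ b₁ ⟨x⟩ ⟨y⟩ b₂ h₀ h₁ hxy
      exact (loc b₀ b₁ x y b₂ h₀ h₁ ((hq _ _ _).1 hxy)).mono fun b hb h₀' h₁' =>
        (hq _ _ _).2 (hb h₀' h₁'))
    p (Quot.mk _ s)
  refine ⟨fun b => (σ b).out, (hq _ _ _).1 (by rw [Quot.out_eq, h0]), fun b₀ => ?_⟩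
  refine (hσ b₀).mono fun b hb h => (hq _ _ _).1 ?_
  rw [Quot.out_eq, ← hG, Quot.out_eq]
  exact hb h

end Pool.Agent.MP_e62289_ag
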