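import Pool.Agent.MP_e62289_ag.T2a

open Set Filter Topology Complex MeasureTheory Metric
open scoped Manifold ContDiff ComplexConjugate NNReal ENNReal

namespace Pool.Agent.MP_e62289_ag

namespace Family

variable {E : Type} [NormedAddCommGroup E] [NormedSpace ℂ E] {B : Type} [TopologicalSpace B]
  [ChartedSpace E B] {n : ℕ} {a : Fin n → ℕ}

section Aux

variable {C : Family E B a} {b₀ : B} {W : Set C.X} (τ : C.PreTriv b₀ W)
  (h : C.proj ⁻¹' {b₀} ⊆ W)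

include h

theorem T2_sec {b : B} (hb : b ∈ τ.U) (i : Fin n) : τ.F b (C.sec i b₀) = C.sec i b := by
  obtain ⟨h1, h2, h3⟩ := (τ.near i).self_of_nhds (C.proj_sec i b₀) b hb
  refine (C.chart (C.sec i b₀)).injOn h2 h1 (Prod.ext ?_ ?_)
  · rw [h3, sub_self, zero_add]
  · rw [C.snd_chart _ _ h2, C.snd_chart _ _ h1, C.proj_sec,
      τ.proj b hb _ (h (C.proj_sec i b₀)) (C.proj_sec i b₀)]

theorem T2_cont : ContinuousOn (fun p : B × C.X => τ.F p.1 p.2) (τ.U ×ˢ (C.proj ⁻¹' {b₀})) :=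
  τ.contF.mono fun _ hp => ⟨hp.1, h hp.2, hp.2⟩

theorem T2_cont_fib {b : B} (hb : b ∈ τ.U) : Continuous fun q : C.Fib b₀ => τ.F b q.1 :=
  (T2_cont τ h).comp_continuous (f := fun q : C.Fib b₀ => (b, q.1))
    (continuous_const.prodMk continuous_subtype_val) fun q => ⟨hb, q.2.1⟩

theorem T2_smooth (y : C.X) : ContMDiffOn (𝓘(ℝ, E).prod 𝓘(ℝ, ℂ)) 𝓘(ℝ, ℂ) 2
    (fun p : B × C.Fib b₀ => (C.chart y (τ.F p.1 p.2.1)).1)
    {p | p.1 ∈ τ.U ∧ τ.F p.1 p.2.1 ∈ (C.chart y).source} := by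
  rintro ⟨b, q⟩ hp
  have hch : ContMDiffAt 𝓘(ℝ, ℂ) 𝓘(ℝ, ℂ) 2 (chartAt ℂ q) q :=
    (contMDiffOn_chart (I := 𝓘(ℝ, ℂ)) (n := 2) (x := q)).contMDiffAt (chart_source_mem_nhds ℂ q)
  have hψ : ContMDiffAt (𝓘(ℝ, E).prod 𝓘(ℝ, ℂ)) (𝓘(ℝ, E).prod 𝓘(ℝ, ℂ)) 2
      (fun p : B × C.Fib b₀ => (p.1, chartAt ℂ q p.2)) (b, q) :=
    contMDiffAt_fst.prodMk (hch.comp (b, q) contMDiffAt_snd)
  have hinv : ∀ y' : C.Fib b₀, y'.1 ∈ (C.chart q.1).source →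
      (chartAt ℂ q y', b₀) ∈ (C.chart q.1).target ∧
        (C.chart q.1).symm (chartAt ℂ q y', b₀) = y'.1 := fun y' hy' => by
    have e := C.chart_eq hy'
    rw [y'.2.1] at e
    have e' : (chartAt ℂ q y', b₀) = C.chart q.1 y'.1 := e
    rw [e']
    exact ⟨(C.chart q.1).map_source hy', (C.chart q.1).left_inv hy'⟩
  have hn : {p : B × C.Fib b₀ | p.2.1 ∈ (C.chart q.1).source} ∈ 𝓝 (b, q) :=
    ((C.chart q.1).open_source.preimage
      (continuous_subtype_val.comp continuous_snd)).mem_nhds (C.mem_source q.1)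
  have hmaps : MapsTo (fun p : B × C.Fib b₀ => (p.1, chartAt ℂ q p.2))
      ({p | p.1 ∈ τ.U ∧ τ.F p.1 p.2.1 ∈ (C.chart y).source} ∩
        {p : B × C.Fib b₀ | p.2.1 ∈ (C.chart q.1).source})
      {p : B × ℂ | p.1 ∈ τ.U ∧ (p.2, b₀) ∈ (C.chart q.1).target ∧
        (C.chart q.1).symm (p.2, b₀) ∈ W ∧
        τ.F p.1 ((C.chart q.1).symm (p.2, b₀)) ∈ (C.chart y).source} := by
    rintro p ⟨⟨h1, h2⟩, h3⟩
    obtain ⟨h4, h5⟩ := hinv p.2 h3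
    refine ⟨h1, h4, ?_, ?_⟩
    · change (C.chart q.1).symm (chartAt ℂ q p.2, b₀) ∈ W
      rw [h5]
      exact h p.2.2.1
    · change τ.F p.1 ((C.chart q.1).symm (chartAt ℂ q p.2, b₀)) ∈ _
      rw [h5]
      exact h2
  have hmem : (b, q) ∈ {p : B × C.Fib b₀ | p.1 ∈ τ.U ∧ τ.F p.1 p.2.1 ∈ (C.chart y).source} ∩
      {p : B × C.Fib b₀ | p.2.1 ∈ (C.chart q.1).source} := ⟨hp, C.mem_source q.1⟩
  have h1 := (τ.smooth q.1 y _ (hmaps hmem)).comp (b, q) hψ.contMDiffWithinAt hmaps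
  rw [← contMDiffWithinAt_inter hn]
  refine h1.congr (fun p hp' => ?_) ?_
  · change _ = (C.chart y (τ.F p.1 ((C.chart q.1).symm (chartAt ℂ q p.2, b₀)))).1
    rw [(hinv p.2 hp'.2).2]
  · change _ = (C.chart y (τ.F b ((C.chart q.1).symm (chartAt ℂ q q, b₀)))).1
    rw [(hinv q (C.mem_source q.1)).2]

theorem T2_ckAt {b : B} (hb : b ∈ τ.U) {q : C.Fib b₀} {y : C.X}
    (hy : τ.F b q.1 ∈ (C.chart y).source) :
    CkAt 2 (fun q' : C.Fib b₀ => (C.chart y (τ.F b q'.1)).1) q := by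
  have hn : {q' : C.Fib b₀ | τ.F b q'.1 ∈ (C.chart y).source} ∈ 𝓝 q :=
    ((C.chart y).open_source.preimage (T2_cont_fib τ h hb)).mem_nhds hy
  have h1 : ContMDiffAt 𝓘(ℝ, ℂ) (𝓘(ℝ, E).prod 𝓘(ℝ, ℂ)) 2 (fun q' : C.Fib b₀ => (b, q')) q :=
    contMDiffAt_const.prodMk contMDiffAt_id
  have h2 := (T2_smooth τ h y (b, q) ⟨hb, hy⟩).comp q
    (s := {q' : C.Fib b₀ | τ.F b q'.1 ∈ (C.chart y).source}) h1.contMDiffWithinAt
    fun q' hq' => ⟨hb, hq'⟩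
  exact h2.contMDiffAt hn

theorem T2_dd {b : B} (hb : b ∈ τ.U) {q : C.Fib b₀} {y : C.X}
    (hy : τ.F b q.1 ∈ (C.chart y).source) :
    dd (fun q' : C.Fib b₀ => (C.chart y (τ.F b q'.1)).1) q =
      fderiv ℝ (fun z => (C.chart y (τ.F b ((C.chart q.1).symm (z, b₀)))).1)
        (C.chart q.1 q.1).1 := by
  rw [dd_eq_fderiv ((T2_ckAt τ h hb hy).mdifferentiableAt (by simp))]
  refine Filter.EventuallyEq.fderiv_eq ?_
  filter_upwards [chart_target_mem_nhds ℂ q] with z hz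
  change (C.chart y (τ.F b ((C.fchart q q.1).symm z).1)).1 = _
  rw [C.fchart_symm q q.1 hz]

omit h in
theorem T2_core : ∃ K : Set (C.Fib b₀), IsCompact K ∧ ∀ q, q ∉ K → ∀ b ∈ τ.U, ∃ y : C.X,
    τ.F b q.1 ∈ (C.chart y).source ∧
      d2 (fun q' : C.Fib b₀ => (C.chart y (τ.F b q'.1)).1) q = 0 := by
  have h1 := fun i => eventually_nhds_iff.1 ((τ.near i).and
    ((C.chart (C.sec i b₀)).open_source.mem_nhds (C.mem_source (C.sec i b₀))))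
  choose O hO hOo hOm using h1
  refine ⟨{q | ∀ i, q.1 ∉ O i}, ?_, fun q hq b hb => ?_⟩
  · rw [Subtype.isCompact_iff]
    have e : Subtype.val '' {q : C.Fib b₀ | ∀ i, q.1 ∉ O i} =
        C.proj ⁻¹' {b₀} ∩ ⋂ i, (O i)ᶜ := by
      ext x
      constructor
      · rintro ⟨q, hq, rfl⟩
        exact ⟨q.2.1, mem_iInter.2 hq⟩
      · rintro ⟨h2, h3⟩
        have h4 := mem_iInter.1 h3
        exact ⟨⟨x, h2, fun i hi => h4 i (hi ▸ hOm i)⟩, h4, rfl⟩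
    rw [e]
    exact (C.proper.isCompact_preimage isCompact_singleton).inter_right
      (isClosed_iInter fun i => (hOo i).isClosed_compl)
  · obtain ⟨i, hi⟩ : ∃ i, q.1 ∈ O i := by
      by_contra hc
      exact hq fun i hi => hc ⟨i, hi⟩
    refine ⟨C.sec i b₀, ((hO i _ hi).1 q.2.1 b hb).2.1, ?_⟩
    have e : (fun q' : C.Fib b₀ => (C.chart (C.sec i b₀) (τ.F b q'.1)).1) =ᶠ[𝓝 q]
        fun q' : C.Fib b₀ => (C.chart (C.sec i b₀) q'.1).1 -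
          (C.chart (C.sec i b₀) (C.sec i b₀)).1 + (C.chart (C.sec i b₀) (C.sec i b)).1 := by
      filter_upwards [((hOo i).preimage continuous_subtype_val).mem_nhds hi] with q' hq'
      exact ((hO i _ hq').1 q'.2.1 b hb).2.2
    rw [(d_congr e).2]
    exact (d2_of_hol (((C.holAt_chart (hO i _ hi).2).1.sub mdifferentiableAt_const).add
      mdifferentiableAt_const)).2

omit h in
theorem T2_nhds {U' : Set B} (hU : IsOpen U') {b : B} (hb : b ∈ U') {x : C.X}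
    (ho : 𝓝 (τ.F b x) ≤
      map (fun p : B × C.X => τ.F p.1 p.2) (𝓝[univ ×ˢ (C.proj ⁻¹' {b₀})] (b, x)))
    {N : Set C.X} (hN : N ∈ 𝓝 x) :
    {y | ∃ b' ∈ U', ∃ x' ∈ N, C.proj x' = b₀ ∧ τ.F b' x' = y} ∈ 𝓝 (τ.F b x) := by
  refine ho (mem_map.2 ?_)
  filter_upwards [self_mem_nhdsWithin,
    mem_nhdsWithin_of_mem_nhds (prod_mem_nhds (hU.mem_nhds hb) hN)] with p hp hp'
  exact ⟨p.1, hp'.1, p.2, hp'.2, hp.2, rfl⟩

theorem T2_surj {U' : Set B} (hU : IsOpen U') (hs : U' ⊆ τ.U)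
    (ho : ∀ b ∈ U', ∀ x, C.proj x = b₀ → 𝓝 (τ.F b x) ≤
      map (fun p : B × C.X => τ.F p.1 p.2) (𝓝[univ ×ˢ (C.proj ⁻¹' {b₀})] (b, x)))
    {b : B} (hb : b ∈ U') {y : C.X} (hy : C.proj y = b) : ∃ x, C.proj x = b₀ ∧ τ.F b x = y := by
  have hV : IsOpen {y | ∃ b' ∈ U', ∃ x' ∈ (univ : Set C.X), C.proj x' = b₀ ∧ τ.F b' x' = y} := by
    refine isOpen_iff_mem_nhds.2 ?_
    rintro _ ⟨b', hb', x', -, hx', rfl⟩
    exact T2_nhds τ hU hb' (ho b' hb' x' hx') univ_mem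
  have hS : IsCompact (τ.F b '' (C.proj ⁻¹' {b₀})) :=
    (C.proper.isCompact_preimage isCompact_singleton).image_of_continuousOn
      ((T2_cont τ h).comp (f := fun x : C.X => (b, x))
        (continuous_const.prodMk continuous_id).continuousOn fun x hx => ⟨hs hb, hx⟩)
  by_contra hc
  obtain ⟨x₀, hx₀⟩ := (C.conn b₀).nonempty
  obtain ⟨z, hz, ⟨b', hb', x', -, hx', rfl⟩, hz'⟩ := (C.conn b).isPreconnected _ _ hV
    hS.isClosed.isOpen_compl (fun z _ => by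
      by_cases hz : z ∈ τ.F b '' (C.proj ⁻¹' {b₀})
      · obtain ⟨x, hx, rfl⟩ := hz
        exact Or.inl ⟨b, hb, x, mem_univ _, hx, rfl⟩
      · exact Or.inr hz)
    ⟨τ.F b x₀, τ.proj b (hs hb) x₀ (h hx₀) hx₀, b, hb, x₀, mem_univ _, hx₀, rfl⟩
    ⟨y, hy, fun ⟨x, hx, hxy⟩ => hc ⟨x, hx, hxy⟩⟩
  have e : b' = b := (τ.proj b' (hs hb') x' (h hx') hx').symm.trans hz
  exact hz' ⟨x', hx', by rw [e]⟩

end Aux

variable (C : Family E B a)
  [FiniteDimensional ℂ E] [IsManifold 𝓘(ℂ, E) ω B] [IsManifold 𝓘(ℝ, E) ∞ B] [T2Space B]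

theorem exists_triv (b₀ : B) : Nonempty (C.Triv b₀) := by
  obtain ⟨W, hW, h, ⟨τ⟩⟩ := C.preTriv_all b₀
  obtain ⟨U', hU, hb₀, hs, hpos, hinj, ho⟩ := τ.local_inj hW h
  obtain ⟨K, hK, hKd⟩ := T2_core τ
  let G : ∀ b : U', C.Fib b₀ → C.Fib b.1 := fun b q =>
    ⟨τ.F b q.1, τ.proj b (hs b.2) _ (h q.2.1) q.2.1, fun i hi => q.2.2 i
      (hinj b b.2 q.2.1 (C.proj_sec i b₀) (hi.trans (T2_sec τ h (hs b.2) i).symm))⟩
  have hGc : ∀ b, Continuous (G b) := fun b => (T2_cont_fib τ h (hs b.2)).subtype_mk _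
  have hGb : ∀ b, Function.Bijective (G b) := fun b => by
    refine ⟨fun q q' e => Subtype.ext (hinj b b.2 q.2.1 q'.2.1 (congrArg Subtype.val e)),
      fun y => ?_⟩
    obtain ⟨x, hx, hxy⟩ := T2_surj τ h hU hs ho b.2 y.2.1
    refine ⟨⟨x, hx, fun i hi => y.2.2 i ?_⟩, Subtype.ext hxy⟩
    rw [← hxy, hi, T2_sec τ h (hs b.2) i]
  have hGd : ∀ (b : U') (q : C.Fib b₀) (y : C.X), τ.F b q.1 ∈ (C.chart y).source →
      ContMDiffAt 𝓘(ℝ, ℂ) 𝓘(ℝ, ℂ) 2 (G b) q ∧ ∃ c : ℂ, c ≠ 0 ∧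
        d1 (fun q' : C.Fib b₀ => (C.chart y (τ.F b q'.1)).1) q = c * d1 (G b) q ∧
        d2 (fun q' : C.Fib b₀ => (C.chart y (τ.F b q'.1)).1) q = c * d2 (G b) q :=
    fun b q y hy => C.contMDiffAt_fib (G := G b) (hGc b).continuousAt hy
      (T2_ckAt τ h (hs b.2) hy)
  have hGk : ∀ (b : U') q, q ∉ K → d2 (G b) q = 0 := fun b q hq => by
    obtain ⟨y, hy, h2⟩ := hKd q hq b (hs b.2)
    obtain ⟨-, c, hc, -, h3⟩ := hGd b q y hy
    rw [h2] at h3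
    exact (mul_eq_zero.1 h3.symm).resolve_left hc
  have hGp : ∀ (b : U') q, ‖d2 (G b) q‖ < ‖d1 (G b) q‖ := fun b q => by
    obtain ⟨-, c, hc, h1, h2⟩ := hGd b q _ (C.mem_source (τ.F b q.1))
    have h3 := hpos b b.2 q.1 q.2.1
    rw [← T2_dd τ h (hs b.2) (C.mem_source (τ.F b q.1))] at h3
    change ‖d2 _ q‖ < ‖d1 _ q‖ at h3
    rw [h1, h2, norm_mul, norm_mul] at h3
    exact lt_of_mul_lt_mul_left h3 (norm_nonneg c)
  have hA : ∀ b : U', ∃ A : Adm (C.Fib b₀) (C.Fib b.1), ⇑A.φ = G b := fun b =>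
    Adm.exists_of_bij (hGb b) (fun q => (hGd b q _ (C.mem_source _)).1) (hGp b) ⟨K, hK, hGk b⟩
  choose A hA using hA
  have hAF : ∀ (b : U') (q : C.Fib b₀), ((A b).φ q).1 = τ.F b q.1 := fun b q => by
    rw [hA]
  refine ⟨⟨U', hU, hb₀, ⟨A, ?_, ?_, K, hK, fun b q hq => ?_⟩, τ.F, hAF,
    fun x hx => τ.base x (h hx) hx, (T2_cont τ h).mono (prod_mono hs subset_rfl),
    fun b hb i => T2_sec τ h (hs hb) i,
    fun x => (T2_smooth τ h x).mono fun p hp => ⟨hs hp.1, hp.2⟩,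
    fun x q => (τ.hol x q.1 (h q.2.1) q.2.1).mono fun b hb => ⟨hs hb.1, hb.2⟩⟩⟩
  · simp only [hAF]
    exact (T2_cont τ h).comp_continuous (f := fun p : U' × C.Fib b₀ => (p.1.1, p.2.1))
      ((continuous_subtype_val.comp continuous_fst).prodMk
        (continuous_subtype_val.comp continuous_snd)) fun p => ⟨hs p.1.2, p.2.2.1⟩
  · refine Topology.IsInducing.subtypeVal.continuous_iff.2
      (continuous_iff_continuousAt.2 fun p₀ N hN => ?_)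
    have hH : ∀ p : C.Tot (Subtype.val : U' → B),
        τ.F p.1.1 ((A p.1.1).φ.symm ⟨p.1.2, p.2⟩).1 = p.1.2 := fun p => by
      rw [← hAF, Diffeomorph.apply_symm_apply]
    have h1 := T2_nhds τ hU p₀.1.1.2
      (ho _ p₀.1.1.2 _ ((A p₀.1.1).φ.symm ⟨p₀.1.2, p₀.2⟩).2.1) hN
    rw [hH] at h1
    have h2 : ContinuousAt (fun p : C.Tot (Subtype.val : U' → B) => p.1.2) p₀ :=
      (continuous_snd.comp continuous_subtype_val).continuousAt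
    rw [mem_map]
    filter_upwards [h2.preimage_mem_nhds h1] with p hp
    obtain ⟨b', hb', x', hx', h3, h4⟩ := hp
    have e : b' = p.1.1 := by
      rw [← τ.proj b' (hs hb') x' (h h3) h3, h4]
      exact p.2.1
    subst e
    have e' : x' = ((A p.1.1).φ.symm ⟨p.1.2, p.2⟩).1 :=
      hinj _ hb' h3 ((A p.1.1).φ.symm ⟨p.1.2, p.2⟩).2.1 (h4.trans (hH p).symm)
    change ((A p.1.1).φ.symm ⟨p.1.2, p.2⟩).1 ∈ N
    rwa [← e']
  · rw [hA]
    exact hGk b q hq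

end Family

end Pool.Agent.MP_e62289_ag
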