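import Pool.Agent.MP_e62289_ag.F4
import Pool.Agent.MP_e62289_ag.T2
import Pool.Agent.MP_e62289_ag.Mono
import Pool.Agent.MP_e62289_ag.L10

open Set Filter Topology Complex MeasureTheory Metric
open scoped Manifold ContDiff ComplexConjugate NNReal ENNReal

namespace Pool.Agent.MP_e62289_ag

namespace Family

variable {E : Type} [NormedAddCommGroup E] [NormedSpace ℂ E] {B : Type} [TopologicalSpace B]
  [ChartedSpace E B] {n : ℕ} {a : Fin n → ℕ} {C : Family E B a}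

theorem F5a_cont {Y : Type} [TopologicalSpace Y] [ChartedSpace ℂ Y] {T : Type}
    [TopologicalSpace T] {ψ : T → B} (M M' : C.MFam Y ψ) :
    Continuous fun p : T × Y => (M.G p.1).φ.symm ((M'.G p.1).φ p.2) := by
  have h1 : Continuous fun p : T × Y =>
      (⟨(p.1, ((M'.G p.1).φ p.2).1), ((M'.G p.1).φ p.2).2⟩ : C.Tot ψ) :=
    (continuous_fst.prodMk M'.cont).subtype_mk _
  exact M.cont'.comp h1

/-- two families of markings that agree at a point give the same periods nearby -/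
theorem lc2 {m : ℕ} {S : Flat m} {T : Type} [TopologicalSpace T] [LocallyConnectedSpace T]
    {ψ : T → B} (M M' : C.MFam S.Y ψ) {t₀ : T} (h : ∀ q, (M.G t₀).φ q = (M'.G t₀).φ q)
    {ξp ξm : S.H} (hp : ξp ∈ S.hd.W) (hm : ξm ∈ S.hd.W) :
    ∀ᶠ t in 𝓝 t₀, ∀ (b' : B) (Φ : Adm (C.Fib (ψ t)) (C.Fib b')),
      S.Hval ξp ξm (bel ((M.G t).trans Φ).φ) = S.Hval ξp ξm (bel ((M'.G t).trans Φ).φ) := by
  let Θ : T → Adm S.Y S.Y := fun t => (M'.G t).trans (M.G t).symm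
  have hc : Continuous fun p : T × S.Y => (Θ p.1).φ p.2 := F5a_cont M M'
  have hc' : Continuous fun p : T × S.Y => (Θ p.1).φ.symm p.2 := F5a_cont M' M
  have h0 : ∀ q, (Θ t₀).φ q = q := fun q => by
    show (M.G t₀).φ.symm ((M'.G t₀).φ q) = q
    rw [← h q]
    exact (M.G t₀).φ.symm_apply_apply q
  have hK : ∃ K, IsCompact K ∧ ∀ t q, q ∉ K → (Θ t).φ q ∉ K → d2 (Θ t).φ q = 0 := by
    obtain ⟨K, hK, h1⟩ := M.conf
    obtain ⟨K', hK', h2⟩ := M'.conf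
    refine ⟨K ∪ K', hK.union hK', fun t q hq hq' => ?_⟩
    have e1 : d2 (M'.G t).φ q = 0 := h2 t q fun hh => hq (Or.inr hh)
    have e2 : d2 (M.G t).symm.φ ((M'.G t).φ q) = 0 :=
      (M.G t).d2_symm (h1 t _ fun hh => hq' (Or.inl hh))
    rw [((M'.G t).d_trans (M.G t).symm q).2, e1, e2, mul_zero, zero_mul, add_zero]
  filter_upwards [S.lc t₀ Θ hc hc' h0 hK] with t ht b' Φ
  obtain ⟨c1, κ, -, hκ, hb⟩ := S.bel_adm ((M.G t).trans Φ)
  have e : ⇑((M'.G t).trans Φ).φ = ⇑((Θ t).trans ((M.G t).trans Φ)).φ := by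
    funext q
    show Φ.φ ((M'.G t).φ q) = Φ.φ ((M.G t).φ ((M.G t).φ.symm ((M'.G t).φ q)))
    rw [Diffeomorph.apply_symm_apply]
  rw [e, Adm.bel_trans (Θ t)]
  exact (ht ξp hp ξm hm _ c1 ⟨κ, hκ, hb⟩).symm

variable [FiniteDimensional ℂ E] [IsManifold 𝓘(ℂ, E) ω B] [IsManifold 𝓘(ℝ, E) ∞ B] [T2Space B]
  [SimplyConnectedSpace B]

end Family

end Pool.Agent.MP_e62289_ag
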