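import Pool.Agent.MP_e62289_ag.F4
import Pool.Agent.MP_e62289_ag.T2
import Pool.Agent.MP_e62289_ag.Mono
import Pool.Agent.MP_e62289_ag.L10
import Pool.Agent.MP_e62289_ag.F5a

open Set Filter Topology Complex MeasureTheory Metric
open scoped Manifold ContDiff ComplexConjugate NNReal ENNReal

namespace Pool.Agent.MP_e62289_ag

namespace Family

variable {E : Type} [NormedAddCommGroup E] [NormedSpace ℂ E] {B : Type} [TopologicalSpace B]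
  [ChartedSpace E B] {n : ℕ} {a : Fin n → ℕ} {C : Family E B a}

/-- markings with the same periods after any further transport -/
def F5bR {m : ℕ} {S : Flat m} (ξp ξm : S.H) {b : B} (G G' : Adm S.Y (C.Fib b)) : Prop :=
  ∀ (b' : B) (Φ : Adm (C.Fib b) (C.Fib b')),
    S.Hval ξp ξm (bel (G.trans Φ).φ) = S.Hval ξp ξm (bel (G'.trans Φ).φ)

section R

variable {m : ℕ} {S : Flat m} {ξp ξm : S.H} {b b' : B} {G G' G'' : Adm S.Y (C.Fib b)}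

theorem F5bR.of_eq (h : ∀ q, G.φ q = G'.φ q) : F5bR ξp ξm G G' := fun _ Φ => by
  have e : (⇑G.φ : S.Y → C.Fib b) = G'.φ := funext h
  rw [Adm.trans_coe, Adm.trans_coe, e]

theorem F5bR.symm (h : F5bR ξp ξm G G') : F5bR ξp ξm G' G := fun c Φ => (h c Φ).symm

theorem F5bR.trans (h : F5bR ξp ξm G G') (h' : F5bR ξp ξm G' G'') : F5bR ξp ξm G G'' :=
  fun c Φ => (h c Φ).trans (h' c Φ)

theorem F5bR.push (h : F5bR ξp ξm G G') (Ψ : Adm (C.Fib b) (C.Fib b')) :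
    F5bR ξp ξm (G.trans Ψ) (G'.trans Ψ) := fun c Φ => h c (Ψ.trans Φ)

theorem F5bR.pull {Ψ : Adm (C.Fib b) (C.Fib b')} (h : F5bR ξp ξm (G.trans Ψ) (G'.trans Ψ)) :
    F5bR ξp ξm G G' :=
  ((F5bR.of_eq fun q => by simp).trans (h.push Ψ.symm)).trans (F5bR.of_eq fun q => by simp)

theorem F5bR.val (h : F5bR ξp ξm G G') : S.Hval ξp ξm (bel G.φ) = S.Hval ξp ξm (bel G'.φ) :=
  h b (Adm.refl _)

theorem F5b_base (τ : C.Triv b) (G : Adm S.Y (C.Fib b)) (h : b ∈ τ.U) (q : S.Y) :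
    (G.trans (τ.M.G ⟨b, h⟩)).φ q = G.φ q :=
  Subtype.ext ((τ.eq ⟨b, h⟩ (G.φ q)).trans (τ.base _ (G.φ q).2.1))

theorem F5b_loc {T : Type} [TopologicalSpace T] [LocallyConnectedSpace T] {ψ : T → B}
    (hp : ξp ∈ S.hd.W) (hm : ξm ∈ S.hd.W) (N N' : C.MFam S.Y ψ) {t₀ : T}
    (h : F5bR ξp ξm (N.G t₀) (N'.G t₀)) : ∀ᶠ t in 𝓝 t₀, F5bR ξp ξm (N.G t) (N'.G t) := by
  have h1 := lc2 N (N'.pre ((N.G t₀).trans (N'.G t₀).symm)) (t₀ := t₀)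
    (fun q => ((N'.G t₀).φ.apply_symm_apply _).symm) hp hm
  filter_upwards [h1] with t ht
  have h2 : F5bR ξp ξm (N.G t) (((N.G t₀).trans (N'.G t₀).symm).trans (N'.G t)) := ht
  have h3 := h.push ((N'.G t₀).symm.trans (N'.G t))
  exact (h2.trans ((F5bR.of_eq fun q => rfl).trans h3)).trans (F5bR.of_eq fun q => by simp)

theorem F5b_sub {X : Type} [TopologicalSpace X] {O : Set X} {x : X} {hx : x ∈ O} {P : O → Prop}
    (h : ∀ᶠ t in 𝓝 (⟨x, hx⟩ : O), P t) : ∀ᶠ y in 𝓝 x, ∀ hy : y ∈ O, P ⟨y, hy⟩ := by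
  rw [nhds_subtype, eventually_comap] at h
  exact h.mono fun y hy h' => hy _ rfl

end R

variable [FiniteDimensional ℂ E] [IsManifold 𝓘(ℂ, E) ω B] [IsManifold 𝓘(ℝ, E) ∞ B] [T2Space B]
  [SimplyConnectedSpace B]

/-- the global bounded holomorphic function -/
theorem global {S : Flat n} {ξp ξm : S.H} (hp : ξp ∈ S.hd.W) (hm : ξm ∈ S.hd.W)
    (d : S.FV a ξp ξm) {T : Type} [TopologicalSpace T] [LocallyConnectedSpace T] {ψ : T → B}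
    (hψ : Continuous ψ) (M : C.MFam S.Y ψ) (t₀ : T) (hc : ∀ q, d2 (M.G t₀).φ q = 0)
    (he : ∀ i, Tendsto (fun q => ((M.G t₀).φ q).1) (S.endF i) (𝓝 (C.sec i (ψ t₀)))) :
    ∃ h : B → ℂ, DiscHol E h ∧ (∀ b, ‖h b‖ ≤ ‖ξp‖ * ‖ξm‖) ∧
      (∃ K : ℝ, ∀ᶠ b in 𝓝 (ψ t₀),
        ‖h b‖ ≤ K * ‖chartAt E (ψ t₀) b - chartAt E (ψ t₀) (ψ t₀)‖ ^ 2) ∧
      ∀ᶠ t in 𝓝 t₀, h (ψ t) = S.Hval ξp ξm (bel (M.G t).φ) := by
  have : LocallyPathConnectedSpace B := ChartedSpace.locallyPathConnectedSpace E B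
  let τ : ∀ b, C.Triv b := fun b => (C.exists_triv b).some
  obtain ⟨σ, hσ0, hσ⟩ := mono (fun b => Adm S.Y (C.Fib b)) (fun _ => F5bR ξp ξm)
    (fun _ => ⟨fun _ => F5bR.of_eq fun _ => rfl, F5bR.symm, F5bR.trans⟩) (fun b => (τ b).U)
    (fun b => (τ b).isOpen) (fun b => (τ b).mem)
    (fun b₀ b h G => G.trans ((τ b₀).M.G ⟨b, h⟩))
    (fun b₀ b h s s' => ⟨F5bR.pull, fun e => e.push _⟩)
    (fun b₀ b h s' => ⟨s'.trans ((τ b₀).M.G ⟨b, h⟩).symm,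
      F5bR.of_eq fun q => ((τ b₀).M.G ⟨b, h⟩).φ.apply_symm_apply _⟩)
    (fun b s => F5bR.of_eq (F5b_base (τ b) s _))
    (fun b₀ b₁ s₀ s₁ b₂ h₀ h₁ e => by
      have : LocallyConnectedSpace ↥((τ b₀).U ∩ (τ b₁).U) :=
        ((τ b₀).isOpen.inter (τ b₁).isOpen).locallyConnectedSpace
      let N₀ : C.MFam S.Y (Subtype.val : ↥((τ b₀).U ∩ (τ b₁).U) → B) :=
        ((τ b₀).M.pre s₀).comap (inclusion inter_subset_left) (continuous_inclusion _)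
      let N₁ : C.MFam S.Y (Subtype.val : ↥((τ b₀).U ∩ (τ b₁).U) → B) :=
        ((τ b₁).M.pre s₁).comap (inclusion inter_subset_right) (continuous_inclusion _)
      have h2 := F5b_sub (F5b_loc hp hm N₀ N₁ (t₀ := ⟨b₂, h₀, h₁⟩) e)
      exact h2.mono fun b hb h₀' h₁' => hb ⟨h₀', h₁'⟩)
    (ψ t₀) (M.G t₀)
  have key : ∀ b₀ (G : Adm S.Y (C.Fib b₀)), F5bR ξp ξm (σ b₀) G →
      (fun b => S.Hval ξp ξm (bel (σ b).φ)) =ᶠ[𝓝 b₀] fun b => S.Hval ξp ξm ((τ b₀).mu G b) := by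
    intro b₀ G hG
    filter_upwards [hσ b₀, (τ b₀).isOpen.mem_nhds (τ b₀).mem] with b h1 h2
    rw [(τ b₀).mu_eq G h2]
    exact ((h1 h2).trans (hG.push _)).val
  refine ⟨fun b => S.Hval ξp ξm (bel (σ b).φ), fun x φ ζ₀ hφ hx => ?_, fun b => ?_, ?_, ?_⟩
  · have hcont : ContinuousAt (fun ζ => (chartAt E x).symm (φ ζ)) ζ₀ :=
      ((chartAt E x).continuousAt_symm hx).comp hφ.continuousAt
    exact ((τ _).hval_hol (σ _) ξp ξm hφ hx (τ _).mem).congr_of_eventuallyEq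
      (hcont.tendsto.eventually (key _ (σ _) (F5bR.of_eq fun _ => rfl)))
  · obtain ⟨h1, κ, -, h2, h3⟩ := S.bel_adm (σ b)
    exact S.Hval_bound hp hm h1.aestronglyMeasurable h3 h2
  · obtain ⟨K, hK⟩ := (τ (ψ t₀)).fv (M.G t₀) d hc he
    refine ⟨K, ?_⟩
    filter_upwards [hK, key _ _ hσ0] with b h1 h2
    rw [h2]; exact h1
  · have hO : IsOpen (ψ ⁻¹' (τ (ψ t₀)).U) := (τ (ψ t₀)).isOpen.preimage hψ
    have : LocallyConnectedSpace ↥(ψ ⁻¹' (τ (ψ t₀)).U) := hO.locallyConnectedSpace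
    let N₀ : C.MFam S.Y (fun t : ↥(ψ ⁻¹' (τ (ψ t₀)).U) => ψ t.1) :=
      ((τ (ψ t₀)).M.pre (M.G t₀)).comap (fun t : ↥(ψ ⁻¹' (τ (ψ t₀)).U) => ⟨ψ t.1, t.2⟩)
        ((hψ.comp continuous_subtype_val).subtype_mk _)
    let N₁ : C.MFam S.Y (fun t : ↥(ψ ⁻¹' (τ (ψ t₀)).U) => ψ t.1) :=
      M.comap Subtype.val continuous_subtype_val
    have h2 := F5b_sub (F5b_loc hp hm N₀ N₁ (t₀ := ⟨t₀, (τ (ψ t₀)).mem⟩)
      (F5bR.of_eq (F5b_base (τ (ψ t₀)) (M.G t₀) (τ (ψ t₀)).mem)))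
    filter_upwards [h2, hO.mem_nhds (τ (ψ t₀)).mem,
      hψ.continuousAt.tendsto.eventually (key _ _ hσ0)] with t h3 h4 h5
    rw [h5, (τ (ψ t₀)).mu_eq _ h4]
    exact (h3 h4).val

end Family

end Pool.Agent.MP_e62289_ag
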