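import Pool.Agent.MP_e62289_ag.Pub

open Set Filter Topology Complex MeasureTheory Metric
open scoped Manifold ContDiff ComplexConjugate NNReal ENNReal

namespace Pool.Agent.MP_e62289_ag

variable (E : Type) [NormedAddCommGroup E] [NormedSpace ℂ E] (B : Type) [EMetricSpace B]
  [ChartedSpace E B]

/-- A complete Kähler metric of bounded bisectional curvature, read in charts. -/
structure KData where
  G : B → E → E →L[ℝ] E →L[ℝ] ℝ
  Γ : B → E → E →L[ℝ] E →L[ℝ] E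
  K : ℝ
  K_nonneg : 0 ≤ K
  smooth : ∀ x, ContDiffOn ℝ ∞ (G x) (chartAt E x).target
  symm : ∀ x, ∀ z ∈ (chartAt E x).target, ∀ v w, G x z v w = G x z w v
  pos : ∀ x, ∀ z ∈ (chartAt E x).target, ∀ v, v ≠ 0 → 0 < G x z v v
  herm : ∀ x, ∀ z ∈ (chartAt E x).target, ∀ v w, G x z (I • v) (I • w) = G x z v w
  compat : ∀ x y, ∀ q ∈ (chartAt E x).source ∩ (chartAt E y).source, ∀ v w,
    G y (chartAt E y q) (fderiv ℝ (chartAt E y ∘ (chartAt E x).symm) (chartAt E x q) v)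
      (fderiv ℝ (chartAt E y ∘ (chartAt E x).symm) (chartAt E x q) w) = G x (chartAt E x q) v w
  Γ_cont : ∀ x, ContinuousOn (Γ x) (chartAt E x).target
  Γ_symm : ∀ x, ∀ z ∈ (chartAt E x).target, ∀ u v, Γ x z u v = Γ x z v u
  Γ_I : ∀ x, ∀ z ∈ (chartAt E x).target, ∀ u v, Γ x z u (I • v) = I • Γ x z u v
  metric : ∀ x, ∀ z ∈ (chartAt E x).target, ∀ u v w,
    fderiv ℝ (fun z => G x z v w) z u = G x z (Γ x z u v) w + G x z v (Γ x z u w)
  bisec : ∀ x, ∀ z ∈ (chartAt E x).target, ∀ V X,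
    |2 * G x z (Γ x z V X) (Γ x z V X) -
      (fderiv ℝ (fun z => fderiv ℝ (fun z => G x z X X) z V) z V +
        fderiv ℝ (fun z => fderiv ℝ (fun z => G x z X X) z (I • V)) z (I • V)) / 2| ≤
      K * G x z V V * G x z X X
  length : ∀ x (c c' : ℝ → E), ContinuousOn c' (Icc 0 1) →
    (∀ t ∈ Icc (0 : ℝ) 1, HasDerivWithinAt c (c' t) (Icc 0 1) t) →
    MapsTo c (Icc 0 1) (chartAt E x).target →
    edist ((chartAt E x).symm (c 0)) ((chartAt E x).symm (c 1)) ≤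
      ENNReal.ofReal (∫ t in (0 : ℝ)..1, √(G x (c t) (c' t) (c' t)))
  compact : ∀ (p : B) (r : ℝ≥0), IsCompact {q | edist p q ≤ r}
  lower : ∀ p : B, ∃ C : ℝ≥0, ∀ᶠ q in 𝓝 p, ‖chartAt E p q - chartAt E p p‖ₑ ≤ C * edist p q

variable {E B}

/-- A bounded primitive of the Kähler form, read in charts. -/
structure DData (k : KData E B) where
  α : B → E → E →L[ℝ] ℝ
  C : ℝ
  smooth : ∀ x, ContDiffOn ℝ 1 (α x) (chartAt E x).target
  compat : ∀ x y, ∀ q ∈ (chartAt E x).source ∩ (chartAt E y).source, ∀ v,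
    α y (chartAt E y q) (fderiv ℝ (chartAt E y ∘ (chartAt E x).symm) (chartAt E x q) v) =
      α x (chartAt E x q) v
  bound : ∀ x, ∀ z ∈ (chartAt E x).target, ∀ v, |α x z v| ≤ C * √(k.G x z v v)
  d : ∀ x, ∀ z ∈ (chartAt E x).target, ∀ v w,
    fderiv ℝ (α x) z v w - fderiv ℝ (α x) z w v = k.G x z (I • v) w

variable (E) in
/-- `h` is holomorphic along holomorphic discs -/
def DiscHol {B : Type} [TopologicalSpace B] [ChartedSpace E B] (h : B → ℂ) : Prop :=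
  ∀ (x : B) (φ : ℂ → E) (ζ₀ : ℂ), AnalyticAt ℂ φ ζ₀ → φ ζ₀ ∈ (chartAt E x).target →
    DifferentiableAt ℂ (fun ζ => h ((chartAt E x).symm (φ ζ))) ζ₀

variable (E) in
/-- paths from `p` made of `n` arcs of class `C¹`, each in one chart -/
structure Chain (n : ℕ) (p : B) where
  x : ℕ → B
  q : ℕ → B
  c : ℕ → ℝ → E
  c' : ℕ → ℝ → E
  q0 : q 0 = p
  cont : ∀ j < n, ContinuousOn (c' j) (Icc 0 1)
  der : ∀ j < n, ∀ t ∈ Icc (0 : ℝ) 1, HasDerivWithinAt (c j) (c' j t) (Icc 0 1) t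
  maps : ∀ j < n, MapsTo (c j) (Icc 0 1) (chartAt E (x j)).target
  left : ∀ j < n, (chartAt E (x j)).symm (c j 0) = q j
  right : ∀ j < n, (chartAt E (x j)).symm (c j 1) = q (j + 1)

/-- energy of one arc -/
noncomputable def Chain.seg (k : KData E B) {n : ℕ} {p : B} (γ : Chain E n p) (j : ℕ) : ℝ :=
  ∫ t in (0 : ℝ)..1, k.G (γ.x j) (γ.c j t) (γ.c' j t) (γ.c' j t)

/-- energy of a chain, each arc being run through in time `1 / n` -/
noncomputable def Chain.energy (k : KData E B) {n : ℕ} {p : B} (γ : Chain E n p) : ℝ :=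
  n * ∑ j ∈ Finset.range n, γ.seg k j

/-- uniform bounds on the metric near the point `z` of the chart at `y` -/
def KData.Bd (k : KData E B) (r M : ℝ) (y : B) (z : E) : Prop :=
  closedBall z r ⊆ (chartAt E y).target ∧ ∀ w ∈ closedBall z r,
    (∀ v, ‖v‖ ^ 2 ≤ M * k.G y w v v) ∧ (∀ i ≤ 3, ‖iteratedFDeriv ℝ i (k.G y) w‖ ≤ M) ∧
      ‖k.Γ y w‖ ≤ M

end Pool.Agent.MP_e62289_ag
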