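import Pool.Agent.MP_e62289_ag.LDefs
import Pool.Agent.MP_e62289_ag.KDefs

open Set Filter Topology Complex MeasureTheory Metric
open scoped Manifold ContDiff ComplexConjugate NNReal ENNReal

namespace Pool.Agent.MP_e62289_ag

namespace Family

variable {E : Type} [NormedAddCommGroup E] [NormedSpace ℂ E] {B : Type} [TopologicalSpace B]
  [ChartedSpace E B] {n : ℕ} {a : Fin n → ℕ} (C : Family E B a)

/-- the fibre over `b` without its marked points -/
abbrev Fib (b : B) : Type := {x : C.X // C.proj x = b ∧ ∀ i, x ≠ C.sec i b}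

theorem proj_symm {x : C.X} {w : ℂ × B} (h : w ∈ (C.chart x).target) :
    C.proj ((C.chart x).symm w) = w.2 := by
  rw [← C.snd_chart x _ ((C.chart x).map_target h), (C.chart x).right_inv h]

theorem chart_eq {x q : C.X} (h : q ∈ (C.chart x).source) :
    ((C.chart x q).1, C.proj q) = C.chart x q := by
  rw [← C.snd_chart x q h]

open Classical in
/-- the chart of the punctured fibre given by the chart at `x` of the total space; `y` is a
default value -/
noncomputable def fchart {b : B} (y : C.Fib b) (x : C.X) : OpenPartialHomeomorph (C.Fib b) ℂ where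
  toFun q := (C.chart x q.1).1
  invFun z := if h : (z, b) ∈ (C.chart x).target ∧ ∀ i, (C.chart x).symm (z, b) ≠ C.sec i b then
    ⟨(C.chart x).symm (z, b), C.proj_symm h.1, h.2⟩ else y
  source := {q | q.1 ∈ (C.chart x).source}
  target := {z | (z, b) ∈ (C.chart x).target ∧ ∀ i, (C.chart x).symm (z, b) ≠ C.sec i b}
  map_source' q hq := by
    have e := C.chart_eq hq
    rw [q.2.1] at e
    exact ⟨e ▸ (C.chart x).map_source hq, fun i => by
      rw [e, (C.chart x).left_inv hq]
      exact q.2.2 i⟩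
  map_target' z hz := by
    have hz' : (z, b) ∈ (C.chart x).target ∧ ∀ i, (C.chart x).symm (z, b) ≠ C.sec i b := hz
    rw [dif_pos hz']
    exact (C.chart x).map_target hz.1
  left_inv' q hq := by
    have e := C.chart_eq hq
    rw [q.2.1] at e
    have hz' : ((C.chart x q.1).1, b) ∈ (C.chart x).target ∧
        ∀ i, (C.chart x).symm ((C.chart x q.1).1, b) ≠ C.sec i b :=
      ⟨e ▸ (C.chart x).map_source hq, fun i => by
        rw [e, (C.chart x).left_inv hq]
        exact q.2.2 i⟩
    rw [dif_pos hz']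
    exact Subtype.ext (by
      change (C.chart x).symm (_, b) = q.1
      rw [e, (C.chart x).left_inv hq])
  right_inv' z hz := by
    have hz' : (z, b) ∈ (C.chart x).target ∧ ∀ i, (C.chart x).symm (z, b) ≠ C.sec i b := hz
    rw [dif_pos hz']
    change (C.chart x ((C.chart x).symm (z, b))).1 = z
    rw [(C.chart x).right_inv hz.1]
  open_source := (C.chart x).open_source.preimage continuous_subtype_val
  open_target := by
    have h1 : IsOpen ((C.chart x).target ∩ (C.chart x).symm ⁻¹' (range fun i => C.sec i b)ᶜ) :=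
      (C.chart x).isOpen_inter_preimage_symm (finite_range _).isClosed.isOpen_compl
    have h2 := h1.preimage (Continuous.prodMk_left b)
    convert h2 using 1
    ext z
    simp [eq_comm]
  continuousOn_toFun := continuous_fst.comp_continuousOn
    ((C.chart x).continuousOn.comp continuous_subtype_val.continuousOn fun _ h => h)
  continuousOn_invFun := by
    refine Topology.IsInducing.subtypeVal.continuousOn_iff.2 ?_
    refine ((C.chart x).continuousOn_symm.comp (Continuous.prodMk_left b).continuousOn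
      fun z hz => hz.1).congr fun z hz => ?_
    have hz' : (z, b) ∈ (C.chart x).target ∧ ∀ i, (C.chart x).symm (z, b) ≠ C.sec i b := hz
    simp only [Function.comp_apply, dif_pos hz']

noncomputable instance (b : B) : ChartedSpace ℂ (C.Fib b) where
  atlas := range fun y : C.Fib b => C.fchart y y.1
  chartAt y := C.fchart y y.1
  mem_chart_source y := C.mem_source y.1
  chart_mem_atlas y := mem_range_self y

theorem chartAt_fib {b : B} (y : C.Fib b) : chartAt ℂ y = C.fchart y y.1 := rfl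

theorem fchart_apply {b : B} (y : C.Fib b) (x : C.X) (q : C.Fib b) :
    C.fchart y x q = (C.chart x q.1).1 := rfl

theorem mem_fchart_source {b : B} (y : C.Fib b) (x : C.X) (q : C.Fib b) :
    q ∈ (C.fchart y x).source ↔ q.1 ∈ (C.chart x).source := Iff.rfl

theorem mem_fchart_target {b : B} (y : C.Fib b) (x : C.X) (z : ℂ) :
    z ∈ (C.fchart y x).target ↔
      (z, b) ∈ (C.chart x).target ∧ ∀ i, (C.chart x).symm (z, b) ≠ C.sec i b := Iff.rfl

theorem fchart_symm {b : B} (y : C.Fib b) (x : C.X) {z : ℂ} (hz : z ∈ (C.fchart y x).target) :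
    ((C.fchart y x).symm z).1 = (C.chart x).symm (z, b) := by
  have hz' : (z, b) ∈ (C.chart x).target ∧ ∀ i, (C.chart x).symm (z, b) ≠ C.sec i b := hz
  exact congrArg Subtype.val (dif_pos hz')

/-- the punctured total space of the family induced by `ψ` -/
abbrev Tot {T : Type} (ψ : T → B) : Type :=
  {p : T × C.X // C.proj p.2 = ψ p.1 ∧ ∀ i, p.2 ≠ C.sec i (ψ p.1)}

/-- continuous families of markings of the fibres by a fixed surface -/
structure MFam (Y : Type) [TopologicalSpace Y] [ChartedSpace ℂ Y] {T : Type} [TopologicalSpace T]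
    (ψ : T → B) where
  G : ∀ t, Adm Y (C.Fib (ψ t))
  cont : Continuous fun p : T × Y => ((G p.1).φ p.2).1
  cont' : Continuous fun p : C.Tot ψ => (G p.1.1).φ.symm ⟨p.1.2, p.2⟩
  conf : ∃ K, IsCompact K ∧ ∀ t q, q ∉ K → d2 (G t).φ q = 0

/-- local trivialisations that are holomorphic in the base -/
structure Triv (b₀ : B) where
  U : Set B
  isOpen : IsOpen U
  mem : b₀ ∈ U
  M : C.MFam (C.Fib b₀) (Subtype.val : U → B)
  F : B → C.X → C.X
  eq : ∀ (b : U) (q : C.Fib b₀), ((M.G b).φ q).1 = F b q.1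
  base : ∀ x, C.proj x = b₀ → F b₀ x = x
  contF : ContinuousOn (fun p : B × C.X => F p.1 p.2) (U ×ˢ (C.proj ⁻¹' {b₀}))
  sec : ∀ b ∈ U, ∀ i, F b (C.sec i b₀) = C.sec i b
  smooth : ∀ x, ContMDiffOn (𝓘(ℝ, E).prod 𝓘(ℝ, ℂ)) 𝓘(ℝ, ℂ) 2
    (fun p : B × C.Fib b₀ => (C.chart x (F p.1 p.2.1)).1)
    {p | p.1 ∈ U ∧ F p.1 p.2.1 ∈ (C.chart x).source}
  hol : ∀ x (q : C.Fib b₀), MDifferentiableOn 𝓘(ℂ, E) 𝓘(ℂ, ℂ) (fun b => (C.chart x (F b q.1)).1)
    {b | b ∈ U ∧ F b q.1 ∈ (C.chart x).source}

/-- `f` is a relative holomorphic form over `V` with the prescribed zeros -/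
def IsForm (V : Set B) (f : C.X → ℂ × B → ℂ) : Prop :=
  (∀ x, MDifferentiableOn (𝓘(ℂ, ℂ).prod 𝓘(ℂ, E)) 𝓘(ℂ, ℂ) (f x)
      ((C.chart x).target ∩ univ ×ˢ V)) ∧
    (∀ x y, ∀ q ∈ (C.chart x).source ∩ (C.chart y).source, C.proj q ∈ V →
      f x (C.chart x q) = f y (C.chart y q) *
        deriv (fun z => (C.chart y ((C.chart x).symm (z, C.proj q))).1) (C.chart x q).1) ∧
    (∀ x, C.proj x ∈ V → analyticOrderAt (fun z => f x (z, C.proj x)) (C.chart x x).1 =
      ((∑ᶠ (i) (_ : C.sec i (C.proj x) = x), (a i - 1) : ℕ) : ℕ∞))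

theorem exists_form (b : B) : ∃ V : Set B, IsOpen V ∧ b ∈ V ∧ ∃ f, C.IsForm V f := C.form b

/-- the coefficients of the pull back of the form `f` by a map `G` into the total space -/
noncomputable def pb1 {Y : Type} [TopologicalSpace Y] [ChartedSpace ℂ Y] (f : C.X → ℂ × B → ℂ)
    (G : Y → C.X) (q : Y) : ℂ :=
  f (G q) (C.chart (G q) (G q)) * d1 (fun y => (C.chart (G q) (G y)).1) q

/-- the coefficients of the pull back of the form `f` by a map `G` into the total space -/
noncomputable def pb2 {Y : Type} [TopologicalSpace Y] [ChartedSpace ℂ Y] (f : C.X → ℂ × B → ℂ)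
    (G : Y → C.X) (q : Y) : ℂ :=
  f (G q) (C.chart (G q) (G q)) * d2 (fun y => (C.chart (G q) (G y)).1) q

end Family

/-- the data on the base surface that make the first variation vanish -/
structure Flat.FV {n : ℕ} (S : Flat n) (a : Fin n → ℕ) (ξp ξm : S.H) where
  w : S.Y → ℂ
  R : S.Y → ℂ
  w_hol : Hol w
  R_hol : Hol R
  w_ne : ∀ q, w q ≠ 0
  prod : ∀ᵐ q ∂S.lam, S.f q * ξp q * ξm q = w q * d1 R q
  ends : ∀ i, ∃ c : ℝ, 0 < c ∧ ∀ᶠ q in S.endF i,
    c * ‖S.e i q‖ ^ (a i - 1) * ‖d1 (S.e i) q‖ ≤ ‖w q‖ ∧ c * ‖S.e i q‖ ^ (a i - 1) * ‖R q‖ ≤ 1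

end Pool.Agent.MP_e62289_ag
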