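import Pool.Agent.MP_e62289_ag.W

open Set Filter Topology Complex MeasureTheory Metric
open scoped Manifold ContDiff ComplexConjugate NNReal ENNReal

namespace Pool.Agent.MP_e62289_ag

/-- An abstract space of square integrable forms: conjugation `c` and exact forms `E`. -/
structure HData (H : Type) [NormedAddCommGroup H] [InnerProductSpace ℂ H] where
  c : H → H
  c_add : ∀ x y, c (x + y) = c x + c y
  c_smul : ∀ (a : ℂ) x, c (a • x) = conj a • c x
  c_c : ∀ x, c (c x) = x
  inner_c : ∀ x y, inner ℂ (c x) (c y) = inner ℂ y x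
  E : Submodule ℂ (H × H)
  iso : ∀ e ∈ E, ∀ e' ∈ E, inner ℂ (c e.1) e'.2 = inner ℂ (c e.2) e'.1
  stab : ∀ e ∈ E, (c e.2, c e.1) ∈ E

namespace HData

variable {H : Type} [NormedAddCommGroup H] [InnerProductSpace ℂ H] (D : HData H)

/-- the symmetric bilinear pairing -/
noncomputable def β (A B : H) : ℂ := inner ℂ (D.c A) B

/-- holomorphic forms -/
def W : Set H := {A | ∀ e ∈ D.E, D.β A e.2 = 0}

/-- antiholomorphic forms -/
def Wb : Set H := {A | ∀ e ∈ D.E, D.β A e.1 = 0}

/-- the closure of the exact forms -/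
def Eb : Set (H × H) := closure (D.E : Set (H × H))

/-- `T` has graph `Eb + Wb` -/
def IsT (T : H →L[ℂ] H) : Prop :=
  ‖T‖ ≤ 1 ∧ ∀ A B : H, (∃ η ∈ D.Wb, (A, B - η) ∈ D.Eb) ↔ A = T B

open Classical in
/-- the singular integral operator -/
noncomputable def T : H →L[ℂ] H := if h : ∃ T, D.IsT T then h.choose else 0

/-- an entry of the period matrix -/
noncomputable def hv (ξp ξm : H) (m : H →L[ℂ] H) : ℂ :=
  D.β ξm (m (Ring.inverse (1 - D.T * m) ξp))

end HData

end Pool.Agent.MP_e62289_ag
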