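import Pool.Agent.MP_e62289_ag.L5

open Set Filter Topology Complex MeasureTheory Metric
open scoped Manifold ContDiff ComplexConjugate NNReal ENNReal

namespace Pool.Agent.MP_e62289_ag

theorem L11_abs {H : Type} [NormedAddCommGroup H] [InnerProductSpace ℂ H] [CompleteSpace H]
    (D : HData H) (ξp ξm : H) {A B N : H →L[ℂ] H} (hA : ‖A‖ ≤ 1) (hB : ‖B‖ ≤ 1)
    {M : ℂ → ℂ → ℝ → H →L[ℂ] H}
    (h1 : ∀ ε δ : ℂ, (ε = 1 ∨ ε = -1) → (δ = 1 ∨ δ = -1) →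
      Tendsto (fun t : ℝ => (t : ℂ)⁻¹ • M ε δ t) (𝓝[>] 0) (𝓝 (ε • A + δ • B)))
    (h2 : Tendsto (fun t : ℝ => (4 * (t : ℂ) ^ 2)⁻¹ •
      (M 1 1 t + (-1 : ℂ) • M 1 (-1) t + (-1 : ℂ) • M (-1) 1 t + M (-1) (-1) t)) (𝓝[>] 0) (𝓝 N))
    {Bd : ℝ} (h3 : ∀ η : ℝ, 0 < η → ∀ ε δ : ℂ, (ε = 1 ∨ ε = -1) → (δ = 1 ∨ δ = -1) →
      ∀ᶠ t : ℝ in 𝓝[>] 0, ‖D.hv ξp ξm (M ε δ t)‖ ≤ (Bd + η) * t ^ 2) :
    ‖D.β ξm (N ξp)‖ ≤ Bd + 2 * (‖ξp‖ * ‖ξm‖) := by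
  let L : (H →L[ℂ] H) →L[ℂ] ℂ := (innerSL ℂ (D.c ξm)).comp (ContinuousLinearMap.apply ℂ H ξp)
  have hL : ∀ m, D.β ξm (m ξp) = L m := fun m => rfl
  have hQ : ∀ m m' : H →L[ℂ] H, D.β ξm (m (D.T (m' ξp))) = L (m * D.T * m') := fun m m' => rfl
  have hid : Tendsto (fun t : ℝ => t) (𝓝[>] 0) (𝓝 0) := nhdsWithin_le_nhds
  have key : ∀ ε δ : ℂ, (ε = 1 ∨ ε = -1) → (δ = 1 ∨ δ = -1) →
      Tendsto (fun t : ℝ => ((t : ℂ) ^ 2)⁻¹ * (D.hv ξp ξm (M ε δ t) - L (M ε δ t))) (𝓝[>] 0)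
        (𝓝 (L ((ε • A + δ • B) * D.T * (ε • A + δ • B)))) := by
    intro ε δ hε hδ
    have a1 := h1 ε δ hε hδ
    set m : ℝ → H →L[ℂ] H := fun t => (t : ℂ)⁻¹ • M ε δ t with hm
    have hMm : ∀ t : ℝ, 0 < t → M ε δ t = (t : ℂ) • m t := fun t ht => by
      simp only [hm]
      rw [smul_smul, mul_inv_cancel₀ (by exact_mod_cast ht.ne'), one_smul]
    have hn : ∀ t : ℝ, 0 < t → ‖M ε δ t‖ = t * ‖m t‖ := fun t ht => by
      rw [hMm t ht, norm_smul, Complex.norm_real, Real.norm_of_nonneg ht.le]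
    have a2 : Tendsto (fun t => L (m t * D.T * m t)) (𝓝[>] 0)
        (𝓝 (L ((ε • A + δ • B) * D.T * (ε • A + δ • B)))) :=
      (L.continuous.tendsto _).comp ((a1.mul_const _).mul a1)
    have a3 : Tendsto (fun t : ℝ => t * ‖m t‖) (𝓝[>] 0) (𝓝 0) := by
      simpa using hid.mul a1.norm
    have a4 : Tendsto (fun t : ℝ => ((t : ℂ) ^ 2)⁻¹ * (D.hv ξp ξm (M ε δ t) - L (M ε δ t)) -
        L (m t * D.T * m t)) (𝓝[>] 0) (𝓝 0) := by
      have b1 : Tendsto (fun t : ℝ => 2 * (t * ‖m t‖ ^ 3) * (‖ξp‖ * ‖ξm‖)) (𝓝[>] 0) (𝓝 0) := by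
        simpa using ((hid.mul (a1.norm.pow 3)).const_mul 2).mul_const (‖ξp‖ * ‖ξm‖)
      refine squeeze_zero_norm' ?_ b1
      filter_upwards [self_mem_nhdsWithin, a3.eventually (ge_mem_nhds (by norm_num : (0 : ℝ) < 1 / 2))]
        with t ht ht2
      have ht : 0 < t := ht
      have htc : (t : ℂ) ≠ 0 := by exact_mod_cast ht.ne'
      have b2 := D.hv_quad ξp ξm (m := M ε δ t) (by rw [hn t ht]; exact ht2)
      rw [hL, hQ, hn t ht] at b2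
      have b3 : L (M ε δ t * D.T * M ε δ t) = (t : ℂ) ^ 2 * L (m t * D.T * m t) := by
        rw [hMm t ht]
        simp only [smul_mul_assoc, mul_smul_comm, map_smul, smul_eq_mul]
        ring
      have b4 : ((t : ℂ) ^ 2)⁻¹ * (D.hv ξp ξm (M ε δ t) - L (M ε δ t)) - L (m t * D.T * m t) =
          ((t : ℂ) ^ 2)⁻¹ * (D.hv ξp ξm (M ε δ t) - L (M ε δ t) - L (M ε δ t * D.T * M ε δ t)) := by
        rw [b3]
        field_simp
      rw [b4, norm_mul, norm_inv, norm_pow, Complex.norm_real, Real.norm_of_nonneg ht.le,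
        inv_mul_le_iff₀ (by positivity)]
      refine b2.trans (le_of_eq ?_)
      ring
    simpa using a4.add a2
  have k1 := key 1 1 (Or.inl rfl) (Or.inl rfl)
  have k2 := key 1 (-1) (Or.inl rfl) (Or.inr rfl)
  have k3 := key (-1) 1 (Or.inr rfl) (Or.inl rfl)
  have k4 := key (-1) (-1) (Or.inr rfl) (Or.inr rfl)
  have k5 := (((L.continuous.tendsto _).comp h2).const_mul 4).add (((k1.sub k2).sub k3).add k4)
  have e1 : 4 * L N + (L (((1 : ℂ) • A + (1 : ℂ) • B) * D.T * ((1 : ℂ) • A + (1 : ℂ) • B)) -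
      L (((1 : ℂ) • A + (-1 : ℂ) • B) * D.T * ((1 : ℂ) • A + (-1 : ℂ) • B)) -
      L (((-1 : ℂ) • A + (1 : ℂ) • B) * D.T * ((-1 : ℂ) • A + (1 : ℂ) • B)) +
      L (((-1 : ℂ) • A + (-1 : ℂ) • B) * D.T * ((-1 : ℂ) • A + (-1 : ℂ) • B))) =
      4 * (L N + L (A * D.T * B) + L (B * D.T * A)) := by
    simp only [add_mul, mul_add, smul_mul_assoc, mul_smul_comm, map_add, map_smul, smul_eq_mul]
    ring
  rw [e1] at k5
  have k6 : Tendsto (fun t : ℝ => ((t : ℂ) ^ 2)⁻¹ * (D.hv ξp ξm (M 1 1 t) - D.hv ξp ξm (M 1 (-1) t) -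
      D.hv ξp ξm (M (-1) 1 t) + D.hv ξp ξm (M (-1) (-1) t))) (𝓝[>] 0)
      (𝓝 (4 * (L N + L (A * D.T * B) + L (B * D.T * A)))) := by
    refine k5.congr fun t => ?_
    simp only [Function.comp_apply, map_add, map_smul, smul_eq_mul, mul_inv]
    ring
  have k7 : ‖L N + L (A * D.T * B) + L (B * D.T * A)‖ ≤ Bd := by
    refine le_of_forall_pos_le_add fun η hη => ?_
    have b1 : ‖4 * (L N + L (A * D.T * B) + L (B * D.T * A))‖ ≤ 4 * (Bd + η) := by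
      refine le_of_tendsto k6.norm ?_
      filter_upwards [self_mem_nhdsWithin, h3 η hη 1 1 (Or.inl rfl) (Or.inl rfl),
        h3 η hη 1 (-1) (Or.inl rfl) (Or.inr rfl), h3 η hη (-1) 1 (Or.inr rfl) (Or.inl rfl),
        h3 η hη (-1) (-1) (Or.inr rfl) (Or.inr rfl)] with t ht c1 c2 c3 c4
      have ht : 0 < t := ht
      rw [norm_mul, norm_inv, norm_pow, Complex.norm_real, Real.norm_of_nonneg ht.le,
        inv_mul_le_iff₀ (by positivity)]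
      have c5 := norm_add_le (D.hv ξp ξm (M 1 1 t) - D.hv ξp ξm (M 1 (-1) t) -
        D.hv ξp ξm (M (-1) 1 t)) (D.hv ξp ξm (M (-1) (-1) t))
      have c6 := norm_sub_le (D.hv ξp ξm (M 1 1 t) - D.hv ξp ξm (M 1 (-1) t))
        (D.hv ξp ξm (M (-1) 1 t))
      have c7 := norm_sub_le (D.hv ξp ξm (M 1 1 t)) (D.hv ξp ξm (M 1 (-1) t))
      linarith
    rw [norm_mul] at b1
    have : ‖(4 : ℂ)‖ = 4 := by simp
    rw [this] at b1
    linarith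
  have k8 : ∀ X Y : H →L[ℂ] H, ‖X‖ ≤ 1 → ‖Y‖ ≤ 1 → ‖L (X * D.T * Y)‖ ≤ ‖ξp‖ * ‖ξm‖ := by
    intro X Y hX hY
    rw [← hL, mul_comm ‖ξp‖]
    refine (D.norm_β_le _ _).trans (mul_le_mul_of_nonneg_left ?_ (norm_nonneg _))
    have b1 : ‖X * D.T * Y‖ ≤ 1 := by
      refine (norm_mul_le _ _).trans (mul_le_one₀ ?_ (norm_nonneg _) hY)
      exact (norm_mul_le _ _).trans (mul_le_one₀ hX (norm_nonneg _) D.norm_T_le)
    exact ((X * D.T * Y).le_of_opNorm_le b1 ξp).trans (one_mul _).le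
  rw [hL]
  have e2 : L N = (L N + L (A * D.T * B) + L (B * D.T * A)) - L (A * D.T * B) - L (B * D.T * A) := by
    ring
  rw [e2]
  have c6 := norm_sub_le (L N + L (A * D.T * B) + L (B * D.T * A) - L (A * D.T * B))
    (L (B * D.T * A))
  have c7 := norm_sub_le (L N + L (A * D.T * B) + L (B * D.T * A)) (L (A * D.T * B))
  linarith [k8 A B hA hB, k8 B A hB hA]

namespace Flat

variable {n : ℕ} (S : Flat n)

/-- bounded measurable functions -/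
def L11BM (μ : S.Y → ℂ) : Prop := AEStronglyMeasurable μ S.lamf ∧ ∃ κ : ℝ, ∀ q, ‖μ q‖ ≤ κ

variable {S} in
theorem L11BM.add {μ ν : S.Y → ℂ} (h : S.L11BM μ) (h' : S.L11BM ν) :
    S.L11BM (fun q => μ q + ν q) ∧ S.mulOp (fun q => μ q + ν q) = S.mulOp μ + S.mulOp ν := by
  obtain ⟨h1, κ, h2⟩ := h
  obtain ⟨h3, κ', h4⟩ := h'
  exact ⟨⟨h1.add h3, κ + κ', fun q => (norm_add_le _ _).trans (add_le_add (h2 q) (h4 q))⟩,
    S.mulOp_add h1 h2 h3 h4⟩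

variable {S} in
theorem L11BM.smul {μ : S.Y → ℂ} (h : S.L11BM μ) (c : ℂ) :
    S.L11BM (fun q => c * μ q) ∧ S.mulOp (fun q => c * μ q) = c • S.mulOp μ := by
  obtain ⟨h1, κ, h2⟩ := h
  exact ⟨⟨h1.const_mul c, ‖c‖ * κ, fun q => by
    rw [norm_mul]; exact mul_le_mul_of_nonneg_left (h2 q) (norm_nonneg _)⟩, S.mulOp_smul h1 h2 c⟩

theorem L11_lim {f : ℝ → S.Y → ℂ} {g : S.Y → ℂ} {c : ℝ → ℝ}
    (hf : ∀ᶠ t in 𝓝[>] (0 : ℝ), S.L11BM (f t) ∧ ∀ q, ‖f t q - g q‖ ≤ c t)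
    (hc : Tendsto c (𝓝[>] 0) (𝓝 0)) :
    S.L11BM g ∧ Tendsto (fun t => S.mulOp (f t)) (𝓝[>] 0) (𝓝 (S.mulOp g)) := by
  classical
  have hg : S.L11BM g := by
    constructor
    · refine aestronglyMeasurable_of_tendsto_ae (𝓝[>] (0 : ℝ))
        (f := fun t => if S.L11BM (f t) then f t else 0) (fun t => ?_) (ae_of_all _ fun q => ?_)
      · split_ifs with h
        · exact h.1
        · exact aestronglyMeasurable_zero
      · rw [tendsto_iff_norm_sub_tendsto_zero]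
        refine squeeze_zero' (Eventually.of_forall fun _ => norm_nonneg _) ?_ hc
        filter_upwards [hf] with t ht
        rw [if_pos ht.1]
        exact ht.2 q
    · obtain ⟨t, ⟨-, κ, h1⟩, h2⟩ := hf.exists
      refine ⟨κ + c t, fun q => ?_⟩
      have : g q = f t q - (f t q - g q) := by ring
      rw [this]
      exact (norm_sub_le _ _).trans (add_le_add (h1 q) (h2 q))
  refine ⟨hg, ?_⟩
  rw [tendsto_iff_norm_sub_tendsto_zero]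
  refine squeeze_zero' (Eventually.of_forall fun _ => norm_nonneg _) ?_ hc
  filter_upwards [hf] with t ht
  obtain ⟨a1, a2⟩ := ht.1.add (hg.smul (-1)).1
  rw [(hg.smul (-1)).2, neg_one_smul, ← sub_eq_add_neg] at a2
  rw [← a2]
  exact S.norm_mulOp a1.1 fun q => by simpa [sub_eq_add_neg] using ht.2 q

/-- the mixed second derivative of the period function -/
theorem second (ξp ξm : S.H) {μ : ℂ → ℂ → S.Y → ℂ} {ν : S.Y → ℂ} {ρ : ℝ} (hρ : 0 < ρ)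
    (hρ1 : ρ ≤ 1) (hm : ∀ u ∈ ball (0 : ℂ) ρ, ∀ r ∈ ball (0 : ℂ) ρ, Continuous (μ u r))
    (h0 : ∀ q, μ 0 0 q = 0)
    (hb : ∀ u ∈ ball (0 : ℂ) ρ, ∀ r ∈ ball (0 : ℂ) ρ, ∀ q, ‖μ u r q‖ ≤ 1)
    (hu : ∀ r ∈ ball (0 : ℂ) ρ, ∀ q, DifferentiableOn ℂ (fun u => μ u r q) (ball 0 ρ))
    (hr : ∀ u ∈ ball (0 : ℂ) ρ, ∀ q, DifferentiableOn ℂ (fun r => μ u r q) (ball 0 ρ))
    (au : ∀ q, DifferentiableOn ℂ (fun u => μ u 0 q) (ball 0 1) ∧
      ∀ u ∈ ball (0 : ℂ) 1, ‖μ u 0 q‖ ≤ 1)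
    (ar : ∀ q, DifferentiableOn ℂ (fun r => μ 0 r q) (ball 0 1) ∧
      ∀ r ∈ ball (0 : ℂ) 1, ‖μ 0 r q‖ ≤ 1)
    (hν : ∀ q, HasDerivAt (fun u => deriv (fun r => μ u r q) 0) (ν q) 0) {Bd : ℝ}
    (hB : ∀ η : ℝ, 0 < η → ∀ ε δ : ℂ, (ε = 1 ∨ ε = -1) → (δ = 1 ∨ δ = -1) →
      ∀ᶠ t : ℝ in 𝓝[>] 0, ‖S.Hval ξp ξm (μ (ε * t) (δ * t))‖ ≤ (Bd + η) * t ^ 2) :
    ‖∫ q, ν q * (S.f q * ξp q * ξm q) ∂S.lam‖ ≤ Bd + 2 * (‖ξp‖ * ‖ξm‖) := by
  set a : S.Y → ℂ := fun q => deriv (fun u => μ u 0 q) 0 with ha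
  set b : S.Y → ℂ := fun q => deriv (fun r => μ 0 r q) 0 with hb'
  have sa := fun q => schwarz_two one_pos (au q).1 (au q).2
  have sb := fun q => schwarz_two one_pos (ar q).1 (ar q).2
  have bd := fun q => bidisc (g := fun u r => μ u r q) hρ (fun r h => hu r h q)
    (fun u h => hr u h q) (fun u h r h' => hb u h r h' q) (hν q)
  have hid : Tendsto (fun t : ℝ => t) (𝓝[>] 0) (𝓝 0) := nhdsWithin_le_nhds
  have ev : ∀ᶠ t : ℝ in 𝓝[>] 0, 0 < t ∧ t < ρ := Ioo_mem_nhdsGT hρ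
  have z0 : (0 : ℂ) ∈ ball (0 : ℂ) ρ := mem_ball_self hρ
  have bm : ∀ u ∈ ball (0 : ℂ) ρ, ∀ r ∈ ball (0 : ℂ) ρ, S.L11BM (μ u r) := fun u h r h' =>
    ⟨(hm u h r h').aestronglyMeasurable, 1, hb u h r h'⟩
  have nm : ∀ ε : ℂ, (ε = 1 ∨ ε = -1) → ∀ t : ℝ, 0 < t → ‖ε * t‖ = t := by
    rintro ε (rfl | rfl) t ht <;> simp [ht.le]
  have mb : ∀ ε : ℂ, (ε = 1 ∨ ε = -1) → ∀ t : ℝ, 0 < t → t < ρ → ε * t ∈ ball (0 : ℂ) ρ :=
    fun ε h t ht ht' => by rw [mem_ball_zero_iff, nm ε h t ht]; exact ht'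
  have one : ∀ {g : ℂ → S.Y → ℂ} {d : S.Y → ℂ}, (∀ u ∈ ball (0 : ℂ) ρ, S.L11BM (g u)) →
      (∀ u ∈ ball (0 : ℂ) ρ, ∀ q, ‖g u q - u * d q‖ ≤ 6 * ‖u‖ ^ 2) → S.L11BM d := by
    intro g d g1 g2
    refine (S.L11_lim (f := fun t q => (t : ℂ)⁻¹ * g (1 * t) q) (c := fun t => 6 * t) ?_
      (by simpa using hid.const_mul 6)).1
    filter_upwards [ev] with t ht
    refine ⟨((g1 _ (mb 1 (Or.inl rfl) t ht.1 ht.2)).smul _).1, fun q => ?_⟩
    have htc : (t : ℂ) ≠ 0 := by exact_mod_cast ht.1.ne'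
    have e : (t : ℂ)⁻¹ * g (1 * t) q - d q = (t : ℂ)⁻¹ * (g (1 * t) q - 1 * t * d q) := by
      field_simp
    have := g2 _ (mb 1 (Or.inl rfl) t ht.1 ht.2) q
    rw [nm 1 (Or.inl rfl) t ht.1] at this
    rw [e, norm_mul, norm_inv, Complex.norm_real, Real.norm_of_nonneg ht.1.le,
      inv_mul_le_iff₀ ht.1]
    exact this.trans (le_of_eq (by ring))
  have la : ∀ u ∈ ball (0 : ℂ) ρ, ∀ q, ‖μ u 0 q - u * a q‖ ≤ 6 * ‖u‖ ^ 2 := fun u h q => by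
    simpa [h0] using ((sa q).2 u (ball_subset_ball hρ1 h)).2
  have lb : ∀ u ∈ ball (0 : ℂ) ρ, ∀ q, ‖μ 0 u q - u * b q‖ ≤ 6 * ‖u‖ ^ 2 := fun u h q => by
    simpa [h0] using ((sb q).2 u (ball_subset_ball hρ1 h)).2
  have ma : S.L11BM a := one (g := fun u => μ u 0) (fun u h => bm u h 0 z0) la
  have mb' : S.L11BM b := one (g := fun u => μ 0 u) (fun u h => bm 0 z0 u h) lb
  have rem : ∀ ε δ : ℂ, (ε = 1 ∨ ε = -1) → (δ = 1 ∨ δ = -1) → ∀ t : ℝ, 0 < t → t < ρ → ∀ q,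
      ‖μ (ε * t) (δ * t) q - μ (ε * t) 0 q - μ 0 (δ * t) q - ε * t * (δ * t) * ν q‖ ≤
        200 / ρ ^ 3 * t ^ 3 := by
    intro ε δ hε hδ t ht ht' q
    have := (bd q).2 _ (mb ε hε t ht ht') _ (mb δ hδ t ht ht')
    rw [nm ε hε t ht, nm δ hδ t ht, h0, add_zero] at this
    exact this.trans (le_of_eq (by ring))
  have two : S.L11BM ν ∧ Tendsto (fun t : ℝ => S.mulOp (fun q => (4 * (t : ℂ) ^ 2)⁻¹ *
      (μ (1 * t) (1 * t) q + (-1) * μ (1 * t) (-1 * t) q + (-1) * μ (-1 * t) (1 * t) q +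
        μ (-1 * t) (-1 * t) q))) (𝓝[>] 0) (𝓝 (S.mulOp ν)) := by
    refine S.L11_lim (c := fun t => 200 / ρ ^ 3 * t) ?_ (by simpa using hid.const_mul (200 / ρ ^ 3))
    filter_upwards [ev] with t ht
    have p := mb 1 (Or.inl rfl) t ht.1 ht.2
    have p' := mb (-1) (Or.inr rfl) t ht.1 ht.2
    refine ⟨(((((bm _ p _ p).add ((bm _ p _ p').smul (-1)).1).1.add
      ((bm _ p' _ p).smul (-1)).1).1.add (bm _ p' _ p')).1.smul _).1, fun q => ?_⟩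
    have htc : (t : ℂ) ≠ 0 := by exact_mod_cast ht.1.ne'
    have r1 := rem 1 1 (Or.inl rfl) (Or.inl rfl) t ht.1 ht.2 q
    have r2 := rem 1 (-1) (Or.inl rfl) (Or.inr rfl) t ht.1 ht.2 q
    have r3 := rem (-1) 1 (Or.inr rfl) (Or.inl rfl) t ht.1 ht.2 q
    have r4 := rem (-1) (-1) (Or.inr rfl) (Or.inr rfl) t ht.1 ht.2 q
    set R1 := μ (1 * t) (1 * t) q - μ (1 * t) 0 q - μ 0 (1 * t) q - 1 * t * (1 * t) * ν q with e1
    set R2 := μ (1 * t) (-1 * t) q - μ (1 * t) 0 q - μ 0 (-1 * t) q - 1 * t * (-1 * t) * ν q with e2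
    set R3 := μ (-1 * t) (1 * t) q - μ (-1 * t) 0 q - μ 0 (1 * t) q - -1 * t * (1 * t) * ν q with e3
    set R4 := μ (-1 * t) (-1 * t) q - μ (-1 * t) 0 q - μ 0 (-1 * t) q - -1 * t * (-1 * t) * ν q
      with e4
    have e : (4 * (t : ℂ) ^ 2)⁻¹ * (μ (1 * t) (1 * t) q + (-1) * μ (1 * t) (-1 * t) q +
        (-1) * μ (-1 * t) (1 * t) q + μ (-1 * t) (-1 * t) q) - ν q =
        (4 * (t : ℂ) ^ 2)⁻¹ * (R1 - R2 - R3 + R4) := by
      rw [e1, e2, e3, e4]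
      generalize μ (1 * t) (1 * t) q = x1
      generalize μ (1 * t) (-1 * t) q = x2
      generalize μ (-1 * t) (1 * t) q = x3
      generalize μ (-1 * t) (-1 * t) q = x4
      generalize μ (1 * t) 0 q = y1
      generalize μ (-1 * t) 0 q = y2
      generalize μ 0 (1 * t) q = y3
      generalize μ 0 (-1 * t) q = y4
      field_simp
      ring
    have n4 : ‖4 * (t : ℂ) ^ 2‖ = 4 * t ^ 2 := by simp
    have ht0 := ht.1
    rw [e, norm_mul, norm_inv, n4, inv_mul_le_iff₀ (by positivity)]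
    have c5 := norm_add_le (R1 - R2 - R3) R4
    have c6 := norm_sub_le (R1 - R2) R3
    have c7 := norm_sub_le R1 R2
    have : 4 * t ^ 2 * (200 / ρ ^ 3 * t) = 4 * (200 / ρ ^ 3 * t ^ 3) := by ring
    linarith
  obtain ⟨⟨mν, κ, hκ⟩, two⟩ := two
  rw [← S.β_mulOp mν hκ ξm ξp]
  refine L11_abs S.hd ξp ξm (A := S.mulOp a) (B := S.mulOp b)
    (S.norm_mulOp ma.1 fun q => by simpa using (sa q).1)
    (S.norm_mulOp mb'.1 fun q => by simpa using (sb q).1)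
    (M := fun ε δ t => S.mulOp (μ (ε * t) (δ * t))) ?_ ?_ hB
  · intro ε δ hε hδ
    have lim := (S.L11_lim (f := fun t q => (t : ℂ)⁻¹ * μ (ε * t) (δ * t) q)
      (g := fun q => ε * a q + δ * b q) (c := fun t => 200 / ρ ^ 3 * t ^ 2 + (4 / ρ ^ 2 + 12) * t) ?_
      (by simpa using ((hid.pow 2).const_mul (200 / ρ ^ 3)).add (hid.const_mul (4 / ρ ^ 2 + 12)))).2
    · rw [((ma.smul ε).1.add (mb'.smul δ).1).2, (ma.smul ε).2, (mb'.smul δ).2] at lim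
      refine lim.congr' ?_
      filter_upwards [ev] with t ht
      exact ((bm _ (mb ε hε t ht.1 ht.2) _ (mb δ hδ t ht.1 ht.2)).smul _).2
    · filter_upwards [ev] with t ht
      refine ⟨((bm _ (mb ε hε t ht.1 ht.2) _ (mb δ hδ t ht.1 ht.2)).smul _).1, fun q => ?_⟩
      have htc : (t : ℂ) ≠ 0 := by exact_mod_cast ht.1.ne'
      have r1 := rem ε δ hε hδ t ht.1 ht.2 q
      have r2 := la _ (mb ε hε t ht.1 ht.2) q
      have r3 := lb _ (mb δ hδ t ht.1 ht.2) q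
      have r4 : ‖ε * t * (δ * t) * ν q‖ ≤ t * t * (4 / ρ ^ 2) := by
        rw [norm_mul, norm_mul (ε * t), nm ε hε t ht.1, nm δ hδ t ht.1]
        exact mul_le_mul_of_nonneg_left (bd q).1 (mul_pos ht.1 ht.1).le
      rw [nm ε hε t ht.1] at r2
      rw [nm δ hδ t ht.1] at r3
      set R1 := μ (ε * t) (δ * t) q - μ (ε * t) 0 q - μ 0 (δ * t) q - ε * t * (δ * t) * ν q with e1
      set R2 := μ (ε * t) 0 q - ε * t * a q with e2
      set R3 := μ 0 (δ * t) q - δ * t * b q with e3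
      set R4 := ε * t * (δ * t) * ν q with e4
      have e : (t : ℂ)⁻¹ * μ (ε * t) (δ * t) q - (ε * a q + δ * b q) =
          (t : ℂ)⁻¹ * (R1 + R2 + R3 + R4) := by
        rw [e1, e2, e3]
        generalize μ (ε * t) (δ * t) q = x1
        generalize μ (ε * t) 0 q = y1
        generalize μ 0 (δ * t) q = y3
        field_simp
        ring
      rw [e, norm_mul, norm_inv, Complex.norm_real, Real.norm_of_nonneg ht.1.le,
        inv_mul_le_iff₀ ht.1]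
      have c5 := norm_add_le (R1 + R2 + R3) R4
      have c6 := norm_add_le (R1 + R2) R3
      have c7 := norm_add_le R1 R2
      have : t * (200 / ρ ^ 3 * t ^ 2 + (4 / ρ ^ 2 + 12) * t) =
        200 / ρ ^ 3 * t ^ 3 + 6 * t ^ 2 + 6 * t ^ 2 + t * t * (4 / ρ ^ 2) := by ring
      linarith
  · refine two.congr' ?_
    filter_upwards [ev] with t ht
    have p := mb 1 (Or.inl rfl) t ht.1 ht.2
    have p' := mb (-1) (Or.inr rfl) t ht.1 ht.2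
    have s1 := (bm _ p _ p').smul (-1)
    have s2 := (bm _ p' _ p).smul (-1)
    have s3 := (bm _ p _ p).add s1.1
    have s4 := s3.1.add s2.1
    have s5 := s4.1.add (bm _ p' _ p')
    rw [(s5.1.smul _).2, s5.2, s4.2, s3.2, s2.2, s1.2]

end Flat

end Pool.Agent.MP_e62289_ag
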