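import Pool.Agent.MP_e62289_ag.L1

open Set Filter Topology Complex MeasureTheory Metric
open scoped Manifold ContDiff ComplexConjugate NNReal ENNReal

namespace Pool.Agent.MP_e62289_ag

namespace Flat

variable {n : ℕ} (S : Flat n)

theorem L2a_area (x : S.Y) {B : Set ℂ} (hB : MeasurableSet B) :
    S.lam (chartAt ℂ x ⁻¹' B ∩ (chartAt ℂ x).source) = volume (B ∩ (chartAt ℂ x).target) := by
  have h1 := (chartAt ℂ x).open_source.measurableSet.subtype_image
    ((chartAt ℂ x).continuousOn.domRestrict.measurable hB)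
  have h2 : Subtype.val '' ((chartAt ℂ x).source.domRestrict (chartAt ℂ x) ⁻¹' B) =
      chartAt ℂ x ⁻¹' B ∩ (chartAt ℂ x).source := by
    ext q
    constructor
    · rintro ⟨q, hq, rfl⟩
      exact ⟨hq, q.2⟩
    · exact fun h => ⟨⟨q, h.2⟩, h.1, rfl⟩
  rw [h2] at h1
  rw [S.area x _ h1 inter_subset_right, image_preimage_inter,
    (chartAt ℂ x).image_source_eq_target]

instance : IsLocallyFiniteMeasure S.lam := by
  refine ⟨fun x => ⟨chartAt ℂ x ⁻¹' ball (chartAt ℂ x x) 1 ∩ (chartAt ℂ x).source, ?_, ?_⟩⟩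
  · exact inter_mem ((chartAt ℂ x).continuousAt (mem_chart_source ℂ x) (ball_mem_nhds _ one_pos))
      (chart_source_mem_nhds ℂ x)
  · rw [S.L2a_area x measurableSet_ball]
    exact (measure_mono inter_subset_left).trans_lt measure_ball_lt_top

instance : IsLocallyFiniteMeasure S.lamf :=
  IsLocallyFiniteMeasure.withDensity_coe (f := fun q => ‖S.f q‖₊) S.f_hol.continuous.nnnorm

theorem ae_lamf {p : S.Y → Prop} : (∀ᵐ q ∂S.lamf, p q) ↔ ∀ᵐ q ∂S.lam, p q := by
  rw [lamf, ae_withDensity_iff S.f_hol.continuous.enorm.measurable]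
  simp [S.f_ne]

theorem integral_lamf (g : S.Y → ℂ) :
    ∫ q, g q ∂S.lamf = ∫ q, (‖S.f q‖ : ℂ) * g q ∂S.lam := by
  have := integral_withDensity_eq_integral_smul (μ := S.lam) (f := fun q => ‖S.f q‖₊)
    S.f_hol.continuous.nnnorm.measurable g
  simp only [NNReal.smul_def, coe_nnnorm, Complex.real_smul] at this
  exact this

theorem lintegral_lamf (g : S.Y → ℝ≥0∞) :
    ∫⁻ q, g q ∂S.lamf = ∫⁻ q, ‖S.f q‖ₑ * g q ∂S.lam :=
  lintegral_withDensity_eq_lintegral_mul_non_measurable S.lam S.f_hol.continuous.enorm.measurable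
    (ae_of_all _ fun _ => enorm_lt_top) g

theorem L2a_aem (x : S.Y) :
    AEMeasurable (chartAt ℂ x) (S.lam.restrict (chartAt ℂ x).source) :=
  (chartAt ℂ x).continuousOn.aemeasurable (chartAt ℂ x).open_source.measurableSet

/-- integrals over subsets of flat charts -/
theorem map_chart (x : S.Y) : (S.lam.restrict (chartAt ℂ x).source).map (chartAt ℂ x) =
    volume.restrict (chartAt ℂ x).target := by
  ext B hB
  rw [Measure.map_apply_of_aemeasurable (S.L2a_aem x) hB,
    Measure.restrict_apply' (chartAt ℂ x).open_source.measurableSet, S.L2a_area x hB,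
    Measure.restrict_apply hB]

theorem L2a_aem' (x : S.Y) :
    AEMeasurable (chartAt ℂ x).symm (volume.restrict (chartAt ℂ x).target) :=
  (chartAt ℂ x).continuousOn_symm.aemeasurable (chartAt ℂ x).open_target.measurableSet

theorem L2a_left (x : S.Y) :
    (chartAt ℂ x).symm ∘ chartAt ℂ x =ᵐ[S.lam.restrict (chartAt ℂ x).source] id :=
  ae_restrict_of_forall_mem (chartAt ℂ x).open_source.measurableSet fun _ h =>
    (chartAt ℂ x).left_inv h

theorem L2a_map_symm (x : S.Y) : (volume.restrict (chartAt ℂ x).target).map (chartAt ℂ x).symm =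
    S.lam.restrict (chartAt ℂ x).source := by
  rw [← S.map_chart x, AEMeasurable.map_map_of_aemeasurable (S.map_chart x ▸ S.L2a_aem' x)
    (S.L2a_aem x), Measure.map_congr (S.L2a_left x), Measure.map_id]

theorem integral_chart (x : S.Y) {g : S.Y → ℂ} (hg : Function.support g ⊆ (chartAt ℂ x).source) :
    ∫ q, g q ∂S.lam = ∫ z in (chartAt ℂ x).target, g ((chartAt ℂ x).symm z) := by
  rw [← setIntegral_eq_integral_of_forall_compl_eq_zero (s := (chartAt ℂ x).source)
    fun q hq => Function.notMem_support.1 fun h => hq (hg h)]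
  by_cases h : AEStronglyMeasurable g (S.lam.restrict (chartAt ℂ x).source)
  · rw [← S.L2a_map_symm x] at h ⊢
    exact integral_map (S.L2a_aem' x) h
  · rw [integral_non_aestronglyMeasurable h, integral_non_aestronglyMeasurable fun h' => h ?_]
    rw [← S.map_chart x] at h'
    refine (h'.comp_aemeasurable (S.L2a_aem x)).congr ?_
    filter_upwards [S.L2a_left x] with q hq
    exact congrArg g hq

end Flat

end Pool.Agent.MP_e62289_ag
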