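import Pool.Agent.MP_e62289_ag.L1
import Pool.Agent.MP_e62289_ag.L2a

open Set Filter Topology Complex MeasureTheory Metric
open scoped Manifold ContDiff ComplexConjugate NNReal ENNReal

namespace Pool.Agent.MP_e62289_ag

theorem L2b_plane {G : ℂ → ℂ} (hG : ContDiff ℝ 1 G) (hc : HasCompactSupport G) (v : ℂ) :
    Integrable (fun z => fderiv ℝ G z v) ∧ ∫ z, fderiv ℝ G z v = 0 := by
  have h1 : Integrable (fun z => fderiv ℝ G z v) :=
    ((hG.continuous_fderiv one_ne_zero).clm_apply continuous_const).integrable_of_hasCompactSupport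
      (hc.fderiv_apply ℝ v)
  refine ⟨h1, ?_⟩
  have := integral_mul_fderiv_eq_neg_fderiv_mul_of_integrable (μ := (volume : Measure ℂ))
    (f := fun _ : ℂ => (1 : ℂ)) (g := G) (v := v) (by simp) (by simpa using h1)
    (by simpa using hG.continuous.integrable_of_hasCompactSupport hc)
    (fun _ _ => differentiableAt_const _) (fun x _ => hG.differentiable one_ne_zero x)
  simpa using this

theorem L2b_plane_w {G : ℂ → ℂ} (hG : ContDiff ℝ 1 G) (hc : HasCompactSupport G) :
    ∫ z, w1 (fderiv ℝ G z) = 0 ∧ ∫ z, w2 (fderiv ℝ G z) = 0 := by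
  obtain ⟨h1, h2⟩ := L2b_plane hG hc 1
  obtain ⟨h3, h4⟩ := L2b_plane hG hc I
  simp only [w1, w2]
  rw [integral_div, integral_div, integral_sub h1 (h3.const_mul I),
    integral_add h1 (h3.const_mul I), integral_const_mul, h2, h4]
  simp

theorem L2b_zero {Y : Type} [TopologicalSpace Y] [ChartedSpace ℂ Y] {g : Y → ℂ} {q : Y}
    (hq : q ∉ tsupport g) : d1 g q = 0 ∧ d2 g q = 0 := by
  have h : g =ᶠ[𝓝 q] fun _ => 0 := notMem_tsupport_iff_eventuallyEq.1 hq
  rw [(d_congr h).1, (d_congr h).2]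
  exact d_const 0 q

namespace Flat

variable {n : ℕ} (S : Flat n)

theorem L2b_int {g : S.Y → ℂ} (hg : Ck 1 g) (hc : HasCompactSupport g) :
    Integrable (d1 g) S.lam ∧ Integrable (d2 g) S.lam :=
  ⟨(continuous_iff_continuousAt.2 fun q =>
      (S.continuousAt_d (hg q)).1).integrable_of_hasCompactSupport
      (hc.mono' fun _ hq => by_contra fun h => hq (L2b_zero h).1),
    (continuous_iff_continuousAt.2 fun q =>
      (S.continuousAt_d (hg q)).2).integrable_of_hasCompactSupport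
      (hc.mono' fun _ hq => by_contra fun h => hq (L2b_zero h).2)⟩

theorem L2b_chart {g : S.Y → ℂ} (hg : Ck 1 g) (hc : HasCompactSupport g) (x : S.Y)
    (hx : tsupport g ⊆ (chartAt ℂ x).source) :
    ∫ q, d1 g q ∂S.lam = 0 ∧ ∫ q, d2 g q ∂S.lam = 0 := by
  obtain ⟨G, hG⟩ : ∃ G : ℂ → ℂ,
    G = (chartAt ℂ x).target.indicator (g ∘ (chartAt ℂ x).symm) := ⟨_, rfl⟩
  have hK : IsCompact (chartAt ℂ x '' tsupport g) :=
    hc.isCompact.image_of_continuousOn ((chartAt ℂ x).continuousOn.mono hx)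
  have h0 : ∀ z, z ∉ chartAt ℂ x '' tsupport g → G z = 0 := fun z hz => by
    rw [hG]
    by_cases h : z ∈ (chartAt ℂ x).target
    · rw [indicator_of_mem h]
      exact image_eq_zero_of_notMem_tsupport (f := g) fun h' =>
        hz ⟨_, h', (chartAt ℂ x).right_inv h⟩
    · exact indicator_of_notMem h _
  have h1 : ∀ z ∈ (chartAt ℂ x).target, G =ᶠ[𝓝 z] g ∘ (chartAt ℂ x).symm := fun z hz => by
    filter_upwards [(chartAt ℂ x).open_target.mem_nhds hz] with y hy
    rw [hG, indicator_of_mem hy]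
  have h2 : ∀ z, z ∉ (chartAt ℂ x).target → G =ᶠ[𝓝 z] fun _ => 0 := fun z hz => by
    have : z ∉ chartAt ℂ x '' tsupport g := by
      rintro ⟨q, hq, rfl⟩
      exact hz ((chartAt ℂ x).map_source (hx hq))
    filter_upwards [hK.isClosed.isOpen_compl.mem_nhds this] with y hy using h0 y hy
  have hGc : HasCompactSupport G := HasCompactSupport.intro hK h0
  have hGd : ContDiff ℝ 1 G := contDiff_iff_contDiffAt.2 fun z => by
    by_cases hz : z ∈ (chartAt ℂ x).target
    · refine ContDiffAt.congr_of_eventuallyEq ?_ (h1 z hz)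
      refine contMDiffAt_iff_contDiffAt.1 ((hg _).comp z ?_)
      exact (contMDiffOn_chart_symm (I := 𝓘(ℝ, ℂ)) (n := 1) (x := x)).contMDiffAt
        ((chartAt ℂ x).open_target.mem_nhds hz)
    · exact contDiffAt_const.congr_of_eventuallyEq (h2 z hz)
  have h3 : ∀ z ∈ (chartAt ℂ x).target, dd g ((chartAt ℂ x).symm z) = fderiv ℝ G z :=
    fun z hz => by
      rw [S.dd_eq ((chartAt ℂ x).map_target hz) ((hg _).mdifferentiableAt one_ne_zero),
        (chartAt ℂ x).right_inv hz, (h1 z hz).fderiv_eq]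
  have h4 : ∀ z, z ∉ (chartAt ℂ x).target → fderiv ℝ G z = 0 := fun z hz => by
    rw [(h2 z hz).fderiv_eq]
    simp
  obtain ⟨e1, e2⟩ := L2b_plane_w hGd hGc
  have hm := (chartAt ℂ x).open_target.measurableSet
  constructor
  · rw [S.integral_chart x fun q hq => hx (by_contra fun h => hq (L2b_zero h).1)]
    refine Eq.trans (setIntegral_congr_fun hm fun z hz => congrArg w1 (h3 z hz)) ?_
    rw [setIntegral_eq_integral_of_forall_compl_eq_zero fun z hz => by simp [h4 z hz, w1], e1]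
  · rw [S.integral_chart x fun q hq => hx (by_contra fun h => hq (L2b_zero h).2)]
    refine Eq.trans (setIntegral_congr_fun hm fun z hz => congrArg w2 (h3 z hz)) ?_
    rw [setIntegral_eq_integral_of_forall_compl_eq_zero fun z hz => by simp [h4 z hz, w2], e2]

/-- the theorem of Stokes -/
theorem stokes {g : S.Y → ℂ} (hg : Ck 1 g) (hc : HasCompactSupport g) :
    ∫ q, d1 g q ∂S.lam = 0 ∧ ∫ q, d2 g q ∂S.lam = 0 := by
  classical
  have : LocallyCompactSpace S.Y := ChartedSpace.locallyCompactSpace ℂ S.Y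
  obtain ⟨ρ, hρ⟩ := SmoothPartitionOfUnity.exists_isSubordinate_chartAt_source 𝓘(ℝ, ℂ) S.Y
  have hfin := ρ.locallyFinite.finite_nonempty_inter_compact hc.isCompact
  have hsum : g = ∑ i ∈ hfin.toFinset, fun q => ρ i q • g q := by
    funext q
    rw [Finset.sum_apply, ← Finset.sum_smul]
    by_cases hq : q ∈ tsupport g
    · rw [ρ.sum_finsupport' q (mem_univ q), one_smul]
      intro i hi
      exact hfin.mem_toFinset.2 ⟨q, (ρ.mem_finsupport q).1 hi, hq⟩
    · rw [image_eq_zero_of_notMem_tsupport hq, smul_zero]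
  have key : ∀ f : S.Y → ℂ, f = ∑ i ∈ hfin.toFinset, (fun q => ρ i q • g q) →
      Ck 1 f ∧ HasCompactSupport f ∧ ∫ q, d1 f q ∂S.lam = 0 ∧ ∫ q, d2 f q ∂S.lam = 0 := by
    rintro f rfl
    refine Finset.sum_induction _ (fun f : S.Y → ℂ => Ck 1 f ∧ HasCompactSupport f ∧
      ∫ q, d1 f q ∂S.lam = 0 ∧ ∫ q, d2 f q ∂S.lam = 0) ?_ ?_ ?_
    · rintro a b ⟨a1, a2, a3, a4⟩ ⟨b1, b2, b3, b4⟩
      have hd := fun q => d_add ((a1 q).mdifferentiableAt one_ne_zero)
        ((b1 q).mdifferentiableAt one_ne_zero)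
      refine ⟨a1.add b1, a2.add b2, ?_, ?_⟩
      · refine (integral_congr_ae (ae_of_all _ fun q => (hd q).1)).trans ?_
        rw [integral_add (S.L2b_int a1 a2).1 (S.L2b_int b1 b2).1, a3, b3, add_zero]
      · refine (integral_congr_ae (ae_of_all _ fun q => (hd q).2)).trans ?_
        rw [integral_add (S.L2b_int a1 a2).2 (S.L2b_int b1 b2).2, a4, b4, add_zero]
    · refine ⟨contMDiff_const, HasCompactSupport.zero, ?_, ?_⟩
      · exact integral_eq_zero_of_ae (ae_of_all _ fun q => (d_const 0 q).1)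
      · exact integral_eq_zero_of_ae (ae_of_all _ fun q => (d_const 0 q).2)
    · intro i _
      have h1 : Ck 1 fun q => ρ i q • g q := ρ.contMDiff_smul (n := 1) fun q _ => hg q
      have h2 : HasCompactSupport fun q => ρ i q • g q :=
        hc.mono' ((subset_tsupport _).trans (tsupport_smul_subset_right (ρ i) g))
      exact ⟨h1, h2, S.L2b_chart h1 h2 i ((tsupport_smul_subset_left (ρ i) g).trans (hρ i))⟩
  exact (key g hsum).2.2

/-- the theorem of Stokes for a closed form `a θ + b θbar` -/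
theorem stokes_closed {u a b : S.Y → ℂ} (hu : Ck 1 u) (hc : HasCompactSupport u)
    (hab : ∀ q, ∃ v : S.Y → ℂ, CkAt 2 v q ∧ a =ᶠ[𝓝 q] d1 v ∧ b =ᶠ[𝓝 q] d2 v) :
    ∫ q, (d1 u q * b q - d2 u q * a q) ∂S.lam = 0 := by
  have ha : Ck 1 a := fun q => by
    obtain ⟨v, h1, h2, -⟩ := hab q
    exact (S.ckAt_d (k := 1) h1).1.congr_of_eventuallyEq h2
  have hb : Ck 1 b := fun q => by
    obtain ⟨v, h1, -, h2⟩ := hab q
    exact (S.ckAt_d (k := 1) h1).2.congr_of_eventuallyEq h2
  have hd : ∀ q, d1 b q = d2 a q := fun q => by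
    obtain ⟨v, h1, h2, h3⟩ := hab q
    rw [(d_congr h2).2, (d_congr h3).1]
    exact S.d1_d2 h1
  have hua : Ck 1 fun q => u q * a q := fun q =>
    (contDiff_mul (𝕜 := ℝ)).contDiffAt.comp_contMDiffAt (f := fun q => (u q, a q))
      ((hu q).prodMk_space (ha q))
  have hub : Ck 1 fun q => u q * b q := fun q =>
    (contDiff_mul (𝕜 := ℝ)).contDiffAt.comp_contMDiffAt (f := fun q => (u q, b q))
      ((hu q).prodMk_space (hb q))
  have ca : HasCompactSupport fun q => u q * a q := hc.mul_right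
  have cb : HasCompactSupport fun q => u q * b q := hc.mul_right
  have e : ∀ q, d1 u q * b q - d2 u q * a q =
      d1 (fun q => u q * b q) q - d2 (fun q => u q * a q) q := fun q => by
    rw [(d_mul ((hu q).mdifferentiableAt one_ne_zero) ((hb q).mdifferentiableAt one_ne_zero)).1,
      (d_mul ((hu q).mdifferentiableAt one_ne_zero) ((ha q).mdifferentiableAt one_ne_zero)).2,
      hd q]
    ring
  simp_rw [e]
  rw [integral_sub (S.L2b_int hub cb).1 (S.L2b_int hua ca).2, (S.stokes hub cb).1,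
    (S.stokes hua ca).2, sub_zero]

end Flat

end Pool.Agent.MP_e62289_ag
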