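import Pool.Agent.MP_e62289_ag.L2

open Set Filter Topology Complex MeasureTheory Metric
open scoped Manifold ContDiff ComplexConjugate NNReal ENNReal

namespace Pool.Agent.MP_e62289_ag

/-- the model cut-off function in the plane -/
theorem L3b_model : ∃ (β : ℂ → ℂ) (C : ℝ), ContDiff ℝ 2 β ∧ (∀ z, ‖z‖ ≤ 1 → β z = 0) ∧
    (∀ z, 2 ≤ ‖z‖ → β z = 1) ∧ (∀ z, ‖β z‖ ≤ 1) ∧ ∀ z, ‖fderiv ℝ β z‖ ≤ C := by
  let b : ContDiffBump (0 : ℂ) := ⟨1, 2, one_pos, one_lt_two⟩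
  have h1 : ContDiff ℝ 2 fun z : ℂ => (b z : ℂ) := ofRealCLM.contDiff.comp b.contDiff
  have h2 : HasCompactSupport fun z : ℂ => (b z : ℂ) :=
    b.hasCompactSupport.comp_left (g := fun x : ℝ => (x : ℂ)) ofReal_zero
  obtain ⟨C, hC⟩ := (h1.continuous_fderiv (by simp)).bounded_above_of_compact_support
    (h2.fderiv ℝ)
  refine ⟨fun z => 1 - b z, C, contDiff_const.sub h1, fun z hz => ?_, fun z hz => ?_,
    fun z => ?_, fun z => ?_⟩
  · have : b z = 1 := b.one_of_mem_closedBall (mem_closedBall_zero_iff.2 hz)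
    simp [this]
  · have : b z = 0 := b.zero_of_le_dist (by rwa [dist_zero_right])
    simp [this]
  · have e : (1 : ℂ) - b z = ((1 - b z : ℝ) : ℂ) := by push_cast; rfl
    show ‖(1 : ℂ) - b z‖ ≤ 1
    rw [e, norm_real, Real.norm_eq_abs, abs_le]
    have h3 : 0 ≤ b z := b.nonneg
    have h4 : b z ≤ 1 := b.le_one
    constructor <;> linarith
  · rw [fderiv_const_sub, norm_neg]
    exact hC z

theorem L3b_w (L : ℂ →L[ℝ] ℂ) : ‖w1 L‖ ≤ ‖L‖ ∧ ‖w2 L‖ ≤ ‖L‖ := by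
  have h1 : ‖L 1‖ ≤ ‖L‖ := by simpa using L.le_opNorm 1
  have h2 : ‖I * L I‖ ≤ ‖L‖ := by simpa using L.le_opNorm I
  have h3 := norm_sub_le (L 1) (I * L I)
  have h4 := norm_add_le (L 1) (I * L I)
  rw [w1, w2, norm_div, norm_div, Complex.norm_two]
  constructor <;> linarith

namespace Flat

variable {n : ℕ} (S : Flat n)

/-- gluing along the ends -/
theorem L3b_glue (g : ℂ → ℂ) : ∃ χ : S.Y → ℂ,
    (∀ i, ∀ q ∈ (S.e i).source, χ q = g (S.e i q)) ∧
    ∀ q, (∀ i, q ∉ (S.e i).source) → χ q = 1 := by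
  classical
  refine ⟨fun q => if h : ∃ i, q ∈ (S.e i).source then g (S.e h.choose q) else 1, ?_, ?_⟩
  · intro i q hq
    have h : ∃ i, q ∈ (S.e i).source := ⟨i, hq⟩
    have e : h.choose = i := by
      by_contra hne
      exact Set.disjoint_left.1 (S.e_disj hne) h.choose_spec hq
    simp only [dif_pos h, e]
  · intro q hq
    exact dif_neg (not_exists.2 hq)

/-- cut-off functions -/
theorem cutoff : ∃ C : ℝ, ∀ r : ℝ, 0 < r → r < 1 / 4 → ∃ χ : S.Y → ℂ, Ck 2 χ ∧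
    HasCompactSupport χ ∧ (∀ q, ‖χ q‖ ≤ 1) ∧ (∀ q ∈ S.core (2 * r), χ q = 1) ∧
    ∀ q, (d1 χ q = 0 ∧ d2 χ q = 0) ∨ ∃ i, q ∈ (S.e i).source ∧ r ≤ ‖S.e i q‖ ∧
      ‖S.e i q‖ ≤ 2 * r ∧ ‖d1 χ q‖ ≤ C / r * ‖d1 (S.e i) q‖ ∧
      ‖d2 χ q‖ ≤ C / r * ‖d1 (S.e i) q‖ := by
  obtain ⟨β, C, hβ, h0, h1, hle, hC⟩ := L3b_model
  refine ⟨C, fun r hr hr4 => ?_⟩
  let g : ℂ → ℂ := fun z => β (r⁻¹ • z)
  have hg : ContDiff ℝ 2 g := hβ.comp (contDiff_id.const_smul r⁻¹)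
  have hn : ∀ z : ℂ, ‖r⁻¹ • z‖ = ‖z‖ / r := fun z => by
    rw [norm_smul, norm_inv, Real.norm_of_nonneg hr.le, div_eq_inv_mul]
  have g0 : ∀ z : ℂ, ‖z‖ ≤ r → g z = 0 := fun z hz => h0 _ (by rw [hn, div_le_one hr]; exact hz)
  have g1 : ∀ z : ℂ, 2 * r ≤ ‖z‖ → g z = 1 := fun z hz =>
    h1 _ (by rw [hn, le_div_iff₀ hr]; exact hz)
  have gC : ∀ z, ‖fderiv ℝ g z‖ ≤ C / r := fun z => by
    have : fderiv ℝ g z = r⁻¹ • fderiv ℝ β (r⁻¹ • z) := fderiv_comp_smul r⁻¹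
    rw [this, norm_smul, norm_inv, Real.norm_of_nonneg hr.le, div_eq_inv_mul]
    exact mul_le_mul_of_nonneg_left (hC _) (inv_nonneg.2 hr.le)
  obtain ⟨χ, hχ, hχ'⟩ := S.L3b_glue g
  have hcore : ∀ q ∈ S.core (2 * r), χ q = 1 := by
    intro q hq
    by_cases h : ∃ i, q ∈ (S.e i).source
    · obtain ⟨i, hi⟩ := h
      rw [hχ i q hi]
      exact g1 _ (hq i hi)
    · exact hχ' q (not_exists.1 h)
  have hloc : ∀ i, ∀ q ∈ (S.e i).source, χ =ᶠ[𝓝 q] g ∘ S.e i := fun i q hq => by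
    filter_upwards [(S.e i).open_source.mem_nhds hq] with x hx
    exact hχ i x hx
  have hhol : ∀ i, ∀ q ∈ (S.e i).source, HolAt (S.e i) q := fun i q hq =>
    (S.e_hol i).mdifferentiableAt ((S.e i).open_source.mem_nhds hq)
  have hcase : ∀ q, (χ =ᶠ[𝓝 q] fun _ => 1) ∨ ∃ i, q ∈ (S.e i).source ∧ ‖S.e i q‖ ≤ 2 * r := by
    intro q
    by_cases h : ∃ i, q ∈ (S.e i).source ∧ ‖S.e i q‖ ≤ 2 * r
    · exact Or.inr h
    · left
      have : ∀ᶠ x in 𝓝 q, ∀ i, x ∉ {q | q ∈ (S.e i).source ∧ ‖S.e i q‖ ≤ 2 * r} :=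
        eventually_all.2 fun i =>
          (S.e_closed i (2 * r) (by linarith)).isOpen_compl.mem_nhds (not_exists.1 h i)
      filter_upwards [this] with x hx
      refine hcore x fun i hi => ?_
      by_contra hlt
      exact hx i ⟨hi, (not_le.1 hlt).le⟩
  refine ⟨χ, fun q => ?_, ?_, fun q => ?_, hcore, fun q => ?_⟩
  · rcases hcase q with h | ⟨i, hi, -⟩
    · exact contMDiffAt_const.congr_of_eventuallyEq h
    · have h2 : CkAt 2 (S.e i) q := ckAt_of_hol (by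
        filter_upwards [(S.e i).open_source.mem_nhds hi] with x hx
        exact hhol i x hx) 2
      exact (hg.contMDiff.contMDiffAt.comp q h2).congr_of_eventuallyEq (hloc i q hi)
  · refine HasCompactSupport.intro (S.e_compact r hr) fun q hq => ?_
    simp only [mem_ofPred_eq, not_forall, not_le] at hq
    obtain ⟨i, hi, hlt⟩ := hq
    rw [hχ i q hi]
    exact g0 _ hlt.le
  · by_cases h : ∃ i, q ∈ (S.e i).source
    · obtain ⟨i, hi⟩ := h
      rw [hχ i q hi]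
      exact hle _
    · rw [hχ' q (not_exists.1 h), norm_one]
  · rcases hcase q with h | ⟨i, hi, h2r⟩
    · left
      rw [(d_congr h).1, (d_congr h).2]
      exact d_const 1 q
    · rcases lt_or_ge ‖S.e i q‖ r with hlt | hge
      · left
        have h : χ =ᶠ[𝓝 q] fun _ => 0 := by
          have hc : ContinuousAt (fun x => ‖S.e i x‖) q := ((S.e i).continuousAt hi).norm
          filter_upwards [hloc i q hi, hc.eventually (gt_mem_nhds hlt)] with x hx hx'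
          rw [hx]
          exact g0 _ hx'.le
        rw [(d_congr h).1, (d_congr h).2]
        exact d_const 0 q
      · right
        obtain ⟨hd, hd2⟩ := d2_of_hol (hhol i q hi)
        have hgd : MDifferentiableAt 𝓘(ℝ, ℂ) 𝓘(ℝ, ℂ) g (S.e i q) :=
          hg.contMDiff.mdifferentiableAt (by simp)
        obtain ⟨e1, e2⟩ := d_comp hgd hd
        rw [hd2] at e1 e2
        refine ⟨i, hi, hge, h2r, ?_, ?_⟩
        · rw [(d_congr (hloc i q hi)).1, e1, map_zero, mul_zero, add_zero, norm_mul, (d_plane g _).1]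
          exact mul_le_mul_of_nonneg_right ((L3b_w _).1.trans (gC _)) (norm_nonneg _)
        · rw [(d_congr (hloc i q hi)).2, e2, mul_zero, zero_add, norm_mul, (d_plane g _).2,
            Complex.norm_conj]
          exact mul_le_mul_of_nonneg_right ((L3b_w _).2.trans (gC _)) (norm_nonneg _)

end Flat

end Pool.Agent.MP_e62289_ag
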