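import Pool.Agent.MP_e62289_ag.L2

open Set Filter Topology Complex MeasureTheory Metric
open scoped Manifold ContDiff ComplexConjugate NNReal ENNReal

namespace Pool.Agent.MP_e62289_ag

theorem l3a_emb {α β : Type} [MeasurableSpace α] [MeasurableSpace β] {f : α → β}
    (hf : MeasurableEmbedding f) (μ : Measure β) (B : Set α) (G : β → ℝ≥0∞) :
    ∫⁻ y in f '' B, G y ∂μ = ∫⁻ x in B, G (f x) ∂(μ.comap f) := by
  have h : μ.restrict (f '' B) = ((μ.comap f).restrict B).map f := by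
    rw [← Measure.restrict_restrict_of_subset (image_subset_range f B), ← hf.map_comap,
      hf.restrict_map, preimage_image_eq B hf.injective]
  rw [h, hf.lintegral_map]

namespace Flat

variable {n : ℕ} (S : Flat n)

theorem l3a_memb (φ : OpenPartialHomeomorph S.Y ℂ) :
    MeasurableEmbedding (φ.source.domRestrict φ) :=
  φ.isOpenEmbedding_restrict.measurableEmbedding

theorem l3a_pre (φ : OpenPartialHomeomorph S.Y ℂ) {A : Set ℂ} (hA : MeasurableSet A) :
    MeasurableSet (φ.source ∩ φ ⁻¹' A) := by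
  have h := MeasurableSet.subtype_image φ.open_source.measurableSet
    ((S.l3a_memb φ).measurable hA)
  convert h using 1
  ext q
  constructor
  · rintro ⟨h1, h2⟩
    exact ⟨⟨q, h1⟩, h2, rfl⟩
  · rintro ⟨⟨q, h1⟩, h2, rfl⟩
    exact ⟨h1, h2⟩

theorem l3a_img_eq (φ : OpenPartialHomeomorph S.Y ℂ) {A : Set S.Y} (hs : A ⊆ φ.source) :
    φ '' A = φ.source.domRestrict φ '' (Subtype.val ⁻¹' A) := by
  ext z
  constructor
  · rintro ⟨q, h1, rfl⟩
    exact ⟨⟨q, hs h1⟩, h1, rfl⟩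
  · rintro ⟨⟨q, h1⟩, h2, rfl⟩
    exact ⟨q, h2, rfl⟩

theorem l3a_img (φ : OpenPartialHomeomorph S.Y ℂ) {A : Set S.Y} (hA : MeasurableSet A)
    (hs : A ⊆ φ.source) : MeasurableSet (φ '' A) := by
  rw [S.l3a_img_eq φ hs]
  exact (S.l3a_memb φ).measurableSet_image.2 (measurable_subtype_coe hA)

theorem l3a_chart (x : S.Y) {A : Set S.Y} (hs : A ⊆ (chartAt ℂ x).source) (G : S.Y → ℝ≥0∞) :
    ∫⁻ q in A, G q ∂S.lam = ∫⁻ z in chartAt ℂ x '' A, G ((chartAt ℂ x).symm z) := by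
  have hv : MeasurableEmbedding (Subtype.val : (chartAt ℂ x).source → S.Y) :=
    MeasurableEmbedding.subtype_coe (chartAt ℂ x).open_source.measurableSet
  have hc := S.l3a_memb (chartAt ℂ x)
  have e : S.lam.comap (Subtype.val : (chartAt ℂ x).source → S.Y) =
      (volume : Measure ℂ).comap ((chartAt ℂ x).source.domRestrict (chartAt ℂ x)) := by
    ext B hB
    rw [hv.comap_apply, hc.comap_apply, S.area x _ (hv.measurableSet_image.2 hB)
      (Subtype.coe_image_subset _ _), image_image]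
    rfl
  have e2 : A = Subtype.val '' ((Subtype.val : (chartAt ℂ x).source → S.Y) ⁻¹' A) := by
    rw [Subtype.image_preimage_coe, inter_eq_right.2 hs]
  rw [S.l3a_img_eq _ hs, l3a_emb hc, ← e]
  conv_lhs => rw [e2, l3a_emb hv]
  refine lintegral_congr fun q => ?_
  rw [domRestrict_apply, (chartAt ℂ x).left_inv q.2]

theorem l3a_cover : ∃ (x : ℕ → S.Y) (B : ℕ → Set S.Y), (∀ k, MeasurableSet (B k)) ∧
    Pairwise (Function.onFun Disjoint B) ∧ (∀ k, B k ⊆ (chartAt ℂ (x k)).source) ∧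
      ⋃ k, B k = univ := by
  obtain ⟨s, hs, h⟩ := TopologicalSpace.countable_cover_nhds
    (fun x : S.Y => chart_source_mem_nhds ℂ x)
  have hne : s.Nonempty := by
    obtain ⟨q⟩ : Nonempty S.Y := inferInstance
    have : q ∈ ⋃ x ∈ s, (chartAt ℂ x).source := h ▸ mem_univ q
    obtain ⟨x, hx, -⟩ := mem_iUnion₂.1 this
    exact ⟨x, hx⟩
  obtain ⟨x, rfl⟩ := hs.exists_eq_range hne
  refine ⟨x, disjointed fun k => (chartAt ℂ (x k)).source, MeasurableSet.disjointed fun k =>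
    (chartAt ℂ (x k)).open_source.measurableSet, disjoint_disjointed _,
    fun k => disjointed_subset _ k, ?_⟩
  rw [iUnion_disjointed, ← h, biUnion_range]

theorem l3a_piece (x : S.Y) {φ : S.Y → ℂ} {A : Set S.Y} (hA : MeasurableSet A)
    (hs : A ⊆ (chartAt ℂ x).source) (hφ : ∀ q ∈ A, RDiffAt φ q) (hi : InjOn φ A)
    (g : ℂ → ℝ≥0∞) : MeasurableSet (φ '' A) ∧ ∫⁻ z in φ '' A, g z =
      ∫⁻ q in A, ENNReal.ofReal |‖d1 φ q‖ ^ 2 - ‖d2 φ q‖ ^ 2| * g (φ q) ∂S.lam := by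
  have hT := S.l3a_img (chartAt ℂ x) hA hs
  have hd : ∀ z ∈ chartAt ℂ x '' A, HasFDerivWithinAt (φ ∘ (chartAt ℂ x).symm)
      (dd φ ((chartAt ℂ x).symm z)) (chartAt ℂ x '' A) z := by
    rintro _ ⟨q, hq, rfl⟩
    rw [(chartAt ℂ x).left_inv (hs hq), S.dd_eq (hs hq) (hφ q hq)]
    refine (DifferentiableAt.hasFDerivAt ?_).hasFDerivWithinAt
    rw [← mdifferentiableAt_iff_differentiableAt]
    refine MDifferentiableAt.comp (I' := 𝓘(ℝ, ℂ)) _ ?_ ?_
    · rw [(chartAt ℂ x).left_inv (hs hq)]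
      exact hφ q hq
    · exact mdifferentiableAt_atlas_symm (chart_mem_atlas ℂ x)
        ((chartAt ℂ x).map_source (hs hq))
  have hj : InjOn (φ ∘ (chartAt ℂ x).symm) (chartAt ℂ x '' A) := by
    rintro _ ⟨q, hq, rfl⟩ _ ⟨q', hq', rfl⟩ h
    simp only [Function.comp, (chartAt ℂ x).left_inv (hs hq),
      (chartAt ℂ x).left_inv (hs hq')] at h
    rw [hi hq hq' h]
  have e : φ '' A = (φ ∘ (chartAt ℂ x).symm) '' (chartAt ℂ x '' A) := by
    rw [image_image]
    exact image_congr fun q hq => by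
      simp only [Function.comp, (chartAt ℂ x).left_inv (hs hq)]
  rw [e]
  refine ⟨measurable_image_of_fderivWithin hT hd hj, ?_⟩
  rw [lintegral_image_eq_lintegral_abs_det_fderiv_mul volume hT hd hj, S.l3a_chart x hs]
  refine lintegral_congr fun z => ?_
  rw [det_eq_w]
  rfl

/-- change of variables for maps to the plane -/
theorem cov_plane {φ : S.Y → ℂ} {A : Set S.Y} (hA : MeasurableSet A)
    (hφ : ∀ q ∈ A, RDiffAt φ q) (hi : InjOn φ A) (g : ℂ → ℝ≥0∞) :
    ∫⁻ z in φ '' A, g z =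
      ∫⁻ q in A, ENNReal.ofReal |‖d1 φ q‖ ^ 2 - ‖d2 φ q‖ ^ 2| * g (φ q) ∂S.lam := by
  obtain ⟨x, B, hB, hd, hs, hu⟩ := S.l3a_cover
  have e : A = ⋃ k, A ∩ B k := by rw [← inter_iUnion, hu, inter_univ]
  have hp := fun k => S.l3a_piece (x k) (hA.inter (hB k)) (inter_subset_right.trans (hs k))
    (fun q hq => hφ q hq.1) (hi.mono inter_subset_left) g
  have hd' : Pairwise (Function.onFun Disjoint fun k => A ∩ B k) := fun i j hij =>
    (hd hij).mono inter_subset_right inter_subset_right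
  have hd'' : Pairwise (Function.onFun Disjoint fun k => φ '' (A ∩ B k)) := fun i j hij =>
    (hd' hij).image hi inter_subset_left inter_subset_left
  conv_lhs => rw [e, image_iUnion, lintegral_iUnion (fun k => (hp k).1) hd'']
  conv_rhs => rw [e, lintegral_iUnion (fun k => hA.inter (hB k)) hd']
  exact tsum_congr fun k => (hp k).2

/-- change of variables for admissible self-maps -/
theorem cov_adm (Θ : Adm S.Y S.Y) (g : S.Y → ℝ≥0∞) :
    ∫⁻ q, g q ∂S.lam =
      ∫⁻ q, ENNReal.ofReal (‖d1 Θ.φ q‖ ^ 2 - ‖d2 Θ.φ q‖ ^ 2) * g (Θ.φ q) ∂S.lam := by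
  obtain ⟨x, B, hB, hd, hs, hu⟩ := S.l3a_cover
  have hm : ∀ k, MeasurableSet (Θ.φ ⁻¹' B k) := fun k => Θ.φ.continuous.measurable (hB k)
  have hd' : Pairwise (Function.onFun Disjoint fun k => Θ.φ ⁻¹' B k) := fun i j hij =>
    (hd hij).preimage _
  have hu' : ⋃ k, Θ.φ ⁻¹' B k = univ := by rw [← preimage_iUnion, hu, preimage_univ]
  rw [← setLIntegral_univ, ← hu, lintegral_iUnion hB hd]
  conv_rhs => rw [← setLIntegral_univ, ← hu', lintegral_iUnion hm hd']
  refine tsum_congr fun k => ?_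
  have hc : ∀ q ∈ Θ.φ ⁻¹' B k, RDiffAt (chartAt ℂ (x k)) (Θ.φ q) := fun q hq =>
    mdifferentiableAt_atlas (chart_mem_atlas ℂ (x k)) (hs k hq)
  have e : chartAt ℂ (x k) '' B k = (chartAt ℂ (x k) ∘ Θ.φ) '' (Θ.φ ⁻¹' B k) := by
    rw [image_comp, image_preimage_eq _ (EquivLike.surjective Θ.φ)]
  rw [S.l3a_chart (x k) (hs k), e, S.cov_plane (hm k) (fun q hq => (hc q hq).comp q (Θ.md q))
    fun q hq q' hq' h => EquivLike.injective Θ.φ
      ((chartAt ℂ (x k)).injOn (hs k hq) (hs k hq') h)]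
  refine setLIntegral_congr_fun (hm k) fun q hq => ?_
  have h := d_comp (hc q hq) (Θ.md q)
  have h' := S.d_chart (hs k hq)
  simp only [h.1, h.2, h'.1, h'.2, one_mul, zero_mul, add_zero, abs_of_pos (Θ.sq_pos q),
    Function.comp, (chartAt ℂ (x k)).left_inv (hs k hq)]

theorem qmp_adm (Θ : Adm S.Y S.Y) : Measure.QuasiMeasurePreserving Θ.φ S.lamf S.lamf := by
  have hm : Measurable Θ.φ := Θ.φ.continuous.measurable
  refine ⟨hm, Measure.AbsolutelyContinuous.mk fun s hs h0 => ?_⟩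
  rw [Measure.map_apply hm hs]
  have h1 : S.lam s = 0 := by
    have := S.ae_lamf.1 (measure_eq_zero_iff_ae_notMem.1 h0)
    exact measure_eq_zero_iff_ae_notMem.2 this
  have h2 := S.cov_adm Θ (s.indicator 1)
  rw [lintegral_indicator_one hs, h1] at h2
  have hc := S.continuous_d_adm Θ
  have h3 := (lintegral_eq_zero_iff (((hc.1.norm.pow 2).sub
    (hc.2.norm.pow 2)).measurable.ennreal_ofReal.mul
      ((measurable_one.indicator hs).comp hm))).1 h2.symm
  refine measure_eq_zero_iff_ae_notMem.2 (S.ae_lamf.2 ?_)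
  filter_upwards [h3] with q hq hq'
  have hq'' : Θ.φ q ∈ s := hq'
  have hq3 : ENNReal.ofReal (‖d1 Θ.φ q‖ ^ 2 - ‖d2 Θ.φ q‖ ^ 2) *
      s.indicator (1 : S.Y → ℝ≥0∞) (Θ.φ q) = 0 := hq
  rw [indicator_of_mem hq'', Pi.one_apply, mul_one, ENNReal.ofReal_eq_zero] at hq3
  exact absurd (Θ.sq_pos q) (not_lt.2 hq3)

/-- integrals over ends -/
theorem lintegral_end (i : Fin n) {A : Set ℂ} (hA : MeasurableSet A) (h : A ⊆ ball 0 1 \ {0})
    (g : ℂ → ℝ≥0∞) :
    ∫⁻ q in (S.e i).source ∩ S.e i ⁻¹' A, ‖d1 (S.e i) q‖ₑ ^ 2 * g (S.e i q) ∂S.lam =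
      ∫⁻ z in A, g z := by
  have hm := S.l3a_pre (S.e i) hA
  have hh := fun q (hq : q ∈ (S.e i).source ∩ S.e i ⁻¹' A) =>
    d2_of_hol ((coord_hol (S.e_hol i)).1 q hq.1).1
  have e : S.e i '' ((S.e i).source ∩ S.e i ⁻¹' A) = A := by
    rw [image_inter_preimage, (S.e i).image_source_eq_target, S.e_target, inter_eq_right.2 h]
  conv_rhs => rw [← e, S.cov_plane hm (fun q hq => (hh q hq).1)
    ((S.e i).injOn.mono inter_subset_left)]
  refine setLIntegral_congr_fun hm fun q hq => ?_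
  simp only [(hh q hq).2, norm_zero, ne_eq, OfNat.ofNat_ne_zero, not_false_eq_true, zero_pow,
    sub_zero, abs_pow, abs_norm, ENNReal.ofReal_pow (norm_nonneg _), ofReal_norm]

end Flat

end Pool.Agent.MP_e62289_ag
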