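import Pool.Agent.MP_e62289_ag.L4
import Pool.Agent.MP_e62289_ag.Cx2
import Pool.Agent.MP_e62289_ag.Cx3

open Set Filter Topology Complex MeasureTheory Metric
open scoped Manifold ContDiff ComplexConjugate NNReal ENNReal

namespace Pool.Agent.MP_e62289_ag

namespace Flat

variable {n : ℕ} (S : Flat n)

theorem mem_W {A : S.H} {u : S.Y → ℂ} (hu : Hol u) (h : (A : S.Y → ℂ) =ᵐ[S.lamf] u) :
    A ∈ S.hd.W := by
  intro e he
  obtain ⟨κ, hκ, hc, -, h2⟩ := (S.hd_E e).1 he
  have hfu : Hol fun q => S.f q * u q := S.f_hol.mul hu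
  have hg : Ck 1 fun q => S.f q * u q * κ q := fun q =>
    contDiff_mul.contDiffAt.comp_contMDiffAt (f := fun q => (S.f q * u q, κ q))
      ((ckAt_of_hol (.of_forall hfu) 1).prodMk_space ((hκ q).of_le (by norm_num)))
  rw [S.hd_β, ← (S.stokes hg hc.mul_left).2]
  refine integral_congr_ae ?_
  filter_upwards [S.ae_lamf.1 h, S.ae_lamf.1 h2] with q e1 e2
  rw [e1, e2, (d_mul (d2_of_hol (hfu q)).1 ((hκ q).mdifferentiableAt (by norm_num))).2,
    (d2_of_hol (hfu q)).2, zero_mul, zero_add]

theorem L5a_pos : S.lam.IsOpenPosMeasure := ⟨fun U hU ⟨q, hq⟩ h0 => by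
  have h1 := S.area q (U ∩ (chartAt ℂ q).source) (hU.inter (chartAt ℂ q).open_source).measurableSet
    inter_subset_right
  rw [measure_mono_null inter_subset_left h0] at h1
  exact ((chartAt ℂ q).isOpen_image_of_subset_source (hU.inter (chartAt ℂ q).open_source)
    inter_subset_right).measure_ne_zero volume ⟨_, q, ⟨hq, mem_chart_source ℂ q⟩, rfl⟩ h1.symm⟩

theorem L5a_aem (x : S.Y) : AEMeasurable (chartAt ℂ x) (S.lam.restrict (chartAt ℂ x).source) :=
  (chartAt ℂ x).continuousOn.aemeasurable (chartAt ℂ x).open_source.measurableSet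

theorem L5a_loc (A : S.H) : LocallyIntegrable (fun q => S.f q * A q) S.lam := fun q => by
  obtain ⟨s, hs, hi⟩ := (Lp.memLp A).locallyIntegrable (by norm_num) q
  obtain ⟨t, hts, ht, hq⟩ := mem_nhds_iff.1 hs
  refine ⟨t, ht.mem_nhds hq, (S.f_hol.continuous.stronglyMeasurable.mul
    (Lp.stronglyMeasurable A)).aestronglyMeasurable, ?_⟩
  have h1 := (hi.mono_set hts).2
  rw [hasFiniteIntegral_iff_enorm, ← lintegral_indicator ht.measurableSet] at h1 ⊢
  rw [S.lintegral_lamf] at h1
  refine lt_of_eq_of_lt (lintegral_congr fun y => ?_) h1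
  by_cases hy : y ∈ t <;> simp [hy]

theorem L5a_loc_chart (x : S.Y) {F : S.Y → ℂ} (hm : Measurable F) (hF : LocallyIntegrable F S.lam) :
    LocallyIntegrableOn (fun z => F ((chartAt ℂ x).symm z)) (chartAt ℂ x).target := by
  have ho := (chartAt ℂ x).open_target
  rw [locallyIntegrableOn_iff ho.isLocallyClosed]
  intro k hk hc
  have hK : IsCompact ((chartAt ℂ x).symm '' k) :=
    hc.image_of_continuousOn ((chartAt ℂ x).continuousOn_symm.mono hk)
  have h1 : AEStronglyMeasurable (k.indicator fun z => F ((chartAt ℂ x).symm z))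
      (volume.restrict (chartAt ℂ x).target) :=
    ((hm.comp_aemeasurable ((chartAt ℂ x).continuousOn_symm.aemeasurable
      ho.measurableSet)).indicator hc.measurableSet).aestronglyMeasurable
  have h2 : Integrable (k.indicator fun z => F ((chartAt ℂ x).symm z))
      (volume.restrict (chartAt ℂ x).target) := by
    rw [← S.map_chart] at h1 ⊢
    rw [integrable_map_measure h1 (S.L5a_aem x)]
    refine (((integrable_indicator_iff hK.measurableSet).2
      (hF.integrableOn_isCompact hK)).restrict (s := (chartAt ℂ x).source)).congr ?_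
    filter_upwards [ae_restrict_mem (chartAt ℂ x).open_source.measurableSet] with q hq
    by_cases h : chartAt ℂ x q ∈ k
    · rw [Function.comp_apply, indicator_of_mem h, (chartAt ℂ x).left_inv hq,
        indicator_of_mem (s := (chartAt ℂ x).symm '' k) ⟨_, h, (chartAt ℂ x).left_inv hq⟩]
    · rw [Function.comp_apply, indicator_of_notMem h, indicator_of_notMem]
      rintro ⟨z, hz, rfl⟩
      exact h (by rwa [(chartAt ℂ x).right_inv (hk hz)])
  rw [integrable_indicator_iff hc.measurableSet, IntegrableOn,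
    Measure.restrict_restrict hc.measurableSet, inter_eq_left.2 hk] at h2
  exact h2

theorem L5a_test {A : S.H} (h : A ∈ S.hd.W) (x : S.Y) {κ₀ : ℂ → ℂ} (h1 : ContDiff ℝ ∞ κ₀)
    (h2 : HasCompactSupport κ₀) (h3 : tsupport κ₀ ⊆ (chartAt ℂ x).target) :
    ∫ z, S.f ((chartAt ℂ x).symm z) * A ((chartAt ℂ x).symm z) * w2 (fderiv ℝ κ₀ z) = 0 := by
  set c := chartAt ℂ x with hc
  let κ : S.Y → ℂ := c.source.indicator fun q => κ₀ (c q)
  have hK : IsCompact (c.symm '' tsupport κ₀) :=
    h2.isCompact.image_of_continuousOn (c.continuousOn_symm.mono h3)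
  have hKs : c.symm '' tsupport κ₀ ⊆ c.source := by
    rintro _ ⟨z, hz, rfl⟩
    exact c.map_target (h3 hz)
  have h0 : ∀ q, q ∉ c.symm '' tsupport κ₀ → κ q = 0 := fun q hq => by
    by_cases hs : q ∈ c.source
    · rw [show κ q = κ₀ (c q) from indicator_of_mem hs _]
      exact image_eq_zero_of_notMem_tsupport fun h' => hq ⟨_, h', c.left_inv hs⟩
    · exact indicator_of_notMem hs _
  have h0' : ∀ q, q ∉ c.source → κ =ᶠ[𝓝 q] fun _ => 0 := fun q hq =>
    Filter.eventually_of_mem (hK.isClosed.isOpen_compl.mem_nhds fun h' => hq (hKs h')) h0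
  have hκ : Ck 2 κ := fun q => by
    by_cases hs : q ∈ c.source
    · have e1 : CkAt 2 c q :=
        ckAt_of_hol (Filter.eventually_of_mem (c.open_source.mem_nhds hs)
          fun y hy => (chart_hol hy).1) 2
      refine ((h1.of_le (m := 2) (by norm_cast)).contDiffAt.comp_contMDiffAt
        e1).congr_of_eventuallyEq ?_
      exact Filter.eventually_of_mem (c.open_source.mem_nhds hs) fun y hy => indicator_of_mem hy _
    · exact contMDiffAt_const.congr_of_eventuallyEq (h0' q hs)
  obtain ⟨m1, m2⟩ := S.memLp_D hκ (HasCompactSupport.intro hK h0)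
  have key := h (m1.toLp _, m2.toLp _) ((S.hd_E _).2
    ⟨κ, hκ, HasCompactSupport.intro hK h0, m1.coeFn_toLp, m2.coeFn_toLp⟩)
  rw [S.hd_β, integral_congr_ae (g := fun q => S.f q * A q * d2 κ q)
    ((S.ae_lamf.1 m2.coeFn_toLp).mono fun q hq => by simp only [hq]),
    S.integral_chart x fun q hq => by
      by_contra hs
      exact hq (by simp only [(d_congr (h0' q hs)).2, (d_const 0 q).2, mul_zero])] at key
  rw [← key, ← setIntegral_eq_integral_of_forall_compl_eq_zero (s := c.target) fun z hz => by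
    rw [(notMem_tsupport_iff_eventuallyEq.1 fun h' => hz (h3 h')).fderiv_eq]
    simp [w2]]
  refine setIntegral_congr_fun c.open_target.measurableSet fun z hz => ?_
  have e1 : κ ∘ c.symm =ᶠ[𝓝 z] κ₀ :=
    Filter.eventually_of_mem (c.open_target.mem_nhds hz) fun w hw => by
      rw [Function.comp_apply, show κ (c.symm w) = κ₀ (c (c.symm w)) from
        indicator_of_mem (c.map_target hw) _, c.right_inv hw]
  simp only [d2]
  rw [S.dd_eq (x := x) (c.map_target hz) ((hκ _).mdifferentiableAt (by norm_num)), ← hc,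
    c.right_inv hz, e1.fderiv_eq]

theorem L5a_local {A : S.H} (h : A ∈ S.hd.W) (x : S.Y) : ∃ v : S.Y → ℂ,
    (∀ q ∈ (chartAt ℂ x).source, HolAt v q) ∧
      ∀ᵐ q ∂S.lam, q ∈ (chartAt ℂ x).source → A q = v q := by
  obtain ⟨g, hg, hg'⟩ := weyl_plane (chartAt ℂ x).open_target
    (S.L5a_loc_chart x (S.f_hol.continuous.measurable.mul (Lp.stronglyMeasurable A).measurable)
      (S.L5a_loc A)) fun κ h1 h2 h3 => S.L5a_test h x h1 h2 h3
  refine ⟨fun q => g (chartAt ℂ x q) * (S.f q)⁻¹, fun q hq => ?_, ?_⟩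
  · exact ((hg.differentiableAt ((chartAt ℂ x).open_target.mem_nhds
      ((chartAt ℂ x).map_source hq))).comp_mdifferentiableAt (chart_hol hq).1).mul
      ((differentiableAt_inv (S.f_ne q)).comp_mdifferentiableAt (S.f_hol q))
  · rw [← ae_restrict_iff' (chartAt ℂ x).open_target.measurableSet, ← S.map_chart] at hg'
    have h1 := ae_of_ae_map (S.L5a_aem x) hg'
    rw [ae_restrict_iff' (chartAt ℂ x).open_source.measurableSet] at h1
    filter_upwards [h1] with q hq hs
    have h2 := hq hs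
    simp only [(chartAt ℂ x).left_inv hs] at h2
    rw [← h2, Pi.mul_apply, mul_comm (S.f q), mul_inv_cancel_right₀ (S.f_ne q)]

/-- the lemma of Weyl -/
theorem weyl {A : S.H} (h : A ∈ S.hd.W) : ∃ u : S.Y → ℂ, Hol u ∧ (A : S.Y → ℂ) =ᵐ[S.lamf] u := by
  choose v hv hv' using S.L5a_local h
  have := S.L5a_pos
  have hov : ∀ x y, EqOn (v x) (v y) ((chartAt ℂ x).source ∩ (chartAt ℂ y).source) := fun x y => by
    have ho := (chartAt ℂ x).open_source.inter (chartAt ℂ y).open_source
    refine Measure.eqOn_open_of_ae_eq (μ := S.lam) ?_ ho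
      (fun q hq => (hv x q hq.1).continuousAt.continuousWithinAt)
      (fun q hq => (hv y q hq.2).continuousAt.continuousWithinAt)
    rw [Filter.EventuallyEq, ae_restrict_iff' ho.measurableSet]
    filter_upwards [hv' x, hv' y] with q h1 h2 hq
    rw [← h1 hq.1, h2 hq.2]
  refine ⟨fun q => v q q, fun q => (hv q q (mem_chart_source ℂ q)).congr_of_eventuallyEq
    (Filter.eventually_of_mem (chart_source_mem_nhds ℂ q) fun y hy =>
      hov y q ⟨mem_chart_source ℂ y, hy⟩), S.ae_lamf.2 ?_⟩
  obtain ⟨s, hs, hs'⟩ := TopologicalSpace.countable_cover_nhds fun x : S.Y =>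
    chart_source_mem_nhds ℂ x
  filter_upwards [(ae_ball_iff hs).2 fun x _ => hv' x] with q hq
  obtain ⟨x, hx, hqx⟩ := mem_iUnion₂.1 (hs'.ge (mem_univ q))
  rw [hq x hx hqx]
  exact hov x q ⟨hqx, mem_chart_source ℂ q⟩

variable {μ : S.Y → ℂ} {κ : ℝ}

end Flat

end Pool.Agent.MP_e62289_ag
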