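import Pool.Agent.MP_e62289_ag.L3
import Pool.Agent.MP_e62289_ag.L5

open Set Filter Topology Complex MeasureTheory Metric
open scoped Manifold ContDiff ComplexConjugate NNReal ENNReal

namespace Pool.Agent.MP_e62289_ag

namespace Flat

variable {n : ℕ} (S : Flat n)

/-- `U` is the pull back of twisted forms by `Θ` with multiplier `k` -/
def IsPull (Θ : Adm S.Y S.Y) (k : S.Y → ℂ) (U : S.H × S.H →L[ℂ] S.H × S.H) : Prop :=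
  ∀ A B : S.H,
    ((U (A, B)).1 : S.Y → ℂ) =ᵐ[S.lamf]
      (fun q => k q * (A (Θ.φ q) * d1 Θ.φ q + B (Θ.φ q) * conj (d2 Θ.φ q))) ∧
    ((U (A, B)).2 : S.Y → ℂ) =ᵐ[S.lamf]
      (fun q => k q * (A (Θ.φ q) * d2 Θ.φ q + B (Θ.φ q) * conj (d1 Θ.φ q)))

variable {S} {Θ : Adm S.Y S.Y} {k : S.Y → ℂ} {U : S.H × S.H →L[ℂ] S.H × S.H}

theorem L6a_lint (Θ : Adm S.Y S.Y) (hf : ∀ q, k q ^ 2 * S.f q = S.f (Θ.φ q)) {g : S.Y → ℂ}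
    {C : ℝ} (hC : 0 ≤ C) (hg : ∀ q, ‖g q‖ ^ 2 ≤ C * (‖d1 Θ.φ q‖ ^ 2 - ‖d2 Θ.φ q‖ ^ 2))
    (A : S.Y → ℂ) :
    ∫⁻ q, ‖k q * (A (Θ.φ q) * g q)‖ₑ ^ 2 ∂S.lamf ≤
      ENNReal.ofReal C * ∫⁻ q, ‖A q‖ₑ ^ 2 ∂S.lamf := by
  rw [S.lintegral_lamf, S.lintegral_lamf, S.cov_adm Θ (fun q => ‖S.f q‖ₑ * ‖A q‖ₑ ^ 2),
    ← lintegral_const_mul' _ _ ENNReal.ofReal_ne_top]
  refine lintegral_mono fun q => ?_
  have h1 : ‖S.f (Θ.φ q)‖ = ‖k q‖ ^ 2 * ‖S.f q‖ := by rw [← hf q, norm_mul, norm_pow]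
  have h2 := (Θ.sq_pos q).le
  simp only [← ofReal_norm]
  rw [← ENNReal.ofReal_pow (norm_nonneg _), ← ENNReal.ofReal_pow (norm_nonneg _),
    ← ENNReal.ofReal_mul (norm_nonneg _), ← ENNReal.ofReal_mul (norm_nonneg _),
    ← ENNReal.ofReal_mul h2, ← ENNReal.ofReal_mul hC]
  refine ENNReal.ofReal_le_ofReal ?_
  rw [h1, norm_mul, norm_mul]
  have h3 : 0 ≤ ‖S.f q‖ * ‖k q‖ ^ 2 * ‖A (Θ.φ q)‖ ^ 2 := by positivity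
  have h4 := mul_le_mul_of_nonneg_left (hg q) h3
  nlinarith [h4]

theorem L6a_norm (Θ : Adm S.Y S.Y) (hf : ∀ q, k q ^ 2 * S.f q = S.f (Θ.φ q)) {g : S.Y → ℂ}
    {C : ℝ} (hC : 0 ≤ C) (hg : ∀ q, ‖g q‖ ^ 2 ≤ C * (‖d1 Θ.φ q‖ ^ 2 - ‖d2 Θ.φ q‖ ^ 2))
    (A : S.Y → ℂ) :
    eLpNorm (fun q => k q * (A (Θ.φ q) * g q)) 2 S.lamf ≤
      ENNReal.ofReal (√C) * eLpNorm A 2 S.lamf := by
  have h2 : ∀ F : S.Y → ℂ,
      eLpNorm F 2 S.lamf = (∫⁻ q, ‖F q‖ₑ ^ 2 ∂S.lamf) ^ (1 / 2 : ℝ) := by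
    intro F
    rw [eLpNorm_eq_lintegral_rpow_enorm_toReal (by norm_num) (by norm_num)]
    simp
  rw [h2, h2, Real.sqrt_eq_rpow, ← ENNReal.ofReal_rpow_of_nonneg hC (by norm_num),
    ← ENNReal.mul_rpow_of_nonneg _ _ (by norm_num)]
  exact ENNReal.rpow_le_rpow (L6a_lint Θ hf hC hg A) (by norm_num)

theorem L6a_op (Θ : Adm S.Y S.Y) (hk : Continuous k)
    (hf : ∀ q, k q ^ 2 * S.f q = S.f (Θ.φ q)) {g : S.Y → ℂ} (hgc : Continuous g)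
    {C : ℝ} (hC : 0 ≤ C) (hg : ∀ q, ‖g q‖ ^ 2 ≤ C * (‖d1 Θ.φ q‖ ^ 2 - ‖d2 Θ.φ q‖ ^ 2)) :
    ∃ P : S.H →L[ℂ] S.H, ∀ A : S.H,
      (P A : S.Y → ℂ) =ᵐ[S.lamf] fun q => k q * (A (Θ.φ q) * g q) := by
  have hq := S.qmp_adm Θ
  have hm : ∀ A : S.H, MemLp (fun q => k q * (A (Θ.φ q) * g q)) 2 S.lamf := by
    intro A
    refine ⟨hk.aestronglyMeasurable.mul
      (((Lp.aestronglyMeasurable A).comp_quasiMeasurePreserving hq).mul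
        hgc.aestronglyMeasurable), (L6a_norm Θ hf hC hg A).trans_lt ?_⟩
    exact ENNReal.mul_lt_top ENNReal.ofReal_lt_top (Lp.eLpNorm_lt_top A)
  let L : S.H →ₗ[ℂ] S.H :=
    { toFun := fun A => (hm A).toLp _
      map_add' := fun A B => by
        refine Lp.ext ?_
        filter_upwards [(hm (A + B)).coeFn_toLp, (hm A).coeFn_toLp, (hm B).coeFn_toLp,
          Lp.coeFn_add ((hm A).toLp _) ((hm B).toLp _), hq.ae (Lp.coeFn_add A B)]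
          with q h1 h2 h3 h4 h5
        rw [h1, h4, Pi.add_apply, h2, h3, h5, Pi.add_apply]
        ring
      map_smul' := fun c A => by
        refine Lp.ext ?_
        filter_upwards [(hm (c • A)).coeFn_toLp, (hm A).coeFn_toLp,
          Lp.coeFn_smul c ((hm A).toLp _), hq.ae (Lp.coeFn_smul c A)] with q h1 h2 h4 h5
        rw [RingHom.id_apply, h1, h4, Pi.smul_apply, h2, h5, Pi.smul_apply, smul_eq_mul,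
          smul_eq_mul]
        ring }
  refine ⟨L.mkContinuous (√C) fun A => ?_, fun A => (hm A).coeFn_toLp⟩
  change ‖(hm A).toLp _‖ ≤ _
  rw [Lp.norm_toLp, Lp.norm_def, ← ENNReal.toReal_ofReal (Real.sqrt_nonneg C),
    ← ENNReal.toReal_mul]
  exact ENNReal.toReal_mono
    (ENNReal.mul_ne_top ENNReal.ofReal_ne_top (Lp.eLpNorm_ne_top A)) (L6a_norm Θ hf hC hg A)

theorem L6a_bound (Θ : Adm S.Y S.Y) : ∃ C : ℝ, 0 ≤ C ∧ ∀ q,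
    ‖d1 Θ.φ q‖ ^ 2 ≤ C * (‖d1 Θ.φ q‖ ^ 2 - ‖d2 Θ.φ q‖ ^ 2) ∧
    ‖d2 Θ.φ q‖ ^ 2 ≤ C * (‖d1 Θ.φ q‖ ^ 2 - ‖d2 Θ.φ q‖ ^ 2) := by
  obtain ⟨-, κ, h0, h1, hb⟩ := S.bel_adm Θ
  have hκ : 0 < 1 - κ ^ 2 := by nlinarith
  refine ⟨(1 - κ ^ 2)⁻¹, inv_nonneg.2 hκ.le, fun q => ?_⟩
  have h2 : ‖d2 Θ.φ q‖ ≤ κ * ‖d1 Θ.φ q‖ := by
    have := hb q
    rwa [bel, norm_div, div_le_iff₀ (norm_pos_iff.2 (Θ.d1_ne q))] at this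
  have h3 : ‖d2 Θ.φ q‖ ^ 2 ≤ κ ^ 2 * ‖d1 Θ.φ q‖ ^ 2 := by
    rw [← mul_pow]; exact pow_le_pow_left₀ (norm_nonneg _) h2 2
  have h4 : ‖d1 Θ.φ q‖ ^ 2 ≤ (1 - κ ^ 2)⁻¹ * (‖d1 Θ.φ q‖ ^ 2 - ‖d2 Θ.φ q‖ ^ 2) := by
    rw [le_inv_mul_iff₀ hκ]; nlinarith
  exact ⟨h4, le_trans (by nlinarith [Θ.sq_pos q]) h4⟩

theorem exists_pull (Θ : Adm S.Y S.Y) (hk : Continuous k)
    (hf : ∀ q, k q ^ 2 * S.f q = S.f (Θ.φ q)) : ∃ U, S.IsPull Θ k U := by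
  obtain ⟨C, hC, hb⟩ := L6a_bound Θ
  obtain ⟨c1, c2⟩ := S.continuous_d_adm Θ
  obtain ⟨P1, h1⟩ := L6a_op Θ hk hf c1 hC fun q => (hb q).1
  obtain ⟨P2, h2⟩ := L6a_op Θ hk hf c2 hC fun q => (hb q).2
  obtain ⟨P3, h3⟩ := L6a_op Θ hk hf (g := fun q => conj (d1 Θ.φ q))
    (continuous_conj.comp c1) hC fun q => by rw [Complex.norm_conj]; exact (hb q).1
  obtain ⟨P4, h4⟩ := L6a_op Θ hk hf (g := fun q => conj (d2 Θ.φ q))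
    (continuous_conj.comp c2) hC fun q => by rw [Complex.norm_conj]; exact (hb q).2
  refine ⟨(P1.coprod P4).prod (P2.coprod P3), fun A B => ⟨?_, ?_⟩⟩
  · change ((P1 A + P4 B : S.H) : S.Y → ℂ) =ᵐ[S.lamf] _
    filter_upwards [Lp.coeFn_add (P1 A) (P4 B), h1 A, h4 B] with q e1 e2 e3
    rw [e1, Pi.add_apply, e2, e3]; ring
  · change ((P2 A + P3 B : S.H) : S.Y → ℂ) =ᵐ[S.lamf] _
    filter_upwards [Lp.coeFn_add (P2 A) (P3 B), h2 A, h3 B] with q e1 e2 e3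
    rw [e1, Pi.add_apply, e2, e3]; ring

end Flat

end Pool.Agent.MP_e62289_ag
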