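import Pool.Agent.MP_e62289_ag.L3
import Pool.Agent.MP_e62289_ag.L5
import Pool.Agent.MP_e62289_ag.L6a

open Set Filter Topology Complex MeasureTheory Metric
open scoped Manifold ContDiff ComplexConjugate NNReal ENNReal

namespace Pool.Agent.MP_e62289_ag

namespace Flat

variable {n : ℕ} (S : Flat n)

variable {S} {Θ : Adm S.Y S.Y} {k : S.Y → ℂ} {U : S.H × S.H →L[ℂ] S.H × S.H}

theorem L6b_ne (hf : ∀ q, k q ^ 2 * S.f q = S.f (Θ.φ q)) (q : S.Y) : k q ≠ 0 := fun h => by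
  have := hf q
  rw [h] at this
  exact S.f_ne (Θ.φ q) (by rw [← this]; simp)

theorem L6b_der (hk : Ck 2 k) (hf : ∀ q, k q ^ 2 * S.f q = S.f (Θ.φ q)) (q : S.Y) :
    2 * k q * d1 k q * S.f q + k q ^ 2 * d1 S.f q = d1 S.f (Θ.φ q) * d1 Θ.φ q ∧
      2 * k q * d2 k q * S.f q = d1 S.f (Θ.φ q) * d2 Θ.φ q := by
  have kd : RDiffAt k q := hk.mdifferentiableAt (by simp)
  have f1 := d2_of_hol (S.f_hol q)
  have f2 := d2_of_hol (S.f_hol (Θ.φ q))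
  have h1 := d_comp f2.1 (Θ.md q)
  have e : S.f ∘ Θ.φ = fun x => k x * k x * S.f x := funext fun x => by
    rw [Function.comp_apply, ← hf x, sq]
  have h2 := d_mul (kd.mul kd) f1.1
  have h3 := d_mul kd kd
  rw [e, h2.1, h2.2, h3.1, h3.2, f1.2, f2.2] at h1
  exact ⟨by linear_combination h1.1, by linear_combination h1.2⟩

theorem IsPull.exact (hU : S.IsPull Θ k U) (hk : Ck 2 k)
    (hf : ∀ q, k q ^ 2 * S.f q = S.f (Θ.φ q)) {e : S.H × S.H} (he : e ∈ S.hd.E) :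
    U e ∈ S.hd.E := by
  obtain ⟨A, B⟩ := e
  obtain ⟨κ, hκ, hc, hA, hB⟩ := (S.hd_E _).1 he
  have hκΘ : Ck 2 (κ ∘ Θ.φ) := hκ.comp Θ.φ.contMDiff
  have q1 := (S.qmp_adm Θ).ae_eq_comp hA
  have q2 := (S.qmp_adm Θ).ae_eq_comp hB
  have hd : ∀ q, d1 (fun x => k x * (κ ∘ Θ.φ) x) q = d1 k q * κ (Θ.φ q) +
      k q * (d1 κ (Θ.φ q) * d1 Θ.φ q + d2 κ (Θ.φ q) * conj (d2 Θ.φ q)) ∧
      d2 (fun x => k x * (κ ∘ Θ.φ) x) q = d2 k q * κ (Θ.φ q) +
      k q * (d1 κ (Θ.φ q) * d2 Θ.φ q + d2 κ (Θ.φ q) * conj (d1 Θ.φ q)) := fun q => by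
    have h1 := d_mul (u := k) (v := κ ∘ Θ.φ) (q := q) (hk.mdifferentiableAt (by simp))
      (hκΘ.mdifferentiableAt (by simp))
    have h2 := d_comp (G := κ) (hκ.mdifferentiableAt (by simp)) (Θ.md q)
    rw [h2.1, h2.2] at h1
    exact h1
  refine (S.hd_E _).2 ⟨fun x => k x * (κ ∘ Θ.φ) x, ?_, ?_, ?_, ?_⟩
  · exact (contDiff_mul (𝕜 := ℝ) (𝔸 := ℂ)).comp_contMDiff (hk.prodMk_space hκΘ)
  · exact (hc.comp_homeomorph Θ.φ.toHomeomorph).mul_left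
  · filter_upwards [(hU A B).1, q1, q2] with q h1 h2 h3
    simp only [Function.comp_apply] at h2 h3
    have k0 := L6b_ne hf q
    have f0 := S.f_ne q
    rw [h1, h2, h3, D1, D1, (hd q).1, ← hf q, Function.comp_apply]
    field_simp
    linear_combination (-κ (Θ.φ q)) * (L6b_der hk hf q).1
  · filter_upwards [(hU A B).2, q1, q2] with q h1 h2 h3
    simp only [Function.comp_apply] at h2 h3
    have k0 := L6b_ne hf q
    have f0 := S.f_ne q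
    rw [h1, h2, h3, D1, (hd q).2, ← hf q]
    field_simp
    linear_combination (-κ (Θ.φ q)) * (L6b_der hk hf q).2

theorem L6b_phase (hf : ∀ q, k q ^ 2 * S.f q = S.f (Θ.φ q)) (q : S.Y) :
    k q * ((‖S.f (Θ.φ q)‖ : ℂ) / S.f (Θ.φ q)) = (‖S.f q‖ : ℂ) / S.f q * conj (k q) := by
  have k0 := L6b_ne hf q
  have f0 := S.f_ne q
  rw [← hf q, norm_mul, norm_pow, ofReal_mul, ofReal_pow, ← Complex.mul_conj']
  field_simp

theorem IsPull.conj (hU : S.IsPull Θ k U) (hf : ∀ q, k q ^ 2 * S.f q = S.f (Θ.φ q)) (A B : S.H) :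
    U (S.hd.c B, S.hd.c A) = (S.hd.c (U (A, B)).2, S.hd.c (U (A, B)).1) := by
  have q1 := (S.qmp_adm Θ).ae_eq_comp (S.hd_c A)
  have q2 := (S.qmp_adm Θ).ae_eq_comp (S.hd_c B)
  refine Prod.ext (Lp.ext ?_) (Lp.ext ?_)
  · filter_upwards [(hU (S.hd.c B) (S.hd.c A)).1, (hU A B).2, S.hd_c (U (A, B)).2, q1, q2]
      with q h1 h2 h3 h4 h5
    simp only [Function.comp_apply] at h4 h5
    rw [h1, h3, h2, h4, h5]
    simp only [map_mul, map_add, conj_conj]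
    linear_combination (conj (B (Θ.φ q)) * d1 Θ.φ q + conj (A (Θ.φ q)) * conj (d2 Θ.φ q)) *
      L6b_phase hf q
  · filter_upwards [(hU (S.hd.c B) (S.hd.c A)).2, (hU A B).1, S.hd_c (U (A, B)).1, q1, q2]
      with q h1 h2 h3 h4 h5
    simp only [Function.comp_apply] at h4 h5
    rw [h1, h3, h2, h4, h5]
    simp only [map_mul, map_add, conj_conj]
    linear_combination (conj (B (Θ.φ q)) * d2 Θ.φ q + conj (A (Θ.φ q)) * conj (d1 Θ.φ q)) *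
      L6b_phase hf q

theorem IsPull.graph (hU : S.IsPull Θ k U) {μ : S.Y → ℂ} (hμ : Continuous μ) {κ : ℝ} (hκ : κ < 1)
    (hb : ∀ q, ‖μ q‖ ≤ κ) (A : S.H) :
    (U (A, S.mulOp μ A)).2 = S.mulOp (Θ.act μ) (U (A, S.mulOp μ A)).1 := by
  obtain ⟨hc, ⟨κ', -, -, hb'⟩, hne⟩ := S.act_bound Θ hμ hκ hb
  have q1 := (S.qmp_adm Θ).ae_eq_comp (S.mulOp_apply hμ.aestronglyMeasurable hb A)
  refine Lp.ext ?_
  filter_upwards [(hU A (S.mulOp μ A)).1, (hU A (S.mulOp μ A)).2, q1,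
    S.mulOp_apply hc.aestronglyMeasurable hb' (U (A, S.mulOp μ A)).1] with q h1 h2 h3 h4
  simp only [Function.comp_apply] at h3
  have h0 := hne q
  rw [h4, h1, h2, h3, Adm.act]
  field_simp

end Flat

end Pool.Agent.MP_e62289_ag
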