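import Pool.Agent.MP_e62289_ag.L3
import Pool.Agent.MP_e62289_ag.L4

open Set Filter Topology Complex MeasureTheory Metric
open scoped Manifold ContDiff ComplexConjugate NNReal ENNReal

namespace Pool.Agent.MP_e62289_ag

lemma L9a_tendsto_eLp {Y : Type} [MeasurableSpace Y] {μ : Measure Y} {u : ℕ → Y → ℂ}
    (h : Tendsto (fun k => ∫⁻ q, ‖u k q‖ₑ ^ 2 ∂μ) atTop (𝓝 0)) :
    Tendsto (fun k => eLpNorm (u k) 2 μ) atTop (𝓝 0) := by
  have e : ∀ k, eLpNorm (u k) 2 μ = (∫⁻ q, ‖u k q‖ₑ ^ 2 ∂μ) ^ (1 / 2 : ℝ) := by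
    intro k
    rw [eLpNorm_eq_lintegral_rpow_enorm_toReal (by norm_num) (by norm_num)]
    simp
  simp only [e]
  have h2 := (ENNReal.continuous_rpow_const (y := (1 / 2 : ℝ))).tendsto 0
  rw [ENNReal.zero_rpow_of_pos (by norm_num)] at h2
  exact h2.comp h

/-- the radii -/
noncomputable def L9a_r (k : ℕ) : ℝ := 1 / ((k : ℝ) + 5)

lemma L9a_r_pos (k : ℕ) : 0 < L9a_r k := by
  unfold L9a_r
  positivity

lemma L9a_r_lt (k : ℕ) : L9a_r k < 1 / 4 := by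
  unfold L9a_r
  have : (0 : ℝ) ≤ k := Nat.cast_nonneg k
  exact one_div_lt_one_div_of_lt (by norm_num) (by linarith)

lemma L9a_r_tendsto : Tendsto L9a_r atTop (𝓝 0) := by
  unfold L9a_r
  exact tendsto_const_nhds.div_atTop
    (tendsto_atTop_add_const_right _ _ tendsto_natCast_atTop_atTop)

lemma L9a_r_ev (c : ℝ) {ρ : ℝ} (hρ : 0 < ρ) : ∀ᶠ k in atTop, c * L9a_r k ≤ ρ := by
  have h := L9a_r_tendsto.const_mul c
  rw [mul_zero] at h
  exact (h.eventually (gt_mem_nhds hρ)).mono fun k hk => hk.le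

namespace Flat

variable {n : ℕ} (S : Flat n)

lemma L9a_core (q : S.Y) : ∀ᶠ k in atTop, q ∈ S.core (2 * L9a_r k) := by
  have : ∀ᶠ k in atTop, ∀ i, q ∈ (S.e i).source → 2 * L9a_r k ≤ ‖S.e i q‖ := by
    rw [eventually_all]
    intro i
    by_cases hq : q ∈ (S.e i).source
    · have h1 := (S.e i).map_source hq
      rw [S.e_target] at h1
      have h2 : 0 < ‖S.e i q‖ := norm_pos_iff.2 h1.2
      exact (L9a_r_ev 2 h2).mono fun k hk _ => hk
    · exact Eventually.of_forall fun k h => absurd h hq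
  exact this

lemma L9a_first (A : S.H) {χ : ℕ → S.Y → ℂ} (hc : ∀ k, Continuous (χ k))
    (h1 : ∀ k q, ‖χ k q‖ ≤ 1) (h2 : ∀ k, ∀ q ∈ S.core (2 * L9a_r k), χ k q = 1) :
    Tendsto (fun k => eLpNorm (fun q => (χ k q - 1) * A q) 2 S.lamf) atTop (𝓝 0) := by
  apply L9a_tendsto_eLp
  have hA := Lp.aestronglyMeasurable A
  have hfin : ∫⁻ q, 4 * ‖A q‖ₑ ^ 2 ∂S.lamf ≠ ⊤ := by
    rw [lintegral_const_mul' _ _ (by norm_num)]
    refine ENNReal.mul_ne_top (by norm_num) ?_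
    have := lintegral_rpow_enorm_lt_top_of_eLpNorm_lt_top (p := 2) (μ := S.lamf) (f := A)
      (by norm_num) (by norm_num) (Lp.eLpNorm_lt_top A)
    simpa using this.ne
  have := tendsto_lintegral_of_dominated_convergence' (μ := S.lamf)
    (F := fun k q => ‖(χ k q - 1) * A q‖ₑ ^ 2) (f := fun _ => 0)
    (fun q => 4 * ‖A q‖ₑ ^ 2) (fun k => ?_) (fun k => ?_) hfin ?_
  · simpa using this
  · exact ((((hc k).sub continuous_const).aestronglyMeasurable.mul hA).enorm).pow_const 2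
  · refine Eventually.of_forall fun q => ?_
    have h3 : ‖χ k q - 1‖ₑ ≤ 2 := by
      have : ‖χ k q - 1‖ ≤ 2 := by
        have := norm_sub_le (χ k q) 1
        have := h1 k q
        rw [norm_one] at *
        linarith
      rw [← ofReal_norm]
      calc ENNReal.ofReal ‖χ k q - 1‖ ≤ ENNReal.ofReal 2 := ENNReal.ofReal_le_ofReal this
        _ = 2 := by simp
    change ‖(χ k q - 1) * A q‖ₑ ^ 2 ≤ 4 * ‖A q‖ₑ ^ 2
    rw [enorm_mul, mul_pow]
    gcongr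
    calc ‖χ k q - 1‖ₑ ^ 2 ≤ 2 ^ 2 := by gcongr
      _ = 4 := by norm_num
  · refine Eventually.of_forall fun q => ?_
    refine tendsto_const_nhds.congr' ?_
    filter_upwards [S.L9a_core q] with k hk
    simp [h2 k q hk]

lemma L9a_bound {κ w : S.Y → ℂ} {C r ε : ℝ} (hr : 0 < r) (hr' : r < 1 / 4) (hε : 0 ≤ ε)
    (hw : ∀ q, w q = 0 ∨ ∃ i, q ∈ (S.e i).source ∧ ‖S.e i q‖ ≤ 2 * r ∧
      ‖w q‖ ≤ C / r * ‖d1 (S.e i) q‖)
    (hκ : ∀ i, ∀ q ∈ S.End i (3 * r), ‖κ q‖ ^ 2 * ‖S.f q‖ ≤ ε) :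
    ∫⁻ q, ‖κ q * w q‖ₑ ^ 2 ∂S.lamf ≤ n * ENNReal.ofReal (ε * (9 * C ^ 2 * Real.pi)) := by
  rw [S.lintegral_lamf]
  set U : Set ℂ := ball 0 (3 * r) \ {0} with hU
  have hUo : IsOpen U := isOpen_ball.sdiff isClosed_singleton
  have hU1 : U ⊆ ball 0 1 \ {0} := sdiff_subset_sdiff_left (ball_subset_ball (by linarith))
  set T : Fin n → Set S.Y := fun i => (S.e i).source ∩ S.e i ⁻¹' U with hT
  have hTo : ∀ i, IsOpen (T i) := fun i => (S.e i).isOpen_inter_preimage hUo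
  have hsupp : Function.support (fun q => ‖S.f q‖ₑ * ‖κ q * w q‖ₑ ^ 2) ⊆ ⋃ i, T i := by
    intro q hq
    rcases hw q with h0 | ⟨i, hi, h2, -⟩
    · simp [h0] at hq
    · refine mem_iUnion.2 ⟨i, hi, ?_, ?_⟩
      · rw [mem_ball_zero_iff]
        linarith
      · have h1 := (S.e i).map_source hi
        rw [S.e_target] at h1
        exact h1.2
  rw [← setLIntegral_eq_of_support_subset hsupp]
  refine (lintegral_iUnion_le _ _).trans ?_
  have key : ∀ i, ∫⁻ q in T i, ‖S.f q‖ₑ * ‖κ q * w q‖ₑ ^ 2 ∂S.lam ≤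
      ENNReal.ofReal (ε * (9 * C ^ 2 * Real.pi)) := by
    intro i
    calc ∫⁻ q in T i, ‖S.f q‖ₑ * ‖κ q * w q‖ₑ ^ 2 ∂S.lam
        ≤ ∫⁻ q in T i, ENNReal.ofReal (ε * (C / r) ^ 2) *
          (‖d1 (S.e i) q‖ₑ ^ 2 * (fun _ : ℂ => (1 : ℝ≥0∞)) (S.e i q)) ∂S.lam := by
          refine setLIntegral_mono' (hTo i).measurableSet fun q hq => ?_
          have hq3 : q ∈ S.End i (3 * r) := ⟨hq.1, mem_ball_zero_iff.1 hq.2.1⟩
          have hwq : ‖w q‖ ^ 2 ≤ (C / r * ‖d1 (S.e i) q‖) ^ 2 := by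
            rcases hw q with h0 | ⟨j, hj, -, h3⟩
            · rw [h0, norm_zero, zero_pow two_ne_zero]
              positivity
            · have hij : j = i := by
                by_contra hne
                exact Set.disjoint_left.1 (S.e_disj hne) hj hq.1
              subst hij
              exact pow_le_pow_left₀ (norm_nonneg _) h3 2
          have hreal : ‖S.f q‖ * ‖κ q * w q‖ ^ 2 ≤ ε * (C / r) ^ 2 * ‖d1 (S.e i) q‖ ^ 2 := by
            calc ‖S.f q‖ * ‖κ q * w q‖ ^ 2 = (‖κ q‖ ^ 2 * ‖S.f q‖) * ‖w q‖ ^ 2 := by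
                  rw [norm_mul]; ring
              _ ≤ ε * (C / r * ‖d1 (S.e i) q‖) ^ 2 :=
                  mul_le_mul (hκ i q hq3) hwq (by positivity) hε
              _ = _ := by ring
          simp only [mul_one]
          rw [← ofReal_norm, ← ofReal_norm, ← ofReal_norm,
            ← ENNReal.ofReal_pow (norm_nonneg _), ← ENNReal.ofReal_pow (norm_nonneg _),
            ← ENNReal.ofReal_mul (norm_nonneg _), ← ENNReal.ofReal_mul (by positivity)]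
          exact ENNReal.ofReal_le_ofReal hreal
      _ = ENNReal.ofReal (ε * (C / r) ^ 2) * ∫⁻ z in U, (fun _ : ℂ => (1 : ℝ≥0∞)) z := by
          rw [lintegral_const_mul' _ _ ENNReal.ofReal_ne_top]
          congr 1
          exact S.lintegral_end i hUo.measurableSet hU1 fun _ => 1
      _ ≤ ENNReal.ofReal (ε * (C / r) ^ 2) * volume (ball (0 : ℂ) (3 * r)) := by
          gcongr
          rw [setLIntegral_one]
          exact measure_mono sdiff_subset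
      _ = ENNReal.ofReal (ε * (9 * C ^ 2 * Real.pi)) := by
          rw [Complex.volume_ball, ← ENNReal.ofReal_pow (by positivity),
            ← ENNReal.ofReal_coe_nnreal, ← ENNReal.ofReal_mul (by positivity),
            ← ENNReal.ofReal_mul (by positivity), NNReal.coe_real_pi]
          congr 1
          field_simp
          ring
  calc ∑' i, ∫⁻ q in T i, ‖S.f q‖ₑ * ‖κ q * w q‖ₑ ^ 2 ∂S.lam
      ≤ ∑' _ : Fin n, ENNReal.ofReal (ε * (9 * C ^ 2 * Real.pi)) := ENNReal.tsum_le_tsum key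
    _ = n * ENNReal.ofReal (ε * (9 * C ^ 2 * Real.pi)) := by
      rw [tsum_fintype]
      simp

lemma L9a_second {κ : S.Y → ℂ} {w : ℕ → S.Y → ℂ} {C : ℝ}
    (hw : ∀ k q, w k q = 0 ∨ ∃ i, q ∈ (S.e i).source ∧ ‖S.e i q‖ ≤ 2 * L9a_r k ∧
      ‖w k q‖ ≤ C / L9a_r k * ‖d1 (S.e i) q‖)
    (he : ∀ i, Tendsto (fun q => ‖κ q‖ ^ 2 * ‖S.f q‖) (S.endF i) (𝓝 0)) :
    Tendsto (fun k => eLpNorm (fun q => κ q * w k q) 2 S.lamf) atTop (𝓝 0) := by
  apply L9a_tendsto_eLp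
  rw [ENNReal.tendsto_nhds_zero]
  intro η hη
  have h1 : Tendsto (fun ε : ℝ => (n : ℝ≥0∞) * ENNReal.ofReal (ε * (9 * C ^ 2 * Real.pi)))
      (𝓝[>] 0) (𝓝 0) := by
    have h2 : Tendsto (fun ε : ℝ => ε * (9 * C ^ 2 * Real.pi)) (𝓝[>] 0) (𝓝 0) := by
      have hc : Continuous fun ε : ℝ => ε * (9 * C ^ 2 * Real.pi) := by fun_prop
      have := hc.tendsto (0 : ℝ)
      rw [zero_mul] at this
      exact this.mono_left nhdsWithin_le_nhds
    have h3 := ENNReal.tendsto_ofReal h2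
    rw [ENNReal.ofReal_zero] at h3
    have h4 := ENNReal.Tendsto.const_mul (a := (n : ℝ≥0∞)) h3 (Or.inr (by simp))
    simpa using h4
  obtain ⟨ε, hε1, hε2⟩ :=
    ((ENNReal.tendsto_nhds_zero.1 h1 η hη).and self_mem_nhdsWithin).exists
  have hε : 0 < ε := hε2
  have h5 : ∀ᶠ k in atTop, ∀ i, ∀ q ∈ S.End i (3 * L9a_r k), ‖κ q‖ ^ 2 * ‖S.f q‖ ≤ ε := by
    rw [eventually_all]
    intro i
    obtain ⟨ρ, hρ, h6⟩ := (S.hasBasis_endF i).eventually_iff.1
      ((he i).eventually (gt_mem_nhds hε))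
    filter_upwards [L9a_r_ev 3 hρ] with k hk q hq
    exact (h6 ⟨hq.1, hq.2.trans_le hk⟩).le
  filter_upwards [h5] with k hk
  exact (S.L9a_bound (L9a_r_pos k) (L9a_r_lt k) hε.le (hw k) hk).trans hε1

lemma L9a_conv {κ a : S.Y → ℂ} (hκ : Continuous κ) {A : S.H} (hA : (A : S.Y → ℂ) =ᵐ[S.lamf] a)
    {χ w u : ℕ → S.Y → ℂ} {C : ℝ} (hc : ∀ k, Continuous (χ k)) (hcw : ∀ k, Continuous (w k))
    (h1 : ∀ k q, ‖χ k q‖ ≤ 1) (h2 : ∀ k, ∀ q ∈ S.core (2 * L9a_r k), χ k q = 1)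
    (hw : ∀ k q, w k q = 0 ∨ ∃ i, q ∈ (S.e i).source ∧ ‖S.e i q‖ ≤ 2 * L9a_r k ∧
      ‖w k q‖ ≤ C / L9a_r k * ‖d1 (S.e i) q‖)
    (he : ∀ i, Tendsto (fun q => ‖κ q‖ ^ 2 * ‖S.f q‖) (S.endF i) (𝓝 0))
    (hu : ∀ k, MemLp (u k) 2 S.lamf) (hu' : ∀ k q, u k q = χ k q * a q + κ q * w k q) :
    Tendsto (fun k => (hu k).toLp (u k)) atTop (𝓝 A) := by
  rw [Lp.tendsto_Lp_iff_tendsto_eLpNorm']
  have h3 := (S.L9a_first A hc h1 h2).add (S.L9a_second hw he)
  rw [add_zero] at h3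
  refine tendsto_of_tendsto_of_tendsto_of_le_of_le tendsto_const_nhds h3
    (fun _ => zero_le) fun k => ?_
  have h4 : (⇑((hu k).toLp (u k)) - ⇑A) =ᵐ[S.lamf]
      (fun q => (χ k q - 1) * A q) + fun q => κ q * w k q := by
    filter_upwards [(hu k).coeFn_toLp, hA] with q h5 h6
    simp only [Pi.sub_apply, Pi.add_apply, h5, h6, hu']
    ring
  change eLpNorm (⇑((hu k).toLp (u k)) - ⇑A) 2 S.lamf ≤ _
  rw [eLpNorm_congr_ae h4]
  exact eLpNorm_add_le
    (((hc k).sub continuous_const).aestronglyMeasurable.mul (Lp.aestronglyMeasurable A))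
    (hκ.mul (hcw k)).aestronglyMeasurable (by norm_num)

/-- forms with a primitive that decays at the ends are limits of exact forms -/
theorem mem_Eb {κ : S.Y → ℂ} (hκ : Ck 2 κ) {A B : S.H} (hA : (A : S.Y → ℂ) =ᵐ[S.lamf] S.D1 κ)
    (hB : (B : S.Y → ℂ) =ᵐ[S.lamf] d2 κ)
    (he : ∀ i, Tendsto (fun q => ‖κ q‖ ^ 2 * ‖S.f q‖) (S.endF i) (𝓝 0)) : (A, B) ∈ S.hd.Eb := by
  obtain ⟨C, hC⟩ := S.cutoff
  choose χ hχ hcs h1 h2 hw using fun k => hC (L9a_r k) (L9a_r_pos k) (L9a_r_lt k)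
  have hp : ∀ k, Ck 2 (fun q => χ k q * κ q) := fun k =>
    (contDiff_mul (𝕜 := ℝ) (𝔸 := ℂ)).comp_contMDiff ((hχ k).prodMk_space hκ)
  have hps : ∀ k, HasCompactSupport (fun q => χ k q * κ q) := fun k => (hcs k).mul_right
  have hd : ∀ k q, d1 (fun q => χ k q * κ q) q = d1 (χ k) q * κ q + χ k q * d1 κ q ∧
      d2 (fun q => χ k q * κ q) q = d2 (χ k) q * κ q + χ k q * d2 κ q := fun k q =>
    d_mul ((hχ k q).mdifferentiableAt (by simp)) ((hκ q).mdifferentiableAt (by simp))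
  have hcd : ∀ k, Continuous (d1 (χ k)) ∧ Continuous (d2 (χ k)) := fun k =>
    ⟨continuous_iff_continuousAt.2 fun q =>
      (S.continuousAt_d ((hχ k q).of_le (by norm_num))).1,
    continuous_iff_continuousAt.2 fun q =>
      (S.continuousAt_d ((hχ k q).of_le (by norm_num))).2⟩
  have t1 := S.L9a_conv (C := C) hκ.continuous hA (fun k => (hχ k).continuous)
    (fun k => (hcd k).1) h1 h2 (fun k q => ?_) he (fun k => (S.memLp_D (hp k) (hps k)).1)
    (fun k q => ?_)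
  · have t2 := S.L9a_conv (C := C) hκ.continuous hB (fun k => (hχ k).continuous)
      (fun k => (hcd k).2) h1 h2 (fun k q => ?_) he (fun k => (S.memLp_D (hp k) (hps k)).2)
      (fun k q => ?_)
    · refine mem_closure_of_tendsto (t1.prodMk_nhds t2) (Eventually.of_forall fun k => ?_)
      exact (S.hd_E _).2 ⟨_, hp k, hps k, (S.memLp_D (hp k) (hps k)).1.coeFn_toLp,
        (S.memLp_D (hp k) (hps k)).2.coeFn_toLp⟩
    · rcases hw k q with h | ⟨i, hi, -, h3, -, h4⟩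
      · exact Or.inl h.2
      · exact Or.inr ⟨i, hi, h3, h4⟩
    · rw [(hd k q).2]
      ring
  · rcases hw k q with h | ⟨i, hi, -, h3, h4, -⟩
    · exact Or.inl h.1
    · exact Or.inr ⟨i, hi, h3, h4⟩
  · simp only [D1]
    rw [(hd k q).1]
    ring

end Flat

end Pool.Agent.MP_e62289_ag
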