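import Pool.Agent.MP_e62289_ag.W

open Set Filter Topology Complex MeasureTheory Metric
open scoped Manifold ContDiff ComplexConjugate NNReal ENNReal

namespace Pool.Agent.MP_e62289_ag

/-- A connected flat surface with `n` ends conformally equivalent to punctured discs and a
nowhere vanishing holomorphic function `f` (the twist). -/
structure Flat (n : ℕ) where
  Y : Type
  [top : TopologicalSpace Y]
  [t2 : T2Space Y]
  [sc : SecondCountableTopology Y]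
  [cn : ConnectedSpace Y]
  [ms : MeasurableSpace Y]
  [bor : BorelSpace Y]
  [ch : ChartedSpace ℂ Y]
  [mC : IsManifold 𝓘(ℂ, ℂ) ω Y]
  [mR : IsManifold 𝓘(ℝ, ℂ) ω Y]
  flat : ∀ x y : Y, ∀ q ∈ (chartAt ℂ x).source ∩ (chartAt ℂ y).source, ∀ᶠ q' in 𝓝 q,
    chartAt ℂ x q' - chartAt ℂ y q' = chartAt ℂ x q - chartAt ℂ y q
  lam : Measure Y
  area : ∀ (x : Y) (A : Set Y), MeasurableSet A → A ⊆ (chartAt ℂ x).source →
    lam A = volume (chartAt ℂ x '' A)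
  e : Fin n → OpenPartialHomeomorph Y ℂ
  e_target : ∀ i, (e i).target = ball 0 1 \ {0}
  e_hol : ∀ i, MDifferentiableOn 𝓘(ℂ, ℂ) 𝓘(ℂ, ℂ) (e i) (e i).source
  e_disj : Pairwise fun i j => Disjoint (e i).source (e j).source
  e_closed : ∀ i r, r < 1 → IsClosed {q | q ∈ (e i).source ∧ ‖e i q‖ ≤ r}
  e_compact : ∀ r, 0 < r → IsCompact {q | ∀ i, q ∈ (e i).source → r ≤ ‖e i q‖}
  f : Y → ℂ
  f_hol : MDifferentiable 𝓘(ℂ, ℂ) 𝓘(ℂ, ℂ) f
  f_ne : ∀ q, f q ≠ 0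

attribute [instance] Flat.top Flat.t2 Flat.sc Flat.cn Flat.ms Flat.bor Flat.ch Flat.mC Flat.mR

/-- holomorphic functions on a surface -/
abbrev Hol {Y : Type} [TopologicalSpace Y] [ChartedSpace ℂ Y] (u : Y → ℂ) : Prop :=
  MDifferentiable 𝓘(ℂ, ℂ) 𝓘(ℂ, ℂ) u
/-- holomorphic at a point -/
abbrev HolAt {Y : Type} [TopologicalSpace Y] [ChartedSpace ℂ Y] (u : Y → ℂ) (q : Y) : Prop :=
  MDifferentiableAt 𝓘(ℂ, ℂ) 𝓘(ℂ, ℂ) u q
/-- real differentiable at a point -/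
abbrev RDiffAt {Y : Type} [TopologicalSpace Y] [ChartedSpace ℂ Y] (u : Y → ℂ) (q : Y) : Prop :=
  MDifferentiableAt 𝓘(ℝ, ℂ) 𝓘(ℝ, ℂ) u q
/-- functions of class `C ^ k` -/
abbrev Ck {Y : Type} [TopologicalSpace Y] [ChartedSpace ℂ Y] (k : ℕ∞ω) (u : Y → ℂ) : Prop :=
  ContMDiff 𝓘(ℝ, ℂ) 𝓘(ℝ, ℂ) k u
/-- of class `C ^ k` at a point -/
abbrev CkAt {Y : Type} [TopologicalSpace Y] [ChartedSpace ℂ Y] (k : ℕ∞ω) (u : Y → ℂ) (q : Y) :
    Prop := ContMDiffAt 𝓘(ℝ, ℂ) 𝓘(ℝ, ℂ) k u q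

namespace Flat

variable {n : ℕ} (S : Flat n)

/-- the twisted area measure -/
noncomputable def lamf : Measure S.Y := S.lam.withDensity fun q => ‖S.f q‖ₑ

/-- square integrable coefficients -/
abbrev H : Type := Lp ℂ 2 S.lamf

/-- twisted `∂` -/
noncomputable def D1 (κ : S.Y → ℂ) (q : S.Y) : ℂ := d1 κ q + κ q * d1 S.f q / (2 * S.f q)

/-- the neighbourhood of radius `r` of the end `i` -/
def End (i : Fin n) (r : ℝ) : Set S.Y := {q | q ∈ (S.e i).source ∧ ‖S.e i q‖ < r}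

/-- the compact core -/
def core (r : ℝ) : Set S.Y := {q | ∀ i, q ∈ (S.e i).source → r ≤ ‖S.e i q‖}

/-- the filter of neighbourhoods of the end `i` -/
noncomputable def endF (i : Fin n) : Filter S.Y := comap (S.e i) (𝓝 0) ⊓ 𝓟 (S.e i).source

open Classical in
/-- multiplication by a bounded function -/
noncomputable def mulOp (μ : S.Y → ℂ) : S.H →L[ℂ] S.H :=
  if h : MemLp μ ⊤ S.lamf then
    (ContinuousLinearMap.mul ℂ ℂ).holderL S.lamf ⊤ 2 2 (h.toLp μ) else 0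

/-- the exact forms -/
def IsExact (e : S.H × S.H) : Prop := ∃ κ : S.Y → ℂ, Ck 2 κ ∧ HasCompactSupport κ ∧
  (e.1 : S.Y → ℂ) =ᵐ[S.lamf] S.D1 κ ∧ (e.2 : S.Y → ℂ) =ᵐ[S.lamf] d2 κ

/-- discs in holomorphic coordinates -/
def IsDisc (N : Set S.Y) : Prop := ∃ (φ : OpenPartialHomeomorph S.Y ℂ) (c : ℂ) (ρ : ℝ),
  MDifferentiableOn 𝓘(ℂ, ℂ) 𝓘(ℂ, ℂ) φ φ.source ∧ ball c ρ ⊆ φ.target ∧
    N = φ.source ∩ φ ⁻¹' ball c ρ

end Flat

end Pool.Agent.MP_e62289_ag
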