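import Mathlib

open Set Filter Topology

namespace Pool.Agent.MP_e62289_ag

theorem S5a_log {u : ℝ} (hu : |u| ≤ 1 / 2) :
    Real.log (1 + u) ≤ u - u ^ 2 / 2 + 2 * |u| ^ 3 := by
  have h1 : |(-u)| < 1 := by rw [abs_neg]; linarith
  have h := Real.abs_log_sub_add_sum_range_le h1 2
  simp only [Finset.sum_range_succ, Finset.sum_range_zero, abs_neg, sub_neg_eq_add] at h
  have h2 := (abs_le.1 h).2
  have h3 : |u| ^ (2 + 1) / (1 - |u|) ≤ 2 * |u| ^ 3 := by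
    rw [div_le_iff₀ (by linarith)]
    have : 0 ≤ |u| ^ 3 * (1 - 2 * |u|) := mul_nonneg (by positivity) (by linarith)
    change |u| ^ 3 ≤ _
    nlinarith
  have h4 : (0 : ℝ) + (-u) ^ (0 + 1) / (((0 : ℕ) : ℝ) + 1) + (-u) ^ (1 + 1) / (((1 : ℕ) : ℝ) + 1) =
      -u + u ^ 2 / 2 := by
    push_cast
    ring
  rw [h4] at h2
  linarith

/-- one term of the second order expansion -/
theorem S5a_term {u s D r : ℝ} (hr : 0 < r) (hr6 : r ≤ 1 / 6) (hDr : D * r ≤ 1)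
    (hs : |s| ≤ r) (hu : |u - 2 * s| ≤ D * r ^ 2) :
    |u| ≤ 1 / 2 ∧ Real.log (1 + u) ≤ u - 2 * s ^ 2 + (2 * D + 54) * r ^ 3 := by
  have h1 : |u| ≤ 3 * r := by
    have : |u| ≤ |u - 2 * s| + |2 * s| := by
      simpa using abs_add_le (u - 2 * s) (2 * s)
    rw [abs_mul, abs_two] at this
    nlinarith
  have h2 : |u| ≤ 1 / 2 := by linarith
  refine ⟨h2, (S5a_log h2).trans ?_⟩
  have h3 : |u| ^ 3 ≤ (3 * r) ^ 3 := pow_le_pow_left₀ (abs_nonneg _) h1 3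
  have h4 : |s * (u - 2 * s)| ≤ r * (D * r ^ 2) := by
    rw [abs_mul]
    exact mul_le_mul hs hu (abs_nonneg _) hr.le
  have h5 := (abs_le.1 h4).1
  nlinarith [sq_nonneg (u - 2 * s)]

/-- the weight -/
noncomputable def S5a_beta (K e : ℝ) : ℝ := Real.log e - (K + 1) * e

theorem S5a_beta_mono {K a b : ℝ} (ha : 0 < a) (hab : a ≤ b) (hb : (K + 1) * b ≤ 1) :
    S5a_beta K a ≤ S5a_beta K b := by
  have hb0 : 0 < b := ha.trans_le hab
  have h1 := Real.log_le_sub_one_of_pos (div_pos ha hb0)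
  rw [Real.log_div ha.ne' hb0.ne'] at h1
  have h2 : a / b - 1 = -((b - a) / b) := by field_simp; ring
  have h3 : (K + 1) * (b - a) ≤ (b - a) / b := by
    rw [le_div_iff₀ hb0]
    nlinarith
  unfold S5a_beta
  linarith

theorem S5a_rel {e e' s C E1 r : ℝ} (hE1 : 0 < E1) (he : E1 ≤ e) (hC : 0 ≤ C)
    (h : |e' - (1 + 2 * s) * e| ≤ C * r ^ 2) : |(e' / e - 1) - 2 * s| ≤ C / E1 * r ^ 2 := by
  have he0 : 0 < e := hE1.trans_le he
  have h1 : (e' / e - 1) - 2 * s = (e' - (1 + 2 * s) * e) / e := by field_simp; ring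
  rw [h1, abs_div, abs_of_pos he0]
  calc |e' - (1 + 2 * s) * e| / e ≤ C * r ^ 2 / E1 := by gcongr
    _ = C / E1 * r ^ 2 := by ring

theorem S5a_beta_eq {K e e' : ℝ} (he : 0 < e) (he' : 0 < e') :
    S5a_beta K e' = S5a_beta K e + (Real.log (1 + (e' / e - 1)) - (K + 1) * e * (e' / e - 1)) := by
  have h1 : 1 + (e' / e - 1) = e' / e := by ring
  rw [h1, Real.log_div he'.ne' he.ne']
  unfold S5a_beta
  field_simp
  ring

/-- the gain in the weight after a holomorphic variation -/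
theorem S5a_gain {K C E1 r e e0 e1 e2 e3 x y : ℝ} (hK : 0 ≤ K) (hC : 0 ≤ C) (hE1 : 0 < E1)
    (he : E1 ≤ e) (he' : (K + 1) * e ≤ 1 / 4) (hr : 0 < r) (hr6 : r ≤ 1 / 6)
    (hDr : C / E1 * r ≤ 1) (hsm : (9 * (C / E1) + 216) * r ≤ 3 * E1)
    (hxy : x ^ 2 + y ^ 2 = r ^ 2)
    (h0 : |e0 - (1 + 2 * x) * e| ≤ C * r ^ 2) (h1 : |e1 - (1 + 2 * (-y)) * e| ≤ C * r ^ 2)
    (h2 : |e2 - (1 + 2 * (-x)) * e| ≤ C * r ^ 2) (h3 : |e3 - (1 + 2 * y) * e| ≤ C * r ^ 2)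
    (hs : e0 + e1 + e2 + e3 ≤ 4 * e + 4 * r ^ 2 * (1 + K / 2 * e) * e + C * r ^ 3) :
    (0 < e0 ∧ e0 ≤ 2 * e) ∧ (0 < e1 ∧ e1 ≤ 2 * e) ∧ (0 < e2 ∧ e2 ≤ 2 * e) ∧
      (0 < e3 ∧ e3 ≤ 2 * e) ∧ S5a_beta K e0 + S5a_beta K e1 + S5a_beta K e2 + S5a_beta K e3 ≤
        4 * S5a_beta K e - E1 * r ^ 2 := by
  have he0 : 0 < e := hE1.trans_le he
  have hD : 0 ≤ C / E1 := by positivity
  have hx : |x| ≤ r := abs_le_of_sq_le_sq' (by nlinarith [sq_nonneg y]) hr.le |> abs_le.2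
  have hy : |y| ≤ r := abs_le_of_sq_le_sq' (by nlinarith [sq_nonneg x]) hr.le |> abs_le.2
  obtain ⟨a0, b0⟩ := S5a_term hr hr6 hDr hx (S5a_rel hE1 he hC h0)
  obtain ⟨a1, b1⟩ := S5a_term hr hr6 hDr (by rwa [abs_neg]) (S5a_rel hE1 he hC h1)
  obtain ⟨a2, b2⟩ := S5a_term hr hr6 hDr (by rwa [abs_neg]) (S5a_rel hE1 he hC h2)
  obtain ⟨a3, b3⟩ := S5a_term hr hr6 hDr hy (S5a_rel hE1 he hC h3)
  have key : ∀ e' : ℝ, |e' / e - 1| ≤ 1 / 2 → 0 < e' ∧ e' ≤ 2 * e := by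
    intro e' h
    have h' := abs_le.1 h
    have h1 : 1 / 2 ≤ e' / e := by linarith
    have h2 : e' / e ≤ 2 := by linarith
    rw [le_div_iff₀ he0] at h1
    rw [div_le_iff₀ he0] at h2
    exact ⟨by linarith, h2⟩
  refine ⟨key _ a0, key _ a1, key _ a2, key _ a3, ?_⟩
  rw [S5a_beta_eq he0 (key _ a0).1, S5a_beta_eq he0 (key _ a1).1, S5a_beta_eq he0 (key _ a2).1,
    S5a_beta_eq he0 (key _ a3).1]
  have hsum : (e0 / e - 1) + (e1 / e - 1) + (e2 / e - 1) + (e3 / e - 1) ≤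
      4 * r ^ 2 * (1 + K / 2 * e) + C / E1 * r ^ 3 := by
    have h5 : (e0 / e - 1) + (e1 / e - 1) + (e2 / e - 1) + (e3 / e - 1) =
        (e0 + e1 + e2 + e3 - 4 * e) / e := by field_simp; ring
    have h6 : C * r ^ 3 ≤ C / E1 * r ^ 3 * e := by
      have : C * r ^ 3 = C / E1 * r ^ 3 * E1 := by field_simp
      rw [this]
      gcongr
    rw [h5, div_le_iff₀ he0]
    nlinarith
  generalize e0 / e - 1 = u0 at *
  generalize e1 / e - 1 = u1 at *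
  generalize e2 / e - 1 = u2 at *
  generalize e3 / e - 1 = u3 at *
  generalize C / E1 = D at *
  have h7 : (1 - (K + 1) * e) * (u0 + u1 + u2 + u3) ≤
      (1 - (K + 1) * e) * (4 * r ^ 2 * (1 + K / 2 * e) + D * r ^ 3) :=
    mul_le_mul_of_nonneg_left hsum (by linarith)
  have hr2 : 0 < r ^ 2 := by positivity
  have hr3 : 0 ≤ D * r ^ 3 := by positivity
  have hKe : 0 ≤ K * e := by positivity
  have h8 : (1 - (K + 1) * e) * (1 + K / 2 * e) ≤ 1 - e := by nlinarith [mul_nonneg hKe hKe]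
  have h9 : (1 - (K + 1) * e) * (4 * r ^ 2 * (1 + K / 2 * e) + D * r ^ 3) ≤
      4 * r ^ 2 * (1 - e) + D * r ^ 3 := by
    have : (K + 1) * e * (D * r ^ 3) ≥ 0 := by positivity
    nlinarith
  have h10 : (9 * D + 216) * r * r ^ 2 ≤ 3 * E1 * r ^ 2 := by gcongr
  have h11 : E1 * r ^ 2 ≤ e * r ^ 2 := by gcongr
  nlinarith

/-- the variational property of a family of chains -/
def S5aVar {ι : Type} (e a : ι → ℝ) (K C ρ : ℝ) : Prop :=
  ∀ γ, e γ ≤ 1 → ∀ r, 0 < r → r ≤ ρ → ∃ (g0 g1 g2 g3 : ι) (x y : ℝ), x ^ 2 + y ^ 2 = r ^ 2 ∧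
    a γ ^ 4 ≤ a g0 * a g1 * a g2 * a g3 ∧
    |e g0 - (1 + 2 * x) * e γ| ≤ C * r ^ 2 ∧ |e g1 - (1 + 2 * (-y)) * e γ| ≤ C * r ^ 2 ∧
    |e g2 - (1 + 2 * (-x)) * e γ| ≤ C * r ^ 2 ∧ |e g3 - (1 + 2 * y) * e γ| ≤ C * r ^ 2 ∧
    e g0 + e g1 + e g2 + e g3 ≤ 4 * e γ + 4 * r ^ 2 * (1 + K / 2 * e γ) * e γ + C * r ^ 3

theorem S5a_small {C E1 ρ : ℝ} (hC : 0 ≤ C) (hE1 : 0 < E1) (hρ : 0 < ρ) :
    ∃ r : ℝ, 0 < r ∧ r ≤ ρ ∧ r ≤ 1 / 6 ∧ C / E1 * r ≤ 1 ∧ (9 * (C / E1) + 216) * r ≤ 3 * E1 := by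
  have hD : 0 ≤ C / E1 := by positivity
  generalize C / E1 = D at *
  refine ⟨min (min ρ (1 / 6)) (min (1 / (D + 1)) (3 * E1 / (9 * D + 216))), by positivity,
    (min_le_left _ _).trans (min_le_left _ _), (min_le_left _ _).trans (min_le_right _ _), ?_, ?_⟩
  · calc D * _ ≤ D * (1 / (D + 1)) :=
          mul_le_mul_of_nonneg_left ((min_le_right _ _).trans (min_le_left _ _)) hD
      _ ≤ 1 := by
          rw [mul_one_div, div_le_one (by positivity)]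
          linarith
  · calc (9 * D + 216) * _ ≤ (9 * D + 216) * (3 * E1 / (9 * D + 216)) :=
          mul_le_mul_of_nonneg_left ((min_le_right _ _).trans (min_le_right _ _)) (by positivity)
      _ = 3 * E1 := by field_simp

/-- small energy forces a small weighted value -/
theorem S5a_low {K C1 θ M : ℝ} (hK : 0 ≤ K) (hC1 : 0 < C1) (_hθ0 : 0 ≤ θ) (hθ : θ < 1)
    (hM : 0 < M) : ∃ E1 : ℝ, 0 < E1 ∧ ∀ e a : ℝ, 0 < e → (K + 1) * e ≤ 1 → a ≤ C1 * e →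
      M < a * Real.exp (-(θ * S5a_beta K e)) → E1 ≤ e := by
  refine ⟨Real.exp ((Real.log (M / C1) - 1) / (1 - θ)), Real.exp_pos _, fun e a he hKe ha hlt => ?_⟩
  have h1 : a * Real.exp (-(θ * S5a_beta K e)) ≤ C1 * Real.exp ((1 - θ) * Real.log e + 1) := by
    calc a * Real.exp (-(θ * S5a_beta K e)) ≤ C1 * e * Real.exp (-(θ * S5a_beta K e)) := by
          gcongr
      _ = C1 * Real.exp (Real.log e + -(θ * S5a_beta K e)) := by
          rw [Real.exp_add, Real.exp_log he, mul_assoc]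
      _ ≤ _ := by
          refine mul_le_mul_of_nonneg_left (Real.exp_le_exp.2 ?_) hC1.le
          unfold S5a_beta
          have : θ * ((K + 1) * e) ≤ 1 * 1 :=
            mul_le_mul hθ.le hKe (by positivity) zero_le_one
          nlinarith
  have h2 : M / C1 < Real.exp ((1 - θ) * Real.log e + 1) := by
    rw [div_lt_iff₀ hC1]
    linarith
  have h3 : Real.log (M / C1) < (1 - θ) * Real.log e + 1 :=
    (Real.log_lt_iff_lt_exp (by positivity)).2 h2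
  rw [← Real.le_log_iff_exp_le he, div_le_iff₀ (by linarith)]
  linarith

/-- the maximum principle for a fixed exponent -/
theorem S5a_theta {ι : Type} {e a : ι → ℝ} {K C ρ H C1 θ : ℝ} (hK : 0 ≤ K) (hC : 0 ≤ C)
    (hρ : 0 < ρ) (hC1 : 0 < C1) (ha0 : ∀ γ, 0 ≤ a γ) (haH : ∀ γ, a γ ≤ H)
    (ha : ∀ γ, e γ ≤ 1 → a γ ≤ C1 * e γ) (hv : S5aVar e a K C ρ) (hθ0 : 1 / 2 ≤ θ) (hθ : θ < 1)
    (γ₀ : ι) (h0 : 0 < e γ₀) (h1 : e γ₀ ≤ 1 / (2 * (K + 1))) :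
    a γ₀ * Real.exp (-(θ * S5a_beta K (e γ₀))) ≤
      H * Real.exp (-(θ * S5a_beta K (1 / (4 * (K + 1))))) := by
  set Φ : ι → ℝ := fun γ => a γ * Real.exp (-(θ * S5a_beta K (e γ))) with hΦ
  set S : Set ι := {γ | 0 < e γ ∧ e γ ≤ 1 / (2 * (K + 1))} with hS
  have hS1 : ∀ γ ∈ S, (K + 1) * e γ ≤ 1 / 2 := fun γ hγ => by
    have := hγ.2
    rw [le_div_iff₀ (by positivity)] at this
    linarith
  have hS2 : ∀ γ ∈ S, e γ ≤ 1 := fun γ hγ => by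
    have := hS1 γ hγ
    nlinarith [hγ.1]
  have hH : 0 ≤ H := (ha0 γ₀).trans (haH γ₀)
  have hbdd : BddAbove (Φ '' S) := by
    obtain ⟨E1, hE1, hE⟩ := S5a_low hK hC1 (by linarith) hθ one_pos
    refine ⟨max 1 (H * Real.exp (-(θ * S5a_beta K E1))), ?_⟩
    rintro _ ⟨γ, hγ, rfl⟩
    by_cases h : 1 < Φ γ
    · have h2 := hE _ _ hγ.1 (by linarith [hS1 γ hγ]) (ha γ (hS2 γ hγ)) h
      have h3 := S5a_beta_mono (K := K) hE1 h2 (by linarith [hS1 γ hγ])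
      refine le_max_of_le_right ?_
      simp only [hΦ]
      gcongr
      exact haH γ
    · exact le_max_of_le_left (not_lt.1 h)
  set M := sSup (Φ '' S) with hM
  have hle : ∀ γ ∈ S, Φ γ ≤ M := fun γ hγ => le_csSup hbdd ⟨γ, hγ, rfl⟩
  refine (hle γ₀ ⟨h0, h1⟩).trans ?_
  by_contra hcon
  rw [not_le] at hcon
  have hM0 : 0 < M := lt_of_le_of_lt (by positivity) hcon
  obtain ⟨E1, hE1, hE⟩ := S5a_low hK hC1 (by linarith) hθ (half_pos hM0)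
  obtain ⟨r, hr, hrρ, hr6, hr1, hr2⟩ := S5a_small hC hE1 hρ
  have hδ : 0 < E1 * r ^ 2 / 8 := by positivity
  have hlt : max (max (M / 2) (H * Real.exp (-(θ * S5a_beta K (1 / (4 * (K + 1)))))))
      (M * Real.exp (-(E1 * r ^ 2 / 8))) < M := by
    refine max_lt (max_lt (half_lt_self hM0) hcon) ?_
    have : Real.exp (-(E1 * r ^ 2 / 8)) < 1 := by
      rw [← Real.exp_zero]
      exact Real.exp_lt_exp.2 (by linarith)
    nlinarith
  obtain ⟨_, ⟨γ, hγ, rfl⟩, hγM⟩ := exists_lt_of_lt_csSup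
    (⟨Φ γ₀, γ₀, ⟨h0, h1⟩, rfl⟩ : (Φ '' S).Nonempty) hlt
  obtain ⟨hγ12, hγ3⟩ := max_lt_iff.1 hγM
  obtain ⟨hγ1, hγ2⟩ := max_lt_iff.1 hγ12
  have hl := hE _ _ hγ.1 (by linarith [hS1 γ hγ]) (ha γ (hS2 γ hγ)) hγ1
  have hu : e γ ≤ 1 / (4 * (K + 1)) := by
    by_contra hc
    rw [not_le] at hc
    have h3 := S5a_beta_mono (K := K) (by positivity) hc.le (by linarith [hS1 γ hγ])
    refine absurd hγ2 (not_lt.2 ?_)
    simp only [hΦ]
    gcongr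
    exact haH γ
  have hu' : (K + 1) * e γ ≤ 1 / 4 := by
    rw [le_div_iff₀ (by positivity)] at hu
    linarith
  obtain ⟨g0, g1, g2, g3, x, y, hxy, hp, k0, k1, k2, k3, ks⟩ := hv γ (hS2 γ hγ) r hr hrρ
  obtain ⟨m0, m1, m2, m3, hg⟩ := S5a_gain hK hC hE1 hl hu' hr hr6 hr1 hr2 hxy k0 k1 k2 k3 ks
  have hmem : ∀ g, 0 < e g ∧ e g ≤ 2 * e γ → g ∈ S := fun g hg => ⟨hg.1, by
    have : 1 / (2 * (K + 1)) = 2 * (1 / (4 * (K + 1))) := by field_simp; ring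
    linarith [hg.2]⟩
  have hΦ0 : ∀ g, 0 ≤ Φ g := fun g => mul_nonneg (ha0 g) (Real.exp_pos _).le
  have hprod : Φ g0 * Φ g1 * Φ g2 * Φ g3 ≤ M * M * M * M := by
    have := hΦ0 g0
    have := hΦ0 g1
    have := hΦ0 g2
    have := hΦ0 g3
    gcongr
    exacts [hle _ (hmem _ m0), hle _ (hmem _ m1), hle _ (hmem _ m2), hle _ (hmem _ m3)]
  have hprod2 : (Φ γ * Real.exp (E1 * r ^ 2 / 8)) ^ 4 ≤ Φ g0 * Φ g1 * Φ g2 * Φ g3 := by
    have e1 : (Φ γ * Real.exp (E1 * r ^ 2 / 8)) ^ 4 =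
        a γ ^ 4 * Real.exp (4 * (-(θ * S5a_beta K (e γ)) + E1 * r ^ 2 / 8)) := by
      simp only [hΦ]
      rw [mul_assoc, ← Real.exp_add, mul_pow, ← Real.exp_nat_mul]
      norm_num
    have e2 : Φ g0 * Φ g1 * Φ g2 * Φ g3 = a g0 * a g1 * a g2 * a g3 *
        Real.exp (-(θ * S5a_beta K (e g0)) + -(θ * S5a_beta K (e g1)) +
          -(θ * S5a_beta K (e g2)) + -(θ * S5a_beta K (e g3))) := by
      simp only [hΦ, Real.exp_add]
      ring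
    rw [e1, e2]
    have := ha0 g0
    have := ha0 g1
    have := ha0 g2
    have := ha0 g3
    gcongr
    have h5 := mul_le_mul_of_nonneg_left hg (by linarith : 0 ≤ θ)
    have h6 : 1 / 2 * (E1 * r ^ 2) ≤ θ * (E1 * r ^ 2) := by gcongr
    nlinarith
  have hfin : M < Φ γ * Real.exp (E1 * r ^ 2 / 8) := by
    have := mul_lt_mul_of_pos_right hγ3 (Real.exp_pos (E1 * r ^ 2 / 8))
    rwa [mul_assoc, ← Real.exp_add, neg_add_cancel, Real.exp_zero, mul_one] at this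
  have := pow_lt_pow_left₀ hfin hM0.le (by norm_num : (4 : ℕ) ≠ 0)
  nlinarith

/-- the abstract second order Schwarz lemma -/
theorem S5a_abstract {ι : Type} {e a : ι → ℝ} {K C ρ H C1 : ℝ} (hK : 0 ≤ K) (hC : 0 ≤ C)
    (hρ : 0 < ρ) (hC1 : 0 < C1) (he0 : ∀ γ, 0 ≤ e γ) (ha0 : ∀ γ, 0 ≤ a γ) (haH : ∀ γ, a γ ≤ H)
    (ha : ∀ γ, e γ ≤ 1 → a γ ≤ C1 * e γ) (hv : S5aVar e a K C ρ)
    (γ : ι) (h1 : e γ ≤ 1 / (2 * (K + 1))) :
    a γ ≤ 4 * (K + 1) * Real.exp 1 * H * e γ := by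
  have hH : 0 ≤ H := (ha0 γ).trans (haH γ)
  rcases (he0 γ).eq_or_lt with h0 | h0
  · have := ha γ (by rw [← h0]; exact zero_le_one)
    rw [← h0] at this ⊢
    simpa using this
  set c := S5a_beta K (e γ) - S5a_beta K (1 / (4 * (K + 1))) with hc
  have hθ : ∀ θ : ℝ, 1 / 2 ≤ θ → θ < 1 → a γ ≤ H * Real.exp (θ * c) := fun θ h2 h3 => by
    have h4 := S5a_theta hK hC hρ hC1 ha0 haH ha hv h2 h3 γ h0 h1
    have h5 := mul_le_mul_of_nonneg_right h4 (Real.exp_pos (θ * S5a_beta K (e γ))).le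
    rw [mul_assoc, ← Real.exp_add, neg_add_cancel, Real.exp_zero, mul_one, mul_assoc,
      ← Real.exp_add] at h5
    have : θ * c = -(θ * S5a_beta K (1 / (4 * (K + 1)))) + θ * S5a_beta K (e γ) := by
      rw [hc]
      ring
    rwa [this]
  have hlim : Tendsto (fun θ : ℝ => H * Real.exp (θ * c)) (𝓝[<] 1) (𝓝 (H * Real.exp (1 * c))) :=
    (Continuous.tendsto (by fun_prop) 1).mono_left nhdsWithin_le_nhds
  have hev : ∀ᶠ θ : ℝ in 𝓝[<] 1, a γ ≤ H * Real.exp (θ * c) := by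
    filter_upwards [Ico_mem_nhdsLT (by norm_num : (1 / 2 : ℝ) < 1)] with θ h using hθ θ h.1 h.2
  refine (ge_of_tendsto hlim hev).trans ?_
  have h6 : Real.exp (1 * c) ≤ 4 * (K + 1) * Real.exp 1 * e γ := by
    have h7 : 4 * (K + 1) * Real.exp 1 * e γ =
        Real.exp (Real.log (e γ) - Real.log (1 / (4 * (K + 1))) + 1) := by
      rw [Real.exp_add, Real.exp_sub, Real.exp_log h0, Real.exp_log (by positivity)]
      field_simp
    rw [h7]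
    gcongr
    rw [hc]
    unfold S5a_beta
    have h8 : (K + 1) * (1 / (4 * (K + 1))) = 1 / 4 := by field_simp
    have h9 : 0 ≤ (K + 1) * e γ := by positivity
    linarith
  calc H * Real.exp (1 * c) ≤ H * (4 * (K + 1) * Real.exp 1 * e γ) := by gcongr
    _ = _ := by ring

end Pool.Agent.MP_e62289_ag
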