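import Pool.Agent.MP_e62289_ag.S4
import Pool.Agent.MP_e62289_ag.S5aAux

open Set Filter Topology Complex MeasureTheory Metric
open scoped Manifold ContDiff ComplexConjugate NNReal ENNReal

namespace Pool.Agent.MP_e62289_ag

variable {E : Type} [NormedAddCommGroup E] [NormedSpace ℂ E] [FiniteDimensional ℂ E]
  {B : Type} [EMetricSpace B] [ChartedSpace E B] [IsManifold 𝓘(ℂ, E) ω B]

omit [IsManifold 𝓘(ℂ, E) ω B] in
theorem S5a_energy_nonneg (k : KData E B) {n : ℕ} {p : B} (γ : Chain E n p) :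
    0 ≤ γ.energy k :=
  mul_nonneg (Nat.cast_nonneg _)
    (Finset.sum_nonneg fun _ hj => γ.seg_nonneg k (Finset.mem_range.1 hj))

omit [IsManifold 𝓘(ℂ, E) ω B] in
/-- a crude linear bound by the energy -/
theorem S5a_crude (k : KData E B) (p : B) (h : B → ℂ) (H : ℝ) (hH : ∀ q, ‖h q‖ ≤ H)
    (hC : ∃ C : ℝ, ∀ᶠ q in 𝓝 p, ‖h q‖ ≤ C * ‖chartAt E p q - chartAt E p p‖ ^ 2) (n : ℕ) :
    ∃ C1 : ℝ, 0 < C1 ∧ ∀ γ : Chain E n p, ‖h (γ.q n)‖ ≤ C1 * γ.energy k := by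
  obtain ⟨C, hC⟩ := hC
  obtain ⟨C', hC'⟩ := k.lower p
  obtain ⟨ε, hε, hsub⟩ := EMetric.mem_nhds_iff.1 (hC.and hC')
  obtain ⟨δ, hδ0, hδ⟩ := ENNReal.lt_iff_exists_nnreal_btwn.1 hε
  have hδ0' : (0 : ℝ) < δ := by exact_mod_cast hδ0
  have hH0 : 0 ≤ H := (norm_nonneg _).trans (hH p)
  refine ⟨|C| * C' ^ 2 + H / δ ^ 2 + 1, by positivity, fun γ => ?_⟩
  have he := S5a_energy_nonneg k γ
  have hd := γ.edist_le k le_rfl
  by_cases hs : √(γ.energy k) ≤ δ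
  · have hmem : γ.q n ∈ eball p ε := by
      rw [mem_eball']
      refine hd.trans_lt (lt_of_le_of_lt ?_ hδ)
      rw [← ENNReal.ofReal_coe_nnreal]
      exact ENNReal.ofReal_le_ofReal hs
    obtain ⟨h1, h2⟩ := hsub hmem
    have h3 : ‖chartAt E p (γ.q n) - chartAt E p p‖ ≤ C' * √(γ.energy k) := by
      have h4 := h2.trans (mul_le_mul_right hd _)
      rw [← ENNReal.ofReal_coe_nnreal, ← ENNReal.ofReal_mul C'.coe_nonneg, ← ofReal_norm,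
        ENNReal.ofReal_le_ofReal_iff (by positivity)] at h4
      exact h4
    have h5 : ‖chartAt E p (γ.q n) - chartAt E p p‖ ^ 2 ≤ C' ^ 2 * γ.energy k := by
      calc _ ≤ (C' * √(γ.energy k)) ^ 2 := by gcongr
        _ = _ := by rw [mul_pow, Real.sq_sqrt he]
    have h6 : 0 ≤ (H / δ ^ 2 + 1) * γ.energy k := by positivity
    calc ‖h (γ.q n)‖ ≤ |C| * ‖chartAt E p (γ.q n) - chartAt E p p‖ ^ 2 :=
          h1.trans (mul_le_mul_of_nonneg_right (le_abs_self _) (by positivity))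
      _ ≤ |C| * (C' ^ 2 * γ.energy k) := by gcongr
      _ ≤ _ := by nlinarith
  · rw [not_le] at hs
    have h1 : (δ : ℝ) ^ 2 ≤ γ.energy k := (Real.lt_sqrt hδ0'.le).1 hs |>.le
    have h2 : H ≤ H / δ ^ 2 * γ.energy k := by
      rw [div_mul_eq_mul_div, le_div_iff₀ (by positivity)]
      gcongr
    have h3 : 0 ≤ (|C| * C' ^ 2 + 1) * γ.energy k := by positivity
    nlinarith [hH (γ.q n)]

/-- the maximum principle for a fourfold product -/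
theorem S5a_four {f : ℂ → ℂ} {r : ℝ} (hr : 0 < r)
    (hf : ∀ ζ : ℂ, ‖ζ‖ ≤ r → DifferentiableAt ℂ f ζ) :
    ∃ ζ : ℂ, ‖ζ‖ = r ∧ ‖f 0‖ ^ 4 ≤ ‖f ζ‖ * ‖f (I * ζ)‖ * ‖f (-ζ)‖ * ‖f (-(I * ζ))‖ := by
  have hF : DiffContOnCl ℂ (fun ζ => f ζ * f (I * ζ) * f (-ζ) * f (-(I * ζ))) (ball 0 r) := by
    refine DifferentiableOn.diffContOnCl fun ζ hζ => DifferentiableAt.differentiableWithinAt ?_
    rw [closure_ball _ hr.ne', mem_closedBall_zero_iff] at hζ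
    have h1 : DifferentiableAt ℂ (fun ζ => f (I * ζ)) ζ :=
      (hf (I * ζ) (by simpa using hζ)).comp ζ (by fun_prop)
    have h2 : DifferentiableAt ℂ (fun ζ => f (-ζ)) ζ :=
      (hf (-ζ) (by simpa using hζ)).comp ζ (by fun_prop)
    have h3 : DifferentiableAt ℂ (fun ζ => f (-(I * ζ))) ζ :=
      (hf (-(I * ζ)) (by simpa using hζ)).comp ζ (f := fun ζ => -(I * ζ)) (by fun_prop)
    exact (((hf ζ hζ).mul h1).mul h2).mul h3
  obtain ⟨ζ, hζ, hmax⟩ := Complex.exists_mem_frontier_isMaxOn_norm isBounded_ball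
    (nonempty_ball.2 hr) hF
  rw [frontier_ball _ hr.ne', mem_sphere_zero_iff_norm] at hζ
  refine ⟨ζ, hζ, ?_⟩
  have := hmax (subset_closure (mem_ball_self hr))
  simp only [mem_ofPred_eq, Function.comp, norm_mul, mul_zero, neg_zero] at this
  calc ‖f 0‖ ^ 4 = ‖f 0‖ * ‖f 0‖ * ‖f 0‖ * ‖f 0‖ := by ring
    _ ≤ _ := this

/-- the second order Schwarz lemma along chains -/
theorem schwarz_chain (k : KData E B) : ∃ CS E₀ : ℝ, 0 < CS ∧ 0 < E₀ ∧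
    ∀ (p : B) (h : B → ℂ) (H : ℝ), DiscHol E h → (∀ q, ‖h q‖ ≤ H) →
      (∃ C : ℝ, ∀ᶠ q in 𝓝 p, ‖h q‖ ≤ C * ‖chartAt E p q - chartAt E p p‖ ^ 2) →
      ∃ n : ℕ, 0 < n ∧ ∀ γ : Chain E n p, γ.energy k ≤ E₀ →
        ‖h (γ.q n)‖ ≤ CS * H * γ.energy k := by
  have hK := k.K_nonneg
  refine ⟨4 * (k.K + 1) * Real.exp 1, 1 / (2 * (k.K + 1)), by positivity, by positivity,
    fun p h H hh hH hC => ?_⟩
  obtain ⟨n, C, ρ, hn, hC0, hρ, hv⟩ := chain_var k p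
  obtain ⟨C1, hC1, hc⟩ := S5a_crude k p h H hH hC n
  refine ⟨n, hn, fun γ hγ => S5a_abstract (e := fun γ : Chain E n p => γ.energy k)
    (a := fun γ : Chain E n p => ‖h (γ.q n)‖) hK hC0.le hρ hC1 (S5a_energy_nonneg k)
    (fun _ => norm_nonneg _) (fun _ => hH _) (fun γ _ => hc γ) ?_ γ hγ⟩
  intro γ hγ r hr hrρ
  obtain ⟨x, z, V, γ', hq, hγ'⟩ := hv γ hγ
  obtain ⟨ζ, hζ, hmax⟩ := S5a_four (f := fun ζ => h ((chartAt E x).symm (z + ζ • V))) hr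
    fun ζ hζ => hh x (fun ζ => z + ζ • V) ζ (by fun_prop) (hγ' ζ (hζ.trans hrρ)).1
  have n0 : ‖ζ‖ ≤ ρ := hζ ▸ hrρ
  have n1 : ‖I * ζ‖ = r := by simpa using hζ
  have n2 : ‖-ζ‖ = r := by simpa using hζ
  have n3 : ‖-(I * ζ)‖ = r := by simpa using hζ
  obtain ⟨-, q0, e0, es⟩ := hγ' ζ n0
  obtain ⟨-, q1, e1, -⟩ := hγ' (I * ζ) (n1 ▸ hrρ)
  obtain ⟨-, q2, e2, -⟩ := hγ' (-ζ) (n2 ▸ hrρ)
  obtain ⟨-, q3, e3, -⟩ := hγ' (-(I * ζ)) (n3 ▸ hrρ)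
  rw [hζ] at e0 es
  rw [n1] at e1
  rw [n2] at e2
  rw [n3] at e3
  refine ⟨γ' ζ, γ' (I * ζ), γ' (-ζ), γ' (-(I * ζ)), ζ.re, ζ.im, ?_, ?_, e0, ?_, ?_, ?_, es⟩
  · rw [← hζ, Complex.sq_norm, Complex.normSq_apply]
    ring
  · simp only [q0, q1, q2, q3, hq]
    simpa using hmax
  · simpa using e1
  · simpa using e2
  · simpa using e3

end Pool.Agent.MP_e62289_ag
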