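import Pool.Agent.MP_e62289_ag.S4
import Pool.Agent.MP_e62289_ag.S5a

open Set Filter Topology Complex MeasureTheory Metric
open scoped Manifold ContDiff ComplexConjugate NNReal ENNReal

namespace Pool.Agent.MP_e62289_ag

variable {E : Type} [NormedAddCommGroup E] [NormedSpace ℂ E] [FiniteDimensional ℂ E]
  {B : Type} [EMetricSpace B] [ChartedSpace E B] [IsManifold 𝓘(ℂ, E) ω B]

/-- the second order Schwarz lemma -/
theorem schwarzS (k : KData E B) : ∃ CS : ℝ, 0 < CS ∧
    ∀ (p : B) (h : B → ℂ) (H : ℝ), DiscHol E h → (∀ q, ‖h q‖ ≤ H) →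
      (∃ C : ℝ, ∀ᶠ q in 𝓝 p, ‖h q‖ ≤ C * ‖chartAt E p q - chartAt E p p‖ ^ 2) →
      ∀ c : ℂ → E, AnalyticAt ℂ c 0 → c 0 = chartAt E p p → ∀ η : ℝ, 0 < η →
        ∀ᶠ t : ℝ in 𝓝[>] 0, ‖h ((chartAt E p).symm (c t))‖ ≤
          (CS * H * k.G p (c 0) (deriv c 0) (deriv c 0) + η) * t ^ 2 := by
  obtain ⟨CS, E₀, hCS, hE₀, hmain⟩ := schwarz_chain k
  refine ⟨CS, hCS, ?_⟩
  intro p h H hh hH hC c hc hc0 η hη
  obtain ⟨n, hn, hγ⟩ := hmain p h H hh hH hC
  have hH0 : 0 ≤ H := (norm_nonneg _).trans (hH p)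
  have hnR : (0 : ℝ) < n := by exact_mod_cast hn
  have hT : c 0 ∈ (chartAt E p).target := by
    rw [hc0]; exact mem_chart_target E p
  set G₀ : ℝ := k.G p (c 0) (deriv c 0) (deriv c 0) with hG₀
  have hG0 : 0 ≤ G₀ := by
    by_cases hv : deriv c 0 = 0
    · simp [hG₀, hv]
    · exact (k.pos p _ hT _ hv).le
  set η' : ℝ := η / (CS * H + 1) with hη'
  have hCH : 0 ≤ CS * H := mul_nonneg hCS.le hH0
  have hη'0 : 0 < η' := div_pos hη (by linarith)
  have hη'1 : CS * H * η' ≤ η := by
    rw [hη', ← mul_div_assoc, div_le_iff₀ (by linarith)]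
    nlinarith
  have hGc : ContinuousAt (k.G p) (c 0) :=
    (k.smooth p).continuousOn.continuousAt ((chartAt E p).open_target.mem_nhds hT)
  have hg : ContinuousAt (fun s => k.G p (c s) (deriv c s) (deriv c s)) 0 :=
    ((ContinuousAt.comp hGc hc.continuousAt).clm_apply hc.deriv.continuousAt).clm_apply
      hc.deriv.continuousAt
  have hev : ∀ᶠ s in 𝓝 (0 : ℂ), AnalyticAt ℂ c s ∧ c s ∈ (chartAt E p).target ∧
      |k.G p (c s) (deriv c s) (deriv c s)| ≤ G₀ + η' := by
    refine hc.eventually_analyticAt.and (Filter.Eventually.and ?_ ?_)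
    · exact hc.continuousAt.eventually_mem ((chartAt E p).open_target.mem_nhds hT)
    · have h1 : ContinuousAt (fun s => |k.G p (c s) (deriv c s) (deriv c s)|) 0 := hg.abs
      refine (h1.eventually_lt continuousAt_const ?_).mono fun _ hs => hs.le
      show |G₀| < G₀ + η'
      rw [abs_of_nonneg hG0]; linarith
  obtain ⟨r, hr, hball⟩ := Metric.eventually_nhds_iff.1 hev
  have hsmall : ∀ᶠ t : ℝ in 𝓝 0, t ^ 2 * (G₀ + η') ≤ E₀ := by
    have h1 : ContinuousAt (fun t : ℝ => t ^ 2 * (G₀ + η')) 0 := by fun_prop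
    refine (h1.eventually_lt continuousAt_const ?_).mono fun _ hs => hs.le
    simpa using hE₀
  have hlt : ∀ᶠ t : ℝ in 𝓝 0, t < r := eventually_lt_nhds hr
  filter_upwards [nhdsWithin_le_nhds hsmall, nhdsWithin_le_nhds hlt, self_mem_nhdsWithin]
    with t htE htr ht0
  have ht0 : 0 < t := ht0
  let φ : ℕ → ℝ → ℂ := fun j s => ((t * (j + s) / n : ℝ) : ℂ)
  have hφ : ∀ j < n, ∀ s ∈ Icc (0 : ℝ) 1, AnalyticAt ℂ c (φ j s) ∧
      c (φ j s) ∈ (chartAt E p).target ∧
      |k.G p (c (φ j s)) (deriv c (φ j s)) (deriv c (φ j s))| ≤ G₀ + η' := by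
    intro j hj s hs
    apply hball
    have hj' : (j : ℝ) + 1 ≤ n := by exact_mod_cast hj
    have h0 : 0 ≤ t * (j + s) / n := by have := hs.1; positivity
    have h1 : t * (j + s) / n ≤ t := by
      rw [div_le_iff₀ hnR]
      exact mul_le_mul_of_nonneg_left (by linarith [hs.2]) ht0.le
    simp only [φ, dist_zero_right, Complex.norm_real, Real.norm_eq_abs, abs_of_nonneg h0]
    linarith
  have hφc : ∀ j, Continuous (φ j) := fun j => by
    simp only [φ]; fun_prop
  have hφd : ∀ j s, HasDerivAt (φ j) ((t / n : ℝ) : ℂ) s := by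
    intro j s
    have h1 : HasDerivAt (fun s : ℝ => t * (j + s) / n) (t / n) s := by
      simpa using (((hasDerivAt_id s).const_add (j : ℝ)).const_mul t).div_const (n : ℝ)
    exact h1.ofReal_comp
  let γ : Chain E n p :=
    { x := fun _ => p
      q := fun j => (chartAt E p).symm (c (φ j 0))
      c := fun j s => c (φ j s)
      c' := fun j s => ((t / n : ℝ) : ℂ) • deriv c (φ j s)
      q0 := by
        have : φ 0 0 = 0 := by simp [φ]
        rw [this, hc0]
        exact (chartAt E p).left_inv (mem_chart_source E p)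
      cont := fun j hj s hs =>
        (ContinuousAt.const_smul (ContinuousAt.comp (hφ j hj s hs).1.deriv.continuousAt
          (hφc j).continuousAt) _).continuousWithinAt
      der := fun j hj s hs =>
        (HasDerivAt.scomp s (hφ j hj s hs).1.differentiableAt.hasDerivAt
          (hφd j s)).hasDerivWithinAt
      maps := fun j hj s hs => (hφ j hj s hs).2.1
      left := fun j _ => rfl
      right := fun j _ => by
        have : φ j 1 = φ (j + 1) 0 := by simp [φ]
        rw [this] }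
  have hseg : ∀ j ∈ Finset.range n, γ.seg k j ≤ (t / n) ^ 2 * (G₀ + η') := by
    intro j hj
    have hj := Finset.mem_range.1 hj
    have h1 := intervalIntegral.norm_integral_le_of_norm_le_const (a := 0) (b := 1)
      (C := (t / n) ^ 2 * (G₀ + η'))
      (f := fun s => k.G (γ.x j) (γ.c j s) (γ.c' j s) (γ.c' j s)) (by
        intro s hs
        rw [uIoc_of_le zero_le_one] at hs
        have h2 := (hφ j hj s ⟨hs.1.le, hs.2⟩).2.2
        have h3 : k.G (γ.x j) (γ.c j s) (γ.c' j s) (γ.c' j s) =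
            (t / n) ^ 2 * k.G p (c (φ j s)) (deriv c (φ j s)) (deriv c (φ j s)) := by
          show k.G p (c (φ j s)) (((t / n : ℝ) : ℂ) • deriv c (φ j s))
            (((t / n : ℝ) : ℂ) • deriv c (φ j s)) = _
          rw [Complex.coe_smul]
          simp only [map_smul, smul_apply, smul_eq_mul]
          ring
        rw [h3, Real.norm_eq_abs, abs_mul, abs_of_nonneg (sq_nonneg _)]
        exact mul_le_mul_of_nonneg_left h2 (sq_nonneg _))
    simp only [sub_zero, abs_one, mul_one, Real.norm_eq_abs] at h1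
    exact (le_abs_self _).trans h1
  have hen : γ.energy k ≤ t ^ 2 * (G₀ + η') := by
    have h1 := Finset.sum_le_sum hseg
    rw [Finset.sum_const, Finset.card_range, nsmul_eq_mul] at h1
    calc γ.energy k = n * ∑ j ∈ Finset.range n, γ.seg k j := rfl
      _ ≤ n * (n * ((t / n) ^ 2 * (G₀ + η'))) := mul_le_mul_of_nonneg_left h1 hnR.le
      _ = t ^ 2 * (G₀ + η') := by field_simp
  have h1 := hγ γ (hen.trans htE)
  have hq : γ.q n = (chartAt E p).symm (c t) := by
    have : φ n 0 = t := by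
      simp only [φ, add_zero]
      rw [mul_div_assoc, div_self hnR.ne', mul_one]
    show (chartAt E p).symm (c (φ n 0)) = _
    rw [this]
  rw [hq] at h1
  calc _ ≤ CS * H * γ.energy k := h1
    _ ≤ CS * H * (t ^ 2 * (G₀ + η')) := mul_le_mul_of_nonneg_left hen hCH
    _ = (CS * H * G₀ + CS * H * η') * t ^ 2 := by ring
    _ ≤ (CS * H * G₀ + η) * t ^ 2 :=
      mul_le_mul_of_nonneg_right (by linarith) (sq_nonneg _)

end Pool.Agent.MP_e62289_ag
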