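import Pool.Agent.MP_e62289_ag.XDefs
import Pool.Agent.MP_e62289_ag.L1

open Set Filter Topology Complex MeasureTheory Metric
open scoped Manifold ContDiff ComplexConjugate NNReal ENNReal

namespace Pool.Agent.MP_e62289_ag

namespace Flat

variable {n : ℕ} {S : Flat n} {a : Fin n → ℕ} {D : TopologicalSpace.Opens P2}

theorem Defo.x2d_ne (δ : S.Defo a D) {t : P2} (ht : t ∈ D) (q : S.Y) :
    δ.g₀ q + t 1 * δ.g₁ q + d1 (δ.K t) q ≠ 0 :=
  norm_pos_iff.1 ((norm_nonneg _).trans_lt (δ.pos t ht q))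

theorem Defo.x2d_ck (δ : S.Defo a D) (t : P2) : Ck 1 (δ.K t) :=
  (δ.smooth.comp (f := fun q : S.Y => (t, q)) (contMDiff_const.prodMk contMDiff_id)).of_le
    (by norm_num)

theorem Defo.mu_cont (δ : S.Defo a D) {t : P2} (ht : t ∈ D) : Continuous (δ.mu t) := by
  have h1 : Continuous (d1 (δ.K t)) :=
    continuous_iff_continuousAt.2 fun q => (S.continuousAt_d (δ.x2d_ck t q)).1
  have h2 : Continuous (d2 (δ.K t)) :=
    continuous_iff_continuousAt.2 fun q => (S.continuousAt_d (δ.x2d_ck t q)).2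
  exact h2.div ((δ.hol₀.continuous.add (continuous_const.mul δ.hol₁.continuous)).add h1)
    (δ.x2d_ne ht)

theorem Defo.norm_mu_lt (δ : S.Defo a D) {t : P2} (ht : t ∈ D) (q : S.Y) : ‖δ.mu t q‖ < 1 := by
  rw [Defo.mu, norm_div, div_lt_one (norm_pos_iff.2 (δ.x2d_ne ht q))]
  exact δ.pos t ht q

theorem Defo.mu_hol (δ : S.Defo a D) {φ : ℂ → P2} (hφ : Differentiable ℂ φ) {ζ : ℂ}
    (h : φ ζ ∈ D) (q : S.Y) : DifferentiableAt ℂ (fun ζ => δ.mu (φ ζ) q) ζ := by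
  have h0 : ContDiff ℝ 1 φ := (hφ.contDiff (n := 1)).restrict_scalars ℝ
  have h1 : ContMDiff (𝓘(ℝ, ℂ).prod 𝓘(ℝ, ℂ)) 𝓘(ℝ, ℂ) 1
      fun p : ℂ × S.Y => δ.K (φ p.1) p.2 :=
    (δ.smooth.of_le (by norm_num)).comp (f := fun p : ℂ × S.Y => (φ p.1, p.2))
      ((h0.contMDiff.comp contMDiff_fst).prodMk contMDiff_snd)
  have h2 := S.d_par_hol (g := fun p : ℂ × S.Y => δ.K (φ p.1) p.2) isOpen_univ h1.contMDiffOn
    (fun p _ => ((δ.holK p.2).comp hφ).differentiableAt) (p := (ζ, q)) (mem_univ _)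
  have h3 : DifferentiableAt ℂ (fun ζ => φ ζ 1) ζ := differentiableAt_pi.1 (hφ ζ) 1
  exact h2.2.div (((differentiableAt_const _).add (h3.mul_const _)).add h2.1) (δ.x2d_ne h q)

end Flat

end Pool.Agent.MP_e62289_ag
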