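import Pool.Agent.MP_e62289_ag.X2Aux
import Pool.Agent.MP_e62289_ag.X2a

open Set Filter Topology Complex MeasureTheory Metric
open scoped Manifold ContDiff ComplexConjugate NNReal ENNReal

namespace Pool.Agent.MP_e62289_ag

namespace Flat

variable {n : ℕ} {S : Flat n} {a : Fin n → ℕ} {D : TopologicalSpace.Opens P2}

/-- charts in which the deformed form is `f dz` at the regular points -/
def Defo.X2Reg (δ : S.Defo a D) (c : S.Cpt) (ch : OpenPartialHomeomorph (c.M × D) (ℂ × D))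
    (f : ℂ × D → ℂ) : Prop :=
  (∀ p ∈ ch.source, (ch p).2 = p.2) ∧
  ∀ (q : S.Y) (t : D), (c.j q, t) ∈ ch.source → ∃ Z : P2 × S.Y → ℂ,
    ContMDiffAt (𝓘(ℝ, P2).prod 𝓘(ℝ, ℂ)) 𝓘(ℝ, ℂ) 2 Z (t.1, q) ∧
    DifferentiableAt ℂ (fun s => Z (s, q)) t.1 ∧
    (∀ᶠ p : D × S.Y in 𝓝 (t, q), (ch (c.j p.2, p.1)).1 = Z (p.1.1, p.2)) ∧
    f (ch (c.j q, t)) * d1 (fun y => Z (t.1, y)) q =
      δ.g₀ q + t.1 1 * δ.g₁ q + d1 (δ.K t.1) q ∧
    f (ch (c.j q, t)) * d2 (fun y => Z (t.1, y)) q = d2 (δ.K t.1) q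

/-- transitions at regular points -/
theorem Defo.X2_trans (δ : S.Defo a D) (c : S.Cpt)
    {ch ch' : OpenPartialHomeomorph (c.M × D) (ℂ × D)} {f f' : ℂ × D → ℂ}
    (h : δ.X2Reg c ch f) (h' : δ.X2Reg c ch' f') {q : S.Y} {t : D} (hq : (c.j q, t) ∈ ch.source)
    (hq' : (c.j q, t) ∈ ch'.source) :
    MDifferentiableAt (𝓘(ℂ, ℂ).prod 𝓘(ℂ, P2)) 𝓘(ℂ, ℂ) (fun w => (ch' (ch.symm w)).1)
      (ch (c.j q, t)) ∧
    f (ch (c.j q, t)) = f' (ch' (c.j q, t)) *
      deriv (fun z => (ch' (ch.symm (z, t))).1) (ch (c.j q, t)).1 := by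
  obtain ⟨Z, z1, z2, z3, z4, z5⟩ := h.2 q t hq
  obtain ⟨Z', y1, y2, y3, y4, y5⟩ := h'.2 q t hq'
  have hpos := δ.pos t.1 t.2 q
  have hA : δ.g₀ q + t.1 1 * δ.g₁ q + d1 (δ.K t.1) q ≠ 0 :=
    norm_pos_iff.1 ((norm_nonneg _).trans_lt hpos)
  have hf' : f' (ch' (c.j q, t)) ≠ 0 := fun e => hA (by rw [← y4, e, zero_mul])
  rw [← z4, ← z5, norm_mul, norm_mul] at hpos
  have hpos' := lt_of_mul_lt_mul_left hpos (norm_nonneg _)
  have e1 : d1 (fun y => Z' (t.1, y)) q =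
      f (ch (c.j q, t)) / f' (ch' (c.j q, t)) * d1 (fun y => Z (t.1, y)) q := by
    field_simp
    linear_combination y4 - z4
  have e2 : d2 (fun y => Z' (t.1, y)) q =
      f (ch (c.j q, t)) / f' (ch' (c.j q, t)) * d2 (fun y => Z (t.1, y)) q := by
    field_simp
    linear_combination y5 - z5
  obtain ⟨r1, r2, r3⟩ := X2_read z1
  obtain ⟨s1, s2, s3⟩ := X2_read y1
  rw [r2, r3] at hpos'
  rw [r2, s2] at e1
  rw [r3, s3] at e2
  have : Nonempty D := ⟨t⟩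
  obtain ⟨ρ, ρ1, ρ2⟩ := X2_inv (j := (Subtype.val : D → P2)) D.isOpen.isOpenEmbedding_subtypeVal
  obtain ⟨k, k1, k2⟩ := X2_inv c.j_emb
  have hφ : (chartAt ℂ q).symm (chartAt ℂ q q) = q := (chartAt ℂ q).left_inv (mem_chart_source ℂ q)
  have hw : ((ch (c.j q, t)).1, t) = ch (c.j q, t) := Prod.ext rfl (h.1 _ hq).symm
  let w : ℂ × P2 := ((ch (c.j q, t)).1, t.1)
  let m : ℂ × P2 → ℂ × D := fun y => (y.1, ρ y.2)
  have hm : m w = ch (c.j q, t) := by
    change ((ch (c.j q, t)).1, ρ t.1) = _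
    rw [ρ1, hw]
  have cm : ContinuousAt m w :=
    continuousAt_fst.prodMk (ContinuousAt.comp (g := ρ) (f := Prod.snd) (ρ2 t) continuousAt_snd)
  have hn : ch.symm (m w) = (c.j q, t) := by rw [hm, ch.left_inv hq]
  have cn : ContinuousAt (fun y => ch.symm (m y)) w :=
    ContinuousAt.comp (g := ch.symm) (by rw [hm]; exact ch.continuousAt_symm (ch.map_source hq)) cm
  let g : ℂ × P2 → S.Y := fun y => k (ch.symm (m y)).1
  have hg : g w = q := by
    change k (ch.symm (m w)).1 = q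
    rw [hn, k1]
  have cg : ContinuousAt g w :=
    ContinuousAt.comp (g := k) (f := fun y => (ch.symm (m y)).1) (by rw [hn]; exact k2 q) cn.fst
  have tt : Tendsto (fun y => ((m y).2, g y)) (𝓝 w) (𝓝 (t, q)) := by
    have := cm.snd.prodMk cg
    rw [ContinuousAt, hg, hm, h.1 _ hq] at this
    exact this
  have ev : ∀ᶠ y in 𝓝 w, m y ∈ ch.target ∧ (c.j (g y), (m y).2) = ch.symm (m y) ∧
      (m y).2.1 = y.2 ∧ (chartAt ℂ q).symm (chartAt ℂ q (g y)) = g y := by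
    have a1 : ∀ᶠ y in 𝓝 w, m y ∈ ch.target :=
      cm.preimage_mem_nhds (by rw [hm]; exact ch.open_target.mem_nhds (ch.map_source hq))
    have a2 : ∀ᶠ y in 𝓝 w, (ch.symm (m y)).1 ∈ range c.j :=
      cn.fst.preimage_mem_nhds (by
        rw [hn]; exact c.j_emb.isOpen_range.mem_nhds (mem_range_self q))
    have a3 : ∀ᶠ y in 𝓝 w, y.2 ∈ (D : Set P2) :=
      continuousAt_snd.preimage_mem_nhds (D.isOpen.mem_nhds t.2)
    have a4 : ∀ᶠ y in 𝓝 w, g y ∈ (chartAt ℂ q).source :=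
      cg.preimage_mem_nhds (by rw [hg]; exact chart_source_mem_nhds ℂ q)
    filter_upwards [a1, a2, a3, a4] with y b1 b2 b3 b4
    refine ⟨b1, Prod.ext ?_ ?_, congrArg Subtype.val (ρ1 ⟨y.2, b3⟩), (chartAt ℂ q).left_inv b4⟩
    · obtain ⟨x, hx⟩ := b2
      change c.j (k (ch.symm (m y)).1) = (ch.symm (m y)).1
      rw [← hx, k1]
    · have := h.1 _ (ch.map_target b1)
      rw [ch.right_inv b1] at this
      exact this
  obtain ⟨L, hL, hL2⟩ := X2_calc (F := fun y : ℂ × P2 => Z (y.2, (chartAt ℂ q).symm y.1))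
    (H := fun y : ℂ × P2 => Z' (y.2, (chartAt ℂ q).symm y.1))
    (G := fun y => (chartAt ℂ q (g y), y.2)) (w := w) (p := (chartAt ℂ q q, t.1))
    (by rw [hg]) r1 s1 (by simpa only [hφ] using z2) (by simpa only [hφ] using y2) hpos' e1 e2
    ((ContinuousAt.comp (g := chartAt ℂ q) (by
      rw [hg]; exact (chartAt ℂ q).continuousAt (mem_chart_source ℂ q)) cg).prodMk
      continuousAt_snd) (by
      filter_upwards [ev, tt.eventually z3] with y b1 b2
      refine Prod.ext ?_ rfl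
      change Z (y.2, (chartAt ℂ q).symm (chartAt ℂ q (g y))) = y.1
      rw [b1.2.2.2, ← b1.2.2.1, ← b2, b1.2.1, ch.right_inv b1.1])
  have hT : HasFDerivAt (fun y => (ch' (ch.symm (m y))).1) L w := by
    refine hL.congr_of_eventuallyEq ?_
    filter_upwards [ev, tt.eventually y3] with y b1 b2
    rw [b1.2.2.2, ← b1.2.2.1, ← b2, b1.2.1]
  constructor
  · have := X2_mdiff (w := ((ch (c.j q, t)).1, t)) hT.differentiableAt
    rw [hw] at this
    simpa only [m, ρ1] using this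
  · have h1 : HasFDerivAt (fun z : ℂ => (ch' (ch.symm (m (z, t.1)))).1)
        (L.comp (ContinuousLinearMap.inl ℂ ℂ P2)) (ch (c.j q, t)).1 :=
      HasFDerivAt.comp (g := fun y => (ch' (ch.symm (m y))).1) (f := fun z : ℂ => (z, t.1)) _ hT
        (hasFDerivAt_prodMk_left _ _)
    have h2 := h1.hasDerivAt.deriv
    simp only [m, ρ1] at h2
    rw [h2, ContinuousLinearMap.comp_apply, ContinuousLinearMap.inl_apply, hL2]
    field_simp

/-- the charts at regular points -/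
theorem Defo.X2_reg (δ : S.Defo a D) (c : S.Cpt) (q₀ : S.Y) (t₀ : D) :
    ∃ ch : OpenPartialHomeomorph (c.M × D) (ℂ × D), (c.j q₀, t₀) ∈ ch.source ∧
      δ.X2Reg c ch (fun _ => 1) ∧ ∀ i t, (c.pt i, t) ∉ ch.source := by
  obtain ⟨N, P₀, P₁, ch, hN, hP, h0, hch⟩ := δ.reg_chart c q₀ t₀
  refine ⟨ch, h0, ⟨fun p hp => ?_, fun q t hq => ?_⟩, fun i t hp => ?_⟩
  · obtain ⟨q, -, -, e⟩ := hch p hp
    rw [e]
  · obtain ⟨q', hq', e, -⟩ := hch _ hq
    obtain rfl : q' = q := c.j_emb.injective e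
    have c0 : CkAt 2 P₀ q' :=
      ckAt_of_hol (Filter.eventually_of_mem (hN.mem_nhds hq') fun x hx => (hP x hx).1) 2
    have c1 : CkAt 2 P₁ q' :=
      ckAt_of_hol (Filter.eventually_of_mem (hN.mem_nhds hq') fun x hx => (hP x hx).2.2.1) 2
    have d0 := d2_of_hol (hP q' hq').1
    have d1' := d2_of_hol (hP q' hq').2.2.1
    have dK : RDiffAt (δ.K t.1) q' :=
      MDifferentiableAt.comp (g := fun p : P2 × S.Y => δ.K p.1 p.2) (f := fun y => (t.1, y)) q'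
        ((δ.smooth _).mdifferentiableAt (by simp))
        (mdifferentiableAt_const.prodMk mdifferentiableAt_id)
    have dc : RDiffAt (fun _ : S.Y => t.1 1) q' := mdifferentiableAt_const
    have dm := RDiffAt.mul dc d1'.1
    have e1 := d_mul dc d1'.1
    have e2 := d_add d0.1 dm
    have e3 := d_add (RDiffAt.add d0.1 dm) dK
    have e4 := d_const (t.1 1) q'
    refine ⟨fun p => P₀ p.2 + p.1 1 * P₁ p.2 + δ.K p.1 p.2, ?_, ?_, ?_, ?_, ?_⟩
    · have a0 : ContMDiffAt (𝓘(ℝ, P2).prod 𝓘(ℝ, ℂ)) 𝓘(ℝ, ℂ) 2 (fun p : P2 × S.Y => P₀ p.2)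
          (t.1, q') := ContMDiffAt.comp (g := P₀) (f := Prod.snd) _ c0 contMDiffAt_snd
      have a1 : ContMDiffAt (𝓘(ℝ, P2).prod 𝓘(ℝ, ℂ)) 𝓘(ℝ, ℂ) 2 (fun p : P2 × S.Y => P₁ p.2)
          (t.1, q') := ContMDiffAt.comp (g := P₁) (f := Prod.snd) _ c1 contMDiffAt_snd
      have a2 : ContMDiffAt (𝓘(ℝ, P2).prod 𝓘(ℝ, ℂ)) 𝓘(ℝ, ℂ) 2 (fun p : P2 × S.Y => p.1 1)
          (t.1, q') :=
        ContDiffAt.comp_contMDiffAt (g := fun s : P2 => s 1) (f := Prod.fst) (by fun_prop)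
          contMDiffAt_fst
      have a3 : ContMDiffAt (𝓘(ℝ, P2).prod 𝓘(ℝ, ℂ)) 𝓘(ℝ, ℂ) 2
          (fun p : P2 × S.Y => p.1 1 * P₁ p.2) (t.1, q') :=
        ContDiffAt.comp_contMDiffAt (g := fun s : ℂ × ℂ => s.1 * s.2)
          (f := fun p : P2 × S.Y => (p.1 1, P₁ p.2)) (by fun_prop) (a2.prodMk_space a1)
      exact (a0.add a3).add (δ.smooth _)
    · have := δ.holK q' t.1
      change DifferentiableAt ℂ (fun s : P2 => P₀ q' + s 1 * P₁ q' + δ.K s q') t.1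
      exact DifferentiableAt.add (by fun_prop) this
    · have cc : Continuous fun p : D × S.Y => (c.j p.2, p.1) :=
        (c.j_emb.continuous.comp continuous_snd).prodMk continuous_fst
      filter_upwards [cc.continuousAt.preimage_mem_nhds (ch.open_source.mem_nhds hq)] with p hp
      obtain ⟨y, -, e, e'⟩ := hch _ hp
      obtain rfl : y = p.2 := c.j_emb.injective e
      rw [e']
    · rw [one_mul]
      change d1 (fun y => P₀ y + t.1 1 * P₁ y + δ.K t.1 y) q' = _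
      rw [e3.1, e2.1, e1.1, e4.1, (hP q' hq').2.1, (hP q' hq').2.2.2]
      ring
    · rw [one_mul]
      change d2 (fun y => P₀ y + t.1 1 * P₁ y + δ.K t.1 y) q' = _
      rw [e3.2, e2.2, e1.2, e4.2, d0.2, d1'.2]
      ring
  · obtain ⟨q, -, e, -⟩ := hch _ hp
    exact c.ne q i e

/-- the charts at the ends -/
theorem Defo.X2_end (δ : S.Defo a D) (c : S.Cpt) (i : Fin n) :
    ∃ ch : OpenPartialHomeomorph (c.M × D) (ℂ × D), (∀ t, (c.pt i, t) ∈ ch.source) ∧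
      δ.X2Reg c ch (fun w => δ.Φ i (w.1, w.2.1)) ∧ (∀ i' t, (c.pt i', t) ∈ ch.source → i' = i) ∧
      (∀ t, (ch (c.pt i, t)).1 = 0) ∧ ∀ w ∈ ch.target, w.1 ∈ ball (0 : ℂ) δ.r := by
  have hpt : c.pt i ∈ (c.e i).source := by
    rw [c.e_source]
    exact Or.inr rfl
  let e := (c.e i).restrOpen _ ((c.e i).isOpen_inter_preimage (isOpen_ball (x := 0) (ε := δ.r)))
  have es : ∀ m, m ∈ e.source ↔ m ∈ (c.e i).source ∧ c.e i m ∈ ball 0 δ.r := fun m => by
    simp [e]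
  have key : ∀ q, c.j q ∈ e.source → q ∈ S.End i δ.r ∧ c.e i (c.j q) = S.e i q := fun q hq => by
    obtain ⟨h1, h2⟩ := (es _).1 hq
    rw [c.e_source] at h1
    obtain ⟨y, hy, e'⟩ | h1 := h1
    · obtain rfl : y = q := c.j_emb.injective e'
      rw [c.e_j i y hy, mem_ball_zero_iff] at h2
      exact ⟨⟨hy, h2⟩, c.e_j i y hy⟩
    · exact (c.ne q i h1).elim
  refine ⟨e.prod (OpenPartialHomeomorph.refl D), fun t => ⟨(es _).2 ⟨hpt, ?_⟩, trivial⟩,
    ⟨fun p _ => rfl, fun q t hq => ?_⟩, fun i' t h => ?_, fun t => c.e_pt i, fun w hw => ?_⟩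
  · rw [c.e_pt]
    exact mem_ball_self δ.r_pos
  · obtain ⟨k1, k2⟩ := key q hq.1
    have hh := (coord_hol (S.e_hol i)).1
    have c0 : CkAt 2 (S.e i) q :=
      ckAt_of_hol (Filter.eventually_of_mem ((S.e i).open_source.mem_nhds k1.1)
        fun x hx => (hh x hx).1) 2
    obtain ⟨b1, b2⟩ := δ.endK i t.1 t.2 q k1
    refine ⟨fun p => S.e i p.2, ContMDiffAt.comp (g := S.e i) (f := Prod.snd) _ c0 contMDiffAt_snd,
      differentiableAt_const (S.e i q), ?_, ?_, ?_⟩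
    · filter_upwards [(c.j_emb.continuous.comp continuous_snd).continuousAt.preimage_mem_nhds
        (e.open_source.mem_nhds hq.1)] with p hp
      exact (key p.2 hp).2
    · change δ.Φ i (c.e i (c.j q), t.1) * d1 (S.e i) q = _
      rw [k2, b2]
    · change δ.Φ i (c.e i (c.j q), t.1) * d2 (S.e i) q = _
      rw [b1, (d2_of_hol (hh q k1.1).1).2, mul_zero]
  · have h1 := ((es _).1 h.1).1
    rw [c.e_source] at h1
    obtain ⟨y, -, e'⟩ | h1 := h1
    · exact (c.ne y i' e').elim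
    · exact c.pt_inj h1
  · have h1 := ((es _).1 (e.map_target hw.1)).2
    have h2 : c.e i (e.symm w.1) = w.1 := e.right_inv hw.1
    rwa [h2] at h1

end Flat

end Pool.Agent.MP_e62289_ag
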