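import Pool.Agent.MP_e62289_ag.X1
import Pool.Agent.MP_e62289_ag.X2a
import Pool.Agent.MP_e62289_ag.F1
import Pool.Agent.MP_e62289_ag.X2Aux2

open Set Filter Topology Complex MeasureTheory Metric
open scoped Manifold ContDiff ComplexConjugate NNReal ENNReal

namespace Pool.Agent.MP_e62289_ag

namespace Flat

variable {n : ℕ} {S : Flat n} {a : Fin n → ℕ} {D : TopologicalSpace.Opens P2}

/-- the atlas of the total space -/
theorem Defo.X2_atlas (δ : S.Defo a D) (c : S.Cpt) :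
    ∃ (ch : c.M × D → OpenPartialHomeomorph (c.M × D) (ℂ × D)) (f : c.M × D → ℂ × D → ℂ),
      (∀ x, x ∈ (ch x).source) ∧ (∀ x, δ.X2Reg c (ch x) (f x)) ∧
      (∀ x, MDifferentiableOn (𝓘(ℂ, ℂ).prod 𝓘(ℂ, P2)) 𝓘(ℂ, ℂ) (f x) (ch x).target) ∧
      (∀ x y i t, (c.pt i, t) ∈ (ch x).source → (c.pt i, t) ∈ (ch y).source →
        ch x = ch y ∧ f x = f y) ∧
      (∀ x i t, (c.pt i, t) ∈ (ch x).source → (ch x (c.pt i, t)).1 = 0) ∧
      ∀ x, analyticOrderAt (fun z => f x (z, x.2)) (ch x x).1 =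
        ((∑ᶠ (i) (_ : (c.pt i, x.2) = x), (a i - 1) : ℕ) : ℕ∞) := by
  classical
  choose E e1 e2 e3 e4 e5 using δ.X2_end c
  have key : ∀ x : c.M × D, ∃ (ch : OpenPartialHomeomorph (c.M × D) (ℂ × D)) (f : ℂ × D → ℂ),
      x ∈ ch.source ∧ δ.X2Reg c ch f ∧
      ((∃ i, x.1 = c.pt i ∧ ch = E i ∧ f = fun w => δ.Φ i (w.1, w.2.1)) ∨
        ((∀ i t, (c.pt i, t) ∉ ch.source) ∧ f = fun _ => 1)) := by
    rintro ⟨m, t⟩
    obtain ⟨q, rfl⟩ | ⟨i, rfl⟩ := c.cover m
    · obtain ⟨ch, h1, h2, h3⟩ := δ.X2_reg c q t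
      exact ⟨ch, _, h1, h2, Or.inr ⟨h3, rfl⟩⟩
    · exact ⟨E i, _, e1 i t, e2 i, Or.inl ⟨i, rfl, rfl, rfl⟩⟩
  choose ch f h1 h2 h3 using key
  have h4 : ∀ x i t, (c.pt i, t) ∈ (ch x).source →
      ch x = E i ∧ f x = fun w => δ.Φ i (w.1, w.2.1) := fun x i t h => by
    obtain ⟨i', -, b1, b2⟩ | ⟨b1, -⟩ := h3 x
    · obtain rfl : i = i' := e3 i' i t (b1 ▸ h)
      exact ⟨b1, b2⟩
    · exact (b1 i t h).elim
  refine ⟨ch, f, h1, h2, fun x => ?_, fun x y i t hx hy => ?_, fun x i t hx => ?_, fun x => ?_⟩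
  · obtain ⟨i, -, b1, b2⟩ | ⟨-, b2⟩ := h3 x
    · rw [b1, b2]
      intro w hw
      exact (X2_mdiff ((δ.holΦ i).differentiableAt ((isOpen_ball.prod D.isOpen).mem_nhds
        ⟨e5 i w hw, w.2.2⟩))).mdifferentiableWithinAt
    · rw [b2]
      exact mdifferentiableOn_const
  · exact ⟨(h4 x i t hx).1.trans (h4 y i t hy).1.symm, (h4 x i t hx).2.trans (h4 y i t hy).2.symm⟩
  · rw [(h4 x i t hx).1, e4]
  · obtain ⟨i, b0, b1, b2⟩ | ⟨b1, b2⟩ := h3 x
    · obtain ⟨m, t⟩ := x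
      obtain rfl : m = c.pt i := b0
      rw [b1, b2, e4, finsum_eq_single _ i, finsum_eq_if, if_pos rfl]
      · exact δ.ord i t.1 t.2
      · intro i' hi'
        rw [finsum_eq_if, if_neg]
        exact fun h => hi' (c.pt_inj (congrArg Prod.fst h))
    · rw [b2, finsum_eq_zero_of_forall_eq_zero]
      · exact analyticOrderAt_eq_zero.2 (Or.inr one_ne_zero)
      · intro i
        rw [finsum_eq_if, if_neg]
        exact fun h => b1 i x.2 (h ▸ h1 x)

/-- the tautological marking -/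
theorem Defo.X2_mark (δ : S.Defo a D) (C : Family P2 D a) (J : D × S.Y → C.X) (hJ : IsEmbedding J)
    (j1 : ∀ t q, C.proj (J (t, q)) = t) (j2 : ∀ t q i, J (t, q) ≠ C.sec i t)
    (j3 : ∀ x, (∀ i, x ≠ C.sec i (C.proj x)) → ∃ q, J (C.proj x, q) = x)
    (j4 : ∀ t q, ∃ (Z : S.Y → ℂ) (l : ℂ), CkAt 2 Z q ∧
      (fun y => (C.chart (J (t, q)) (J (t, y))).1) =ᶠ[𝓝 q] Z ∧
      l * d1 Z q = δ.g₀ q + t.1 1 * δ.g₁ q + d1 (δ.K t.1) q ∧ l * d2 Z q = d2 (δ.K t.1) q) :
    ∃ M : C.MFam S.Y fun t => t, (∀ t : D, bel (M.G t).φ = δ.mu t) ∧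
      ∀ t q, ((M.G t).φ q).1 = J (t, q) := by
  let G : ∀ t : D, S.Y → C.Fib t := fun t q => ⟨J (t, q), j1 t q, j2 t q⟩
  have hG : ∀ t q, ContMDiffAt 𝓘(ℝ, ℂ) 𝓘(ℝ, ℂ) 2 (G t) q ∧ ∃ l : ℂ,
      l * d1 (G t) q = δ.g₀ q + t.1 1 * δ.g₁ q + d1 (δ.K t.1) q ∧
      l * d2 (G t) q = d2 (δ.K t.1) q := fun t q => by
    obtain ⟨Z, l', ck, ev, z4, z5⟩ := j4 t q
    have cG : Continuous (G t) := (hJ.continuous.comp (Continuous.prodMk_right t)).subtype_mk _
    obtain ⟨b1, l, -, b2, b3⟩ := C.contMDiffAt_fib (G := G t) (q := q) (x := J (t, q))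
      cG.continuousAt (C.mem_source _) (ck.congr_of_eventuallyEq ev)
    rw [(d_congr ev).1] at b2
    rw [(d_congr ev).2] at b3
    refine ⟨b1, l' * l, ?_, ?_⟩
    · rw [mul_assoc, ← b2, z4]
    · rw [mul_assoc, ← b3, z5]
  have hA : ∀ (t : D) q, δ.g₀ q + t.1 1 * δ.g₁ q + d1 (δ.K t.1) q ≠ 0 := fun t q =>
    norm_pos_iff.1 ((norm_nonneg _).trans_lt (δ.pos t.1 t.2 q))
  have hconf : ∀ t q, q ∉ S.core δ.r → d2 (G t) q = 0 := fun t q hq => by
    obtain ⟨-, l, b1, b2⟩ := hG t q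
    obtain ⟨i, hi⟩ := not_forall.1 hq
    obtain ⟨hi, hi'⟩ := Classical.not_imp.1 hi
    rw [(δ.endK i t.1 t.2 q ⟨hi, not_le.1 hi'⟩).1] at b2
    exact (mul_eq_zero.1 b2).resolve_left fun e => hA t q (by rw [← b1, e, zero_mul])
  have hK : IsCompact (S.core δ.r) := S.e_compact δ.r δ.r_pos
  have hAdm : ∀ t, ∃ A : Adm S.Y (C.Fib t), ⇑A.φ = G t := fun t => by
    refine Adm.exists_of_bij ⟨fun q q' h => ?_, ?_⟩ (fun q => (hG t q).1) (fun q => ?_)
      ⟨_, hK, hconf t⟩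
    · exact congrArg Prod.snd (hJ.injective (congrArg Subtype.val h))
    · rintro ⟨x, rfl, hm⟩
      obtain ⟨q, hq⟩ := j3 x hm
      exact ⟨q, Subtype.ext hq⟩
    · obtain ⟨-, l, b1, b2⟩ := hG t q
      have hpos := δ.pos t.1 t.2 q
      rw [← b1, ← b2, norm_mul, norm_mul] at hpos
      exact lt_of_mul_lt_mul_left hpos (norm_nonneg _)
  choose A hAG using hAdm
  refine ⟨⟨A, ?_, ?_, _, hK, fun t q hq => ?_⟩, fun t => ?_, fun t q => ?_⟩
  · simp only [hAG]
    exact hJ.continuous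
  · have h1 : Continuous fun p : C.Tot fun t => t => (p.1.1, (A p.1.1).φ.symm ⟨p.1.2, p.2⟩) := by
      refine hJ.isInducing.continuous_iff.2 ?_
      have : (J ∘ fun p : C.Tot fun t => t => (p.1.1, (A p.1.1).φ.symm ⟨p.1.2, p.2⟩)) =
          fun p => p.1.2 := by
        funext p
        have := (A p.1.1).φ.apply_symm_apply ⟨p.1.2, p.2⟩
        rw [hAG] at this
        exact congrArg Subtype.val this
      rw [this]
      exact continuous_snd.comp continuous_subtype_val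
    exact h1.snd
  · rw [hAG]
    exact hconf t q hq
  · funext q
    change bel (A t).φ q = _
    obtain ⟨-, l, b1, b2⟩ := hG t q
    have hl : l ≠ 0 := fun e => hA t q (by rw [← b1, e, zero_mul])
    rw [hAG, bel, Defo.mu, ← b1, ← b2, mul_div_mul_left _ _ hl]
  · change ((A t).φ q).1 = _
    rw [hAG]

/-- the family defined by a deformation, with its tautological marking -/
theorem Defo.build (δ : S.Defo a D) : ∃ (C : Family P2 D a) (M : C.MFam S.Y fun t => t),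
    (∀ t : D, bel (M.G t).φ = δ.mu t) ∧
    ∀ i t, Tendsto (fun q => ((M.G t).φ q).1) (S.endF i) (𝓝 (C.sec i t)) := by
  obtain ⟨c⟩ := S.exists_cpt
  obtain ⟨ch, f, h1, h2, h3, h4, h5, h6⟩ := δ.X2_atlas c
  have tr : ∀ x y, ∀ p ∈ (ch x).source, p ∈ (ch y).source →
      MDifferentiableAt (𝓘(ℂ, ℂ).prod 𝓘(ℂ, P2)) 𝓘(ℂ, ℂ) (fun w => (ch y ((ch x).symm w)).1)
        (ch x p) ∧
      f x (ch x p) = f y (ch y p) * deriv (fun z => (ch y ((ch x).symm (z, p.2))).1) (ch x p).1 := by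
    rintro x y ⟨m, t⟩ hx hy
    obtain ⟨q, rfl⟩ | ⟨i, rfl⟩ := c.cover m
    · exact δ.X2_trans c (h2 x) (h2 y) hx hy
    · obtain ⟨b1, b2⟩ := h4 x y i t hx hy
      rw [← b1, ← b2]
      have ev : (fun w => (ch x ((ch x).symm w)).1) =ᶠ[𝓝 (ch x (c.pt i, t))] Prod.fst := by
        filter_upwards [(ch x).open_target.mem_nhds ((ch x).map_source hx)] with w hw
        rw [(ch x).right_inv hw]
      refine ⟨mdifferentiableAt_fst.congr_of_eventuallyEq ev, ?_⟩
      have hw : ((ch x (c.pt i, t)).1, t) = ch x (c.pt i, t) :=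
        Prod.ext rfl ((h2 x).1 _ hx).symm
      rw [← hw] at ev
      have ev2 : (fun z => (ch x ((ch x).symm (z, t))).1) =ᶠ[𝓝 (ch x (c.pt i, t)).1] id :=
        (Continuous.prodMk_left t).continuousAt.eventually ev
      rw [ev2.deriv_eq, deriv_id, mul_one]
  let C : Family P2 D a :=
    { X := c.M × D
      proj := Prod.snd
      proper := isProperMap_snd_of_compactSpace
      conn := fun t => by
        have : (Prod.snd ⁻¹' {t} : Set (c.M × D)) = range fun m => (m, t) := by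
          ext ⟨m, s⟩
          simp [eq_comm]
        rw [this]
        exact isConnected_range (Continuous.prodMk_left t)
      chart := ch
      mem_source := h1
      snd_chart := fun x => (h2 x).1
      hol_chart := fun x y w hw => by
        have := (tr x y _ ((ch x).map_target hw.1) hw.2).1
        rw [(ch x).right_inv hw.1] at this
        exact this.mdifferentiableWithinAt
      sec := fun i t => (c.pt i, t)
      cont_sec := fun i => Continuous.prodMk_right _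
      proj_sec := fun _ _ => rfl
      inj_sec := fun t i i' h => c.pt_inj (congrArg Prod.fst h)
      hol_sec := fun i x => (mdifferentiableOn_const (c := (0 : ℂ))).congr fun t ht => h5 x i t ht
      form := fun t => ⟨univ, isOpen_univ, trivial, f, fun x => (h3 x).mono inter_subset_left,
        fun x y p hp _ => (tr x y p hp.1 hp.2).2, fun x _ => h6 x⟩ }
  have hJ : IsEmbedding fun p : D × S.Y => (c.j p.2, p.1) :=
    (Homeomorph.prodComm D c.M).isEmbedding.comp (IsEmbedding.id.prodMap c.j_emb.isEmbedding)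
  obtain ⟨M, m1, m2⟩ := δ.X2_mark C (fun p => (c.j p.2, p.1)) hJ (fun _ _ => rfl)
    (fun t q i h => c.ne q i (congrArg Prod.fst h)) (by
      rintro ⟨m, s⟩ hm
      obtain ⟨q, rfl⟩ | ⟨i, rfl⟩ := c.cover m
      · exact ⟨q, rfl⟩
      · exact (hm i rfl).elim) (fun t q => by
      obtain ⟨Z, z1, -, z3, z4, z5⟩ := (h2 (c.j q, t)).2 q t (h1 _)
      exact ⟨fun y => Z (t.1, y), _, ContMDiffAt.comp (g := Z) (f := fun y => (t.1, y)) q z1
        (contMDiffAt_const.prodMk contMDiffAt_id),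
        (Continuous.prodMk_right t).continuousAt.eventually z3, z4, z5⟩)
  refine ⟨C, M, m1, fun i t => ?_⟩
  simp only [m2]
  refine Tendsto.prodMk_nhds ?_ tendsto_const_nhds
  have hpt : c.pt i ∈ (c.e i).source := by
    rw [c.e_source]
    exact Or.inr rfl
  have b1 := (c.e i).continuousAt_symm ((c.e i).map_source hpt)
  rw [ContinuousAt, (c.e i).left_inv hpt, c.e_pt] at b1
  have b2 : Tendsto (S.e i) (S.endF i) (𝓝 0) := tendsto_comap.mono_left inf_le_left
  refine (b1.comp b2).congr' ?_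
  filter_upwards [mem_inf_of_right (mem_principal_self (S.e i).source)] with q hq
  rw [Function.comp_apply, ← c.e_j i q hq, (c.e i).left_inv]
  rw [c.e_source]
  exact Or.inl (mem_image_of_mem _ hq)

end Flat

end Pool.Agent.MP_e62289_ag
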