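import Pool.Agent.MP_e62289_ag.A
import Pool.Agent.MP_e62289_ag.S5
import Pool.Agent.MP_e62289_ag.F5
import Pool.Agent.MP_e62289_ag.X2
import Pool.Agent.MP_e62289_ag.L11

open Set Filter Topology Complex MeasureTheory Metric
open scoped Manifold ContDiff ComplexConjugate NNReal ENNReal

namespace Pool.Agent.MP_e62289_ag

open Classical in
/-- a retraction onto an open set -/
noncomputable def midPr {D : TopologicalSpace.Opens P2} (t₀ : D) (v : P2) : D :=
  if h : v ∈ D then ⟨v, h⟩ else t₀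

theorem midPr_val {D : TopologicalSpace.Opens P2} (t₀ : D) {v : P2} (h : v ∈ D) :
    (midPr t₀ v).1 = v := by
  rw [midPr, dif_pos h]

theorem midPr_md {D : TopologicalSpace.Opens P2} (t₀ : D) {v : P2} (h : v ∈ D) :
    MDifferentiableAt 𝓘(ℂ, P2) 𝓘(ℂ, P2) (midPr t₀) v := by
  refine ((ContMDiffAt.subtypeVal_comp_iff D (midPr t₀) v).1 ?_).mdifferentiableAt (by simp)
  refine contMDiffAt_id.congr_of_eventuallyEq ?_
  filter_upwards [D.isOpen.mem_nhds h] with w hw using midPr_val t₀ hw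

theorem mid_line (v : P2) : HasDerivAt (fun ζ : ℂ => ζ • v) v 0 := by
  simpa using (hasDerivAt_id (0 : ℂ)).smul_const v

variable {E : Type} [NormedAddCommGroup E] [NormedSpace ℂ E] [FiniteDimensional ℂ E]
  {B : Type} [EMetricSpace B] [ChartedSpace E B] [IsManifold 𝓘(ℂ, E) ω B]
  [IsManifold 𝓘(ℝ, E) ∞ B] [SimplyConnectedSpace B] {n : ℕ} {a : Fin n → ℕ}

omit [FiniteDimensional ℂ E] [IsManifold 𝓘(ℂ, E) ω B] [IsManifold 𝓘(ℝ, E) ∞ B]
  [SimplyConnectedSpace B] in
theorem mid_quad (k : KData E B) {x : B} {z : E} (hz : z ∈ (chartAt E x).target) (v w : E)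
    {ε δ : ℂ} (hε : ε = 1 ∨ ε = -1) (hδ : δ = 1 ∨ δ = -1) :
    k.G x z (ε • v + δ • w) (ε • v + δ • w) ≤ 2 * (k.G x z v v + k.G x z w w) := by
  have nn : ∀ u, 0 ≤ k.G x z u u := fun u => by
    by_cases h : u = 0
    · simp [h]
    · exact (k.pos x z hz u h).le
  have h1 := nn (v + w)
  have h2 := nn (v - w)
  simp only [map_add, map_sub, add_apply, sub_apply]
    at h1 h2
  rcases hε with rfl | rfl <;> rcases hδ with rfl | rfl <;>
    simp only [one_smul, neg_smul, map_add, map_neg, add_apply,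
      neg_apply] <;> linarith

/-- the inequality forced by a Kähler hyperbolic metric -/
theorem mid (k : KData E B) (d : DData k) (C : Family E B a) (hC : C.Versal) :
    ∃ Cst : ℝ, 0 ≤ Cst ∧ ∀ (S : Flat n) (ξp ξm : S.H), ξp ∈ S.hd.W → ξm ∈ S.hd.W →
      Nonempty (S.FV a ξp ξm) → ∀ D : TopologicalSpace.Opens P2, SimplyConnectedSpace D →
      ∀ (δ : S.Defo a D) (α β : ℝ), 0 < α → 0 < β →
      (∀ ζ ∈ ball (0 : ℂ) 1, ![α * ζ, 0] ∈ D ∧ ![0, β * ζ] ∈ D) → (∀ q, δ.mu 0 q = 0) →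
      ∀ ν : S.Y → ℂ, (∀ q, HasDerivAt (fun u => deriv (fun r => δ.mu ![u, r] q) 0) (ν q) 0) →
      α * β * ‖∫ q, ν q * (S.f q * ξp q * ξm q) ∂S.lam‖ ≤ Cst * (‖ξp‖ * ‖ξm‖) := by
  obtain ⟨CA, hA⟩ := schwarzA k d
  obtain ⟨CS, CS0, hS⟩ := schwarzS k
  refine ⟨CS * (4 * max CA 0) + 2, by positivity, ?_⟩
  rintro S ξp ξm hp hm ⟨fv⟩ D hD δ α β α0 β0 hdisc h0 ν hν
  obtain ⟨C', M, hM, hMe⟩ := δ.build
  obtain ⟨ψ, Ψ, hψ, hΨ, hb, hs, hh⟩ := hC 2 D hD C'
  obtain ⟨M', hM1, hM2⟩ := M.pull hΨ hb hs hh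
  have z0 : (0 : P2) ∈ D := by
    have := (hdisc 0 (mem_ball_self one_pos)).1
    convert this using 1
    ext i
    fin_cases i <;> simp
  let t₀ : D := ⟨0, z0⟩
  have : LocallyConnectedSpace D := D.isOpen.locallyConnectedSpace
  obtain ⟨h, h1, h2, h3, h4⟩ := Family.global hp hm fv hψ.continuous M' t₀ (fun q => by
      have e : bel (M'.G t₀).φ q = 0 := by rw [hM2, hM]; exact h0 q
      exact (div_eq_zero_iff.1 e).resolve_right ((M'.G t₀).d1_ne q))
    fun i => by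
      simp only [hM1, ← hs]
      exact (hΨ.tendsto _).comp (hMe i t₀)
  set p := ψ t₀ with hpe
  have pr0 : midPr t₀ 0 = t₀ := Subtype.ext (midPr_val t₀ z0)
  have md : ∀ v ∈ D, MDifferentiableAt 𝓘(ℂ, P2) 𝓘(ℂ, E) (fun v => ψ (midPr t₀ v)) v :=
    fun v hv => (hψ _).comp v (midPr_md t₀ hv)
  have c0 : Tendsto (midPr t₀) (𝓝 0) (𝓝 t₀) := by
    have := (midPr_md t₀ z0).continuousAt.tendsto
    rwa [pr0] at this
  have src : ∀ᶠ v in 𝓝 (0 : P2), ψ (midPr t₀ v) ∈ (chartAt E p).source :=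
    ((hψ.continuous.tendsto t₀).comp c0).eventually (chart_source_mem_nhds E p)
  let g : P2 → E := fun v => chartAt E p (ψ (midPr t₀ v))
  have gd : ∀ᶠ v in 𝓝 (0 : P2), DifferentiableAt ℂ g v := by
    filter_upwards [src, D.isOpen.mem_nhds z0] with v v1 v2
    exact mdifferentiableAt_iff_differentiableAt.1
      ((mdifferentiableAt_atlas (chart_mem_atlas E p) v1).comp v (md v v2))
  have g0 : g 0 = chartAt E p p := by simp only [g, pr0, hpe]
  have gl : ∀ v : P2, deriv (fun ζ : ℂ => g (ζ • v)) 0 = fderiv ℂ g 0 v := fun v =>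
    (HasFDerivAt.comp_hasDerivAt_of_eq (0 : ℂ) gd.self_of_nhds.hasFDerivAt (mid_line v)
      (by simp)).deriv
  have ga : ∀ v : P2, AnalyticAt ℂ (fun ζ : ℂ => g (ζ • v)) 0 := fun v => by
    have t : Tendsto (fun ζ : ℂ => ζ • v) (𝓝 0) (𝓝 0) := by
      simpa using (mid_line v).continuousAt.tendsto
    refine Complex.analyticAt_iff_eventually_differentiableAt.2 ?_
    filter_upwards [t.eventually gd] with ζ hζ
    exact DifferentiableAt.comp ζ (g := g) hζ (by fun_prop)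
  have disc : ∀ v : P2, (∀ ζ ∈ ball (0 : ℂ) 1, ζ • v ∈ D) →
      k.G p (chartAt E p p) (fderiv ℂ g 0 v) (fderiv ℂ g 0 v) ≤ max CA 0 := fun v hv => by
    have := hA (fun ζ => ψ (midPr t₀ (ζ • v))) fun ζ hζ =>
      (MDifferentiableAt.comp ζ (g := fun v => ψ (midPr t₀ v)) (md _ (hv ζ hζ))
        (mdifferentiableAt_iff_differentiableAt.2 (by fun_prop))).mdifferentiableWithinAt
    simp only [zero_smul, pr0, ← hpe] at this
    rw [← gl]
    exact this.trans (le_max_left _ _)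
  let v₁ : P2 := ![α, 0]
  let v₂ : P2 := ![0, β]
  have ev : ∀ u r : ℂ, ![α * u, β * r] = u • v₁ + r • v₂ := fun u r => by
    ext i
    fin_cases i <;> simp [v₁, v₂, mul_comm]
  have d1 := disc v₁ fun ζ hζ => by
    have := ev ζ 0
    rw [mul_zero, zero_smul, add_zero] at this
    exact this ▸ (hdisc ζ hζ).1
  have d2 := disc v₂ fun ζ hζ => by
    have := ev 0 ζ
    rw [mul_zero, zero_smul, zero_add] at this
    exact this ▸ (hdisc ζ hζ).2
  obtain ⟨ρ, ρ0, ρ1, hρ⟩ : ∃ ρ : ℝ, 0 < ρ ∧ ρ ≤ 1 ∧ ∀ u ∈ ball (0 : ℂ) ρ, ∀ r ∈ ball (0 : ℂ) ρ,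
      ![α * u, β * r] ∈ D := by
    have t : Tendsto (fun x : ℂ × ℂ => x.1 • v₁ + x.2 • v₂) (𝓝 0) (𝓝 0) := by
      have : Continuous fun x : ℂ × ℂ => x.1 • v₁ + x.2 • v₂ := by fun_prop
      simpa using this.tendsto 0
    obtain ⟨ρ, ρ0, hρ⟩ := Metric.eventually_nhds_iff_ball.1 (t.eventually (D.isOpen.mem_nhds z0))
    refine ⟨min ρ 1, by positivity, min_le_right _ _, fun u hu r hr => ?_⟩
    rw [ev]
    refine hρ (u, r) ?_
    rw [← Prod.mk_zero_zero, ← ball_prod_same]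
    exact ⟨ball_subset_ball (min_le_left _ _) hu, ball_subset_ball (min_le_left _ _) hr⟩
  have dv : ∀ r : ℂ, Differentiable ℂ fun u : ℂ => (![α * u, β * r] : P2) := fun r => by
    simp only [ev]
    fun_prop
  have dv' : ∀ u : ℂ, Differentiable ℂ fun r : ℂ => (![α * u, β * r] : P2) := fun u => by
    simp only [ev]
    fun_prop
  have key := S.second ξp ξm (μ := fun u r => δ.mu ![α * u, β * r]) (ν := fun q => α * β * ν q)
    (Bd := CS * (‖ξp‖ * ‖ξm‖) * (4 * max CA 0)) ρ0 ρ1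
    (fun u hu r hr => δ.mu_cont (hρ u hu r hr)) (fun q => by
      rw [ev, zero_smul, zero_smul, add_zero]
      exact h0 q)
    (fun u hu r hr q => (δ.norm_mu_lt (hρ u hu r hr) q).le)
    (fun r hr q u hu => (δ.mu_hol (dv r) (hρ u hu r hr) q).differentiableWithinAt)
    (fun u hu q r hr => (δ.mu_hol (dv' u) (hρ u hu r hr) q).differentiableWithinAt)
    (fun q => by
      have e : ∀ u ∈ ball (0 : ℂ) 1, ![α * u, β * (0 : ℂ)] ∈ D := fun u hu => by
        rw [mul_zero]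
        exact (hdisc u hu).1
      exact ⟨fun u hu => (δ.mu_hol (dv 0) (e u hu) q).differentiableWithinAt,
        fun u hu => (δ.norm_mu_lt (e u hu) q).le⟩)
    (fun q => by
      have e : ∀ u ∈ ball (0 : ℂ) 1, ![α * (0 : ℂ), β * u] ∈ D := fun u hu => by
        rw [mul_zero]
        exact (hdisc u hu).2
      exact ⟨fun u hu => (δ.mu_hol (dv' 0) (e u hu) q).differentiableWithinAt,
        fun u hu => (δ.norm_mu_lt (e u hu) q).le⟩)
    (fun q => by
      have e : ∀ u : ℂ, deriv (fun r : ℂ => δ.mu ![α * u, β * r] q) 0 =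
          β * deriv (fun r : ℂ => δ.mu ![α * u, r] q) 0 := fun u => by
        have := deriv_comp_mul_left (𝕜 := ℂ) β (fun r : ℂ => δ.mu ![α * u, r] q) 0
        rwa [mul_zero] at this
      simp only [e]
      have := (HasDerivAt.comp_of_eq (0 : ℂ) (hν q) ((hasDerivAt_id (0 : ℂ)).const_mul (α : ℂ))
        (by simp)).const_mul (β : ℂ)
      rw [show (α * β * ν q : ℂ) = β * (ν q * (α * 1)) by ring]
      exact this)
    fun η η0 ε δ' hε hδ => by
      have hc := hS p h _ h1 h2 h3 _ (ga (ε • v₁ + δ' • v₂)) (by rw [zero_smul, g0]) η η0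
      have t : Tendsto (fun t : ℝ => (t : ℂ) • (ε • v₁ + δ' • v₂)) (𝓝[>] 0) (𝓝 0) := by
        have : Continuous fun t : ℝ => (t : ℂ) • (ε • v₁ + δ' • v₂) := by fun_prop
        exact tendsto_nhdsWithin_of_tendsto_nhds (by simpa using this.tendsto 0)
      filter_upwards [hc, t.eventually src, t.eventually (D.isOpen.mem_nhds z0),
        (c0.comp t).eventually h4] with t t1 t2 t3 t4
      have e : ![α * (ε * t), β * (δ' * t)] = (t : ℂ) • (ε • v₁ + δ' • v₂) := by
        rw [ev, smul_add, smul_smul, smul_smul, mul_comm ε, mul_comm δ']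
      simp only [g, (chartAt E p).left_inv t2] at t1
      rw [Function.comp_apply, hM2, hM, midPr_val t₀ t3] at t4
      rw [e, ← t4]
      refine t1.trans (mul_le_mul_of_nonneg_right (add_le_add_left
        (mul_le_mul_of_nonneg_left ?_ (by positivity)) _) (sq_nonneg _))
      have := gl (ε • v₁ + δ' • v₂)
      simp only [g] at this
      rw [this, zero_smul, pr0, map_add, map_smul, map_smul]
      exact (mid_quad k (mem_chart_target E p) _ _ hε hδ).trans (by linarith)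
  simp only [mul_assoc (α * β : ℂ), integral_const_mul, norm_mul, Complex.norm_real,
    Real.norm_of_nonneg α0.le, Real.norm_of_nonneg β0.le] at key
  linarith

end Pool.Agent.MP_e62289_ag
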