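import Mathlib

open Set Filter Topology Bundle
open scoped Manifold ContDiff

namespace Pool.Agent.MP_e62289_ag

/-- A complex analytic family (in the sense of Kodaira and Spencer) of compact connected Riemann
surfaces with `n` distinct labelled points over a complex manifold `T`, whose fibres carry
holomorphic 1-forms vanishing to order exactly `a i - 1` at the `i`-th point and nowhere else.
The charts of the total space are `(z, t)` with `t` the projection to `T`; locally over `T` the
form is `f x (z, t) dz` in the chart at `x`. -/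
structure Family (E : Type) [NormedAddCommGroup E] [NormedSpace ℂ E] (T : Type)
    [TopologicalSpace T] [ChartedSpace E T] {n : ℕ} (a : Fin n → ℕ) where
  X : Type
  [top : TopologicalSpace X]
  [t2 : T2Space X]
  proj : X → T
  proper : IsProperMap proj
  conn : ∀ t, IsConnected (proj ⁻¹' {t})
  chart : X → OpenPartialHomeomorph X (ℂ × T)
  mem_source : ∀ x, x ∈ (chart x).source
  snd_chart : ∀ x, ∀ q ∈ (chart x).source, (chart x q).2 = proj q
  hol_chart : ∀ x y, MDifferentiableOn (𝓘(ℂ, ℂ).prod 𝓘(ℂ, E)) 𝓘(ℂ, ℂ)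
    (fun w => (chart y ((chart x).symm w)).1) ((chart x).symm ≫ₕ chart y).source
  sec : Fin n → T → X
  cont_sec : ∀ i, Continuous (sec i)
  proj_sec : ∀ i t, proj (sec i t) = t
  inj_sec : ∀ t, Function.Injective fun i => sec i t
  hol_sec : ∀ i x, MDifferentiableOn 𝓘(ℂ, E) 𝓘(ℂ, ℂ) (fun t => (chart x (sec i t)).1)
    (sec i ⁻¹' (chart x).source)
  form : ∀ t₀ : T, ∃ V : Set T, IsOpen V ∧ t₀ ∈ V ∧ ∃ f : X → ℂ × T → ℂ,
    (∀ x, MDifferentiableOn (𝓘(ℂ, ℂ).prod 𝓘(ℂ, E)) 𝓘(ℂ, ℂ) (f x)
      ((chart x).target ∩ univ ×ˢ V)) ∧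
    (∀ x y, ∀ q ∈ (chart x).source ∩ (chart y).source, proj q ∈ V →
      f x (chart x q) = f y (chart y q) *
        deriv (fun z => (chart y ((chart x).symm (z, proj q))).1) (chart x q).1) ∧
    (∀ x, proj x ∈ V → analyticOrderAt (fun z => f x (z, proj x)) (chart x x).1 =
      ((∑ᶠ (i) (_ : sec i (proj x) = x), (a i - 1) : ℕ) : ℕ∞))

attribute [instance] Family.top Family.t2

variable {E E' : Type} [NormedAddCommGroup E] [NormedSpace ℂ E] [NormedAddCommGroup E']
  [NormedSpace ℂ E'] {n : ℕ} {a : Fin n → ℕ}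

/-- The family `D` over `S` is induced from the family `C` over `T` by a holomorphic map
`ψ : S → T`: there is a holomorphic map of total spaces over `ψ` that is bijective on fibres and
respects the labelled points. -/
def Family.IsPullback {S T : Type} [TopologicalSpace S] [ChartedSpace E' S] [TopologicalSpace T]
    [ChartedSpace E T] (D : Family E' S a) (C : Family E T a) : Prop :=
  ∃ (ψ : S → T) (Ψ : D.X → C.X), MDifferentiable 𝓘(ℂ, E') 𝓘(ℂ, E) ψ ∧ Continuous Ψ ∧
    (∀ t, BijOn Ψ (D.proj ⁻¹' {t}) (C.proj ⁻¹' {ψ t})) ∧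
    (∀ i t, Ψ (D.sec i t) = C.sec i (ψ t)) ∧
    ∀ x y, MDifferentiableOn (𝓘(ℂ, ℂ).prod 𝓘(ℂ, E')) 𝓘(ℂ, ℂ)
      (fun w => (C.chart y (Ψ ((D.chart x).symm w))).1)
      ((D.chart x).target ∩ (fun w => Ψ ((D.chart x).symm w)) ⁻¹' (C.chart y).source)

/-- Every family over a simply connected open subset of some `ℂ ^ k` is induced from `C`. This
holds for the universal family over the universal cover of the stratum. -/
def Family.Versal {T : Type} [TopologicalSpace T] [ChartedSpace E T] (C : Family E T a) : Prop :=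
  ∀ (k : ℕ) (S : TopologicalSpace.Opens (Fin k → ℂ)), SimplyConnectedSpace S →
    ∀ D : Family (Fin k → ℂ) S a, D.IsPullback C

variable (E) {B : Type} [TopologicalSpace B] [ChartedSpace E B]
  [RiemannianBundle fun x : B => TangentSpace 𝓘(ℝ, E) x]

/-- The tangent vector with coordinates `v` at the point with coordinate `z` in the chart at
`x`. -/
noncomputable def tv (x : B) (z v : E) : TangentSpace 𝓘(ℝ, E) ((chartAt E x).symm z) :=
  mfderiv 𝓘(ℝ, E) 𝓘(ℝ, E) (chartAt E x).symm z v

/-- The coefficients of the metric in the chart at `x`. -/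
noncomputable def cm (x : B) (z v w : E) : ℝ := inner ℝ (tv E x z v) (tv E x z w)

variable (B)

/-- The metric is Hermitian and its fundamental form `ω (v, w) = g (i v, w)` is closed. -/
def IsKahler : Prop :=
  ∀ x : B, ∀ z ∈ (chartAt E x).target,
    (∀ v w : E, cm E x z (Complex.I • v) (Complex.I • w) = cm E x z v w) ∧
    ∀ u v w : E, fderiv ℝ (fun z => cm E x z (Complex.I • v) w) z u +
      fderiv ℝ (fun z => cm E x z (Complex.I • w) u) z v +
      fderiv ℝ (fun z => cm E x z (Complex.I • u) v) z w = 0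

variable {B} in
/-- `Γ` is the Christoffel symbol `Γ (u, v)` of the Levi-Civita connection at `z`. -/
def IsChristoffel (x : B) (z u v Γ : E) : Prop :=
  ∀ w : E, 2 * cm E x z Γ w = fderiv ℝ (fun z => cm E x z v w) z u +
    fderiv ℝ (fun z => cm E x z u w) z v - fderiv ℝ (fun z => cm E x z u v) z w

/-- The sectional curvature `R (u, v, v, u) / (|u| ^ 2 |v| ^ 2 - g (u, v) ^ 2)` is bounded. -/
def SecBounded : Prop :=
  ∃ K : ℝ, ∀ x : B, ∀ z ∈ (chartAt E x).target, ∀ u v Γuv Γuu Γvv : E,
    IsChristoffel E x z u v Γuv → IsChristoffel E x z u u Γuu → IsChristoffel E x z v v Γvv →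
    |fderiv ℝ (fun z => fderiv ℝ (fun z => cm E x z u v) z v) z u -
      fderiv ℝ (fun z => fderiv ℝ (fun z => cm E x z v v) z u) z u / 2 -
      fderiv ℝ (fun z => fderiv ℝ (fun z => cm E x z u u) z v) z v / 2 +
      cm E x z Γuv Γuv - cm E x z Γuu Γvv| ≤
    K * (cm E x z u u * cm E x z v v - cm E x z u v ^ 2)

/-- The fundamental form is `d α` for a continuously differentiable 1-form `α` that is bounded
in the metric. -/
def DBounded : Prop :=
  ∃ (α : ∀ x : B, TangentSpace 𝓘(ℝ, E) x →L[ℝ] ℝ) (C : ℝ), (∀ x v, |α x v| ≤ C * ‖v‖) ∧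
    ∀ x : B, (∀ w, ContDiffOn ℝ 1 (fun z => α _ (tv E x z w)) (chartAt E x).target) ∧
      ∀ z ∈ (chartAt E x).target, ∀ v w : E,
        fderiv ℝ (fun z => α _ (tv E x z w)) z v - fderiv ℝ (fun z => α _ (tv E x z v)) z w =
          cm E x z (Complex.I • v) w

end Pool.Agent.MP_e62289_ag
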