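import Pool.Agent.MP_e62289_ag.KDefs

open Set Filter Topology Complex MeasureTheory Metric
open scoped Manifold ContDiff ComplexConjugate NNReal ENNReal

namespace Pool.Agent.MP_e62289_ag

open Bundle

variable {E : Type} [NormedAddCommGroup E] [NormedSpace ℂ E] [FiniteDimensional ℂ E]
  {B : Type} [EMetricSpace B] [ChartedSpace E B]
  [IsManifold 𝓘(ℝ, E) ∞ B] [RiemannianBundle fun x : B => TangentSpace 𝓘(ℝ, E) x]
  [IsContMDiffRiemannianBundle 𝓘(ℝ, E) ∞ E fun x : B => TangentSpace 𝓘(ℝ, E) x]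

omit [FiniteDimensional ℂ E] [RiemannianBundle fun x : B => TangentSpace 𝓘(ℝ, E) x]
  [IsContMDiffRiemannianBundle 𝓘(ℝ, E) ∞ E fun x : B => TangentSpace 𝓘(ℝ, E) x] in
theorem R1a_tv (x : B) (v : E) : ContMDiffOn 𝓘(ℝ, E) 𝓘(ℝ, E).tangent ∞
    (fun z => (tv E x z v : TangentBundle 𝓘(ℝ, E) B)) (chartAt E x).target := by
  have ho := (chartAt E x).open_target
  have h1 := (contMDiffOn_chart_symm (I := 𝓘(ℝ, E)) (n := ∞) (x := x)).contMDiffOn_tangentMapWithin
    (m := ∞) le_rfl ho.uniqueMDiffOn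
  have h2 : ContMDiffOn 𝓘(ℝ, E) 𝓘(ℝ, E).tangent ∞
      (fun z : E => (TotalSpace.mk' E z v : TangentBundle 𝓘(ℝ, E) E)) (chartAt E x).target :=
    contMDiffOn_vectorSpace_iff_contDiffOn.2 contDiffOn_const
  refine (h1.comp h2 fun z hz => hz).congr fun z hz => ?_
  simp only [Function.comp, tangentMapWithin, tv, mfderivWithin_of_isOpen ho hz]

variable (E B) in
/-- the metric coefficients as smooth fields of bilinear forms -/
theorem exists_G : ∃ G : B → E → E →L[ℝ] E →L[ℝ] ℝ, (∀ x z v w, G x z v w = cm E x z v w) ∧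
    (∀ x, ContDiffOn ℝ ∞ (G x) (chartAt E x).target) ∧
    (∀ x, ∀ z ∈ (chartAt E x).target, ∀ v, v ≠ 0 → 0 < G x z v v) := by
  have : FiniteDimensional ℝ E := FiniteDimensional.complexToReal E
  have key : ∀ (x : B) (z : E), ∃ g : E →L[ℝ] E →L[ℝ] ℝ, ∀ v w, g v w = cm E x z v w := by
    intro x z
    let l : E →ₗ[ℝ] E →ₗ[ℝ] ℝ := LinearMap.mk₂ ℝ (cm E x z)
      (fun v v' w => by simp only [cm, tv]; rw [← inner_add_left, ← map_add]; rfl)
      (fun r v w => by simp only [cm, tv]; rw [smul_eq_mul, ← real_inner_smul_left, ← map_smul]; rfl)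
      (fun v w w' => by simp only [cm, tv]; rw [← inner_add_right, ← map_add]; rfl)
      (fun r v w => by simp only [cm, tv]; rw [smul_eq_mul, ← real_inner_smul_right, ← map_smul]; rfl)
    exact ⟨LinearMap.toContinuousLinearMap
      ((LinearMap.toContinuousLinearMap : (E →ₗ[ℝ] ℝ) ≃ₗ[ℝ] E →L[ℝ] ℝ).toLinearMap ∘ₗ l),
      fun v w => rfl⟩
  choose G hG using key
  refine ⟨G, hG, fun x => ?_, fun x z hz v hv => ?_⟩
  · refine contDiffOn_clm_apply.2 fun v => contDiffOn_clm_apply.2 fun w => ?_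
    simp only [hG, cm]
    have h := fun h1 h2 => ContMDiffOn.inner_bundle (IB := 𝓘(ℝ, E)) (F := E) (n := ∞)
      (E := fun x : B => TangentSpace 𝓘(ℝ, E) x) (IM := 𝓘(ℝ, E)) (b := (chartAt E x).symm)
      (v := fun z => tv E x z v) (w := fun z => tv E x z w) (s := (chartAt E x).target) h1 h2
    exact (h (R1a_tv x v) (R1a_tv x w)).contDiffOn
  · rw [hG, cm]
    refine real_inner_self_pos.2 fun h => hv ?_
    exact (mdifferentiable_chart (I := 𝓘(ℝ, E)) x).symm.mfderiv_injective hz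
      (h.trans (map_zero _).symm)

end Pool.Agent.MP_e62289_ag
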