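import Pool.Agent.MP_e62289_ag.KDefs
import Pool.Agent.MP_e62289_ag.R1a

open Set Filter Topology Complex MeasureTheory Metric
open scoped Manifold ContDiff ComplexConjugate NNReal ENNReal

namespace Pool.Agent.MP_e62289_ag

open Bundle

variable {E : Type} [NormedAddCommGroup E] [NormedSpace ℂ E] [FiniteDimensional ℂ E]
  {B : Type} [EMetricSpace B] [ChartedSpace E B]
  [IsManifold 𝓘(ℝ, E) ∞ B] [RiemannianBundle fun x : B => TangentSpace 𝓘(ℝ, E) x]
  [IsContMDiffRiemannianBundle 𝓘(ℝ, E) ∞ E fun x : B => TangentSpace 𝓘(ℝ, E) x]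

omit [FiniteDimensional ℂ E] [RiemannianBundle fun x : B => TangentSpace 𝓘(ℝ, E) x]
  [IsContMDiffRiemannianBundle 𝓘(ℝ, E) ∞ E fun x : B => TangentSpace 𝓘(ℝ, E) x] in
theorem R1b_symm_mdiff (x : B) {z : E} (hz : z ∈ (chartAt E x).target) :
    MDifferentiableAt 𝓘(ℝ, E) 𝓘(ℝ, E) (chartAt E x).symm z :=
  mdifferentiableAt_atlas_symm (chart_mem_atlas E x) hz

omit [FiniteDimensional ℂ E] [RiemannianBundle fun x : B => TangentSpace 𝓘(ℝ, E) x]
  [IsContMDiffRiemannianBundle 𝓘(ℝ, E) ∞ E fun x : B => TangentSpace 𝓘(ℝ, E) x] in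
set_option backward.isDefEq.respectTransparency false in
/-- change of chart for coordinate vectors -/
theorem tv_compat {x y q : B} (hx : q ∈ (chartAt E x).source) (hy : q ∈ (chartAt E y).source)
    (v : E) : (tv E y (chartAt E y q)
      (fderiv ℝ (chartAt E y ∘ (chartAt E x).symm) (chartAt E x q) v) : E) =
      (tv E x (chartAt E x q) v : E) := by
  have hq : (chartAt E x).symm (chartAt E x q) = q := (chartAt E x).left_inv hx
  have hz : chartAt E x q ∈ (chartAt E x).target := (chartAt E x).map_source hx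
  have hz' : chartAt E y q ∈ (chartAt E y).target := (chartAt E y).map_source hy
  have h1 := R1b_symm_mdiff (E := E) x hz
  have h2 : MDifferentiableAt 𝓘(ℝ, E) 𝓘(ℝ, E) (chartAt E y)
      ((chartAt E x).symm (chartAt E x q)) := by
    rw [hq]; exact mdifferentiableAt_atlas (chart_mem_atlas E y) hy
  have h3 : MDifferentiableAt 𝓘(ℝ, E) 𝓘(ℝ, E) (chartAt E y ∘ (chartAt E x).symm)
      (chartAt E x q) := h2.comp _ h1
  have hφ : (chartAt E y ∘ (chartAt E x).symm) (chartAt E x q) = chartAt E y q := by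
    simp only [Function.comp_apply, hq]
  have h4 := R1b_symm_mdiff (E := E) y hz'
  have hev : (chartAt E y).symm ∘ (chartAt E y ∘ (chartAt E x).symm) =ᶠ[𝓝 (chartAt E x q)]
      (chartAt E x).symm := by
    have hc : ContinuousAt (chartAt E x).symm (chartAt E x q) := h1.continuousAt
    have hn : (chartAt E y).source ∈ 𝓝 ((chartAt E x).symm (chartAt E x q)) := by
      rw [hq]; exact (chartAt E y).open_source.mem_nhds hy
    filter_upwards [hc.preimage_mem_nhds hn] with w hw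
    exact (chartAt E y).left_inv hw
  have h5 := mfderiv_comp_apply_of_eq (chartAt E x q) h4 h3 hφ v
  have h6 := hev.mfderiv_eq (I := 𝓘(ℝ, E)) (I' := 𝓘(ℝ, E))
  unfold tv
  rw [← mfderiv_eq_fderiv]
  exact h5.symm.trans (congrArg (fun L : E →L[ℝ] E => L v) h6)

omit [FiniteDimensional ℂ E] [IsManifold 𝓘(ℝ, E) ∞ B]
  [IsContMDiffRiemannianBundle 𝓘(ℝ, E) ∞ E fun x : B => TangentSpace 𝓘(ℝ, E) x] in
theorem R1b_inner_congr {a b : B} (h : a = b) (u v : TangentSpace 𝓘(ℝ, E) a)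
    (u' v' : TangentSpace 𝓘(ℝ, E) b) (hu : (u : E) = (u' : E)) (hv : (v : E) = (v' : E)) :
    inner ℝ u v = inner ℝ u' v' := by
  subst h
  have hu' : u = u' := hu
  have hv' : v = v' := hv
  rw [hu', hv']

omit [FiniteDimensional ℂ E]
  [IsContMDiffRiemannianBundle 𝓘(ℝ, E) ∞ E fun x : B => TangentSpace 𝓘(ℝ, E) x] in
theorem cm_compat {x y q : B} (hx : q ∈ (chartAt E x).source) (hy : q ∈ (chartAt E y).source)
    (v w : E) :
    cm E y (chartAt E y q) (fderiv ℝ (chartAt E y ∘ (chartAt E x).symm) (chartAt E x q) v)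
      (fderiv ℝ (chartAt E y ∘ (chartAt E x).symm) (chartAt E x q) w) =
      cm E x (chartAt E x q) v w := by
  unfold cm
  exact R1b_inner_congr (((chartAt E y).left_inv hy).trans ((chartAt E x).left_inv hx).symm)
    _ _ _ _ (tv_compat hx hy v) (tv_compat hx hy w)

set_option backward.isDefEq.respectTransparency false in
theorem cm_length [IsRiemannianManifold 𝓘(ℝ, E) B] (x : B) (c c' : ℝ → E)
    (hc : ContinuousOn c' (Icc 0 1))
    (hd : ∀ t ∈ Icc (0 : ℝ) 1, HasDerivWithinAt c (c' t) (Icc 0 1) t)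
    (hm : MapsTo c (Icc 0 1) (chartAt E x).target) :
    edist ((chartAt E x).symm (c 0)) ((chartAt E x).symm (c 1)) ≤
      ENNReal.ofReal (∫ t in (0 : ℝ)..1, √(cm E x (c t) (c' t) (c' t))) := by
  have hu : UniqueDiffOn ℝ (Icc (0 : ℝ) 1) := uniqueDiffOn_Icc zero_lt_one
  have hc1 : ContDiffOn ℝ 1 c (Icc 0 1) := by
    rw [contDiffOn_one_iff_derivWithin hu]
    refine ⟨fun t ht => (hd t ht).differentiableWithinAt, ?_⟩
    exact hc.congr fun t ht => (hd t ht).derivWithin (hu t ht)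
  have hγ : ContMDiffOn 𝓘(ℝ, ℝ) 𝓘(ℝ, E) 1 ((chartAt E x).symm ∘ c) (Icc 0 1) :=
    (contMDiffOn_chart_symm (I := 𝓘(ℝ, E)) (n := 1) (x := x)).comp
      (contMDiffOn_iff_contDiffOn.2 hc1) hm
  rw [IsRiemannianManifold.out (I := 𝓘(ℝ, E))]
  refine (Manifold.riemannianEDist_le_pathELength hγ rfl rfl zero_le_one).trans_eq ?_
  obtain ⟨G, hG, hGs, -⟩ := exists_G E B
  have hcont : ContinuousOn (fun t => √(cm E x (c t) (c' t) (c' t))) (Icc 0 1) := by
    have h1 : ContinuousOn (fun t => G x (c t)) (Icc 0 1) :=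
      (hGs x).continuousOn.comp hc1.continuousOn hm
    have h2 : ContinuousOn (fun t => G x (c t) (c' t) (c' t)) (Icc 0 1) :=
      (h1.clm_apply hc).clm_apply hc
    simp only [hG] at h2
    exact h2.sqrt
  have hint : IntegrableOn (fun t => √(cm E x (c t) (c' t) (c' t))) (Ioo 0 1) volume :=
    (hcont.integrableOn_Icc).mono_set Ioo_subset_Icc_self
  rw [Manifold.pathELength_eq_lintegral_mfderiv_Ioo, intervalIntegral.integral_of_le zero_le_one,
    integral_Ioc_eq_integral_Ioo,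
    ofReal_integral_eq_lintegral_ofReal hint (Eventually.of_forall fun t => Real.sqrt_nonneg _)]
  refine setLIntegral_congr_fun measurableSet_Ioo fun t ht => ?_
  have ht' : t ∈ Icc (0 : ℝ) 1 := Ioo_subset_Icc_self ht
  have hdt : HasDerivAt c (c' t) t := (hd t ht').hasDerivAt (Icc_mem_nhds ht.1 ht.2)
  have h1 : MDifferentiableAt 𝓘(ℝ, ℝ) 𝓘(ℝ, E) c t :=
    hdt.differentiableAt.mdifferentiableAt
  have h2 := mfderiv_comp_apply t (R1b_symm_mdiff (E := E) x (hm ht')) h1 (1 : ℝ)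
  have h3 : mfderiv 𝓘(ℝ, ℝ) 𝓘(ℝ, E) c t (1 : ℝ) = c' t := by
    rw [mfderiv_eq_fderiv]
    exact hdt.deriv
  have h4 : mfderiv 𝓘(ℝ, ℝ) 𝓘(ℝ, E) ((chartAt E x).symm ∘ c) t (1 : ℝ) =
      tv E x (c t) (c' t) := by
    rw [h2, h3]; rfl
  rw [h4, ← ofReal_norm, norm_eq_sqrt_real_inner]
  rfl

end Pool.Agent.MP_e62289_ag
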