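import Pool.Agent.MP_e62289_ag.KDefs

open Set Filter Topology Complex MeasureTheory Metric
open scoped Manifold ContDiff ComplexConjugate NNReal ENNReal

namespace Pool.Agent.MP_e62289_ag

open Bundle

variable {E : Type} [NormedAddCommGroup E] [NormedSpace ℂ E] [FiniteDimensional ℂ E]
  {B : Type} [EMetricSpace B] [ChartedSpace E B]
  [IsManifold 𝓘(ℝ, E) ∞ B] [RiemannianBundle fun x : B => TangentSpace 𝓘(ℝ, E) x]
  [IsContMDiffRiemannianBundle 𝓘(ℝ, E) ∞ E fun x : B => TangentSpace 𝓘(ℝ, E) x]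
  [IsRiemannianManifold 𝓘(ℝ, E) B]

attribute [local instance] normedAddCommGroupTangentSpaceVectorSpace
  normedSpaceTangentSpaceVectorSpace

omit [FiniteDimensional ℂ E]
  [IsContMDiffRiemannianBundle 𝓘(ℝ, E) ∞ E fun x : B => TangentSpace 𝓘(ℝ, E) x]
  [IsRiemannianManifold 𝓘(ℝ, E) B] in
set_option backward.isDefEq.respectTransparency false in
theorem R2b_path (p : B) (C : ℝ≥0) (γ : ℝ → B)
    (hγ : ContMDiff 𝓘(ℝ, ℝ) 𝓘(ℝ, E) 1 γ)
    (hs : ∀ t ∈ Icc (0 : ℝ) 1, γ t ∈ (chartAt E p).source)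
    (hC : ∀ t ∈ Icc (0 : ℝ) 1,
      ‖mfderiv 𝓘(ℝ, E) 𝓘(ℝ, E) (extChartAt 𝓘(ℝ, E) p) (γ t)‖ₑ < C) :
    ‖chartAt E p (γ 1) - chartAt E p (γ 0)‖ₑ ≤ C * Manifold.pathELength 𝓘(ℝ, E) γ 0 1 := by
  let γ' := extChartAt 𝓘(ℝ, E) p ∘ γ
  have hD : ContMDiffOn 𝓘(ℝ, ℝ) 𝓘(ℝ, E) 1 γ' (Icc 0 1) :=
    contMDiffOn_extChartAt.comp (I' := 𝓘(ℝ, E)) (t := (chartAt E p).source)
      hγ.contMDiffOn (fun t' ht' ↦ hs t' ht')
  calc
      ‖chartAt E p (γ 1) - chartAt E p (γ 0)‖ₑ = ‖γ' 1 - γ' 0‖ₑ := by simp [γ']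
    _ ≤ ∫⁻ t' in Icc 0 1, ‖derivWithin γ' (Icc 0 1) t'‖ₑ := by
      apply enorm_sub_le_lintegral_derivWithin_Icc_of_contDiffOn_Icc _ zero_le_one
      rwa [← contMDiffOn_iff_contDiffOn]
    _ = ∫⁻ t' in Icc 0 1, ‖mfderivWithin 𝓘(ℝ, ℝ) 𝓘(ℝ, E) γ' (Icc 0 1) t' 1‖ₑ := by
      simp_rw [← fderivWithin_derivWithin, mfderivWithin_eq_fderivWithin]
      rfl
    _ ≤ ∫⁻ t' in Icc 0 1, C * ‖mfderivWithin 𝓘(ℝ, ℝ) 𝓘(ℝ, E) γ (Icc 0 1) t' 1‖ₑ := by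
      apply setLIntegral_mono' measurableSet_Icc (fun t' ht' ↦ ?_)
      have h1 : mfderivWithin 𝓘(ℝ, ℝ) 𝓘(ℝ, E) γ' (Icc 0 1) t' =
          (mfderiv 𝓘(ℝ, E) 𝓘(ℝ, E) (extChartAt 𝓘(ℝ, E) p) (γ t')) ∘L
            (mfderivWithin 𝓘(ℝ, ℝ) 𝓘(ℝ, E) γ (Icc 0 1) t') := by
        apply mfderiv_comp_mfderivWithin
        · exact mdifferentiableAt_extChartAt (hs t' ht')
        · exact (hγ.mdifferentiable one_ne_zero).mdifferentiableOn _ ht'
        · rw [uniqueMDiffWithinAt_iff_uniqueDiffWithinAt]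
          exact uniqueDiffOn_Icc zero_lt_one _ ht'
      have h2 : mfderivWithin 𝓘(ℝ, ℝ) 𝓘(ℝ, E) γ' (Icc 0 1) t' 1 =
          (mfderiv 𝓘(ℝ, E) 𝓘(ℝ, E) (extChartAt 𝓘(ℝ, E) p) (γ t'))
            (mfderivWithin 𝓘(ℝ, ℝ) 𝓘(ℝ, E) γ (Icc 0 1) t' 1) :=
        congr($h1 1)
      rw [h2]
      apply (ContinuousLinearMap.le_opENorm _ _).trans
      gcongr
      exact (hC t' ht').le
    _ = C * Manifold.pathELength 𝓘(ℝ, E) γ 0 1 := by
      rw [lintegral_const_mul' _ _ ENNReal.coe_ne_top,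
          Manifold.pathELength_eq_lintegral_mfderivWithin_Icc]

omit [FiniteDimensional ℂ E] in
variable (E) in
/-- charts are locally Lipschitz at their centre -/
theorem chart_lower (p : B) :
    ∃ C : ℝ≥0, ∀ᶠ q in 𝓝 p, ‖chartAt E p q - chartAt E p p‖ₑ ≤ C * edist p q := by
  have : IsContinuousRiemannianBundle E (fun x : B => TangentSpace 𝓘(ℝ, E) x) := by
    obtain ⟨g, hg, hg'⟩ := IsContMDiffRiemannianBundle.exists_contMDiff (IB := 𝓘(ℝ, E))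
      (n := ∞) (F := E) (E := fun x : B => TangentSpace 𝓘(ℝ, E) x)
    exact ⟨g, hg.continuous, hg'⟩
  rcases eventually_enorm_mfderiv_extChartAt_lt 𝓘(ℝ, E) p with ⟨C, C_pos, hC⟩
  obtain ⟨r, r_pos, hr⟩ := EMetric.mem_nhds_iff.1 (hC.and (chart_source_mem_nhds E p))
  refine ⟨C, ?_⟩
  filter_upwards [Metric.eball_mem_nhds p r_pos] with q hq
  have hq' : edist p q < r := by simpa [Metric.mem_eball, edist_comm] using hq
  have key : ∀ s, edist p q < s → s ≤ r → ‖chartAt E p q - chartAt E p p‖ₑ ≤ C * s := by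
    intro s hs hsr
    rw [IsRiemannianManifold.out (I := 𝓘(ℝ, E))] at hs
    rcases Manifold.exists_lt_locally_constant_of_riemannianEDist_lt hs zero_lt_one
      with ⟨γ, hγx, hγy, γ_smooth, hγ, -⟩
    have hin : ∀ t ∈ Icc (0 : ℝ) 1, γ t ∈ Metric.eball p r := by
      intro t ht
      rw [Metric.mem_eball, edist_comm, IsRiemannianManifold.out (I := 𝓘(ℝ, E))]
      have h1 : Manifold.riemannianEDist 𝓘(ℝ, E) p (γ t) ≤
          Manifold.pathELength 𝓘(ℝ, E) γ 0 t :=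
        Manifold.riemannianEDist_le_pathELength γ_smooth.contMDiffOn hγx rfl ht.1
      have h2 : Manifold.pathELength 𝓘(ℝ, E) γ 0 t ≤ Manifold.pathELength 𝓘(ℝ, E) γ 0 1 :=
        Manifold.pathELength_mono le_rfl ht.2
      exact ((h1.trans h2).trans_lt hγ).trans_le hsr
    have h3 := R2b_path p C γ γ_smooth (fun t ht => (hr (hin t ht)).2)
      (fun t ht => (hr (hin t ht)).1)
    rw [hγx, hγy] at h3
    refine h3.trans ?_
    gcongr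
  have hlim : Tendsto (fun s : ℝ≥0∞ => (C : ℝ≥0∞) * s) (𝓝[>] (edist p q))
      (𝓝 (C * edist p q)) :=
    (ENNReal.Tendsto.const_mul tendsto_id (Or.inr ENNReal.coe_ne_top)).mono_left
      nhdsWithin_le_nhds
  have : (𝓝[>] (edist p q)).NeBot := nhdsGT_neBot_of_exists_gt ⟨r, hq'⟩
  refine ge_of_tendsto hlim ?_
  filter_upwards [Ioc_mem_nhdsGT hq'] with s hs using key s hs.1 hs.2

end Pool.Agent.MP_e62289_ag
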