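import Pool.Agent.MP_e62289_ag.KDefs

open Set Filter Topology Complex MeasureTheory Metric
open scoped Manifold ContDiff ComplexConjugate NNReal ENNReal

namespace Pool.Agent.MP_e62289_ag

open Bundle

lemma R2a_closed {B : Type} [EMetricSpace B] (p : B) (r : ℝ≥0) :
    IsClosed {q | edist p q ≤ r} :=
  isClosed_le (continuous_const.edist continuous_id) continuous_const

lemma R2a_up {B : Type} [EMetricSpace B] [CompleteSpace B]
    (hmid : ∀ (p q : B) (a b : ℝ≥0), edist p q < (a : ℝ≥0∞) + b →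
      ∃ z, edist p z ≤ a ∧ edist z q ≤ b)
    (p : B) (s : ℝ≥0) (h : ∀ r < s, IsCompact {q | edist p q ≤ (r : ℝ≥0)}) :
    IsCompact {q | edist p q ≤ s} := by
  rcases eq_or_lt_of_le (zero_le : 0 ≤ s) with h0 | h0
  · subst h0
    have : {q | edist p q ≤ ((0 : ℝ≥0) : ℝ≥0∞)} = {p} := by
      ext q
      simp [eq_comm]
    rw [this]
    exact isCompact_singleton
  · rw [isCompact_iff_totallyBounded_isComplete]
    refine ⟨?_, (R2a_closed p s).isComplete⟩
    rw [EMetric.totallyBounded_iff]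
    intro ε hε
    have hε2 : (0 : ℝ≥0∞) < ε / 2 := ENNReal.half_pos hε.ne'
    obtain ⟨δ, hδ0, hδ⟩ := ENNReal.lt_iff_exists_nnreal_btwn.1 hε2
    have hδ0' : 0 < δ := by exact_mod_cast hδ0
    have hr : s - δ / 2 < s := tsub_lt_self h0 (by positivity)
    have hr2 : s < (s - δ / 2) + δ := by
      have h1 : s ≤ (s - δ / 2) + δ / 2 := le_tsub_add
      have h2 : δ / 2 < δ := by
        apply NNReal.half_lt_self hδ0'.ne'
      exact h1.trans_lt (by gcongr)
    have htb := (h _ hr).totallyBounded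
    rw [EMetric.totallyBounded_iff] at htb
    obtain ⟨t, htf, ht⟩ := htb δ hδ0
    refine ⟨t, htf, fun q hq => ?_⟩
    have hq' : edist p q < ((s - δ / 2 : ℝ≥0) : ℝ≥0∞) + δ := by
      refine lt_of_le_of_lt hq ?_
      exact_mod_cast hr2
    obtain ⟨z, hz1, hz2⟩ := hmid p q _ _ hq'
    have hz := ht hz1
    simp only [mem_iUnion] at hz ⊢
    obtain ⟨y, hy, hzy⟩ := hz
    refine ⟨y, hy, ?_⟩
    have hzy' : edist z y < δ := hzy
    have : edist q y < ε := by
      calc edist q y ≤ edist q z + edist z y := edist_triangle _ _ _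
        _ ≤ δ + δ := by
          rw [edist_comm q z]
          exact add_le_add hz2 hzy'.le
        _ < ε / 2 + ε / 2 := ENNReal.add_lt_add hδ hδ
        _ = ε := ENNReal.add_halves ε
    exact this

lemma R2a_open {B : Type} [EMetricSpace B] [LocallyCompactSpace B]
    (hmid : ∀ (p q : B) (a b : ℝ≥0), edist p q < (a : ℝ≥0∞) + b →
      ∃ z, edist p z ≤ a ∧ edist z q ≤ b)
    (p : B) (s : ℝ≥0) (h : IsCompact {q | edist p q ≤ s}) :
    ∃ ε : ℝ≥0, 0 < ε ∧ ∀ r < s + ε, IsCompact {q | edist p q ≤ (r : ℝ≥0)} := by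
  obtain ⟨δ, hδ, hc⟩ := h.exists_isCompact_cthickening
  lift δ to ℝ≥0 using hδ.le
  refine ⟨δ, by exact_mod_cast hδ, fun r hr => ?_⟩
  refine hc.of_isClosed_subset (R2a_closed p r) fun q hq => ?_
  have hq0 : edist p q ≤ r := hq
  have hq' : edist p q < (s : ℝ≥0∞) + δ := by
    refine lt_of_le_of_lt hq0 ?_
    exact_mod_cast hr
  obtain ⟨z, hz1, hz2⟩ := hmid p q _ _ hq'
  refine Metric.mem_cthickening_of_edist_le q z δ _ hz1 ?_
  rw [edist_comm, ENNReal.ofReal_coe_nnreal]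
  exact hz2

lemma R2a_abstract {B : Type} [EMetricSpace B] [CompleteSpace B] [LocallyCompactSpace B]
    (hmid : ∀ (p q : B) (a b : ℝ≥0), edist p q < (a : ℝ≥0∞) + b →
      ∃ z, edist p z ≤ a ∧ edist z q ≤ b)
    (p : B) (r : ℝ≥0) : IsCompact {q | edist p q ≤ r} := by
  by_contra hr
  set T : Set ℝ≥0 := {r | ¬ IsCompact {q | edist p q ≤ (r : ℝ≥0)}} with hT
  have hne : T.Nonempty := ⟨r, hr⟩
  have h1 : IsCompact {q | edist p q ≤ ((sInf T : ℝ≥0) : ℝ≥0∞)} := by
    refine R2a_up hmid p _ fun u hu => ?_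
    by_contra hu'
    have : sInf T ≤ u := csInf_le (OrderBot.bddBelow T) hu'
    exact absurd hu (not_lt.2 this)
  obtain ⟨ε, hε, h2⟩ := R2a_open hmid p _ h1
  have h3 : sInf T + ε ≤ sInf T := by
    refine le_csInf hne fun u hu => ?_
    by_contra hlt
    exact hu (h2 u (not_le.1 hlt))
  exact absurd h3 (not_le.2 (lt_add_of_pos_right _ hε))

variable {E : Type} [NormedAddCommGroup E] [NormedSpace ℂ E] [FiniteDimensional ℂ E]
  {B : Type} [EMetricSpace B] [ChartedSpace E B]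
  [IsManifold 𝓘(ℝ, E) ∞ B] [RiemannianBundle fun x : B => TangentSpace 𝓘(ℝ, E) x]
  [IsContMDiffRiemannianBundle 𝓘(ℝ, E) ∞ E fun x : B => TangentSpace 𝓘(ℝ, E) x]
  [IsRiemannianManifold 𝓘(ℝ, E) B]

omit [FiniteDimensional ℂ E] [IsManifold 𝓘(ℝ, E) ∞ B]
  [IsContMDiffRiemannianBundle 𝓘(ℝ, E) ∞ E fun x : B => TangentSpace 𝓘(ℝ, E) x] in
variable (E) in
include E in
lemma R2a_mid (p q : B) (a b : ℝ≥0) (h : edist p q < (a : ℝ≥0∞) + b) :
    ∃ z, edist p z ≤ a ∧ edist z q ≤ b := by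
  by_cases ha : edist p q ≤ a
  · exact ⟨q, ha, by simp⟩
  have hout := IsRiemannianManifold.out (I := 𝓘(ℝ, E)) (M := B)
  rw [hout] at h
  obtain ⟨γ, h0, h1, hγ, hlen⟩ := Manifold.exists_lt_of_riemannianEDist_lt h
  have hcont : ContinuousOn (fun t => edist p (γ t)) (Icc 0 1) :=
    (continuous_const.edist continuous_id).comp_continuousOn hγ.continuousOn
  have hmem : (a : ℝ≥0∞) ∈ Icc (edist p (γ 0)) (edist p (γ 1)) := by
    rw [h0, h1]
    exact ⟨by simp, (not_le.1 ha).le⟩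
  obtain ⟨t, ht, hta⟩ := intermediate_value_Icc zero_le_one hcont hmem
  have hta' : edist p (γ t) = a := hta
  refine ⟨γ t, hta'.le, ?_⟩
  have e1 : edist p (γ t) ≤ Manifold.pathELength 𝓘(ℝ, E) γ 0 t := by
    rw [hout]
    exact Manifold.riemannianEDist_le_pathELength (hγ.mono (Icc_subset_Icc le_rfl ht.2)) h0 rfl ht.1
  have e2 : edist (γ t) q ≤ Manifold.pathELength 𝓘(ℝ, E) γ t 1 := by
    rw [hout]
    exact Manifold.riemannianEDist_le_pathELength (hγ.mono (Icc_subset_Icc ht.1 le_rfl)) rfl h1 ht.2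
  have e3 : (a : ℝ≥0∞) + edist (γ t) q < a + b := by
    calc (a : ℝ≥0∞) + edist (γ t) q ≤ Manifold.pathELength 𝓘(ℝ, E) γ 0 t +
          Manifold.pathELength 𝓘(ℝ, E) γ t 1 := add_le_add (hta' ▸ e1) e2
      _ = Manifold.pathELength 𝓘(ℝ, E) γ 0 1 := Manifold.pathELength_add ht.1 ht.2
      _ < a + b := hlen
  exact (lt_of_add_lt_add_left e3).le

variable (E) in
include E in
/-- Hopf and Rinow: closed balls of a complete Riemannian manifold are compact -/
theorem hopf_rinow [CompleteSpace B] (p : B) (r : ℝ≥0) : IsCompact {q | edist p q ≤ r} := by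
  have : LocallyCompactSpace B := Manifold.locallyCompact_of_finiteDimensional 𝓘(ℝ, E)
  exact R2a_abstract (R2a_mid E) p r

end Pool.Agent.MP_e62289_ag
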