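import Pool.Agent.MP_e62289_ag.KDefs

open Set Filter Topology Complex MeasureTheory Metric
open scoped Manifold ContDiff ComplexConjugate NNReal ENNReal

namespace Pool.Agent.MP_e62289_ag

variable {E : Type} [NormedAddCommGroup E] [NormedSpace ℂ E] [FiniteDimensional ℂ E]

/-- numerator of the sectional curvature -/
noncomputable def secNum (G : E → E →L[ℝ] E →L[ℝ] ℝ) (Γ : E → E →L[ℝ] E →L[ℝ] E) (z u v : E) :
    ℝ :=
  fderiv ℝ (fun z => fderiv ℝ (fun z => G z u v) z v) z u -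
    fderiv ℝ (fun z => fderiv ℝ (fun z => G z v v) z u) z u / 2 -
    fderiv ℝ (fun z => fderiv ℝ (fun z => G z u u) z v) z v / 2 +
    G z (Γ z u v) (Γ z u v) - G z (Γ z u u) (Γ z v v)

omit [FiniteDimensional ℂ E] in
theorem R3b_cd {U : Set E} (hU : IsOpen U) {G : E → E →L[ℝ] E →L[ℝ] ℝ}
    (hG : ContDiffOn ℝ ∞ G U) {z : E} (hz : z ∈ U) (v w : E) :
    ContDiffAt ℝ ∞ (fun z => G z v w) z :=
  ((hG.contDiffAt (hU.mem_nhds hz)).clm_apply contDiffAt_const).clm_apply contDiffAt_const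

omit [FiniteDimensional ℂ E] in
theorem R3b_diff {f : E → ℝ} {z : E} (hf : ContDiffAt ℝ ∞ f z) :
    DifferentiableAt ℝ (fderiv ℝ f) z :=
  (hf.fderiv_right (m := 1) (WithTop.coe_le_coe.2 (le_top : (2 : ℕ∞) ≤ ⊤))).differentiableAt (by simp)

omit [FiniteDimensional ℂ E] in
theorem R3b_snd {f : E → ℝ} {z : E} (hf : ContDiffAt ℝ ∞ f z) (a b : E) :
    fderiv ℝ (fun z => fderiv ℝ f z b) z a = fderiv ℝ (fderiv ℝ f) z a b := by
  rw [fderiv_clm_apply (R3b_diff hf) (differentiableAt_const b)]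
  simp

omit [FiniteDimensional ℂ E] in
theorem R3b_symm {f : E → ℝ} {z : E} (hf : ContDiffAt ℝ ∞ f z) (a b : E) :
    fderiv ℝ (fun z => fderiv ℝ f z b) z a = fderiv ℝ (fun z => fderiv ℝ f z a) z b := by
  rw [R3b_snd hf, R3b_snd hf]
  refine (hf.isSymmSndFDerivAt ?_) a b
  simp only [minSmoothness_of_isRCLikeNormedField]
  exact WithTop.coe_le_coe.2 (le_top : (2 : ℕ∞) ≤ ⊤)

omit [FiniteDimensional ℂ E] in
theorem R3b_congr {U : Set E} (hU : IsOpen U) {f g : E → ℝ} (h : ∀ z ∈ U, f z = g z) {z : E}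
    (hz : z ∈ U) (a b : E) :
    fderiv ℝ (fun z => fderiv ℝ f z b) z a = fderiv ℝ (fun z => fderiv ℝ g z b) z a := by
  have e : (fun z => fderiv ℝ f z b) =ᶠ[𝓝 z] fun z => fderiv ℝ g z b := by
    filter_upwards [hU.mem_nhds hz] with y hy
    have : f =ᶠ[𝓝 y] g := by
      filter_upwards [hU.mem_nhds hy] with x hx using h x hx
    rw [this.fderiv_eq]
  rw [e.fderiv_eq]

omit [FiniteDimensional ℂ E] in
theorem R3b_II (x : E) : I • I • x = -x := by
  rw [smul_smul, I_mul_I, neg_smul, one_smul]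

omit [FiniteDimensional ℂ E] in
/-- the bisectional curvature is a sum of two sectional curvatures -/
theorem bisec_eq {U : Set E} (hU : IsOpen U) {G : E → E →L[ℝ] E →L[ℝ] ℝ}
    {Γ : E → E →L[ℝ] E →L[ℝ] E}
    (hG : ContDiffOn ℝ ∞ G U) (hs : ∀ z ∈ U, ∀ v w, G z v w = G z w v)
    (hh : ∀ z ∈ U, ∀ v w, G z (I • v) (I • w) = G z v w)
    (h1 : ∀ z ∈ U, ∀ u v, Γ z u v = Γ z v u) (h2 : ∀ z ∈ U, ∀ u v, Γ z u (I • v) = I • Γ z u v)
    (h3 : ∀ z ∈ U, ∀ u v w,
      fderiv ℝ (fun z => G z v w) z u = G z (Γ z u v) w + G z v (Γ z u w))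
    {z : E} (hz : z ∈ U) (V X : E) :
    2 * G z (Γ z V X) (Γ z V X) -
      (fderiv ℝ (fun z => fderiv ℝ (fun z => G z X X) z V) z V +
        fderiv ℝ (fun z => fderiv ℝ (fun z => G z X X) z (I • V)) z (I • V)) / 2 =
      secNum G Γ z V X + secNum G Γ z V (I • X) := by
  have hII : ∀ y ∈ U, ∀ u, Γ y (I • u) (I • u) = -Γ y u u := fun y hy u => by
    rw [h2 y hy, h1 y hy, h2 y hy, R3b_II]
  have key : ∀ y ∈ U, ∀ v x, fderiv ℝ (fun z => G z v x) y x +
      fderiv ℝ (fun z => G z v (I • x)) y (I • x) = fderiv ℝ (fun z => G z x x) y v := by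
    intro y hy v x
    rw [h3 y hy, h3 y hy, h3 y hy, hII y hy, h1 y hy (I • x) v, h2 y hy, hh y hy, map_neg,
      h1 y hy x v, hs y hy x (Γ y v x)]
    ring
  have ks : ∀ a v x, fderiv ℝ (fun z => fderiv ℝ (fun z => G z v x) z x) z a +
      fderiv ℝ (fun z => fderiv ℝ (fun z => G z v (I • x)) z (I • x)) z a =
      fderiv ℝ (fun z => fderiv ℝ (fun z => G z x x) z v) z a := by
    intro a v x
    have e : (fun z => fderiv ℝ (fun z => G z x x) z v) =ᶠ[𝓝 z] fun z =>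
        fderiv ℝ (fun z => G z v x) z x + fderiv ℝ (fun z => G z v (I • x)) z (I • x) := by
      filter_upwards [hU.mem_nhds hz] with y hy using (key y hy v x).symm
    rw [e.fderiv_eq, fderiv_fun_add
      ((R3b_diff (R3b_cd hU hG hz v x)).clm_apply (differentiableAt_const x))
      ((R3b_diff (R3b_cd hU hG hz v (I • x))).clm_apply (differentiableAt_const (I • x)))]
    rfl
  have sw : ∀ a b, fderiv ℝ (fun z => fderiv ℝ (fun z => G z a b) z b) z a =
      fderiv ℝ (fun z => fderiv ℝ (fun z => G z b a) z a) z b := by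
    intro a b
    rw [R3b_symm (R3b_cd hU hG hz a b) a b]
    exact R3b_congr hU (fun y hy => hs y hy a b) hz b a
  have hX := R3b_congr hU (fun y hy => hh y hy X X) hz V V
  have k1 := ks X X V
  have k2 := ks (I • X) (I • X) V
  have k3 := ks V V X
  have k4 := ks (I • V) (I • V) X
  rw [sw X V, sw X (I • V)] at k1
  rw [sw (I • X) V, sw (I • X) (I • V)] at k2
  simp only [secNum]
  rw [hX, hII z hz, h2 z hz, hh z hz, map_neg]
  linarith

end Pool.Agent.MP_e62289_ag
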