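import Pool.Agent.MP_e62289_ag.KDefs

open Set Filter Topology Complex MeasureTheory Metric
open scoped Manifold ContDiff ComplexConjugate NNReal ENNReal

set_option maxSynthPendingDepth 3

namespace Pool.Agent.MP_e62289_ag

variable {E : Type} [NormedAddCommGroup E] [NormedSpace ℂ E] [FiniteDimensional ℂ E]

theorem R3a_isInvertible {g : E →L[ℝ] E →L[ℝ] ℝ} (hp : ∀ v, v ≠ 0 → 0 < g v v) :
    ∃ e : E ≃L[ℝ] (E →L[ℝ] ℝ), (e : E →L[ℝ] E →L[ℝ] ℝ) = g := by
  have hinj : Function.Injective (g : E →ₗ[ℝ] E →L[ℝ] ℝ) := by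
    rw [injective_iff_map_eq_zero]
    intro v hv
    by_contra h0
    have h1 := hp v h0
    have h2 : g v = 0 := hv
    rw [h2] at h1
    simp at h1
  have hr : Module.finrank ℝ E = Module.finrank ℝ (E →L[ℝ] ℝ) := by
    rw [← (LinearMap.toContinuousLinearMap (𝕜 := ℝ) (E := E) (F' := ℝ)).finrank_eq]
    exact Subspace.dual_finrank_eq.symm
  refine ⟨(LinearEquiv.ofInjectiveOfFinrankEq _ hinj hr).toContinuousLinearEquiv, ?_⟩
  ext v w
  rfl

/-- The Koszul form of a trilinear map. -/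
noncomputable def R3a_koszul (T : E →L[ℝ] E →L[ℝ] E →L[ℝ] ℝ) : E →L[ℝ] E →L[ℝ] E →L[ℝ] ℝ :=
  (1 / 2 : ℝ) • (T + T.flip -
    (ContinuousLinearMap.flipₗᵢ ℝ E E ℝ).toContinuousLinearEquiv.toContinuousLinearMap.comp T.flip)

omit [FiniteDimensional ℂ E] in
theorem R3a_koszul_apply (T : E →L[ℝ] E →L[ℝ] E →L[ℝ] ℝ) (u v w : E) :
    R3a_koszul T u v w = (T u v w + T v u w - T w u v) / 2 := by
  simp [R3a_koszul]
  ring

omit [FiniteDimensional ℂ E] in
theorem R3a_fderiv {G : E → E →L[ℝ] E →L[ℝ] ℝ} {z : E} (h : DifferentiableAt ℝ G z)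
    (u v w : E) : fderiv ℝ (fun z => G z v w) z u = fderiv ℝ G z u v w := by
  have h1 : HasFDerivAt (fun z => G z v w)
      (((ContinuousLinearMap.apply ℝ ℝ w).comp
        (ContinuousLinearMap.apply ℝ (E →L[ℝ] ℝ) v)).comp (fderiv ℝ G z)) z :=
    ((ContinuousLinearMap.apply ℝ ℝ w).comp
        (ContinuousLinearMap.apply ℝ (E →L[ℝ] ℝ) v)).hasFDerivAt.comp z h.hasFDerivAt
  rw [h1.fderiv]
  rfl

/-- Christoffel symbols of a Kähler metric on an open set -/
theorem exists_christoffel {U : Set E} (hU : IsOpen U) {G : E → E →L[ℝ] E →L[ℝ] ℝ}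
    (hG : ContDiffOn ℝ ∞ G U) (hs : ∀ z ∈ U, ∀ v w, G z v w = G z w v)
    (hp : ∀ z ∈ U, ∀ v, v ≠ 0 → 0 < G z v v)
    (hh : ∀ z ∈ U, ∀ v w, G z (I • v) (I • w) = G z v w)
    (hk : ∀ z ∈ U, ∀ u v w, fderiv ℝ (fun z => G z (I • v) w) z u +
      fderiv ℝ (fun z => G z (I • w) u) z v + fderiv ℝ (fun z => G z (I • u) v) z w = 0) :
    ∃ Γ : E → E →L[ℝ] E →L[ℝ] E, ContinuousOn Γ U ∧ ∀ z ∈ U,
      (∀ u v w, 2 * G z (Γ z u v) w = fderiv ℝ (fun z => G z v w) z u +
        fderiv ℝ (fun z => G z u w) z v - fderiv ℝ (fun z => G z u v) z w) ∧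
      (∀ u v, Γ z u v = Γ z v u) ∧ (∀ u v, Γ z u (I • v) = I • Γ z u v) ∧
      ∀ u v w, fderiv ℝ (fun z => G z v w) z u = G z (Γ z u v) w + G z v (Γ z u w) := by
  have hat : ∀ z ∈ U, ContDiffAt ℝ ∞ G z := fun z hz => hG.contDiffAt (hU.mem_nhds hz)
  have hd : ∀ z ∈ U, DifferentiableAt ℝ G z := fun z hz => (hat z hz).differentiableAt (by simp)
  have hc : ContinuousOn (fderiv ℝ G) U := hG.continuousOn_fderiv_of_isOpen hU (by simp)
  have hinv : ContinuousOn (fun z => (G z).inverse) U := fun z hz => by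
    obtain ⟨e, he⟩ := R3a_isInvertible (hp z hz)
    have h1 : ContinuousAt ContinuousLinearMap.inverse (G z) := by
      rw [← he]
      exact (contDiffAt_map_inverse (n := 0) e).continuousAt
    exact (ContinuousAt.comp (f := G) h1 (hat z hz).continuousAt).continuousWithinAt
  refine ⟨fun z => (ContinuousLinearMap.compL ℝ E (E →L[ℝ] ℝ) E (G z).inverse).comp
    (R3a_koszul (fderiv ℝ G z)), ?_, fun z hz => ?_⟩
  · rw [continuousOn_clm_apply]
    intro u
    rw [continuousOn_clm_apply]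
    intro v
    show ContinuousOn (fun z => (G z).inverse (R3a_koszul (fderiv ℝ G z) u v)) U
    refine hinv.clm_apply ?_
    rw [continuousOn_clm_apply]
    intro w
    simp only [R3a_koszul_apply]
    have h3 : ∀ a b c : E, ContinuousOn (fun z => fderiv ℝ G z a b c) U := fun a b c =>
      ((hc.clm_apply continuousOn_const).clm_apply continuousOn_const).clm_apply
        continuousOn_const
    exact (((h3 u v w).add (h3 v u w)).sub (h3 w u v)).div_const 2
  obtain ⟨e, he⟩ := R3a_isInvertible (hp z hz)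
  have hker : ∀ a b : E, (∀ w, G z a w = G z b w) → a = b := fun a b h => by
    apply e.injective
    ext w
    have := h w
    rw [← he] at this
    exact this
  have hD := R3a_fderiv (hd z hz)
  have hk' := hk z hz
  simp only [hD] at hk' ⊢
  have hsym : ∀ u v w, fderiv ℝ G z u v w = fderiv ℝ G z u w v := fun u v w => by
    rw [← hD, ← hD]
    congr 1
    exact Filter.EventuallyEq.fderiv_eq
      (Filter.eventually_of_mem (hU.mem_nhds hz) fun y hy => hs y hy v w)
  have hI : ∀ u v w, fderiv ℝ G z u (I • v) (I • w) = fderiv ℝ G z u v w := fun u v w => by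
    rw [← hD, ← hD]
    congr 1
    exact Filter.EventuallyEq.fderiv_eq
      (Filter.eventually_of_mem (hU.mem_nhds hz) fun y hy => hh y hy v w)
  have hII : ∀ v : E, I • I • v = -v := fun v => by rw [smul_smul, I_mul_I, neg_one_smul]
  have hI' : ∀ u v w, fderiv ℝ G z u (I • v) w = -fderiv ℝ G z u v (I • w) := fun u v w => by
    have := hI u v (I • w)
    rw [hII, map_neg] at this
    linarith
  have hG' : ∀ v w, G z (I • v) w = -G z v (I • w) := fun v w => by
    have := hh z hz v (I • w)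
    rw [hII, map_neg] at this
    linarith
  have hΓ : ∀ u v w, G z (((ContinuousLinearMap.compL ℝ E (E →L[ℝ] ℝ) E (G z).inverse).comp
      (R3a_koszul (fderiv ℝ G z))) u v) w =
      (fderiv ℝ G z u v w + fderiv ℝ G z v u w - fderiv ℝ G z w u v) / 2 := fun u v w => by
    rw [← R3a_koszul_apply]
    show G z ((G z).inverse (R3a_koszul (fderiv ℝ G z) u v)) w = _
    rw [← he, ContinuousLinearMap.inverse_equiv]
    simp
  generalize ((ContinuousLinearMap.compL ℝ E (E →L[ℝ] ℝ) E (G z).inverse).comp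
      (R3a_koszul (fderiv ℝ G z))) = Γ at hΓ ⊢
  generalize fderiv ℝ G z = D at hΓ hsym hI hI' hk' ⊢
  refine ⟨fun u v w => ?_, fun u v => hker _ _ fun w => ?_, fun u v => hker _ _ fun w => ?_,
    fun u v w => ?_⟩
  · rw [hΓ]; ring
  · rw [hΓ, hΓ, hsym w u v]; ring
  · rw [hG', hΓ, hΓ]
    have a1 := hk' u v w
    have a2 := hk' u (I • v) (I • w)
    rw [hII, hII, hI] at a2
    simp only [map_neg, neg_apply] at a2
    have a3 := hI' u v w
    have a4 := hI' w u v
    have a5 := hsym v (I • w) u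
    have a6 := hsym (I • v) w u
    linarith
  · rw [hs z hz v, hΓ, hΓ, hsym u w v]; ring

end Pool.Agent.MP_e62289_ag
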