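import Pool.Agent.MP_e62289_ag.R1
import Pool.Agent.MP_e62289_ag.R2
import Pool.Agent.MP_e62289_ag.R3

open Set Filter Topology Complex MeasureTheory Metric
open scoped Manifold ContDiff ComplexConjugate NNReal ENNReal

namespace Pool.Agent.MP_e62289_ag

open Bundle

variable {E : Type} [NormedAddCommGroup E] [NormedSpace ℂ E] [FiniteDimensional ℂ E]
  {B : Type} [EMetricSpace B] [ChartedSpace E B]
  [IsManifold 𝓘(ℝ, E) ∞ B] [RiemannianBundle fun x : B => TangentSpace 𝓘(ℝ, E) x]
  [IsContMDiffRiemannianBundle 𝓘(ℝ, E) ∞ E fun x : B => TangentSpace 𝓘(ℝ, E) x]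
  [IsRiemannianManifold 𝓘(ℝ, E) B]

theorem exists_kdata [CompleteSpace B] (h1 : IsKahler E B) (h2 : SecBounded E B)
    (h3 : DBounded E B) : ∃ k : KData E B, Nonempty (DData k) := by
  obtain ⟨G, hG, hsm, hpos⟩ := exists_G E B
  have hGf : ∀ x v w, (fun z => cm E x z v w) = fun z => G x z v w :=
    fun x v w => funext fun z => (hG x z v w).symm
  have hs : ∀ x z v w, G x z v w = G x z w v := fun x z v w => by
    rw [hG, hG, cm, cm, real_inner_comm]
  have hh : ∀ x, ∀ z ∈ (chartAt E x).target, ∀ v w, G x z (I • v) (I • w) = G x z v w :=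
    fun x z hz v w => by rw [hG, hG]; exact (h1 x z hz).1 v w
  have hk : ∀ x, ∀ z ∈ (chartAt E x).target, ∀ u v w,
      fderiv ℝ (fun z => G x z (I • v) w) z u + fderiv ℝ (fun z => G x z (I • w) u) z v +
        fderiv ℝ (fun z => G x z (I • u) v) z w = 0 := fun x z hz u v w => by
    rw [← hGf, ← hGf, ← hGf]; exact (h1 x z hz).2 u v w
  choose Γ hΓc hΓ using fun x => exists_christoffel (chartAt E x).open_target (hsm x)
    (fun z _ => hs x z) (hpos x) (hh x) (hk x)
  obtain ⟨K, hK⟩ := h2
  have hc : ∀ x, ∀ z ∈ (chartAt E x).target, ∀ u v, IsChristoffel E x z u v (Γ x z u v) :=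
    fun x z hz u v w => by
      rw [hGf, hGf, hGf, ← hG]; exact (hΓ x z hz).1 u v w
  have hcs : ∀ x z u v, G x z u v ^ 2 ≤ G x z u u * G x z v v := fun x z u v => by
    rw [hG, hG, hG, cm, cm, cm, sq]; exact real_inner_mul_inner_self_le _ _
  have hsec : ∀ x, ∀ z ∈ (chartAt E x).target, ∀ u v,
      |secNum (G x) (Γ x) z u v| ≤ |K| * (G x z u u * G x z v v) := fun x z hz u v => by
    have h := hK x z hz u v _ _ _ (hc x z hz u v) (hc x z hz u u) (hc x z hz v v)
    simp only [← hG] at h
    refine le_trans h ?_
    have h0 := hcs x z u v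
    have h4 := sq_nonneg (G x z u v)
    calc K * (G x z u u * G x z v v - G x z u v ^ 2)
        ≤ |K| * (G x z u u * G x z v v - G x z u v ^ 2) :=
          mul_le_mul_of_nonneg_right (le_abs_self K) (by linarith)
      _ ≤ _ := mul_le_mul_of_nonneg_left (by linarith) (abs_nonneg K)
  obtain ⟨α, C, hb, hα⟩ := h3
  refine ⟨{ G := G
            Γ := Γ
            K := 2 * |K|
            K_nonneg := by positivity
            smooth := hsm
            symm := fun x z _ => hs x z
            pos := hpos
            herm := hh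
            compat := fun x y q hq v w => by rw [hG, hG]; exact cm_compat hq.1 hq.2 v w
            Γ_cont := hΓc
            Γ_symm := fun x z hz => (hΓ x z hz).2.1
            Γ_I := fun x z hz => (hΓ x z hz).2.2.1
            metric := fun x z hz => (hΓ x z hz).2.2.2
            bisec := fun x z hz V X => ?_
            length := fun x c c' hc hd hm => by
              simp only [hG]; exact cm_length x c c' hc hd hm
            compact := hopf_rinow E
            lower := chart_lower E }, ⟨?_⟩⟩
  · rw [bisec_eq (chartAt E x).open_target (hsm x) (fun z _ => hs x z) (hh x)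
      (fun z hz => (hΓ x z hz).2.1) (fun z hz => (hΓ x z hz).2.2.1)
      (fun z hz => (hΓ x z hz).2.2.2) hz V X]
    have a1 := hsec x z hz V X
    have a2 := hsec x z hz V (I • X)
    rw [hh x z hz X X] at a2
    refine (abs_add_le _ _).trans ?_
    linarith
  · let β : B → E → E →L[ℝ] ℝ := fun x z =>
      (α _).comp (mfderiv 𝓘(ℝ, E) 𝓘(ℝ, E) (chartAt E x).symm z)
    have hβ : ∀ x z v, β x z v = α _ (tv E x z v) := fun _ _ _ => rfl
    have hsβ : ∀ x, ContDiffOn ℝ 1 (β x) (chartAt E x).target := fun x =>
      contDiffOn_clm_apply.2 (hα x).1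
    have hd : ∀ x, ∀ z ∈ (chartAt E x).target, ∀ v w,
        fderiv ℝ (β x) z v w = fderiv ℝ (fun z => α _ (tv E x z w)) z v := fun x z hz v w => by
      have h5 : DifferentiableAt ℝ (β x) z :=
        ((hsβ x).contDiffAt ((chartAt E x).open_target.mem_nhds hz)).differentiableAt one_ne_zero
      have h6 := fderiv_clm_apply h5 (differentiableAt_const w)
      change _ = fderiv ℝ (fun z => β x z w) z v
      rw [h6]
      simp
    refine
      { α := β
        C := C
        smooth := hsβ
        compat := fun x y q hq v => ?_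
        bound := fun x z _ v => ?_
        d := fun x z hz v w => ?_ }
    · rw [hβ, hβ]
      have key : ∀ (p p' : B) (a b : E), p = p' → a = b → α p a = α p' b := by
        rintro p _ a _ rfl rfl
        rfl
      exact key _ _ _ _ (((chartAt E y).left_inv hq.2).trans ((chartAt E x).left_inv hq.1).symm)
        (tv_compat hq.1 hq.2 v)
    · rw [hβ]
      change _ ≤ C * √(G x z v v)
      rw [hG, cm, ← norm_eq_sqrt_real_inner]
      exact hb _ _
    · rw [hd x z hz, hd x z hz]
      change _ = G x z (I • v) w
      rw [hG]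
      exact (hα x).2 z hz v w

end Pool.Agent.MP_e62289_ag
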