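import Pool.Agent.MP_e62289_ag.KDefs

open Set Filter Topology Complex MeasureTheory Metric
open scoped Manifold ContDiff ComplexConjugate NNReal ENNReal

namespace Pool.Agent.MP_e62289_ag

theorem S1b_cs {h : ℝ → ℝ} (hc : ContinuousOn h (Icc 0 1)) (h0 : ∀ s ∈ Icc (0 : ℝ) 1, 0 ≤ h s) :
    ∫ s in (0 : ℝ)..1, √(h s) ≤ √(∫ s in (0 : ℝ)..1, h s) := by
  have e : uIcc (0 : ℝ) 1 = Icc 0 1 := uIcc_of_le zero_le_one
  have i1 : IntervalIntegrable h volume 0 1 := (e ▸ hc).intervalIntegrable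
  have i2 : IntervalIntegrable (fun s => √(h s)) volume 0 1 := (e ▸ hc.sqrt).intervalIntegrable
  set a := ∫ s in (0 : ℝ)..1, √(h s) with ha
  refine Real.le_sqrt_of_sq_le ?_
  have h1 : ∫ s in (0 : ℝ)..1, (2 * a * √(h s) - a ^ 2) ≤ ∫ s in (0 : ℝ)..1, h s := by
    refine intervalIntegral.integral_mono_on zero_le_one
      ((i2.const_mul _).sub intervalIntegrable_const) i1 fun s hs => ?_
    have := Real.sq_sqrt (h0 s hs)
    nlinarith [sq_nonneg (√(h s) - a)]
  rw [intervalIntegral.integral_sub (i2.const_mul _) intervalIntegrable_const,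
    intervalIntegral.integral_const_mul, ← ha, intervalIntegral.integral_const] at h1
  simp only [sub_zero, smul_eq_mul, one_mul] at h1
  nlinarith

variable {E : Type} [NormedAddCommGroup E] [NormedSpace ℂ E] [FiniteDimensional ℂ E]
  {B : Type} [EMetricSpace B] [ChartedSpace E B]

omit [FiniteDimensional ℂ E] in
theorem S1b_nonneg (k : KData E B) {x : B} {z : E} (hz : z ∈ (chartAt E x).target) (v : E) :
    0 ≤ k.G x z v v := by
  rcases eq_or_ne v 0 with rfl | hv
  · simp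
  · exact (k.pos x z hz v hv).le

omit [FiniteDimensional ℂ E] in
theorem S1b_cont (k : KData E B) {n : ℕ} {p : B} (γ : Chain E n p) {j : ℕ} (hj : j < n) :
    ContinuousOn (fun t => k.G (γ.x j) (γ.c j t) (γ.c' j t) (γ.c' j t)) (Icc 0 1) := by
  have h1 : ContinuousOn (γ.c j) (Icc 0 1) := fun t ht => (γ.der j hj t ht).continuousWithinAt
  have h2 : ContinuousOn (fun t => k.G (γ.x j) (γ.c j t)) (Icc 0 1) :=
    (k.smooth (γ.x j)).continuousOn.comp h1 (γ.maps j hj)
  exact (h2.clm_apply (γ.cont j hj)).clm_apply (γ.cont j hj)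

omit [FiniteDimensional ℂ E] in
theorem Chain.seg_nonneg (k : KData E B) {n : ℕ} {p : B} (γ : Chain E n p) {j : ℕ} (hj : j < n) :
    0 ≤ γ.seg k j :=
  intervalIntegral.integral_nonneg zero_le_one fun _ ht => S1b_nonneg k (γ.maps j hj ht) _

omit [FiniteDimensional ℂ E] in
/-- points on one arc are close -/
theorem Chain.edist_seg (k : KData E B) {n : ℕ} {p : B} (γ : Chain E n p) {j : ℕ} (hj : j < n)
    {t : ℝ} (ht : t ∈ Icc (0 : ℝ) 1) :
    edist (γ.q j) ((chartAt E (γ.x j)).symm (γ.c j t)) ≤ ENNReal.ofReal √(γ.seg k j) := by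
  have hm : MapsTo (fun s => t * s) (Icc (0 : ℝ) 1) (Icc (0 : ℝ) 1) := fun s hs =>
    ⟨mul_nonneg ht.1 hs.1, mul_le_one₀ ht.2 hs.1 hs.2⟩
  have hmc : ContinuousOn (fun s : ℝ => t * s) (Icc (0 : ℝ) 1) := by fun_prop
  have h := k.length (γ.x j) (fun s => γ.c j (t * s)) (fun s => t • γ.c' j (t * s))
    (((γ.cont j hj).comp hmc hm).const_smul t)
    (fun s hs => by
      have h1 : HasDerivWithinAt (fun s : ℝ => t * s) t (Icc 0 1) s := by
        simpa using ((hasDerivAt_id s).const_mul t).hasDerivWithinAt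
      exact (γ.der j hj _ (hm hs)).scomp s h1 hm)
    (fun s hs => γ.maps j hj (hm hs))
  simp only [mul_zero, mul_one] at h
  rw [γ.left j hj] at h
  refine h.trans (ENNReal.ofReal_le_ofReal ?_)
  set g : ℝ → ℝ := fun t => k.G (γ.x j) (γ.c j t) (γ.c' j t) (γ.c' j t) with hg
  have gc : ContinuousOn g (Icc 0 1) := S1b_cont k γ hj
  have g0 : ∀ s ∈ Icc (0 : ℝ) 1, 0 ≤ g s := fun s hs => S1b_nonneg k (γ.maps j hj hs) _
  have e1 : ∀ s, k.G (γ.x j) (γ.c j (t * s)) (t • γ.c' j (t * s)) (t • γ.c' j (t * s)) =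
      t * (t * g (t * s)) := fun s => by
    simp only [map_smul, smul_apply, smul_eq_mul, hg]
  simp only [e1]
  refine (S1b_cs (h := fun s => t * (t * g (t * s))) (continuousOn_const.mul (continuousOn_const.mul (gc.comp hmc hm)))
    fun s hs => mul_nonneg ht.1 (mul_nonneg ht.1 (g0 _ (hm hs)))).trans (Real.sqrt_le_sqrt ?_)
  rw [intervalIntegral.integral_const_mul, intervalIntegral.integral_const_mul,
    intervalIntegral.mul_integral_comp_mul_left (f := g), mul_zero, mul_one]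
  have i1 : IntervalIntegrable g volume 0 1 :=
    ((uIcc_of_le (zero_le_one' ℝ)).symm ▸ gc).intervalIntegrable
  have a1 : ∫ s in (0 : ℝ)..t, g s ≤ ∫ s in (0 : ℝ)..1, g s :=
    intervalIntegral.integral_mono_interval le_rfl ht.1 ht.2
      ((ae_restrict_mem measurableSet_Ioc).mono fun s hs => g0 s (Ioc_subset_Icc_self hs)) i1
  have a2 : 0 ≤ ∫ s in (0 : ℝ)..t, g s :=
    intervalIntegral.integral_nonneg ht.1 fun s hs => g0 s ⟨hs.1, hs.2.trans ht.2⟩
  exact (mul_le_of_le_one_left a2 ht.2).trans a1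

omit [FiniteDimensional ℂ E] in
theorem Chain.sum_sqrt_le (k : KData E B) {n : ℕ} {p : B} (γ : Chain E n p) {j : ℕ} (hj : j ≤ n) :
    ∑ i ∈ Finset.range j, √(γ.seg k i) ≤ √(γ.energy k) := by
  refine (Finset.sum_le_sum_of_subset_of_nonneg (Finset.range_subset_range.2 hj)
    fun i _ _ => Real.sqrt_nonneg _).trans (Real.le_sqrt_of_sq_le ?_)
  refine sq_sum_le_card_mul_sum_sq.trans (le_of_eq ?_)
  rw [Finset.card_range, Chain.energy]
  congr 1
  exact Finset.sum_congr rfl fun i hi => Real.sq_sqrt (γ.seg_nonneg k (Finset.mem_range.1 hi))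

omit [FiniteDimensional ℂ E] in
theorem Chain.edist_le (k : KData E B) {n : ℕ} {p : B} (γ : Chain E n p) {j : ℕ} (hj : j ≤ n) :
    edist p (γ.q j) ≤ ENNReal.ofReal √(γ.energy k) := by
  refine le_trans ?_ (ENNReal.ofReal_le_ofReal (γ.sum_sqrt_le k hj))
  induction j with
  | zero => simp [γ.q0]
  | succ j ih =>
    have h := γ.edist_seg k (j := j) hj (t := 1) ⟨zero_le_one, le_rfl⟩
    rw [γ.right j hj] at h
    rw [Finset.sum_range_succ, ENNReal.ofReal_add
      (Finset.sum_nonneg fun i _ => Real.sqrt_nonneg _) (Real.sqrt_nonneg _)]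
    exact (edist_triangle _ _ _).trans (add_le_add (ih (Nat.le_of_succ_le hj)) h)

end Pool.Agent.MP_e62289_ag
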