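import Pool.Agent.MP_e62289_ag.KDefs

open Set Filter Topology Complex MeasureTheory Metric
open scoped Manifold ContDiff ComplexConjugate NNReal ENNReal

namespace Pool.Agent.MP_e62289_ag

/-- a cut-off factor -/
noncomputable def S1a_cut (R s : ℝ) : ℝ := max 0 (min 1 (R + 1 - s))

theorem S1a_cut_nonneg (R s : ℝ) : 0 ≤ S1a_cut R s := le_max_left _ _

theorem S1a_cut_le_one (R s : ℝ) : S1a_cut R s ≤ 1 := max_le zero_le_one (min_le_left _ _)

theorem S1a_cut_one {R s : ℝ} (h : s ≤ R) : S1a_cut R s = 1 := by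
  unfold S1a_cut
  rw [min_eq_left (by linarith), max_eq_right zero_le_one]

theorem S1a_cut_mul {R s : ℝ} (hR : 0 ≤ R) : S1a_cut R s * s ≤ R + 1 := by
  rcases le_total s (R + 1) with h | h
  · rcases le_total 0 s with h0 | h0
    · nlinarith [S1a_cut_nonneg R s, S1a_cut_le_one R s]
    · nlinarith [S1a_cut_nonneg R s, S1a_cut_le_one R s]
  · have : S1a_cut R s = 0 := by
      unfold S1a_cut
      exact max_eq_left ((min_le_right _ _).trans (by linarith))
    rw [this]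
    linarith

theorem S1a_cut_lip (R s t : ℝ) : |S1a_cut R s - S1a_cut R t| ≤ |s - t| := by
  unfold S1a_cut
  have h1 : |max 0 (min 1 (R + 1 - s)) - max 0 (min 1 (R + 1 - t))| ≤
      max |(0 : ℝ) - 0| |min 1 (R + 1 - s) - min 1 (R + 1 - t)| := abs_max_sub_max_le_max _ _ _ _
  have h2 : |min 1 (R + 1 - s) - min 1 (R + 1 - t)| ≤
      max |(1 : ℝ) - 1| |(R + 1 - s) - (R + 1 - t)| := abs_min_sub_min_le_max _ _ _ _
  have h3 : |(R + 1 - s) - (R + 1 - t)| = |s - t| := by
    rw [abs_sub_comm s t]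
    congr 1
    ring
  rw [h3] at h2
  simp only [sub_self, abs_zero] at h1 h2
  exact h1.trans (max_le (abs_nonneg _) (h2.trans (max_le (abs_nonneg _) le_rfl)))

/-- linear ordinary differential equations with continuous coefficients -/
theorem lin_ode {F : Type} [NormedAddCommGroup F] [NormedSpace ℝ F] [CompleteSpace F]
    {A : ℝ → F →L[ℝ] F} {b : ℝ → F} (hA : ContinuousOn A (Icc 0 1)) (hb : ContinuousOn b (Icc 0 1))
    (v : F) : ∃ V : ℝ → F, V 0 = v ∧
      ∀ t ∈ Icc (0 : ℝ) 1, HasDerivWithinAt V (b t - A t (V t)) (Icc 0 1) t := by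
  obtain ⟨M, hM⟩ := (isCompact_Icc (a := (0 : ℝ)) (b := 1)).exists_bound_of_continuousOn hA
  obtain ⟨N, hN⟩ := (isCompact_Icc (a := (0 : ℝ)) (b := 1)).exists_bound_of_continuousOn hb
  have hM0 : 0 ≤ M := (norm_nonneg _).trans (hM 0 ⟨le_rfl, zero_le_one⟩)
  have hN0 : 0 ≤ N := (norm_nonneg _).trans (hN 0 ⟨le_rfl, zero_le_one⟩)
  set R := gronwallBound ‖v‖ M N 1 with hR
  have hR0 : 0 ≤ R := by
    have := gronwallBound_mono (norm_nonneg v) hN0 hM0 (zero_le_one (α := ℝ))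
    rw [gronwallBound_x0] at this
    exact (norm_nonneg v).trans this
  let ρ : F → F := fun x => S1a_cut R ‖x‖ • x
  have hρ1 : ∀ x, ‖ρ x‖ ≤ ‖x‖ := fun x => by
    rw [norm_smul, Real.norm_of_nonneg (S1a_cut_nonneg _ _)]
    exact mul_le_of_le_one_left (norm_nonneg _) (S1a_cut_le_one _ _)
  have hρ2 : ∀ x, ‖ρ x‖ ≤ R + 1 := fun x => by
    rw [norm_smul, Real.norm_of_nonneg (S1a_cut_nonneg _ _)]
    exact S1a_cut_mul hR0
  have hlin : ∀ t ∈ Icc (0 : ℝ) 1, ∀ x, ‖b t - A t x‖ ≤ M * ‖x‖ + N := fun t ht x => by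
    have h1 := norm_sub_le (b t) (A t x)
    have h2 := (A t).le_opNorm x
    have h3 := mul_le_mul_of_nonneg_right (hM t ht) (norm_nonneg x)
    linarith [hN t ht]
  let L : ℝ≥0 := ⟨M * (R + 1) + N, by positivity⟩
  let K : ℝ≥0 := ⟨M * (1 + (‖v‖ + L)), by positivity⟩
  have hpl : IsPicardLindelof (fun t x => b t - A t (ρ x)) (tmin := 0) (tmax := 1)
      ⟨0, le_rfl, zero_le_one⟩ v L 0 L K :=
    { lipschitzOnWith := fun t ht => LipschitzOnWith.of_dist_le_mul fun x _ y hy => by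
        have hy' : ‖y‖ ≤ ‖v‖ + L := by
          have h1 := norm_le_norm_add_norm_sub' y v
          rw [mem_closedBall, dist_eq_norm] at hy
          linarith
        have h1 : ρ x - ρ y = S1a_cut R ‖x‖ • (x - y) + (S1a_cut R ‖x‖ - S1a_cut R ‖y‖) • y := by
          simp only [ρ, smul_sub, sub_smul]
          abel
        have h2 : ‖ρ x - ρ y‖ ≤ (1 + (‖v‖ + L)) * ‖x - y‖ := by
          rw [h1]
          refine (norm_add_le _ _).trans ?_
          rw [norm_smul, norm_smul, Real.norm_of_nonneg (S1a_cut_nonneg _ _), Real.norm_eq_abs]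
          have h3 := (S1a_cut_lip R ‖x‖ ‖y‖).trans (abs_norm_sub_norm_le x y)
          have h4 := mul_le_mul h3 hy' (norm_nonneg _) (norm_nonneg _)
          have h5 := mul_le_mul_of_nonneg_right (S1a_cut_le_one R ‖x‖) (norm_nonneg (x - y))
          linarith
        rw [dist_eq_norm, dist_eq_norm]
        have h6 : b t - A t (ρ x) - (b t - A t (ρ y)) = -(A t (ρ x - ρ y)) := by
          rw [map_sub]
          abel
        rw [h6, norm_neg]
        refine ((A t).le_opNorm _).trans ?_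
        change _ ≤ M * (1 + (‖v‖ + L)) * ‖x - y‖
        rw [mul_assoc]
        exact mul_le_mul (hM t ht) h2 (norm_nonneg _) hM0
      continuousOn := fun x _ => hb.sub (hA.clm_apply continuousOn_const)
      norm_le := fun t ht x _ => (hlin t ht _).trans (by
        change _ ≤ M * (R + 1) + N
        gcongr
        exact hρ2 x)
      mul_max_le := by simp }
  obtain ⟨V, h0, hV⟩ := hpl.exists_eq_forall_mem_Icc_hasDerivWithinAt₀
  have h0' : V 0 = v := h0
  refine ⟨V, h0', fun t ht => ?_⟩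
  have hcont : ContinuousOn V (Icc 0 1) := fun s hs => (hV s hs).continuousWithinAt
  have h1 := norm_le_gronwallBound_of_norm_deriv_right_le (δ := ‖v‖) (K := M) (ε := N) hcont
    (f' := fun s => b s - A s (ρ (V s)))
    (fun s hs => (hV s (Ico_subset_Icc_self hs)).mono_of_mem_nhdsWithin
      (Icc_mem_nhdsGE_of_mem hs)) (le_of_eq (congrArg _ h0'))
    (fun s hs => (hlin s (Ico_subset_Icc_self hs) _).trans (by gcongr; exact hρ1 _)) t ht
  have h2 : ‖V t‖ ≤ R :=
    h1.trans (gronwallBound_mono (norm_nonneg v) hN0 hM0 (by linarith [ht.2]))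
  have h3 : ρ (V t) = V t := by
    simp only [ρ, S1a_cut_one h2, one_smul]
  have h4 := hV t ht
  rwa [h3] at h4

theorem S1a_cs {F : Type} [NormedAddCommGroup F] [NormedSpace ℝ F] (G : F →L[ℝ] F →L[ℝ] ℝ)
    (hs : ∀ v w, G v w = G w v) (hp : ∀ v, 0 ≤ G v v) (v w : F) :
    G v w ≤ √(G v v) * √(G w w) := by
  have h : ∀ t : ℝ, 0 ≤ G v v * (t * t) + (2 * G v w) * t + G w w := fun t => by
    have h1 := hp (t • v + w)
    simp only [map_add, map_smul, add_apply, smul_apply,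
      smul_eq_mul, hs w v] at h1
    linarith
  have h2 := discrim_le_zero h
  rw [discrim] at h2
  rw [← Real.sqrt_mul (hp v)]
  refine (le_abs_self _).trans (Real.abs_le_sqrt ?_)
  nlinarith

theorem S1a_int_sqrt {f : ℝ → ℝ} (hf : ContinuousOn f (Icc 0 1)) (h0 : ∀ t ∈ Icc (0 : ℝ) 1, 0 ≤ f t) :
    ∫ s in (0 : ℝ)..1, √(f s) ≤ √(∫ s in (0 : ℝ)..1, f s) := by
  have hi : IntervalIntegrable f volume 0 1 :=
    ContinuousOn.intervalIntegrable (by rwa [uIcc_of_le zero_le_one])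
  have hi2 : IntervalIntegrable (fun s => √(f s)) volume 0 1 :=
    ContinuousOn.intervalIntegrable (by rw [uIcc_of_le zero_le_one]; exact hf.sqrt)
  set m := ∫ s in (0 : ℝ)..1, √(f s) with hm
  have h1 : ∫ s in (0 : ℝ)..1, (2 * m * √(f s) - m ^ 2) ≤ ∫ s in (0 : ℝ)..1, f s := by
    refine intervalIntegral.integral_mono_on zero_le_one
      ((hi2.const_mul _).sub intervalIntegrable_const) hi fun s hs => ?_
    have := Real.sq_sqrt (h0 s hs)
    nlinarith [sq_nonneg (√(f s) - m)]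
  rw [intervalIntegral.integral_sub (hi2.const_mul _) intervalIntegrable_const,
    intervalIntegral.integral_const_mul, intervalIntegral.integral_const, ← hm] at h1
  refine (le_abs_self _).trans (Real.abs_le_sqrt ?_)
  simp only [sub_zero, smul_eq_mul, one_mul] at h1
  nlinarith

variable {E : Type} [NormedAddCommGroup E] [NormedSpace ℂ E] [FiniteDimensional ℂ E]
  {B : Type} [EMetricSpace B] [ChartedSpace E B]

omit [FiniteDimensional ℂ E] in
theorem S1a_nonneg (k : KData E B) (x : B) {z : E} (hz : z ∈ (chartAt E x).target) (v : E) :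
    0 ≤ k.G x z v v := by
  by_cases h : v = 0
  · simp [h]
  · exact (k.pos x z hz v h).le

omit [FiniteDimensional ℂ E] in
theorem S1a_deriv (k : KData E B) (x : B) {c V : ℝ → E} {c' : E} {s : Set ℝ} {t : ℝ}
    (hd : HasDerivWithinAt c c' s t) (hm : c t ∈ (chartAt E x).target)
    (hV : HasDerivWithinAt V (c' - k.Γ x (c t) c' (V t)) s t) :
    HasDerivWithinAt (fun u => k.G x (c u) (V u) (V u)) (2 * k.G x (c t) c' (V t)) s t := by
  have hG : DifferentiableAt ℝ (k.G x) (c t) :=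
    ((k.smooth x).contDiffAt ((chartAt E x).open_target.mem_nhds hm)).differentiableAt (by simp)
  have h1 : HasDerivWithinAt (fun u => k.G x (c u)) (fderiv ℝ (k.G x) (c t) c') s t :=
    HasFDerivAt.comp_hasDerivWithinAt (𝕜 := ℝ) (F := E) (E := E →L[ℝ] E →L[ℝ] ℝ) (l := k.G x) t
      hG.hasFDerivAt hd
  have h2 := (h1.clm_apply hV).clm_apply hV
  have h3 : fderiv ℝ (fun z => k.G x z (V t) (V t)) (c t) c' =
      fderiv ℝ (k.G x) (c t) c' (V t) (V t) := by
    have h4 := ((hG.hasFDerivAt.clm_apply (hasFDerivAt_const (V t) (c t))).clm_apply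
      (hasFDerivAt_const (V t) (c t))).fderiv
    rw [h4]
    simp
  have h5 := k.metric x (c t) hm c' (V t) (V t)
  rw [h3] at h5
  refine h2.congr_deriv ?_
  simp only [add_apply, map_sub, sub_apply, h5]
  rw [k.symm x (c t) hm (V t) c']
  ring

/-- growth of a field with covariant derivative `c'` -/
theorem field_norm (k : KData E B) (x : B) {c c' V : ℝ → E} (hc : ContinuousOn c' (Icc 0 1))
    (hd : ∀ t ∈ Icc (0 : ℝ) 1, HasDerivWithinAt c (c' t) (Icc 0 1) t)
    (hm : MapsTo c (Icc 0 1) (chartAt E x).target)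
    (hV : ∀ t ∈ Icc (0 : ℝ) 1,
      HasDerivWithinAt V (c' t - k.Γ x (c t) (c' t) (V t)) (Icc 0 1) t) :
    ∀ t ∈ Icc (0 : ℝ) 1, √(k.G x (c t) (V t) (V t)) ≤ √(k.G x (c 0) (V 0) (V 0)) +
      √(∫ s in (0 : ℝ)..1, k.G x (c s) (c' s) (c' s)) := by
  intro t ht
  set g : ℝ → ℝ := fun u => k.G x (c u) (V u) (V u) with hg
  set e : ℝ → ℝ := fun u => k.G x (c u) (c' u) (c' u) with he
  have hcc : ContinuousOn c (Icc 0 1) := fun s hs => (hd s hs).continuousWithinAt
  have hGc : ContinuousOn (fun u => k.G x (c u)) (Icc 0 1) :=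
    (k.smooth x).continuousOn.comp hcc hm
  have hec : ContinuousOn e (Icc 0 1) := (hGc.clm_apply hc).clm_apply hc
  have he0 : ∀ s ∈ Icc (0 : ℝ) 1, 0 ≤ e s := fun s hs => S1a_nonneg k x (hm hs) _
  have hg0 : ∀ s ∈ Icc (0 : ℝ) 1, 0 ≤ g s := fun s hs => S1a_nonneg k x (hm hs) _
  have hgd : ∀ s ∈ Icc (0 : ℝ) 1,
      HasDerivWithinAt g (2 * k.G x (c s) (c' s) (V s)) (Icc 0 1) s := fun s hs =>
    S1a_deriv k x (hd s hs) (hm hs) (hV s hs)
  have hsc : ContinuousOn (fun s => √(e s)) (Icc 0 1) := hec.sqrt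
  have hsub : Icc 0 t ⊆ Icc (0 : ℝ) 1 := Icc_subset_Icc le_rfl ht.2
  have hi1 : IntervalIntegrable (fun s => √(e s)) volume 0 1 :=
    ContinuousOn.intervalIntegrable (by rwa [uIcc_of_le zero_le_one])
  have hit : IntervalIntegrable (fun s => √(e s)) volume 0 t :=
    ContinuousOn.intervalIntegrable (by rw [uIcc_of_le ht.1]; exact hsc.mono hsub)
  have key : ∀ ε : ℝ, 0 < ε → √(g t + ε) - √(g 0 + ε) ≤ ∫ s in (0 : ℝ)..t, √(e s) := by
    intro ε hε
    have hpos : ∀ s ∈ Icc (0 : ℝ) 1, 0 < g s + ε := fun s hs => by linarith [hg0 s hs]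
    have hder : ∀ s ∈ Icc (0 : ℝ) 1, HasDerivWithinAt (fun u => √(g u + ε))
        (2 * k.G x (c s) (c' s) (V s) / (2 * √(g s + ε))) (Icc 0 1) s := fun s hs =>
      ((hgd s hs).add_const ε).sqrt (hpos s hs).ne'
    refine intervalIntegral.sub_le_integral_of_hasDeriv_right_of_le (g := fun u => √(g u + ε))
      (g' := fun s => 2 * k.G x (c s) (c' s) (V s) / (2 * √(g s + ε))) ht.1
      (fun s hs => ((hder s (hsub hs)).continuousWithinAt).mono hsub) (fun s hs => ?_)
      ((intervalIntegrable_iff_integrableOn_Icc_of_le ht.1).1 hit) (fun s hs => ?_)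
    · have hs1 : s ∈ Ioo (0 : ℝ) 1 := ⟨hs.1, hs.2.trans_le ht.2⟩
      exact ((hder s (Ioo_subset_Icc_self hs1)).hasDerivAt
        (Icc_mem_nhds hs1.1 hs1.2)).hasDerivWithinAt
    · have hs1 : s ∈ Icc (0 : ℝ) 1 := hsub (Ioo_subset_Icc_self hs)
      have h1 := S1a_cs (k.G x (c s)) (k.symm x _ (hm hs1)) (S1a_nonneg k x (hm hs1)) (c' s) (V s)
      have h2 : 0 < √(g s + ε) := Real.sqrt_pos.2 (hpos s hs1)
      have h3 : √(g s) ≤ √(g s + ε) := Real.sqrt_le_sqrt (by linarith)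
      rw [mul_div_mul_left _ _ two_ne_zero, div_le_iff₀ h2]
      exact h1.trans (mul_le_mul_of_nonneg_left h3 (Real.sqrt_nonneg _))
  have h1 : ∫ s in (0 : ℝ)..t, √(e s) ≤ ∫ s in (0 : ℝ)..1, √(e s) :=
    intervalIntegral.integral_mono_interval le_rfl ht.1 ht.2
      (Eventually.of_forall fun s => Real.sqrt_nonneg _) hi1
  have h2 := S1a_int_sqrt hec he0
  refine le_of_forall_pos_le_add fun δ hδ => ?_
  have h3 := key (δ ^ 2) (by positivity)
  have h4 : √(g t) ≤ √(g t + δ ^ 2) := Real.sqrt_le_sqrt (by nlinarith)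
  have h5 : √(g 0 + δ ^ 2) ≤ √(g 0) + δ := by
    have h6 := hg0 0 ⟨le_rfl, zero_le_one⟩
    refine Real.sqrt_le_iff.2 ⟨by positivity, ?_⟩
    nlinarith [Real.sq_sqrt h6, Real.sqrt_nonneg (g 0)]
  change √(g t) ≤ √(g 0) + √(∫ s in (0 : ℝ)..1, e s) + δ
  linarith

end Pool.Agent.MP_e62289_ag
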