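import Pool.Agent.MP_e62289_ag.S2a

open Set Filter Topology Complex MeasureTheory Metric
open scoped Manifold ContDiff ComplexConjugate NNReal ENNReal

namespace Pool.Agent.MP_e62289_ag

variable {E : Type} [NormedAddCommGroup E] [NormedSpace ℂ E] [FiniteDimensional ℂ E]
  {B : Type} [EMetricSpace B] [ChartedSpace E B]

theorem S2_num {M L Q t a b c d : ℝ} {l l' i j n : ℕ} (hM : 0 ≤ M) (hML : M ≤ L) (hL : 1 ≤ L)
    (hQ : 0 ≤ Q) (ht : 0 ≤ t) (ht1 : t ≤ 1) (hb0 : 0 ≤ b) (hc0 : 0 ≤ c) (hd0 : 0 ≤ d)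
    (ha0 : 0 ≤ a) (ha : a ≤ L * t ^ l) (hb : b ≤ L * t ^ l') (hc : c ≤ Q * t ^ i)
    (hd : d ≤ Q * t ^ j) (hn : n ≤ l + l' + i + j) :
    M * a * b * c * d ≤ L ^ 4 * Q ^ 2 * t ^ n := by
  have hL0 : 0 ≤ L := zero_le_one.trans hL
  calc M * a * b * c * d ≤ L * (L * t ^ l) * (L * t ^ l') * (Q * t ^ i) * (Q * t ^ j) := by
        gcongr
    _ = L ^ 3 * Q ^ 2 * t ^ (l + l' + i + j) := by ring
    _ ≤ L ^ 4 * Q ^ 2 * t ^ n := by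
        have h1 : L ^ 3 ≤ L ^ 4 := pow_le_pow_right₀ hL (by norm_num)
        have h2 : t ^ (l + l' + i + j) ≤ t ^ n := pow_le_pow_of_le_one ht ht1 hn
        gcongr

omit [FiniteDimensional ℂ E] in
/-- the remainder of the expansion -/
theorem S2_rem (g : E →L[ℝ] E →L[ℝ] ℝ) (D₁ : E →L[ℝ] E →L[ℝ] E →L[ℝ] ℝ)
    (D₂ : E → E → E →L[ℝ] E →L[ℝ] ℝ) {M L Q t F : ℝ} (hM : 0 ≤ M) (hML : M ≤ L) (hL : 1 ≤ L)
    (hQ : 0 ≤ Q) (ht : 0 ≤ t) (ht1 : t ≤ 1)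
    (gs : ∀ v w, g v w = g w v) (ds : ∀ s v w, D₁ s v w = D₁ s w v)
    (da : ∀ s s' s'', D₂ (s + s') s'' = D₂ s s'' + D₂ s' s'') (dc : ∀ s s', D₂ s s' = D₂ s' s)
    (b0 : ∀ X Y, |g X Y| ≤ M * ‖X‖ * ‖Y‖) (b1 : ∀ s X Y, |D₁ s X Y| ≤ M * ‖s‖ * ‖X‖ * ‖Y‖)
    (b2 : ∀ s s' X Y, |D₂ s s' X Y| ≤ M * ‖s‖ * ‖s'‖ * ‖X‖ * ‖Y‖)
    {X A₁ A₂ A₃ W Y A s₁ s₂ s₃ u s : E} (eW : W = A₂ + A₃) (eY : Y = A₁ + W) (eA : A = X + Y)
    (eu : u = s₂ + s₃) (es : s = s₁ + u)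
    (hX : ‖X‖ ≤ Q * t ^ 0) (hA₁ : ‖A₁‖ ≤ Q * t ^ 1) (hA₂ : ‖A₂‖ ≤ Q * t ^ 2)
    (hA₃ : ‖A₃‖ ≤ Q * t ^ 3) (hW : ‖W‖ ≤ Q * t ^ 2) (hY : ‖Y‖ ≤ Q * t ^ 1)
    (hA : ‖A‖ ≤ Q * t ^ 0) (hs₁ : ‖s₁‖ ≤ L * t ^ 1) (hs₂ : ‖s₂‖ ≤ L * t ^ 2)
    (hs₃ : ‖s₃‖ ≤ L * t ^ 3) (hu : ‖u‖ ≤ L * t ^ 2) (hs : ‖s‖ ≤ L * t ^ 1)
    (hF : |F - g A A - D₁ s A A - D₂ s s A A / 2| ≤ M * ‖s‖ ^ 3 * ‖A‖ * ‖A‖) :
    |F - (g X X + (2 * g X A₁ + D₁ s₁ X X)) -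
      (g A₁ A₁ + 2 * g X A₂ + 2 * D₁ s₁ X A₁ + D₁ s₂ X X + D₂ s₁ s₁ X X / 2)| ≤
      14 * (L ^ 4 * Q ^ 2 * t ^ 3) ∧
    |g A₁ A₁ + 2 * g X A₂ + 2 * D₁ s₁ X A₁ + D₁ s₂ X X + D₂ s₁ s₁ X X / 2| ≤
      7 * (L ^ 4 * Q ^ 2 * t ^ 2) := by
  have h1 : (1 : ℝ) ≤ L * t ^ 0 := by simpa using hL
  have H0 : ∀ (n : ℕ) {U V : E} {i j : ℕ}, ‖U‖ ≤ Q * t ^ i → ‖V‖ ≤ Q * t ^ j → n ≤ i + j →
      |g U V| ≤ L ^ 4 * Q ^ 2 * t ^ n := by
    intro n U V i j hU hV hn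
    have := S2_num (n := n) hM hML hL hQ ht ht1 zero_le_one (norm_nonneg U) (norm_nonneg V)
      zero_le_one h1 h1 hU hV (by omega)
    rw [mul_one, mul_one] at this
    exact (b0 U V).trans this
  have H1 : ∀ (n : ℕ) {p U V : E} {l i j : ℕ}, ‖p‖ ≤ L * t ^ l → ‖U‖ ≤ Q * t ^ i →
      ‖V‖ ≤ Q * t ^ j → n ≤ l + i + j → |D₁ p U V| ≤ L ^ 4 * Q ^ 2 * t ^ n := by
    intro n p U V l i j hp hU hV hn
    have := S2_num (n := n) hM hML hL hQ ht ht1 zero_le_one (norm_nonneg U) (norm_nonneg V)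
      (norm_nonneg p) hp h1 hU hV (by omega)
    rw [mul_one] at this
    exact (b1 p U V).trans this
  have H2 : ∀ (n : ℕ) {p q U V : E} {l l' i j : ℕ}, ‖p‖ ≤ L * t ^ l → ‖q‖ ≤ L * t ^ l' →
      ‖U‖ ≤ Q * t ^ i → ‖V‖ ≤ Q * t ^ j → n ≤ l + l' + i + j →
      |D₂ p q U V| ≤ L ^ 4 * Q ^ 2 * t ^ n := fun n p q U V l l' i j hp hq hU hV hn =>
    (b2 p q U V).trans (S2_num hM hML hL hQ ht ht1 (norm_nonneg q) (norm_nonneg U)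
      (norm_nonneg V) (norm_nonneg p) hp hq hU hV hn)
  have hL0 : 0 ≤ L := zero_le_one.trans hL
  have H3 : M * ‖s‖ ^ 3 * ‖A‖ * ‖A‖ ≤ L ^ 4 * Q ^ 2 * t ^ 3 :=
    calc M * ‖s‖ ^ 3 * ‖A‖ * ‖A‖ ≤ L * (L * t ^ 1) ^ 3 * (Q * t ^ 0) * (Q * t ^ 0) := by gcongr
      _ = L ^ 4 * Q ^ 2 * t ^ 3 := by ring
  have tel : ∀ b : E →L[ℝ] E →L[ℝ] ℝ, b A A = b X X + b Y X + b A Y := by
    intro b
    have e1 : b A A = b A X + b A Y := by rw [← map_add, ← eA]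
    have e2 : b A X = b X X + b Y X := by rw [eA, map_add, ContinuousLinearMap.add_apply]
    rw [e1, e2]
  have tel2 : ∀ b : E →L[ℝ] E →L[ℝ] ℝ, (∀ v w, b v w = b w v) →
      b A A = b X X + 2 * (b X A₁ + b X W) + b Y Y := by
    intro b hb
    have e2 : b A Y = b X Y + b Y Y := by rw [eA, map_add, ContinuousLinearMap.add_apply]
    have e3 : b X Y = b X A₁ + b X W := by rw [eY, map_add]
    rw [tel b, e2, hb Y X, e3]
    ring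
  have e1 : g A A = g X X + 2 * (g X A₁ + (g X A₂ + g X A₃)) +
      (g A₁ A₁ + 2 * g A₁ W + g W W) := by
    have e2 : g X W = g X A₂ + g X A₃ := by rw [eW, map_add]
    have e3 : g Y Y = g A₁ A₁ + 2 * g A₁ W + g W W := by
      rw [eY]
      simp only [map_add, ContinuousLinearMap.add_apply]
      rw [gs W A₁]
      ring
    rw [tel2 g gs, e2, e3]
  have e2 : D₁ s A A = D₁ s₁ X X + 2 * (D₁ s₁ X A₁ + D₁ s₁ X W) + D₁ s₁ Y Y +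
      (D₁ s₂ X X + D₁ s₃ X X + D₁ u Y X + D₁ u A Y) := by
    have e3 : D₁ s A A = D₁ s₁ A A + D₁ u A A := by
      rw [es, map_add, ContinuousLinearMap.add_apply, ContinuousLinearMap.add_apply]
    have e4 : D₁ u X X = D₁ s₂ X X + D₁ s₃ X X := by
      rw [eu, map_add, ContinuousLinearMap.add_apply, ContinuousLinearMap.add_apply]
    rw [e3, tel2 (D₁ s₁) (ds s₁), tel (D₁ u), e4]
  have e3 : D₂ s s A A = D₂ s₁ s₁ X X + D₂ s₁ s₁ Y X + D₂ s₁ s₁ A Y + D₂ u s₁ A A +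
      D₂ u s A A := by
    have e4 : D₂ s s = D₂ s₁ s + D₂ u s := by rw [← da, ← es]
    have e5 : D₂ s₁ s = D₂ s₁ s₁ + D₂ u s₁ := by rw [dc s₁ s, ← da, ← es]
    rw [e4, e5]
    simp only [ContinuousLinearMap.add_apply]
    rw [tel (D₂ s₁ s₁)]
  constructor
  · have a0 := abs_le.1 (hF.trans H3)
    have a1 := abs_le.1 (H0 3 hX hA₃ le_rfl)
    have a2 := abs_le.1 (H0 3 hA₁ hW le_rfl)
    have a3 := abs_le.1 (H0 3 hW hW (by norm_num))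
    have a4 := abs_le.1 (H1 3 hs₁ hX hW le_rfl)
    have a5 := abs_le.1 (H1 3 hs₁ hY hY le_rfl)
    have a6 := abs_le.1 (H1 3 hs₃ hX hX le_rfl)
    have a7 := abs_le.1 (H1 3 hu hY hX le_rfl)
    have a8 := abs_le.1 (H1 3 hu hA hY le_rfl)
    have a9 := abs_le.1 (H2 3 hs₁ hs₁ hY hX le_rfl)
    have a10 := abs_le.1 (H2 3 hs₁ hs₁ hA hY le_rfl)
    have a11 := abs_le.1 (H2 3 hu hs₁ hA hA le_rfl)
    have a12 := abs_le.1 (H2 3 hu hs hA hA le_rfl)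
    rw [e1, e2, e3] at a0
    refine abs_le.2 ⟨?_, ?_⟩
    · linarith [a0.1, a1.1, a2.1, a3.1, a4.1, a5.1, a6.1, a7.1, a8.1, a9.1, a10.1, a11.1, a12.1]
    · linarith [a0.2, a1.2, a2.2, a3.2, a4.2, a5.2, a6.2, a7.2, a8.2, a9.2, a10.2, a11.2, a12.2]
  · have a1 := abs_le.1 (H0 2 hA₁ hA₁ le_rfl)
    have a2 := abs_le.1 (H0 2 hX hA₂ le_rfl)
    have a3 := abs_le.1 (H1 2 hs₁ hX hA₁ le_rfl)
    have a4 := abs_le.1 (H1 2 hs₂ hX hX le_rfl)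
    have a5 := abs_le.1 (H2 2 hs₁ hs₁ hX hX le_rfl)
    have a6 : 0 ≤ L ^ 4 * Q ^ 2 * t ^ 2 := by positivity
    refine abs_le.2 ⟨?_, ?_⟩
    · linarith [a1.1, a2.1, a3.1, a4.1, a5.1]
    · linarith [a1.2, a2.2, a3.2, a4.2, a5.2]

omit [FiniteDimensional ℂ E] in
theorem S2_smul (ξ : ℂ) (A : E) : ξ • A = ξ.re • A + ξ.im • (I • A) := by
  conv_lhs => rw [← Complex.re_add_im ξ]
  rw [add_smul, mul_smul, Complex.coe_smul, Complex.coe_smul]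

omit [FiniteDimensional ℂ E] in
theorem S2_anti {g : E →L[ℝ] E →L[ℝ] ℝ} (gh : ∀ v w, g (I • v) (I • w) = g v w) (A B : E) :
    g A (I • B) = -g (I • A) B := by
  rw [← gh A (I • B), smul_smul, I_mul_I, neg_one_smul, map_neg]

omit [FiniteDimensional ℂ E] in
theorem S2_herm {g : E →L[ℝ] E →L[ℝ] ℝ} (gh : ∀ v w, g (I • v) (I • w) = g v w) (ξ : ℂ)
    (A B : E) : g (ξ • A) (ξ • B) = ‖ξ‖ ^ 2 * g A B := by
  rw [S2_smul ξ A, S2_smul ξ B, Complex.sq_norm, normSq_apply]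
  simp only [map_add, map_smul, ContinuousLinearMap.add_apply, ContinuousLinearMap.smul_apply,
    smul_eq_mul]
  rw [gh, S2_anti gh A B]
  ring

omit [FiniteDimensional ℂ E] in
theorem S2_re {g : E →L[ℝ] E →L[ℝ] ℝ} (gh : ∀ v w, g (I • v) (I • w) = g v w)
    (gs : ∀ v w, g v w = g w v) (ξ : ℂ) (A : E) : g A (ξ • A) = ξ.re * g A A := by
  have h := S2_anti gh A A
  rw [gs (I • A) A] at h
  have h0 : g A (I • A) = 0 := by linarith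
  rw [S2_smul ξ A, map_add, map_smul, map_smul, h0]
  simp

omit [FiniteDimensional ℂ E] in
theorem S2_lin {Γ : E →L[ℝ] E →L[ℝ] E} (hI : ∀ u v, Γ u (I • v) = I • Γ u v) (ξ : ℂ)
    (u v : E) : Γ u (ξ • v) = ξ • Γ u v := by
  rw [S2_smul ξ v, map_add, map_smul, map_smul, hI, ← S2_smul]

omit [FiniteDimensional ℂ E] in
/-- the algebra of the first and second order terms -/
theorem S2_alg {g : E →L[ℝ] E →L[ℝ] ℝ} {Γ : E →L[ℝ] E →L[ℝ] E}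
    {D₁ : E →L[ℝ] E →L[ℝ] E →L[ℝ] ℝ} (gh : ∀ v w, g (I • v) (I • w) = g v w)
    (gs : ∀ v w, g v w = g w v) (hs : ∀ u v, Γ u v = Γ v u)
    (hI : ∀ u v, Γ u (I • v) = I • Γ u v) (hD : ∀ u v w, D₁ u v w = g (Γ u v) w + g v (Γ u w))
    (ξ : ℂ) (X V : E) :
    2 * g X (ξ • (X - Γ X V)) + D₁ (ξ • V) X X = 2 * ξ.re * g X X ∧
    g (ξ • (X - Γ X V)) (ξ • (X - Γ X V)) + 2 * D₁ (ξ • V) X (ξ • (X - Γ X V)) =
      ‖ξ‖ ^ 2 * (g X X - g (Γ X V) (Γ X V)) + 2 * g X (ξ ^ 2 • Γ V (X - Γ X V)) := by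
  have e1 : Γ (ξ • V) X = ξ • Γ X V := by rw [hs, S2_lin hI]
  constructor
  · rw [hD, e1, gs (ξ • Γ X V) X, smul_sub, map_sub, S2_re gh gs]
    ring
  · have e2 : Γ (ξ • V) (ξ • (X - Γ X V)) = ξ ^ 2 • Γ V (X - Γ X V) := by
      rw [S2_lin hI, hs, S2_lin hI, hs, smul_smul, sq]
    rw [hD, e1, e2, S2_herm gh, S2_herm gh]
    simp only [map_sub, ContinuousLinearMap.sub_apply]
    rw [gs (Γ X V) X]
    ring

/-- pointwise second variation: `X` is the velocity, `V` the field, `V'` its derivative, `R` the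
correction at the junction -/
theorem point_taylor (k : KData E B) {r M : ℝ} (hr : 0 < r) (hM : 0 < M) :
    ∃ C ρ : ℝ, 0 < C ∧ 0 < ρ ∧ ∀ (y : B) (z X V R₂ : E) (R : ℂ → E) (a : ℝ) (ζ : ℂ),
      k.Bd r M y z → ‖V‖ ≤ M → ‖R₂‖ ≤ M → a ∈ Icc (0 : ℝ) 1 → ‖ζ‖ ≤ ρ →
      (∀ ξ : ℂ, ‖ξ‖ = ‖ζ‖ → ‖R ξ - ξ ^ 2 • R₂‖ ≤ M * ‖ξ‖ ^ 3) →
      ∀ e : ℂ → ℝ, (∀ ξ, e ξ = k.G y (z + ξ • V + a • R ξ)
        (X + ξ • (X - k.Γ y z X V) - R ξ) (X + ξ • (X - k.Γ y z X V) - R ξ)) →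
      z + ζ • V + a • R ζ ∈ closedBall z r ∧
      |e ζ - (1 + 2 * ζ.re) * k.G y z X X| ≤ C * (1 + k.G y z X X) * ‖ζ‖ ^ 2 ∧
      e ζ + e (I * ζ) + e (-ζ) + e (-(I * ζ)) ≤ 4 * k.G y z X X +
        4 * ‖ζ‖ ^ 2 * (1 + k.K / 2 * k.G y z V V) * k.G y z X X +
        C * (1 + k.G y z X X) * ‖ζ‖ ^ 3 := by
  obtain ⟨L, hL⟩ : ∃ L : ℝ, L = 2 + 3 * M + M ^ 2 := ⟨_, rfl⟩
  have hM2 : 0 ≤ M ^ 2 := sq_nonneg M
  have hL1 : 1 ≤ L := by linarith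
  have hML : M ≤ L := by linarith
  have hL0 : 0 < L := by linarith
  refine ⟨112 * L ^ 7, min 1 (r / L), by positivity, by positivity, ?_⟩
  intro y z X V R₂ R a ζ hb hV hR₂ ha hζ hR e he
  have hz : z ∈ closedBall z r := mem_closedBall_self hr.le
  have hzt := hb.1 hz
  obtain ⟨D₁, D₂, hD1, hD2, da, dm, dc, b0, b1, b2⟩ := hb.exists_jet hr.le
  obtain ⟨hpos, -, hΓ⟩ := hb.2 z hz
  have gs := k.symm y z hzt
  have gh := k.herm y z hzt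
  have hs := k.Γ_symm y z hzt
  have hI := k.Γ_I y z hzt
  have hD : ∀ u v w, D₁ u v w = k.G y z (k.Γ y z u v) w + k.G y z v (k.Γ y z u w) :=
    fun u v w => by rw [← hD1, k.metric y z hzt]
  have ds : ∀ s v w, D₁ s v w = D₁ s w v := fun s v w => by
    rw [hD, hD, gs (k.Γ y z s v) w, gs v, add_comm]
  have hbis := k.bisec y z hzt (ζ • V) X
  rw [hD2, hD2] at hbis
  generalize hg : k.G y z = g at *
  generalize hG : k.Γ y z = Γ at *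
  obtain ⟨t, ht⟩ : ∃ t, t = ‖ζ‖ := ⟨_, rfl⟩
  rw [← ht] at hζ hR ⊢
  have ht0 : 0 ≤ t := ht ▸ norm_nonneg ζ
  have ht1 : t ≤ 1 := hζ.trans (min_le_left _ _)
  have htr : L * t ≤ r := by
    have := hζ.trans (min_le_right _ _)
    rwa [le_div_iff₀ hL0, mul_comm] at this
  have ht2 : t ^ 2 ≤ t := by nlinarith
  have ht3 : t ^ 3 ≤ t ^ 2 := pow_le_pow_of_le_one ht0 ht1 (by norm_num)
  have ht20 : 0 ≤ t ^ 2 := by positivity
  have ht30 : 0 ≤ t ^ 3 := by positivity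
  obtain ⟨x, hx⟩ : ∃ x, x = ‖X‖ := ⟨_, rfl⟩
  have hx0 : 0 ≤ x := hx ▸ norm_nonneg X
  have hgX : 0 ≤ g X X := by
    have := (sq_nonneg _).trans (hpos X)
    exact nonneg_of_mul_nonneg_right this hM |> fun h => h
  have hQ : 0 ≤ L * (1 + x) := by positivity
  have hLQ : L ≤ L * (1 + x) := by nlinarith
  have hV' : ‖X - Γ X V‖ ≤ (1 + M ^ 2) * x := by
    have h1 : ‖Γ X V‖ ≤ M * x * M := by
      refine (Γ.le_opNorm₂ X V).trans ?_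
      rw [← hx]
      gcongr
    have h2 := norm_sub_le X (Γ X V)
    rw [← hx] at h2
    nlinarith
  have hT : L ^ 4 * (L * (1 + x)) ^ 2 ≤ 2 * L ^ 7 * (1 + g X X) := by
    have h1 := hpos X
    rw [← hx] at h1
    have h2 : (1 + x) ^ 2 ≤ 2 * L * (1 + g X X) := by
      have h3 : M * g X X ≤ L * g X X := mul_le_mul_of_nonneg_right hML hgX
      nlinarith [sq_nonneg (x - 1)]
    calc L ^ 4 * (L * (1 + x)) ^ 2 = L ^ 6 * (1 + x) ^ 2 := by ring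
      _ ≤ L ^ 6 * (2 * L * (1 + g X X)) := by gcongr
      _ = _ := by ring
  obtain ⟨ℓ, hℓ⟩ : ∃ ℓ : ℂ → ℝ, ∀ η, ℓ η = 2 * g X (η • Γ V (X - Γ X V)) +
      2 * g X (-(η • R₂)) + D₁ (a • η • R₂) X X := ⟨_, fun _ => rfl⟩
  have hodd : ∀ η, ℓ (-η) = -ℓ η := by
    intro η
    rw [hℓ, hℓ]
    simp only [neg_smul, smul_neg, map_neg, ContinuousLinearMap.neg_apply]
    ring
  have key : ∀ ξ : ℂ, ‖ξ‖ = t → ‖ξ • V + a • R ξ‖ ≤ r ∧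
      |e ξ - (1 + 2 * ξ.re) * g X X| ≤ 21 * (L ^ 4 * (L * (1 + x)) ^ 2 * t ^ 2) ∧
      e ξ ≤ (1 + 2 * ξ.re) * g X X + t ^ 2 * (g X X - g (Γ X V) (Γ X V)) + ℓ (ξ ^ 2) +
        D₂ (ξ • V) (ξ • V) X X / 2 + 14 * (L ^ 4 * (L * (1 + x)) ^ 2 * t ^ 3) := by
    intro ξ hξ
    have n3 : ‖R ξ - ξ ^ 2 • R₂‖ ≤ M * t ^ 3 := hξ ▸ hR ξ hξ
    have n2 : ‖ξ ^ 2 • R₂‖ ≤ M * t ^ 2 := by
      rw [norm_smul, norm_pow, hξ, mul_comm]
      gcongr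
    have nR : ‖R ξ‖ ≤ 2 * M * t ^ 2 := by
      have h1 := norm_add_le (ξ ^ 2 • R₂) (R ξ - ξ ^ 2 • R₂)
      rw [add_sub_cancel] at h1
      nlinarith
    have na : ∀ w : E, ‖a • w‖ ≤ ‖w‖ := fun w => by
      rw [norm_smul, Real.norm_of_nonneg ha.1]
      exact mul_le_of_le_one_left (norm_nonneg w) ha.2
    have n1 : ‖ξ • V‖ ≤ M * t := by
      rw [norm_smul, hξ, mul_comm]
      gcongr
    have nA : ‖ξ • (X - Γ X V)‖ ≤ (1 + M ^ 2) * x * t := by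
      rw [norm_smul, hξ, mul_comm]
      gcongr
    have hMt : M * t ^ 2 ≤ M * t := mul_le_mul_of_nonneg_left ht2 hM.le
    have ns : ‖ξ • V + a • R ξ‖ ≤ L * t ^ 1 := by
      have h1 := norm_add_le (ξ • V) (a • R ξ)
      have h2 := na (R ξ)
      have h3 : 3 * M * t ≤ L * t := mul_le_mul_of_nonneg_right (by linarith) ht0
      rw [pow_one]
      linarith
    have nsr : ‖ξ • V + a • R ξ‖ ≤ r := by
      rw [pow_one] at ns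
      exact ns.trans htr
    have nY0 : ‖ξ • (X - Γ X V) + -R ξ‖ ≤ (1 + 2 * M + M ^ 2) * (1 + x) * t := by
      have h1 := norm_add_le (ξ • (X - Γ X V)) (-R ξ)
      rw [norm_neg] at h1
      have h2 : 0 ≤ M * x * t := by positivity
      have h3 : 0 ≤ M ^ 2 * t := by positivity
      nlinarith
    have hc : ∀ {c : ℝ} {i : ℕ} {w : E}, c ≤ L → ‖w‖ ≤ c * t ^ i → ‖w‖ ≤ L * t ^ i :=
      fun hc hw => hw.trans (mul_le_mul_of_nonneg_right hc (by positivity))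
    have hc' : ∀ {c : ℝ} {i : ℕ} {w : E}, c ≤ L → ‖w‖ ≤ c * t ^ i → ‖w‖ ≤ L * (1 + x) * t ^ i :=
      fun h hw => (hc h hw).trans (mul_le_mul_of_nonneg_right hLQ (by positivity))
    have hF := (hb.taylor nsr (X + (ξ • (X - Γ X V) + -R ξ)) (X + (ξ • (X - Γ X V) + -R ξ))).2.2
    rw [hD1, hD2, hg, ← add_assoc z, ← add_assoc X, ← sub_eq_add_neg, ← he ξ, sub_eq_add_neg (X + _),
      add_assoc X] at hF
    obtain ⟨r1, r2⟩ := S2_rem g D₁ D₂ (Q := L * (1 + x)) (F := e ξ) hM.le hML hL1 hQ ht0 ht1 gs ds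
      da dc b0 b1 b2 (X := X) (A₁ := ξ • (X - Γ X V)) (A₂ := -(ξ ^ 2 • R₂))
      (A₃ := -(R ξ - ξ ^ 2 • R₂)) (W := -R ξ) (s₁ := ξ • V) (s₂ := a • ξ ^ 2 • R₂)
      (s₃ := a • (R ξ - ξ ^ 2 • R₂)) (u := a • R ξ) (by abel) rfl rfl
      (by rw [← smul_add, add_sub_cancel]) rfl
      (by rw [← hx, pow_zero, mul_one]; nlinarith)
      (by
        rw [pow_one]
        refine nA.trans (mul_le_mul_of_nonneg_right ?_ ht0)
        exact mul_le_mul (by linarith) (by linarith) hx0 hL0.le)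
      (hc' hML (by rwa [norm_neg])) (hc' hML (by rwa [norm_neg]))
      (hc' (c := 2 * M) (by linarith) (by rwa [norm_neg]))
      (by
        rw [pow_one]
        refine nY0.trans (mul_le_mul_of_nonneg_right ?_ ht0)
        exact mul_le_mul_of_nonneg_right (by linarith) (by linarith))
      (by
        rw [pow_zero, mul_one]
        have h1 := norm_add_le X (ξ • (X - Γ X V) + -R ξ)
        have h2 : (1 + 2 * M + M ^ 2) * (1 + x) * t ≤ (1 + 2 * M + M ^ 2) * (1 + x) :=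
          mul_le_of_le_one_right (by positivity) ht1
        have h3 : 0 ≤ M * x := by positivity
        rw [← hx] at h1
        rw [hL]
        nlinarith)
      (hc hML (by rwa [pow_one])) (hc hML ((na _).trans n2)) (hc hML ((na _).trans n3))
      (hc (c := 2 * M) (by linarith) ((na _).trans nR)) ns hF
    obtain ⟨q1, q2⟩ := S2_alg gh gs hs hI hD ξ X V
    rw [q1] at r1
    rw [hξ] at q2
    have h32 : L ^ 4 * (L * (1 + x)) ^ 2 * t ^ 3 ≤ L ^ 4 * (L * (1 + x)) ^ 2 * t ^ 2 := by gcongr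
    have r1' := abs_le.1 r1
    have r2' := abs_le.1 r2
    refine ⟨nsr, abs_le.2 ⟨?_, ?_⟩, ?_⟩
    · linarith [r1'.1, r2'.1]
    · linarith [r1'.2, r2'.2]
    · rw [hℓ]
      linarith [r1'.2]
  obtain ⟨k1, k2, k3⟩ := key ζ ht.symm
  obtain ⟨-, -, k4⟩ := key (I * ζ) (by rw [norm_mul, norm_I, one_mul, ht])
  obtain ⟨-, -, k5⟩ := key (-ζ) (by rw [norm_neg, ht])
  obtain ⟨-, -, k6⟩ := key (-(I * ζ)) (by rw [norm_neg, norm_mul, norm_I, one_mul, ht])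
  have hT2 := mul_le_mul_of_nonneg_right hT ht20
  have hT3 := mul_le_mul_of_nonneg_right hT ht30
  refine ⟨?_, k2.trans ?_, ?_⟩
  · rw [mem_closedBall, dist_eq_norm, add_assoc, add_sub_cancel_left]
    exact k1
  · have : 0 ≤ L ^ 7 * (1 + g X X) * t ^ 2 := by positivity
    linarith
  · have dn : ∀ s, D₂ (-s) (-s) = D₂ s s := fun s => by
      rw [← neg_one_smul ℝ s, dm, dc, dm, smul_smul]
      simp
    have eI : (I * ζ) ^ 2 = -ζ ^ 2 := by rw [mul_pow, I_sq]; ring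
    rw [eI, hodd, mul_smul] at k4
    rw [neg_sq, neg_smul, dn, neg_re] at k5
    rw [neg_sq, eI, hodd, neg_smul, dn, neg_re, mul_smul] at k6
    have e1 : Γ (ζ • V) X = ζ • Γ X V := by rw [hs, S2_lin hI]
    rw [e1, S2_herm gh, S2_herm gh, ← ht] at hbis
    have h1 := (abs_le.1 hbis).1
    linarith

end Pool.Agent.MP_e62289_ag
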