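import Pool.Agent.MP_e62289_ag.KDefs

open Set Filter Topology Complex MeasureTheory Metric
open scoped Manifold ContDiff ComplexConjugate NNReal ENNReal

namespace Pool.Agent.MP_e62289_ag

section gen
variable {E F : Type} [NormedAddCommGroup E] [NormedSpace ℝ E] [NormedAddCommGroup F]
  [NormedSpace ℝ F]

theorem s2a_le (n : ℕ) : (n : WithTop ℕ∞) ≤ (∞ : WithTop ℕ∞) := by exact_mod_cast le_top

theorem s2a_rem {f : E → ℝ} {z s : E} {C : ℝ} (n : ℕ)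
    (hf : ∀ t ∈ Icc (0 : ℝ) 1, ContDiffAt ℝ ∞ f (z + t • s))
    (hC : ∀ t ∈ Icc (0 : ℝ) 1, |iteratedFDeriv ℝ (n + 1) f (z + t • s) (fun _ => s)| ≤ C) :
    |f (z + s) - ∑ k ∈ Finset.range (n + 1),
      (k.factorial : ℝ)⁻¹ * iteratedFDeriv ℝ k f z (fun _ => s)| ≤ C := by
  have h := map_add_eq_sum_add_integral_iteratedFDeriv (f := f) (x := z) (y := s) (n := n)
    fun t ht => (hf t ht).of_le (by exact_mod_cast le_top)
  simp only [smul_eq_mul] at h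
  rw [h, add_sub_cancel_left, abs_mul]
  have h0 : 0 ≤ C := (abs_nonneg _).trans (hC 0 (left_mem_Icc.2 zero_le_one))
  have h1 : |(n.factorial : ℝ)⁻¹| ≤ 1 := by
    rw [abs_of_nonneg (by positivity)]
    exact inv_le_one_of_one_le₀ (by exact_mod_cast n.factorial_pos)
  have h2 := intervalIntegral.norm_integral_le_of_norm_le_const (a := 0) (b := 1) (C := C)
    (f := fun t : ℝ => (1 - t) ^ n * iteratedFDeriv ℝ (n + 1) f (z + t • s) (fun _ => s))
    fun t ht => by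
      rw [uIoc_of_le zero_le_one] at ht
      rw [Real.norm_eq_abs, abs_mul, abs_pow, abs_of_nonneg (sub_nonneg.2 ht.2)]
      have h3 : (1 - t) ^ n ≤ 1 := pow_le_one₀ (sub_nonneg.2 ht.2) (by linarith [ht.1])
      exact (mul_le_of_le_one_left (abs_nonneg _) h3).trans (hC t ⟨ht.1.le, ht.2⟩)
  rw [sub_zero, abs_one, mul_one, Real.norm_eq_abs] at h2
  exact (mul_le_of_le_one_left (abs_nonneg _) h1).trans h2

theorem s2a_two {f : E → ℝ} {z : E} (hf : ContDiffAt ℝ ∞ f z) (s s' : E) :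
    fderiv ℝ (fun w => fderiv ℝ f w s') z s = iteratedFDeriv ℝ 2 f z ![s, s'] := by
  have h : DifferentiableAt ℝ (fderiv ℝ f) z :=
    (hf.fderiv_right (m := 1) (s2a_le 2)).differentiableAt one_ne_zero
  rw [iteratedFDeriv_two_apply, fderiv_clm_apply h (differentiableAt_const _)]
  simp

theorem s2a_comp {g : E → F} {z : E} (hg : ContDiffAt ℝ ∞ g z) (L : F →L[ℝ] ℝ) (i : ℕ)
    (m : Fin i → E) :
    iteratedFDeriv ℝ i (fun w => L (g w)) z m = L (iteratedFDeriv ℝ i g z m) := by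
  have := L.iteratedFDeriv_comp_left hg (i := i) (by exact_mod_cast le_top)
  exact congrArg (fun T : ContinuousMultilinearMap ℝ (fun _ : Fin i => E) ℝ => T m) this

/-- evaluation of a bilinear form -/
noncomputable def s2aEv (X Y : E) : (E →L[ℝ] E →L[ℝ] ℝ) →L[ℝ] ℝ :=
  (ContinuousLinearMap.apply ℝ ℝ Y).comp (ContinuousLinearMap.apply ℝ (E →L[ℝ] ℝ) X)

theorem s2a_ev {g : E → E →L[ℝ] E →L[ℝ] ℝ} {z : E} (hg : ContDiffAt ℝ ∞ g z) (X Y : E) (i : ℕ)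
    (m : Fin i → E) :
    iteratedFDeriv ℝ i (fun w => g w X Y) z m = iteratedFDeriv ℝ i g z m X Y :=
  s2a_comp hg (s2aEv X Y) i m

theorem s2a_cd {g : E → E →L[ℝ] E →L[ℝ] ℝ} {z : E} (hg : ContDiffAt ℝ ∞ g z) (X Y : E) :
    ContDiffAt ℝ ∞ (fun w => g w X Y) z :=
  (hg.clm_apply contDiffAt_const).clm_apply contDiffAt_const

theorem s2a_bd {g : E → E →L[ℝ] E →L[ℝ] ℝ} {z : E} {M : ℝ} {i : ℕ}
    (hM : ‖iteratedFDeriv ℝ i g z‖ ≤ M) (m : Fin i → E) (X Y : E) :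
    |iteratedFDeriv ℝ i g z m X Y| ≤ M * (∏ j, ‖m j‖) * ‖X‖ * ‖Y‖ := by
  have h1 := (iteratedFDeriv ℝ i g z m).le_opNorm₂ X Y
  have h2 := (iteratedFDeriv ℝ i g z).le_opNorm m
  have h3 : 0 ≤ ∏ j, ‖m j‖ := Finset.prod_nonneg fun _ _ => norm_nonneg _
  rw [Real.norm_eq_abs] at h1
  refine h1.trans ?_
  gcongr
  exact h2.trans (mul_le_mul_of_nonneg_right hM h3)

end gen

variable {E : Type} [NormedAddCommGroup E] [NormedSpace ℂ E] [FiniteDimensional ℂ E]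
  {B : Type} [EMetricSpace B] [ChartedSpace E B]

omit [FiniteDimensional ℂ E] in
theorem s2a_at {k : KData E B} {r M : ℝ} {y : B} {z w : E} (h : k.Bd r M y z)
    (hw : w ∈ closedBall z r) : ContDiffAt ℝ ∞ (k.G y) w :=
  (k.smooth y).contDiffAt ((chartAt E y).open_target.mem_nhds (h.1 hw))

omit [FiniteDimensional ℂ E] in
/-- Taylor expansion of the metric coefficients -/
theorem KData.Bd.taylor {k : KData E B} {r M : ℝ} {y : B} {z : E} (h : k.Bd r M y z) {s : E}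
    (hs : ‖s‖ ≤ r) (X Y : E) :
    |k.G y (z + s) X Y - k.G y z X Y| ≤ M * ‖s‖ * ‖X‖ * ‖Y‖ ∧
    |k.G y (z + s) X Y - k.G y z X Y - fderiv ℝ (fun w => k.G y w X Y) z s| ≤
      M * ‖s‖ ^ 2 * ‖X‖ * ‖Y‖ ∧
    |k.G y (z + s) X Y - k.G y z X Y - fderiv ℝ (fun w => k.G y w X Y) z s -
      fderiv ℝ (fun w => fderiv ℝ (fun w => k.G y w X Y) w s) z s / 2| ≤
      M * ‖s‖ ^ 3 * ‖X‖ * ‖Y‖ := by
  have hm : ∀ t ∈ Icc (0 : ℝ) 1, z + t • s ∈ closedBall z r := fun t ht => by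
    rw [mem_closedBall, dist_self_add_left, norm_smul, Real.norm_eq_abs, abs_of_nonneg ht.1]
    exact (mul_le_of_le_one_left (norm_nonneg _) ht.2).trans hs
  have key : ∀ n, n + 1 ≤ 3 → |k.G y (z + s) X Y - ∑ j ∈ Finset.range (n + 1),
      (j.factorial : ℝ)⁻¹ * iteratedFDeriv ℝ j (fun w => k.G y w X Y) z (fun _ => s)| ≤
      M * ‖s‖ ^ (n + 1) * ‖X‖ * ‖Y‖ := fun n hn =>
    s2a_rem (f := fun w => k.G y w X Y) n (fun t ht => s2a_cd (s2a_at h (hm t ht)) X Y)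
      fun t ht => by
        rw [s2a_ev (s2a_at h (hm t ht))]
        simpa using s2a_bd ((h.2 _ (hm t ht)).2.1 _ hn) (fun _ => s) X Y
  have hz : z ∈ closedBall z r := mem_closedBall_self ((norm_nonneg _).trans hs)
  have e2 : iteratedFDeriv ℝ 2 (fun w => k.G y w X Y) z (fun _ => s) =
      fderiv ℝ (fun w => fderiv ℝ (fun w => k.G y w X Y) w s) z s := by
    rw [s2a_two (s2a_cd (s2a_at h hz) X Y)]
    congr 1
    funext j
    fin_cases j <;> rfl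
  have k0 := key 0 (by norm_num)
  have k1 := key 1 (by norm_num)
  have k2 := key 2 (by norm_num)
  simp only [Finset.sum_range_succ, Finset.sum_range_zero, iteratedFDeriv_zero_apply,
    iteratedFDeriv_one_apply, e2, Nat.factorial, zero_add] at k0 k1 k2
  refine ⟨?_, ?_, ?_⟩
  · convert k0 using 2 <;> norm_num
  · convert k1 using 2
    norm_num
    ring
  · convert k2 using 2
    norm_num
    ring

omit [FiniteDimensional ℂ E] in
/-- the first two derivatives as bounded multilinear maps -/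
theorem KData.Bd.exists_jet {k : KData E B} {r M : ℝ} {y : B} {z : E} (h : k.Bd r M y z)
    (hr : 0 ≤ r) : ∃ (D₁ : E →L[ℝ] E →L[ℝ] E →L[ℝ] ℝ) (D₂ : E → E → E →L[ℝ] E →L[ℝ] ℝ),
      (∀ s X Y, fderiv ℝ (fun w => k.G y w X Y) z s = D₁ s X Y) ∧
      (∀ s s' X Y, fderiv ℝ (fun w => fderiv ℝ (fun w => k.G y w X Y) w s') z s = D₂ s s' X Y) ∧
      (∀ s s' s'', D₂ (s + s') s'' = D₂ s s'' + D₂ s' s'') ∧
      (∀ (c : ℝ) s s', D₂ (c • s) s' = c • D₂ s s') ∧ (∀ s s', D₂ s s' = D₂ s' s) ∧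
      (∀ X Y, |k.G y z X Y| ≤ M * ‖X‖ * ‖Y‖) ∧ (∀ s X Y, |D₁ s X Y| ≤ M * ‖s‖ * ‖X‖ * ‖Y‖) ∧
      ∀ s s' X Y, |D₂ s s' X Y| ≤ M * ‖s‖ * ‖s'‖ * ‖X‖ * ‖Y‖ := by
  have hz : z ∈ closedBall z r := mem_closedBall_self hr
  have hg := s2a_at h hz
  have hM := (h.2 z hz).2.1
  refine ⟨fderiv ℝ (k.G y) z, fun s s' => iteratedFDeriv ℝ 2 (k.G y) z ![s, s'],
    fun s X Y => ?_, fun s s' X Y => ?_, fun s s' s'' => ?_, fun c s s' => ?_, fun s s' => ?_,
    fun X Y => ?_, fun s X Y => ?_, fun s s' X Y => ?_⟩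
  · simpa only [iteratedFDeriv_one_apply] using s2a_ev hg X Y 1 fun _ => s
  · rw [s2a_two (s2a_cd hg X Y), s2a_ev hg]
  · exact (iteratedFDeriv ℝ 2 (k.G y) z).cons_add ![s''] s s'
  · exact (iteratedFDeriv ℝ 2 (k.G y) z).cons_smul ![s'] c s
  · ext X Y
    rw [← s2a_ev hg, ← s2a_ev hg]
    exact IsSymmSndFDerivAt.iteratedFDeriv_cons (hf := (s2a_cd hg X Y).isSymmSndFDerivAt (by
      rw [minSmoothness_of_isRCLikeNormedField]
      exact s2a_le 2))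
  · simpa using s2a_bd (hM 0 (by norm_num)) (fun _ => 0) X Y
  · simpa using s2a_bd (hM 1 (by norm_num)) (fun _ => s) X Y
  · simpa [mul_assoc] using s2a_bd (hM 2 (by norm_num)) ![s, s'] X Y

end Pool.Agent.MP_e62289_ag
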