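import Pool.Agent.MP_e62289_ag.S1

open Set Filter Topology Complex MeasureTheory Metric
open scoped Manifold ContDiff ComplexConjugate NNReal ENNReal

namespace Pool.Agent.MP_e62289_ag

variable {E : Type} [NormedAddCommGroup E] [NormedSpace ℂ E] [FiniteDimensional ℂ E]
  {B : Type} [EMetricSpace B] [ChartedSpace E B] [IsManifold 𝓘(ℂ, E) ω B]

omit [FiniteDimensional ℂ E] in
theorem S3b_trans (x y : B) :
    ContDiffOn ℝ 1 (chartAt E y ∘ (chartAt E x).symm)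
      ((chartAt E x).target ∩ (chartAt E x).symm ⁻¹' (chartAt E y).source) := by
  have h1 : ContMDiffOn 𝓘(ℂ, E) 𝓘(ℂ, E) ω (chartAt E y) (chartAt E y).source := contMDiffOn_chart
  have h2 : ContMDiffOn 𝓘(ℂ, E) 𝓘(ℂ, E) ω (chartAt E x).symm (chartAt E x).target :=
    contMDiffOn_chart_symm
  have h3 : ContMDiffOn 𝓘(ℂ, E) 𝓘(ℂ, E) ω (chartAt E y ∘ (chartAt E x).symm)
      ((chartAt E x).target ∩ (chartAt E x).symm ⁻¹' (chartAt E y).source) :=
    h1.comp (h2.mono inter_subset_left) (fun z hz => hz.2)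
  have h4 := contMDiffOn_iff_contDiffOn.mp h3
  exact (h4.of_le le_top).restrict_scalars ℝ

omit [FiniteDimensional ℂ E] in
/-- moving the arcs of a chain into prescribed charts -/
theorem Chain.rechart (k : KData E B) {n : ℕ} {p : B} (γ : Chain E n p) (y : ℕ → B)
    (hy : ∀ j < n, ∀ t ∈ Icc (0 : ℝ) 1,
      (chartAt E (γ.x j)).symm (γ.c j t) ∈ (chartAt E (y j)).source) :
    ∃ γ' : Chain E n p, γ'.x = y ∧ γ'.q = γ.q ∧ (∀ j < n, γ'.seg k j = γ.seg k j) ∧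
      ∀ j < n, ∀ t ∈ Icc (0 : ℝ) 1,
        γ'.c j t = chartAt E (y j) ((chartAt E (γ.x j)).symm (γ.c j t)) := by
  have hU : ∀ j, IsOpen ((chartAt E (γ.x j)).target ∩
      (chartAt E (γ.x j)).symm ⁻¹' (chartAt E (y j)).source) := fun j =>
    (chartAt E (γ.x j)).isOpen_inter_preimage_symm (chartAt E (y j)).open_source
  have hmem : ∀ j < n, ∀ t ∈ Icc (0 : ℝ) 1, γ.c j t ∈ ((chartAt E (γ.x j)).target ∩
      (chartAt E (γ.x j)).symm ⁻¹' (chartAt E (y j)).source) := fun j hj t ht =>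
    ⟨γ.maps j hj ht, hy j hj t ht⟩
  have hcc : ∀ j < n, ContinuousOn (γ.c j) (Icc 0 1) := fun j hj t ht =>
    (γ.der j hj t ht).continuousWithinAt
  refine ⟨{ x := y
            q := γ.q
            c := fun j t => chartAt E (y j) ((chartAt E (γ.x j)).symm (γ.c j t))
            c' := fun j t => fderiv ℝ (chartAt E (y j) ∘ (chartAt E (γ.x j)).symm) (γ.c j t)
              (γ.c' j t)
            q0 := γ.q0
            cont := ?_
            der := ?_
            maps := ?_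
            left := ?_
            right := ?_ }, rfl, rfl, ?_, fun _ _ _ _ => rfl⟩
  · intro j hj
    have h1 := (S3b_trans (E := E) (γ.x j) (y j)).continuousOn_fderiv_of_isOpen (hU j) le_rfl
    have h2 := h1.comp (hcc j hj) (fun t ht => hmem j hj t ht)
    exact h2.clm_apply (γ.cont j hj)
  · intro j hj t ht
    have h1 : DifferentiableAt ℝ (chartAt E (y j) ∘ (chartAt E (γ.x j)).symm) (γ.c j t) :=
      ((S3b_trans (E := E) (γ.x j) (y j)).differentiableOn one_ne_zero).differentiableAt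
        ((hU j).mem_nhds (hmem j hj t ht))
    exact h1.hasFDerivAt.comp_hasDerivWithinAt t (γ.der j hj t ht)
  · intro j hj t ht
    exact (chartAt E (y j)).map_source (hy j hj t ht)
  · intro j hj
    rw [(chartAt E (y j)).left_inv (hy j hj 0 (by simp))]
    exact γ.left j hj
  · intro j hj
    rw [(chartAt E (y j)).left_inv (hy j hj 1 (by simp))]
    exact γ.right j hj
  · intro j hj
    unfold Chain.seg
    refine intervalIntegral.integral_congr fun t ht => ?_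
    rw [uIcc_of_le zero_le_one] at ht
    have h := k.compat (γ.x j) (y j) ((chartAt E (γ.x j)).symm (γ.c j t))
      ⟨(chartAt E (γ.x j)).map_target (γ.maps j hj ht), hy j hj t ht⟩ (γ.c' j t) (γ.c' j t)
    rw [(chartAt E (γ.x j)).right_inv (γ.maps j hj ht)] at h
    exact h

omit [FiniteDimensional ℂ E] in
theorem S3b_step [CompleteSpace E] {g : ℂ → E} {R A : ℝ} (hR : 0 < R)
    (hd : DifferentiableOn ℂ g (ball 0 R)) (hb : ∀ ξ ∈ ball (0 : ℂ) R, ‖g ξ - g 0‖ ≤ A) :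
    DifferentiableOn ℂ (dslope g 0) (ball 0 R) ∧
      (∀ ξ ∈ ball (0 : ℂ) R, ‖dslope g 0 ξ‖ ≤ A / R) ∧
      ∀ ξ ∈ ball (0 : ℂ) R, ‖dslope g 0 ξ - dslope g 0 0‖ ≤ 2 * A / R := by
  have h1 : ∀ ξ ∈ ball (0 : ℂ) R, ‖dslope g 0 ξ‖ ≤ A / R := fun ξ hξ =>
    Complex.norm_dslope_le_div_of_mapsTo_ball hd
      (fun w hw => by rw [mem_closedBall, dist_eq_norm]; exact hb w hw) hξ
  refine ⟨(Complex.differentiableOn_dslope (ball_mem_nhds _ hR)).mpr hd, h1, fun ξ hξ => ?_⟩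
  have h2 := h1 ξ hξ
  have h3 := h1 0 (mem_ball_self hR)
  calc ‖dslope g 0 ξ - dslope g 0 0‖ ≤ ‖dslope g 0 ξ‖ + ‖dslope g 0 0‖ := norm_sub_le _ _
    _ ≤ A / R + A / R := add_le_add h2 h3
    _ = 2 * A / R := by ring

/-- Taylor expansion of a holomorphic map along a complex line -/
theorem line_taylor {r M : ℝ} (hr : 0 < r) (hM : 0 < M) : ∃ M' ρ : ℝ, 0 < M' ∧ 0 < ρ ∧
    ∀ (τ : E → E) (z V : E), DifferentiableOn ℂ τ (ball z r) →
      (∀ w ∈ ball z r, ‖τ w - τ z‖ ≤ M) → ‖V‖ ≤ M → ∃ R₂ : E, ‖R₂‖ ≤ M' ∧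
        ∀ ξ : ℂ, ‖ξ‖ ≤ ρ → z + ξ • V ∈ ball z r ∧
          ‖τ (z + ξ • V) - τ z - ξ • fderiv ℝ τ z V - ξ ^ 2 • R₂‖ ≤ M' * ‖ξ‖ ^ 3 := by
  have : CompleteSpace E := FiniteDimensional.complete ℂ E
  have hR : 0 < r / M := div_pos hr hM
  set R := r / M with hRdef
  have hA2 : 0 < 2 * M / R / R := by positivity
  have hA3 : 0 < 2 * (2 * M / R) / R / R := by positivity
  refine ⟨2 * M / R / R + 2 * (2 * M / R) / R / R, R / 2, by positivity, by positivity,
    fun τ z V hτ hb hV => ?_⟩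
  have hin : ∀ ξ ∈ ball (0 : ℂ) R, z + ξ • V ∈ ball z r := by
    intro ξ hξ
    rw [mem_ball_zero_iff] at hξ
    rw [mem_ball, dist_eq_norm, add_sub_cancel_left, norm_smul]
    calc ‖ξ‖ * ‖V‖ ≤ ‖ξ‖ * M := mul_le_mul_of_nonneg_left hV (norm_nonneg _)
      _ < R * M := mul_lt_mul_of_pos_right hξ hM
      _ = r := by rw [hRdef]; field_simp
  set g : ℂ → E := fun ξ => τ (z + ξ • V) with hg
  have hg0 : g 0 = τ z := by simp [hg]
  have hgd : DifferentiableOn ℂ g (ball 0 R) :=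
    hτ.comp (by fun_prop) (fun ξ hξ => hin ξ hξ)
  have hgb : ∀ ξ ∈ ball (0 : ℂ) R, ‖g ξ - g 0‖ ≤ M := fun ξ hξ => by
    rw [hg0]; exact hb _ (hin ξ hξ)
  obtain ⟨d1, -, b1⟩ := S3b_step hR hgd hgb
  obtain ⟨d2, a2, b2⟩ := S3b_step hR d1 b1
  obtain ⟨-, a3, -⟩ := S3b_step hR d2 b2
  have hτz : DifferentiableAt ℂ τ z := hτ.differentiableAt (ball_mem_nhds _ hr)
  have hder : dslope g 0 0 = fderiv ℝ τ z V := by
    rw [dslope_same]
    have h1 : HasDerivAt (fun ξ : ℂ => z + ξ • V) V 0 := by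
      simpa using ((hasDerivAt_id (0 : ℂ)).smul_const V).const_add z
    have h2 : HasFDerivAt τ (fderiv ℂ τ z) (z + (0 : ℂ) • V) := by
      simpa using hτz.hasFDerivAt
    have h3 : HasDerivAt g (fderiv ℂ τ z V) 0 := h2.comp_hasDerivAt 0 h1
    rw [h3.deriv, (hτz.hasFDerivAt.restrictScalars ℝ).fderiv]
    rfl
  refine ⟨dslope (dslope g 0) 0 0, (a2 0 (mem_ball_self hR)).trans (by linarith), fun ξ hξ => ?_⟩
  have hξ' : ξ ∈ ball (0 : ℂ) R := by
    rw [mem_ball_zero_iff]; linarith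
  refine ⟨hin ξ hξ', ?_⟩
  have e1 := sub_smul_dslope g 0 ξ
  have e2 := sub_smul_dslope (dslope g 0) 0 ξ
  have e3 := sub_smul_dslope (dslope (dslope g 0) 0) 0 ξ
  rw [sub_zero] at e1 e2 e3
  have e : τ (z + ξ • V) - τ z - ξ • fderiv ℝ τ z V - ξ ^ 2 • dslope (dslope g 0) 0 0 =
      ξ ^ 3 • dslope (dslope (dslope g 0) 0) 0 ξ := by
    have f1 : τ (z + ξ • V) - τ z = ξ • dslope g 0 ξ := by rw [e1, hg0]
    rw [f1, ← hder, ← smul_sub, ← e2, pow_succ ξ 2, mul_smul, e3, smul_sub, smul_smul, ← sq]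
  rw [e, norm_smul, norm_pow, mul_comm]
  exact mul_le_mul_of_nonneg_right ((a3 ξ hξ').trans (by linarith)) (by positivity)

end Pool.Agent.MP_e62289_ag
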