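import Pool.Agent.MP_e62289_ag.S1

open Set Filter Topology Complex MeasureTheory Metric
open scoped Manifold ContDiff ComplexConjugate NNReal ENNReal

namespace Pool.Agent.MP_e62289_ag

variable {E : Type} [NormedAddCommGroup E] [NormedSpace ℂ E] [FiniteDimensional ℂ E]
  {B : Type} [EMetricSpace B] [ChartedSpace E B] [IsManifold 𝓘(ℂ, E) ω B]

omit [IsManifold 𝓘(ℂ, E) ω B] in
/-- a lower bound of the metric on a compact set -/
theorem s3a_low (k : KData E B) (y : B) {T : Set E} (hT : IsCompact T)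
    (hs : T ⊆ (chartAt E y).target) :
    ∃ M : ℝ, ∀ w ∈ T, ∀ v, 0 ≤ k.G y w v v ∧ ‖v‖ ^ 2 ≤ M * k.G y w v v := by
  have : ProperSpace E := FiniteDimensional.proper ℂ E
  have hc : ContinuousOn (fun x : E × E => k.G y x.1 x.2 x.2) (T ×ˢ sphere (0 : E) 1) := by
    have h1 : ContinuousOn (fun x : E × E => k.G y x.1) (T ×ˢ sphere (0 : E) 1) :=
      (k.smooth y).continuousOn.comp continuousOn_fst fun x hx => hs hx.1
    exact (h1.clm_apply continuousOn_snd).clm_apply continuousOn_snd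
  obtain ⟨a, ha, h⟩ := (hT.prod (isCompact_sphere (0 : E) 1)).exists_forall_le' hc (a := 0)
    fun x hx => k.pos y x.1 (hs hx.1) x.2 (by
      intro h0
      have := hx.2
      rw [h0] at this
      simp at this)
  refine ⟨a⁻¹, fun w hw v => ?_⟩
  by_cases hv : v = 0
  · simp [hv]
  refine ⟨(k.pos y w (hs hw) v hv).le, ?_⟩
  have hn : 0 < ‖v‖ := norm_pos_iff.2 hv
  have h1 := h (w, (‖v‖⁻¹ : ℝ) • v) ⟨hw, by
    simp only [mem_sphere_iff_norm, sub_zero, norm_smul, norm_inv, norm_norm]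
    exact inv_mul_cancel₀ hn.ne'⟩
  simp only [map_smul, _root_.smul_apply, smul_eq_mul] at h1
  rw [← div_eq_inv_mul, le_div_iff₀ ha]
  have h2 : ‖v‖ ^ 2 * (‖v‖⁻¹ * (‖v‖⁻¹ * k.G y w v v)) = k.G y w v v := by field_simp
  calc ‖v‖ ^ 2 * a ≤ ‖v‖ ^ 2 * (‖v‖⁻¹ * (‖v‖⁻¹ * k.G y w v v)) := by gcongr
    _ = _ := h2

omit [IsManifold 𝓘(ℂ, E) ω B] in
/-- all bounds on a compact set -/
theorem s3a_bd (k : KData E B) (y : B) {T : Set E} (hT : IsCompact T)
    (hs : T ⊆ (chartAt E y).target) :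
    ∀ᶠ M : ℝ in atTop, ∀ w ∈ T, (∀ v, ‖v‖ ^ 2 ≤ M * k.G y w v v) ∧
      (∀ i ≤ 3, ‖iteratedFDeriv ℝ i (k.G y) w‖ ≤ M) ∧ ‖k.Γ y w‖ ≤ M := by
  obtain ⟨M₁, h₁⟩ := s3a_low k y hT hs
  obtain ⟨M₂, h₂⟩ := hT.exists_bound_of_continuousOn (f := k.Γ y) ((k.Γ_cont y).mono hs)
  have h₃ : ∀ i : ℕ, ∀ᶠ M : ℝ in atTop, ∀ w ∈ T, ‖iteratedFDeriv ℝ i (k.G y) w‖ ≤ M := by
    intro i
    have ho := (chartAt E y).open_target
    have hc : ContinuousOn (iteratedFDeriv ℝ i (k.G y)) (chartAt E y).target :=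
      ((k.smooth y).continuousOn_iteratedFDerivWithin (m := i) (by exact_mod_cast le_top)
        ho.uniqueDiffOn).congr fun x hx => (iteratedFDerivWithin_of_isOpen i ho hx).symm
    obtain ⟨M, hM⟩ := hT.exists_bound_of_continuousOn (hc.mono hs)
    filter_upwards [eventually_ge_atTop M] with M' hM' w hw using (hM w hw).trans hM'
  have h₄ : ∀ᶠ M : ℝ in atTop, ∀ i ∈ Finset.range 4, ∀ w ∈ T,
      ‖iteratedFDeriv ℝ i (k.G y) w‖ ≤ M :=
    (Filter.eventually_all_finset _).2 fun i _ => h₃ i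
  filter_upwards [eventually_ge_atTop M₁, eventually_ge_atTop M₂, h₄] with M a1 a2 a3 w hw
  refine ⟨fun v => (h₁ w hw v).2.trans (mul_le_mul_of_nonneg_right a1 (h₁ w hw v).1),
    fun i hi => a3 i (Finset.mem_range.2 (by omega)) w hw, (h₂ w hw).trans a2⟩

omit [FiniteDimensional ℂ E] in
theorem s3a_diff (y y' : B) : DifferentiableOn ℂ (chartAt E y' ∘ (chartAt E y).symm)
    ((chartAt E y).target ∩ (chartAt E y).symm ⁻¹' (chartAt E y').source) := by
  have h := contDiffOn_ext_coord_change (I := 𝓘(ℂ, E)) (n := ω) y' y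
  simp only [mfld_simps] at h
  exact h.differentiableOn (by simp)

/-- bounds for one transition map -/
theorem s3a_tr (y y' : B) {T T' : Set E} (hT : IsCompact T) (hs : T ⊆ (chartAt E y).target)
    (hT' : IsCompact T') (hs' : T' ⊆ (chartAt E y').target) :
    ∀ᶠ x : ℝ × ℝ in (𝓝[>] 0) ×ˢ atTop, ∀ q ∈ (chartAt E y).source ∩ (chartAt E y').source,
      chartAt E y q ∈ T → chartAt E y' q ∈ T' →
      DifferentiableOn ℂ (chartAt E y' ∘ (chartAt E y).symm) (ball (chartAt E y q) x.1) ∧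
      ∀ w ∈ ball (chartAt E y q) x.1, (chartAt E y).symm w ∈ (chartAt E y').source ∧
        ‖chartAt E y' ((chartAt E y).symm w) - chartAt E y' q‖ ≤ x.2 := by
  have : ProperSpace E := FiniteDimensional.proper ℂ E
  have hc' : IsCompact ((chartAt E y').symm '' T') :=
    hT'.image_of_continuousOn ((chartAt E y').continuousOn_symm.mono hs')
  have hK : IsCompact (T ∩ (chartAt E y).symm ⁻¹' ((chartAt E y').symm '' T')) :=
    hT.of_isClosed_subset (((chartAt E y).continuousOn_symm.mono hs).preimage_isClosed_of_isClosed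
      hT.isClosed hc'.isClosed) inter_subset_left
  have hU : IsOpen ((chartAt E y).target ∩ (chartAt E y).symm ⁻¹' (chartAt E y').source) :=
    (chartAt E y).isOpen_inter_preimage_symm (chartAt E y').open_source
  obtain ⟨δ, hδ, hsub⟩ := hK.exists_cthickening_subset_open hU (by
    rintro w ⟨h1, z, hz, h2⟩
    refine ⟨hs h1, ?_⟩
    change (chartAt E y).symm w ∈ (chartAt E y').source
    rw [← h2]
    exact (chartAt E y').map_target (hs' hz))
  obtain ⟨M, hM⟩ := (hK.cthickening (r := δ)).exists_bound_of_continuousOn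
    ((s3a_diff y y').continuousOn.mono hsub)
  filter_upwards [prod_mem_prod (Ioo_mem_nhdsGT hδ) (eventually_ge_atTop (2 * M))]
  rintro ⟨r, N⟩ ⟨hr, hN⟩ q hq h1 h2
  have hq1 : chartAt E y q ∈ T ∩ (chartAt E y).symm ⁻¹' ((chartAt E y').symm '' T') := by
    refine ⟨h1, chartAt E y' q, h2, ?_⟩
    rw [(chartAt E y').left_inv hq.2, (chartAt E y).left_inv hq.1]
  have hb : ball (chartAt E y q) r ⊆
      cthickening δ (T ∩ (chartAt E y).symm ⁻¹' ((chartAt E y').symm '' T')) :=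
    (ball_subset_closedBall.trans (closedBall_subset_closedBall hr.2.le)).trans
      (closedBall_subset_cthickening hq1 δ)
  refine ⟨(s3a_diff y y').mono (hb.trans hsub), fun w hw => ⟨(hsub (hb hw)).2, ?_⟩⟩
  have a1 := hM w (hb hw)
  have a2 := hM _ (self_subset_cthickening _ hq1)
  simp only [Function.comp_apply, (chartAt E y).left_inv hq.1] at a1 a2
  have hN' : 2 * M ≤ N := hN
  exact (norm_sub_le _ _).trans (by linarith)

/-- a finite uniform system of charts on the closed unit ball -/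
theorem unif_cover (k : KData E B) (p : B) :
    ∃ (s : Finset B) (A : B → Set E) (r M δ : ℝ), 0 < r ∧ 0 < M ∧ 0 < δ ∧
      (∀ y ∈ s, ∀ z ∈ A y, k.Bd r M y z) ∧
      (∀ y ∈ s, ∀ y' ∈ s, ∀ q ∈ (chartAt E y).source ∩ (chartAt E y').source,
        chartAt E y q ∈ A y → chartAt E y' q ∈ A y' →
        DifferentiableOn ℂ (chartAt E y' ∘ (chartAt E y).symm) (ball (chartAt E y q) r) ∧
        ∀ w ∈ ball (chartAt E y q) r, (chartAt E y).symm w ∈ (chartAt E y').source ∧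
          ‖chartAt E y' ((chartAt E y).symm w) - chartAt E y' q‖ ≤ M) ∧
      ∀ q, edist p q ≤ 1 → ∃ y ∈ s, ∀ q', edist q q' < ENNReal.ofReal δ →
        q' ∈ (chartAt E y).source ∧ chartAt E y q' ∈ A y := by
  have : ProperSpace E := FiniteDimensional.proper ℂ E
  have h0 : ∀ y : B, ∃ ρ : ℝ, 0 < ρ ∧
      closedBall (chartAt E y y) (2 * ρ) ⊆ (chartAt E y).target := by
    intro y
    obtain ⟨ε, hε, h⟩ := nhds_basis_closedBall.mem_iff.1 (chart_target_mem_nhds E y)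
    exact ⟨ε / 2, by positivity, by rwa [mul_div_cancel₀ _ two_ne_zero]⟩
  choose ρ hρ hsub using h0
  have hsub1 : ∀ y, closedBall (chartAt E y y) (ρ y) ⊆ (chartAt E y).target := fun y =>
    (closedBall_subset_closedBall (by linarith [hρ y])).trans (hsub y)
  let O : B → Set B := fun y => (chartAt E y).source ∩ chartAt E y ⁻¹' ball (chartAt E y y) (ρ y)
  have hO : ∀ y, IsOpen (O y) := fun y => (chartAt E y).isOpen_inter_preimage isOpen_ball
  have hK : IsCompact {q | edist p q ≤ 1} := by simpa using k.compact p 1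
  obtain ⟨s, -, hs⟩ := hK.elim_nhds_subcover O fun y _ =>
    (hO y).mem_nhds ⟨mem_chart_source E y, mem_ball_self (hρ y)⟩
  obtain ⟨δ, hδ, hleb⟩ := lebesgue_number_lemma_of_emetric (c := fun y : s => O y) hK
    (fun y => hO y) (by
      intro q hq
      obtain ⟨y, hy, h⟩ := mem_iUnion₂.1 (hs hq)
      exact mem_iUnion.2 ⟨⟨y, hy⟩, h⟩)
  obtain ⟨δ', hδ'0, hδ'⟩ : ∃ δ' : ℝ, 0 < δ' ∧ ENNReal.ofReal δ' ≤ δ := by
    obtain ⟨c, hc0, hc⟩ := ENNReal.lt_iff_exists_nnreal_btwn.1 hδ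
    exact ⟨c, by exact_mod_cast hc0, by simpa using hc.le⟩
  have e1 : ∀ᶠ x : ℝ × ℝ in (𝓝[>] 0) ×ˢ atTop, ∀ y ∈ s,
      ∀ z ∈ closedBall (chartAt E y y) (ρ y), k.Bd x.1 x.2 y z := by
    refine (Filter.eventually_all_finset _).2 fun y _ => ?_
    filter_upwards [prod_mem_prod (Ioo_mem_nhdsGT (hρ y))
      (s3a_bd k y (isCompact_closedBall _ _) (hsub y))]
    rintro ⟨r, N⟩ ⟨hr, hN⟩ z hz
    have hb : closedBall z r ⊆ closedBall (chartAt E y y) (2 * ρ y) :=
      closedBall_subset_closedBall' (by linarith [hr.2, mem_closedBall.1 hz])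
    exact ⟨hb.trans (hsub y), fun w hw => hN w (hb hw)⟩
  have e2 := (Filter.eventually_all_finset s).2 fun y _ =>
    (Filter.eventually_all_finset s).2 fun y' _ =>
      s3a_tr y y' (isCompact_closedBall _ _) (hsub1 y) (isCompact_closedBall _ _) (hsub1 y')
  have e3 : ∀ᶠ x : ℝ × ℝ in (𝓝[>] 0) ×ˢ atTop, 0 < x.1 ∧ 0 < x.2 := by
    filter_upwards [prod_mem_prod (self_mem_nhdsWithin (a := (0 : ℝ)) (s := Ioi 0))
      (eventually_gt_atTop (0 : ℝ))]
    rintro ⟨r, N⟩ ⟨hr, hN⟩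
    exact ⟨hr, hN⟩
  obtain ⟨⟨r, M⟩, a1, a2, a3, a4⟩ := (e1.and (e2.and e3)).exists
  refine ⟨s, fun y => closedBall (chartAt E y y) (ρ y), r, M, δ', a3, a4, hδ'0, a1, a2,
    fun q hq => ?_⟩
  obtain ⟨y, hy⟩ := hleb q hq
  refine ⟨y, y.2, fun q' hq' => ?_⟩
  have : q' ∈ O y := hy (by
    rw [Metric.mem_eball, edist_comm]
    exact hq'.trans_le hδ')
  exact ⟨this.1, ball_subset_closedBall this.2⟩

end Pool.Agent.MP_e62289_ag
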