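import Pool.Agent.MP_e62289_ag.S2
import Pool.Agent.MP_e62289_ag.S3

open Set Filter Topology Complex MeasureTheory Metric
open scoped Manifold ContDiff ComplexConjugate NNReal ENNReal

namespace Pool.Agent.MP_e62289_ag

section Aux

variable {E : Type} [NormedAddCommGroup E] [NormedSpace ℂ E]
  {B : Type} [EMetricSpace B] [ChartedSpace E B]

theorem S4_c_cont {n : ℕ} {p : B} (γ : Chain E n p) {j : ℕ} (hj : j < n) :
    ContinuousOn (γ.c j) (Icc 0 1) := fun t ht => (γ.der j hj t ht).continuousWithinAt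

theorem S4_int (k : KData E B) {n : ℕ} {p : B} (γ : Chain E n p) {j : ℕ} (hj : j < n) :
    IntervalIntegrable (fun t => k.G (γ.x j) (γ.c j t) (γ.c' j t) (γ.c' j t)) volume 0 1 := by
  apply ContinuousOn.intervalIntegrable
  rw [uIcc_of_le zero_le_one]
  exact (((k.smooth _).continuousOn.comp (S4_c_cont γ hj) (γ.maps j hj)).clm_apply
    (γ.cont j hj)).clm_apply (γ.cont j hj)

theorem S4_G_nonneg (k : KData E B) {x : B} {z : E} (hz : z ∈ (chartAt E x).target) (v : E) :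
    0 ≤ k.G x z v v := by
  by_cases hv : v = 0
  · simp [hv]
  · exact (k.pos x z hz v hv).le

theorem S4_Bd_mono {k : KData E B} {r M M' : ℝ} {y : B} {z : E} (h : k.Bd r M y z)
    (hM : M ≤ M') : k.Bd r M' y z := by
  refine ⟨h.1, fun w hw => ⟨fun v => ((h.2 w hw).1 v).trans ?_,
    fun i hi => ((h.2 w hw).2.1 i hi).trans hM, (h.2 w hw).2.2.trans hM⟩⟩
  exact mul_le_mul_of_nonneg_right hM (S4_G_nonneg k (h.1 hw) v)

theorem S4_left {n : ℕ} {p : B} (γ : Chain E n p) {j : ℕ} (hj : j < n) :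
    γ.q j ∈ (chartAt E (γ.x j)).source ∧ chartAt E (γ.x j) (γ.q j) = γ.c j 0 := by
  have h := γ.maps j hj (left_mem_Icc.2 zero_le_one)
  rw [← γ.left j hj]
  exact ⟨(chartAt E _).map_target h, (chartAt E _).right_inv h⟩

theorem S4_right {n : ℕ} {p : B} (γ : Chain E n p) {j : ℕ} (hj : j < n) :
    γ.q (j + 1) ∈ (chartAt E (γ.x j)).source ∧ chartAt E (γ.x j) (γ.q (j + 1)) = γ.c j 1 := by
  have h := γ.maps j hj (right_mem_Icc.2 zero_le_one)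
  rw [← γ.right j hj]
  exact ⟨(chartAt E _).map_target h, (chartAt E _).right_inv h⟩

theorem S4_abs {f g : ℝ → ℝ} (hf : IntervalIntegrable f volume 0 1)
    (hg : IntervalIntegrable g volume 0 1) {a c : ℝ}
    (h : ∀ t ∈ Icc (0 : ℝ) 1, |f t - a * g t| ≤ c * (1 + g t)) :
    |(∫ t in (0 : ℝ)..1, f t) - a * ∫ t in (0 : ℝ)..1, g t| ≤
      c * (1 + ∫ t in (0 : ℝ)..1, g t) := by
  have h1 : IntervalIntegrable (fun t => f t - a * g t) volume 0 1 := hf.sub (hg.const_mul a)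
  have h2 : IntervalIntegrable (fun t => c * (1 + g t)) volume 0 1 :=
    (intervalIntegrable_const.add hg).const_mul c
  have e1 : (∫ t in (0 : ℝ)..1, f t) - a * ∫ t in (0 : ℝ)..1, g t =
      ∫ t in (0 : ℝ)..1, (f t - a * g t) := by
    rw [intervalIntegral.integral_sub hf (hg.const_mul a), intervalIntegral.integral_const_mul]
  have e2 : c * (1 + ∫ t in (0 : ℝ)..1, g t) = ∫ t in (0 : ℝ)..1, c * (1 + g t) := by
    rw [intervalIntegral.integral_const_mul,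
      intervalIntegral.integral_add intervalIntegrable_const hg]
    simp
  rw [e1, e2]
  exact (intervalIntegral.abs_integral_le_integral_abs zero_le_one).trans
    (intervalIntegral.integral_mono_on zero_le_one h1.abs h2 h)

theorem S4_four {f₀ f₁ f₂ f₃ g : ℝ → ℝ} (h₀ : IntervalIntegrable f₀ volume 0 1)
    (h₁ : IntervalIntegrable f₁ volume 0 1) (h₂ : IntervalIntegrable f₂ volume 0 1)
    (h₃ : IntervalIntegrable f₃ volume 0 1) (hg : IntervalIntegrable g volume 0 1) {a c : ℝ}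
    (h : ∀ t ∈ Icc (0 : ℝ) 1, f₀ t + f₁ t + f₂ t + f₃ t ≤ a * g t + c) :
    (∫ t in (0 : ℝ)..1, f₀ t) + (∫ t in (0 : ℝ)..1, f₁ t) + (∫ t in (0 : ℝ)..1, f₂ t) +
      (∫ t in (0 : ℝ)..1, f₃ t) ≤ a * (∫ t in (0 : ℝ)..1, g t) + c := by
  have e2 : a * (∫ t in (0 : ℝ)..1, g t) + c = ∫ t in (0 : ℝ)..1, (a * g t + c) := by
    rw [intervalIntegral.integral_add (hg.const_mul a) intervalIntegrable_const,
      intervalIntegral.integral_const_mul]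
    simp
  rw [e2, ← intervalIntegral.integral_add h₀ h₁, ← intervalIntegral.integral_add (h₀.add h₁) h₂,
    ← intervalIntegral.integral_add ((h₀.add h₁).add h₂) h₃]
  exact intervalIntegral.integral_mono_on zero_le_one (((h₀.add h₁).add h₂).add h₃)
    ((hg.const_mul a).add intervalIntegrable_const) h

/-- the junction points of the varied chain -/
noncomputable def S4Q {n : ℕ} {p : B} (γ : Chain E n p) (V : ℕ → ℝ → E) (ξ : ℂ) : ℕ → B
  | 0 => p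
  | j + 1 => (chartAt E (γ.x j)).symm (γ.c j 1 + ξ • V j 1)

/-- the varied chain -/
theorem S4_vary (k : KData E B) {n : ℕ} {p : B} (γ : Chain E n p) (V : ℕ → ℝ → E)
    (hV : ∀ j < n, ∀ t ∈ Icc (0 : ℝ) 1, HasDerivWithinAt (V j)
      (γ.c' j t - k.Γ (γ.x j) (γ.c j t) (γ.c' j t) (V j t)) (Icc 0 1) t)
    (R : ℕ → E) (ξ : ℂ)
    (hm : ∀ j < n, ∀ t ∈ Icc (0 : ℝ) 1,
      γ.c j t + ξ • V j t + (1 - t) • R j ∈ (chartAt E (γ.x j)).target)
    (hl : ∀ j < n, (chartAt E (γ.x j)).symm (γ.c j 0 + ξ • V j 0 + R j) = S4Q γ V ξ j) :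
    ∃ γ' : Chain E n p, γ'.x = γ.x ∧ γ'.q = S4Q γ V ξ ∧
      (∀ j t, γ'.c j t = γ.c j t + ξ • V j t + (1 - t) • R j) ∧
      ∀ j t, γ'.c' j t = γ.c' j t +
        ξ • (γ.c' j t - k.Γ (γ.x j) (γ.c j t) (γ.c' j t) (V j t)) - R j := by
  refine ⟨⟨γ.x, S4Q γ V ξ, fun j t => γ.c j t + ξ • V j t + (1 - t) • R j,
    fun j t => γ.c' j t + ξ • (γ.c' j t - k.Γ (γ.x j) (γ.c j t) (γ.c' j t) (V j t)) - R j,
    rfl, fun j hj => ?_, fun j hj t ht => ?_, fun j hj t ht => hm j hj t ht, fun j hj => ?_,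
    fun j hj => ?_⟩, rfl, rfl, fun _ _ => rfl, fun _ _ => rfl⟩
  · have h1 : ContinuousOn (V j) (Icc 0 1) := fun t ht => (hV j hj t ht).continuousWithinAt
    have h2 := (((k.Γ_cont _).comp (S4_c_cont γ hj) (γ.maps j hj)).clm_apply
      (γ.cont j hj)).clm_apply h1
    exact ((γ.cont j hj).add (((γ.cont j hj).sub h2).const_smul ξ)).sub continuousOn_const
  · have h1 : HasDerivWithinAt (fun t : ℝ => (1 - t) • R j) ((-1 : ℝ) • R j) (Icc 0 1) t :=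
      ((hasDerivWithinAt_id t _).const_sub 1).smul_const (R j)
    have h2 := ((γ.der j hj t ht).add ((hV j hj t ht).const_smul ξ)).add h1
    rw [neg_one_smul, ← sub_eq_add_neg] at h2
    exact h2
  · rw [← hl j hj]; simp
  · simp [S4Q]

end Aux

variable {E : Type} [NormedAddCommGroup E] [NormedSpace ℂ E] [FiniteDimensional ℂ E]
  {B : Type} [EMetricSpace B] [ChartedSpace E B]

theorem S4_energy_nonneg (k : KData E B) {n : ℕ} {p : B} (γ : Chain E n p) :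
    0 ≤ γ.energy k :=
  mul_nonneg (Nat.cast_nonneg n)
    (Finset.sum_nonneg fun _ hj => γ.seg_nonneg k (Finset.mem_range.1 hj))

/-- the field along a chain -/
theorem S4_field (k : KData E B) {n : ℕ} {p : B} (γ : Chain E n p) :
    ∃ V : ℕ → ℝ → E, V 0 0 = 0 ∧
      (∀ j, V (j + 1) 0 = fderiv ℝ (chartAt E (γ.x (j + 1)) ∘ (chartAt E (γ.x j)).symm)
        (γ.c j 1) (V j 1)) ∧
      (∀ j < n, ∀ t ∈ Icc (0 : ℝ) 1, HasDerivWithinAt (V j)
        (γ.c' j t - k.Γ (γ.x j) (γ.c j t) (γ.c' j t) (V j t)) (Icc 0 1) t) ∧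
      ∀ j < n, ∀ t ∈ Icc (0 : ℝ) 1, k.G (γ.x j) (γ.c j t) (V j t) (V j t) ≤ γ.energy k := by
  have : CompleteSpace E := FiniteDimensional.complete ℂ E
  have hW : ∀ (j : ℕ) (v : E), ∃ W : ℝ → E, W 0 = v ∧ (j < n → ∀ t ∈ Icc (0 : ℝ) 1,
      HasDerivWithinAt W (γ.c' j t - k.Γ (γ.x j) (γ.c j t) (γ.c' j t) (W t)) (Icc 0 1) t) := by
    intro j v
    by_cases hj : j < n
    · obtain ⟨W, h0, h1⟩ := lin_ode (A := fun t => k.Γ (γ.x j) (γ.c j t) (γ.c' j t))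
        (((k.Γ_cont _).comp (S4_c_cont γ hj) (γ.maps j hj)).clm_apply (γ.cont j hj))
        (γ.cont j hj) v
      exact ⟨W, h0, fun _ => h1⟩
    · exact ⟨fun _ => v, rfl, fun h => absurd h hj⟩
  choose W hW0 hW1 using hW
  let v : ℕ → E := fun j => Nat.rec 0 (fun j v => fderiv ℝ
    (chartAt E (γ.x (j + 1)) ∘ (chartAt E (γ.x j)).symm) (γ.c j 1) (W j v 1)) j
  have hstep : ∀ j < n, ∀ t ∈ Icc (0 : ℝ) 1,
      √(k.G (γ.x j) (γ.c j t) (W j (v j) t) (W j (v j) t)) ≤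
        √(k.G (γ.x j) (γ.c j 0) (v j) (v j)) + √(γ.seg k j) := by
    intro j hj t ht
    have := field_norm k (γ.x j) (γ.cont j hj) (γ.der j hj) (γ.maps j hj) (hW1 j (v j) hj) t ht
    rwa [hW0] at this
  have hind : ∀ j < n, √(k.G (γ.x j) (γ.c j 0) (v j) (v j)) ≤
      ∑ i ∈ Finset.range j, √(γ.seg k i) := by
    intro j
    induction j with
    | zero => intro _; simp [v]
    | succ j ih =>
      intro hj
      have hj' : j < n := by omega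
      have h1 := k.compat (γ.x j) (γ.x (j + 1)) (γ.q (j + 1))
        ⟨(S4_right γ hj').1, (S4_left γ hj).1⟩ (W j (v j) 1) (W j (v j) 1)
      rw [(S4_right γ hj').2, (S4_left γ hj).2] at h1
      have h2 : v (j + 1) = fderiv ℝ (chartAt E (γ.x (j + 1)) ∘ (chartAt E (γ.x j)).symm)
        (γ.c j 1) (W j (v j) 1) := rfl
      rw [h2, h1, Finset.sum_range_succ]
      exact (hstep j hj' 1 (right_mem_Icc.2 zero_le_one)).trans (by linarith [ih hj'])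
  refine ⟨fun j => W j (v j), hW0 _ _, fun j => hW0 _ _, fun j hj => hW1 j _ hj,
    fun j hj t ht => ?_⟩
  rw [← Real.sqrt_le_sqrt_iff (S4_energy_nonneg k γ)]
  have h3 := γ.sum_sqrt_le k (j := j + 1) hj
  rw [Finset.sum_range_succ] at h3
  linarith [hstep j hj t ht, hind j hj]

variable [IsManifold 𝓘(ℂ, E) ω B]

/-- short chains can be moved into good charts -/
theorem S4_chart (k : KData E B) {p : B} {s : Finset B} {A : B → Set E} {δ : ℝ} (hδ : 0 < δ)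
    (hc : ∀ q, edist p q ≤ 1 → ∃ y ∈ s, ∀ q', edist q q' < ENNReal.ofReal δ →
      q' ∈ (chartAt E y).source ∧ chartAt E y q' ∈ A y)
    {n : ℕ} (hn : 1 < n * δ ^ 2) (γ : Chain E n p) (h1 : γ.energy k ≤ 1) :
    ∃ γ' : Chain E n p, γ'.q = γ.q ∧ γ'.energy k = γ.energy k ∧
      ∀ j < n, γ'.x j ∈ s ∧ ∀ t ∈ Icc (0 : ℝ) 1, γ'.c j t ∈ A (γ'.x j) := by
  have hy : ∀ j, ∃ y, j < n → y ∈ s ∧ ∀ t ∈ Icc (0 : ℝ) 1,
      (chartAt E (γ.x j)).symm (γ.c j t) ∈ (chartAt E y).source ∧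
        chartAt E y ((chartAt E (γ.x j)).symm (γ.c j t)) ∈ A y := by
    intro j
    by_cases hj : j < n
    · obtain ⟨y, hy, h⟩ := hc (γ.q j) ((γ.edist_le k hj.le).trans (by
        rw [ENNReal.ofReal_le_one]; exact Real.sqrt_le_one.2 h1))
      refine ⟨y, fun _ => ⟨hy, fun t ht => h _ ((γ.edist_seg k hj ht).trans_lt ?_)⟩⟩
      rw [ENNReal.ofReal_lt_ofReal_iff hδ, Real.sqrt_lt' hδ]
      have h2 : γ.seg k j ≤ ∑ i ∈ Finset.range n, γ.seg k i :=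
        Finset.single_le_sum (fun i hi => γ.seg_nonneg k (Finset.mem_range.1 hi))
          (Finset.mem_range.2 hj)
      have h3 : (0 : ℝ) < n := by exact_mod_cast (by omega : 0 < n)
      have h4 : n * γ.seg k j ≤ γ.energy k := mul_le_mul_of_nonneg_left h2 h3.le
      exact lt_of_mul_lt_mul_left (by linarith) h3.le
    · exact ⟨p, fun h => absurd h hj⟩
  choose y hy using hy
  obtain ⟨γ', e1, e2, e3, e4⟩ := γ.rechart k y (fun j hj t ht => ((hy j hj).2 t ht).1)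
  refine ⟨γ', e2, ?_, fun j hj => ⟨e1 ▸ (hy j hj).1, fun t ht => ?_⟩⟩
  · unfold Chain.energy
    rw [Finset.sum_congr rfl fun j hj => e3 j (Finset.mem_range.1 hj)]
  · rw [e4 j hj t ht, e1]
    exact ((hy j hj).2 t ht).2

/-- holomorphic variation of chains -/
theorem chain_var (k : KData E B) (p : B) : ∃ (n : ℕ) (C ρ : ℝ), 0 < n ∧ 0 < C ∧ 0 < ρ ∧
    ∀ γ : Chain E n p, γ.energy k ≤ 1 → ∃ (x : B) (z V : E) (γ' : ℂ → Chain E n p),
      γ.q n = (chartAt E x).symm z ∧ ∀ ζ : ℂ, ‖ζ‖ ≤ ρ →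
        z + ζ • V ∈ (chartAt E x).target ∧ (γ' ζ).q n = (chartAt E x).symm (z + ζ • V) ∧
        |(γ' ζ).energy k - (1 + 2 * ζ.re) * γ.energy k| ≤ C * ‖ζ‖ ^ 2 ∧
        (γ' ζ).energy k + (γ' (I * ζ)).energy k + (γ' (-ζ)).energy k +
          (γ' (-(I * ζ))).energy k ≤ 4 * γ.energy k +
          4 * ‖ζ‖ ^ 2 * (1 + k.K / 2 * γ.energy k) * γ.energy k + C * ‖ζ‖ ^ 3 := by
  obtain ⟨s, A, r, M, δ, hr, hM, hδ, hB, hT, hc⟩ := unif_cover k p
  obtain ⟨M', ρ₁, hM', hρ₁, hL⟩ := line_taylor (E := E) hr (by linarith : 0 < M + 1)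
  obtain ⟨C, ρ₂, hC, hρ₂, hP⟩ := point_taylor k hr (by linarith : 0 < M + 1 + M')
  obtain ⟨m, hm⟩ := exists_nat_gt (1 / δ ^ 2)
  have hn : 1 < ((m + 1 : ℕ) : ℝ) * δ ^ 2 := by
    rw [div_lt_iff₀ (by positivity)] at hm
    push_cast
    nlinarith [sq_pos_of_pos hδ]
  refine ⟨m + 1, C * (((m + 1 : ℕ) : ℝ) ^ 2 + 1), min ρ₁ ρ₂, by omega, by positivity,
    lt_min hρ₁ hρ₂, fun γ₀ h₀ => ?_⟩
  obtain ⟨γ, eq, ee, hA⟩ := S4_chart k hδ hc hn γ₀ h₀
  rw [← eq, ← ee]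
  rw [← ee] at h₀
  clear eq ee γ₀
  obtain ⟨V, hV0, hVs, hV, hVE⟩ := S4_field k γ
  have hBd : ∀ j < m + 1, ∀ t ∈ Icc (0 : ℝ) 1, k.Bd r M (γ.x j) (γ.c j t) :=
    fun j hj t ht => hB _ (hA j hj).1 _ ((hA j hj).2 t ht)
  have hVn : ∀ j < m + 1, ∀ t ∈ Icc (0 : ℝ) 1, ‖V j t‖ ≤ M + 1 := by
    intro j hj t ht
    have h1 := ((hBd j hj t ht).2 _ (mem_closedBall_self hr.le)).1 (V j t)
    have h2 := mul_le_mul_of_nonneg_left ((hVE j hj t ht).trans h₀) hM.le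
    exact le_of_sq_le_sq (by nlinarith) (by linarith)
  have hR : ∀ j, ∃ (R : ℂ → E) (R₂ : E), j < m + 1 → ‖R₂‖ ≤ M' ∧ ∀ ξ : ℂ, ‖ξ‖ ≤ ρ₁ →
      ‖R ξ - ξ ^ 2 • R₂‖ ≤ M' * ‖ξ‖ ^ 3 ∧
        (chartAt E (γ.x j)).symm (γ.c j 0 + ξ • V j 0 + R ξ) = S4Q γ V ξ j := by
    intro j
    by_cases hj : j < m + 1
    swap
    · exact ⟨0, 0, fun h => absurd h hj⟩
    cases j with
    | zero =>
      refine ⟨0, 0, fun _ => ⟨by simpa using hM'.le, fun ξ _ => ⟨by simp; positivity, ?_⟩⟩⟩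
      simp [hV0, S4Q, γ.left 0 hj, γ.q0]
    | succ j =>
      have hj' : j < m + 1 := by omega
      have o1 : (1 : ℝ) ∈ Icc (0 : ℝ) 1 := right_mem_Icc.2 zero_le_one
      have o0 : (0 : ℝ) ∈ Icc (0 : ℝ) 1 := left_mem_Icc.2 zero_le_one
      obtain ⟨a1, a2⟩ := S4_right γ hj'
      obtain ⟨b1, b2⟩ := S4_left γ hj
      obtain ⟨d1, d2⟩ := hT _ (hA j hj').1 _ (hA _ hj).1 _ ⟨a1, b1⟩
        (a2 ▸ (hA j hj').2 1 o1) (b2 ▸ (hA _ hj).2 0 o0)
      rw [a2] at d1 d2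
      rw [b2] at d2
      have e0 : (chartAt E (γ.x (j + 1)) ∘ (chartAt E (γ.x j)).symm) (γ.c j 1) =
          γ.c (j + 1) 0 := by
        rw [Function.comp_apply, γ.right j hj', b2]
      obtain ⟨R₂, f1, f2⟩ := hL _ _ (V j 1) d1
        (fun w hw => by rw [e0]; exact (d2 w hw).2.trans (by linarith)) (hVn j hj' 1 o1)
      refine ⟨fun ξ => (chartAt E (γ.x (j + 1)) ∘ (chartAt E (γ.x j)).symm)
        (γ.c j 1 + ξ • V j 1) - γ.c (j + 1) 0 - ξ • V (j + 1) 0, R₂,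
        fun _ => ⟨f1, fun ξ hξ => ⟨?_, ?_⟩⟩⟩
      · have := (f2 ξ hξ).2
        rwa [e0, ← hVs] at this
      · have e1 : ∀ a b c : E, a + b + (c - a - b) = c := fun a b c => by abel
        rw [e1]
        exact (chartAt E _).left_inv (d2 _ (f2 ξ hξ).1).1
  choose R R₂ hR using hR
  have hpt : ∀ ζ : ℂ, ‖ζ‖ ≤ min ρ₁ ρ₂ → ∀ j < m + 1, ∀ t ∈ Icc (0 : ℝ) 1, _ :=
    fun ζ hζ j hj t ht => hP (γ.x j) (γ.c j t) (γ.c' j t) (V j t) (R₂ j) (R j) (1 - t) ζ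
      (S4_Bd_mono (hBd j hj t ht) (by linarith)) ((hVn j hj t ht).trans (by linarith))
      ((hR j hj).1.trans (by linarith)) ⟨by linarith [ht.2], by linarith [ht.1]⟩
      (hζ.trans (min_le_right _ _))
      (fun ξ hξ => (((hR j hj).2 ξ (hξ ▸ hζ.trans (min_le_left _ _))).1).trans
        (mul_le_mul_of_nonneg_right (by linarith) (by positivity))) _ (fun _ => rfl)
  have hγ : ∀ ξ : ℂ, ∃ γ' : Chain E (m + 1) p, ‖ξ‖ ≤ min ρ₁ ρ₂ →
      γ'.x = γ.x ∧ γ'.q = S4Q γ V ξ ∧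
      (∀ j t, γ'.c j t = γ.c j t + ξ • V j t + (1 - t) • R j ξ) ∧
      ∀ j t, γ'.c' j t = γ.c' j t +
        ξ • (γ.c' j t - k.Γ (γ.x j) (γ.c j t) (γ.c' j t) (V j t)) - R j ξ := by
    intro ξ
    by_cases hξ : ‖ξ‖ ≤ min ρ₁ ρ₂
    · obtain ⟨γ', h⟩ := S4_vary k γ V hV (fun j => R j ξ) ξ
        (fun j hj t ht => (hBd j hj t ht).1 (hpt ξ hξ j hj t ht).1)
        (fun j hj => ((hR j hj).2 ξ (hξ.trans (min_le_left _ _))).2)
      exact ⟨γ', fun _ => h⟩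
    · exact ⟨γ, fun h => absurd h hξ⟩
  choose γ' hγ' using hγ
  have hG : ∀ ξ : ℂ, ‖ξ‖ ≤ min ρ₁ ρ₂ → ∀ j t,
      k.G ((γ' ξ).x j) ((γ' ξ).c j t) ((γ' ξ).c' j t) ((γ' ξ).c' j t) =
      k.G (γ.x j) (γ.c j t + ξ • V j t + (1 - t) • R j ξ)
        (γ.c' j t + ξ • (γ.c' j t - k.Γ (γ.x j) (γ.c j t) (γ.c' j t) (V j t)) - R j ξ)
        (γ.c' j t + ξ • (γ.c' j t - k.Γ (γ.x j) (γ.c j t) (γ.c' j t) (V j t)) - R j ξ) := by
    intro ξ hξ j t
    obtain ⟨e1, -, e2, e3⟩ := hγ' ξ hξ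
    rw [e1, e2, e3]
  have hN : (0 : ℝ) ≤ ((m + 1 : ℕ) : ℝ) := Nat.cast_nonneg _
  refine ⟨γ.x m, γ.c m 1, V m 1, γ', (γ.right m (by omega)).symm, fun ζ hζ => ⟨?_, ?_, ?_, ?_⟩⟩
  · have o1 : (1 : ℝ) ∈ Icc (0 : ℝ) 1 := right_mem_Icc.2 zero_le_one
    have := (hBd m (by omega) 1 o1).1 (hpt ζ hζ m (by omega) 1 o1).1
    simpa using this
  · rw [(hγ' ζ hζ).2.1]; rfl
  · have h1 : ∀ j ∈ Finset.range (m + 1), |(γ' ζ).seg k j - (1 + 2 * ζ.re) * γ.seg k j| ≤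
        C * ‖ζ‖ ^ 2 * (1 + γ.seg k j) := by
      intro j hj
      have hj := Finset.mem_range.1 hj
      refine S4_abs (S4_int k _ hj) (S4_int k _ hj) fun t ht => ?_
      rw [hG ζ hζ]
      exact (hpt ζ hζ j hj t ht).2.1.trans_eq (by ring)
    have h2 := (Finset.abs_sum_le_sum_abs _ _).trans (Finset.sum_le_sum h1)
    rw [Finset.sum_sub_distrib, ← Finset.mul_sum, ← Finset.mul_sum, Finset.sum_add_distrib,
      Finset.sum_const, Finset.card_range, nsmul_eq_mul, mul_one] at h2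
    have h3 := mul_le_mul_of_nonneg_left h2 hN
    rw [← abs_of_nonneg hN, ← abs_mul, abs_of_nonneg hN] at h3
    unfold Chain.energy at h₀ ⊢
    have h4 := mul_le_mul_of_nonneg_left h₀ (by positivity : 0 ≤ C * ‖ζ‖ ^ 2)
    refine le_trans (le_of_eq (congrArg _ (by ring))) (h3.trans ?_)
    nlinarith
  · have n1 : ‖I * ζ‖ ≤ min ρ₁ ρ₂ := by simpa using hζ
    have n2 : ‖-ζ‖ ≤ min ρ₁ ρ₂ := by simpa using hζ
    have n3 : ‖-(I * ζ)‖ ≤ min ρ₁ ρ₂ := by simpa using hζ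
    have h1 : ∀ j ∈ Finset.range (m + 1), (γ' ζ).seg k j + (γ' (I * ζ)).seg k j +
        (γ' (-ζ)).seg k j + (γ' (-(I * ζ))).seg k j ≤
        (4 + 4 * ‖ζ‖ ^ 2 * (1 + k.K / 2 * γ.energy k) + C * ‖ζ‖ ^ 3) * γ.seg k j +
          C * ‖ζ‖ ^ 3 := by
      intro j hj
      have hj := Finset.mem_range.1 hj
      refine S4_four (S4_int k _ hj) (S4_int k _ hj) (S4_int k _ hj) (S4_int k _ hj)
        (S4_int k _ hj) fun t ht => ?_
      rw [hG ζ hζ, hG _ n1, hG _ n2, hG _ n3]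
      refine (hpt ζ hζ j hj t ht).2.2.trans ?_
      have g1 := S4_G_nonneg k (γ.maps j hj ht) (γ.c' j t)
      have g2 := mul_le_mul_of_nonneg_left (hVE j hj t ht)
        (mul_nonneg (mul_nonneg (sq_nonneg ‖ζ‖) k.K_nonneg) g1)
      nlinarith
    have h2 := Finset.sum_le_sum h1
    simp only [Finset.sum_add_distrib, ← Finset.mul_sum, Finset.sum_const, Finset.card_range,
      nsmul_eq_mul] at h2
    have h3 := mul_le_mul_of_nonneg_left h2 hN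
    have h4 := mul_le_mul_of_nonneg_left h₀ (by positivity : 0 ≤ C * ‖ζ‖ ^ 3)
    have e0 : γ.energy k = ((m + 1 : ℕ) : ℝ) * ∑ j ∈ Finset.range (m + 1), γ.seg k j := rfl
    have e1 : ∀ ξ, (γ' ξ).energy k =
      ((m + 1 : ℕ) : ℝ) * ∑ j ∈ Finset.range (m + 1), (γ' ξ).seg k j := fun _ => rfl
    rw [e1, e1, e1, e1]
    generalize γ.energy k = e at *
    generalize 4 * ‖ζ‖ ^ 2 * (1 + k.K / 2 * e) = u at *
    have h5 : ((m + 1 : ℕ) : ℝ) * ((4 + u + C * ‖ζ‖ ^ 3) *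
        ∑ j ∈ Finset.range (m + 1), γ.seg k j) = (4 + u + C * ‖ζ‖ ^ 3) * e := by rw [e0]; ring
    nlinarith

end Pool.Agent.MP_e62289_ag
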