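import Pool.Agent.MP_e62289_ag.F1

open Set Filter Topology Complex MeasureTheory Metric
open scoped Manifold ContDiff ComplexConjugate NNReal ENNReal

namespace Pool.Agent.MP_e62289_ag

namespace Family

variable {E : Type} [NormedAddCommGroup E] [NormedSpace ℂ E] {B : Type} [TopologicalSpace B]
  [ChartedSpace E B] {n : ℕ} {a : Fin n → ℕ} (C : Family E B a)

/-- a smooth family of holomorphic local sections through the points of `W` over `b₀` -/
structure PreTriv (b₀ : B) (W : Set C.X) where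
  U : Set B
  isOpen : IsOpen U
  mem : b₀ ∈ U
  F : B → C.X → C.X
  proj : ∀ b ∈ U, ∀ x ∈ W, C.proj x = b₀ → C.proj (F b x) = b
  base : ∀ x ∈ W, C.proj x = b₀ → F b₀ x = x
  contF : ContinuousOn (fun p : B × C.X => F p.1 p.2) (U ×ˢ (W ∩ C.proj ⁻¹' {b₀}))
  smooth : ∀ x y, ContMDiffOn (𝓘(ℝ, E).prod 𝓘(ℝ, ℂ)) 𝓘(ℝ, ℂ) 2
    (fun p : B × ℂ => (C.chart y (F p.1 ((C.chart x).symm (p.2, b₀)))).1)
    {p | p.1 ∈ U ∧ (p.2, b₀) ∈ (C.chart x).target ∧ (C.chart x).symm (p.2, b₀) ∈ W ∧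
      F p.1 ((C.chart x).symm (p.2, b₀)) ∈ (C.chart y).source}
  hol : ∀ y, ∀ x ∈ W, C.proj x = b₀ → MDifferentiableOn 𝓘(ℂ, E) 𝓘(ℂ, ℂ)
    (fun b => (C.chart y (F b x)).1) {b | b ∈ U ∧ F b x ∈ (C.chart y).source}
  near : ∀ i, ∀ᶠ x in 𝓝 (C.sec i b₀), C.proj x = b₀ → ∀ b ∈ U,
    C.sec i b ∈ (C.chart (C.sec i b₀)).source ∧ F b x ∈ (C.chart (C.sec i b₀)).source ∧
      (C.chart (C.sec i b₀) (F b x)).1 = (C.chart (C.sec i b₀) x).1 -
        (C.chart (C.sec i b₀) (C.sec i b₀)).1 + (C.chart (C.sec i b₀) (C.sec i b)).1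

variable [FiniteDimensional ℂ E] [IsManifold 𝓘(ℂ, E) ω B] [IsManifold 𝓘(ℝ, E) ∞ B]

omit [FiniteDimensional ℂ E] [IsManifold 𝓘(ℂ, E) ω B] [IsManifold 𝓘(ℝ, E) ∞ B] in
theorem T1a_contAt {i : Fin n} {x : C.X} {b : B} (h : C.sec i b ∈ (C.chart x).source) :
    ContinuousAt (fun b => (C.chart x (C.sec i b)).1) b :=
  continuousAt_fst.comp (((C.chart x).continuousAt h).comp (C.cont_sec i).continuousAt)

omit [FiniteDimensional ℂ E] [IsManifold 𝓘(ℂ, E) ω B] [IsManifold 𝓘(ℝ, E) ∞ B] in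
theorem T1a_box (b₀ : B) (i : Fin n) : ∃ (N : Set ℂ) (U : Set B), IsOpen N ∧ IsOpen U ∧
    (C.chart (C.sec i b₀) (C.sec i b₀)).1 ∈ N ∧ b₀ ∈ U ∧
    (∀ b ∈ U, C.sec i b ∈ (C.chart (C.sec i b₀)).source) ∧
    ∀ z ∈ N, ∀ b ∈ U, (z - (C.chart (C.sec i b₀) (C.sec i b₀)).1 +
      (C.chart (C.sec i b₀) (C.sec i b)).1, b) ∈ (C.chart (C.sec i b₀)).target := by
  set s := C.sec i b₀ with hs
  have hc : ContinuousAt (fun p : ℂ × B =>
      (p.1 - (C.chart s s).1 + (C.chart s (C.sec i p.2)).1, p.2)) ((C.chart s s).1, b₀) := by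
    refine ContinuousAt.prodMk (ContinuousAt.add (by fun_prop) ?_) continuousAt_snd
    exact ContinuousAt.comp (f := Prod.snd) (C.T1a_contAt (C.mem_source s)) continuousAt_snd
  have hm : (fun p : ℂ × B => (p.1 - (C.chart s s).1 + (C.chart s (C.sec i p.2)).1, p.2))
      ((C.chart s s).1, b₀) ∈ (C.chart s).target := by
    have e := C.chart_eq (C.mem_source s)
    rw [show C.proj s = b₀ from C.proj_sec i b₀] at e
    simp only [sub_self, zero_add, ← hs]
    rw [e]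
    exact (C.chart s).map_source (C.mem_source s)
  have h1 := hc.preimage_mem_nhds ((C.chart s).open_target.mem_nhds hm)
  obtain ⟨N, U, hN, hzN, hU, hbU, hNU⟩ := mem_nhds_prod_iff'.1 h1
  refine ⟨N, U ∩ C.sec i ⁻¹' (C.chart s).source, hN,
    hU.inter ((C.chart s).open_source.preimage (C.cont_sec i)), hzN, ⟨hbU, C.mem_source s⟩,
    fun b hb => hb.2, fun z hz b hb => ?_⟩
  exact hNU (mk_mem_prod hz hb.1)

theorem T1a_trans {x y : C.X} {w : ℂ × B} (hx : w ∈ (C.chart x).target)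
    (hy : (C.chart x).symm w ∈ (C.chart y).source) :
    ContMDiffAt (𝓘(ℝ, ℂ).prod 𝓘(ℝ, E)) 𝓘(ℝ, ℂ) 2
      (fun w => (C.chart y ((C.chart x).symm w)).1) w := by
  have hO := ((C.chart x).symm ≫ₕ C.chart y).open_source
  refine ((smooth_of_hol hO (C.hol_chart x y)).contMDiffAt (hO.mem_nhds ?_)).of_le
    (WithTop.coe_le_coe.2 (le_top : (2 : ℕ∞) ≤ ⊤))
  exact ⟨hx, hy⟩

theorem T1a_sec {i : Fin n} {x : C.X} {b : B} (h : C.sec i b ∈ (C.chart x).source) :
    ContMDiffAt 𝓘(ℝ, E) 𝓘(ℝ, ℂ) 2 (fun b => (C.chart x (C.sec i b)).1) b := by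
  have hO := (C.chart x).open_source.preimage (C.cont_sec i)
  exact ((smooth_of_hol' hO (C.hol_sec i x)).contMDiffAt (hO.mem_nhds h)).of_le
    (WithTop.coe_le_coe.2 (le_top : (2 : ℕ∞) ≤ ⊤))

theorem preTriv_start (b₀ : B) :
    ∃ W, IsOpen W ∧ (∀ i, C.sec i b₀ ∈ W) ∧ Nonempty (C.PreTriv b₀ W) := by
  classical
  obtain ⟨O, hO, hdisj⟩ := (finite_range fun i => C.sec i b₀).t2_separation
  choose N U hN hU hzN hbU hsU hT using C.T1a_box b₀
  set s : Fin n → C.X := fun i => C.sec i b₀ with hs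
  set W : Fin n → Set C.X := fun i =>
    O (s i) ∩ ((C.chart (s i)).source ∩ C.chart (s i) ⁻¹' (Prod.fst ⁻¹' N i)) with hW
  have hWo : ∀ i, IsOpen (W i) := fun i =>
    (hO _).2.inter ((C.chart (s i)).isOpen_inter_preimage ((hN i).preimage continuous_fst))
  have hsW : ∀ i, s i ∈ W i := fun i => ⟨(hO _).1, C.mem_source _, hzN i⟩
  have huniq : ∀ i j x, x ∈ W i → x ∈ W j → i = j := by
    intro i j x hi hj
    by_contra hne
    exact Set.disjoint_left.1 (hdisj (mem_range_self i) (mem_range_self j)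
      fun h => hne (C.inj_sec b₀ h)) hi.1 hj.1
  set τ : Fin n → B → C.X → ℂ × B := fun i b x =>
    ((C.chart (s i) x).1 - (C.chart (s i) (s i)).1 + (C.chart (s i) (C.sec i b)).1, b) with hτ
  obtain ⟨F, hF⟩ : ∃ F : B → C.X → C.X, ∀ i, ∀ x ∈ W i, ∀ b,
      F b x = (C.chart (s i)).symm (τ i b x) := by
    refine ⟨fun b x => if h : ∃ i, x ∈ W i then
      (C.chart (s h.choose)).symm (τ h.choose b x) else x, fun i x hx b => ?_⟩
    have h : ∃ i, x ∈ W i := ⟨i, hx⟩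
    simp only [dif_pos h]
    rw [huniq _ _ x h.choose_spec hx]
  have hτT : ∀ i, ∀ x ∈ W i, ∀ b ∈ ⋂ i, U i, τ i b x ∈ (C.chart (s i)).target :=
    fun i x hx b hb => hT i _ hx.2.2 b (mem_iInter.1 hb i)
  refine ⟨⋃ i, W i, isOpen_iUnion hWo, fun i => mem_iUnion.2 ⟨i, hsW i⟩, ⟨{
    U := ⋂ i, U i
    isOpen := isOpen_iInter_of_finite hU
    mem := mem_iInter.2 hbU
    F := F
    proj := ?_
    base := ?_
    contF := ?_
    smooth := ?_
    hol := ?_
    near := ?_ }⟩⟩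
  · intro b hb x hx _
    obtain ⟨i, hi⟩ := mem_iUnion.1 hx
    rw [hF i x hi, C.proj_symm (hτT i x hi b hb)]
  · intro x hx hp
    obtain ⟨i, hi⟩ := mem_iUnion.1 hx
    have e := C.chart_eq hi.2.1
    rw [hp] at e
    rw [hF i x hi]
    simp only [hτ, hs, sub_add_cancel]
    rw [e]
    exact (C.chart (s i)).left_inv hi.2.1
  · rintro ⟨b, x⟩ ⟨hb, hx, -⟩
    obtain ⟨i, hi⟩ := mem_iUnion.1 hx
    refine ContinuousAt.continuousWithinAt ?_
    have h1 : ContinuousAt (fun p : B × C.X => τ i p.1 p.2) (b, x) := by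
      refine ContinuousAt.prodMk (ContinuousAt.add (ContinuousAt.sub ?_ continuousAt_const) ?_)
        continuousAt_fst
      · exact continuousAt_fst.comp (ContinuousAt.comp (f := Prod.snd)
          ((C.chart (s i)).continuousAt hi.2.1) continuousAt_snd)
      · exact ContinuousAt.comp (f := Prod.fst) (C.T1a_contAt (hsU i b (mem_iInter.1 hb i)))
          continuousAt_fst
    have h2 := ContinuousAt.comp (f := fun p : B × C.X => τ i p.1 p.2)
      ((C.chart (s i)).continuousAt_symm (hτT i x hi b hb)) h1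
    refine h2.congr ?_
    filter_upwards [continuousAt_snd.preimage_mem_nhds ((hWo i).mem_nhds hi)] with p hp
    exact (hF i p.2 hp p.1).symm
  · rintro x y ⟨b, z⟩ ⟨hb, hz, hx, hy⟩
    obtain ⟨i, hi⟩ := mem_iUnion.1 hx
    refine ContMDiffAt.contMDiffWithinAt ?_
    have hA : ContMDiffAt (𝓘(ℝ, E).prod 𝓘(ℝ, ℂ)) (𝓘(ℝ, ℂ).prod 𝓘(ℝ, E)) 2
        (fun p : B × ℂ => (p.2, b₀)) (b, z) := contMDiffAt_snd.prodMk contMDiffAt_const
    have h1 := ContMDiffAt.comp (f := fun p : B × ℂ => (p.2, b₀)) (b, z)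
      (C.T1a_trans hz hi.2.1) hA
    have h2 := ContMDiffAt.comp (f := Prod.fst) (I := 𝓘(ℝ, E).prod 𝓘(ℝ, ℂ)) (b, z)
      (C.T1a_sec (hsU i b (mem_iInter.1 hb i))) contMDiffAt_fst
    have h3 : ContMDiffAt (𝓘(ℝ, E).prod 𝓘(ℝ, ℂ)) (𝓘(ℝ, ℂ).prod 𝓘(ℝ, E)) 2
        (fun p : B × ℂ => τ i p.1 ((C.chart x).symm (p.2, b₀))) (b, z) :=
      ((h1.sub contMDiffAt_const).add h2).prodMk contMDiffAt_fst
    have hy' : (C.chart (s i)).symm (τ i b ((C.chart x).symm (z, b₀))) ∈ (C.chart y).source := by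
      rw [← hF i _ hi]
      exact hy
    have h4 := ContMDiffAt.comp (f := fun p : B × ℂ => τ i p.1 ((C.chart x).symm (p.2, b₀)))
      (b, z) (C.T1a_trans (hτT i _ hi b hb) hy') h3
    refine h4.congr_of_eventuallyEq ?_
    have h5 : ContinuousAt (fun p : B × ℂ => (C.chart x).symm (p.2, b₀)) (b, z) :=
      ContinuousAt.comp (f := fun p : B × ℂ => (p.2, b₀)) ((C.chart x).continuousAt_symm hz)
        hA.continuousAt
    filter_upwards [h5.preimage_mem_nhds ((hWo i).mem_nhds hi)] with p hp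
    simp only [Function.comp_apply]
    rw [hF i _ hp]
  · intro y x hx _
    obtain ⟨i, hi⟩ := mem_iUnion.1 hx
    have h1 : MDifferentiableOn 𝓘(ℂ, E) (𝓘(ℂ, ℂ).prod 𝓘(ℂ, E)) (fun b => τ i b x)
        {b | b ∈ ⋂ i, U i ∧ F b x ∈ (C.chart y).source} :=
      MDifferentiableOn.prodMk (mdifferentiableOn_const.add ((C.hol_sec i (s i)).mono
        fun b hb => hsU i b (mem_iInter.1 hb.1 i))) mdifferentiableOn_id
    refine ((C.hol_chart (s i) y).comp h1 fun b hb => ⟨hτT i x hi b hb.1, ?_⟩).congr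
      fun b _ => ?_
    · have := hb.2
      rw [hF i x hi] at this
      exact this
    · simp only [Function.comp_apply]
      rw [hF i x hi]
  · intro i
    filter_upwards [(hWo i).mem_nhds (hsW i)] with x hx _ b hb
    refine ⟨hsU i b (mem_iInter.1 hb i), ?_, ?_⟩
    · rw [hF i x hx]
      exact (C.chart (s i)).map_target (hτT i x hx b hb)
    · rw [hF i x hx]
      exact congrArg Prod.fst ((C.chart (s i)).right_inv (hτT i x hx b hb))

end Family

end Pool.Agent.MP_e62289_ag
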