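import Pool.Agent.MP_e62289_ag.F1
import Pool.Agent.MP_e62289_ag.T1a

open Set Filter Topology Complex MeasureTheory Metric
open scoped Manifold ContDiff ComplexConjugate NNReal ENNReal

namespace Pool.Agent.MP_e62289_ag

namespace Family

variable {E : Type} [NormedAddCommGroup E] [NormedSpace ℂ E] {B : Type} [TopologicalSpace B]
  [ChartedSpace E B] {n : ℕ} {a : Fin n → ℕ} (C : Family E B a)

/-- pointwise form of the regularity of scalar functions -/
structure T1bS (b₀ : B) (g : B → C.X → ℂ) (b : B) (x : C.X) : Prop where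
  cont : ContinuousWithinAt (fun p : B × C.X => g p.1 p.2) (univ ×ˢ (C.proj ⁻¹' {b₀})) (b, x)
  smooth : ∀ x₀, x ∈ (C.chart x₀).source → ContMDiffAt (𝓘(ℝ, E).prod 𝓘(ℝ, ℂ)) 𝓘(ℝ, ℂ) 2
    (fun p : B × ℂ => g p.1 ((C.chart x₀).symm (p.2, b₀))) (b, (C.chart x₀ x).1)
  hol : MDifferentiableAt 𝓘(ℂ, E) 𝓘(ℂ, ℂ) (fun b => g b x) b

/-- pointwise form of the regularity of families of sections -/
structure T1bG (b₀ : B) (F : B → C.X → C.X) (b : B) (x : C.X) : Prop where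
  proj : C.proj (F b x) = b
  cont : ContinuousWithinAt (fun p : B × C.X => F p.1 p.2) (univ ×ˢ (C.proj ⁻¹' {b₀})) (b, x)
  sc : ∀ y, F b x ∈ (C.chart y).source → C.T1bS b₀ (fun b x => (C.chart y (F b x)).1) b x

variable {C} {b₀ b : B} {x : C.X}

theorem T1b_symm {x₀ : C.X} (hx : C.proj x = b₀) (h : x ∈ (C.chart x₀).source) :
    ((C.chart x₀ x).1, b₀) ∈ (C.chart x₀).target ∧
      (C.chart x₀).symm ((C.chart x₀ x).1, b₀) = x := by
  rw [← hx, C.chart_eq h]
  exact ⟨(C.chart x₀).map_source h, (C.chart x₀).left_inv h⟩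

theorem T1b_tendsto {x₀ : C.X} (hx : C.proj x = b₀) (h : x ∈ (C.chart x₀).source) (b : B) :
    Tendsto (fun p : B × ℂ => (p.1, (C.chart x₀).symm (p.2, b₀))) (𝓝 (b, (C.chart x₀ x).1))
      (𝓝[univ ×ˢ (C.proj ⁻¹' {b₀})] (b, x)) := by
  obtain ⟨h1, h2⟩ := T1b_symm hx h
  have c1 : ContinuousAt (fun p : B × ℂ => (p.2, b₀)) (b, (C.chart x₀ x).1) := by fun_prop
  refine tendsto_nhdsWithin_iff.2 ⟨?_, ?_⟩
  · have c2 := ContinuousAt.comp_of_eq ((C.chart x₀).continuousAt_symm h1) c1 rfl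
    have c3 := (continuousAt_fst (p := (b, (C.chart x₀ x).1))).prodMk c2
    have := c3.tendsto
    simp only [Function.comp_apply, h2] at this
    exact this
  · filter_upwards [c1.eventually ((C.chart x₀).open_target.mem_nhds h1)] with p hp
    exact ⟨mem_univ _, C.proj_symm hp⟩

theorem T1bS.congr {g g' : B → C.X → ℂ} (h : C.T1bS b₀ g b x) (hx : C.proj x = b₀)
    (e : ∀ᶠ p in 𝓝[univ ×ˢ (C.proj ⁻¹' {b₀})] (b, x), g' p.1 p.2 = g p.1 p.2) :
    C.T1bS b₀ g' b x where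
  cont := h.cont.congr_of_eventuallyEq_of_mem e ⟨mem_univ _, hx⟩
  smooth x₀ h₀ := (h.smooth x₀ h₀).congr_of_eventuallyEq ((T1b_tendsto hx h₀ b).eventually e)
  hol := h.hol.congr_of_eventuallyEq (by
    have : Tendsto (fun b' : B => (b', x)) (𝓝 b) (𝓝[univ ×ˢ (C.proj ⁻¹' {b₀})] (b, x)) :=
      tendsto_nhdsWithin_iff.2 ⟨(Continuous.prodMk_left x).tendsto b,
        Eventually.of_forall fun _ => ⟨mem_univ _, hx⟩⟩
    exact this.eventually e)

theorem T1bG.congr {F F' : B → C.X → C.X} (h : C.T1bG b₀ F b x) (hx : C.proj x = b₀)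
    (e : ∀ᶠ p in 𝓝[univ ×ˢ (C.proj ⁻¹' {b₀})] (b, x), F' p.1 p.2 = F p.1 p.2) :
    C.T1bG b₀ F' b x := by
  have e0 : F' b x = F b x := e.self_of_nhdsWithin (x := (b, x)) ⟨mem_univ _, hx⟩
  refine ⟨e0 ▸ h.proj, h.cont.congr_of_eventuallyEq_of_mem e ⟨mem_univ _, hx⟩, fun y hy => ?_⟩
  exact (h.sc y (e0 ▸ hy)).congr hx (e.mono fun p hp => by simp only [hp])

theorem PreTriv.T1b_good {W : Set C.X} (τ : C.PreTriv b₀ W) (hW : IsOpen W) (hb : b ∈ τ.U)
    (hxW : x ∈ W) (hx : C.proj x = b₀) : C.T1bG b₀ τ.F b x := by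
  have c1 : ContinuousWithinAt (fun p : B × C.X => τ.F p.1 p.2) (univ ×ˢ (C.proj ⁻¹' {b₀}))
      (b, x) := by
    refine (τ.contF (b, x) ⟨hb, hxW, hx⟩).mono_of_mem_nhdsWithin ?_
    filter_upwards [self_mem_nhdsWithin,
      mem_nhdsWithin_of_mem_nhds ((τ.isOpen.prod hW).mem_nhds (⟨hb, hxW⟩ : (b, x) ∈ τ.U ×ˢ W))]
      with p h1 h2 using ⟨h2.1, h2.2, h1.2⟩
  refine ⟨τ.proj b hb x hxW hx, c1, fun y hy => ⟨?_, fun x₀ h₀ => ?_, ?_⟩⟩
  · exact continuous_fst.continuousAt.comp_continuousWithinAt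
      (ContinuousAt.comp_continuousWithinAt_of_eq ((C.chart y).continuousAt hy) c1 rfl)
  · obtain ⟨h1, h2⟩ := T1b_symm hx h₀
    refine (τ.smooth x₀ y).contMDiffAt ?_
    have t := T1b_tendsto hx h₀ b
    have c2 : ContinuousAt (fun p : B × ℂ => (p.2, b₀)) (b, (C.chart x₀ x).1) := by fun_prop
    filter_upwards [(t.mono_right nhdsWithin_le_nhds).eventually
        ((τ.isOpen.prod hW).mem_nhds (⟨hb, hxW⟩ : (b, x) ∈ τ.U ×ˢ W)),
      c2.eventually ((C.chart x₀).open_target.mem_nhds h1),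
      (c1.tendsto.comp t).eventually ((C.chart y).open_source.mem_nhds hy)] with p p1 p2 p3
    exact ⟨p1.1, p2, p1.2, p3⟩
  · refine (τ.hol y x hxW hx).mdifferentiableAt ?_
    have t : Tendsto (fun b' : B => (b', x)) (𝓝 b) (𝓝[univ ×ˢ (C.proj ⁻¹' {b₀})] (b, x)) :=
      tendsto_nhdsWithin_iff.2 ⟨(Continuous.prodMk_left x).tendsto b,
        Eventually.of_forall fun _ => ⟨mem_univ _, hx⟩⟩
    filter_upwards [τ.isOpen.mem_nhds hb,
      (c1.tendsto.comp t).eventually ((C.chart y).open_source.mem_nhds hy)] with p p1 p2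
    exact ⟨p1, p2⟩

variable [FiniteDimensional ℂ E] [IsManifold 𝓘(ℂ, E) ω B] [IsManifold 𝓘(ℝ, E) ∞ B]

theorem T1b_trans {x y : C.X} {w : ℂ × B} (h1 : w ∈ (C.chart x).target)
    (h2 : (C.chart x).symm w ∈ (C.chart y).source) :
    ContMDiffAt (𝓘(ℝ, ℂ).prod 𝓘(ℝ, E)) 𝓘(ℝ, ℂ) 2 (fun w => (C.chart y ((C.chart x).symm w)).1) w ∧
    MDifferentiableAt (𝓘(ℂ, ℂ).prod 𝓘(ℂ, E)) 𝓘(ℂ, ℂ)
      (fun w => (C.chart y ((C.chart x).symm w)).1) w := by
  have ho := ((C.chart x).symm ≫ₕ C.chart y).open_source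
  have hm : ((C.chart x).symm ≫ₕ C.chart y).source ∈ 𝓝 w := ho.mem_nhds ⟨h1, h2⟩
  exact ⟨((smooth_of_hol ho (C.hol_chart x y)).contMDiffAt hm).of_le (WithTop.coe_le_coe.2 le_top),
    (C.hol_chart x y).mdifferentiableAt hm⟩

theorem T1bS.coord {z : C.X} (hx : C.proj x = b₀) (h : x ∈ (C.chart z).source) :
    C.T1bS b₀ (fun _ x => (C.chart z x).1) b x where
  cont := (continuous_fst.continuousAt.comp (ContinuousAt.comp_of_eq ((C.chart z).continuousAt h)
    (continuousAt_snd (p := (b, x))) rfl)).continuousWithinAt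
  smooth x₀ h₀ := by
    obtain ⟨h1, h2⟩ := T1b_symm hx h₀
    exact ContMDiffAt.comp_of_eq (T1b_trans h1 (h2.symm ▸ h)).1
      (f := fun p : B × ℂ => (p.2, b₀)) (contMDiffAt_snd.prodMk contMDiffAt_const) rfl
  hol := mdifferentiableAt_const

theorem T1bS.symm {z : C.X} {g : B → C.X → ℂ} (h : C.T1bS b₀ g b x) (hx : C.proj x = b₀)
    (ht : (g b x, b) ∈ (C.chart z).target) :
    C.T1bG b₀ (fun b x => (C.chart z).symm (g b x, b)) b x := by
  have c1 : ContinuousWithinAt (fun p : B × C.X => (C.chart z).symm (g p.1 p.2, p.1))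
      (univ ×ˢ (C.proj ⁻¹' {b₀})) (b, x) :=
    ContinuousAt.comp_continuousWithinAt_of_eq ((C.chart z).continuousAt_symm ht)
      (h.cont.prodMk continuousWithinAt_fst) rfl
  refine ⟨C.proj_symm ht, c1, fun y hy => ⟨?_, fun x₀ h₀ => ?_, ?_⟩⟩
  · exact continuous_fst.continuousAt.comp_continuousWithinAt
      (ContinuousAt.comp_continuousWithinAt_of_eq ((C.chart y).continuousAt hy) c1 rfl)
  · exact ContMDiffAt.comp_of_eq (T1b_trans ht hy).1
      (f := fun p : B × ℂ => (g p.1 ((C.chart x₀).symm (p.2, b₀)), p.1))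
      ((h.smooth x₀ h₀).prodMk contMDiffAt_fst) (by simp only [(T1b_symm hx h₀).2])
  · exact MDifferentiableAt.comp_of_eq b (T1b_trans ht hy).2
      (f := fun b' : B => (g b' x, b')) (h.hol.prodMk mdifferentiableAt_id) rfl

theorem T1bS.mix {z : C.X} {g : B → C.X → ℂ} (h : C.T1bS b₀ g b x) (hx : C.proj x = b₀)
    (hz : x ∈ (C.chart z).source) {χ : ℂ → ℂ} (hχ : ContDiff ℝ 2 χ) :
    C.T1bS b₀ (fun b x => χ (C.chart z x).1 * (C.chart z x).1 + (1 - χ (C.chart z x).1) * g b x)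
      b x := by
  have k := T1bS.coord (b := b) hx hz
  have hm : ContDiff ℝ 2 fun p : ℂ × ℂ => χ p.1 * p.1 + (1 - χ p.1) * p.2 := by fun_prop
  refine ⟨hm.continuous.continuousAt.comp_continuousWithinAt (k.cont.prodMk h.cont),
    fun x₀ h₀ => hm.contDiffAt.comp_contMDiffAt ((k.smooth x₀ h₀).prodMk_space (h.smooth x₀ h₀)),
    mdifferentiableAt_const.add (mdifferentiableAt_const.mul h.hol)⟩

variable (C)

theorem preTriv_step (b₀ : B) {z : C.X} (hz : C.proj z = b₀) (hs : ∀ i, z ≠ C.sec i b₀) :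
    ∃ D ∈ 𝓝 z, ∀ W L : Set C.X, IsOpen W → IsCompact L → L ⊆ W → L ⊆ C.proj ⁻¹' {b₀} →
      (∀ i, C.sec i b₀ ∈ L) → Nonempty (C.PreTriv b₀ W) →
      ∃ W', IsOpen W' ∧ L ⊆ W' ∧ D ⊆ W' ∧ Nonempty (C.PreTriv b₀ W') := by
  classical
  set c := C.chart z with hc
  set z₀ := (c z).1 with hz₀
  obtain ⟨ρ₃, ρ₃0, hρ⟩ := Metric.nhds_basis_closedBall.mem_iff.1
    ((C.fchart ⟨z, hz, hs⟩ z).open_target.mem_nhds
      ((C.fchart ⟨z, hz, hs⟩ z).map_source (x := ⟨z, hz, hs⟩) (C.mem_source z)))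
  replace hρ : ∀ w ∈ closedBall z₀ ρ₃, (w, b₀) ∈ c.target ∧ ∀ i, c.symm (w, b₀) ≠ C.sec i b₀ := hρ
  let χ₀ : ContDiffBump z₀ := ⟨ρ₃ / 2, ρ₃, by positivity, by linarith⟩
  let χ : ℂ → ℂ := fun w => (χ₀ w : ℝ)
  have hχ : ContDiff ℝ 2 χ := Complex.ofRealCLM.contDiff.comp χ₀.contDiff
  let D : Set C.X := c.source ∩ c ⁻¹' (ball z₀ (ρ₃ / 2) ×ˢ univ)
  have hD : IsOpen D := c.isOpen_inter_preimage (isOpen_ball.prod isOpen_univ)
  refine ⟨D, hD.mem_nhds ⟨C.mem_source z, mem_ball_self (by positivity), mem_univ _⟩, ?_⟩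
  rintro W L hW hL hLW hLF hLs ⟨τ⟩
  have hF : IsCompact (C.proj ⁻¹' {b₀}) := C.proper.isCompact_preimage isCompact_singleton
  obtain ⟨W₀, V, hW₀, hV, hLW₀, hV', hd⟩ := SeparatedNhds.of_isCompact_isCompact hL
    (hF.diff hW) (disjoint_left.2 fun x h1 h2 => h2.2 (hLW h1))
  let s : ℂ → C.X := fun w => c.symm (w, b₀)
  have hsc : ContinuousOn s (closedBall z₀ ρ₃) := c.continuousOn_symm.comp
    (Continuous.prodMk_left b₀).continuousOn fun w hw => (hρ w hw).1
  let K : Set C.X := s '' closedBall z₀ ρ₃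
  have hK : IsClosed K := ((isCompact_closedBall _ _).image_of_continuousOn hsc).isClosed
  have hKm : ∀ x, C.proj x = b₀ → x ∈ c.source → (c x).1 ∈ closedBall z₀ ρ₃ → x ∈ K :=
    fun x h1 h2 h3 => ⟨_, h3, (T1b_symm h1 h2).2⟩
  have hs1 : ∀ w ∈ closedBall z₀ ρ₃, s w ∈ c.source ∧ C.proj (s w) = b₀ ∧ (c (s w)).1 = w :=
    fun w hw => ⟨c.map_target (hρ w hw).1, C.proj_symm (hρ w hw).1,
      congrArg Prod.fst (c.right_inv (hρ w hw).1)⟩
  let m : B → C.X → ℂ := fun b x => χ (c x).1 * (c x).1 + (1 - χ (c x).1) * (c (τ.F b x)).1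
  have hK₁ : IsCompact (closedBall z₀ ρ₃ ∩ s ⁻¹' Vᶜ) := (isCompact_closedBall _ _).of_isClosed_subset
    (hsc.preimage_isClosed_of_isClosed isClosed_closedBall hV.isClosed_compl) inter_subset_left
  have e1 : ∀ᶠ b in 𝓝 b₀, ∀ w ∈ closedBall z₀ ρ₃ ∩ s ⁻¹' Vᶜ,
      τ.F b (s w) ∈ c.source ∧ (m b (s w), b) ∈ c.target := by
    refine hK₁.eventually_forall_of_forall_eventually fun w hw => ?_
    obtain ⟨a1, a2, a3⟩ := hs1 w hw.1
    have hw' : s w ∈ W := by
      by_contra h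
      exact hw.2 (hV' ⟨a2, h⟩)
    have g := τ.T1b_good hW τ.mem hw' a2
    have e0 := τ.base _ hw' a2
    have t := T1b_tendsto a2 a1 b₀
    rw [← hc, a3] at t
    have g2 := ((g.sc z (e0.symm ▸ a1)).mix a2 a1 hχ).cont.prodMk continuousWithinAt_fst
    refine ((g.cont.tendsto.comp t).eventually (c.open_source.mem_nhds (e0.symm ▸ a1))).and
      ((g2.tendsto.comp t).eventually (c.open_target.mem_nhds ?_))
    have : χ w * w + (1 - χ w) * w = w := by ring
    simp only [e0, ← hc, a3, this]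
    exact (hρ w hw.1).1
  have e2 : ∀ᶠ b in 𝓝 b₀, ∀ w ∈ closedBall z₀ ρ₃, (w, b) ∈ c.target :=
    (isCompact_closedBall _ _).eventually_forall_of_forall_eventually fun w hw =>
      (continuous_swap.continuousAt (x := (b₀, w))).eventually (c.open_target.mem_nhds (hρ w hw).1)
  obtain ⟨U, hU, hUo, hU0⟩ := _root_.eventually_nhds_iff.1
    ((e1.and e2).and (τ.isOpen.eventually_mem τ.mem))
  let F : B → C.X → C.X := fun b x => if x ∈ K then c.symm (m b x, b) else τ.F b x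
  have good : ∀ b ∈ U, ∀ x ∈ (W₀ ∩ W) ∪ D, C.proj x = b₀ → C.T1bG b₀ F b x := by
    intro b hb x hxW hx
    by_cases hxD : x ∈ D
    · have h3 : ∀ x ∈ D, (c x).1 ∈ closedBall z₀ ρ₃ := fun x hx =>
        (ball_subset_closedBall.trans (closedBall_subset_closedBall (by linarith))) hx.2.1
      refine ((T1bS.coord hx hxD.1).symm hx ((hU b hb).1.2 _ (h3 x hxD))).congr hx ?_
      filter_upwards [self_mem_nhdsWithin, mem_nhdsWithin_of_mem_nhds
        ((continuousAt_snd (p := (b, x))).eventually (hD.mem_nhds hxD))] with p p1 p2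
      have : χ (c p.2).1 = 1 := by
        simp only [χ, χ₀.one_of_mem_closedBall (ball_subset_closedBall p2.2.1), ofReal_one]
      simp only [F, if_pos (hKm _ p1.2 p2.1 (h3 _ p2)), m, this, ← hc]
      simp
    replace hxW := hxW.resolve_right hxD
    have g := τ.T1b_good hW (hU b hb).2 hxW.2 hx
    by_cases hxK : x ∈ K
    · obtain ⟨w, hw, rfl⟩ := hxK
      obtain ⟨a1, -, -⟩ := hs1 w hw
      obtain ⟨a4, a5⟩ := (hU b hb).1.1 w ⟨hw, fun h => disjoint_left.1 hd hxW.1 h⟩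
      refine (((g.sc z a4).mix hx a1 hχ).symm hx a5).congr hx ?_
      filter_upwards [self_mem_nhdsWithin, g.cont.eventually (c.open_source.mem_nhds a4),
        mem_nhdsWithin_of_mem_nhds (((hUo.prod (hW.inter c.open_source)).mem_nhds
          (⟨hb, hxW.2, a1⟩ : (b, s w) ∈ U ×ˢ (W ∩ c.source))))] with p p1 p2 p3
      by_cases h : p.2 ∈ K
      · exact if_pos h
      · have : χ (c p.2).1 = 0 := by
          have h' : (c p.2).1 ∉ closedBall z₀ ρ₃ := fun h' => h (hKm _ p1.2 p3.2.2 h')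
          simp only [χ, χ₀.zero_of_le_dist (not_le.1 h').le, ofReal_zero]
        have e := C.chart_eq p2
        rw [τ.proj _ (hU _ p3.1).2 _ p3.2.1 p1.2] at e
        simp only [F, if_neg h, ← hc, this, zero_mul, zero_add, sub_zero, one_mul]
        rw [e, c.left_inv p2]
    · refine g.congr hx ?_
      filter_upwards [mem_nhdsWithin_of_mem_nhds
        ((continuousAt_snd (p := (b, x))).eventually (hK.isOpen_compl.mem_nhds hxK))] with p p1
      exact if_neg p1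
  refine ⟨(W₀ ∩ W) ∪ D, (hW₀.inter hW).union hD, fun x hx => Or.inl ⟨hLW₀ hx, hLW hx⟩,
    subset_union_right, ⟨⟨U, hUo, hU0, F, fun b hb x hx h => (good b hb x hx h).proj,
      fun x hx h => ?_, fun p hp => ((good _ hp.1 _ hp.2.1 hp.2.2).cont).mono
        fun _ h => ⟨mem_univ _, h.2.2⟩, fun x y p hp => ?_, fun y x hx h b hb =>
        ((good b hb.1 x hx h).sc y hb.2).hol.mdifferentiableWithinAt, fun i => ?_⟩⟩⟩
  · by_cases hxK : x ∈ K
    · obtain ⟨w, hw, rfl⟩ := hxK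
      obtain ⟨a1, a2, a3⟩ := hs1 w hw
      have : m b₀ (s w) = w := by
        rcases hx with hx | hx
        · simp only [m, τ.base _ hx.2 h, a3]
          ring
        · have : χ w = 1 := by
            simp only [χ, χ₀.one_of_mem_closedBall (a3 ▸ ball_subset_closedBall hx.2.1), ofReal_one]
          simp [m, a3, this]
      exact (if_pos (mem_image_of_mem s hw)).trans (by rw [this])
    · rcases hx with hx | hx
      · exact (if_neg hxK).trans (τ.base _ hx.2 h)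
      · exact absurd (hKm x h hx.1 ((ball_subset_closedBall.trans
          (closedBall_subset_closedBall (by linarith))) hx.2.1)) hxK
  · have := ((good _ hp.1 _ hp.2.2.1 (C.proj_symm hp.2.1)).sc y hp.2.2.2).smooth x
      ((C.chart x).map_target hp.2.1)
    rw [(C.chart x).right_inv hp.2.1] at this
    exact this.contMDiffWithinAt
  · have hi : C.sec i b₀ ∉ K := by
      rintro ⟨w, hw, h⟩
      exact (hρ w hw).2 i h
    filter_upwards [τ.near i, hK.isOpen_compl.mem_nhds hi] with x h1 h2 h3 b hb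
    have : F b x = τ.F b x := if_neg h2
    rw [this]
    exact h1 h3 b (hU b hb).2

end Family

end Pool.Agent.MP_e62289_ag
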