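import Pool.Agent.MP_e62289_ag.F1
import Pool.Agent.MP_e62289_ag.T1b

open Set Filter Topology Complex MeasureTheory Metric
open scoped Manifold ContDiff ComplexConjugate NNReal ENNReal

namespace Pool.Agent.MP_e62289_ag

theorem T1c_nbhd {X : Type} [TopologicalSpace X] [T2Space X] {K D : Set X} (hK : IsCompact K)
    {z : X} (hD : D ∈ 𝓝 z) :
    ∃ D' : Set X, IsCompact D' ∧ D' ⊆ D ∩ K ∧ ∃ V ∈ 𝓝 z, V ∩ K ⊆ D' := by
  obtain ⟨O, hOD, hO, hz⟩ := _root_.mem_nhds_iff.1 hD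
  obtain ⟨U1, U2, h1, h2, h3, h4, h5⟩ :=
    (hK.diff hO).separation_of_notMem (x := z) fun h => h.2 hz
  refine ⟨K \ U1, hK.diff h1, fun y hy => ⟨hOD ?_, hy.1⟩, U2, h2.mem_nhds h4,
    fun y hy => ⟨hy.2, fun h => Set.disjoint_left.1 h5 h hy.1⟩⟩
  by_contra h
  exact hy.2 (h3 ⟨hy.1, h⟩)

namespace Family

variable {E : Type} [NormedAddCommGroup E] [NormedSpace ℂ E] {B : Type} [TopologicalSpace B]
  [ChartedSpace E B] {n : ℕ} {a : Fin n → ℕ} (C : Family E B a)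

variable [FiniteDimensional ℂ E] [IsManifold 𝓘(ℂ, E) ω B] [IsManifold 𝓘(ℝ, E) ∞ B]

theorem preTriv_all (b₀ : B) :
    ∃ W, IsOpen W ∧ C.proj ⁻¹' {b₀} ⊆ W ∧ Nonempty (C.PreTriv b₀ W) := by
  classical
  obtain ⟨W0, hW0, hs, hP0⟩ := C.preTriv_start b₀
  set K := C.proj ⁻¹' {b₀} with hKdef
  have hK : IsCompact K := C.proper.isCompact_preimage isCompact_singleton
  choose A hA hAK VA hVA hVAK using fun i => T1c_nbhd hK (hW0.mem_nhds (hs i))
  set L0 := ⋃ i, A i with hL0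
  have hL0c : IsCompact L0 := isCompact_iUnion hA
  have hL0W : L0 ⊆ W0 := iUnion_subset fun i => (hAK i).trans inter_subset_left
  have hL0K : L0 ⊆ K := iUnion_subset fun i => (hAK i).trans inter_subset_right
  have hsL : ∀ i, C.sec i b₀ ∈ L0 := fun i =>
    mem_iUnion.2 ⟨i, hVAK i ⟨mem_of_mem_nhds (hVA i), C.proj_sec i b₀⟩⟩
  have step : ∀ z ∈ K, ∃ D ∈ 𝓝 z, ∀ W L : Set C.X, IsOpen W → IsCompact L → L ⊆ W → L ⊆ K →
      L0 ⊆ L → Nonempty (C.PreTriv b₀ W) →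
      ∃ W', IsOpen W' ∧ L ⊆ W' ∧ D ∩ K ⊆ W' ∧ Nonempty (C.PreTriv b₀ W') := by
    intro z hz
    by_cases h : ∃ i, z = C.sec i b₀
    · obtain ⟨i, rfl⟩ := h
      refine ⟨VA i, hVA i, fun W L hW _ hLW _ h0 hP => ⟨W, hW, hLW, ?_, hP⟩⟩
      exact (hVAK i).trans ((subset_iUnion A i).trans (h0.trans hLW))
    · obtain ⟨D, hD, h'⟩ := C.preTriv_step b₀ hz fun i hi => h ⟨i, hi⟩
      refine ⟨D, hD, fun W L hW hL hLW hLK h0 hP => ?_⟩
      obtain ⟨W', h1, h2, h3, h4⟩ := h' W L hW hL hLW hLK (fun i => h0 (hsL i)) hP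
      exact ⟨W', h1, h2, inter_subset_left.trans h3, h4⟩
  choose! D hD hstep using step
  have nb : ∀ z ∈ K, ∃ D' : Set C.X, IsCompact D' ∧ D' ⊆ D z ∩ K ∧ ∃ V ∈ 𝓝 z, V ∩ K ⊆ D' :=
    fun z hz => T1c_nbhd hK (hD z hz)
  choose! D' hD'c hD'K V hV hVK using nb
  obtain ⟨t, htK, hcov⟩ := hK.elim_nhds_subcover V hV
  have ind : ∀ t : Finset C.X, (∀ z ∈ t, z ∈ K) →
      ∃ W, IsOpen W ∧ L0 ∪ ⋃ z ∈ t, D' z ⊆ W ∧ Nonempty (C.PreTriv b₀ W) := by
    intro t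
    induction t using Finset.induction_on with
    | empty => exact fun _ => ⟨W0, hW0, by simpa using hL0W, hP0⟩
    | insert z t _ ih =>
      intro h
      have ht : ∀ y ∈ t, y ∈ K := fun y hy => h y (Finset.mem_insert_of_mem hy)
      have hz : z ∈ K := h z (Finset.mem_insert_self z t)
      obtain ⟨W, hW, hLW, hP⟩ := ih ht
      obtain ⟨W', h1, h2, h3, h4⟩ := hstep z hz W _ hW
        (hL0c.union (t.isCompact_biUnion fun y hy => hD'c y (ht y hy))) hLW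
        (union_subset hL0K (iUnion₂_subset fun y hy =>
          (hD'K y (ht y hy)).trans inter_subset_right)) subset_union_left hP
      refine ⟨W', h1, ?_, h4⟩
      rw [Finset.set_biUnion_insert]
      exact union_subset (subset_union_left.trans h2)
        (union_subset ((hD'K z hz).trans h3) (subset_union_right.trans h2))
  obtain ⟨W, hW, hLW, hP⟩ := ind t htK
  refine ⟨W, hW, fun y hy => hLW (Or.inr ?_), hP⟩
  obtain ⟨z, hz, hyz⟩ := mem_iUnion₂.1 (hcov hy)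
  exact mem_iUnion₂.2 ⟨z, hz, hVK z (htK z hz) ⟨hyz, hy⟩⟩

end Family

end Pool.Agent.MP_e62289_ag
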