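import Pool.Agent.MP_e62289_ag.Cx1

open Set Filter Topology Complex MeasureTheory Metric
open scoped Manifold ContDiff ComplexConjugate NNReal ENNReal

namespace Pool.Agent.MP_e62289_ag

/-- orientation preserving real-linear maps -/
def T2aPos (L : ℂ →L[ℝ] ℂ) : Prop := ‖w2 L‖ < ‖w1 L‖

theorem T2a_isOpen_pos : IsOpen {L : ℂ →L[ℝ] ℂ | T2aPos L} := by
  have h1 : Continuous fun L : ℂ →L[ℝ] ℂ => w1 L := by
    unfold w1; fun_prop
  have h2 : Continuous fun L : ℂ →L[ℝ] ℂ => w2 L := by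
    unfold w2; fun_prop
  exact isOpen_lt h2.norm h1.norm

theorem T2a_pos_id : T2aPos (ContinuousLinearMap.id ℝ ℂ) := by
  unfold T2aPos
  rw [w_id.1, w_id.2]
  simp

theorem T2aPos.comp {L M : ℂ →L[ℝ] ℂ} (hL : T2aPos L) (hM : T2aPos M) : T2aPos (L.comp M) := by
  unfold T2aPos at *
  rw [(w_comp L M).1, (w_comp L M).2]
  refine lt_of_pow_lt_pow_left₀ 2 (norm_nonneg _) (sub_pos.1 ?_)
  rw [w_det]
  exact mul_pos (sub_pos.2 (pow_lt_pow_left₀ hL (norm_nonneg _) two_ne_zero))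
    (sub_pos.2 (pow_lt_pow_left₀ hM (norm_nonneg _) two_ne_zero))

theorem T2a_pos_hol {g : ℂ → ℂ} {z : ℂ} (h : AnalyticAt ℂ g z) (h' : deriv g z ≠ 0) :
    DifferentiableAt ℝ g z ∧ T2aPos (fderiv ℝ g z) := by
  refine ⟨h.differentiableAt.restrictScalars ℝ, ?_⟩
  have := w_of_hasDerivAt h.differentiableAt.hasDerivAt
  unfold T2aPos
  rw [this.1, this.2]
  simpa using h'

variable {E : Type} [NormedAddCommGroup E] [NormedSpace ℂ E]

theorem T2a_slice {G : E × ℂ → ℂ} {v : E × ℂ} (h : DifferentiableAt ℝ G v) :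
    HasFDerivAt (fun z => G (v.1, z)) ((fderiv ℝ G v).comp (ContinuousLinearMap.inr ℝ E ℂ))
      v.2 :=
  h.hasFDerivAt.comp v.2 (hasFDerivAt_prodMk_right v.1 v.2)

theorem T2a_pos_ev {G : E × ℂ → ℂ} {w : E × ℂ} (hG : ContDiffAt ℝ 2 G w)
    (h : T2aPos (fderiv ℝ (fun z => G (w.1, z)) w.2)) :
    ∀ᶠ v in 𝓝 w, T2aPos (fderiv ℝ (fun z => G (v.1, z)) v.2) := by
  have h1 : ContinuousAt (fderiv ℝ G) w :=
    (hG.fderiv_right (m := 1) (by norm_num)).continuousAt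
  have h2 : ContinuousAt (fun v => (fderiv ℝ G v).comp (ContinuousLinearMap.inr ℝ E ℂ)) w :=
    h1.clm_comp continuousAt_const
  rw [(T2a_slice (hG.differentiableAt (by simp))).fderiv] at h
  filter_upwards [h2.preimage_mem_nhds (T2a_isOpen_pos.mem_nhds h), hG.eventually (by simp)]
    with v hv hv'
  rw [(T2a_slice (hv'.differentiableAt (by simp))).fderiv]
  exact hv

theorem T2a_ift [FiniteDimensional ℂ E] {G : E × ℂ → ℂ} {w : E × ℂ} (hG : ContDiffAt ℝ 2 G w)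
    (h : T2aPos (fderiv ℝ (fun z => G (w.1, z)) w.2)) :
    ∃ Ψ : E × ℂ → E × ℂ, (∀ᶠ v in 𝓝 w, Ψ (v.1, G v) = v) ∧
      (∀ᶠ u in 𝓝 (w.1, G w), ((Ψ u).1, G (Ψ u)) = u) ∧ Tendsto Ψ (𝓝 (w.1, G w)) (𝓝 w) := by
  have : CompleteSpace E := FiniteDimensional.complete ℂ E
  rw [(T2a_slice (hG.differentiableAt (by simp))).fderiv] at h
  obtain ⟨e, he⟩ := exists_equiv_of_w h
  let L : (E × ℂ) ≃L[ℝ] (E × ℂ) := (ContinuousLinearEquiv.refl ℝ E).skewProd e
    ((fderiv ℝ G w).comp (ContinuousLinearMap.inl ℝ E ℂ))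
  have hL : (L : E × ℂ →L[ℝ] E × ℂ) =
      (ContinuousLinearMap.fst ℝ E ℂ).prod (fderiv ℝ G w) := by
    refine ContinuousLinearMap.ext fun v => ?_
    have h1 : e v.2 = fderiv ℝ G w (0, v.2) := by
      have := congrArg (fun M : ℂ →L[ℝ] ℂ => M v.2) he
      simpa using this
    have h2 : fderiv ℝ G w v = fderiv ℝ G w (0, v.2) + fderiv ℝ G w (v.1, 0) := by
      rw [← map_add]
      simp
    change ((ContinuousLinearEquiv.refl ℝ E).skewProd e
      ((fderiv ℝ G w).comp (ContinuousLinearMap.inl ℝ E ℂ))) v = (v.1, fderiv ℝ G w v)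
    rw [ContinuousLinearEquiv.skewProd_apply, h1, h2]
    simp
  have hΦ : HasStrictFDerivAt (fun v : E × ℂ => (v.1, G v)) (L : E × ℂ →L[ℝ] E × ℂ) w := by
    rw [hL]
    exact hasStrictFDerivAt_fst.prodMk (hG.hasStrictFDerivAt (by simp))
  exact ⟨hΦ.localInverse _ _ _, hΦ.eventually_left_inverse, hΦ.eventually_right_inverse,
    hΦ.localInverse_tendsto⟩

end Pool.Agent.MP_e62289_ag
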