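import Pool.Agent.MP_e62289_ag.T1
import Pool.Agent.MP_e62289_ag.T2aAux

open Set Filter Topology Complex MeasureTheory Metric
open scoped Manifold ContDiff ComplexConjugate NNReal ENNReal

namespace Pool.Agent.MP_e62289_ag

namespace Family

variable {E : Type} [NormedAddCommGroup E] [NormedSpace ℂ E] {B : Type} [TopologicalSpace B]
  [ChartedSpace E B] {n : ℕ} {a : Fin n → ℕ} {C : Family E B a}

section Aux

variable {b₀ : B} {W : Set C.X} (τ : C.PreTriv b₀ W)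

/-- the map `F` in the charts at `x` and `y` -/
noncomputable def PreTriv.T2ag (x y : C.X) (p : B × ℂ) : ℂ :=
  (C.chart y (τ.F p.1 ((C.chart x).symm (p.2, b₀)))).1

theorem T2a_coord {x q : C.X} {b : B} (hq : C.proj q = b) (hx : q ∈ (C.chart x).source) :
    ((C.chart x q).1, b) ∈ (C.chart x).target ∧ (C.chart x).symm ((C.chart x q).1, b) = q := by
  have e := C.chart_eq hx
  rw [hq] at e
  rw [e]
  exact ⟨(C.chart x).map_source hx, (C.chart x).left_inv hx⟩

variable (h : C.proj ⁻¹' {b₀} ⊆ W)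
include h

theorem PreTriv.T2a_contF :
    ContinuousOn (fun p : B × C.X => τ.F p.1 p.2) (τ.U ×ˢ (C.proj ⁻¹' {b₀})) := by
  have := τ.contF
  rwa [inter_eq_right.2 h] at this

theorem PreTriv.T2a_tendF {b : B} (hb : b ∈ τ.U) {q : C.X} (hq : C.proj q = b₀) :
    Tendsto (fun p : B × C.X => τ.F p.1 p.2) (𝓝[univ ×ˢ (C.proj ⁻¹' {b₀})] (b, q))
      (𝓝 (τ.F b q)) := by
  have h1 := τ.T2a_contF h (b, q) ⟨hb, hq⟩
  have h2 : τ.U ×ˢ (C.proj ⁻¹' {b₀}) = (τ.U ×ˢ univ) ∩ (univ ×ˢ (C.proj ⁻¹' {b₀})) := by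
    ext p; simp
  rw [ContinuousWithinAt, h2, nhdsWithin_inter_of_mem] at h1
  · exact h1
  · exact mem_nhdsWithin_of_mem_nhds (prod_mem_nhds (τ.isOpen.mem_nhds hb) univ_mem)

omit h in
/-- the parametrisation of `B × fibre` by a chart -/
theorem T2a_tendS {b : B} {x q : C.X} (hq : C.proj q = b₀) (hx : q ∈ (C.chart x).source) :
    Tendsto (fun p : B × ℂ => (p.1, (C.chart x).symm (p.2, b₀))) (𝓝 (b, (C.chart x q).1))
      (𝓝[univ ×ˢ (C.proj ⁻¹' {b₀})] (b, q)) ∧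
    ∀ᶠ p : B × ℂ in 𝓝 (b, (C.chart x q).1), (p.2, b₀) ∈ (C.chart x).target := by
  obtain ⟨h1, h2⟩ := T2a_coord hq hx
  have hc : ContinuousAt (fun p : B × ℂ => (p.2, b₀)) (b, (C.chart x q).1) := by fun_prop
  have hev : ∀ᶠ p : B × ℂ in 𝓝 (b, (C.chart x q).1), (p.2, b₀) ∈ (C.chart x).target :=
    hc.preimage_mem_nhds ((C.chart x).open_target.mem_nhds h1)
  refine ⟨tendsto_nhdsWithin_iff.2 ⟨?_, ?_⟩, hev⟩
  · have h3 : ContinuousAt (fun p : B × ℂ => (C.chart x).symm (p.2, b₀)) (b, (C.chart x q).1) :=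
      ContinuousAt.comp (f := fun p : B × ℂ => (p.2, b₀)) ((C.chart x).continuousAt_symm h1) hc
    have h4 := (continuousAt_fst (p := (b, (C.chart x q).1))).prodMk h3
    rw [ContinuousAt] at h4
    simpa only [h2] using h4
  · filter_upwards [hev] with p hp
    exact ⟨mem_univ _, C.proj_symm hp⟩

theorem PreTriv.T2a_dom {b : B} (hb : b ∈ τ.U) {x y q : C.X} (hq : C.proj q = b₀)
    (hx : q ∈ (C.chart x).source) (hy : τ.F b q ∈ (C.chart y).source) :
    ∀ᶠ p : B × ℂ in 𝓝 (b, (C.chart x q).1), p.1 ∈ τ.U ∧ (p.2, b₀) ∈ (C.chart x).target ∧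
      (C.chart x).symm (p.2, b₀) ∈ W ∧
      τ.F p.1 ((C.chart x).symm (p.2, b₀)) ∈ (C.chart y).source := by
  obtain ⟨h1, h2⟩ := T2a_tendS (b := b) hq hx
  have h3 := ((τ.T2a_tendF h hb hq).comp h1) ((C.chart y).open_source.mem_nhds hy)
  have h4 : ∀ᶠ p : B × ℂ in 𝓝 (b, (C.chart x q).1), p.1 ∈ τ.U :=
    continuousAt_fst.preimage_mem_nhds (τ.isOpen.mem_nhds hb)
  filter_upwards [h2, h3, h4] with p p2 p3 p4
  exact ⟨p4, p2, h (C.proj_symm p2), p3⟩

theorem PreTriv.T2a_smooth [IsManifold 𝓘(ℝ, E) ∞ B] {b b₁ : B} (hb : b ∈ τ.U)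
    (hb₁ : b ∈ (chartAt E b₁).source) {x y q : C.X} (hq : C.proj q = b₀)
    (hx : q ∈ (C.chart x).source) (hy : τ.F b q ∈ (C.chart y).source) :
    ContDiffAt ℝ 2 (fun w : E × ℂ => τ.T2ag x y ((chartAt E b₁).symm w.1, w.2))
      (chartAt E b₁ b, (C.chart x q).1) := by
  have h1 : ContMDiffAt (𝓘(ℝ, E).prod 𝓘(ℝ, ℂ)) 𝓘(ℝ, ℂ) 2 (τ.T2ag x y) (b, (C.chart x q).1) :=
    (τ.smooth x y).contMDiffAt (τ.T2a_dom h hb hq hx hy)
  have h2 : ContMDiffAt 𝓘(ℝ, E) 𝓘(ℝ, E) 2 (chartAt E b₁).symm (chartAt E b₁ b) :=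
    (contMDiffOn_chart_symm (I := 𝓘(ℝ, E)) (n := 2) (x := b₁)).contMDiffAt
      ((chartAt E b₁).open_target.mem_nhds ((chartAt E b₁).map_source hb₁))
  have h3 : ContMDiffAt 𝓘(ℝ, E × ℂ) (𝓘(ℝ, E).prod 𝓘(ℝ, ℂ)) 2
      (fun w : E × ℂ => ((chartAt E b₁).symm w.1, w.2)) (chartAt E b₁ b, (C.chart x q).1) :=
    (ContMDiffAt.comp (f := fun w : E × ℂ => w.1) _ h2
      contDiff_fst.contMDiff.contMDiffAt).prodMk contDiff_snd.contMDiff.contMDiffAt
  have h4 := h1.comp_of_eq h3 (by simp only [(chartAt E b₁).left_inv hb₁])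
  exact h4.contDiffAt

theorem PreTriv.T2a_diff [IsManifold 𝓘(ℝ, E) ∞ B] {b : B} (hb : b ∈ τ.U)
    {x y q : C.X} (hq : C.proj q = b₀)
    (hx : q ∈ (C.chart x).source) (hy : τ.F b q ∈ (C.chart y).source) :
    DifferentiableAt ℝ (fun z => τ.T2ag x y (b, z)) (C.chart x q).1 := by
  have h1 := (τ.T2a_smooth h hb (mem_chart_source E b) hq hx hy).differentiableAt (by simp)
  have h2 := (T2a_slice h1).differentiableAt
  simpa only [(chartAt E b).left_inv (mem_chart_source E b)] using h2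

/-- orientation does not depend on the charts -/
theorem PreTriv.T2a_indep [IsManifold 𝓘(ℝ, E) ∞ B] {b : B} (hb : b ∈ τ.U)
    {x y x' y' q : C.X} (hq : C.proj q = b₀)
    (hx : q ∈ (C.chart x).source) (hy : τ.F b q ∈ (C.chart y).source)
    (hx' : q ∈ (C.chart x').source) (hy' : τ.F b q ∈ (C.chart y').source)
    (hp : T2aPos (fderiv ℝ (fun z => τ.T2ag x y (b, z)) (C.chart x q).1)) :
    T2aPos (fderiv ℝ (fun z => τ.T2ag x' y' (b, z)) (C.chart x' q).1) := by
  have hF : C.proj (τ.F b q) = b := τ.proj b hb q (h hq) hq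
  have a1 := C.analyticAt_trans hx' hx
  have a2 := C.analyticAt_trans hy hy'
  rw [hq] at a1
  rw [hF] at a2
  obtain ⟨d1, p1⟩ := T2a_pos_hol a1.1 a1.2
  obtain ⟨d2, p2⟩ := T2a_pos_hol a2.1 a2.2
  set t1 : ℂ → ℂ := fun z => (C.chart x ((C.chart x').symm (z, b₀))).1 with ht1
  set t2 : ℂ → ℂ := fun z => (C.chart y' ((C.chart y).symm (z, b))).1 with ht2
  have e1 : t1 (C.chart x' q).1 = (C.chart x q).1 := by
    simp only [ht1, (T2a_coord hq hx').2]
  have e2 : τ.T2ag x y (b, (C.chart x q).1) = (C.chart y (τ.F b q)).1 := by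
    simp only [PreTriv.T2ag, (T2a_coord hq hx).2]
  have d0 := τ.T2a_diff h hb hq hx hy
  have hev : (fun z => τ.T2ag x' y' (b, z)) =ᶠ[𝓝 (C.chart x' q).1]
      t2 ∘ (fun z => τ.T2ag x y (b, z)) ∘ t1 := by
    have hc : ContinuousAt (fun z : ℂ => (b, z)) (C.chart x' q).1 := by fun_prop
    have h1 := hc.tendsto.eventually (τ.T2a_dom h hb hq hx' hy)
    have h2 := (((continuous_snd.tendsto _).comp
      ((T2a_tendS (b := b) hq hx').1.mono_right nhdsWithin_le_nhds)).comp hc.tendsto).eventually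
      ((C.chart x).open_source.mem_nhds hx)
    filter_upwards [h1, h2] with z z1 z2
    have hz : C.proj ((C.chart x').symm (z, b₀)) = b₀ := C.proj_symm z1.2.1
    have hz' : C.proj (τ.F b ((C.chart x').symm (z, b₀))) = b := τ.proj b hb _ (h hz) hz
    simp only [Function.comp_apply, PreTriv.T2ag, ht1, ht2]
    rw [(T2a_coord hz z2).2, (T2a_coord hz' z1.2.2.2).2]
  rw [hev.fderiv_eq]
  have d0' : DifferentiableAt ℝ (fun z => τ.T2ag x y (b, z)) (t1 (C.chart x' q).1) := e1 ▸ d0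
  have d2' : DifferentiableAt ℝ t2
      (((fun z => τ.T2ag x y (b, z)) ∘ t1) (C.chart x' q).1) := by
    simp only [Function.comp_apply, e1, e2]
    exact d2
  rw [fderiv_comp _ d2' (d0'.comp _ d1), fderiv_comp _ d0' d1]
  refine T2aPos.comp ?_ (T2aPos.comp ?_ p1)
  · simp only [Function.comp_apply, e1, e2]
    exact p2
  · rw [e1]
    exact hp

/-- orientation is preserved near the base fibre -/
theorem PreTriv.T2a_near [IsManifold 𝓘(ℝ, E) ∞ B] {q : C.X} (hq : C.proj q = b₀) :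
    ∀ᶠ p : B × C.X in 𝓝[univ ×ˢ (C.proj ⁻¹' {b₀})] (b₀, q),
      T2aPos (fderiv ℝ (fun z => τ.T2ag p.2 (τ.F p.1 p.2) (p.1, z)) (C.chart p.2 p.2).1) := by
  have hx := C.mem_source q
  have hF : τ.F b₀ q = q := τ.base q (h hq) hq
  have hy : τ.F b₀ q ∈ (C.chart q).source := by rw [hF]; exact hx
  have hs := mem_chart_source E b₀
  have h1 := τ.T2a_smooth h τ.mem hs hq hx hy
  have h2 : T2aPos (fderiv ℝ (fun z => τ.T2ag q q (b₀, z)) (C.chart q q).1) := by
    have hc : ContinuousAt (fun z : ℂ => (b₀, z)) (C.chart q q).1 := by fun_prop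
    have hev : (fun z => τ.T2ag q q (b₀, z)) =ᶠ[𝓝 (C.chart q q).1] id := by
      filter_upwards [hc.tendsto.eventually (τ.T2a_dom h τ.mem hq hx hy)] with z z1
      simp only [PreTriv.T2ag, id]
      rw [τ.base _ z1.2.2.1 (C.proj_symm z1.2.1), (C.chart q).right_inv z1.2.1]
    rw [hev.fderiv_eq, fderiv_id]
    exact T2a_pos_id
  have h3 := T2a_pos_ev h1 (by simpa only [(chartAt E b₀).left_inv hs] using h2)
  have hA : ContinuousAt (fun p : B × C.X => (chartAt E b₀ p.1, (C.chart q p.2).1)) (b₀, q) :=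
    (ContinuousAt.comp (f := fun p : B × C.X => p.1) ((chartAt E b₀).continuousAt hs)
      continuousAt_fst).prodMk (continuousAt_fst.comp
        (ContinuousAt.comp (f := fun p : B × C.X => p.2) ((C.chart q).continuousAt hx)
          continuousAt_snd))
  have h4 := hA.tendsto.eventually h3
  have h5 : ∀ᶠ p : B × C.X in 𝓝 (b₀, q), p.1 ∈ τ.U ∩ (chartAt E b₀).source ∧
      p.2 ∈ (C.chart q).source :=
    prod_mem_nhds (inter_mem (τ.isOpen.mem_nhds τ.mem) (chart_source_mem_nhds E b₀))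
      ((C.chart q).open_source.mem_nhds hx)
  have h6 := (τ.T2a_tendF h τ.mem hq).eventually ((C.chart q).open_source.mem_nhds hy)
  filter_upwards [mem_nhdsWithin_of_mem_nhds h4, mem_nhdsWithin_of_mem_nhds h5, h6,
    self_mem_nhdsWithin] with p p4 p5 p6 p7
  refine τ.T2a_indep h p5.1.1 p7.2 p5.2 p6 (C.mem_source _) (C.mem_source _) ?_
  simpa only [(chartAt E b₀).left_inv p5.1.2] using p4

/-- the inverse function theorem for `F` -/
theorem PreTriv.T2a_inv [FiniteDimensional ℂ E] [IsManifold 𝓘(ℝ, E) ∞ B] {b : B} (hb : b ∈ τ.U)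
    {q : C.X} (hq : C.proj q = b₀)
    (hp : T2aPos (fderiv ℝ (fun z => τ.T2ag q (τ.F b q) (b, z)) (C.chart q q).1)) :
    ∃ s : C.X → B × C.X,
      (∀ᶠ p in 𝓝[univ ×ˢ (C.proj ⁻¹' {b₀})] (b, q), s (τ.F p.1 p.2) = p) ∧
      (∀ᶠ x in 𝓝 (τ.F b q), τ.F (s x).1 (s x).2 = x) ∧
      Tendsto s (𝓝 (τ.F b q)) (𝓝[univ ×ˢ (C.proj ⁻¹' {b₀})] (b, q)) := by
  set y := τ.F b q with hy0
  have hx := C.mem_source q
  have hy : y ∈ (C.chart y).source := C.mem_source y
  have hs := mem_chart_source E b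
  have hF : C.proj y = b := τ.proj b hb q (h hq) hq
  have h1 := τ.T2a_smooth h hb hs hq hx hy
  obtain ⟨Ψ, l1, l2, l3⟩ := T2a_ift h1 (by simpa only [(chartAt E b).left_inv hs] using hp)
  have e2 : τ.T2ag q y (b, (C.chart q q).1) = (C.chart y y).1 := by
    simp only [PreTriv.T2ag, (T2a_coord hq hx).2, hy0]
  simp only [(chartAt E b).left_inv hs, e2] at l2 l3
  have hT : Tendsto (fun x => (chartAt E b (C.proj x), (C.chart y x).1)) (𝓝 y)
      (𝓝 (chartAt E b b, (C.chart y y).1)) := by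
    have c1 : ContinuousAt (chartAt E b) (C.proj y) := by
      rw [hF]; exact (chartAt E b).continuousAt hs
    have c2 := (c1.comp C.proper.continuous.continuousAt).prodMk
      (continuousAt_fst.comp ((C.chart y).continuousAt hy))
    rw [ContinuousAt] at c2
    simpa only [Function.comp_apply, hF] using c2
  have hR : Tendsto (fun w : E × ℂ => ((chartAt E b).symm w.1, w.2))
      (𝓝 (chartAt E b b, (C.chart q q).1)) (𝓝 (b, (C.chart q q).1)) := by
    have c1 := (ContinuousAt.comp (f := fun w : E × ℂ => w.1)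
      (x := (chartAt E b b, (C.chart q q).1))
      ((chartAt E b).continuousAt_symm ((chartAt E b).map_source hs)) continuousAt_fst).prodMk
      continuousAt_snd
    rw [ContinuousAt] at c1
    simpa only [Function.comp_apply, (chartAt E b).left_inv hs] using c1
  have hA : ContinuousAt (fun p : B × C.X => (chartAt E b p.1, (C.chart q p.2).1)) (b, q) :=
    (ContinuousAt.comp (f := fun p : B × C.X => p.1) ((chartAt E b).continuousAt hs)
      continuousAt_fst).prodMk (continuousAt_fst.comp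
        (ContinuousAt.comp (f := fun p : B × C.X => p.2) ((C.chart q).continuousAt hx)
          continuousAt_snd))
  refine ⟨fun x => ((chartAt E b).symm (Ψ (chartAt E b (C.proj x), (C.chart y x).1)).1,
    (C.chart q).symm ((Ψ (chartAt E b (C.proj x), (C.chart y x).1)).2, b₀)), ?_, ?_, ?_⟩
  · have h4 := hA.tendsto.eventually l1
    have h5 : ∀ᶠ p : B × C.X in 𝓝 (b, q), p.1 ∈ τ.U ∩ (chartAt E b).source ∧
        p.2 ∈ (C.chart q).source :=
      prod_mem_nhds (inter_mem (τ.isOpen.mem_nhds hb) (chart_source_mem_nhds E b))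
        ((C.chart q).open_source.mem_nhds hx)
    filter_upwards [mem_nhdsWithin_of_mem_nhds h4, mem_nhdsWithin_of_mem_nhds h5,
      self_mem_nhdsWithin] with p p4 p5 p7
    have hp2 : C.proj p.2 = b₀ := p7.2
    simp only [(chartAt E b).left_inv p5.1.2, PreTriv.T2ag, (T2a_coord hp2 p5.2).2] at p4
    simp only [τ.proj p.1 p5.1.1 p.2 (h hp2) hp2, p4, (chartAt E b).left_inv p5.1.2,
      (T2a_coord hp2 p5.2).2]
  · have h4 := hT.eventually l2
    have h5 := ((hR.comp l3).comp hT).eventually (τ.T2a_dom h hb hq hx hy)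
    have h6 : ∀ᶠ x in 𝓝 y, C.proj x ∈ (chartAt E b).source :=
      C.proper.continuous.continuousAt.preimage_mem_nhds
        (by rw [hF]; exact chart_source_mem_nhds E b)
    filter_upwards [h4, h5, h6, (C.chart y).open_source.mem_nhds hy] with x x4 x5 x6 x7
    simp only [Function.comp_apply] at x5
    set u := Ψ (chartAt E b (C.proj x), (C.chart y x).1)
    have u1 : u.1 = chartAt E b (C.proj x) := congrArg Prod.fst x4
    have u2 : τ.T2ag q y ((chartAt E b).symm u.1, u.2) = (C.chart y x).1 := congrArg Prod.snd x4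
    have u3 : (chartAt E b).symm u.1 = C.proj x := by rw [u1, (chartAt E b).left_inv x6]
    rw [u3] at x5 u2 ⊢
    have u4 := τ.proj _ x5.1 _ x5.2.2.1 (C.proj_symm x5.2.1)
    refine (C.chart y).injOn x5.2.2.2 x7 ?_
    rw [← C.chart_eq x5.2.2.2, ← C.chart_eq x7, u4]
    exact Prod.ext u2 rfl
  · exact (((T2a_tendS (b := b) hq hx).1.comp hR).comp l3).comp hT

end Aux

variable [FiniteDimensional ℂ E] [IsManifold 𝓘(ℂ, E) ω B] [IsManifold 𝓘(ℝ, E) ∞ B] [T2Space B]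

omit [IsManifold 𝓘(ℂ, E) ω B] [T2Space B] in
/-- near the base point the maps `F b` are injective local diffeomorphisms -/
theorem PreTriv.local_inj {b₀ : B} {W : Set C.X} (τ : C.PreTriv b₀ W) (hW : IsOpen W)
    (h : C.proj ⁻¹' {b₀} ⊆ W) : ∃ U', IsOpen U' ∧ b₀ ∈ U' ∧ U' ⊆ τ.U ∧
      (∀ b ∈ U', ∀ x, C.proj x = b₀ →
        ‖w2 (fderiv ℝ (fun z => (C.chart (τ.F b x) (τ.F b ((C.chart x).symm (z, b₀)))).1)
          (C.chart x x).1)‖ <
        ‖w1 (fderiv ℝ (fun z => (C.chart (τ.F b x) (τ.F b ((C.chart x).symm (z, b₀)))).1)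
          (C.chart x x).1)‖) ∧
      (∀ b ∈ U', InjOn (τ.F b) (C.proj ⁻¹' {b₀})) ∧
      ∀ b ∈ U', ∀ x, C.proj x = b₀ → 𝓝 (τ.F b x) ≤
        map (fun p : B × C.X => τ.F p.1 p.2) (𝓝[univ ×ˢ (C.proj ⁻¹' {b₀})] (b, x)) := by
  have hK : IsCompact (C.proj ⁻¹' {b₀}) := C.proper.isCompact_preimage isCompact_singleton
  have h1 : ∀ᶠ b in 𝓝 b₀, ∀ x ∈ C.proj ⁻¹' {b₀}, C.proj x = b₀ →
      T2aPos (fderiv ℝ (fun z => τ.T2ag x (τ.F b x) (b, z)) (C.chart x x).1) := by
    refine hK.eventually_forall_of_forall_eventually fun q hq => ?_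
    filter_upwards [eventually_nhdsWithin_iff.1 (τ.T2a_near h hq)] with p hp hp'
    exact hp ⟨mem_univ _, hp'⟩
  have h2 : ∀ᶠ b in 𝓝 b₀, ∀ r ∈ (C.proj ⁻¹' {b₀}) ×ˢ (C.proj ⁻¹' {b₀}),
      C.proj r.1 = b₀ → C.proj r.2 = b₀ → τ.F b r.1 = τ.F b r.2 → r.1 = r.2 := by
    refine (hK.prod hK).eventually_forall_of_forall_eventually fun r hr => ?_
    have t1 : Tendsto (fun z : B × C.X × C.X => (z.1, z.2.1)) (𝓝 (b₀, r)) (𝓝 (b₀, r.1)) :=
      Continuous.tendsto' (by fun_prop) _ _ rfl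
    have t2 : Tendsto (fun z : B × C.X × C.X => (z.1, z.2.2)) (𝓝 (b₀, r)) (𝓝 (b₀, r.2)) :=
      Continuous.tendsto' (by fun_prop) _ _ rfl
    by_cases hne : r.1 = r.2
    · obtain ⟨s, hs, -, -⟩ := τ.T2a_inv h τ.mem hr.1 (h1.self_of_nhds _ hr.1 hr.1)
      have hs' := eventually_nhdsWithin_iff.1 hs
      rw [← hne] at t2
      filter_upwards [t1.eventually hs', t2.eventually hs'] with z z1 z2 z3 z4 z5
      have e1 := z1 ⟨mem_univ _, z3⟩
      have e2 := z2 ⟨mem_univ _, z4⟩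
      rw [z5, e2] at e1
      exact (congrArg Prod.snd e1).symm
    · obtain ⟨u, v, hu, hv, hu1, hv1, huv⟩ := t2_separation hne
      have f1 := (τ.T2a_tendF h τ.mem hr.1).eventually
        (hu.mem_nhds (by rw [τ.base _ (h hr.1) hr.1]; exact hu1))
      have f2 := (τ.T2a_tendF h τ.mem hr.2).eventually
        (hv.mem_nhds (by rw [τ.base _ (h hr.2) hr.2]; exact hv1))
      filter_upwards [t1.eventually (eventually_nhdsWithin_iff.1 f1),
        t2.eventually (eventually_nhdsWithin_iff.1 f2)] with z z1 z2 z3 z4 z5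
      have e1 := z1 ⟨mem_univ _, z3⟩
      have e2 := z2 ⟨mem_univ _, z4⟩
      rw [z5] at e1
      exact (disjoint_left.1 huv e1 e2).elim
  obtain ⟨U', hU', hO, hb₀⟩ := eventually_nhds_iff.1 ((h1.and h2).and (τ.isOpen.mem_nhds τ.mem))
  refine ⟨U', hO, hb₀, fun b hb => (hU' b hb).2, fun b hb x hx => (hU' b hb).1.1 x hx hx,
    fun b hb x hx x' hx' e => (hU' b hb).1.2 (x, x') ⟨hx, hx'⟩ hx hx' e, fun b hb x hx => ?_⟩
  obtain ⟨s, -, hs, ht⟩ := τ.T2a_inv h (hU' b hb).2 hx ((hU' b hb).1.1 x hx hx)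
  exact le_map_of_right_inverse hs ht

end Family

end Pool.Agent.MP_e62289_ag
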