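import Pool.Agent.MP_e62289_ag.Pub

/-! Wirtinger parts of real-linear maps of `ℂ`, derivatives of maps between surfaces and
admissible diffeomorphisms. -/

open Set Filter Topology Complex
open scoped Manifold ContDiff ComplexConjugate

namespace Pool.Agent.MP_e62289_ag

/-- complex-linear part of a real-linear map of `ℂ` -/
noncomputable def w1 (L : ℂ →L[ℝ] ℂ) : ℂ := (L 1 - I * L I) / 2
/-- conjugate-linear part of a real-linear map of `ℂ` -/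
noncomputable def w2 (L : ℂ →L[ℝ] ℂ) : ℂ := (L 1 + I * L I) / 2

theorem w_apply (L : ℂ →L[ℝ] ℂ) (v : ℂ) : L v = w1 L * v + w2 L * conj v := by
  have h : v = v.re • (1 : ℂ) + v.im • I := by
    simp [Complex.re_add_im]
  have h2 : L v = v.re * L 1 + v.im * L I := by
    conv_lhs => rw [h]
    rw [map_add, map_smul, map_smul]
    simp
  rw [h2, w1, w2]
  conv_rhs => rw [← Complex.re_add_im v]
  simp only [map_add, map_mul, conj_ofReal, conj_I]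
  linear_combination (v.im * L I) * I_mul_I

theorem w_eq {L : ℂ →L[ℝ] ℂ} {a b : ℂ} (h : ∀ v, L v = a * v + b * conj v) :
    w1 L = a ∧ w2 L = b := by
  constructor
  · rw [w1, h, h, conj_I, map_one]
    linear_combination (-(a - b) / 2) * I_mul_I
  · rw [w2, h, h, conj_I, map_one]
    linear_combination ((a - b) / 2) * I_mul_I

theorem w_comp (L M : ℂ →L[ℝ] ℂ) :
    w1 (L.comp M) = w1 L * w1 M + w2 L * conj (w2 M) ∧
    w2 (L.comp M) = w1 L * w2 M + w2 L * conj (w1 M) := by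
  refine w_eq fun v => ?_
  rw [ContinuousLinearMap.comp_apply, w_apply L, w_apply M]
  simp only [map_add, map_mul, conj_conj]
  ring

theorem w_id : w1 (ContinuousLinearMap.id ℝ ℂ) = 1 ∧ w2 (ContinuousLinearMap.id ℝ ℂ) = 0 :=
  w_eq fun v => by simp

theorem w_det (a b c d : ℂ) : ‖a * c + b * conj d‖ ^ 2 - ‖a * d + b * conj c‖ ^ 2 =
    (‖a‖ ^ 2 - ‖b‖ ^ 2) * (‖c‖ ^ 2 - ‖d‖ ^ 2) := by
  simp only [Complex.sq_norm, normSq_apply, add_re, add_im, mul_re, mul_im, conj_re, conj_im]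
  ring

section Surf

variable {Y Y' Y'' : Type} [TopologicalSpace Y] [ChartedSpace ℂ Y] [TopologicalSpace Y']
  [ChartedSpace ℂ Y'] [TopologicalSpace Y''] [ChartedSpace ℂ Y'']

/-- the real derivative of a map between surfaces in the preferred charts -/
noncomputable def dd (G : Y → Y') (q : Y) : ℂ →L[ℝ] ℂ := mfderiv 𝓘(ℝ, ℂ) 𝓘(ℝ, ℂ) G q
/-- `∂ G` -/
noncomputable def d1 (G : Y → Y') (q : Y) : ℂ := w1 (dd G q)
/-- `∂bar G` -/
noncomputable def d2 (G : Y → Y') (q : Y) : ℂ := w2 (dd G q)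
/-- the Beltrami coefficient -/
noncomputable def bel (G : Y → Y') (q : Y) : ℂ := d2 G q / d1 G q

theorem dd_comp {G : Y' → Y''} {F : Y → Y'} {q : Y}
    (hG : MDifferentiableAt 𝓘(ℝ, ℂ) 𝓘(ℝ, ℂ) G (F q)) (hF : MDifferentiableAt 𝓘(ℝ, ℂ) 𝓘(ℝ, ℂ) F q) :
    dd (G ∘ F) q = (dd G (F q)).comp (dd F q) := mfderiv_comp q hG hF

theorem d_comp {G : Y' → Y''} {F : Y → Y'} {q : Y}
    (hG : MDifferentiableAt 𝓘(ℝ, ℂ) 𝓘(ℝ, ℂ) G (F q)) (hF : MDifferentiableAt 𝓘(ℝ, ℂ) 𝓘(ℝ, ℂ) F q) :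
    d1 (G ∘ F) q = d1 G (F q) * d1 F q + d2 G (F q) * conj (d2 F q) ∧
    d2 (G ∘ F) q = d1 G (F q) * d2 F q + d2 G (F q) * conj (d1 F q) := by
  simp only [d1, d2, dd_comp hG hF]
  exact w_comp _ _

theorem d_id (q : Y) : d1 (id : Y → Y) q = 1 ∧ d2 (id : Y → Y) q = 0 := by
  have : dd (id : Y → Y) q = ContinuousLinearMap.id ℝ ℂ := mfderiv_id
  simp only [d1, d2, this]
  exact w_id

theorem d_congr {G G' : Y → Y'} {q : Y} (h : G =ᶠ[𝓝 q] G') :
    d1 G q = d1 G' q ∧ d2 G q = d2 G' q := by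
  have : dd G q = dd G' q := h.mfderiv_eq
  simp only [d1, d2, this, and_self]

variable (Y Y') in
/-- admissible maps: orientation preserving `C²` diffeomorphisms, conformal off a compact set -/
structure Adm where
  φ : Diffeomorph 𝓘(ℝ, ℂ) 𝓘(ℝ, ℂ) Y Y' 2
  pos : ∀ q, ‖d2 φ q‖ < ‖d1 φ q‖
  conf : ∃ K, IsCompact K ∧ ∀ q, q ∉ K → d2 φ q = 0

namespace Adm

theorem md (A : Adm Y Y') (q : Y) : MDifferentiableAt 𝓘(ℝ, ℂ) 𝓘(ℝ, ℂ) A.φ q :=
  A.φ.contMDiff.mdifferentiableAt (by simp)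

theorem md' (A : Adm Y Y') (q : Y') : MDifferentiableAt 𝓘(ℝ, ℂ) 𝓘(ℝ, ℂ) A.φ.symm q :=
  A.φ.symm.contMDiff.mdifferentiableAt (by simp)

theorem d1_ne (A : Adm Y Y') (q : Y) : d1 A.φ q ≠ 0 :=
  norm_pos_iff.1 ((norm_nonneg _).trans_lt (A.pos q))

theorem sq_pos (A : Adm Y Y') (q : Y) : 0 < ‖d1 A.φ q‖ ^ 2 - ‖d2 A.φ q‖ ^ 2 :=
  sub_pos.2 (pow_lt_pow_left₀ (A.pos q) (norm_nonneg _) two_ne_zero)

theorem norm_bel_lt (A : Adm Y Y') (q : Y) : ‖bel A.φ q‖ < 1 := by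
  rw [bel, norm_div, div_lt_one (norm_pos_iff.2 (A.d1_ne q))]
  exact A.pos q

theorem d_symm (A : Adm Y Y') (q : Y') :
    d1 A.φ (A.φ.symm q) * d1 A.φ.symm q + d2 A.φ (A.φ.symm q) * conj (d2 A.φ.symm q) = 1 ∧
    d1 A.φ (A.φ.symm q) * d2 A.φ.symm q + d2 A.φ (A.φ.symm q) * conj (d1 A.φ.symm q) = 0 := by
  have h := d_comp (A.md (A.φ.symm q)) (A.md' q)
  have e : (A.φ : Y → Y') ∘ A.φ.symm = id := funext fun y => A.φ.apply_symm_apply y
  rw [e, (d_id q).1, (d_id q).2] at h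
  exact ⟨h.1.symm, h.2.symm⟩

theorem d2_symm (A : Adm Y Y') {q : Y'} (h : d2 A.φ (A.φ.symm q) = 0) : d2 A.φ.symm q = 0 := by
  have := (A.d_symm q).2
  rw [h, zero_mul, add_zero] at this
  exact (mul_eq_zero.1 this).resolve_left (A.d1_ne _)

variable (Y) in
/-- the identity -/
noncomputable def refl : Adm Y Y where
  φ := Diffeomorph.refl _ _ _
  pos q := by
    have := d_id q
    change ‖d2 id q‖ < ‖d1 id q‖
    rw [this.1, this.2]
    simp
  conf := ⟨∅, isCompact_empty, fun q _ => (d_id q).2⟩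

/-- composition: first `A`, then `A'` -/
noncomputable def trans (A : Adm Y Y') (A' : Adm Y' Y'') : Adm Y Y'' where
  φ := A.φ.trans A'.φ
  pos q := by
    have h := d_comp (A'.md (A.φ q)) (A.md q)
    change ‖d2 (A'.φ ∘ A.φ) q‖ < ‖d1 (A'.φ ∘ A.φ) q‖
    rw [h.1, h.2]
    refine lt_of_pow_lt_pow_left₀ 2 (norm_nonneg _) (sub_pos.1 ?_)
    rw [w_det]
    exact mul_pos (A'.sq_pos _) (A.sq_pos q)
  conf := by
    obtain ⟨K, hK, h⟩ := A.conf
    obtain ⟨K', hK', h'⟩ := A'.conf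
    refine ⟨K ∪ A.φ.symm '' K', hK.union (hK'.image A.φ.symm.continuous), fun q hq => ?_⟩
    change d2 (A'.φ ∘ A.φ) q = 0
    rw [(d_comp (A'.md (A.φ q)) (A.md q)).2, h q fun h => hq (Or.inl h),
      h' (A.φ q) fun h => hq (Or.inr ⟨_, h, A.φ.symm_apply_apply q⟩)]
    simp

/-- the inverse -/
noncomputable def symm (A : Adm Y Y') : Adm Y' Y where
  φ := A.φ.symm
  pos q := by
    have h := w_det (d1 A.φ (A.φ.symm q)) (d2 A.φ (A.φ.symm q)) (d1 A.φ.symm q) (d2 A.φ.symm q)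
    rw [(A.d_symm q).1, (A.d_symm q).2] at h
    refine lt_of_pow_lt_pow_left₀ 2 (norm_nonneg _) (sub_pos.1 ?_)
    refine (pos_iff_pos_of_mul_pos ?_).1 (A.sq_pos (A.φ.symm q))
    rw [← h]
    simp
  conf := by
    obtain ⟨K, hK, h⟩ := A.conf
    exact ⟨A.φ '' K, hK.image A.φ.continuous, fun q hq =>
      A.d2_symm (h _ fun h' => hq ⟨_, h', A.φ.apply_symm_apply q⟩)⟩

@[simp] theorem refl_apply (q : Y) : (refl Y).φ q = q := rfl
@[simp] theorem trans_apply (A : Adm Y Y') (A' : Adm Y' Y'') (q : Y) :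
    (A.trans A').φ q = A'.φ (A.φ q) := rfl
theorem trans_coe (A : Adm Y Y') (A' : Adm Y' Y'') : ⇑(A.trans A').φ = A'.φ ∘ A.φ := rfl
@[simp] theorem symm_apply (A : Adm Y Y') (q : Y') : A.symm.φ q = A.φ.symm q := rfl
@[simp] theorem trans_symm_apply (A : Adm Y Y') (A' : Adm Y' Y'') (q : Y'') :
    (A.trans A').φ.symm q = A.φ.symm (A'.φ.symm q) := rfl
@[simp] theorem symm_symm_apply (A : Adm Y Y') (q : Y) : A.symm.φ.symm q = A.φ q := rfl

theorem d_trans (A : Adm Y Y') (A' : Adm Y' Y'') (q : Y) :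
    d1 (A.trans A').φ q = d1 A'.φ (A.φ q) * d1 A.φ q + d2 A'.φ (A.φ q) * conj (d2 A.φ q) ∧
    d2 (A.trans A').φ q = d1 A'.φ (A.φ q) * d2 A.φ q + d2 A'.φ (A.φ q) * conj (d1 A.φ q) := by
  rw [trans_coe]
  exact d_comp (A'.md (A.φ q)) (A.md q)

/-- the transformation rule of Beltrami coefficients -/
noncomputable def act (Θ : Adm Y Y') (μ : Y' → ℂ) (q : Y) : ℂ :=
  (d2 Θ.φ q + μ (Θ.φ q) * conj (d1 Θ.φ q)) / (d1 Θ.φ q + μ (Θ.φ q) * conj (d2 Θ.φ q))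

theorem bel_trans (A : Adm Y Y') (A' : Adm Y' Y'') : bel (A.trans A').φ = A.act (bel A'.φ) := by
  funext q
  have h := A'.d1_ne (A.φ q)
  rw [bel, (A.d_trans A' q).1, (A.d_trans A' q).2, act, bel]
  conv_rhs => rw [← mul_div_mul_left _ _ h, mul_add, mul_add, ← mul_assoc, ← mul_assoc,
    mul_div_cancel₀ _ h]

theorem bel_trans_conf (A : Adm Y Y') (A' : Adm Y' Y'') {q : Y} (h : d2 A'.φ (A.φ q) = 0) :
    bel (A.trans A').φ q = bel A.φ q := by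
  rw [bel_trans, act, bel, h]
  simp [bel]

end Adm

end Surf

end Pool.Agent.MP_e62289_ag
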