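import Pool.Agent.MP_e62289_ag.XDefs
import Pool.Agent.MP_e62289_ag.L1

open Set Filter Topology Complex MeasureTheory Metric
open scoped Manifold ContDiff ComplexConjugate NNReal ENNReal

namespace Pool.Agent.MP_e62289_ag

section X1

variable {n : ℕ} (S : Flat n)

/-- the surface with one point added for each end -/
def X1M : Type := S.Y ⊕ Fin n

/-- the inclusion of the surface -/
def X1j (q : S.Y) : X1M S := Sum.inl q

/-- the added points -/
def X1p (i : Fin n) : X1M S := Sum.inr i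

theorem X1j_inj : Function.Injective (X1j S) := Sum.inl_injective

theorem X1p_inj : Function.Injective (X1p S) := Sum.inr_injective

theorem X1_ne (q : S.Y) (i : Fin n) : X1j S q ≠ X1p S i := Sum.inl_ne_inr

theorem X1_cover (m : X1M S) : (∃ q, X1j S q = m) ∨ ∃ i, X1p S i = m := by
  rcases m with q | i
  · exact Or.inl ⟨q, rfl⟩
  · exact Or.inr ⟨i, rfl⟩

theorem X1_mono (i : Fin n) {r s : ℝ} (h : r ≤ s) : S.End i r ⊆ S.End i s :=
  fun _ hq => ⟨hq.1, hq.2.trans_le h⟩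

theorem X1_e {i : Fin n} {q : S.Y} (hq : q ∈ (S.e i).source) : S.e i q ≠ 0 ∧ ‖S.e i q‖ < 1 := by
  have h := (S.e i).map_source hq
  rw [S.e_target] at h
  exact ⟨h.2, by simpa using h.1⟩

theorem X1_tgt {i : Fin n} {w : ℂ} (h0 : w ≠ 0) (h1 : ‖w‖ < 1) : w ∈ (S.e i).target := by
  rw [S.e_target]
  exact ⟨by simpa using h1, h0⟩

instance X1top : TopologicalSpace (X1M S) where
  IsOpen U := IsOpen (X1j S ⁻¹' U) ∧ ∀ i, X1p S i ∈ U → ∃ r, 0 < r ∧ S.End i r ⊆ X1j S ⁻¹' U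
  isOpen_univ := ⟨isOpen_univ, fun _ _ => ⟨1, one_pos, subset_univ _⟩⟩
  isOpen_inter U V hU hV := by
    refine ⟨hU.1.inter hV.1, fun i hi => ?_⟩
    obtain ⟨r, hr, h⟩ := hU.2 i hi.1
    obtain ⟨s, hs, h'⟩ := hV.2 i hi.2
    exact ⟨min r s, lt_min hr hs, subset_inter ((X1_mono S i (min_le_left _ _)).trans h)
      ((X1_mono S i (min_le_right _ _)).trans h')⟩
  isOpen_sUnion C hC := by
    refine ⟨?_, fun i hi => ?_⟩
    · rw [preimage_sUnion]
      exact isOpen_biUnion fun U hU => (hC U hU).1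
    · obtain ⟨U, hU, hi⟩ := hi
      obtain ⟨r, hr, h⟩ := (hC U hU).2 i hi
      exact ⟨r, hr, h.trans (preimage_mono (subset_sUnion_of_mem hU))⟩

theorem X1_isOpen {U : Set (X1M S)} : IsOpen U ↔
    IsOpen (X1j S ⁻¹' U) ∧ ∀ i, X1p S i ∈ U → ∃ r, 0 < r ∧ S.End i r ⊆ X1j S ⁻¹' U := Iff.rfl

theorem X1j_emb : IsOpenEmbedding (X1j S) := by
  refine IsOpenEmbedding.of_continuous_injective_isOpenMap
    (continuous_def.2 fun U hU => ((X1_isOpen S).1 hU).1) (X1j_inj S) fun V hV => ?_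
  refine (X1_isOpen S).2 ⟨?_, fun i hi => ?_⟩
  · rw [preimage_image_eq _ (X1j_inj S)]
    exact hV
  · obtain ⟨q, -, hq⟩ := hi
    exact absurd hq (X1_ne S q i)

theorem X1_pre (V : Set S.Y) (i : Fin n) : X1j S ⁻¹' (X1j S '' V ∪ {X1p S i}) = V := by
  ext q
  constructor
  · rintro (⟨q', hq', h⟩ | h)
    · rwa [← X1j_inj S h]
    · exact absurd h (X1_ne S q i)
  · exact fun h => Or.inl ⟨q, h, rfl⟩

theorem X1_open {V : Set S.Y} (hV : IsOpen V) {i : Fin n} {r : ℝ} (hr : 0 < r)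
    (h : S.End i r ⊆ V) : IsOpen (X1j S '' V ∪ {X1p S i}) := by
  refine (X1_isOpen S).2 ⟨by rwa [X1_pre], fun k hk => ?_⟩
  rcases hk with ⟨q, -, hq⟩ | hk
  · exact absurd hq (X1_ne S q k)
  · rw [X1p_inj S hk, X1_pre]
    exact ⟨r, hr, h⟩

theorem X1_nhds (i : Fin n) {r : ℝ} (hr : 0 < r) :
    X1j S '' S.End i r ∪ {X1p S i} ∈ 𝓝 (X1p S i) :=
  (X1_open S (S.isOpen_End i r) hr subset_rfl).mem_nhds (Or.inr rfl)

theorem X1_of_nhds {i : Fin n} {U : Set (X1M S)} (hU : U ∈ 𝓝 (X1p S i)) :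
    ∃ r, 0 < r ∧ X1j S '' S.End i r ∪ {X1p S i} ⊆ U := by
  obtain ⟨V, hVU, hV, hi⟩ := mem_nhds_iff.1 hU
  obtain ⟨r, hr, h⟩ := ((X1_isOpen S).1 hV).2 i hi
  refine ⟨r, hr, Subset.trans ?_ hVU⟩
  rintro m (⟨q, hq, rfl⟩ | hm)
  · exact h hq
  · rw [hm]
    exact hi

theorem X1_sep (q : S.Y) (i : Fin n) : ∃ u v : Set (X1M S), IsOpen u ∧ IsOpen v ∧
    X1j S q ∈ u ∧ X1p S i ∈ v ∧ Disjoint u v := by
  obtain ⟨r, hr, hr1, hq⟩ : ∃ r : ℝ, 0 < r ∧ r < 1 ∧ ¬ (q ∈ (S.e i).source ∧ ‖S.e i q‖ ≤ r) := by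
    by_cases h : q ∈ (S.e i).source
    · have h1 := X1_e S h
      have h2 := norm_pos_iff.2 h1.1
      exact ⟨‖S.e i q‖ / 2, by linarith, by linarith [h1.2], fun h' => by linarith [h'.2]⟩
    · exact ⟨1 / 2, one_half_pos, one_half_lt_one, fun h' => h h'.1⟩
  refine ⟨X1j S '' {q | q ∈ (S.e i).source ∧ ‖S.e i q‖ ≤ r}ᶜ, X1j S '' S.End i r ∪ {X1p S i},
    (X1j_emb S).isOpenMap _ (S.e_closed i r hr1).isOpen_compl,
    X1_open S (S.isOpen_End i r) hr subset_rfl, ⟨q, hq, rfl⟩, Or.inr rfl, ?_⟩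
  rw [Set.disjoint_left]
  rintro m ⟨x, hx, rfl⟩ hm
  have hm' : x ∈ X1j S ⁻¹' (X1j S '' S.End i r ∪ {X1p S i}) := hm
  rw [X1_pre] at hm'
  exact hx ⟨hm'.1, hm'.2.le⟩

instance X1t2 : T2Space (X1M S) := by
  refine ⟨fun a b hab => ?_⟩
  rcases X1_cover S a with ⟨x, rfl⟩ | ⟨i, rfl⟩ <;> rcases X1_cover S b with ⟨y, rfl⟩ | ⟨k, rfl⟩
  · exact separated_by_isOpenEmbedding (X1j_emb S) fun h => hab (by rw [h])
  · exact X1_sep S x k
  · obtain ⟨u, v, hu, hv, h1, h2, h3⟩ := X1_sep S y i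
    exact ⟨v, u, hv, hu, h2, h1, h3.symm⟩
  · have hik : i ≠ k := fun h => hab (by rw [h])
    refine ⟨X1j S '' S.End i 1 ∪ {X1p S i}, X1j S '' S.End k 1 ∪ {X1p S k},
      X1_open S (S.isOpen_End i 1) one_pos subset_rfl,
      X1_open S (S.isOpen_End k 1) one_pos subset_rfl, Or.inr rfl, Or.inr rfl, ?_⟩
    rw [Set.disjoint_left]
    rintro m (⟨x, hx, rfl⟩ | hm) hm'
    · have hm'' : x ∈ X1j S ⁻¹' (X1j S '' S.End k 1 ∪ {X1p S k}) := hm'
      rw [X1_pre] at hm''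
      exact Set.disjoint_left.1 (S.e_disj hik) hx.1 hm''.1
    · rw [hm] at hm'
      rcases hm' with ⟨y, -, hy⟩ | hm'
      · exact X1_ne S y i hy
      · exact hab hm'

instance X1cs : CompactSpace (X1M S) := by
  refine ⟨isCompact_iff_ultrafilter_le_nhds.2 fun F _ => ?_⟩
  by_cases h : ∃ i, (F : Filter (X1M S)) ≤ 𝓝 (X1p S i)
  · obtain ⟨i, hi⟩ := h
    exact ⟨_, mem_univ _, hi⟩
  have h1 : ∀ i, ∀ᶠ r in 𝓝[>] (0 : ℝ), (X1j S '' S.End i r ∪ {X1p S i})ᶜ ∈ F := by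
    intro i
    have h2 : ¬ (F : Filter (X1M S)) ≤ 𝓝 (X1p S i) := fun h' => h ⟨i, h'⟩
    obtain ⟨U, hU, hF⟩ := Filter.not_le.1 h2
    obtain ⟨r, hr, hs⟩ := X1_of_nhds S hU
    filter_upwards [Ioo_mem_nhdsGT hr] with s hs'
    refine Ultrafilter.compl_mem_iff_notMem.2 fun h' => hF (mem_of_superset h' ?_)
    exact (union_subset_union_left _ (image_mono (X1_mono S i hs'.2.le))).trans hs
  obtain ⟨r, hr, hr0⟩ := ((eventually_all.2 h1).and self_mem_nhdsWithin).exists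
  have hK : IsCompact (X1j S '' S.core r) := (S.e_compact r hr0).image (X1j_emb S).continuous
  have hF : X1j S '' S.core r ∈ F := by
    refine mem_of_superset (iInter_mem.2 hr) fun m hm => ?_
    rw [mem_iInter] at hm
    rcases X1_cover S m with ⟨x, rfl⟩ | ⟨i, rfl⟩
    · exact ⟨x, fun i hi => not_lt.1 fun h' => hm i (Or.inl ⟨x, ⟨hi, h'⟩, rfl⟩), rfl⟩
    · exact absurd (Or.inr rfl) (hm i)
  obtain ⟨m, -, hm⟩ := hK.ultrafilter_le_nhds F (le_principal_iff.2 hF)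
  exact ⟨m, mem_univ _, hm⟩

theorem X1_dense : DenseRange (X1j S) := by
  refine dense_iff_inter_open.2 fun U hU ⟨m, hm⟩ => ?_
  rcases X1_cover S m with ⟨x, rfl⟩ | ⟨i, rfl⟩
  · exact ⟨_, hm, x, rfl⟩
  · obtain ⟨r, hr, h⟩ := ((X1_isOpen S).1 hU).2 i hm
    have h0 : 0 < min r 1 / 2 := half_pos (lt_min hr one_pos)
    have hn : ‖((min r 1 / 2 : ℝ) : ℂ)‖ = min r 1 / 2 := by
      rw [Complex.norm_real, Real.norm_of_nonneg h0.le]
    have ht : ((min r 1 / 2 : ℝ) : ℂ) ∈ (S.e i).target :=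
      X1_tgt S (Complex.ofReal_ne_zero.2 h0.ne') (by rw [hn]; linarith [min_le_right r 1])
    refine ⟨_, h ⟨(S.e i).map_target ht, ?_⟩, _, rfl⟩
    rw [(S.e i).right_inv ht, hn]
    linarith [min_le_left r 1]

instance X1cn : ConnectedSpace (X1M S) := by
  rw [connectedSpace_iff_univ, ← (X1_dense S).closure_range]
  exact (isConnected_range (X1j_emb S).continuous).closure

/-- the extended coordinate -/
noncomputable def X1f (i : Fin n) : X1M S → ℂ := Sum.elim (S.e i) fun _ => 0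

open Classical in
/-- the inverse of the extended coordinate -/
noncomputable def X1g (i : Fin n) (w : ℂ) : X1M S :=
  if w = 0 then X1p S i else X1j S ((S.e i).symm w)

theorem X1f_j (i : Fin n) (q : S.Y) : X1f S i (X1j S q) = S.e i q := rfl

theorem X1f_p (i k : Fin n) : X1f S i (X1p S k) = 0 := rfl

theorem X1g_zero (i : Fin n) : X1g S i 0 = X1p S i := if_pos rfl

theorem X1g_ne (i : Fin n) {w : ℂ} (h : w ≠ 0) : X1g S i w = X1j S ((S.e i).symm w) := if_neg h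

/-- the chart at an added point -/
noncomputable def X1e (i : Fin n) : OpenPartialHomeomorph (X1M S) ℂ where
  toFun := X1f S i
  invFun := X1g S i
  source := X1j S '' (S.e i).source ∪ {X1p S i}
  target := ball 0 1
  map_source' := by
    rintro m (⟨q, hq, rfl⟩ | hm)
    · rw [X1f_j, mem_ball_zero_iff]
      exact (X1_e S hq).2
    · rw [hm, X1f_p]
      exact mem_ball_self one_pos
  map_target' w hw := by
    by_cases h : w = 0
    · rw [h, X1g_zero]
      exact Or.inr rfl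
    · rw [X1g_ne S i h]
      exact Or.inl ⟨_, (S.e i).map_target (X1_tgt S h (mem_ball_zero_iff.1 hw)), rfl⟩
  left_inv' := by
    rintro m (⟨q, hq, rfl⟩ | hm)
    · rw [X1f_j, X1g_ne S i (X1_e S hq).1, (S.e i).left_inv hq]
    · rw [hm, X1f_p, X1g_zero]
  right_inv' w hw := by
    by_cases h : w = 0
    · rw [h, X1g_zero, X1f_p]
    · rw [X1g_ne S i h, X1f_j, (S.e i).right_inv (X1_tgt S h (mem_ball_zero_iff.1 hw))]
  open_source := X1_open S (S.e i).open_source one_pos fun _ hq => hq.1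
  open_target := isOpen_ball
  continuousOn_toFun := by
    rintro m (⟨q, hq, rfl⟩ | hm)
    · have hc : ContinuousAt (X1f S i ∘ X1j S) q := (S.e i).continuousAt hq
      exact ((X1j_emb S).continuousAt_iff.1 hc).continuousWithinAt
    · rw [hm]
      refine ContinuousAt.continuousWithinAt ?_
      rw [ContinuousAt, X1f_p, Metric.tendsto_nhds]
      intro ε hε
      filter_upwards [X1_nhds S i hε] with m hm
      rcases hm with ⟨q, hq, rfl⟩ | hm
      · rw [X1f_j, dist_zero_right]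
        exact hq.2
      · rw [hm, X1f_p, dist_self]
        exact hε
  continuousOn_invFun w hw := by
    refine ContinuousAt.continuousWithinAt ?_
    by_cases h : w = 0
    · rw [h, ContinuousAt, X1g_zero]
      intro U hU
      obtain ⟨r, hr, hs⟩ := X1_of_nhds S hU
      rw [mem_map]
      filter_upwards [ball_mem_nhds (0 : ℂ) (lt_min hr one_pos)] with z hz
      rw [mem_ball_zero_iff, lt_min_iff] at hz
      refine hs ?_
      by_cases hz0 : z = 0
      · rw [hz0, X1g_zero]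
        exact Or.inr rfl
      · have ht := X1_tgt S (i := i) hz0 hz.2
        rw [X1g_ne S i hz0]
        refine Or.inl ⟨_, ⟨(S.e i).map_target ht, ?_⟩, rfl⟩
        rw [(S.e i).right_inv ht]
        exact hz.1
    · have hc : ContinuousAt (fun z => X1j S ((S.e i).symm z)) w :=
        (X1j_emb S).continuous.continuousAt.comp
          ((S.e i).continuousAt_symm (X1_tgt S h (mem_ball_zero_iff.1 hw)))
      refine hc.congr ?_
      filter_upwards [isOpen_ne.mem_nhds h] with z hz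
      exact (X1g_ne S i hz).symm

end X1

theorem Flat.exists_cpt {n : ℕ} (S : Flat n) : Nonempty S.Cpt := by
  exact ⟨{
    M := X1M S
    j := X1j S
    j_emb := X1j_emb S
    pt := X1p S
    pt_inj := X1p_inj S
    ne := X1_ne S
    cover := X1_cover S
    e := X1e S
    e_source := fun _ => rfl
    e_target := fun _ => rfl
    e_j := fun _ _ _ => rfl
    e_pt := fun _ => rfl }⟩

end Pool.Agent.MP_e62289_ag
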