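import Pool.Agent.MP_e62289_ag.XDefs
import Pool.Agent.MP_e62289_ag.L0

open Set Filter Topology Complex MeasureTheory Metric
open scoped Manifold ContDiff ComplexConjugate NNReal ENNReal

namespace Pool.Agent.MP_e62289_ag

/-- splitting of a real derivative that is complex in the parameter -/
theorem X2_split {F : ℂ × P2 → ℂ} {p : ℂ × P2} (hF : DifferentiableAt ℝ F p)
    (hF2 : DifferentiableAt ℂ (fun s => F (p.1, s)) p.2) :
    ∃ c : P2 →L[ℂ] ℂ, ∀ v τ, fderiv ℝ F p (v, τ) = fderiv ℝ (fun u => F (u, p.2)) p.1 v + c τ := by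
  refine ⟨fderiv ℂ (fun s => F (p.1, s)) p.2, fun v τ => ?_⟩
  have h1 : HasFDerivAt (fun u => F (u, p.2))
      ((fderiv ℝ F p).comp (ContinuousLinearMap.inl ℝ ℂ P2)) p.1 :=
    HasFDerivAt.comp (g := F) p.1 hF.hasFDerivAt (hasFDerivAt_prodMk_left p.1 p.2)
  have h2 : HasFDerivAt (fun s => F (p.1, s))
      ((fderiv ℝ F p).comp (ContinuousLinearMap.inr ℝ ℂ P2)) p.2 :=
    HasFDerivAt.comp (g := F) p.2 hF.hasFDerivAt (hasFDerivAt_prodMk_right p.1 p.2)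
  have h3 := h2.unique (hF2.hasFDerivAt.restrictScalars ℝ)
  have h4 : fderiv ℝ F p (0, τ) = fderiv ℂ (fun s => F (p.1, s)) p.2 τ :=
    DFunLike.congr_fun h3 τ
  rw [h1.fderiv, ← h4, ContinuousLinearMap.comp_apply, ContinuousLinearMap.inl_apply, ← map_add]
  simp

/-- two functions with proportional fibre derivatives differ by a holomorphic change -/
theorem X2_calc {F H : ℂ × P2 → ℂ} {G : ℂ × P2 → ℂ × P2} {w p : ℂ × P2} {l : ℂ} (hp : G w = p)
    (hF : DifferentiableAt ℝ F p) (hH : DifferentiableAt ℝ H p)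
    (hF2 : DifferentiableAt ℂ (fun s => F (p.1, s)) p.2)
    (hH2 : DifferentiableAt ℂ (fun s => H (p.1, s)) p.2)
    (hpos : ‖w2 (fderiv ℝ (fun u => F (u, p.2)) p.1)‖ < ‖w1 (fderiv ℝ (fun u => F (u, p.2)) p.1)‖)
    (h1 : w1 (fderiv ℝ (fun u => H (u, p.2)) p.1) = l * w1 (fderiv ℝ (fun u => F (u, p.2)) p.1))
    (h2 : w2 (fderiv ℝ (fun u => H (u, p.2)) p.1) = l * w2 (fderiv ℝ (fun u => F (u, p.2)) p.1))
    (hG : ContinuousAt G w) (hinv : ∀ᶠ y in 𝓝 w, (F (G y), (G y).2) = y) :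
    ∃ L : ℂ × P2 →L[ℂ] ℂ, HasFDerivAt (fun y => H (G y)) L w ∧ ∀ z, L (z, 0) = l * z := by
  obtain ⟨c, hc⟩ := X2_split hF hF2
  obtain ⟨c', hc'⟩ := X2_split hH hH2
  obtain ⟨eA, heA⟩ := exists_equiv_of_w hpos
  have hA : ∀ v, fderiv ℝ (fun u => F (u, p.2)) p.1 v = eA v := fun v => by
    rw [← heA]; rfl
  have hB : ∀ v, fderiv ℝ (fun u => H (u, p.2)) p.1 v = l * eA v := fun v => by
    rw [← hA, w_apply, w_apply (fderiv ℝ (fun u => F (u, p.2)) p.1), h1, h2]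
    ring
  let e : (ℂ × P2) ≃L[ℝ] (ℂ × P2) := ContinuousLinearEquiv.equivOfInverse
    ((fderiv ℝ F p).prod (ContinuousLinearMap.snd ℝ ℂ P2))
    (((eA.symm : ℂ →L[ℝ] ℂ).comp (ContinuousLinearMap.fst ℝ ℂ P2 -
      (c.restrictScalars ℝ).comp (ContinuousLinearMap.snd ℝ ℂ P2))).prod
      (ContinuousLinearMap.snd ℝ ℂ P2))
    (fun y => by
      obtain ⟨v, τ⟩ := y
      simp [hc, hA])
    (fun y => by
      obtain ⟨v, τ⟩ := y
      simp [hc, hA])
  have he : HasFDerivAt (fun y => (F y, y.2)) (e : (ℂ × P2) →L[ℝ] (ℂ × P2)) (G w) := by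
    rw [hp]
    exact hF.hasFDerivAt.prodMk hasFDerivAt_snd
  have hG' := HasFDerivAt.of_local_left_inverse hG he hinv
  have hHG : HasFDerivAt (fun y => H (G y))
      ((fderiv ℝ H p).comp (e.symm : (ℂ × P2) →L[ℝ] (ℂ × P2))) w :=
    HasFDerivAt.comp (g := H) w (by rw [hp]; exact hH.hasFDerivAt) hG'
  refine ⟨l • ContinuousLinearMap.fst ℂ ℂ P2 + (c' - l • c).comp (ContinuousLinearMap.snd ℂ ℂ P2),
    hasFDerivAt_of_restrictScalars ℝ hHG ?_, fun z => by simp⟩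
  refine ContinuousLinearMap.ext fun y => ?_
  obtain ⟨v, τ⟩ := y
  have h5 : (e.symm : (ℂ × P2) →L[ℝ] (ℂ × P2)) (v, τ) = (eA.symm (v - c τ), τ) := rfl
  rw [ContinuousLinearMap.comp_apply, h5, hc', hB]
  simp
  ring

/-- open embeddings have left inverses that are continuous along the image -/
theorem X2_inv {A B : Type} [TopologicalSpace A] [TopologicalSpace B] [Nonempty A] {j : A → B}
    (h : IsOpenEmbedding j) : ∃ k : B → A, (∀ x, k (j x) = x) ∧ ∀ x, ContinuousAt k (j x) := by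
  refine ⟨(h.toOpenPartialHomeomorph j).symm, fun x => h.toOpenPartialHomeomorph_left_inv,
    fun x => (h.toOpenPartialHomeomorph j).continuousAt_symm ?_⟩
  rw [h.toOpenPartialHomeomorph_target]
  exact mem_range_self x

/-- complex differentiability on `ℂ × D` -/
theorem X2_mdiff {D : TopologicalSpace.Opens P2} {T : ℂ × P2 → ℂ} {w : ℂ × D}
    (h : DifferentiableAt ℂ T (w.1, w.2.1)) :
    MDifferentiableAt (𝓘(ℂ, ℂ).prod 𝓘(ℂ, P2)) 𝓘(ℂ, ℂ) (fun y : ℂ × D => T (y.1, y.2.1)) w := by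
  have h1 : MDifferentiableAt (𝓘(ℂ, ℂ).prod 𝓘(ℂ, P2)) 𝓘(ℂ, P2) (fun y : ℂ × D => y.2.1) w :=
    ((contMDiff_subtype_val (n := 1)).mdifferentiableAt (by simp)).comp w mdifferentiableAt_snd
  exact DifferentiableAt.comp_mdifferentiableAt (g := T) (f := fun y : ℂ × D => (y.1, y.2.1)) h
    (mdifferentiableAt_fst.prodMk_space h1)

/-- reading a function with parameters in a chart -/
theorem X2_read {Y : Type} [TopologicalSpace Y] [ChartedSpace ℂ Y] [IsManifold 𝓘(ℝ, ℂ) ω Y]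
    {Z : P2 × Y → ℂ} {t : P2} {q : Y}
    (h : ContMDiffAt (𝓘(ℝ, P2).prod 𝓘(ℝ, ℂ)) 𝓘(ℝ, ℂ) 2 Z (t, q)) :
    DifferentiableAt ℝ (fun y : ℂ × P2 => Z (y.2, (chartAt ℂ q).symm y.1)) (chartAt ℂ q q, t) ∧
    d1 (fun y => Z (t, y)) q =
      w1 (fderiv ℝ (fun u => Z (t, (chartAt ℂ q).symm u)) (chartAt ℂ q q)) ∧
    d2 (fun y => Z (t, y)) q =
      w2 (fderiv ℝ (fun u => Z (t, (chartAt ℂ q).symm u)) (chartAt ℂ q q)) := by
  have hZ := h.mdifferentiableAt (by simp)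
  have hq : (chartAt ℂ q).symm (chartAt ℂ q q) = q := (chartAt ℂ q).left_inv (mem_chart_source ℂ q)
  refine ⟨?_, ?_⟩
  · have h1 : MDifferentiableAt 𝓘(ℝ, ℂ) 𝓘(ℝ, ℂ) (chartAt ℂ q).symm (chartAt ℂ q q) :=
      mdifferentiableAt_atlas_symm (chart_mem_atlas ℂ q) (mem_chart_target ℂ q)
    have h2 : MDifferentiableAt 𝓘(ℝ, ℂ × P2) 𝓘(ℝ, ℂ) (fun y : ℂ × P2 => (chartAt ℂ q).symm y.1)
        (chartAt ℂ q q, t) :=
      MDifferentiableAt.comp (g := (chartAt ℂ q).symm) (f := Prod.fst) _ h1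
        differentiableAt_fst.mdifferentiableAt
    have h3 : MDifferentiableAt 𝓘(ℝ, ℂ × P2) (𝓘(ℝ, P2).prod 𝓘(ℝ, ℂ))
        (fun y : ℂ × P2 => (y.2, (chartAt ℂ q).symm y.1)) (chartAt ℂ q q, t) :=
      differentiableAt_snd.mdifferentiableAt.prodMk h2
    have h4 : MDifferentiableAt 𝓘(ℝ, ℂ × P2) 𝓘(ℝ, ℂ)
        (fun y : ℂ × P2 => Z (y.2, (chartAt ℂ q).symm y.1)) (chartAt ℂ q q, t) :=
      MDifferentiableAt.comp (g := Z) _ (by simpa only [hq] using hZ) h3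
    exact mdifferentiableAt_iff_differentiableAt.1 h4
  · have h1 : RDiffAt (fun y => Z (t, y)) q :=
      MDifferentiableAt.comp (g := Z) (f := fun y => (t, y)) q hZ
        (mdifferentiableAt_const.prodMk mdifferentiableAt_id)
    rw [d1, d2, dd_eq_fderiv h1]
    exact ⟨rfl, rfl⟩

end Pool.Agent.MP_e62289_ag
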