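import Pool.Agent.MP_e62289_ag.XDefs
import Pool.Agent.MP_e62289_ag.L1

open Set Filter Topology Complex MeasureTheory Metric
open scoped Manifold ContDiff ComplexConjugate NNReal ENNReal

namespace Pool.Agent.MP_e62289_ag

/-- the inverse function theorem with a parameter -/
theorem X2c_plane {Z : ℂ × P2 → ℂ} {w₀ : ℂ × P2} (hZ : ContDiffAt ℝ 1 Z w₀)
    (hL : Function.Injective (fderiv ℝ (fun z => Z (z, w₀.2)) w₀.1)) :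
    ∃ Φ : OpenPartialHomeomorph (ℂ × P2) (ℂ × P2), w₀ ∈ Φ.source ∧ ∀ w, Φ w = (Z w, w.2) := by
  have hA : HasFDerivAt Z (fderiv ℝ Z w₀) w₀ := (hZ.differentiableAt one_ne_zero).hasFDerivAt
  have hA' : HasFDerivAt Z (fderiv ℝ Z w₀) (w₀.1, w₀.2) := hA
  have h1 := (HasFDerivAt.comp (f := fun z : ℂ => (z, w₀.2)) w₀.1 hA'
    (hasFDerivAt_prodMk_left (𝕜 := ℝ) w₀.1 w₀.2)).fderiv
  have h1' : fderiv ℝ (fun z => Z (z, w₀.2)) w₀.1 =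
      (fderiv ℝ Z w₀).comp (ContinuousLinearMap.inl ℝ ℂ P2) := h1
  rw [h1'] at hL
  let f' : ℂ × P2 →L[ℝ] ℂ × P2 := (fderiv ℝ Z w₀).prod (ContinuousLinearMap.snd ℝ ℂ P2)
  have hinj : Function.Injective (f' : ℂ × P2 →ₗ[ℝ] ℂ × P2) := by
    refine (injective_iff_map_eq_zero _).2 ?_
    rintro ⟨v, t⟩ h
    have h2 : t = 0 := congrArg Prod.snd h
    subst h2
    have h3 : fderiv ℝ Z w₀ (v, 0) = 0 := congrArg Prod.fst h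
    have h4 : v = 0 := (injective_iff_map_eq_zero _).1 hL v h3
    rw [h4]
    rfl
  let e : (ℂ × P2) ≃L[ℝ] (ℂ × P2) :=
    (LinearEquiv.ofInjectiveEndo (f' : ℂ × P2 →ₗ[ℝ] ℂ × P2) hinj).toContinuousLinearEquiv
  have he : (e : ℂ × P2 →L[ℝ] ℂ × P2) = f' := ContinuousLinearMap.ext fun _ => rfl
  have hf : ContDiffAt ℝ 1 (fun w : ℂ × P2 => (Z w, w.2)) w₀ := hZ.prodMk contDiffAt_snd
  have hf' : HasFDerivAt (fun w : ℂ × P2 => (Z w, w.2)) (e : ℂ × P2 →L[ℝ] ℂ × P2) w₀ := by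
    rw [he]
    exact hA.prodMk hasFDerivAt_snd
  exact ⟨hf.toOpenPartialHomeomorph _ hf' one_ne_zero,
    hf.mem_toOpenPartialHomeomorph_source hf' one_ne_zero, fun _ => rfl⟩

namespace Flat

variable {n : ℕ} {S : Flat n} {a : Fin n → ℕ} {D : TopologicalSpace.Opens P2}

theorem X2c_local (δ : S.Defo a D) (q₀ : S.Y) (t₀ : D) {P₀ P₁ : S.Y → ℂ}
    (h₀ : ∀ᶠ q in 𝓝 q₀, HolAt P₀ q) (h₁ : ∀ᶠ q in 𝓝 q₀, HolAt P₁ q)
    (e₀ : d1 P₀ q₀ = δ.g₀ q₀) (e₁ : d1 P₁ q₀ = δ.g₁ q₀) :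
    ∃ Φ : OpenPartialHomeomorph (ℂ × P2) (ℂ × P2), (chartAt ℂ q₀ q₀, t₀.1) ∈ Φ.source ∧
      ∀ w, Φ w = (P₀ ((chartAt ℂ q₀).symm w.1) + w.2 1 * P₁ ((chartAt ℂ q₀).symm w.1) +
        δ.K w.2 ((chartAt ℂ q₀).symm w.1), w.2) := by
  have hq := mem_chart_source ℂ q₀
  refine X2c_plane (Z := fun w => P₀ ((chartAt ℂ q₀).symm w.1) +
    w.2 1 * P₁ ((chartAt ℂ q₀).symm w.1) + δ.K w.2 ((chartAt ℂ q₀).symm w.1)) ?_ ?_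
  · have c₀ : ContDiffAt ℝ 1 (fun w : ℂ × P2 => P₀ ((chartAt ℂ q₀).symm w.1))
        (chartAt ℂ q₀ q₀, t₀.1) :=
      ContDiffAt.comp (g := P₀ ∘ (chartAt ℂ q₀).symm) (f := Prod.fst) _
        (S.L1a_contDiffAt (ckAt_of_hol h₀ 1)) contDiffAt_fst
    have c₁ : ContDiffAt ℝ 1 (fun w : ℂ × P2 => P₁ ((chartAt ℂ q₀).symm w.1))
        (chartAt ℂ q₀ q₀, t₀.1) :=
      ContDiffAt.comp (g := P₁ ∘ (chartAt ℂ q₀).symm) (f := Prod.fst) _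
        (S.L1a_contDiffAt (ckAt_of_hol h₁ 1)) contDiffAt_fst
    have c₂ : ContDiffAt ℝ 1 (fun w : ℂ × P2 => w.2 1) (chartAt ℂ q₀ q₀, t₀.1) := by fun_prop
    have : IsManifold 𝓘(ℝ, ℂ) 1 S.Y := IsManifold.of_le (n := ω) le_top
    have hs : ContMDiffAt 𝓘(ℝ, ℂ) 𝓘(ℝ, ℂ) 1 (chartAt ℂ q₀).symm (chartAt ℂ q₀ q₀) :=
      (contMDiffOn_chart_symm (I := 𝓘(ℝ, ℂ)) (n := 1) (x := q₀)).contMDiffAt
        ((chartAt ℂ q₀).open_target.mem_nhds (mem_chart_target ℂ q₀))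
    have hm : ContMDiffAt 𝓘(ℝ, ℂ × P2) (𝓘(ℝ, P2).prod 𝓘(ℝ, ℂ)) 1
        (fun w : ℂ × P2 => (w.2, (chartAt ℂ q₀).symm w.1)) (chartAt ℂ q₀ q₀, t₀.1) :=
      contDiff_snd.contMDiff.contMDiffAt.prodMk
        (ContMDiffAt.comp (g := (chartAt ℂ q₀).symm) (f := Prod.fst) _ hs
          contDiff_fst.contMDiff.contMDiffAt)
    have c₃ : ContDiffAt ℝ 1 (fun w : ℂ × P2 => δ.K w.2 ((chartAt ℂ q₀).symm w.1))
        (chartAt ℂ q₀ q₀, t₀.1) :=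
      contMDiffAt_iff_contDiffAt.1
        (((δ.smooth _).of_le (by norm_num)).comp _ hm)
    exact (c₀.add (c₂.mul c₁)).add c₃
  · have r₀ := d2_of_hol h₀.self_of_nhds
    have r₁ := d2_of_hol h₁.self_of_nhds
    have rc : RDiffAt (fun _ : S.Y => t₀.1 1) q₀ := mdifferentiableAt_const
    have rK : RDiffAt (δ.K t₀.1) q₀ :=
      (((δ.smooth (t₀.1, q₀)).comp q₀
        (contMDiffAt_const.prodMk contMDiffAt_id)).mdifferentiableAt (by simp))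
    have r₂ : RDiffAt (fun q => t₀.1 1 * P₁ q) q₀ := RDiffAt.mul rc r₁.1
    have r₃ : RDiffAt (fun q => P₀ q + t₀.1 1 * P₁ q) q₀ := RDiffAt.add r₀.1 r₂
    have r₄ : RDiffAt (fun q => P₀ q + t₀.1 1 * P₁ q + δ.K t₀.1 q) q₀ := RDiffAt.add r₃ rK
    have hd := dd_eq_fderiv r₄
    have hp : ‖d2 (fun q => P₀ q + t₀.1 1 * P₁ q + δ.K t₀.1 q) q₀‖ <
        ‖d1 (fun q => P₀ q + t₀.1 1 * P₁ q + δ.K t₀.1 q) q₀‖ := by
      rw [(d_add r₃ rK).1, (d_add r₃ rK).2, (d_add r₀.1 r₂).1, (d_add r₀.1 r₂).2,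
        (d_mul rc r₁.1).1, (d_mul rc r₁.1).2, (d_const _ q₀).1, (d_const _ q₀).2, r₀.2, r₁.2,
        e₀, e₁]
      simpa using δ.pos t₀.1 t₀.2 q₀
    obtain ⟨e, he⟩ := exists_equiv_of_w hp
    have h2 : fderiv ℝ (fun z => P₀ ((chartAt ℂ q₀).symm z) +
        t₀.1 1 * P₁ ((chartAt ℂ q₀).symm z) + δ.K t₀.1 ((chartAt ℂ q₀).symm z))
        (chartAt ℂ q₀ q₀) = (e : ℂ →L[ℝ] ℂ) := (he.trans hd).symm
    dsimp only
    rw [h2]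
    exact e.injective

/-- charts of the deformed structure at regular points -/
theorem Defo.reg_chart (δ : S.Defo a D) (c : S.Cpt) (q₀ : S.Y) (t₀ : D) :
    ∃ (N : Set S.Y) (P₀ P₁ : S.Y → ℂ) (ch : OpenPartialHomeomorph (c.M × D) (ℂ × D)),
      IsOpen N ∧ (∀ q ∈ N, HolAt P₀ q ∧ d1 P₀ q = δ.g₀ q ∧ HolAt P₁ q ∧ d1 P₁ q = δ.g₁ q) ∧
      (c.j q₀, t₀) ∈ ch.source ∧ ∀ p ∈ ch.source, ∃ q ∈ N, c.j q = p.1 ∧
        ch p = (P₀ q + p.2.1 1 * P₁ q + δ.K p.2.1 q, p.2) := by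
  obtain ⟨N, hN, hq₀, -⟩ := S.exists_disc (q := q₀) univ_mem
  have hNo := IsDisc.isOpen S hN
  obtain ⟨P₀, hP₀⟩ := IsDisc.prim S hN (u := δ.g₀) fun q _ => δ.hol₀ q
  obtain ⟨P₁, hP₁⟩ := IsDisc.prim S hN (u := δ.g₁) fun q _ => δ.hol₁ q
  obtain ⟨Φ, hΦ, hΦe⟩ := X2c_local δ q₀ t₀ (P₀ := P₀) (P₁ := P₁)
    (mem_of_superset (hNo.mem_nhds hq₀) fun q hq => (hP₀ q hq).1)
    (mem_of_superset (hNo.mem_nhds hq₀) fun q hq => (hP₁ q hq).1) (hP₀ q₀ hq₀).2 (hP₁ q₀ hq₀).2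
  have : Nonempty S.Y := ⟨q₀⟩
  let J : OpenPartialHomeomorph S.Y c.M := c.j_emb.toOpenPartialHomeomorph c.j
  have hJ : ∀ q, J.symm (c.j q) = q := fun q => J.left_inv (mem_univ q)
  let ι : OpenPartialHomeomorph D P2 := D.openPartialHomeomorphSubtypeCoe ⟨t₀⟩
  have hι : ∀ t : D, ι.symm t.1 = t := fun t => ι.left_inv (mem_univ t)
  let A : OpenPartialHomeomorph (c.M × D) (ℂ × P2) :=
    (J.symm ≫ₕ (chartAt ℂ q₀).restrOpen N hNo).prod ι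
  have hA : ∀ p : c.M × D, A p = (chartAt ℂ q₀ (J.symm p.1), p.2.1) := fun _ => rfl
  let B : OpenPartialHomeomorph (ℂ × P2) (ℂ × D) := ((OpenPartialHomeomorph.refl ℂ).prod ι).symm
  have hB : ∀ w : ℂ × P2, B w = (w.1, ι.symm w.2) := fun _ => rfl
  refine ⟨N, P₀, P₁, A ≫ₕ Φ ≫ₕ B, hNo,
    fun q hq => ⟨(hP₀ q hq).1, (hP₀ q hq).2, (hP₁ q hq).1, (hP₁ q hq).2⟩, ⟨⟨⟨?_, ?_⟩, ?_⟩, ?_, ?_⟩,
    ?_⟩
  · exact J.map_source (mem_univ q₀)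
  · change J.symm (c.j q₀) ∈ (chartAt ℂ q₀).source ∩ N
    rw [hJ]
    exact ⟨mem_chart_source ℂ q₀, hq₀⟩
  · exact mem_univ _
  · change A (c.j q₀, t₀) ∈ Φ.source
    rw [hA, hJ]
    exact hΦ
  · change Φ (A (c.j q₀, t₀)) ∈ B.source
    rw [hΦe, hA]
    exact ⟨mem_univ _, ι.map_source (mem_univ t₀)⟩
  · rintro p ⟨⟨⟨h1, h2⟩, -⟩, -⟩
    have h2' : J.symm p.1 ∈ (chartAt ℂ q₀).source ∩ N := h2
    refine ⟨J.symm p.1, h2'.2, J.right_inv h1, ?_⟩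
    change B (Φ (A p)) = _
    rw [hB, hΦe, hA]
    dsimp only
    rw [(chartAt ℂ q₀).left_inv h2'.1, hι]

end Flat

end Pool.Agent.MP_e62289_ag
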