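import Pool.Agent.MP_e62289_ag.LDefs

open Set Filter Topology Complex MeasureTheory Metric
open scoped Manifold ContDiff ComplexConjugate NNReal ENNReal

namespace Pool.Agent.MP_e62289_ag

/-- the charted space with given preferred charts -/
@[reducible] def chartedOf {Y : Type} [TopologicalSpace Y] (φ : Y → OpenPartialHomeomorph Y ℂ)
    (hm : ∀ q, q ∈ (φ q).source) : ChartedSpace ℂ Y where
  atlas := range φ
  chartAt := φ
  mem_chart_source := hm
  chart_mem_atlas := mem_range_self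

theorem x3a_trans {Y : Type} [TopologicalSpace Y] (φ : Y → OpenPartialHomeomorph Y ℂ)
    (hf : ∀ x y : Y, ∀ q ∈ (φ x).source ∩ (φ y).source, ∀ᶠ q' in 𝓝 q,
      φ x q' - φ y q' = φ x q - φ y q) (x y : Y) {z : ℂ}
    (hz : z ∈ ((φ x).symm ≫ₕ φ y).source) :
    ∃ c : ℂ, ((φ x).symm ≫ₕ φ y) =ᶠ[𝓝 z] fun w => w + c := by
  have h1 : z ∈ (φ x).target := hz.1
  have h2 : (φ x).symm z ∈ (φ y).source := hz.2
  have h3 := ((φ x).continuousAt_symm h1).eventually
    (hf x y ((φ x).symm z) ⟨(φ x).map_target h1, h2⟩)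
  refine ⟨φ y ((φ x).symm z) - z, ?_⟩
  filter_upwards [h3, (φ x).open_target.mem_nhds h1] with w hw hw'
  rw [(φ x).right_inv hw', (φ x).right_inv h1] at hw
  change φ y ((φ x).symm w) = _
  linear_combination -hw

theorem flat_manifold {Y : Type} [TopologicalSpace Y] (φ : Y → OpenPartialHomeomorph Y ℂ)
    (hm : ∀ q, q ∈ (φ q).source)
    (hf : ∀ x y : Y, ∀ q ∈ (φ x).source ∩ (φ y).source, ∀ᶠ q' in 𝓝 q,
      φ x q' - φ y q' = φ x q - φ y q) :
    @IsManifold ℂ _ ℂ _ _ ℂ _ 𝓘(ℂ, ℂ) ω Y _ (chartedOf φ hm) ∧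
    @IsManifold ℝ _ ℂ _ _ ℂ _ 𝓘(ℝ, ℂ) ω Y _ (chartedOf φ hm) := by
  let := chartedOf φ hm
  constructor
  · refine isManifold_of_contDiffOn _ _ _ ?_
    rintro _ _ ⟨x, rfl⟩ ⟨y, rfl⟩
    simp only [modelWithCornersSelf_coe, modelWithCornersSelf_coe_symm, Function.id_comp,
      Function.comp_id, preimage_id_eq, id_eq, range_id, inter_univ]
    intro z hz
    obtain ⟨c, hc⟩ := x3a_trans φ hf x y hz
    exact ((contDiff_id.add contDiff_const).contDiffAt.congr_of_eventuallyEq hc).contDiffWithinAt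
  · refine isManifold_of_contDiffOn _ _ _ ?_
    rintro _ _ ⟨x, rfl⟩ ⟨y, rfl⟩
    simp only [modelWithCornersSelf_coe, modelWithCornersSelf_coe_symm, Function.id_comp,
      Function.comp_id, preimage_id_eq, id_eq, range_id, inter_univ]
    intro z hz
    obtain ⟨c, hc⟩ := x3a_trans φ hf x y hz
    exact ((contDiff_id.add contDiff_const).contDiffAt.congr_of_eventuallyEq hc).contDiffWithinAt

section Area

variable {Y : Type} [TopologicalSpace Y] [MeasurableSpace Y] [BorelSpace Y]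

/-- Lebesgue measure read in a chart -/
noncomputable def x3aAt (ψ : OpenPartialHomeomorph Y ℂ) : Measure Y :=
  Measure.map ψ.symm (volume.restrict ψ.target)

theorem x3aAt_apply (ψ : OpenPartialHomeomorph Y ℂ) {A : Set Y} (hA : MeasurableSet A)
    (h : A ⊆ ψ.source) : x3aAt ψ A = volume (ψ '' A) := by
  have hm := ψ.open_target.measurableSet
  rw [x3aAt, Measure.map_apply_of_aemeasurable (ψ.continuousOn_symm.aemeasurable hm) hA,
    Measure.restrict_apply' hm, ψ.image_eq_target_inter_inv_preimage h, inter_comm]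

theorem x3a_volume [SecondCountableTopology Y] (ψ χ : OpenPartialHomeomorph Y ℂ)
    (hf : ∀ q ∈ ψ.source ∩ χ.source, ∀ᶠ q' in 𝓝 q, ψ q' - χ q' = ψ q - χ q)
    {A : Set Y} (hA : MeasurableSet A) (h1 : A ⊆ ψ.source) (h2 : A ⊆ χ.source) :
    volume (ψ '' A) = volume (χ '' A) := by
  rw [← x3aAt_apply ψ hA h1, ← x3aAt_apply χ hA h2]
  have hN : ∀ q ∈ A, ∃ N, IsOpen N ∧ q ∈ N ∧ N ⊆ ψ.source ∧ N ⊆ χ.source ∧
      ∀ q' ∈ N, ψ q' = χ q' + (ψ q - χ q) := by
    intro q hq
    have h := (ψ.open_source.eventually_mem (h1 hq)).and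
      ((χ.open_source.eventually_mem (h2 hq)).and (hf q ⟨h1 hq, h2 hq⟩))
    obtain ⟨N, hN, ho, hqN⟩ := eventually_nhds_iff.1 h
    refine ⟨N, ho, hqN, fun q' h' => (hN q' h').1, fun q' h' => (hN q' h').2.1, fun q' h' => ?_⟩
    rw [← (hN q' h').2.2]
    ring
  choose! N hNo hNq hN1 hN2 hN3 using hN
  obtain ⟨T, hTA, hTc, hT⟩ := TopologicalSpace.isOpen_biUnion_countable A N hNo
  have hAT : A ⊆ ⋃ q ∈ T, N q := hT ▸ fun q hq => mem_biUnion hq (hNq q hq)
  have key : (x3aAt ψ).restrict (⋃ q ∈ T, N q) = (x3aAt χ).restrict (⋃ q ∈ T, N q) := by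
    refine (Measure.restrict_biUnion_congr hTc).2 fun q hq => ?_
    have hq' := hTA hq
    refine (Measure.restrict_congr_meas (hNo q hq').measurableSet).2 fun t ht htm => ?_
    rw [x3aAt_apply ψ htm (ht.trans (hN1 q hq')), x3aAt_apply χ htm (ht.trans (hN2 q hq'))]
    have : ψ '' t = (fun z => z + (ψ q - χ q)) '' (χ '' t) := by
      rw [image_image]
      exact image_congr fun q' h' => hN3 q hq' q' (ht h')
    rw [this, image_add_right, measure_preimage_add_right]
  have := congrArg (fun m : Measure Y => m A) key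
  simpa only [Measure.restrict_apply hA, inter_eq_left.2 hAT] using this

end Area

theorem flat_area {Y : Type} [TopologicalSpace Y] [SecondCountableTopology Y] [MeasurableSpace Y]
    [BorelSpace Y] (φ : Y → OpenPartialHomeomorph Y ℂ) (hm : ∀ q, q ∈ (φ q).source)
    (hf : ∀ x y : Y, ∀ q ∈ (φ x).source ∩ (φ y).source, ∀ᶠ q' in 𝓝 q,
      φ x q' - φ y q' = φ x q - φ y q) :
    ∃ lam : Measure Y, ∀ (x : Y) (A : Set Y), MeasurableSet A → A ⊆ (φ x).source →
      lam A = volume (φ x '' A) := by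
  obtain ⟨T, -, hTc, hT⟩ := TopologicalSpace.isOpen_biUnion_countable univ
    (fun x => (φ x).source) fun x _ => (φ x).open_source
  have hcov : ∀ x, (φ x).source ⊆ ⋃ q ∈ T, (φ q).source := by
    intro x
    rw [hT]
    exact subset_biUnion_of_mem (u := fun x => (φ x).source) (mem_univ x)
  rcases T.eq_empty_or_nonempty with rfl | hne
  · refine ⟨0, fun x => ?_⟩
    simpa using hcov x (hm x)
  obtain ⟨f, rfl⟩ := hTc.exists_eq_range hne
  let B : ℕ → Set Y := disjointed fun n => (φ (f n)).source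
  have hBm : ∀ n, MeasurableSet (B n) :=
    MeasurableSet.disjointed fun n => (φ (f n)).open_source.measurableSet
  have hBs : ∀ n, B n ⊆ (φ (f n)).source := disjointed_subset _
  refine ⟨Measure.sum fun n => (x3aAt (φ (f n))).restrict (B n), fun x A hA hAx => ?_⟩
  rw [Measure.sum_apply _ hA, ← x3aAt_apply (φ x) hA hAx]
  have hU : A = ⋃ n, A ∩ B n := by
    rw [← inter_iUnion, iUnion_disjointed]
    refine (inter_eq_left.2 ?_).symm
    simpa only [biUnion_range] using hAx.trans (hcov x)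
  conv_rhs => rw [hU]
  rw [measure_iUnion (fun i j hij => (disjoint_disjointed _ hij).mono inter_subset_right
    inter_subset_right) fun n => hA.inter (hBm n)]
  refine tsum_congr fun n => ?_
  have hm := hA.inter (hBm n)
  have s1 : A ∩ B n ⊆ (φ (f n)).source := inter_subset_right.trans (hBs n)
  have s2 : A ∩ B n ⊆ (φ x).source := inter_subset_left.trans hAx
  rw [Measure.restrict_apply hA, x3aAt_apply _ hm s1, x3aAt_apply _ hm s2,
    x3a_volume _ _ (hf (f n) x) hm s1 s2]

end Pool.Agent.MP_e62289_ag
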