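import Pool.Agent.MP_e62289_ag.XDefs

open Set Filter Topology Complex MeasureTheory Metric
open scoped Manifold ContDiff ComplexConjugate NNReal ENNReal

namespace Pool.Agent.MP_e62289_ag

/-- the affine curve without the points over `0, i, -i` -/
abbrev Cv (s : ℝ) : Type := {p : ℂ × ℂ // p.2 ^ 2 = PP s p.1 ∧ p.1 ≠ 0 ∧ p.1 ^ 2 + 1 ≠ 0}

/-- `φ` is a local primitive of `dx / y` -/
def IsFlatChart {s : ℝ} (φ : OpenPartialHomeomorph (Cv s) ℂ) : Prop :=
  ∀ z ∈ φ.target, HasDerivAt (fun z => (φ.symm z).1.1) (φ.symm z).1.2 z ∧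
    HasDerivAt (fun z => (φ.symm z).1.2) (deriv (PP s) (φ.symm z).1.1 / 2) z

variable {s : ℝ}

theorem x3d_hasDerivAt (s : ℝ) (x : ℂ) : HasDerivAt (PP s)
    (4 * x ^ 3 * (1 - s ^ 4 * x ^ 4) - (x ^ 4 - s ^ 4) * (s ^ 4 * (4 * x ^ 3))) x := by
  have h1 : HasDerivAt (fun x : ℂ => x ^ 4) (4 * x ^ 3) x := by
    simpa using hasDerivAt_pow 4 x
  have h2 := (h1.sub_const ((s : ℂ) ^ 4)).mul ((h1.const_mul ((s : ℂ) ^ 4)).const_sub 1)
  refine HasDerivAt.congr_deriv h2 ?_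
  ring

theorem x3d_contDiff (s : ℝ) : ContDiff ℂ ω (PP s) := by
  unfold PP
  fun_prop

theorem x3d_deriv_diff (s : ℝ) : Differentiable ℂ (deriv (PP s)) := by
  have : deriv (PP s) = fun x : ℂ =>
      4 * x ^ 3 * (1 - s ^ 4 * x ^ 4) - (x ^ 4 - s ^ 4) * (s ^ 4 * (4 * x ^ 3)) :=
    funext fun x => (x3d_hasDerivAt s x).deriv
  rw [this]
  fun_prop

theorem PP_simple (h0 : 0 < s) (h1 : s < 1 / 2) {x : ℂ} (h : PP s x = 0) : deriv (PP s) x ≠ 0 := by
  rw [(x3d_hasDerivAt s x).deriv]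
  have hs0 : (s : ℂ) ≠ 0 := by exact_mod_cast h0.ne'
  have hs1 : (1 : ℂ) - s ^ 4 * s ^ 4 ≠ 0 := by
    have h2 : s ^ 4 * s ^ 4 < 1 := by
      rw [← pow_add]
      exact pow_lt_one₀ h0.le (by linarith) (by norm_num)
    have h3 : (1 : ℝ) - s ^ 4 * s ^ 4 ≠ 0 := by linarith
    exact_mod_cast h3
  rcases mul_eq_zero.1 h with h | h
  · have hx : x ≠ 0 := by
      rintro rfl
      apply hs0
      have : (s : ℂ) ^ 4 = 0 := by linear_combination -h
      exact pow_eq_zero_iff (by norm_num) |>.1 this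
    have e : x ^ 4 = s ^ 4 := by linear_combination h
    rw [h, zero_mul, sub_zero, e]
    exact mul_ne_zero (mul_ne_zero (by norm_num) (pow_ne_zero _ hx)) hs1
  · have hx : x ≠ 0 := by
      rintro rfl
      simp at h
    rw [h, mul_zero, zero_sub, neg_ne_zero]
    refine mul_ne_zero (fun h' => hs1 ?_)
      (mul_ne_zero (pow_ne_zero _ hs0) (mul_ne_zero (by norm_num) (pow_ne_zero _ hx)))
    linear_combination h + (s : ℂ) ^ 4 * h'

/-- the tangent vector of the flow does not vanish on the curve -/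
theorem x3d_ne (h0 : 0 < s) (h1 : s < 1 / 2) (q : Cv s) :
    q.1.2 ≠ 0 ∨ deriv (PP s) q.1.1 / 2 ≠ 0 := by
  by_cases h : q.1.2 = 0
  · refine Or.inr (div_ne_zero (PP_simple h0 h1 ?_) two_ne_zero)
    rw [← q.2.1, h]
    simp
  · exact Or.inl h

open Classical in
/-- restriction of a chart of the plane that straightens the curve -/
theorem x3d_chart (q : Cv s) (Φ : OpenPartialHomeomorph (ℂ × ℂ) (ℂ × ℂ)) (hq : q.1 ∈ Φ.source)
    (hΦ : ∀ p, (Φ p).1 = p.2 ^ 2 - PP s p.1) :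
    ∃ χ : OpenPartialHomeomorph (Cv s) ℂ, q ∈ χ.source ∧ (∀ p, χ p = (Φ p.1).2) ∧
      ∀ z ∈ χ.target, (0, z) ∈ Φ.target ∧ (χ.symm z).1 = Φ.symm (0, z) := by
  have hcv : ∀ p : Cv s, Φ p.1 = (0, (Φ p.1).2) := fun p => by
    refine Prod.ext ?_ rfl
    rw [hΦ, p.2.1, sub_self]
  let T : Set ℂ := {z | (0, z) ∈ Φ.target ∧
    Φ.symm (0, z) ∈ {p : ℂ × ℂ | p.1 ≠ 0 ∧ p.1 ^ 2 + 1 ≠ 0}}
  have hT : ∀ z ∈ T, (Φ.symm (0, z)).2 ^ 2 = PP s (Φ.symm (0, z)).1 ∧ (Φ.symm (0, z)).1 ≠ 0 ∧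
      (Φ.symm (0, z)).1 ^ 2 + 1 ≠ 0 := by
    intro z hz
    refine ⟨?_, hz.2⟩
    have := hΦ (Φ.symm (0, z))
    rw [Φ.right_inv hz.1] at this
    exact (sub_eq_zero.1 this.symm)
  let g : ℂ → Cv s := fun z => if h : z ∈ T then ⟨Φ.symm (0, z), hT z h⟩ else q
  have hg : ∀ z ∈ T, (g z).1 = Φ.symm (0, z) := fun z hz => by simp only [g, dif_pos hz]
  have hmap : ∀ p : Cv s, p.1 ∈ Φ.source → (Φ p.1).2 ∈ T := by
    intro p hp
    refine ⟨?_, ?_⟩
    · rw [← hcv]
      exact Φ.map_source hp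
    · rw [← hcv, Φ.left_inv hp]
      exact p.2.2
  have hpair : Continuous fun z : ℂ => ((0 : ℂ), z) := by fun_prop
  have hTo : IsOpen T := by
    have ho : IsOpen {p : ℂ × ℂ | p.1 ≠ 0 ∧ p.1 ^ 2 + 1 ≠ 0} :=
      (isOpen_ne_fun continuous_fst continuous_const).inter
        (isOpen_ne_fun (by fun_prop) continuous_const)
    exact (Φ.continuousOn_symm.isOpen_inter_preimage Φ.open_target ho).preimage hpair
  refine ⟨{ toFun := fun p => (Φ p.1).2
            invFun := g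
            source := {p | p.1 ∈ Φ.source}
            target := T
            map_source' := hmap
            map_target' := fun z hz => ?_
            left_inv' := fun p hp => ?_
            right_inv' := fun z hz => ?_
            open_source := Φ.open_source.preimage continuous_subtype_val
            open_target := hTo
            continuousOn_toFun := ?_
            continuousOn_invFun := ?_ }, hq, fun _ => rfl, fun z hz => ⟨hz.1, hg z hz⟩⟩
  · change (g z).1 ∈ Φ.source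
    rw [hg z hz]
    exact Φ.map_target hz.1
  · refine Subtype.ext ?_
    rw [hg _ (hmap p hp), ← hcv, Φ.left_inv hp]
  · rw [hg z hz, Φ.right_inv hz.1]
  · exact continuous_snd.comp_continuousOn
      (Φ.continuousOn.comp continuous_subtype_val.continuousOn fun p hp => hp)
  · refine IsInducing.subtypeVal.continuousOn_iff.2 ?_
    refine ContinuousOn.congr (f := fun z => Φ.symm (0, z)) ?_ fun z hz => hg z hz
    exact Φ.continuousOn_symm.comp hpair.continuousOn fun z hz => hz.1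

/-- a straightening chart with holomorphic inverse -/
theorem x3d_plane (p : ℂ × ℂ) {a b : ℂ} (hab : a * p.2 + b * (deriv (PP s) p.1 / 2) ≠ 0) :
    ∃ Φ : OpenPartialHomeomorph (ℂ × ℂ) (ℂ × ℂ), p ∈ Φ.source ∧
      (∀ p, Φ p = (p.2 ^ 2 - PP s p.1, a * p.1 + b * p.2)) ∧
      ∀ᶠ w in 𝓝 (Φ p), DifferentiableAt ℂ Φ.symm w := by
  let Ψ : ℂ × ℂ → ℂ × ℂ := fun p => (p.2 ^ 2 - PP s p.1, a * p.1 + b * p.2)
  have hc : ContDiffAt ℂ 1 Ψ p := by
    have := (x3d_contDiff s).of_le (m := 1) le_top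
    refine ContDiff.contDiffAt ?_
    fun_prop
  have hP : HasDerivAt (PP s) (deriv (PP s) p.1) p.1 :=
    (x3d_hasDerivAt s p.1).differentiableAt.hasDerivAt
  set P' := deriv (PP s) p.1 with hP'
  let L : ℂ × ℂ →L[ℂ] ℂ × ℂ :=
    ((2 * p.2) • ContinuousLinearMap.snd ℂ ℂ ℂ - P' • ContinuousLinearMap.fst ℂ ℂ ℂ).prod
      (a • ContinuousLinearMap.fst ℂ ℂ ℂ + b • ContinuousLinearMap.snd ℂ ℂ ℂ)
  have hL : HasFDerivAt Ψ L p := by
    have h1 : HasFDerivAt (fun p : ℂ × ℂ => PP s p.1) (P' • ContinuousLinearMap.fst ℂ ℂ ℂ) p :=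
      hP.comp_hasFDerivAt p hasFDerivAt_fst
    have h2' : HasDerivAt (fun y : ℂ => y ^ 2) (2 * p.2) p.2 := by
      simpa using hasDerivAt_pow 2 p.2
    have h2 : HasFDerivAt (fun p : ℂ × ℂ => p.2 ^ 2)
        ((2 * p.2) • ContinuousLinearMap.snd ℂ ℂ ℂ) p :=
      h2'.comp_hasFDerivAt p hasFDerivAt_snd
    exact (h2.sub h1).prodMk ((hasFDerivAt_fst.const_mul a).add (hasFDerivAt_snd.const_mul b))
  have hinj : Function.Injective L.toLinearMap := by
    rw [injective_iff_map_eq_zero]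
    intro v hv
    have e1 : 2 * p.2 * v.2 - P' * v.1 = 0 := by simpa [L] using congrArg Prod.fst hv
    have e2 : a * v.1 + b * v.2 = 0 := by simpa [L] using congrArg Prod.snd hv
    refine Prod.ext ?_ ?_
    · refine (mul_eq_zero.1 ?_).resolve_left hab
      linear_combination p.2 * e2 - b / 2 * e1
    · refine (mul_eq_zero.1 ?_).resolve_left hab
      linear_combination P' / 2 * e2 + a / 2 * e1
  let e : (ℂ × ℂ) ≃L[ℂ] (ℂ × ℂ) :=
    (LinearEquiv.ofInjectiveEndo L.toLinearMap hinj).toContinuousLinearEquiv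
  have he : HasFDerivAt Ψ (e : ℂ × ℂ →L[ℂ] ℂ × ℂ) p := by
    have : (e : ℂ × ℂ →L[ℂ] ℂ × ℂ) = L := ContinuousLinearMap.ext fun v => rfl
    rw [this]
    exact hL
  refine ⟨hc.toOpenPartialHomeomorph Ψ he one_ne_zero,
    hc.mem_toOpenPartialHomeomorph_source he one_ne_zero, fun _ => rfl, ?_⟩
  filter_upwards [(hc.to_localInverse he one_ne_zero).eventually (by simp)] with w hw
  exact hw.differentiableAt one_ne_zero

/-- derivative of a parametrisation of the curve -/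
theorem x3d_param {X Y : ℂ → ℂ} {a b z : ℂ} (hX : DifferentiableAt ℂ X z)
    (hY : DifferentiableAt ℂ Y z) (h1 : ∀ᶠ w in 𝓝 z, Y w ^ 2 - PP s (X w) = 0)
    (h2 : ∀ᶠ w in 𝓝 z, a * X w + b * Y w = w)
    (hD : a * Y z + b * (deriv (PP s) (X z) / 2) ≠ 0) :
    HasDerivAt X (Y z / (a * Y z + b * (deriv (PP s) (X z) / 2))) z ∧
    HasDerivAt Y (deriv (PP s) (X z) / 2 / (a * Y z + b * (deriv (PP s) (X z) / 2))) z := by
  have hP : HasDerivAt (PP s) (deriv (PP s) (X z)) (X z) :=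
    (x3d_hasDerivAt s _).differentiableAt.hasDerivAt
  have e1 : 2 * Y z * deriv Y z - deriv (PP s) (X z) * deriv X z = 0 := by
    have h3 := (hY.hasDerivAt.pow 2).sub (hP.comp z hX.hasDerivAt)
    have h4 := (hasDerivAt_const z (0 : ℂ)).congr_of_eventuallyEq h1
    have h5 := h3.unique h4
    simpa using h5
  have e2 : a * deriv X z + b * deriv Y z = 1 := by
    have h3 := (hX.hasDerivAt.const_mul a).add (hY.hasDerivAt.const_mul b)
    have h4 := (hasDerivAt_id z).congr_of_eventuallyEq h2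
    exact h3.unique h4
  constructor
  · refine hX.hasDerivAt.congr_deriv (Eq.symm ?_)
    rw [div_eq_iff hD]
    linear_combination -Y z * e2 + b / 2 * e1
  · refine hY.hasDerivAt.congr_deriv (Eq.symm ?_)
    rw [div_eq_iff hD]
    linear_combination -(deriv (PP s) (X z) / 2) * e2 - a / 2 * e1

theorem exists_flatChart (h0 : 0 < s) (h1 : s < 1 / 2) (q : Cv s) :
    ∃ φ : OpenPartialHomeomorph (Cv s) ℂ, q ∈ φ.source ∧ IsFlatChart φ := by
  obtain ⟨a, b, hab⟩ : ∃ a b : ℂ, a * q.1.2 + b * (deriv (PP s) q.1.1 / 2) ≠ 0 := by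
    rcases x3d_ne h0 h1 q with h | h
    · exact ⟨1, 0, by simpa using h⟩
    · exact ⟨0, 1, by simpa using h⟩
  obtain ⟨Φ, hq, hΦ, hd⟩ := x3d_plane q.1 hab
  obtain ⟨χ, hqχ, hχ, hχs⟩ := x3d_chart q Φ hq fun p => by rw [hΦ]
  set z₀ := χ q with hz₀
  have hz₀t : z₀ ∈ χ.target := χ.map_source hqχ
  have hΦq : Φ q.1 = (0, z₀) := by
    refine Prod.ext ?_ (hχ q).symm
    rw [hΦ, q.2.1, sub_self]
  set X : ℂ → ℂ := fun z => (Φ.symm (0, z)).1 with hX
  set Y : ℂ → ℂ := fun z => (Φ.symm (0, z)).2 with hY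
  set D : ℂ → ℂ := fun z => a * Y z + b * (deriv (PP s) (X z) / 2) with hD
  have hsq : Φ.symm (0, z₀) = q.1 := by rw [← hΦq, Φ.left_inv hq]
  have hD0 : D z₀ ≠ 0 := by
    simp only [hD, hX, hY, hsq]
    exact hab
  have hpair : Continuous fun z : ℂ => ((0 : ℂ), z) := by fun_prop
  have hd2 : ∀ᶠ z in 𝓝 z₀, DifferentiableAt ℂ X z ∧ DifferentiableAt ℂ Y z ∧
      DifferentiableAt ℂ D z := by
    rw [hΦq] at hd
    filter_upwards [(hpair.tendsto z₀).eventually hd] with z hz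
    have h2 : DifferentiableAt ℂ (fun z : ℂ => Φ.symm (0, z)) z :=
      hz.comp z (f := fun z : ℂ => ((0 : ℂ), z)) (by fun_prop)
    have h3 : DifferentiableAt ℂ X z := h2.fst
    have h4 : DifferentiableAt ℂ Y z := h2.snd
    have h5 : DifferentiableAt ℂ (fun z => deriv (PP s) (X z)) z :=
      (x3d_deriv_diff s _).comp z h3
    exact ⟨h3, h4, (h4.const_mul a).add ((h5.div_const 2).const_mul b)⟩
  have hd3 : ∀ᶠ z in 𝓝 z₀, D z ≠ 0 := hd2.self_of_nhds.2.2.continuousAt.eventually_ne hD0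
  obtain ⟨r, hr, hball⟩ := Metric.eventually_nhds_iff_ball.1 (hd2.and hd3)
  have hlam : DifferentiableOn ℂ (fun z => (D z)⁻¹) (ball z₀ r) := fun z hz =>
    ((hball z hz).1.2.2.inv (hball z hz).2).differentiableWithinAt
  obtain ⟨g, hg⟩ := hlam.isExactOn_ball
  have hga : AnalyticAt ℂ g z₀ :=
    DifferentiableOn.analyticAt (s := ball z₀ r)
      (fun z hz => (hg z hz).differentiableAt.differentiableWithinAt) (ball_mem_nhds _ hr)
  have hgs : HasStrictDerivAt g (D z₀)⁻¹ z₀ := by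
    have := hga.hasStrictDerivAt
    rwa [(hg z₀ (mem_ball_self hr)).deriv] at this
  let P₀ := (hgs.hasStrictFDerivAt_equiv (inv_ne_zero hD0)).toOpenPartialHomeomorph g
  let P := P₀.restrOpen (ball z₀ r) isOpen_ball
  have hPs : z₀ ∈ P.source :=
    ⟨(hgs.hasStrictFDerivAt_equiv (inv_ne_zero hD0)).mem_toOpenPartialHomeomorph_source,
      mem_ball_self hr⟩
  refine ⟨χ ≫ₕ P, ⟨hqχ, hPs⟩, fun w hw => ?_⟩
  have hw1 : w ∈ P.target := hw.1
  have hw2 : P.symm w ∈ χ.target := hw.2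
  have hw3 : P.symm w ∈ ball z₀ r := (P.map_target hw1).2
  obtain ⟨⟨k1, k2, -⟩, k3⟩ := hball _ hw3
  have hPd : HasDerivAt P.symm (D (P.symm w)) w := by
    have := P.hasDerivAt_symm hw1 (inv_ne_zero k3) (hg _ hw3)
    rwa [inv_inv] at this
  have hev : ∀ᶠ z in 𝓝 (P.symm w), Φ (Φ.symm (0, z)) = (0, z) := by
    filter_upwards [χ.open_target.mem_nhds hw2] with z hz
    exact Φ.right_inv (hχs z hz).1
  obtain ⟨m1, m2⟩ := x3d_param (s := s) (a := a) (b := b) k1 k2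
    (hev.mono fun z hz => by
      have := congrArg Prod.fst hz
      rwa [hΦ] at this)
    (hev.mono fun z hz => by
      have := congrArg Prod.snd hz
      rwa [hΦ] at this) k3
  have hev2 : ∀ᶠ v in 𝓝 w, ((χ ≫ₕ P).symm v).1 = Φ.symm (0, P.symm v) := by
    filter_upwards [(χ ≫ₕ P).open_target.mem_nhds hw] with v hv
    exact (hχs _ hv.2).2
  have hw4 := hev2.self_of_nhds
  constructor
  · have n1 := (m1.comp w hPd).congr_of_eventuallyEq
      (f₁ := fun z => ((χ ≫ₕ P).symm z).1.1) (hev2.mono fun v hv => congrArg Prod.fst hv)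
    refine n1.congr_deriv (Eq.symm ?_)
    rw [hw4]
    exact (div_mul_cancel₀ _ k3).symm
  · have n1 := (m2.comp w hPd).congr_of_eventuallyEq
      (f₁ := fun z => ((χ ≫ₕ P).symm z).1.2) (hev2.mono fun v hv => congrArg Prod.snd hv)
    refine n1.congr_deriv (Eq.symm ?_)
    rw [hw4]
    exact (div_mul_cancel₀ _ k3).symm

theorem IsFlatChart.trans (h0 : 0 < s) (h1 : s < 1 / 2) {φ ψ : OpenPartialHomeomorph (Cv s) ℂ}
    (hφ : IsFlatChart φ) (hψ : IsFlatChart ψ) {q : Cv s} (hq : q ∈ φ.source ∩ ψ.source) :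
    ∀ᶠ q' in 𝓝 q, φ q' - ψ q' = φ q - ψ q := by
  let τ := φ.symm ≫ₕ ψ
  have hτ : ∀ z ∈ τ.source, HasDerivAt τ 1 z := by
    intro z hz
    have hz1 : z ∈ φ.target := hz.1
    have hz2 : φ.symm z ∈ ψ.source := hz.2
    have hc : ContinuousAt τ z := τ.continuousAt hz
    have hev : ∀ᶠ v in 𝓝 z, ψ.symm (τ v) = φ.symm v := by
      filter_upwards [τ.open_source.mem_nhds hz] with v hv
      exact ψ.left_inv hv.2
    have hz3 := hev.self_of_nhds
    obtain ⟨a1, a2⟩ := hφ z hz1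
    obtain ⟨b1, b2⟩ := hψ (τ z) (ψ.map_source hz2)
    rw [hz3] at b1 b2
    rcases x3d_ne h0 h1 (φ.symm z) with h | h
    · have := HasDerivAt.of_comp_left hc b1 a1 h
        (hev.mono fun v hv => congrArg (fun p : Cv s => p.1.1) hv)
      rwa [div_self h] at this
    · have := HasDerivAt.of_comp_left hc b2 a2 h
        (hev.mono fun v hv => congrArg (fun p : Cv s => p.1.2) hv)
      rwa [div_self h] at this
  have hz₀ : φ q ∈ τ.source := by
    refine ⟨φ.map_source hq.1, ?_⟩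
    change φ.symm (φ q) ∈ ψ.source
    rw [φ.left_inv hq.1]
    exact hq.2
  obtain ⟨r, hr, hball⟩ := Metric.isOpen_iff.1 τ.open_source _ hz₀
  have hder : ∀ z ∈ ball (φ q) r, HasDerivAt (fun z => z - τ z) 0 z := fun z hz =>
    ((hasDerivAt_id z).sub (hτ z (hball hz))).congr_deriv (sub_self _)
  have hconst : ∀ z ∈ ball (φ q) r, z - τ z = φ q - τ (φ q) := fun z hz =>
    isOpen_ball.is_const_of_deriv_eq_zero (f := fun z => z - τ z)
      (convex_ball _ _).isPreconnected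
      (fun z hz => (hder z hz).differentiableAt.differentiableWithinAt)
      (fun z hz => (hder z hz).deriv) hz (mem_ball_self hr)
  have hτφ : ∀ q' ∈ φ.source, τ (φ q') = ψ q' := fun q' h' => by
    change ψ (φ.symm (φ q')) = _
    rw [φ.left_inv h']
  filter_upwards [(φ.continuousAt hq.1).eventually (ball_mem_nhds _ hr),
    φ.open_source.mem_nhds hq.1] with q' h2 h3
  rw [← hτφ q' h3, ← hτφ q hq.1]
  exact hconst _ h2

end Pool.Agent.MP_e62289_ag
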