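import Pool.Agent.MP_e62289_ag.XDefs
import Pool.Agent.MP_e62289_ag.X3d

open Set Filter Topology Complex MeasureTheory Metric
open scoped Manifold ContDiff ComplexConjugate NNReal ENNReal

namespace Pool.Agent.MP_e62289_ag

variable {s : ℝ}

/-- the hyperelliptic involution -/
def x3eInv (q : Cv s) : Cv s := ⟨(q.1.1, -q.1.2), by rw [neg_sq]; exact q.2.1, q.2.2⟩

theorem x3e_cont : Continuous (x3eInv : Cv s → Cv s) :=
  Continuous.subtype_mk (by fun_prop) _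

theorem x3e_inv_inv (q : Cv s) : x3eInv (x3eInv q) = q := by
  apply Subtype.ext
  simp [x3eInv]

theorem x3e_fibre {p q : Cv s} (h : p.1.1 = q.1.1) : p = q ∨ p = x3eInv q := by
  have h1 : p.1.2 ^ 2 = q.1.2 ^ 2 := by rw [p.2.1, q.2.1, h]
  rcases sq_eq_sq_iff_eq_or_eq_neg.1 h1 with h2 | h2
  · exact Or.inl (Subtype.ext (Prod.ext h h2))
  · exact Or.inr (Subtype.ext (Prod.ext h h2))

theorem x3e_sqrt (c : ℂ) : ∃ y : ℂ, y ^ 2 = c := IsAlgClosed.exists_pow_nat_eq c two_pos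

theorem x3e_root {y0 c : ℂ} {ε : ℝ} (hε : 0 < ε) (h : ‖c - y0 ^ 2‖ < ε ^ 2) :
    ∃ y : ℂ, y ^ 2 = c ∧ ‖y - y0‖ < ε := by
  obtain ⟨y, hy⟩ := x3e_sqrt c
  by_cases h1 : ‖y - y0‖ < ε
  · exact ⟨y, hy, h1⟩
  refine ⟨-y, by rw [neg_sq, hy], ?_⟩
  by_contra h2
  have h3 : c - y0 ^ 2 = -((y - y0) * (-y - y0)) := by rw [← hy]; ring
  rw [h3, norm_neg, norm_mul, sq] at h
  exact absurd h (not_lt.2 (mul_le_mul (not_lt.1 h1) (not_lt.1 h2) hε.le (norm_nonneg _)))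

theorem x3e_open {U : Set (Cv s)} (hU : IsOpen U) : IsOpen ((fun q : Cv s => q.1.1) '' U) := by
  rw [isOpen_iff_mem_nhds]
  rintro _ ⟨q, hq, rfl⟩
  obtain ⟨ε, hε, hb⟩ := Metric.isOpen_iff.1 hU q hq
  have hc : Continuous (PP s) := by unfold PP; fun_prop
  have e1 : ∀ᶠ x in 𝓝 q.1.1, ‖x - q.1.1‖ < ε := by
    have : Continuous fun x : ℂ => ‖x - q.1.1‖ := by fun_prop
    exact this.continuousAt.eventually_lt continuousAt_const (by simpa using hε)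
  have e2 : ∀ᶠ x in 𝓝 q.1.1, ‖PP s x - q.1.2 ^ 2‖ < ε ^ 2 := by
    have : Continuous fun x : ℂ => ‖PP s x - q.1.2 ^ 2‖ := by fun_prop
    refine this.continuousAt.eventually_lt continuousAt_const ?_
    rw [q.2.1, sub_self, norm_zero]
    positivity
  have e3 : ∀ᶠ x in 𝓝 q.1.1, x ≠ 0 := isOpen_ne.mem_nhds q.2.2.1
  have e4 : ∀ᶠ x in 𝓝 q.1.1, x ^ 2 + 1 ≠ 0 := by
    have : Continuous fun x : ℂ => x ^ 2 + 1 := by fun_prop
    exact this.continuousAt.eventually_ne q.2.2.2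
  filter_upwards [e1, e2, e3, e4] with x h1 h2 h3 h4
  obtain ⟨y, hy, hy2⟩ := x3e_root hε h2
  refine ⟨⟨(x, y), hy, h3, h4⟩, hb ?_, rfl⟩
  rw [mem_ball, Subtype.dist_eq, Prod.dist_eq, dist_eq_norm, dist_eq_norm]
  exact max_lt h1 hy2

theorem x3e_base : IsPreconnected {x : ℂ | x ≠ 0 ∧ x ^ 2 + 1 ≠ 0} := by
  have h : {x : ℂ | x ≠ 0 ∧ x ^ 2 + 1 ≠ 0} = ({0, I, -I} : Set ℂ)ᶜ := by
    ext x
    have h1 : x ^ 2 + 1 = (x - I) * (x - -I) := by linear_combination I_mul_I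
    simp only [mem_ofPred_eq, mem_compl_iff, mem_insert_iff, mem_singleton_iff, not_or, h1,
      ne_eq, mul_eq_zero, sub_eq_zero]
  rw [h]
  exact ((toFinite _).countable.isConnected_compl_of_one_lt_rank (by simp)).2

theorem x3e_inv_clopen {W : Set (Cv s)} (hW : IsClopen W) (hi : ∀ q, q ∈ W → x3eInv q ∈ W) :
    W = ∅ ∨ W = univ := by
  have hf : ∀ p q : Cv s, p.1.1 = q.1.1 → q ∈ W → p ∈ W := by
    intro p q h hq
    rcases x3e_fibre h with h1 | h1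
    · rwa [h1]
    · rw [h1]; exact hi q hq
  have hd : Disjoint ((fun q : Cv s => q.1.1) '' W) ((fun q : Cv s => q.1.1) '' Wᶜ) := by
    rw [Set.disjoint_left]
    rintro _ ⟨q, hq, rfl⟩ ⟨p, hp, h⟩
    exact hp (hf p q h hq)
  have hc : {x : ℂ | x ≠ 0 ∧ x ^ 2 + 1 ≠ 0} ⊆
      ((fun q : Cv s => q.1.1) '' W) ∪ ((fun q : Cv s => q.1.1) '' Wᶜ) := by
    intro x hx
    obtain ⟨y, hy⟩ := x3e_sqrt (PP s x)
    rw [← image_union, union_compl_self]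
    exact ⟨⟨(x, y), hy, hx⟩, mem_univ _, rfl⟩
  rcases x3e_base.subset_or_subset (x3e_open hW.2) (x3e_open hW.1.isOpen_compl) hd hc with h | h
  · refine Or.inr (eq_univ_of_forall fun p => ?_)
    obtain ⟨q, hq, h1⟩ := h p.2.2
    exact hf p q h1.symm hq
  · refine Or.inl (eq_empty_of_forall_notMem fun p hp => ?_)
    obtain ⟨q, hq, h1⟩ := h p.2.2
    exact hq (hf q p h1 hp)

theorem cv_connected (h0 : 0 < s) (h1 : s < 1 / 2) : ConnectedSpace (Cv s) := by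
  have hs : (s : ℂ) ≠ 0 := ofReal_ne_zero.2 h0.ne'
  have hs2 : (s : ℂ) ^ 2 + 1 ≠ 0 := by
    have : (s ^ 2 + 1 : ℝ) ≠ 0 := by positivity
    exact_mod_cast this
  let b : Cv s := ⟨((s : ℂ), 0), by simp [PP], hs, hs2⟩
  have hb : x3eInv b = b := by
    apply Subtype.ext
    simp [x3eInv, b]
  rw [connectedSpace_iff_clopen]
  refine ⟨⟨b⟩, fun U hU => x3e_inv_clopen hU ?_⟩
  have hU' : IsClopen (x3eInv ⁻¹' U) := hU.preimage x3e_cont
  have hV : IsClopen ((U ∩ x3eInv ⁻¹' U) ∪ (Uᶜ ∩ (x3eInv ⁻¹' U)ᶜ)) :=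
    (hU.inter hU').union (hU.compl.inter hU'.compl)
  have hi : ∀ q, q ∈ (U ∩ x3eInv ⁻¹' U) ∪ (Uᶜ ∩ (x3eInv ⁻¹' U)ᶜ) →
      x3eInv q ∈ (U ∩ x3eInv ⁻¹' U) ∪ (Uᶜ ∩ (x3eInv ⁻¹' U)ᶜ) := by
    intro q hq
    simp only [mem_union, mem_inter_iff, mem_preimage, mem_compl_iff, x3e_inv_inv] at hq ⊢
    tauto
  rcases x3e_inv_clopen hV hi with h | h
  · exfalso
    have h2 : b ∈ (U ∩ x3eInv ⁻¹' U) ∪ (Uᶜ ∩ (x3eInv ⁻¹' U)ᶜ) := by
      simp only [mem_union, mem_inter_iff, mem_preimage, mem_compl_iff, hb]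
      tauto
    rw [h] at h2
    exact h2
  · intro q hq
    have h2 : q ∈ (U ∩ x3eInv ⁻¹' U) ∪ (Uᶜ ∩ (x3eInv ⁻¹' U)ᶜ) := by rw [h]; exact mem_univ _
    rcases h2 with h2 | h2
    · exact h2.2
    · exact absurd hq h2.1

end Pool.Agent.MP_e62289_ag
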