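import Pool.Agent.MP_e62289_ag.XDefs
import Pool.Agent.MP_e62289_ag.L3

open Set Filter Topology Complex MeasureTheory Metric
open scoped Manifold ContDiff ComplexConjugate NNReal ENNReal

namespace Pool.Agent.MP_e62289_ag

/-- an integrable majorant -/
noncomputable def x4bG (w : ℂ) : ℝ := 1 / (‖w‖ * (1 + ‖w‖) ^ 2)

/-- four translates of the majorant -/
noncomputable def x4bH (c z : ℂ) : ℝ :=
  x4bG (z - c) + x4bG (z + c) + x4bG (z - I * c) + x4bG (z + I * c)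

lemma x4bG_nonneg (w : ℂ) : 0 ≤ x4bG w := by unfold x4bG; positivity

lemma x4bH_nonneg (c z : ℂ) : 0 ≤ x4bH c z :=
  add_nonneg (add_nonneg (add_nonneg (x4bG_nonneg _) (x4bG_nonneg _)) (x4bG_nonneg _))
    (x4bG_nonneg _)

lemma x4bG_int : Integrable x4bG := by
  have hm : AEStronglyMeasurable x4bG volume :=
    Measurable.aestronglyMeasurable (by unfold x4bG; fun_prop)
  rw [← integrableOn_univ, ← union_compl_self (ball (0 : ℂ) 1)]
  refine IntegrableOn.union ?_ ?_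
  · refine integrableOn_ball_of_norm_le_rpow (C := 1) (α := 1) (by simp) (by simp)
      (Eventually.of_forall fun w => ?_) hm
    rw [Real.norm_of_nonneg (x4bG_nonneg w), Real.rpow_neg_one, one_mul, x4bG, one_div]
    rcases (norm_nonneg w).eq_or_lt with h | h
    · simp [← h]
    · exact inv_anti₀ h (le_mul_of_one_le_right h.le (one_le_pow₀ (by linarith)))
  · refine Integrable.mono' ((integrable_one_add_norm (E := ℂ) (r := 3)
      (by simp; norm_num)).const_mul 2).integrableOn hm.restrict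
      ((ae_restrict_iff' measurableSet_ball.compl).2 (Eventually.of_forall fun w hw => ?_))
    have h : 1 ≤ ‖w‖ := by simpa using hw
    rw [Real.norm_of_nonneg (x4bG_nonneg w), Real.rpow_neg (by positivity), x4bG,
      show (3 : ℝ) = (3 : ℕ) by norm_num, Real.rpow_natCast, ← div_eq_mul_inv,
      div_le_div_iff₀ (by positivity) (by positivity)]
    nlinarith [sq_nonneg (1 + ‖w‖)]

lemma x4bH_int (c : ℂ) : Integrable (x4bH c) :=
  (((x4bG_int.comp_sub_right c).add (x4bG_int.comp_add_right c)).add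
    (x4bG_int.comp_sub_right _)).add (x4bG_int.comp_add_right _)

lemma x4bH_eq (c : ℂ) : ∫ z, x4bH c z = 4 * ∫ z, x4bG z := by
  have a1 := x4bG_int.comp_sub_right c
  have a2 := x4bG_int.comp_add_right c
  have a3 := x4bG_int.comp_sub_right (I * c)
  have a4 := x4bG_int.comp_add_right (I * c)
  show ∫ z, ((fun z => x4bG (z - c)) + (fun z => x4bG (z + c)) + (fun z => x4bG (z - I * c)) +
    fun z => x4bG (z + I * c)) z = _
  rw [integral_add' ((a1.add a2).add a3) a4, integral_add' (a1.add a2) a3, integral_add' a1 a2,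
    integral_sub_right_eq_self, integral_sub_right_eq_self, integral_add_right_eq_self,
    integral_add_right_eq_self]
  ring

lemma x4b_near {w : ℂ} (h : ‖w‖ ≤ 3) : ‖w‖⁻¹ ≤ 16 * x4bG w := by
  rcases (norm_nonneg w).eq_or_lt with h0 | h0
  · rw [← h0, inv_zero]
    exact mul_nonneg (by norm_num) (x4bG_nonneg w)
  · rw [x4bG, mul_one_div, ← one_div, div_le_div_iff₀ h0 (by positivity)]
    have : (1 + ‖w‖) ^ 2 ≤ 16 := by nlinarith
    nlinarith

lemma x4b_far {w : ℂ} (h : 1 ≤ ‖w‖) : 1 / ‖w‖ ^ 3 ≤ x4bH 0 w := by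
  simp only [x4bH, x4bG, mul_zero, sub_zero, add_zero]
  have : 1 / (4 * ‖w‖ ^ 3) ≤ 1 / (‖w‖ * (1 + ‖w‖) ^ 2) := by
    refine one_div_le_one_div_of_le (by positivity) ?_
    have : (1 + ‖w‖) ^ 2 ≤ 4 * ‖w‖ ^ 2 := by nlinarith
    nlinarith
  have e : 1 / ‖w‖ ^ 3 = 4 * (1 / (4 * ‖w‖ ^ 3)) := by field_simp
  linarith

lemma x4b_pf4 {z c : ℂ} (hz : ‖z‖ ≤ 2) (hc : ‖c‖ ≤ 1) :
    ‖z‖ ^ 3 / ‖z ^ 4 - c ^ 4‖ ≤ 4 * x4bH c z := by
  rcases eq_or_ne (z ^ 4 - c ^ 4) 0 with h | h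
  · rw [h, norm_zero, div_zero]
    exact mul_nonneg (by norm_num) (x4bH_nonneg c z)
  have e : z ^ 4 - c ^ 4 = (z - c) * (z + c) * (z - I * c) * (z + I * c) := by
    linear_combination (c ^ 2 * (z ^ 2 - c ^ 2)) * I_sq
  have h' := h
  simp only [e, mul_ne_zero_iff] at h'
  obtain ⟨⟨⟨h1, h2⟩, h3⟩, h4⟩ := h'
  have e2 : 4 * (z ^ 3 / (z ^ 4 - c ^ 4)) =
      (z - c)⁻¹ + (z + c)⁻¹ + (z - I * c)⁻¹ + (z + I * c)⁻¹ := by
    rw [inv_add_inv h1 h2, add_assoc, inv_add_inv h3 h4,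
      div_add_div _ _ (mul_ne_zero h1 h2) (mul_ne_zero h3 h4),
      ← mul_assoc ((z - c) * (z + c)), ← e, ← mul_div_assoc]
    congr 1
    linear_combination (2 * z * c ^ 2) * I_sq
  have e3 := congrArg norm e2
  rw [norm_mul, norm_div, norm_pow, Complex.norm_ofNat] at e3
  have hI : ‖I * c‖ ≤ 1 := by simpa using hc
  have a1 := x4b_near (w := z - c) ((norm_sub_le _ _).trans (by linarith))
  have a2 := x4b_near (w := z + c) ((norm_add_le _ _).trans (by linarith))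
  have a3 := x4b_near (w := z - I * c) ((norm_sub_le _ _).trans (by linarith))
  have a4 := x4b_near (w := z + I * c) ((norm_add_le _ _).trans (by linarith))
  have b := norm_add₄_le (a := (z - c)⁻¹) (b := (z + c)⁻¹) (c := (z - I * c)⁻¹) (d := (z + I * c)⁻¹)
  simp only [norm_inv] at b
  unfold x4bH
  linarith

lemma x4b_pf2 {z : ℂ} (hz : ‖z‖ ≤ 2) : 1 / ‖z ^ 2 + 1‖ ≤ 8 * x4bH 1 z := by
  rcases eq_or_ne (z ^ 2 + 1) 0 with h | h
  · rw [h, norm_zero, div_zero]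
    exact mul_nonneg (by norm_num) (x4bH_nonneg 1 z)
  have e : z ^ 2 + 1 = (z - I) * (z + I) := by linear_combination I_sq
  have h' := h
  simp only [e, mul_ne_zero_iff] at h'
  obtain ⟨h1, h2⟩ := h'
  have e2 : 2 * I * (1 / (z ^ 2 + 1)) = (z - I)⁻¹ - (z + I)⁻¹ := by
    rw [e]
    field_simp
    ring
  have e3 := congrArg norm e2
  rw [norm_mul, norm_mul, norm_div, norm_one, norm_I, Complex.norm_ofNat] at e3
  have a3 := x4b_near (w := z - I) ((norm_sub_le _ _).trans (by rw [norm_I]; linarith))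
  have a4 := x4b_near (w := z + I) ((norm_add_le _ _).trans (by rw [norm_I]; linarith))
  have b := norm_sub_le (z - I)⁻¹ (z + I)⁻¹
  simp only [norm_inv] at b
  simp only [x4bH, mul_one]
  linarith [x4bG_nonneg (z - 1), x4bG_nonneg (z + 1)]

lemma x4b_pf3 {z : ℂ} (hz : ‖z‖ ≤ 2) :
    ‖1 / (z * (z ^ 2 + 1))‖ ≤ 4 * x4bH 0 z + 8 * x4bH 1 z := by
  rcases eq_or_ne (z * (z ^ 2 + 1)) 0 with h | h
  · rw [h, div_zero, norm_zero]
    linarith [x4bH_nonneg 0 z, x4bH_nonneg 1 z]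
  have e : z ^ 2 + 1 = (z - I) * (z + I) := by linear_combination I_sq
  have h' := h
  simp only [e, mul_ne_zero_iff] at h'
  obtain ⟨h0, h1, h2⟩ := h'
  have e2 : 2 * (1 / (z * (z ^ 2 + 1))) = 2 * z⁻¹ - (z - I)⁻¹ - (z + I)⁻¹ := by
    rw [e]
    field_simp
    linear_combination 2 * I_sq
  have e3 := congrArg norm e2
  rw [norm_mul, Complex.norm_ofNat] at e3
  have a1 := x4b_near (w := z) (by linarith)
  have a3 := x4b_near (w := z - I) ((norm_sub_le _ _).trans (by rw [norm_I]; linarith))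
  have a4 := x4b_near (w := z + I) ((norm_add_le _ _).trans (by rw [norm_I]; linarith))
  have b1 := norm_sub_le (2 * z⁻¹ - (z - I)⁻¹) (z + I)⁻¹
  have b2 := norm_sub_le (2 * z⁻¹) (z - I)⁻¹
  simp only [norm_inv, norm_mul, Complex.norm_ofNat] at b1 b2
  simp only [x4bH, mul_one, mul_zero, sub_zero, add_zero]
  linarith [x4bG_nonneg (z - 1), x4bG_nonneg (z + 1)]

lemma x4b_div {x B D H m : ℝ} (hx : 0 ≤ x) (hB : 0 ≤ B) (h : x / B ≤ H) (hm : 0 < m)
    (hD : m ≤ D) : x / (B * D) ≤ H / m := by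
  rw [← div_div]
  exact div_le_div₀ ((div_nonneg hx hB).trans h) h hm hD

lemma x4b_bound {f : ℂ → ℂ} {F : ℂ → ℝ} (hF : Integrable F) (h : ∀ z, ‖f z‖ ≤ F z) :
    ∫⁻ z : ℂ, ‖f z‖ₑ ≤ ENNReal.ofReal (∫ z, F z) := by
  rw [ofReal_integral_eq_lintegral_ofReal hF
    (Eventually.of_forall fun z => (norm_nonneg _).trans (h z))]
  refine lintegral_mono fun z => ?_
  rw [← ofReal_norm]
  exact ENNReal.ofReal_le_ofReal (h z)

lemma x4b_pt {s : ℝ} (h0 : 0 < s) (h1 : s < 1 / 2) (z : ℂ) :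
    ‖z ^ 3 / ((z ^ 2 + 1) * PP s z)‖ ≤
      512 * (x4bH s z + x4bH 1 z + x4bH 0 z + s ^ 2 * x4bH 1 (s • z)) := by
  have p1 := x4bH_nonneg s z
  have p2 := x4bH_nonneg 1 z
  have p3 := x4bH_nonneg 0 z
  have p4 := x4bH_nonneg 1 (s • z)
  have p5 : 0 ≤ s ^ 2 * x4bH 1 (s • z) := by positivity
  have hs : ‖(s : ℂ)‖ = s := by rw [Complex.norm_real, Real.norm_of_nonneg h0.le]
  have hu : ‖s • z‖ = s * ‖z‖ := by rw [norm_smul, Real.norm_of_nonneg h0.le]
  have hC : ‖1 - (s : ℂ) ^ 4 * z ^ 4‖ = ‖(s • z) ^ 4 - 1 ^ 4‖ := by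
    rw [norm_sub_rev, real_smul, mul_pow, one_pow]
  have A1 : 1 - ‖z‖ ^ 2 ≤ ‖z ^ 2 + 1‖ := by
    have := norm_sub_le (z ^ 2 + 1) (z ^ 2)
    rw [add_sub_cancel_left, norm_one, norm_pow] at this
    linarith
  have A2 : ‖z‖ ^ 2 - 1 ≤ ‖z ^ 2 + 1‖ := by
    have := norm_sub_le (z ^ 2 + 1) 1
    rw [add_sub_cancel_right, norm_one, norm_pow] at this
    linarith
  have B1 : ‖z‖ ^ 4 - s ^ 4 ≤ ‖z ^ 4 - (s : ℂ) ^ 4‖ := by
    have := norm_sub_norm_le (z ^ 4) ((s : ℂ) ^ 4)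
    rwa [norm_pow, norm_pow, hs] at this
  have C1 : 1 - (s * ‖z‖) ^ 4 ≤ ‖1 - (s : ℂ) ^ 4 * z ^ 4‖ := by
    have := norm_sub_norm_le 1 ((s : ℂ) ^ 4 * z ^ 4)
    rwa [norm_one, norm_mul, norm_pow, norm_pow, hs, ← mul_pow] at this
  have C2 : (s * ‖z‖) ^ 4 - 1 ≤ ‖1 - (s : ℂ) ^ 4 * z ^ 4‖ := by
    have := norm_sub_norm_le ((s : ℂ) ^ 4 * z ^ 4) 1
    rwa [norm_one, norm_mul, norm_pow, norm_pow, hs, ← mul_pow, norm_sub_rev] at this
  have q1 := x4b_pf4 (z := z) (c := s)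
  have q2 := x4b_pf2 (z := z)
  have q3 := x4b_far (w := z)
  have q4 := x4b_pf4 (z := s • z) (c := 1)
  rw [← hC, hu] at q4
  rw [PP, norm_div, norm_mul, norm_mul, norm_pow]
  have hr := norm_nonneg z
  have hA := norm_nonneg (z ^ 2 + 1)
  have hB := norm_nonneg (z ^ 4 - (s : ℂ) ^ 4)
  have hCn := norm_nonneg (1 - (s : ℂ) ^ 4 * z ^ 4)
  rw [hs] at q1
  rw [norm_one] at q4
  generalize ‖z ^ 2 + 1‖ = A at *
  generalize ‖z ^ 4 - (s : ℂ) ^ 4‖ = B at *
  generalize ‖1 - (s : ℂ) ^ 4 * z ^ 4‖ = C at *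
  generalize x4bH s z = H1 at *
  generalize x4bH 1 z = H2 at *
  generalize x4bH 0 z = H3 at *
  generalize x4bH 1 (s • z) = H4 at *
  clear hs hu hC
  generalize ‖z‖ = r at *
  have s4 : s ^ 4 ≤ (1 / 2) ^ 4 := pow_le_pow_left₀ h0.le h1.le 4
  have hsr : 0 ≤ s * r := by positivity
  have hC34 : s * r ≤ 3 / 4 → 1 / 2 ≤ C := fun h => by
    have := pow_le_pow_left₀ hsr h 4
    linarith
  rcases le_total r (3 / 4) with ha | ha
  · have c1 := hC34 (by nlinarith)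
    have c2 : 7 / 16 ≤ A := by nlinarith
    have := x4b_div (D := A * C) (m := 7 / 32) (by positivity) hB (q1 (by linarith) (by linarith))
      (by norm_num) (by nlinarith)
    rw [mul_left_comm]
    linarith
  rcases le_total r (3 / 2) with hb | hb
  · have c1 := hC34 (by nlinarith)
    have c2 : 1 / 4 ≤ B := by
      have := pow_le_pow_left₀ (by norm_num) ha 4
      linarith
    have c3 : r ^ 3 / A ≤ 27 * H2 := by
      have := pow_le_pow_left₀ hr hb 3
      have h2 := q2 (by linarith)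
      have h3 : 0 ≤ 1 / A := by positivity
      rw [div_eq_mul_one_div]
      nlinarith
    have := x4b_div (D := B * C) (m := 1 / 8) (by positivity) hA c3 (by norm_num) (by nlinarith)
    linarith
  have r0 : 0 < r := by linarith
  have c1 : r ^ 2 / 2 ≤ A := by nlinarith
  have c2 : r ^ 4 / 2 ≤ B := by
    have := pow_le_pow_left₀ (by norm_num) hb 4
    linarith
  have c3 : r ^ 6 / 4 ≤ A * B := by
    have := mul_le_mul c1 c2 (by positivity) hA
    linarith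
  rw [← mul_assoc, mul_comm]
  by_cases hc : 1 / 2 ≤ C
  · have d1 : r ^ 3 / C ≤ r ^ 3 / (1 / 2) := div_le_div_of_nonneg_left (by positivity)
      (by norm_num) hc
    have := x4b_div (m := r ^ 6 / 4) (by positivity) hCn d1 (by positivity) c3
    have e : r ^ 3 / (1 / 2) / (r ^ 6 / 4) = 8 * (1 / r ^ 3) := by field_simp; norm_num
    have := q3 (by linarith)
    linarith
  · have d1 : 1 / 2 ≤ s * r := by
      by_contra h
      exact hc (hC34 (by linarith))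
    have d2 : s * r ≤ 2 := by
      by_contra h
      have := pow_le_pow_left₀ (by norm_num) (not_le.1 h).le 4
      exact hc (by linarith)
    have d3 : r ^ 3 / C ≤ 4 * H4 / s ^ 3 := by
      rw [le_div_iff₀ (by positivity)]
      have := q4 d2 le_rfl
      rw [mul_pow] at this
      calc r ^ 3 / C * s ^ 3 = s ^ 3 * r ^ 3 / C := by ring
        _ ≤ _ := this
    have d4 : 1 / (256 * s ^ 6) ≤ r ^ 6 / 4 := by
      have := pow_le_pow_left₀ (by norm_num) d1 6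
      rw [div_le_iff₀ (by positivity)]
      rw [mul_pow] at this
      linarith
    have := x4b_div (m := 1 / (256 * s ^ 6)) (by positivity) hCn d3 (by positivity) (d4.trans c3)
    have e : 4 * H4 / s ^ 3 / (1 / (256 * s ^ 6)) = 1024 * s * (s ^ 2 * H4) := by
      field_simp; ring
    nlinarith

theorem plane_int1 : ∫⁻ z : ℂ, ‖1 / (z * (z ^ 2 + 1))‖ₑ < ⊤ := by
  refine (x4b_bound (F := fun z => 4 * x4bH 0 z + 8 * x4bH 1 z)
    (((x4bH_int 0).const_mul 4).add ((x4bH_int 1).const_mul 8)) fun z => ?_).trans_lt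
    ENNReal.ofReal_lt_top
  rcases le_total ‖z‖ 2 with h | h
  · exact x4b_pf3 h
  · have A2 : ‖z‖ ^ 2 - 1 ≤ ‖z ^ 2 + 1‖ := by
      have := norm_sub_le (z ^ 2 + 1) 1
      rw [add_sub_cancel_right, norm_one, norm_pow] at this
      linarith
    have h1 := x4b_far (w := z) (by linarith)
    have h2 : 1 / (‖z‖ * ‖z ^ 2 + 1‖) ≤ 1 / (‖z‖ ^ 3 / 2) := by
      refine one_div_le_one_div_of_le (by positivity) ?_
      have : ‖z‖ ^ 2 / 2 ≤ ‖z ^ 2 + 1‖ := by nlinarith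
      nlinarith
    have e : 1 / (‖z‖ ^ 3 / 2) = 2 * (1 / ‖z‖ ^ 3) := by field_simp
    rw [norm_div, norm_one, norm_mul]
    linarith [x4bH_nonneg 0 z, x4bH_nonneg 1 z]

theorem plane_int2 : ∃ C : ℝ≥0, ∀ s : ℝ, 0 < s → s < 1 / 2 →
    ∫⁻ z : ℂ, ‖z ^ 3 / ((z ^ 2 + 1) * PP s z)‖ₑ ≤ C := by
  refine ⟨Real.toNNReal (8192 * ∫ z, x4bG z), fun s h0 h1 => ?_⟩
  have i4 := ((x4bH_int 1).comp_smul h0.ne').const_mul (s ^ 2)
  have i3 := ((x4bH_int s).add (x4bH_int 1)).add (x4bH_int 0)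
  refine (x4b_bound ((i3.add i4).const_mul 512) (x4b_pt h0 h1)).trans (le_of_eq ?_)
  refine congrArg ENNReal.ofReal ?_
  rw [integral_const_mul, integral_add' i3 i4, integral_add' ((x4bH_int s).add (x4bH_int 1))
    (x4bH_int 0), integral_add' (x4bH_int s) (x4bH_int 1), integral_const_mul,
    Measure.integral_comp_smul_of_nonneg _ _ _ (hR := h0.le), x4bH_eq, x4bH_eq, x4bH_eq,
    Complex.finrank_real_complex, smul_eq_mul]
  field_simp
  ring

end Pool.Agent.MP_e62289_ag
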