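import Pool.Agent.MP_e62289_ag.XDefs
import Pool.Agent.MP_e62289_ag.L3
import Pool.Agent.MP_e62289_ag.L0a

open Set Filter Topology Complex MeasureTheory Metric
open scoped Manifold ContDiff ComplexConjugate NNReal ENNReal

namespace Pool.Agent.MP_e62289_ag

/-- a half of the punctured plane -/
def X4aP : Set ℂ := {w | 0 < w.re ∨ (w.re = 0 ∧ 0 < w.im)}

theorem X4a_meas : MeasurableSet X4aP :=
  (measurableSet_lt measurable_const measurable_re).union
    ((measurableSet_eq_fun measurable_re measurable_const).inter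
      (measurableSet_lt measurable_const measurable_im))

theorem X4a_not {w : ℂ} (h : w ∈ X4aP) : -w ∉ X4aP := by
  simp only [X4aP, mem_ofPred_eq, neg_re, neg_im] at h ⊢
  rintro (a | ⟨a, b⟩) <;> rcases h with h | ⟨h, h'⟩ <;> linarith

theorem X4a_or {w : ℂ} (h : w ≠ 0) : w ∈ X4aP ∨ -w ∈ X4aP := by
  simp only [X4aP, mem_ofPred_eq, neg_re, neg_im]
  rcases lt_trichotomy w.re 0 with a | a | a
  · exact Or.inr (Or.inl (by linarith))
  · rcases lt_trichotomy w.im 0 with b | b | b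
    · exact Or.inr (Or.inr ⟨by linarith, by linarith⟩)
    · exact absurd (Complex.ext a b) h
    · exact Or.inl (Or.inr ⟨a, b⟩)
  · exact Or.inl (Or.inl a)

theorem X4a_fin {n : ℕ} (hn : 0 < n) (c : ℂ) : {z : ℂ | z ^ n = c}.Finite :=
  (Polynomial.nthRoots n c).finite_toSet.subset fun _ hz => (Polynomial.mem_nthRoots hn).2 hz

theorem X4a_sheet {s : ℝ} (H : Hyp s) (g : ℂ → ℝ≥0∞) {ε : ℂ} (hε : ε ^ 2 = 1) :
    ∫⁻ q in {q | ε * H.y q ∈ X4aP}, ‖H.y q‖ₑ ^ 2 * g (H.x q) ∂H.S.lam = ∫⁻ z, g z := by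
  have hA : MeasurableSet {q | ε * H.y q ∈ X4aP} :=
    (H.y_hol.continuous.measurable.const_mul ε) X4a_meas
  have hi : InjOn H.x {q | ε * H.y q ∈ X4aP} := fun q hq q' hq' e => by
    have h2 : H.y q ^ 2 = H.y q' ^ 2 := by rw [H.eqn, H.eqn, e]
    rcases sq_eq_sq_iff_eq_or_eq_neg.1 h2 with h | h
    · exact H.inj (Prod.ext e h)
    · refine absurd hq ?_
      have := X4a_not hq'
      rwa [mem_ofPred_eq, h, mul_neg]
  have hc := H.S.cov_plane hA (fun q _ => (d2_of_hol (H.x_hol q)).1) hi g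
  have hf : (H.x '' {q | ε * H.y q ∈ X4aP})ᶜ.Finite := by
    refine ((((X4a_fin (n := 4) (by norm_num) ((s : ℂ) ^ 4)).union
      (X4a_fin (n := 4) (by norm_num) ((s : ℂ) ^ 4)⁻¹)).union (X4a_fin one_pos 0)).union
      (X4a_fin two_pos (-1))).subset fun z hz => ?_
    by_contra hn
    simp only [mem_union, mem_ofPred_eq, not_or, pow_one] at hn
    obtain ⟨⟨⟨n1, n2⟩, n3⟩, n4⟩ := hn
    have hP : PP s z ≠ 0 := mul_ne_zero (sub_ne_zero.2 n1) fun e =>
      n2 (eq_inv_of_mul_eq_one_right (sub_eq_zero.1 e).symm)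
    obtain ⟨w, hw⟩ := IsAlgClosed.exists_pow_nat_eq (PP s z) two_pos
    have hw0 : w ≠ 0 := by
      rintro rfl
      exact hP (by rw [← hw]; simp)
    have key : ∀ w : ℂ, w ^ 2 = PP s z → w ∉ X4aP := fun w hw hP => by
      obtain ⟨q, h1, h2⟩ := H.surj z (ε * w) (by rw [mul_pow, hε, one_mul, hw]) n3
        fun e => n4 (eq_neg_of_add_eq_zero_left e)
      refine hz ⟨q, ?_, h1⟩
      rwa [mem_ofPred_eq, h2, ← mul_assoc, ← sq, hε, one_mul]
    rcases X4a_or hw0 with h | h
    · exact key w hw h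
    · exact key (-w) (by rw [neg_sq, hw]) h
  rw [Measure.restrict_eq_self_of_ae_mem (s := H.x '' {q | ε * H.y q ∈ X4aP})
    (hf.measure_zero volume)] at hc
  rw [hc]
  refine lintegral_congr fun q => ?_
  rw [H.d1x, (d2_of_hol (H.x_hol q)).2, norm_zero, zero_pow two_ne_zero, sub_zero,
    abs_of_nonneg (sq_nonneg _), ENNReal.ofReal_pow (norm_nonneg _), ofReal_norm]

/-- integration over the two sheets -/
theorem Hyp.lintegral_x {s : ℝ} (H : Hyp s) (h0 : 0 < s) {g : ℂ → ℝ≥0∞} (hg : Measurable g) :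
    ∫⁻ q, ‖H.y q‖ₑ ^ 2 * g (H.x q) ∂H.S.lam = 2 * ∫⁻ z, g z := by
  have hA : ∀ ε : ℂ, MeasurableSet {q | ε * H.y q ∈ X4aP} := fun ε =>
    (H.y_hol.continuous.measurable.const_mul ε) X4a_meas
  have hm : Measurable fun q => ‖H.y q‖ₑ ^ 2 * g (H.x q) :=
    (H.y_hol.continuous.measurable.enorm.pow_const 2).mul (hg.comp H.x_hol.continuous.measurable)
  rw [two_mul]
  nth_rw 1 [← X4a_sheet H g (ε := 1) (by simp)]
  rw [← X4a_sheet H g (ε := -1) (by simp), ← lintegral_indicator (hA _),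
    ← lintegral_indicator (hA _), ← lintegral_add_left (hm.indicator (hA _))]
  refine lintegral_congr fun q => ?_
  by_cases hy : H.y q = 0
  · simp [indicator, hy]
  · rcases X4a_or hy with h | h
    · rw [indicator_of_mem (by simpa using h), indicator_of_notMem (by simpa using X4a_not h),
        add_zero]
    · rw [indicator_of_notMem (by simpa using X4a_not h), indicator_of_mem (by simpa using h),
        zero_add]

end Pool.Agent.MP_e62289_ag
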