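import Pool.Agent.MP_e62289_ag.FDefs

open Set Filter Topology Complex MeasureTheory Metric
open scoped Manifold ContDiff ComplexConjugate NNReal ENNReal

namespace Pool.Agent.MP_e62289_ag

/-- the parameter space -/
abbrev P2 : Type := Fin 2 → ℂ

namespace Flat

variable {n : ℕ} (S : Flat n)

/-- the compactification of a flat surface by one point for each end -/
structure Cpt where
  M : Type
  [top : TopologicalSpace M]
  [t2 : T2Space M]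
  [cs : CompactSpace M]
  [cn : ConnectedSpace M]
  j : S.Y → M
  j_emb : IsOpenEmbedding j
  pt : Fin n → M
  pt_inj : Function.Injective pt
  ne : ∀ q i, j q ≠ pt i
  cover : ∀ m, (∃ q, j q = m) ∨ ∃ i, pt i = m
  e : Fin n → OpenPartialHomeomorph M ℂ
  e_source : ∀ i, (e i).source = j '' (S.e i).source ∪ {pt i}
  e_target : ∀ i, (e i).target = ball 0 1
  e_j : ∀ i, ∀ q ∈ (S.e i).source, e i (j q) = S.e i q
  e_pt : ∀ i, e i (pt i) = 0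

attribute [instance] Cpt.top Cpt.t2 Cpt.cs Cpt.cn

/-- a family of closed forms `(g₀ + t₁ g₁) θ + d K t` -/
structure Defo (a : Fin n → ℕ) (D : TopologicalSpace.Opens P2) where
  g₀ : S.Y → ℂ
  g₁ : S.Y → ℂ
  hol₀ : Hol g₀
  hol₁ : Hol g₁
  K : P2 → S.Y → ℂ
  smooth : ContMDiff (𝓘(ℝ, P2).prod 𝓘(ℝ, ℂ)) 𝓘(ℝ, ℂ) 2 fun p : P2 × S.Y => K p.1 p.2
  holK : ∀ q, Differentiable ℂ fun t => K t q
  pos : ∀ t ∈ D, ∀ q, ‖d2 (K t) q‖ < ‖g₀ q + t 1 * g₁ q + d1 (K t) q‖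
  r : ℝ
  r_pos : 0 < r
  r_le : r ≤ 1
  Φ : Fin n → ℂ × P2 → ℂ
  holΦ : ∀ i, DifferentiableOn ℂ (Φ i) (ball 0 r ×ˢ (D : Set P2))
  endK : ∀ i, ∀ t ∈ D, ∀ q ∈ S.End i r, d2 (K t) q = 0 ∧
    g₀ q + t 1 * g₁ q + d1 (K t) q = Φ i (S.e i q, t) * d1 (S.e i) q
  ord : ∀ i, ∀ t ∈ D, analyticOrderAt (fun z => Φ i (z, t)) 0 = ((a i - 1 : ℕ) : ℕ∞)

variable {S} in
/-- the Beltrami coefficient of the deformation -/
noncomputable def Defo.mu {a : Fin n → ℕ} {D : TopologicalSpace.Opens P2} (δ : S.Defo a D)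
    (t : P2) (q : S.Y) : ℂ :=
  d2 (δ.K t) q / (δ.g₀ q + t 1 * δ.g₁ q + d1 (δ.K t) q)

end Flat

/-- the vanishing orders plus one -/
def aa : Fin 8 → ℕ := ![2, 2, 2, 2, 1, 1, 1, 1]

/-- the polynomial of the hyperelliptic curve -/
noncomputable def PP (s : ℝ) (x : ℂ) : ℂ := (x ^ 4 - s ^ 4) * (1 - s ^ 4 * x ^ 4)

/-- the `x`-coordinates of the finite marked points -/
noncomputable def xpt : Fin 8 → ℂ := ![I, I, -I, -I, 0, 0, 0, 0]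

/-- The curve `y ^ 2 = PP s x` without the points over `0, i, -i, ∞`, with the flat structure of
`dx / y`. The ends `0, …, 5` lie over `xpt`, the ends `6, 7` over `∞`. -/
structure Hyp (s : ℝ) where
  S : Flat 8
  x : S.Y → ℂ
  y : S.Y → ℂ
  x_hol : Hol x
  y_hol : Hol y
  d1x : ∀ q, d1 x q = y q
  eqn : ∀ q, y q ^ 2 = PP s (x q)
  x_ne : ∀ q, x q ≠ 0
  w_ne : ∀ q, x q ^ 2 + 1 ≠ 0
  inj : Function.Injective fun q => (x q, y q)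
  surj : ∀ X Y : ℂ, Y ^ 2 = PP s X → X ≠ 0 → X ^ 2 + 1 ≠ 0 → ∃ q, x q = X ∧ y q = Y
  f_eq : ∀ q, S.f q = x q * (x q ^ 2 + 1)
  r : ℝ
  r_pos : 0 < r
  r_le : r ≤ s / 2
  Yb : Fin 8 → ℂ → ℂ
  Yb_hol : ∀ i, DifferentiableOn ℂ (Yb i) (ball 0 1)
  Yb_ne : ∀ i, ∀ z ∈ ball (0 : ℂ) 1, Yb i z ≠ 0
  fin : ∀ i : Fin 8, i.val < 6 → ∀ q ∈ (S.e i).source,
    x q = xpt i + r * S.e i q ∧ y q = Yb i (S.e i q)
  inf : ∀ i : Fin 8, 6 ≤ i.val → ∀ q ∈ (S.e i).source,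
    x q * (r * S.e i q) = 1 ∧ y q * S.e i q ^ 4 = Yb i (S.e i q)

/-- bump function in the long annuli -/
noncomputable def cA (t : ℝ) : ℝ := Real.smoothTransition ((4 - t ^ 2) / 3)

/-- bump function near the zeros -/
noncomputable def cZ (t : ℝ) : ℝ := Real.smoothTransition ((1 / 4 - t) * (16 / 3))

/-- the sheet -/
noncomputable def sg (x y : ℂ) : ℂ := if 0 < (y / x ^ 2).re then 1 else -1

/-- the potential of the deformation; `L` is the length scale, `s = exp (-4 L)` -/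
noncomputable def KK (L : ℝ) (u r x y : ℂ) : ℂ :=
  sg x y * ((exp (u * sg x y * cA (Real.log ‖x‖ / L) / 2) - 1) * (x - 1 / x) +
    r / (2 * (1 - (Real.exp (-4 * L) : ℂ) ^ 4)) * ((x ^ 2 + 1) * cZ (‖x ^ 2 + 1‖ ^ 2)))

/-- `∂ K / ∂ x` -/
noncomputable def K1 (L : ℝ) (u r x y : ℂ) : ℂ :=
  sg x y * ((exp (u * sg x y * cA (Real.log ‖x‖ / L) / 2) - 1) * (1 + 1 / x ^ 2) +
    exp (u * sg x y * cA (Real.log ‖x‖ / L) / 2) *
      (u * sg x y * deriv cA (Real.log ‖x‖ / L) / (4 * L * x)) * (x - 1 / x) +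
    r / (1 - (Real.exp (-4 * L) : ℂ) ^ 4) * x *
      (cZ (‖x ^ 2 + 1‖ ^ 2) + (‖x ^ 2 + 1‖ ^ 2 : ℝ) * deriv cZ (‖x ^ 2 + 1‖ ^ 2)))

/-- `∂ K / ∂ xbar` -/
noncomputable def K2 (L : ℝ) (u r x y : ℂ) : ℂ :=
  sg x y * (exp (u * sg x y * cA (Real.log ‖x‖ / L) / 2) *
      (u * sg x y * deriv cA (Real.log ‖x‖ / L) / (4 * L * conj x)) * (x - 1 / x) +
    r / (1 - (Real.exp (-4 * L) : ℂ) ^ 4) * (x ^ 2 + 1) ^ 2 * deriv cZ (‖x ^ 2 + 1‖ ^ 2) * conj x)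

/-- the explicit Beltrami coefficient -/
noncomputable def muX (L : ℝ) (u r x y : ℂ) : ℂ :=
  K2 L u r x y * conj y / (x ^ 2 + 1 + r * x + K1 L u r x y * y)

/-- its mixed second derivative at the origin, multiplied by `x y / (x ^ 2 + 1)` -/
noncomputable def nuX (L : ℝ) (x y : ℂ) : ℂ :=
  -(‖y‖ ^ 2 : ℝ) * ((‖x‖ ^ 2 : ℝ) * deriv cZ (‖x ^ 2 + 1‖ ^ 2) * (sg x y * y / x ^ 2) /
      (2 * (1 - (Real.exp (-4 * L) : ℂ) ^ 4)) +
    deriv cA (Real.log ‖x‖ / L) * (x ^ 2 - 1) * x / (4 * L * conj x * (x ^ 2 + 1) ^ 3))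

/-- the parameter domain -/
def DD (c ε L : ℝ) : TopologicalSpace.Opens P2 :=
  ⟨{t | ‖t 0‖ < c * L ∧ ‖t 1‖ < ε * Real.exp (-‖t 0‖ / 2)}, 
    (isOpen_lt (f := fun t : P2 => ‖t 0‖) (by fun_prop) continuous_const).inter
      (isOpen_lt (f := fun t : P2 => ‖t 1‖) (g := fun t : P2 => ε * Real.exp (-‖t 0‖ / 2))
        (by fun_prop) (by fun_prop))⟩

end Pool.Agent.MP_e62289_ag
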